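import Pool.Agent.Y229.MS.Stm
import Pool.Agent.H628R4.TP.LocDefs

/-!
# Project CUB: cubic polynomials suffice for the monodromy conjectures

Definitions and statements of the parts.
-/

set_option autoImplicit false

namespace Pool.Agent.N101.CB

open MvPolynomial Pool.Agent.W428.MOT
open Pool.Agent.W375.MG (JetG Good)
open Pool.Agent.Y229.MS (addyz Wyz CE)
open Pool.Agent.H628R4.TP (IsBFunction IsLocalBFunction)

section
variable {K : Type} [Field K] {n : ℕ}

/-- `f(x) + (t + v(x)) (w - u(x))`, in the variables `x, t, w` -/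
noncomputable def stp (f u v : MvPolynomial (Fin n) K) : MvPolynomial (Fin (n + 2)) K :=
  rename (Fin.castAdd 2) f +
    (X (Fin.natAdd n 0) + rename (Fin.castAdd 2) v) *
      (X (Fin.natAdd n 1) - rename (Fin.castAdd 2) u)

/-- The variables can be divided into two classes `t` (`T`) and `x` (the others) such that all
monomials of `f` are squarefree, of degree at most one in `t` and of degree at most two in `x`:
`f = q_0(x) + ∑_k t_k q_k(x)` with polynomials `q_0, q_k` of degree at most two, without squares. -/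
def Cub (f : MvPolynomial (Fin n) K) : Prop :=
  ∃ T : Finset (Fin n), ∀ m ∈ f.support,
    (∀ i, m i ≤ 1) ∧ ∑ i ∈ T, m i ≤ 1 ∧ ∑ i ∈ Tᶜ, m i ≤ 2

/-- the origins in `W`, with `y = z = 0` -/
def Wo (W : Set (Pt K (Fin n))) : Set (Pt K (Fin (n + 2))) :=
  {w | (fun i => w (Fin.castAdd 2 i)) ∈ W ∧ w (Fin.natAdd n 0) = 0 ∧ w (Fin.natAdd n 1) = 0}

end

/-- (RED) the reduction principle -/
def TaskRED : Prop :=
  ∀ (K : Type) [Field K] (P : ∀ n : ℕ, MvPolynomial (Fin n) K → Prop),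
    (∀ (n : ℕ) (f : MvPolynomial (Fin n) K), Cub f → P n f) →
    (∀ (n : ℕ) (f u v : MvPolynomial (Fin n) K), constantCoeff u = 0 → constantCoeff v = 0 →
      P (n + 2) (stp f u v) → P (n + 2 + 2) (addyz (stp f u v)) → P n f) →
    ∀ (n : ℕ) (f : MvPolynomial (Fin n) K), P n f

/-- (LOC) the jets of `f + y z` with `y(0) = z(0) = 0` -/
def TaskLOC : Prop :=
  ∀ (K : Type) [Field K] (R : Type) [CommRing R] (M : Meas K R) {n : ℕ}
    (f : MvPolynomial (Fin n) K) (W : Set (Pt K (Fin n))) (E : Set (AlgebraicClosure K)),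
    Constr W → CE E → (∀ z ∈ W, aeval z f = 0) → ∀ N : ℕ, 1 ≤ N →
    M.χ _ (JetG (addyz f) (Wyz W) E N) = M.χ _ (JetG (addyz f) (Wo W) E N) +
      2 * (M.χ (Fin 1) {a | a 0 ∈ E} * M.χ (Fin n) W * (M.L - 1) * M.L ^ (n * N) * M.L ^ N)

/-- (PSI) the automorphism `t ↦ t + v`, `w ↦ w - u` -/
def TaskPSI : Prop :=
  ∀ (K : Type) [Field K] (R : Type) [CommRing R] (M : Meas K R) {n : ℕ}
    (f u v : MvPolynomial (Fin n) K) (W : Set (Pt K (Fin n))) (E : Set (AlgebraicClosure K)),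
    Constr W → CE E → ∀ N : ℕ,
    M.χ _ (JetG (stp f u v) (Wyz W) E N) = M.χ _ (JetG (addyz f) (Wyz W) E N) ∧
    ((∀ z ∈ W, aeval z u = 0 ∧ aeval z v = 0) →
      M.χ _ (JetG (stp f u v) (Wo W) E N) = M.χ _ (JetG (addyz f) (Wo W) E N))

/-- (BG) the functional equation of `f + (t + v) (w - u)` -/
def TaskBG : Prop :=
  ∀ {n : ℕ} (f u v : MvPolynomial (Fin n) ℂ), f.totalDegree ≠ 0 → ∀ b : Polynomial ℂ,
    IsBFunction f b → b.eval (-1) = 0 ∧ ∀ c : Polynomial ℂ, b = (Polynomial.X + 1) * c →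
      IsBFunction (stp f u v) ((Polynomial.X + 1) * c.comp (Polynomial.X + 1))

/-- (BL) the local functional equation of `f + (t + v) (w - u)` -/
def TaskBL : Prop :=
  ∀ {n : ℕ} (f u v : MvPolynomial (Fin n) ℂ), f ≠ 0 → constantCoeff f = 0 →
    constantCoeff u = 0 → constantCoeff v = 0 → ∀ b : Polynomial ℂ,
    IsLocalBFunction f b → b.eval (-1) = 0 ∧ ∀ c : Polynomial ℂ, b = (Polynomial.X + 1) * c →
      IsLocalBFunction (stp f u v) ((Polynomial.X + 1) * c.comp (Polynomial.X + 1))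

end Pool.Agent.N101.CB
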