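import Pool.Agent.N101.CB.GStab
import Pool.Agent.N101.CB.Stm
import Pool.Agent.W578.SI.Scale

set_option autoImplicit false

/-! # (BG) the functional equation of `f + (t + v) (w - u)`

The lemmas are copied from `Y229/RE/Loc.lean` and `Y229/PG/Main.lean`, to keep the closure small. -/

namespace Pool.Agent.N101.CB.BGl

open MvPolynomial
open Pool.Agent.H628R4.TP
open Pool.Agent.W578.SI (cj cj_def cj_mem b_transfer)
open Pool.Agent.Y229.RE (Sep mul_mem pd_mem)

variable {N M k : ℕ}

/-- `f + ∑ y_i z_i` -/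
noncomputable def stab (f : MvPolynomial (Fin N) ℂ) (k : ℕ) :
    MvPolynomial (Fin (N + (k + k))) ℂ :=
  MvPolynomial.rename (Fin.castAdd (k + k)) f +
    ∑ i : Fin k, MvPolynomial.X (Fin.natAdd N (Fin.castAdd k i)) *
      MvPolynomial.X (Fin.natAdd N (Fin.natAdd k i))

lemma sep_stab : Sep (N := N) (Fin.castAdd (k + k)) (fun i : Fin k => Fin.natAdd N (Fin.castAdd k i))
    (fun i : Fin k => Fin.natAdd N (Fin.natAdd k i)) where
  i1 := Fin.castAdd_injective _ _
  i2 := fun i j h => by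
    have := congrArg Fin.val h
    simp at this
    exact Fin.ext this
  i3 := fun i j h => by
    have := congrArg Fin.val h
    simp at this
    exact Fin.ext this
  n1 := fun i j h => by
    have := congrArg Fin.val h
    simp at this
    omega
  n2 := fun i j h => by
    have := congrArg Fin.val h
    simp at this
    omega
  n3 := fun i j h => by
    have := congrArg Fin.val h
    simp at this
    omega

/-- conjugation by an automorphism preserves the Weyl algebra -/
theorem cj_all (φ : MvPolynomial (Fin M) ℂ ≃ₐ[ℂ] MvPolynomial (Fin M) ℂ) :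
    ∀ Q ∈ weylS (Fin M), cj φ Q ∈ weylS (Fin M) := by
  refine cj_mem φ (fun i => Pool.Agent.Y229.RE.mul_mem _) fun i => ?_
  have h1 : cj φ ((pderiv i : Derivation ℂ (MvPolynomial (Fin M) ℂ)
      (MvPolynomial (Fin M) ℂ)) : MvPolynomial (Fin M) ℂ →ₗ[ℂ] MvPolynomial (Fin M) ℂ) =
      ∑ j, LinearMap.mulLeft ℂ (φ (pderiv i (φ.symm (X j)))) *
        ((pderiv j : Derivation ℂ (MvPolynomial (Fin M) ℂ)
      (MvPolynomial (Fin M) ℂ)) : MvPolynomial (Fin M) ℂ →ₗ[ℂ] MvPolynomial (Fin M) ℂ) := by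
    refine LinearMap.ext fun g => ?_
    rw [cj_def, LinearMap.sum_apply]
    show φ (pderiv i (φ.symm g)) = ∑ j, φ (pderiv i (φ.symm (X j))) * pderiv j g
    induction g using MvPolynomial.induction_on with
    | C c =>
      rw [show φ.symm (C c : MvPolynomial (Fin M) ℂ) = C c from φ.symm.commutes c, pderiv_C,
        map_zero]
      exact (Finset.sum_eq_zero fun j _ => by rw [pderiv_C, mul_zero]).symm
    | add p q hp hq =>
      rw [map_add, map_add, map_add, hp, hq, ← Finset.sum_add_distrib]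
      refine Finset.sum_congr rfl fun j _ => ?_
      rw [map_add, mul_add]
    | mul_X p j0 hp =>
      classical
      rw [map_mul, Derivation.leibniz, smul_eq_mul, smul_eq_mul, map_add, map_mul, map_mul, hp,
        AlgEquiv.apply_symm_apply, AlgEquiv.apply_symm_apply]
      have h2 : ∀ j, φ (pderiv i (φ.symm (X j))) * pderiv j (p * X j0) =
          (if j = j0 then p * φ (pderiv i (φ.symm (X j0))) else 0) +
            X j0 * (φ (pderiv i (φ.symm (X j))) * pderiv j p) := by
        intro j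
        rw [Derivation.leibniz, smul_eq_mul, smul_eq_mul]
        by_cases h3 : j = j0
        · subst h3
          rw [pderiv_X_self, if_pos rfl]
          ring
        · rw [pderiv_X_of_ne (Ne.symm h3), if_neg h3]
          ring
      rw [Finset.sum_congr rfl fun j _ => h2 j, Finset.sum_add_distrib, Finset.sum_ite_eq' _ j0,
        if_pos (Finset.mem_univ _), Finset.mul_sum]
  rw [h1]
  exact Subalgebra.sum_mem _ fun j _ =>
    Subalgebra.mul_mem _ (Pool.Agent.Y229.RE.mul_mem _) (pd_mem j)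


/-- **The functional equation of the image of `f + ∑ y_i z_i` under an automorphism.** -/
theorem becomes_global {f : MvPolynomial (Fin N) ℂ} (hf : f.totalDegree ≠ 0) {b : Polynomial ℂ}
    (hb : IsBFunction f b) (k : ℕ)
    (φ : MvPolynomial (Fin (N + (k + k))) ℂ ≃ₐ[ℂ] MvPolynomial (Fin (N + (k + k))) ℂ) :
    b.eval (-1) = 0 ∧ ∀ c : Polynomial ℂ, b = (Polynomial.X + 1) * c →
      IsBFunction (φ (stab f k))
        ((Polynomial.X + 1) * c.comp (Polynomial.X + Polynomial.C (k : ℂ))) := by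
  obtain ⟨h1, h2⟩ := reduced hf (formal_iff.1 hb)
  refine ⟨h1, fun c hc => ?_⟩
  have h3 := b_transfer φ (cj_all φ) 1 one_ne_zero _ _
    (formal_iff.2 (unreduced (red_stab sep_stab f c (h2 c hc))))
  rw [C_1, one_mul] at h3
  exact h3

section

variable {n : ℕ}

/-- `x ↦ x`, `t ↦ t + v`, `w ↦ w - u` -/
noncomputable def sub2 (u v : MvPolynomial (Fin n) ℂ) :
    MvPolynomial (Fin (n + 2)) ℂ →ₐ[ℂ] MvPolynomial (Fin (n + 2)) ℂ :=
  aeval (Fin.append (fun i => X (Fin.castAdd 2 i))
    ![X (Fin.natAdd n 0) + rename (Fin.castAdd 2) v,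
      X (Fin.natAdd n 1) - rename (Fin.castAdd 2) u])

lemma sub2_x (u v : MvPolynomial (Fin n) ℂ) (i : Fin n) :
    sub2 u v (X (Fin.castAdd 2 i)) = X (Fin.castAdd 2 i) := by
  rw [sub2, aeval_X, Fin.append_left]

lemma sub2_t (u v : MvPolynomial (Fin n) ℂ) :
    sub2 u v (X (Fin.natAdd n 0)) = X (Fin.natAdd n 0) + rename (Fin.castAdd 2) v := by
  rw [sub2, aeval_X, Fin.append_right]
  rfl

lemma sub2_w (u v : MvPolynomial (Fin n) ℂ) :
    sub2 u v (X (Fin.natAdd n 1)) = X (Fin.natAdd n 1) - rename (Fin.castAdd 2) u := by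
  rw [sub2, aeval_X, Fin.append_right]
  rfl

lemma sub2_rename (u v p : MvPolynomial (Fin n) ℂ) :
    sub2 u v (rename (Fin.castAdd 2) p) = rename (Fin.castAdd 2) p := by
  have h1 : (sub2 u v).comp (rename (Fin.castAdd 2)) = rename (Fin.castAdd 2) := by
    apply MvPolynomial.algHom_ext
    intro i
    rw [AlgHom.comp_apply, rename_X, sub2_x]
  exact DFunLike.congr_fun h1 p

lemma sub2_comp (u v : MvPolynomial (Fin n) ℂ) :
    (sub2 u v).comp (sub2 (-u) (-v)) = AlgHom.id ℂ _ := by
  apply MvPolynomial.algHom_ext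
  refine Fin.addCases (fun i => ?_) (fun i => ?_)
  · rw [AlgHom.comp_apply, sub2_x, sub2_x, AlgHom.id_apply]
  · fin_cases i
    · show sub2 u v (sub2 (-u) (-v) (X (Fin.natAdd n 0))) = X (Fin.natAdd n 0)
      rw [sub2_t, map_add, sub2_t, sub2_rename, map_neg, add_neg_cancel_right]
    · show sub2 u v (sub2 (-u) (-v) (X (Fin.natAdd n 1))) = X (Fin.natAdd n 1)
      rw [sub2_w, map_sub, sub2_w, sub2_rename, map_neg, sub_neg_eq_add, sub_add_cancel]

/-- `x ↦ x`, `t ↦ t + v`, `w ↦ w - u` -/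
noncomputable def sub2E (u v : MvPolynomial (Fin n) ℂ) :
    MvPolynomial (Fin (n + 2)) ℂ ≃ₐ[ℂ] MvPolynomial (Fin (n + 2)) ℂ :=
  AlgEquiv.ofAlgHom (sub2 u v) (sub2 (-u) (-v)) (sub2_comp u v)
    (by simpa only [neg_neg] using sub2_comp (-u) (-v))

lemma stab_one (f : MvPolynomial (Fin n) ℂ) :
    stab f 1 = Pool.Agent.Y229.MS.addyz f := by
  unfold stab Pool.Agent.Y229.MS.addyz
  rw [Fin.sum_univ_one]
  rfl

lemma sub2E_stab (f u v : MvPolynomial (Fin n) ℂ) :
    sub2E u v (Pool.Agent.Y229.MS.addyz f) = stp f u v := by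
  show sub2 u v (Pool.Agent.Y229.MS.addyz f) = stp f u v
  unfold Pool.Agent.Y229.MS.addyz stp
  rw [map_add, map_mul, sub2_rename, sub2_t, sub2_w]

end

end Pool.Agent.N101.CB.BGl

namespace Pool.Agent.N101.CB

/-- (BG) the functional equation of `f + (t + v) (w - u)` -/
theorem bg : TaskBG := by
  intro n f u v hf b hb
  obtain ⟨h1, h2⟩ := BGl.becomes_global hf hb 1 (BGl.sub2E u v)
  refine ⟨h1, fun c hc => ?_⟩
  have h3 := h2 c hc
  rw [Nat.cast_one, Polynomial.C_1] at h3
  have h4 : BGl.sub2E u v (BGl.stab f 1) = stp f u v := by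
    rw [← BGl.sub2E_stab]
    exact congrArg (BGl.sub2E u v) (BGl.stab_one f)
  rw [h4] at h3
  exact h3

end Pool.Agent.N101.CB
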