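import Pool.Agent.N101.CB.Stm
import Pool.Agent.Y229.PS.Coord

/-!
# Project CUB, part BL (helper774): the local functional equation of `f + (t + v) (w - u)`
-/

set_option autoImplicit false

namespace Pool.Agent.N101.CB.BLx

open MvPolynomial
open Pool.Agent.Y229.PS (qq WW B1 B2 IsFormalBFunction formal_iff reduced unreduced red_stab
  coordB local_of_formal formal_of_local)
open Pool.Agent.Y229.RE (Sep)
open Pool.Agent.Y229.GL (IsCoord)

variable {n : ℕ}

/-- the variables -/
lemma sep2 : Sep (N := n) (Fin.castAdd 2) (fun _ : Fin 1 => Fin.natAdd n (0 : Fin 2))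
    (fun _ : Fin 1 => Fin.natAdd n (1 : Fin 2)) where
  i1 := Fin.castAdd_injective _ _
  i2 := fun i j _ => Subsingleton.elim i j
  i3 := fun i j _ => Subsingleton.elim i j
  n1 := fun i j h => by
    have := congrArg Fin.val h
    simp at this
    omega
  n2 := fun i j h => by
    have := congrArg Fin.val h
    simp at this
    omega
  n3 := fun i j h => by
    have := congrArg Fin.val h
    simp at this

/-- the coordinates `x, t + v, w - u` as polynomials -/
noncomputable def ph (u v : MvPolynomial (Fin n) ℂ) : Fin (n + 2) → MvPolynomial (Fin (n + 2)) ℂ :=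
  Fin.addCases (fun i => X (Fin.castAdd 2 i))
    ![X (Fin.natAdd n 0) + rename (Fin.castAdd 2) v, X (Fin.natAdd n 1) - rename (Fin.castAdd 2) u]

lemma ph_x (u v : MvPolynomial (Fin n) ℂ) (i : Fin n) :
    ph u v (Fin.castAdd 2 i) = X (Fin.castAdd 2 i) := by
  unfold ph
  rw [Fin.addCases_left]

lemma ph_t (u v : MvPolynomial (Fin n) ℂ) :
    ph u v (Fin.natAdd n 0) = X (Fin.natAdd n 0) + rename (Fin.castAdd 2) v := by
  unfold ph
  rw [Fin.addCases_right]
  rfl

lemma ph_w (u v : MvPolynomial (Fin n) ℂ) :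
    ph u v (Fin.natAdd n 1) = X (Fin.natAdd n 1) - rename (Fin.castAdd 2) u := by
  unfold ph
  rw [Fin.addCases_right]
  rfl

lemma const_rn (u : MvPolynomial (Fin n) ℂ) :
    constantCoeff (rename (Fin.castAdd 2) u) = constantCoeff u :=
  constantCoeff_rename _ _

lemma const_coe (p : MvPolynomial (Fin n) ℂ) :
    MvPowerSeries.constantCoeff (p : MvPowerSeries (Fin n) ℂ) = constantCoeff p := by
  rw [← MvPowerSeries.coeff_zero_eq_constantCoeff_apply, MvPolynomial.coeff_coe,
    MvPolynomial.constantCoeff_eq]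

lemma ph_zero {u v : MvPolynomial (Fin n) ℂ} (hu : constantCoeff u = 0)
    (hv : constantCoeff v = 0) (i : Fin (n + 2)) :
    MvPowerSeries.constantCoeff (ph u v i : MvPowerSeries (Fin (n + 2)) ℂ) = 0 := by
  rw [const_coe]
  refine Fin.addCases (fun i => ?_) (fun i => ?_) i
  · rw [ph_x, constantCoeff_X]
  · fin_cases i
    · show constantCoeff (ph u v (Fin.natAdd n 0)) = 0
      rw [ph_t, map_add, constantCoeff_X, const_rn, hv, add_zero]
    · show constantCoeff (ph u v (Fin.natAdd n 1)) = 0
      rw [ph_w, map_sub, constantCoeff_X, const_rn, hu, sub_zero]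

/-- the coefficient of a new variable in an old polynomial -/
lemma coeff_new (p : MvPolynomial (Fin n) ℂ) (j : Fin 2) :
    coeff (Finsupp.single (Fin.natAdd n j) 1) (rename (Fin.castAdd 2) p) = 0 := by
  refine coeff_rename_eq_zero _ _ _ ?_
  intro m hm
  exfalso
  have h1 := DFunLike.congr_fun hm (Fin.natAdd n j)
  rw [Finsupp.mapDomain_of_notMem_range, Finsupp.single_eq_same] at h1
  · exact zero_ne_one h1
  · rintro ⟨i, hi⟩
    have := congrArg Fin.val hi
    simp at this
    omega

lemma coeff_X' (a b : Fin (n + 2)) :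
    coeff (Finsupp.single b 1) (X a : MvPolynomial (Fin (n + 2)) ℂ) = if a = b then 1 else 0 := by
  classical
  rw [coeff_X]
  by_cases h : a = b
  · subst h
    simp
  · rw [if_neg h, if_neg]
    intro h2
    exact h (Finsupp.single_left_injective one_ne_zero h2)

lemma ph_coord (u v : MvPolynomial (Fin n) ℂ) :
    IsCoord (fun i => (ph u v i : MvPowerSeries (Fin (n + 2)) ℂ)) := by
  unfold IsCoord
  rw [Matrix.det_of_isLowerTriangular]
  · rw [Finset.prod_ne_zero_iff]
    intro i _
    rw [Matrix.of_apply, MvPolynomial.coeff_coe]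
    refine Fin.addCases (fun i => ?_) (fun i => ?_) i
    · rw [ph_x, coeff_X', if_pos rfl]
      exact one_ne_zero
    · fin_cases i
      · show coeff (Finsupp.single (Fin.natAdd n 0) 1) (ph u v (Fin.natAdd n 0)) ≠ 0
        rw [ph_t, coeff_add, coeff_X', if_pos rfl, coeff_new, add_zero]
        exact one_ne_zero
      · show coeff (Finsupp.single (Fin.natAdd n 1) 1) (ph u v (Fin.natAdd n 1)) ≠ 0
        rw [ph_w, coeff_sub, coeff_X', if_pos rfl, coeff_new, sub_zero]
        exact one_ne_zero
  · intro i j hij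
    have hij' : i < j := hij
    rw [Matrix.of_apply, MvPolynomial.coeff_coe]
    revert hij'
    refine Fin.addCases (fun i => ?_) (fun i => ?_) i
    · intro hij'
      rw [ph_x, coeff_X', if_neg hij'.ne]
    · intro hij'
      have hj : ∃ j' : Fin 2, j = Fin.natAdd n j' := by
        revert hij'
        refine Fin.addCases (fun j => ?_) (fun j => ?_) j
        · intro h
          exfalso
          have := Fin.lt_def.1 h
          simp at this
          omega
        · intro _
          exact ⟨j, rfl⟩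
      obtain ⟨j', rfl⟩ := hj
      fin_cases i
      · show coeff (Finsupp.single (Fin.natAdd n j') 1) (ph u v (Fin.natAdd n 0)) = 0
        rw [ph_t, coeff_add, coeff_X', coeff_new, add_zero, if_neg]
        exact hij'.ne
      · show coeff (Finsupp.single (Fin.natAdd n j') 1) (ph u v (Fin.natAdd n 1)) = 0
        rw [ph_w, coeff_sub, coeff_X', coeff_new, sub_zero, if_neg]
        exact hij'.ne

lemma base_eq (f : MvPolynomial (Fin n) ℂ) :
    MvPowerSeries.rename (Fin.castAdd 2) (f : MvPowerSeries (Fin n) ℂ) +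
      qq (fun _ : Fin 1 => Fin.natAdd n (0 : Fin 2)) (fun _ : Fin 1 => Fin.natAdd n (1 : Fin 2)) =
    ((rename (Fin.castAdd 2) f + X (Fin.natAdd n 0) * X (Fin.natAdd n 1) :
      MvPolynomial (Fin (n + 2)) ℂ) : MvPowerSeries (Fin (n + 2)) ℂ) := by
  rw [MvPowerSeries.rename_coe, MvPolynomial.coe_add, MvPolynomial.coe_mul, MvPolynomial.coe_X,
    MvPolynomial.coe_X]
  unfold qq
  rw [Fin.sum_univ_one]

lemma subst_eq {u v : MvPolynomial (Fin n) ℂ} (hu : constantCoeff u = 0)
    (hv : constantCoeff v = 0) (f : MvPolynomial (Fin n) ℂ) :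
    MvPowerSeries.subst (fun i => (ph u v i : MvPowerSeries (Fin (n + 2)) ℂ))
      ((rename (Fin.castAdd 2) f + X (Fin.natAdd n 0) * X (Fin.natAdd n 1) :
        MvPolynomial (Fin (n + 2)) ℂ) : MvPowerSeries (Fin (n + 2)) ℂ) =
      (stp f u v : MvPowerSeries (Fin (n + 2)) ℂ) := by
  have hs := MvPowerSeries.hasSubst_of_constantCoeff_zero (ph_zero (n := n) hu hv)
  rw [MvPowerSeries.subst_coe]
  have h1 : ∀ p : MvPolynomial (Fin (n + 2)) ℂ,
      MvPolynomial.aeval (fun i => (ph u v i : MvPowerSeries (Fin (n + 2)) ℂ)) p =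
      ((MvPolynomial.aeval (ph u v) p : MvPolynomial (Fin (n + 2)) ℂ) :
        MvPowerSeries (Fin (n + 2)) ℂ) := by
    intro p
    induction p using MvPolynomial.induction_on with
    | C a =>
      rw [aeval_C, aeval_C, MvPolynomial.algebraMap_eq, MvPolynomial.coe_C]
      rfl
    | add p q hp hq => rw [map_add, map_add, hp, hq, MvPolynomial.coe_add]
    | mul_X p i hp => rw [map_mul, map_mul, hp, aeval_X, aeval_X, MvPolynomial.coe_mul]
  rw [h1]
  congr 1
  rw [map_add, map_mul, aeval_X, aeval_X, aeval_rename, ph_t, ph_w]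
  unfold stp
  congr 1
  have h3 : (ph u v ∘ Fin.castAdd 2) = X ∘ Fin.castAdd 2 := by
    funext i
    exact ph_x u v i
  rw [h3, ← aeval_rename, aeval_X_left, AlgHom.id_apply]

end Pool.Agent.N101.CB.BLx

namespace Pool.Agent.N101.CB

open MvPolynomial BLx
open Pool.Agent.Y229.PS (qq WW B1 B2 IsFormalBFunction formal_iff reduced unreduced red_stab
  coordB local_of_formal formal_of_local)

/-- **The local functional equation of `f + (t + v) (w - u)`.** -/
theorem bl : TaskBL := by
  intro n f u v hf0 hf hu hv b hb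
  have hF0 : (f : MvPowerSeries (Fin n) ℂ) ≠ 0 := by
    intro h
    exact hf0 (MvPolynomial.coe_eq_zero_iff.1 h)
  have hF : MvPowerSeries.constantCoeff (f : MvPowerSeries (Fin n) ℂ) = 0 := by
    rw [const_coe, hf]
  obtain ⟨h1, h2⟩ := reduced hF0 hF (formal_iff.1 (formal_of_local hb))
  refine ⟨h1, fun c hc => ?_⟩
  have h3 := red_stab sep2 (f : MvPowerSeries (Fin n) ℂ) c (h2 c hc)
  rw [base_eq] at h3
  have h4 := coordB (ph_coord u v) (ph_zero hu hv) (formal_iff.2 (unreduced h3))
  rw [subst_eq hu hv] at h4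
  have h5 := local_of_formal h4
  rwa [Nat.cast_one, Polynomial.C_1] at h5

end Pool.Agent.N101.CB
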