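import Pool.Agent.N101.CB.Red

/-!
# Project CUB: chains of stabilisations
-/

set_option autoImplicit false

namespace Pool.Agent.N101.CB

open MvPolynomial

/-- **Chains.** A relation between `f` (in `n` variables) and `F` (in `n + 2 κ` variables) which is
reflexive and compatible with the steps relates every `f` to a cubic `F`. -/
theorem chain {K : Type} [Field K]
    (R : ∀ {n m : ℕ}, MvPolynomial (Fin n) K → MvPolynomial (Fin m) K → ℕ → Prop)
    (h0 : ∀ {n : ℕ} (f : MvPolynomial (Fin n) K), R f f 0)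
    (h1 : ∀ {n m : ℕ} (f u v : MvPolynomial (Fin n) K) (F : MvPolynomial (Fin m) K) (κ : ℕ),
      constantCoeff u = 0 → constantCoeff v = 0 → R (stp f u v) F κ → R f F (κ + 1))
    {n : ℕ} (f : MvPolynomial (Fin n) K) :
    ∃ (κ m : ℕ) (F : MvPolynomial (Fin m) K), m = n + 2 * κ ∧ Cub F ∧ R f F κ := by
  refine red K (fun n f => ∃ (κ m : ℕ) (F : MvPolynomial (Fin m) K),
    m = n + 2 * κ ∧ Cub F ∧ R f F κ) ?_ ?_ n f
  · intro n f hf
    exact ⟨0, n, f, rfl, hf, h0 f⟩
  · rintro n f u v hu hv ⟨κ, m, F, hm, hF, hR⟩ -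
    exact ⟨κ + 1, m, F, by omega, hF, h1 f u v F κ hu hv hR⟩

section
variable {K : Type} [Field K] {n : ℕ}

theorem stp_eval {A : Type} [CommRing A] [Algebra K A] (f u v : MvPolynomial (Fin n) K)
    (x : Fin n → A) (t w : A) :
    aeval (Fin.append x ![t, w]) (stp f u v) = aeval x f + (t + aeval x v) * (w - aeval x u) := by
  have h : ∀ p : MvPolynomial (Fin n) K,
      aeval (Fin.append x ![t, w]) (rename (Fin.castAdd 2) p) = aeval x p := by
    intro p
    rw [aeval_rename]
    congr 1
    congr 1
    funext i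
    exact Fin.append_left _ _ _
  unfold stp
  rw [map_add, map_mul, map_add, map_sub, h, h, h, aeval_X, aeval_X, Fin.append_right,
    Fin.append_right]
  rfl

theorem stp_const (f u v : MvPolynomial (Fin n) K) (hf : constantCoeff f = 0)
    (hu : constantCoeff u = 0) (_hv : constantCoeff v = 0) : constantCoeff (stp f u v) = 0 := by
  unfold stp
  rw [map_add, map_mul, map_add, map_sub, constantCoeff_rename, constantCoeff_rename,
    constantCoeff_rename, constantCoeff_X, constantCoeff_X, hf, hu]
  ring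

theorem stp_deg (f u v : MvPolynomial (Fin n) K) : (stp f u v).totalDegree ≠ 0 := by
  intro h
  rw [totalDegree_eq_zero_iff_eq_C] at h
  have h1 := stp_eval (A := K) f u v (fun _ => 0) (1 - aeval (fun _ => (0 : K)) v)
    (1 + aeval (fun _ => (0 : K)) u)
  have h2 := stp_eval (A := K) f u v (fun _ => 0) (- aeval (fun _ => (0 : K)) v)
    (1 + aeval (fun _ => (0 : K)) u)
  rw [h, aeval_C] at h1 h2
  have h3 := h1.symm.trans h2
  ring_nf at h3
  simp at h3

end

end Pool.Agent.N101.CB
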