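import Pool.Agent.N101.CB.StmD

/-!
# Project CUB, leaf DB (helper78): the functional equation of the dehomogenisation
-/

set_option autoImplicit false

namespace Pool.Agent.N101.CB

open MvPolynomial
open Pool.Agent.H628R4.TP (IsBFunction weylS)

namespace DBaux

/-- the Weyl algebra -/
noncomputable abbrev W (m : ℕ) := weylS (Fin m)

/-- endomorphisms of the polynomial ring -/
abbrev En (m : ℕ) := Module.End ℂ (MvPolynomial (Fin m) ℂ)

/-- multiplication by a variable -/
noncomputable def mX {m : ℕ} (i : Fin m) : En m := LinearMap.mulLeft ℂ (X i)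

/-- partial derivative -/
noncomputable def pd {m : ℕ} (i : Fin m) : En m :=
  ((pderiv i : Derivation ℂ (MvPolynomial (Fin m) ℂ) (MvPolynomial (Fin m) ℂ)) :
    MvPolynomial (Fin m) ℂ →ₗ[ℂ] MvPolynomial (Fin m) ℂ)

theorem mX_mem {m : ℕ} (i : Fin m) : mX i ∈ weylS (Fin m) :=
  Algebra.subset_adjoin (Or.inl ⟨i, rfl⟩)

theorem pd_mem {m : ℕ} (i : Fin m) : pd i ∈ weylS (Fin m) :=
  Algebra.subset_adjoin (Or.inr ⟨i, rfl⟩)

@[simp] theorem mX_apply {m : ℕ} (i : Fin m) (p : MvPolynomial (Fin m) ℂ) : mX i p = X i * p := rfl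

@[simp] theorem pd_apply {m : ℕ} (i : Fin m) (p : MvPolynomial (Fin m) ℂ) :
    pd i p = pderiv i p := rfl

/-! ### polynomial families of operators -/

/-- polynomial dependence on `s` with coefficients in the Weyl algebra -/
def PolS {m : ℕ} (F : ℕ → En m) : Prop :=
  ∃ P : Polynomial (W m), ∀ s : ℕ, F s = ((P.eval (algebraMap ℂ (W m) (s : ℂ)) : W m) : En m)

theorem polS_add {m : ℕ} {F F' : ℕ → En m} (h : PolS F) (h' : PolS F') :
    PolS (fun s => F s + F' s) := by
  obtain ⟨P, hP⟩ := h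
  obtain ⟨P', hP'⟩ := h'
  refine ⟨P + P', fun s => ?_⟩
  show F s + F' s = _
  rw [Polynomial.eval_add, hP, hP']
  rfl

theorem polS_mul {m : ℕ} {F F' : ℕ → En m} (h : PolS F) (h' : PolS F') :
    PolS (fun s => F s * F' s) := by
  obtain ⟨P, hP⟩ := h
  obtain ⟨P', hP'⟩ := h'
  refine ⟨P * P', fun s => ?_⟩
  have h1 : (P * P').eval (algebraMap ℂ (W m) (s : ℂ)) =
      P.eval (algebraMap ℂ (W m) (s : ℂ)) * P'.eval (algebraMap ℂ (W m) (s : ℂ)) := by
    have := Polynomial.eval₂_mul_noncomm (p := P) (q := P') (RingHom.id (W m))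
      (algebraMap ℂ (W m) (s : ℂ)) (fun k => (Algebra.commutes _ _).symm)
    exact this
  show F s * F' s = _
  rw [h1, hP, hP']
  rfl

theorem polS_const {m : ℕ} {R : En m} (h : R ∈ weylS (Fin m)) : PolS (fun _ => R) :=
  ⟨Polynomial.C ⟨R, h⟩, fun s => by rw [Polynomial.eval_C]⟩

theorem polS_s {m : ℕ} : PolS (fun s => (s : ℂ) • (1 : En m)) :=
  ⟨Polynomial.X, fun s => by
    rw [Polynomial.eval_X, Algebra.algebraMap_eq_smul_one]
    rfl⟩

theorem polS_smul {m : ℕ} (c : ℂ) {F : ℕ → En m} (h : PolS F) : PolS (fun s => c • F s) := by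
  have h1 : PolS (fun _ : ℕ => (c • (1 : En m))) :=
    polS_const (Subalgebra.smul_mem _ (Subalgebra.one_mem _) c)
  have h2 := polS_mul h1 h
  simpa using h2

theorem polS_pow {m : ℕ} (j : ℕ) {F : ℕ → En m} (h : PolS F) :
    PolS (fun s => (s : ℂ) ^ j • F s) := by
  induction j with
  | zero => simpa using h
  | succ j ih =>
    have h2 := polS_mul (polS_s (m := m)) ih
    refine cast ?_ h2
    congr 1
    funext s
    rw [smul_mul_assoc, one_mul, smul_smul, pow_succ']

theorem polS_sum {m : ℕ} {ι : Type} (S : Finset ι) (F : ι → ℕ → En m) (h : ∀ i ∈ S, PolS (F i)) :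
    PolS (fun s => ∑ i ∈ S, F i s) := by
  classical
  induction S using Finset.induction_on with
  | empty =>
    simp only [Finset.sum_empty]
    exact polS_const (Subalgebra.zero_mem _)
  | insert i S hi ih =>
    simp only [Finset.sum_insert hi]
    exact polS_add (h i (by simp)) (ih fun j hj => h j (by simp [hj]))

/-! ### quasi-homogeneous polynomials -/

variable {m : ℕ} (w : Fin m → ℕ)

/-- the weight of a monomial -/
def wt (e : Fin (m + 1) →₀ ℕ) : ℕ := e (Fin.last m) + ∑ i, w i * e (Fin.castSucc i)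

/-- the weight of a variable -/
def wv : Fin (m + 1) → ℕ := Fin.snoc (α := fun _ => ℕ) w 1

theorem wt_single (j : Fin (m + 1)) : wt w (Finsupp.single j 1) = wv w j := by
  classical
  unfold wt wv
  refine Fin.lastCases ?_ (fun i => ?_) j
  · have h0 : ∑ i, w i * (Finsupp.single (Fin.last m) 1 : Fin (m + 1) →₀ ℕ) (Fin.castSucc i) = 0 :=
      Finset.sum_eq_zero fun i _ => by
        rw [Finsupp.single_eq_of_ne (Fin.castSucc_lt_last i).ne, mul_zero]
    rw [h0, Fin.snoc_last, Finsupp.single_eq_same]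
  · rw [Fin.snoc_castSucc, Finsupp.single_eq_of_ne (Fin.castSucc_lt_last i).ne', zero_add,
      Finset.sum_eq_single i]
    · rw [Finsupp.single_eq_same, mul_one]
    · intro i' _ hi'
      rw [Finsupp.single_eq_of_ne, mul_zero]
      intro h
      exact hi' (Fin.castSucc_injective _ h)
    · intro h
      exact absurd (Finset.mem_univ i) h

theorem wt_add (e e' : Fin (m + 1) →₀ ℕ) : wt w (e + e') = wt w e + wt w e' := by
  unfold wt
  simp only [Finsupp.add_apply, mul_add, Finset.sum_add_distrib]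
  ring

/-- quasi-homogeneous polynomials of weight `D` -/
noncomputable def HS (D : ℤ) : Submodule ℂ (MvPolynomial (Fin (m + 1)) ℂ) :=
  Submodule.span ℂ {x | ∃ e : Fin (m + 1) →₀ ℕ, (wt w e : ℤ) = D ∧ x = monomial e 1}

theorem mono_mem {e : Fin (m + 1) →₀ ℕ} {D : ℤ} (h : (wt w e : ℤ) = D) (c : ℂ) :
    monomial e c ∈ HS w D := by
  have : (monomial e c : MvPolynomial (Fin (m + 1)) ℂ) = c • monomial e 1 := by
    rw [smul_monomial, smul_eq_mul, mul_one]
  rw [this]
  exact Submodule.smul_mem _ _ (Submodule.subset_span ⟨e, h, rfl⟩)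

theorem HS_mX (j : Fin (m + 1)) {D : ℤ} {H : MvPolynomial (Fin (m + 1)) ℂ} (h : H ∈ HS w D) :
    mX j H ∈ HS w (D + wv w j) := by
  unfold HS at h
  induction h using Submodule.span_induction with
  | mem x hx =>
    obtain ⟨e, he, rfl⟩ := hx
    rw [mX_apply, X, monomial_mul, one_mul]
    refine mono_mem w ?_ 1
    rw [wt_add, wt_single]
    push_cast
    omega
  | zero => rw [map_zero]; exact Submodule.zero_mem _
  | add x y _ _ hx hy => rw [map_add]; exact Submodule.add_mem _ hx hy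
  | smul c x _ hx => rw [map_smul]; exact Submodule.smul_mem _ _ hx

theorem HS_pd (j : Fin (m + 1)) {D : ℤ} {H : MvPolynomial (Fin (m + 1)) ℂ} (h : H ∈ HS w D) :
    pd j H ∈ HS w (D + -(wv w j : ℤ)) := by
  classical
  unfold HS at h
  induction h using Submodule.span_induction with
  | mem x hx =>
    obtain ⟨e, he, rfl⟩ := hx
    rw [pd_apply, pderiv_monomial]
    by_cases h0 : e j = 0
    · rw [h0, Nat.cast_zero, mul_zero, monomial_zero]
      exact Submodule.zero_mem _
    · refine mono_mem w ?_ _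
      have h1 : e = (e - Finsupp.single j 1) + Finsupp.single j 1 := by
        rw [tsub_add_cancel_of_le]
        rw [Finsupp.single_le_iff]
        omega
      have h2 := congrArg (wt w) h1
      rw [wt_add, wt_single] at h2
      omega
  | zero => rw [map_zero]; exact Submodule.zero_mem _
  | add x y _ _ hx hy => rw [map_add]; exact Submodule.add_mem _ hx hy
  | smul c x _ hx => rw [map_smul]; exact Submodule.smul_mem _ _ hx

theorem HS_mul {D D' : ℤ} {H H' : MvPolynomial (Fin (m + 1)) ℂ} (h : H ∈ HS w D)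
    (h' : H' ∈ HS w D') : H * H' ∈ HS w (D + D') := by
  unfold HS at h
  induction h using Submodule.span_induction with
  | mem x hx =>
    obtain ⟨e, he, rfl⟩ := hx
    unfold HS at h'
    induction h' using Submodule.span_induction with
    | mem x hx =>
      obtain ⟨e', he', rfl⟩ := hx
      rw [monomial_mul, one_mul]
      refine mono_mem w ?_ 1
      rw [wt_add]
      push_cast
      omega
    | zero => rw [mul_zero]; exact Submodule.zero_mem _
    | add x y _ _ hx hy => rw [mul_add]; exact Submodule.add_mem _ hx hy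
    | smul c x _ hx => rw [mul_smul_comm]; exact Submodule.smul_mem _ _ hx
  | zero => rw [zero_mul]; exact Submodule.zero_mem _
  | add x y _ _ hx hy => rw [add_mul]; exact Submodule.add_mem _ hx hy
  | smul c x _ hx => rw [smul_mul_assoc]; exact Submodule.smul_mem _ _ hx

theorem HS_pow {d : ℕ} {G : MvPolynomial (Fin (m + 1)) ℂ} (h : G ∈ HS w d) (s : ℕ) :
    G ^ (s + 1) ∈ HS w ((d : ℤ) * (s + 1)) := by
  induction s with
  | zero => simpa using h
  | succ s ih =>
    rw [pow_succ]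
    have := HS_mul w ih h
    convert this using 1
    push_cast
    ring_nf

theorem HS_of_WH {d : ℕ} {G : MvPolynomial (Fin (m + 1)) ℂ} (h : WH w d G) : G ∈ HS w d := by
  rw [G.as_sum]
  refine Submodule.sum_mem _ fun e he => mono_mem w ?_ _
  have := h e he
  unfold wt
  exact_mod_cast this

/-! ### dehomogenisation -/

theorem dh_mul (a b : MvPolynomial (Fin (m + 1)) ℂ) : dh (a * b) = dh a * dh b := map_mul _ a b

theorem dh_X_last : dh (X (Fin.last m) : MvPolynomial (Fin (m + 1)) ℂ) = 1 := by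
  unfold dh
  rw [aeval_X, Fin.snoc_last]

theorem dh_X_cast (i : Fin m) : dh (X (Fin.castSucc i) : MvPolynomial (Fin (m + 1)) ℂ) = X i := by
  unfold dh
  rw [aeval_X, Fin.snoc_castSucc]

theorem dh_add (a b : MvPolynomial (Fin (m + 1)) ℂ) : dh (a + b) = dh a + dh b := map_add _ a b

theorem dh_smul (c : ℂ) (a : MvPolynomial (Fin (m + 1)) ℂ) : dh (c • a) = c • dh a :=
  map_smul (aeval _) c a

theorem dh_zero : dh (0 : MvPolynomial (Fin (m + 1)) ℂ) = 0 := map_zero _

theorem dh_sum {ι : Type} (S : Finset ι) (f : ι → MvPolynomial (Fin (m + 1)) ℂ) :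
    dh (∑ i ∈ S, f i) = ∑ i ∈ S, dh (f i) := map_sum _ f S

theorem dh_pd (i : Fin m) (H : MvPolynomial (Fin (m + 1)) ℂ) :
    dh (pderiv (Fin.castSucc i) H) = pderiv i (dh H) := by
  classical
  induction H using MvPolynomial.induction_on with
  | C a =>
    rw [pderiv_C, dh_zero]
    have : dh (C a : MvPolynomial (Fin (m + 1)) ℂ) = C a := by
      unfold dh
      rw [aeval_C]
      rfl
    rw [this, pderiv_C]
  | add p q hp hq => rw [map_add, dh_add, hp, hq, dh_add, map_add]
  | mul_X p n hp =>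
    rw [pderiv_mul, dh_add, dh_mul, dh_mul, hp, dh_mul, pderiv_mul]
    congr 2
    refine Fin.lastCases ?_ (fun j => ?_) n
    · rw [dh_X_last, pderiv_X_of_ne (Fin.castSucc_lt_last i).ne', dh_zero, pderiv_one]
    · rw [dh_X_cast]
      by_cases hij : i = j
      · subst hij
        rw [pderiv_X_self, pderiv_X_self]
        exact map_one _
      · rw [pderiv_X_of_ne (fun h => hij h.symm), pderiv_X_of_ne (fun h => hij
          (Fin.castSucc_injective _ h).symm), dh_zero]

/-- the Euler operator -/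
noncomputable def eul : En m := ∑ i, (w i : ℂ) • (mX i * pd i)

theorem eul_mem : eul w ∈ weylS (Fin m) :=
  Subalgebra.sum_mem _ fun i _ => Subalgebra.smul_mem _
    (Subalgebra.mul_mem _ (mX_mem i) (pd_mem i)) _

theorem dh_last {D : ℤ} {H : MvPolynomial (Fin (m + 1)) ℂ} (h : H ∈ HS w D) :
    dh (pd (Fin.last m) H) = ((D : ℂ) • (1 : En m) - eul w) (dh H) := by
  unfold HS at h
  induction h using Submodule.span_induction with
  | mem x hx =>
    obtain ⟨e, he, rfl⟩ := hx
    have h1 : dh (pd (Fin.last m) (monomial e 1)) =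
        (e (Fin.last m) : ℂ) • dh (monomial e (1 : ℂ)) := by
      have h2 := congrArg dh (X_mul_pderiv_monomial (i := Fin.last m) (m := e) (r := (1 : ℂ)))
      rw [dh_mul, dh_X_last, one_mul] at h2
      rw [pd_apply, h2, ← dh_smul, Nat.cast_smul_eq_nsmul]
    have h3 : ∀ i, (mX i * pd i) (dh (monomial e (1 : ℂ))) =
        (e (Fin.castSucc i) : ℂ) • dh (monomial e (1 : ℂ)) := by
      intro i
      have h2 := congrArg dh (X_mul_pderiv_monomial (i := Fin.castSucc i) (m := e) (r := (1 : ℂ)))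
      rw [dh_mul, dh_X_cast, dh_pd] at h2
      rw [Module.End.mul_apply, mX_apply, pd_apply, h2, ← dh_smul, Nat.cast_smul_eq_nsmul]
    rw [h1, LinearMap.sub_apply, LinearMap.smul_apply, Module.End.one_apply, eul,
      LinearMap.sum_apply]
    simp only [LinearMap.smul_apply, h3, smul_smul]
    rw [← Finset.sum_smul, ← sub_smul]
    congr 1
    rw [← he]
    unfold wt
    push_cast
    ring
  | zero => rw [map_zero, dh_zero, map_zero]
  | add x y _ _ hx hy => rw [map_add, dh_add, hx, hy, dh_add, map_add]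
  | smul c x _ hx => rw [map_smul, dh_smul, hx, dh_smul, map_smul]

/-! ### words and operators -/

/-- the generators of the Weyl algebra -/
def gens (m : ℕ) : Set (En m) :=
  Set.range (fun i => LinearMap.mulLeft ℂ (X i : MvPolynomial (Fin m) ℂ)) ∪
      Set.range (fun i => ((pderiv i : Derivation ℂ (MvPolynomial (Fin m) ℂ)
        (MvPolynomial (Fin m) ℂ)) : MvPolynomial (Fin m) ℂ →ₗ[ℂ] MvPolynomial (Fin m) ℂ))

theorem genX (d : ℕ) (j : Fin (m + 1)) (c' : ℤ) :
    ∃ F : ℕ → En m, PolS F ∧ ∀ (s : ℕ), ∀ H ∈ HS w ((d : ℤ) * (s + 1) + c'),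
        dh (mX j H) = F s (dh H) := by
  rcases Fin.eq_castSucc_or_eq_last j with ⟨i, rfl⟩ | rfl
  · refine ⟨fun _ => mX i, polS_const (mX_mem i), fun s H _ => ?_⟩
    rw [mX_apply, dh_mul, dh_X_cast]
    rfl
  · refine ⟨fun _ => 1, polS_const (Subalgebra.one_mem _), fun s H _ => ?_⟩
    rw [mX_apply, dh_mul, dh_X_last, one_mul]
    rfl

theorem genD (d : ℕ) (j : Fin (m + 1)) (c' : ℤ) :
    ∃ F : ℕ → En m, PolS F ∧ ∀ (s : ℕ), ∀ H ∈ HS w ((d : ℤ) * (s + 1) + c'),
        dh (pd j H) = F s (dh H) := by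
  rcases Fin.eq_castSucc_or_eq_last j with ⟨i, rfl⟩ | rfl
  · refine ⟨fun _ => pd i, polS_const (pd_mem i), fun s H _ => ?_⟩
    exact dh_pd i H
  · have h1 := polS_add (polS_add (polS_smul (d : ℂ) (polS_s (m := m)))
      (polS_const (Subalgebra.smul_mem _ (Subalgebra.one_mem (weylS (Fin m)))
            ((d : ℂ) + (c' : ℂ))))) (polS_smul (-1 : ℂ) (polS_const (eul_mem w)))
    refine ⟨_, h1, fun s H hH => ?_⟩
    have h2 := dh_last w hH
    rw [h2]
    have h3 : (((d : ℤ) * (s + 1) + c' : ℤ) : ℂ) = (d : ℂ) * (s : ℂ) + ((d : ℂ) + (c' : ℂ)) := by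
      push_cast
      ring
    rw [h3]
    have h4 : (((d : ℂ) * (s : ℂ) + ((d : ℂ) + (c' : ℂ))) • (1 : En m) - eul w) =
        (d : ℂ) • ((s : ℂ) • (1 : En m)) + ((d : ℂ) + (c' : ℂ)) • (1 : En m) +
          (-1 : ℂ) • eul w := by
      rw [smul_smul, ← add_smul, sub_eq_add_neg]
      exact congrArg _ (neg_one_smul ℂ (eul w)).symm
    rw [h4]

theorem gen_good (d : ℕ) {g : En (m + 1)} (hg : g ∈ gens (m + 1)) :
    ∃ c : ℤ, (∀ (D : ℤ), ∀ H ∈ HS w D, g H ∈ HS w (D + c)) ∧
      ∀ c' : ℤ, ∃ F : ℕ → En m, PolS F ∧ ∀ (s : ℕ), ∀ H ∈ HS w ((d : ℤ) * (s + 1) + c'),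
        dh (g H) = F s (dh H) := by
  rcases hg with ⟨j, hj⟩ | ⟨j, hj⟩
  · have hj' : g = mX j := hj.symm
    rw [hj']
    exact ⟨wv w j, fun D H hH => HS_mX w j hH, fun c' => genX w d j c'⟩
  · have hj' : g = pd j := hj.symm
    rw [hj']
    exact ⟨-(wv w j : ℤ), fun D H hH => HS_pd w j hH, fun c' => genD w d j c'⟩

theorem word_good (d : ℕ) {Q : En (m + 1)} (hQ : Q ∈ Submonoid.closure (gens (m + 1))) :
    ∃ c : ℤ, (∀ (D : ℤ), ∀ H ∈ HS w D, Q H ∈ HS w (D + c)) ∧
      ∃ F : ℕ → En m, PolS F ∧ ∀ (s : ℕ), ∀ H ∈ HS w ((d : ℤ) * (s + 1)),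
        dh (Q H) = F s (dh H) := by
  induction hQ using Submonoid.closure_induction_left with
  | one =>
    refine ⟨0, fun D H hH => ?_, fun _ => 1, polS_const (Subalgebra.one_mem _), fun s H _ => rfl⟩
    rw [add_zero]
    exact hH
  | mul_left g hg Q _ ih =>
    obtain ⟨c, hc, F, hF, hFH⟩ := ih
    obtain ⟨c₁, hc₁, h₁⟩ := gen_good w d hg
    obtain ⟨F₁, hF₁, hFH₁⟩ := h₁ c
    refine ⟨c + c₁, fun D H hH => ?_, fun s => F₁ s * F s, polS_mul hF₁ hF, fun s H hH => ?_⟩
    · rw [Module.End.mul_apply, ← add_assoc]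
      exact hc₁ _ _ (hc _ _ hH)
    · rw [Module.End.mul_apply, hFH₁ s _ (hc _ _ hH), hFH s H hH]
      rfl

theorem op_good (d : ℕ) {Q : En (m + 1)} (hQ : Q ∈ weylS (Fin (m + 1))) :
    ∃ F : ℕ → En m, PolS F ∧ ∀ (s : ℕ), ∀ H ∈ HS w ((d : ℤ) * (s + 1)),
        dh (Q H) = F s (dh H) := by
  have h1 : Q ∈ Submodule.span ℂ (Submonoid.closure (gens (m + 1)) : Set (En (m + 1))) := by
    rw [← Algebra.adjoin_eq_span]
    exact hQ
  induction h1 using Submodule.span_induction with
  | mem x hx =>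
    obtain ⟨c, -, h⟩ := word_good w d hx
    exact h
  | zero =>
    refine ⟨fun _ => 0, polS_const (Subalgebra.zero_mem _), fun s H _ => ?_⟩
    rw [LinearMap.zero_apply, dh_zero]
    rfl
  | add x y hx' hy' hx hy =>
    have ex : x ∈ weylS (Fin (m + 1)) := by
      rw [← Algebra.adjoin_eq_span] at hx'
      exact hx'
    have ey : y ∈ weylS (Fin (m + 1)) := by
      rw [← Algebra.adjoin_eq_span] at hy'
      exact hy'
    obtain ⟨F, hF, hFH⟩ := hx ex
    obtain ⟨F', hF', hFH'⟩ := hy ey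
    refine ⟨fun s => F s + F' s, polS_add hF hF', fun s H hH => ?_⟩
    rw [LinearMap.add_apply, dh_add, hFH s H hH, hFH' s H hH]
    rfl
  | smul c x hx' hx =>
    have ex : x ∈ weylS (Fin (m + 1)) := by
      rw [← Algebra.adjoin_eq_span] at hx'
      exact hx'
    obtain ⟨F, hF, hFH⟩ := hx ex
    refine ⟨fun s => c • F s, polS_smul c hF, fun s H hH => ?_⟩
    rw [LinearMap.smul_apply, dh_smul, hFH s H hH]
    rfl

end DBaux

open DBaux in
theorem db : TaskDB := by
  classical
  intro m w d G hG b ⟨P, hP⟩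
  have hGS := HS_of_WH w hG
  choose F hF hFH using fun j => op_good w d (P j).2
  obtain ⟨R, hR⟩ := polS_sum P.support (fun j s => (s : ℂ) ^ j • F j s)
    (fun j _ => polS_pow j (hF j))
  refine ⟨⟨R.support, R.coeff, fun _ => Polynomial.mem_support_iff⟩, fun s => ?_⟩
  have h1 := congrArg dh (hP s)
  have hC : dh (C (b.eval (s : ℂ)) : MvPolynomial (Fin (m + 1)) ℂ) = C (b.eval (s : ℂ)) := by
    unfold dh
    rw [aeval_C]
    rfl
  have hpow : ∀ l : ℕ, dh (G ^ l) = dh G ^ l := fun l => map_pow _ G l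
  rw [dh_mul, hC, hpow, Finsupp.sum, dh_sum] at h1
  rw [h1]
  have h2 : ∀ j ∈ P.support, dh (((s : ℂ) ^ j) • (P j : En (m + 1)) (G ^ (s + 1))) =
      ((s : ℂ) ^ j • F j s) (dh G ^ (s + 1)) := by
    intro j _
    rw [dh_smul, hFH j s _ (HS_pow w hGS s), hpow]
    rfl
  have hR' : ∑ j ∈ P.support, (s : ℂ) ^ j • F j s =
      ((R.eval (algebraMap ℂ (W m) (s : ℂ)) : W m) : En m) := hR s
  rw [Finset.sum_congr rfl h2, ← LinearMap.sum_apply, hR']
  rw [Polynomial.eval_eq_sum, Polynomial.sum]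
  show _ = ∑ j ∈ R.support, ((s : ℂ) ^ j) • (R.coeff j : En m) (dh G ^ (s + 1))
  rw [AddSubmonoidClass.coe_finsetSum, LinearMap.sum_apply]
  refine Finset.sum_congr rfl fun j _ => ?_
  have h3 : R.coeff j * algebraMap ℂ (W m) (s : ℂ) ^ j = ((s : ℂ) ^ j) • R.coeff j := by
    rw [← map_pow, ← Algebra.commutes, Algebra.smul_def]
  rw [h3]
  rfl

end Pool.Agent.N101.CB
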