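import Pool.Agent.N101.CB.StmD

/-!
# Project CUB: the bihomogenisation of a cubic (TaskDC, helper755)
-/

set_option autoImplicit false

namespace Pool.Agent.N101.CB

open MvPolynomial

namespace DCaux

section
variable {k : Type} [Field k] {m : ℕ}

/-- the exponent `e` with the additional entry `a` -/
noncomputable def sn (e : Fin m →₀ ℕ) (a : ℕ) : Fin (m + 1) →₀ ℕ :=
  Finsupp.equivFunOnFinite.symm (Fin.snoc (α := fun _ => ℕ) (fun i => e i) a)

theorem sn_cast (e : Fin m →₀ ℕ) (a : ℕ) (i : Fin m) : sn e a i.castSucc = e i := by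
  unfold sn
  rw [Finsupp.equivFunOnFinite_symm_apply_apply, Fin.snoc_castSucc]

theorem sn_last (e : Fin m →₀ ℕ) (a : ℕ) : sn e a (Fin.last m) = a := by
  unfold sn
  rw [Finsupp.equivFunOnFinite_symm_apply_apply, Fin.snoc_last]

theorem dh_mono (e : Fin m →₀ ℕ) (a : ℕ) (c : k) :
    dh (monomial (sn e a) c) = monomial e c := by
  unfold dh
  rw [aeval_monomial, monomial_eq, Finsupp.prod_fintype _ _ (fun i => pow_zero _),
    Finsupp.prod_fintype _ _ (fun i => pow_zero _), Fin.prod_univ_castSucc]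
  simp only [Fin.snoc_castSucc, Fin.snoc_last, one_pow, mul_one, sn_cast]
  rfl

theorem dh_sum {ι : Type} (s : Finset ι) (F : ι → MvPolynomial (Fin (m + 1)) k) :
    dh (∑ i ∈ s, F i) = ∑ i ∈ s, dh (F i) := by
  unfold dh
  rw [map_sum]

/-- the exponents of a sum of monomials -/
theorem mem_supp {ι : Type} {s : Finset ι} {E : ι → (Fin m →₀ ℕ)} {c : ι → k} {e : Fin m →₀ ℕ}
    (h : e ∈ (∑ i ∈ s, monomial (E i) (c i)).support) : ∃ i ∈ s, e = E i := by
  classical
  have h1 := support_sum h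
  rw [Finset.mem_biUnion] at h1
  obtain ⟨i, hi, h2⟩ := h1
  have h3 := support_monomial_subset h2
  rw [Finset.mem_singleton] at h3
  exact ⟨i, hi, h3⟩

end

end DCaux

open DCaux

theorem dc : TaskDC := by
  classical
  intro k _ n f hf
  obtain ⟨T, hT⟩ := hf
  let S1 : (Fin n →₀ ℕ) → ℕ := fun e => ∑ i ∈ T, e i
  let S2 : (Fin n →₀ ℕ) → ℕ := fun e => ∑ i ∈ Tᶜ, e i
  let E1 : (Fin n →₀ ℕ) → (Fin (n + 1) →₀ ℕ) := fun e => sn e (1 - S1 e)
  let E2 : (Fin n →₀ ℕ) → (Fin (n + 1 + 1) →₀ ℕ) := fun e => sn (E1 e) (2 - S2 e)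
  let G : MvPolynomial (Fin (n + 1 + 1)) k := ∑ e ∈ f.support, monomial (E2 e) (coeff e f)
  have hd1 : dh G = ∑ e ∈ f.support, monomial (E1 e) (coeff e f) := by
    rw [dh_sum]
    exact Finset.sum_congr rfl fun e _ => dh_mono _ _ _
  have hd2 : dh (dh G) = f := by
    rw [hd1, dh_sum]
    rw [Finset.sum_congr rfl fun e _ => dh_mono _ _ _]
    exact support_sum_monomial_coeff f
  have hsum1 : ∀ e : Fin n →₀ ℕ, ∑ i, (if i ∈ T then 1 else 0) * e i = S1 e := by
    intro e
    simp only [ite_mul, one_mul, zero_mul]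
    rw [Finset.sum_ite_mem, Finset.univ_inter]
  have hsum2 : ∀ e : Fin n →₀ ℕ, ∑ i, (if i ∈ T then 0 else 1) * e i = S2 e := by
    intro e
    have h1 : ∀ i, (if i ∈ T then 0 else 1) * e i = if i ∈ Tᶜ then e i else 0 := by
      intro i
      by_cases h : i ∈ T <;> simp [h]
    simp only [h1]
    rw [Finset.sum_ite_mem, Finset.univ_inter]
  refine ⟨G, fun i => if i ∈ T then 1 else 0,
    Fin.snoc (α := fun _ => ℕ) (fun i => if i ∈ T then 0 else 1) 0, 1, 2, ?_, ?_, ?_, hd2⟩
  · refine ⟨Finset.univ.filter fun i => Fin.snoc (α := fun _ => ℕ)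
      (Fin.snoc (α := fun _ => ℕ) (fun i => if i ∈ T then 1 else 0) 1) 0 i = 1, ?_⟩
    intro e' he'
    obtain ⟨e, he, rfl⟩ := mem_supp he'
    obtain ⟨-, h1, h2⟩ := hT e he
    constructor
    · rw [Finset.sum_filter, Fin.sum_univ_castSucc, Fin.sum_univ_castSucc]
      simp only [Fin.snoc_castSucc, Fin.snoc_last, E2, E1, sn_cast, sn_last]
      have h3 : ∀ i : Fin n, (if (if i ∈ T then 1 else 0) = 1 then e i else 0) =
          (if i ∈ T then 1 else 0) * e i := by
        intro i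
        by_cases h : i ∈ T <;> simp [h]
      simp only [h3, hsum1]
      have h1' : S1 e ≤ 1 := h1
      simp
      omega
    · rw [Finset.compl_filter, Finset.sum_filter, Fin.sum_univ_castSucc, Fin.sum_univ_castSucc]
      simp only [Fin.snoc_castSucc, Fin.snoc_last, E2, E1, sn_cast, sn_last]
      have h3 : ∀ i : Fin n, (if ¬ (if i ∈ T then 1 else 0) = 1 then e i else 0) =
          (if i ∈ T then 0 else 1) * e i := by
        intro i
        by_cases h : i ∈ T <;> simp [h]
      simp only [h3, hsum2]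
      have h2' : S2 e ≤ 2 := h2
      simp
      omega
  · intro e' he'
    obtain ⟨e, he, rfl⟩ := mem_supp he'
    obtain ⟨-, h1, h2⟩ := hT e he
    rw [Fin.sum_univ_castSucc]
    simp only [Fin.snoc_castSucc, Fin.snoc_last, E2, E1, sn_cast, sn_last, hsum2]
    have h2' : S2 e ≤ 2 := h2
    omega
  · intro e' he'
    rw [hd1] at he'
    obtain ⟨e, he, rfl⟩ := mem_supp he'
    obtain ⟨-, h1, h2⟩ := hT e he
    simp only [E1, sn_cast, sn_last, hsum1]
    have h1' : S1 e ≤ 1 := h1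
    omega

end Pool.Agent.N101.CB
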