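import Pool.Agent.N101.CB.Stm
import Pool.Agent.Z864.MS.Three

/-!
# Project CUB: the automorphism `t ↦ t + v`, `w ↦ w - u`
-/

set_option autoImplicit false

namespace Pool.Agent.N101.CB

open MvPolynomial Pool.Agent.W428.MOT
open Pool.Agent.W375.MG (JetG Good)
open Pool.Agent.Y229.MS (addyz Wyz CE)

section
variable {K : Type} [Field K] {n : ℕ}

/-- the substitution `t ↦ t + v`, `w ↦ w - u` -/
noncomputable def psiH (u v : MvPolynomial (Fin n) K) :
    MvPolynomial (Fin (n + 2)) K →ₐ[K] MvPolynomial (Fin (n + 2)) K :=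
  aeval (Fin.addCases (fun i => X (Fin.castAdd 2 i))
    ![X (Fin.natAdd n 0) + rename (Fin.castAdd 2) v,
      X (Fin.natAdd n 1) - rename (Fin.castAdd 2) u])

theorem psiH_x (u v : MvPolynomial (Fin n) K) (i : Fin n) :
    psiH u v (X (Fin.castAdd 2 i)) = X (Fin.castAdd 2 i) := by
  unfold psiH
  rw [aeval_X, Fin.addCases_left]

theorem psiH_t (u v : MvPolynomial (Fin n) K) :
    psiH u v (X (Fin.natAdd n 0)) = X (Fin.natAdd n 0) + rename (Fin.castAdd 2) v := by
  unfold psiH
  rw [aeval_X, Fin.addCases_right]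
  rfl

theorem psiH_w (u v : MvPolynomial (Fin n) K) :
    psiH u v (X (Fin.natAdd n 1)) = X (Fin.natAdd n 1) - rename (Fin.castAdd 2) u := by
  unfold psiH
  rw [aeval_X, Fin.addCases_right]
  rfl

theorem psiH_rename (u v p : MvPolynomial (Fin n) K) :
    psiH u v (rename (Fin.castAdd 2) p) = rename (Fin.castAdd 2) p := by
  have h : (psiH u v).comp (rename (Fin.castAdd 2)) =
      (rename (Fin.castAdd 2) : MvPolynomial (Fin n) K →ₐ[K] _) := by
    apply MvPolynomial.algHom_ext
    intro i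
    rw [AlgHom.comp_apply, rename_X, psiH_x]
  exact DFunLike.congr_fun h p

theorem psiH_inv (u v : MvPolynomial (Fin n) K) :
    (psiH u v).comp (psiH (-u) (-v)) = AlgHom.id K _ := by
  apply MvPolynomial.algHom_ext
  intro i
  rw [AlgHom.comp_apply, AlgHom.id_apply]
  refine Fin.addCases (fun i => ?_) (fun j => ?_) i
  · rw [psiH_x, psiH_x]
  · fin_cases j
    · show psiH u v (psiH (-u) (-v) (X (Fin.natAdd n 0))) = X (Fin.natAdd n 0)
      rw [psiH_t, map_add, psiH_rename, psiH_t, map_neg]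
      ring
    · show psiH u v (psiH (-u) (-v) (X (Fin.natAdd n 1))) = X (Fin.natAdd n 1)
      rw [psiH_w, map_sub, psiH_rename, psiH_w, map_neg]
      ring

/-- the automorphism `t ↦ t + v`, `w ↦ w - u` -/
noncomputable def psiE (u v : MvPolynomial (Fin n) K) :
    MvPolynomial (Fin (n + 2)) K ≃ₐ[K] MvPolynomial (Fin (n + 2)) K :=
  AlgEquiv.ofAlgHom (psiH u v) (psiH (-u) (-v)) (psiH_inv u v) (by
    have h := psiH_inv (-u) (-v)
    rwa [neg_neg, neg_neg] at h)

theorem psiE_apply (u v : MvPolynomial (Fin n) K) (p : MvPolynomial (Fin (n + 2)) K) :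
    psiE u v p = psiH u v p := rfl

theorem psiE_addyz (f u v : MvPolynomial (Fin n) K) : psiE u v (addyz f) = stp f u v := by
  rw [psiE_apply]
  unfold addyz stp
  rw [map_add, map_mul, psiH_rename, psiH_t, psiH_w]

theorem constrP_Wyz {W : Set (Pt K (Fin n))} (hW : Constr W) :
    Constr (Wyz W : Set (Pt K (Fin (n + 2)))) :=
  hW.preimage _ fun i => IsPF.coord _

theorem constrP_Wo {W : Set (Pt K (Fin n))} (hW : Constr W) :
    Constr (Wo W : Set (Pt K (Fin (n + 2)))) :=
  Constr.and (hW.preimage _ fun i => IsPF.coord _)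
    (Constr.and (Constr.eqz (IsPF.coord _)) (Constr.eqz (IsPF.coord _)))

theorem aeval_ren (w : Pt K (Fin (n + 2))) (p : MvPolynomial (Fin n) K) :
    aeval w (rename (Fin.castAdd 2) p) = aeval (fun i => w (Fin.castAdd 2 i)) p := by
  rw [aeval_rename]
  rfl

end

theorem psi : TaskPSI := by
  intro K _ R _ M n f u v W E hW hE N
  constructor
  · have h := Pool.Agent.Z864.MS.three K R M (psiE u v) (addyz f) (Wyz W) E (constrP_Wyz hW) hE N
    rw [psiE_addyz] at h
    have e : {w : Pt K (Fin (n + 2)) | (fun i => aeval w (psiE u v (X i))) ∈ Wyz W} = Wyz W := by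
      ext w
      have e1 : ∀ i : Fin n, aeval w (psiE u v (X (Fin.castAdd 2 i))) = w (Fin.castAdd 2 i) := by
        intro i
        rw [psiE_apply, psiH_x, aeval_X]
      show (fun i => aeval w (psiE u v (X (Fin.castAdd 2 i)))) ∈ W ↔
        (fun i => w (Fin.castAdd 2 i)) ∈ W
      simp only [e1]
    rw [e] at h
    exact h
  · intro huv
    have h := Pool.Agent.Z864.MS.three K R M (psiE u v) (addyz f) (Wo W) E (constrP_Wo hW) hE N
    rw [psiE_addyz] at h
    have e : {w : Pt K (Fin (n + 2)) | (fun i => aeval w (psiE u v (X i))) ∈ Wo W} = Wo W := by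
      ext w
      have e1 : ∀ i : Fin n, aeval w (psiE u v (X (Fin.castAdd 2 i))) = w (Fin.castAdd 2 i) := by
        intro i
        rw [psiE_apply, psiH_x, aeval_X]
      show ((fun i => aeval w (psiE u v (X (Fin.castAdd 2 i)))) ∈ W ∧
        aeval w (psiE u v (X (Fin.natAdd n 0))) = 0 ∧
        aeval w (psiE u v (X (Fin.natAdd n 1))) = 0) ↔
        ((fun i => w (Fin.castAdd 2 i)) ∈ W ∧ w (Fin.natAdd n 0) = 0 ∧ w (Fin.natAdd n 1) = 0)
      simp only [e1]
      refine and_congr_right fun hw => ?_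
      obtain ⟨g1, g2⟩ := huv _ hw
      rw [psiE_apply, psiE_apply, psiH_t, psiH_w, map_add, map_sub, aeval_X, aeval_X, aeval_ren,
        aeval_ren, g1, g2, add_zero, sub_zero]
    rw [e] at h
    exact h

end Pool.Agent.N101.CB
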