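import Pool.Agent.N101.CB.StmQ
import Pool.Agent.N101.CB.Psi

/-!
# Project CUB: equivariant jets and the automorphism `t ↦ t + v`, `w ↦ w - u`

By helper394.
-/

set_option autoImplicit false

namespace Pool.Agent.N101.CB

open MvPolynomial Pool.Agent.W428.MOT
open Pool.Agent.Y229.MS (addyz)
open Pool.Agent.Z864.MS (Tm isPF_Tm coeff_Tm coeff_zero_aeval Tm_Tm aeval_cmp)

namespace EPSIaux

section
variable {k : Type} [Field k] {n m N : ℕ}

theorem dact_zero (l : AlgebraicClosure k) (z : Pt k (Fin m × Fin (N + 1))) (i : Fin m) :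
    dact (jw m N) l z (i, 0) = z (i, 0) := by
  simp [dact, jw]

theorem aeval_sec (x : Pt k (Fin n)) (σ : Fin m → MvPolynomial (Fin n) k)
    (F : MvPolynomial (Fin m) k) :
    aeval (fun i => aeval x (σ i)) F = aeval x (aeval σ F) :=
  (comp_aeval_apply σ (aeval x) F).symm

theorem valid_JetS {f : MvPolynomial (Fin n) k} {F : MvPolynomial (Fin m) k} {h : Fin n → Fin m}
    {σ : Fin m → MvPolynomial (Fin n) k} (hF : aeval σ F = f) (hN : 0 < N) :
    Valid f (JetS F h σ N) (jw m N) N (jbs h N) where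
  constr := by
    refine Constr.and (jetValid F N hN).constr (Constr.all fun i => ?_)
    exact Constr.eq (IsPF.coord _) ((IsPF.poly (σ i)).comp _ fun j => IsPF.coord _)
  pos := hN
  stable := by
    rintro l hl z ⟨h1, h2⟩
    refine ⟨(jetValid F N hN).stable l hl z h1, fun i => ?_⟩
    simp only [dact_zero]
    exact h2 i
  base := by
    rintro z ⟨h1, h2⟩
    have h3 := h1 0 (Nat.zero_le N)
    rw [if_neg (by omega), coeff_zero_aeval] at h3
    have h4 : (fun i => z (i, 0)) = fun i => aeval (fun j => z (h j, 0)) (σ i) := funext h2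
    rw [h4, aeval_sec, hF] at h3
    exact h3
  inv := fun i j hj => by
    rw [jbs, Option.some.injEq] at hj
    rw [← hj]
    rfl

/-- composition with a polynomial map commutes with `ψ(t) ↦ ψ(λ t)` -/
theorem Tm_dact (φ : MvPolynomial (Fin m) k →ₐ[k] MvPolynomial (Fin m) k)
    (l : AlgebraicClosure k) (z : Pt k (Fin m × Fin (N + 1))) :
    Tm φ N (dact (jw m N) l z) = dact (jw m N) l (Tm φ N z) := by
  funext p
  obtain ⟨i, j⟩ := p
  have h1 : arc (dact (jw m N) l z) = fun i => PowerSeries.rescale l (arc z i) :=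
    funext fun i => arc_dact l z i
  change PowerSeries.coeff (j : ℕ) (aeval (arc (dact (jw m N) l z)) (φ (X i))) =
    l ^ ((j : ℕ) : ℤ) * PowerSeries.coeff (j : ℕ) (aeval (arc z) (φ (X i)))
  rw [h1, aeval_rescale, PowerSeries.coeff_rescale, zpow_natCast]

theorem Tm_zero (φ : MvPolynomial (Fin m) k →ₐ[k] MvPolynomial (Fin m) k)
    (z : Pt k (Fin m × Fin (N + 1))) (i : Fin m) :
    Tm φ N z (i, 0) = aeval (fun i => z (i, 0)) (φ (X i)) :=
  coeff_zero_aeval z (φ (X i))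

theorem Tm_base {φ : MvPolynomial (Fin m) k →ₐ[k] MvPolynomial (Fin m) k} {h : Fin n → Fin m}
    (hh : ∀ j, φ (X (h j)) = X (h j)) (z : Pt k (Fin m × Fin (N + 1))) (j : Fin n) :
    Tm φ N z (h j, 0) = z (h j, 0) := by
  rw [Tm_zero, hh, aeval_X]

theorem mapsTo_JetS {φ : MvPolynomial (Fin m) k →ₐ[k] MvPolynomial (Fin m) k}
    {g : MvPolynomial (Fin m) k} {h : Fin n → Fin m} {σ σ' : Fin m → MvPolynomial (Fin n) k}
    (hh : ∀ j, φ (X (h j)) = X (h j)) (hσ : ∀ i, aeval σ (φ (X i)) = σ' i) :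
    Set.MapsTo (Tm φ N) (JetS (φ g) h σ N) (JetS g h σ' N) := by
  rintro z ⟨g1, g2⟩
  refine ⟨fun j hj => ?_, fun i => ?_⟩
  · rw [coeff_Tm _ _ _ _ hj]
    exact g1 j hj
  · simp only [Tm_base hh]
    have h4 : (fun i => z (i, 0)) = fun i => aeval (fun j => z (h j, 0)) (σ i) := funext g2
    rw [Tm_zero, h4, aeval_sec, hσ]

theorem iso_JetS {f : MvPolynomial (Fin n) k} {R : Type} [CommRing R] (M : EMeas f R)
    (ψ : MvPolynomial (Fin m) k ≃ₐ[k] MvPolynomial (Fin m) k) (g : MvPolynomial (Fin m) k)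
    (h : Fin n → Fin m) (σ σ' : Fin m → MvPolynomial (Fin n) k) (hN : 0 < N)
    (hh : ∀ j, ψ (X (h j)) = X (h j)) (hσ : ∀ i, aeval σ (ψ (X i)) = σ' i)
    (hg : aeval σ' g = f) :
    M.χ _ (JetS (ψ g) h σ N) (jw m N) N (jbs h N) =
      M.χ _ (JetS g h σ' N) (jw m N) N (jbs h N) := by
  have hσψ : ∀ p, aeval σ (ψ p) = aeval σ' p := by
    intro p
    have e : (fun i => aeval σ (ψ (X i))) = σ' := funext hσ
    have h1 := aeval_cmp (ψ : MvPolynomial (Fin m) k →ₐ[k] MvPolynomial (Fin m) k) σ p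
    have h2 : aeval (fun i => aeval σ (ψ (X i))) p = aeval σ (ψ p) := h1
    rw [← h2, e]
  have h1 : ∀ g, (ψ : MvPolynomial (Fin m) k →ₐ[k] MvPolynomial (Fin m) k)
      ((ψ.symm : MvPolynomial (Fin m) k →ₐ[k] MvPolynomial (Fin m) k) g) = g :=
    fun g => ψ.apply_symm_apply g
  have h2 : ∀ g, (ψ.symm : MvPolynomial (Fin m) k →ₐ[k] MvPolynomial (Fin m) k)
      ((ψ : MvPolynomial (Fin m) k →ₐ[k] MvPolynomial (Fin m) k) g) = g :=
    fun g => ψ.symm_apply_apply g
  have hσ2 : ∀ i, aeval σ' ((ψ.symm : MvPolynomial (Fin m) k →ₐ[k] MvPolynomial (Fin m) k)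
      (X i)) = σ i := by
    intro i
    rw [← hσψ]
    have h3 : ψ ((ψ.symm : MvPolynomial (Fin m) k →ₐ[k] MvPolynomial (Fin m) k) (X i)) = X i :=
      h1 (X i)
    rw [h3, aeval_X]
  have hh2 : ∀ j, (ψ.symm : MvPolynomial (Fin m) k →ₐ[k] MvPolynomial (Fin m) k) (X (h j)) =
      X (h j) := by
    intro j
    have h3 := h2 (X (h j))
    have h4 : (ψ : MvPolynomial (Fin m) k →ₐ[k] MvPolynomial (Fin m) k) (X (h j)) = X (h j) :=
      hh j
    rw [h4] at h3
    exact h3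
  refine M.iso _ _ _ _ _ _ _ _ (valid_JetS (by rw [hσψ, hg]) hN) (valid_JetS hg hN)
    (Tm (ψ : MvPolynomial (Fin m) k →ₐ[k] MvPolynomial (Fin m) k) N)
    (Tm (ψ.symm : MvPolynomial (Fin m) k →ₐ[k] MvPolynomial (Fin m) k) N)
    (regularOn_poly (fun p => isPF_Tm _ p) _) (regularOn_poly (fun p => isPF_Tm _ p) _)
    ?_ ?_ (fun z _ => Tm_Tm _ _ h1 z) (fun z _ => Tm_Tm _ _ h2 z) ?_ ?_
  · exact mapsTo_JetS hh hσ
  · have h5 := mapsTo_JetS (N := N) (φ := (ψ.symm : MvPolynomial (Fin m) k →ₐ[k] _))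
      (g := ψ g) hh2 hσ2
    have h6 : (ψ.symm : MvPolynomial (Fin m) k →ₐ[k] MvPolynomial (Fin m) k) (ψ g) = g :=
      ψ.symm_apply_apply g
    rw [h6] at h5
    exact h5
  · intro z _
    funext j
    exact Tm_base hh z j
  · intro l _ z _
    exact Tm_dact _ _ _

/-! ### one pair of variables -/

variable (f u v : MvPolynomial (Fin n) k)

theorem sg1_x (i : Fin n) : sg1 u v (Fin.castAdd 2 i) = X i := by
  unfold sg1
  rw [Fin.addCases_left]

theorem sg1_t : sg1 u v (Fin.natAdd n 0) = -v := by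
  unfold sg1
  rw [Fin.addCases_right]
  rfl

theorem sg1_w : sg1 u v (Fin.natAdd n 1) = u := by
  unfold sg1
  rw [Fin.addCases_right]
  rfl

theorem aeval_sg1 (p : MvPolynomial (Fin n) k) :
    aeval (sg1 u v) (rename (Fin.castAdd 2) p) = p := by
  rw [aeval_rename]
  have e : (sg1 u v ∘ Fin.castAdd 2) = (X : Fin n → MvPolynomial (Fin n) k) :=
    funext fun i => sg1_x u v i
  rw [e, aeval_X_left]
  rfl

theorem sec1 (i : Fin (n + 2)) : aeval (sg1 u v) (psiE u v (X i)) = sg1 0 0 i := by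
  rw [psiE_apply]
  refine Fin.addCases (fun i => ?_) (fun j => ?_) i
  · rw [psiH_x, aeval_X, sg1_x, sg1_x]
  · fin_cases j
    · show aeval (sg1 u v) (psiH u v (X (Fin.natAdd n 0))) = sg1 0 0 (Fin.natAdd n 0)
      rw [psiH_t, map_add, aeval_X, aeval_sg1, sg1_t, sg1_t, neg_zero, neg_add_cancel]
    · show aeval (sg1 u v) (psiH u v (X (Fin.natAdd n 1))) = sg1 0 0 (Fin.natAdd n 1)
      rw [psiH_w, map_sub, aeval_X, aeval_sg1, sg1_w, sg1_w, sub_self]

theorem eq1 : aeval (sg1 0 0) (addyz f) = f := by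
  unfold addyz
  rw [map_add, map_mul, aeval_sg1, aeval_X, aeval_X, sg1_t, sg1_w, mul_zero, add_zero]

/-! ### two pairs of variables -/

/-- extension to two more variables -/
noncomputable def extH (ψ : MvPolynomial (Fin m) k →ₐ[k] MvPolynomial (Fin m) k) :
    MvPolynomial (Fin (m + 2)) k →ₐ[k] MvPolynomial (Fin (m + 2)) k :=
  aeval (Fin.addCases (fun i => rename (Fin.castAdd 2) (ψ (X i))) fun j => X (Fin.natAdd m j))

theorem extH_x (ψ : MvPolynomial (Fin m) k →ₐ[k] MvPolynomial (Fin m) k) (i : Fin m) :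
    extH ψ (X (Fin.castAdd 2 i)) = rename (Fin.castAdd 2) (ψ (X i)) := by
  unfold extH
  rw [aeval_X, Fin.addCases_left]

theorem extH_y (ψ : MvPolynomial (Fin m) k →ₐ[k] MvPolynomial (Fin m) k) (j : Fin 2) :
    extH ψ (X (Fin.natAdd m j)) = X (Fin.natAdd m j) := by
  unfold extH
  rw [aeval_X, Fin.addCases_right]

theorem extH_rename (ψ : MvPolynomial (Fin m) k →ₐ[k] MvPolynomial (Fin m) k)
    (p : MvPolynomial (Fin m) k) :
    extH ψ (rename (Fin.castAdd 2) p) = rename (Fin.castAdd 2) (ψ p) := by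
  have h : (extH ψ).comp (rename (Fin.castAdd 2)) =
      (rename (Fin.castAdd 2) : MvPolynomial (Fin m) k →ₐ[k] _).comp ψ := by
    apply MvPolynomial.algHom_ext
    intro i
    rw [AlgHom.comp_apply, rename_X, extH_x, AlgHom.comp_apply]
  exact DFunLike.congr_fun h p

theorem extH_inv (ψ φ : MvPolynomial (Fin m) k →ₐ[k] MvPolynomial (Fin m) k)
    (h : ∀ p, ψ (φ p) = p) : (extH ψ).comp (extH φ) = AlgHom.id k _ := by
  apply MvPolynomial.algHom_ext
  intro i
  rw [AlgHom.comp_apply, AlgHom.id_apply]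
  refine Fin.addCases (fun i => ?_) (fun j => ?_) i
  · rw [extH_x, extH_rename, h, rename_X]
  · rw [extH_y, extH_y]

/-- extension of an automorphism to two more variables -/
noncomputable def extE (ψ : MvPolynomial (Fin m) k ≃ₐ[k] MvPolynomial (Fin m) k) :
    MvPolynomial (Fin (m + 2)) k ≃ₐ[k] MvPolynomial (Fin (m + 2)) k :=
  AlgEquiv.ofAlgHom (extH (ψ : MvPolynomial (Fin m) k →ₐ[k] MvPolynomial (Fin m) k))
    (extH (ψ.symm : MvPolynomial (Fin m) k →ₐ[k] MvPolynomial (Fin m) k))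
    (extH_inv _ _ fun p => ψ.apply_symm_apply p) (extH_inv _ _ fun p => ψ.symm_apply_apply p)

theorem extE_x (ψ : MvPolynomial (Fin m) k ≃ₐ[k] MvPolynomial (Fin m) k) (i : Fin m) :
    extE ψ (X (Fin.castAdd 2 i)) = rename (Fin.castAdd 2) (ψ (X i)) := extH_x _ i

theorem extE_y (ψ : MvPolynomial (Fin m) k ≃ₐ[k] MvPolynomial (Fin m) k) (j : Fin 2) :
    extE ψ (X (Fin.natAdd m j)) = X (Fin.natAdd m j) := extH_y _ j

theorem extE_addyz (ψ : MvPolynomial (Fin m) k ≃ₐ[k] MvPolynomial (Fin m) k)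
    (h : MvPolynomial (Fin m) k) : extE ψ (addyz h) = addyz (ψ h) := by
  unfold addyz
  rw [map_add, map_mul, extE_y, extE_y]
  congr 1
  exact extH_rename _ h

theorem sg2_x (i : Fin (n + 2)) : sg2 u v (Fin.castAdd 2 i) = sg1 u v i := by
  unfold sg2
  rw [Fin.addCases_left]

theorem sg2_y (j : Fin 2) : sg2 u v (Fin.natAdd (n + 2) j) = 0 := by
  unfold sg2
  rw [Fin.addCases_right]
  fin_cases j <;> rfl

theorem aeval_sg2 (p : MvPolynomial (Fin (n + 2)) k) :
    aeval (sg2 u v) (rename (Fin.castAdd 2) p) = aeval (sg1 u v) p := by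
  rw [aeval_rename]
  have e : (sg2 u v ∘ Fin.castAdd 2) = sg1 u v := funext fun i => sg2_x u v i
  rw [e]

theorem sec2 (i : Fin (n + 2 + 2)) :
    aeval (sg2 u v) (extE (psiE u v) (X i)) = sg2 0 0 i := by
  refine Fin.addCases (fun i => ?_) (fun j => ?_) i
  · rw [extE_x, aeval_sg2, sec1, sg2_x]
  · rw [extE_y, aeval_X, sg2_y, sg2_y]

theorem eq2 : aeval (sg2 0 0) (addyz (addyz f)) = f := by
  unfold addyz
  rw [map_add, map_mul, aeval_sg2, aeval_X, aeval_X, sg2_y, zero_mul, add_zero]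
  exact eq1 f

end

end EPSIaux

open EPSIaux in
theorem epsi : TaskEPSI := by
  intro k _ _ n f R _ M u v N hN
  constructor
  · have h := iso_JetS (N := N) M (psiE u v) (addyz f) (hh1 n) (sg1 u v) (sg1 0 0) hN
      (fun j => psiH_x u v j) (sec1 u v) (eq1 f)
    rw [psiE_addyz] at h
    exact h
  · have h := iso_JetS (N := N) M (extE (psiE u v)) (addyz (addyz f)) (hh2 n) (sg2 u v)
      (sg2 0 0) hN (fun j => by
        have h1 : psiE u v (X (Fin.castAdd 2 j)) = X (Fin.castAdd 2 j) := psiH_x u v j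
        show extE (psiE u v) (X (Fin.castAdd 2 (Fin.castAdd 2 j))) =
          X (Fin.castAdd 2 (Fin.castAdd 2 j))
        rw [extE_x, h1, rename_X]) (sec2 u v) (eq2 f)
    rw [extE_addyz, psiE_addyz] at h
    exact h

end Pool.Agent.N101.CB
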