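import Pool.Agent.N101.CB.StmD
import Pool.Agent.N101.CB.Epsi

/-!
# Project CUB: equivariant jets of a quasi-homogeneous polynomial with origin `(x, 1)`

By helper55.
-/

set_option autoImplicit false

namespace Pool.Agent.N101.CB

open MvPolynomial Pool.Agent.W428.MOT
open Pool.Agent.Z864.MS (coeff_zero_aeval)
open Pool.Agent.W375.MT (coeff_aeval_congr coeff_arc)

namespace DEaux

section
variable {k : Type} [Field k] {m N : ℕ}

/-- the last series of a point -/
noncomputable def x0 (z : Pt k (Fin (m + 1) × Fin (N + 1))) :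
    PowerSeries (AlgebraicClosure k) := arc z (Fin.last m)

/-- its inverse -/
noncomputable def xi (z : Pt k (Fin (m + 1) × Fin (N + 1))) :
    PowerSeries (AlgebraicClosure k) := PowerSeries.invOfUnit (x0 z) 1

/-- the dehomogenised series -/
noncomputable def av (w : Fin m → ℕ) (z : Pt k (Fin (m + 1) × Fin (N + 1))) (i : Fin m) :
    PowerSeries (AlgebraicClosure k) := arc z (Fin.castSucc i) * xi z ^ w i

/-- the series `1 + ∑ w_j t ^ (j + 1)` -/
noncomputable def us (v : Pt k ((Fin m × Fin (N + 1)) ⊕ Fin N)) :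
    PowerSeries (AlgebraicClosure k) :=
  PowerSeries.mk fun j => if j = 0 then 1 else if h : j - 1 < N then v (Sum.inr ⟨j - 1, h⟩) else 0

/-- the homogenised series -/
noncomputable def bv (w : Fin m → ℕ) (v : Pt k ((Fin m × Fin (N + 1)) ⊕ Fin N)) :
    Fin (m + 1) → PowerSeries (AlgebraicClosure k) :=
  Fin.snoc (α := fun _ => PowerSeries (AlgebraicClosure k))
    (fun i => arc (fun p => v (Sum.inl p)) i * us v ^ w i) (us v)

/-- the map `(x, x_0) ↦ (x_i x_0 ^ (- w_i), x_0)` -/
noncomputable def ph (w : Fin m → ℕ) (z : Pt k (Fin (m + 1) × Fin (N + 1))) :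
    Pt k ((Fin m × Fin (N + 1)) ⊕ Fin N) :=
  Sum.elim (fun p => PowerSeries.coeff (p.2 : ℕ) (av w z p.1)) fun j => z (Fin.last m, j.succ)

/-- the inverse map -/
noncomputable def ps (w : Fin m → ℕ) (v : Pt k ((Fin m × Fin (N + 1)) ⊕ Fin N)) :
    Pt k (Fin (m + 1) × Fin (N + 1)) :=
  fun p => PowerSeries.coeff (p.2 : ℕ) (bv w v p.1)

theorem isPA_inv {ι : Type} {γ : Pt k ι → PowerSeries (AlgebraicClosure k)} (h : IsPA γ) :
    IsPA (fun z => PowerSeries.invOfUnit (γ z) 1) := by
  intro j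
  induction j using Nat.strong_induction_on with
  | _ j ih =>
    by_cases hj : j = 0
    · have e : (fun z => PowerSeries.coeff j (PowerSeries.invOfUnit (γ z) 1)) = fun _ => 1 := by
        funext z
        rw [PowerSeries.coeff_invOfUnit, if_pos hj, inv_one, Units.val_one]
      rw [e]
      exact IsPF.one
    · have e : (fun z => PowerSeries.coeff j (PowerSeries.invOfUnit (γ z) 1)) = fun z =>
          -∑ x ∈ Finset.HasAntidiagonal.antidiagonal j, (if x.2 < j then PowerSeries.coeff x.1 (γ z) *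
            PowerSeries.coeff x.2 (PowerSeries.invOfUnit (γ z) 1) else 0) := by
        funext z
        rw [PowerSeries.coeff_invOfUnit, if_neg hj, inv_one, Units.val_one, neg_one_mul]
      rw [e]
      refine IsPF.neg (IsPF.sum _ _ fun p _ => ?_)
      by_cases hp : p.2 < j
      · simp only [if_pos hp]
        exact (h p.1).mul (ih p.2 hp)
      · simp only [if_neg hp]
        exact IsPF.zero

theorem isPA_inl (i : Fin m) :
    IsPA (fun v : Pt k ((Fin m × Fin (N + 1)) ⊕ Fin N) => arc (fun p => v (Sum.inl p)) i) := by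
  intro j
  simp only [arc, PowerSeries.coeff_mk]
  split_ifs with h
  · exact IsPF.coord _
  · exact IsPF.zero

theorem isPA_us : IsPA (fun v : Pt k ((Fin m × Fin (N + 1)) ⊕ Fin N) => us v) := by
  intro j
  simp only [us, PowerSeries.coeff_mk]
  split_ifs with h h'
  · exact IsPF.one
  · exact IsPF.coord _
  · exact IsPF.zero

theorem reg_ph (w : Fin m → ℕ) (S : Set (Pt k (Fin (m + 1) × Fin (N + 1)))) :
    RegularOn S (ph w) := by
  refine regularOn_poly (fun i => ?_) S
  rcases i with p | j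
  · exact ((isPA_arc (Fin.castSucc p.1)).mul ((isPA_inv (isPA_arc (Fin.last m))).pow (w p.1))) p.2
  · exact IsPF.coord _

theorem reg_ps (w : Fin m → ℕ) (S : Set (Pt k ((Fin m × Fin (N + 1)) ⊕ Fin N))) :
    RegularOn S (ps w) := by
  refine regularOn_poly (fun p => ?_) S
  obtain ⟨i, j⟩ := p
  refine Fin.lastCases ?_ (fun i => ?_) i
  · simp only [ps, bv, Fin.snoc_last]
    exact isPA_us j
  · simp only [ps, bv, Fin.snoc_castSucc]
    exact ((isPA_inl i).mul (isPA_us.pow (w i))) j

/-- the quasi-homogeneity -/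
theorem qh {w : Fin m → ℕ} {d : ℕ} {G : MvPolynomial (Fin (m + 1)) k} (hG : WH w d G)
    {A : Type} [CommRing A] [Algebra k A] (c : Fin m → A) (s : A) :
    aeval (Fin.snoc (α := fun _ => A) (fun i => c i * s ^ w i) s) G = s ^ d * aeval c (dh G) := by
  have h1 : aeval c (dh G) = aeval (Fin.snoc (α := fun _ => A) c 1) G := by
    unfold dh
    rw [comp_aeval_apply]
    congr 1
    congr 1
    funext i
    refine Fin.lastCases ?_ (fun i => ?_) i
    · rw [Fin.snoc_last, Fin.snoc_last, map_one]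
    · rw [Fin.snoc_castSucc, Fin.snoc_castSucc, aeval_X]
  rw [h1, aeval_def, aeval_def, eval₂_eq', eval₂_eq', Finset.mul_sum]
  refine Finset.sum_congr rfl fun e he => ?_
  rw [Fin.prod_univ_castSucc, Fin.prod_univ_castSucc]
  simp only [Fin.snoc_castSucc, Fin.snoc_last, one_pow, mul_one, mul_pow, Finset.prod_mul_distrib]
  have h2 : ∏ i : Fin m, (s ^ w i) ^ e (Fin.castSucc i) = s ^ ∑ i, w i * e (Fin.castSucc i) := by
    rw [← Finset.prod_pow_eq_pow_sum]
    exact Finset.prod_congr rfl fun i _ => by rw [pow_mul]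
  rw [h2, ← hG e he, pow_add]
  ring

theorem delta_mul {A B : PowerSeries (AlgebraicClosure k)} (hB : PowerSeries.constantCoeff B = 1)
    (hA : ∀ j ≤ N, PowerSeries.coeff j A = if j = N then 1 else 0) :
    ∀ j ≤ N, PowerSeries.coeff j (B * A) = if j = N then 1 else 0 := by
  intro j hj
  rw [PowerSeries.coeff_mul]
  rw [Finset.sum_eq_single (0, j)]
  · rw [PowerSeries.coeff_zero_eq_constantCoeff_apply, hB, one_mul]
    exact hA j hj
  · rintro ⟨a, b⟩ hab hne
    have h1 := Finset.HasAntidiagonal.mem_antidiagonal.1 hab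
    simp only at h1
    have ha : a ≠ 0 := by
      rintro rfl
      apply hne
      rw [← h1, zero_add]
    have hb : b ≤ N := by omega
    rw [hA b hb, if_neg (by omega), mul_zero]
  · intro h
    exact absurd (Finset.HasAntidiagonal.mem_antidiagonal.2 (zero_add j)) h

theorem congr_mul {A A' B : PowerSeries (AlgebraicClosure k)}
    (h : ∀ j ≤ N, PowerSeries.coeff j A = PowerSeries.coeff j A') :
    ∀ j ≤ N, PowerSeries.coeff j (A * B) = PowerSeries.coeff j (A' * B) := by
  intro j hj
  rw [PowerSeries.coeff_mul, PowerSeries.coeff_mul]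
  refine Finset.sum_congr rfl fun p hp => ?_
  have := Finset.HasAntidiagonal.mem_antidiagonal.1 hp
  rw [h p.1 (by omega)]

theorem x0_xi {z : Pt k (Fin (m + 1) × Fin (N + 1))} (h : z (Fin.last m, 0) = 1) :
    x0 z * xi z = 1 := by
  refine PowerSeries.mul_invOfUnit _ _ ?_
  rw [x0, ← PowerSeries.coeff_zero_eq_constantCoeff_apply, coeff_arc _ _ _ (Nat.succ_pos N)]
  exact h

theorem const_xi (z : Pt k (Fin (m + 1) × Fin (N + 1))) :
    PowerSeries.constantCoeff (xi z) = 1 := by
  rw [xi, PowerSeries.constantCoeff_invOfUnit, inv_one, Units.val_one]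

theorem const_us (v : Pt k ((Fin m × Fin (N + 1)) ⊕ Fin N)) :
    PowerSeries.constantCoeff (us v) = 1 := by
  rw [← PowerSeries.coeff_zero_eq_constantCoeff_apply, us, PowerSeries.coeff_mk, if_pos rfl]

theorem us_ph (w : Fin m → ℕ) {z : Pt k (Fin (m + 1) × Fin (N + 1))}
    (h : z (Fin.last m, 0) = 1) : us (ph w z) = x0 z := by
  ext j
  rw [us, PowerSeries.coeff_mk, x0, arc, PowerSeries.coeff_mk]
  rcases Nat.eq_zero_or_pos j with rfl | hj
  · rw [if_pos rfl, dif_pos (Nat.succ_pos N)]
    exact h.symm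
  · rw [if_neg (by omega)]
    by_cases hjN : j < N + 1
    · rw [dif_pos (by omega), dif_pos hjN]
      simp only [ph, Sum.elim_inr]
      congr 2
      ext
      simp only [Fin.val_succ]
      omega
    · rw [dif_neg (by omega), dif_neg hjN]

theorem x0_ps (w : Fin m → ℕ) (v : Pt k ((Fin m × Fin (N + 1)) ⊕ Fin N)) :
    x0 (ps w v) = us v := by
  ext j
  rw [x0, arc, PowerSeries.coeff_mk]
  by_cases hjN : j < N + 1
  · rw [dif_pos hjN]
    simp only [ps, bv, Fin.snoc_last]
  · rw [dif_neg hjN, us, PowerSeries.coeff_mk, if_neg (by omega), dif_neg (by omega)]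

theorem arc_snoc (w : Fin m → ℕ) {z : Pt k (Fin (m + 1) × Fin (N + 1))}
    (h : z (Fin.last m, 0) = 1) :
    arc z = Fin.snoc (α := fun _ => PowerSeries (AlgebraicClosure k))
      (fun i => av w z i * x0 z ^ w i) (x0 z) := by
  funext i
  refine Fin.lastCases ?_ (fun i => ?_) i
  · rw [Fin.snoc_last]
    rfl
  · rw [Fin.snoc_castSucc, av, mul_assoc, ← mul_pow, mul_comm (xi z), x0_xi h, one_pow, mul_one]

theorem aeval_av {w : Fin m → ℕ} {d : ℕ} {G : MvPolynomial (Fin (m + 1)) k} (hG : WH w d G)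
    {z : Pt k (Fin (m + 1) × Fin (N + 1))} (h : z (Fin.last m, 0) = 1) :
    aeval (av w z) (dh G) = xi z ^ d * aeval (arc z) G := by
  rw [arc_snoc w h, qh hG, ← mul_assoc, ← mul_pow, mul_comm (xi z), x0_xi h, one_pow, one_mul]

theorem last_of_mem {G : MvPolynomial (Fin (m + 1)) k} {z : Pt k (Fin (m + 1) × Fin (N + 1))}
    (hz : z ∈ JetS G Fin.castSucc (sgd k m) N) : z (Fin.last m, 0) = 1 := by
  have h := hz.2 (Fin.last m)
  rw [h, sgd, Fin.snoc_last, map_one]

theorem mapsTo_ph {w : Fin m → ℕ} {d : ℕ} {G : MvPolynomial (Fin (m + 1)) k} (hG : WH w d G) :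
    Set.MapsTo (ph w) (JetS G Fin.castSucc (sgd k m) N)
      {v : Pt k ((Fin m × Fin (N + 1)) ⊕ Fin N) | (fun i => v (Sum.inl i)) ∈ JetE (dh G) N} := by
  intro z hz
  have h1 := last_of_mem hz
  intro j hj
  have h2 := coeff_aeval_congr (dh G) N (arc fun i => ph w z (Sum.inl i)) (av w z)
    (fun i j hj => by
      rw [coeff_arc _ _ _ (by omega)]
      rfl) j hj
  rw [h2, aeval_av hG h1]
  refine delta_mul ?_ hz.1 j hj
  rw [map_pow, const_xi, one_pow]

theorem mapsTo_ps {w : Fin m → ℕ} {d : ℕ} {G : MvPolynomial (Fin (m + 1)) k} (hG : WH w d G) :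
    Set.MapsTo (ps w)
      {v : Pt k ((Fin m × Fin (N + 1)) ⊕ Fin N) | (fun i => v (Sum.inl i)) ∈ JetE (dh G) N}
      (JetS G Fin.castSucc (sgd k m) N) := by
  intro v hv
  refine ⟨fun j hj => ?_, fun i => ?_⟩
  · have h2 := coeff_aeval_congr G N (arc (ps w v)) (bv w v)
      (fun i j hj => by
        rw [coeff_arc _ _ _ (by omega)]
        rfl) j hj
    rw [h2, bv, qh hG]
    refine delta_mul ?_ hv j hj
    rw [map_pow, const_us, one_pow]
  · refine Fin.lastCases ?_ (fun i => ?_) i
    · rw [sgd, Fin.snoc_last, map_one]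
      simp only [ps, bv, Fin.snoc_last, Fin.val_zero]
      rw [PowerSeries.coeff_zero_eq_constantCoeff_apply, const_us]
    · rw [sgd, Fin.snoc_castSucc, aeval_X]

theorem ps_ph (w : Fin m → ℕ) {z : Pt k (Fin (m + 1) × Fin (N + 1))}
    (h : z (Fin.last m, 0) = 1) : ps w (ph w z) = z := by
  funext p
  obtain ⟨i, j⟩ := p
  revert j
  refine Fin.lastCases (fun j => ?_) (fun i j => ?_) i
  · simp only [ps, bv, Fin.snoc_last]
    rw [us_ph w h, x0, coeff_arc _ _ _ j.2]
  · simp only [ps, bv, Fin.snoc_castSucc]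
    rw [us_ph w h]
    have h2 : ∀ j ≤ N, PowerSeries.coeff j (arc (fun p => ph w z (Sum.inl p)) i) =
        PowerSeries.coeff j (av w z i) := by
      intro j hj
      rw [coeff_arc _ _ _ (by omega)]
      rfl
    rw [congr_mul h2 j (by omega)]
    have h3 : av w z i * x0 z ^ w i = arc z (Fin.castSucc i) := by
      rw [av, mul_assoc, ← mul_pow, mul_comm (xi z), x0_xi h, one_pow, mul_one]
    rw [h3, coeff_arc _ _ _ j.2]

theorem ph_ps (w : Fin m → ℕ) (v : Pt k ((Fin m × Fin (N + 1)) ⊕ Fin N)) :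
    ph w (ps w v) = v := by
  have h1 : (ps w v) (Fin.last m, 0) = 1 := by
    simp only [ps, bv, Fin.snoc_last, Fin.val_zero]
    rw [PowerSeries.coeff_zero_eq_constantCoeff_apply, const_us]
  funext q
  rcases q with ⟨i, j⟩ | j
  · simp only [ph, Sum.elim_inl, av]
    have h2 : ∀ j ≤ N, PowerSeries.coeff j (arc (ps w v) (Fin.castSucc i)) =
        PowerSeries.coeff j (arc (fun p => v (Sum.inl p)) i * us v ^ w i) := by
      intro j hj
      rw [coeff_arc _ _ _ (by omega)]
      simp only [ps, bv, Fin.snoc_castSucc]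
    rw [congr_mul h2 j (by omega)]
    have h3 := x0_xi h1
    rw [x0_ps] at h3
    rw [mul_assoc, ← mul_pow, h3, one_pow, mul_one, coeff_arc _ _ _ j.2]
  · simp only [ph, Sum.elim_inr, ps, bv, Fin.snoc_last, us, PowerSeries.coeff_mk, Fin.val_succ]
    rw [if_neg (by omega), dif_pos (by omega)]
    congr 2

theorem xi_dact {z : Pt k (Fin (m + 1) × Fin (N + 1))} (h : z (Fin.last m, 0) = 1)
    (l : AlgebraicClosure k) :
    xi (dact (jw (m + 1) N) l z) = PowerSeries.rescale l (xi z) := by
  have h1 : x0 (dact (jw (m + 1) N) l z) = PowerSeries.rescale l (x0 z) := arc_dact l z _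
  have h2 : dact (jw (m + 1) N) l z (Fin.last m, 0) = 1 := by
    rw [EPSIaux.dact_zero, h]
  have h3 := x0_xi h2
  rw [h1] at h3
  have h4 : PowerSeries.rescale l (xi z) * PowerSeries.rescale l (x0 z) = 1 := by
    rw [← map_mul, mul_comm, x0_xi h, map_one]
  exact (left_inv_eq_right_inv h4 h3).symm

theorem ph_dact (w : Fin m → ℕ) {z : Pt k (Fin (m + 1) × Fin (N + 1))}
    (h : z (Fin.last m, 0) = 1) (l : AlgebraicClosure k) :
    ph w (dact (jw (m + 1) N) l z) =
      dact (Sum.elim (jw m N) fun j : Fin N => ((j.succ : ℕ) : ℤ)) l (ph w z) := by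
  funext q
  rcases q with ⟨i, j⟩ | j
  · have h1 : arc (dact (jw (m + 1) N) l z) (Fin.castSucc i) =
        PowerSeries.rescale l (arc z (Fin.castSucc i)) := arc_dact l z _
    simp only [ph, Sum.elim_inl, av, dact]
    have h2 := xi_dact h l
    change PowerSeries.coeff (j : ℕ) (arc (dact (jw (m + 1) N) l z) (Fin.castSucc i) *
      xi (dact (jw (m + 1) N) l z) ^ w i) = _
    rw [h1, h2, ← map_pow, ← map_mul, PowerSeries.coeff_rescale, jw, zpow_natCast]
  · simp only [ph, Sum.elim_inr, dact, jw]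

theorem valid_sum {n : ℕ} {f : MvPolynomial (Fin n) k} {ι κ : Type} {S : Set (Pt k ι)}
    {ρ : ι → ℤ} (ρ' : κ → ℤ) {M : ℕ} {β : Fin n → Option ι} (h : Valid f S ρ M β) :
    Valid f {z : Pt k (ι ⊕ κ) | (fun i => z (Sum.inl i)) ∈ S} (Sum.elim ρ ρ') M
      (fun i => (β i).map Sum.inl) where
  constr := h.constr.preimage (fun (z : Pt k (ι ⊕ κ)) i => z (Sum.inl i)) fun _ => IsPF.coord _
  pos := h.pos
  stable := fun l hl z hz => h.stable l hl _ hz
  base := fun z hz => by
    have h1 := h.base _ hz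
    have h2 : cbase (fun i => (β i).map Sum.inl) z = cbase β fun i => z (Sum.inl i) := by
      funext i
      simp only [cbase]
      cases β i <;> rfl
    rw [h2]
    exact h1
  inv := fun i j hj => by
    cases hb : β i with
    | none => rw [hb] at hj; simp at hj
    | some j' =>
      rw [hb] at hj
      simp only [Option.map_some, Option.some.injEq] at hj
      rw [← hj]
      exact h.inv i j' hb

end

end DEaux

open DEaux in
theorem de : TaskDE := by
  intro k _ _ m w d G hG R _ M N hN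
  have hv := EPSIaux.valid_JetS (f := dh G) (F := G) (h := Fin.castSucc) (σ := sgd k m)
    (N := N) rfl hN
  have hv2 := valid_sum (κ := Fin N) (fun j : Fin N => ((j.succ : ℕ) : ℤ))
    (jetValid (dh G) N hN)
  have h1 := M.iso _ _ _ _ _ _ _ _ hv hv2 (ph w) (ps w) (reg_ph w _) (reg_ps w _)
    (mapsTo_ph hG) (mapsTo_ps hG) (fun z hz => ps_ph w (last_of_mem hz)) (fun v _ => ph_ps w v)
    (fun z hz => by
      funext i
      simp only [cbase, jbs, Option.map_some, Option.elim]
      simp only [ph, Sum.elim_inl, av, Fin.val_zero]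
      rw [PowerSeries.coeff_zero_eq_constantCoeff_apply, map_mul, map_pow, const_xi, one_pow,
        mul_one, ← PowerSeries.coeff_zero_eq_constantCoeff_apply,
        coeff_arc _ _ _ (Nat.succ_pos N)]
      rfl)
    (fun l _ z hz => ph_dact w (last_of_mem hz) (l ^ N))
  have h2 := M.aff (JetE (dh G) N) (jw m N) (fun j : Fin N => ((j.succ : ℕ) : ℤ)) N (jb m N)
    (jetValid (dh G) N hN)
  rw [Fintype.card_fin] at h2
  rw [mul_comm, ← h2]
  exact h1

end Pool.Agent.N101.CB
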