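import Pool.Agent.N101.CB.StmD
import Pool.Agent.Z864.MS.Three
import Pool.Agent.W417.MT.Free
import Pool.Agent.W417.MT.K0

/-!
# Project CUB: the zeta function of the dehomogenisation (DZ)
-/

set_option autoImplicit false

namespace Pool.Agent.N101.CB.DZaux

open MvPolynomial Pool.Agent.W428.MOT Pool.Agent.W375.MT Pool.Agent.Z864.MS

/-! ### Power series modulo `t ^ (N + 1)` -/

section Quot

variable (K : Type) [Field K] (N : ℕ)

/-- the power series modulo `t ^ (N + 1)` -/
abbrev QQ : Type := PowerSeries (AlgebraicClosure K) ⧸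
  (Ideal.span {(PowerSeries.X : PowerSeries (AlgebraicClosure K)) ^ (N + 1)})

/-- the quotient map -/
noncomputable def q : PowerSeries (AlgebraicClosure K) →ₐ[K] QQ K N :=
  Ideal.Quotient.mkₐ K _

variable {K N}

theorem q_eq (a b : PowerSeries (AlgebraicClosure K)) :
    q K N a = q K N b ↔ ∀ k ≤ N, PowerSeries.coeff k a = PowerSeries.coeff k b := by
  change Ideal.Quotient.mk _ a = Ideal.Quotient.mk _ b ↔ _
  rw [Ideal.Quotient.eq, Ideal.mem_span_singleton, PowerSeries.X_pow_dvd_iff]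
  constructor
  · intro h k hk
    have h1 := h k (by omega)
    rw [map_sub, sub_eq_zero] at h1
    exact h1
  · intro h k hk
    rw [map_sub, h k (by omega), sub_self]

theorem q_dvd (a : PowerSeries (AlgebraicClosure K))
    (h : (PowerSeries.X : PowerSeries (AlgebraicClosure K)) ^ (N + 1) ∣ a) : q K N a = 0 := by
  change Ideal.Quotient.mk _ a = 0
  rw [Ideal.Quotient.eq_zero_iff_mem, Ideal.mem_span_singleton]
  exact h

variable {a b : ℕ}

/-- the jets as points over the quotient ring -/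
noncomputable def ga (z : Pt K (Fin a × Fin (N + 1))) (i : Fin a) : QQ K N := q K N (arc z i)

theorem q_aeval (z : Pt K (Fin a × Fin (N + 1))) (f : MvPolynomial (Fin a) K) :
    q K N (aeval (arc z) f) = aeval (ga z) f := by
  have h : (q K N).comp (aeval (arc z)) = aeval (ga z) := by
    apply MvPolynomial.algHom_ext
    intro i
    rw [AlgHom.comp_apply, aeval_X, aeval_X]
    rfl
  rw [← h]
  rfl

theorem ga_Tm (φ : MvPolynomial (Fin a) K →ₐ[K] MvPolynomial (Fin b) K)
    (z : Pt K (Fin b × Fin (N + 1))) (i : Fin a) :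
    ga (Tm φ N z) i = aeval (ga z) (φ (X i)) := by
  rw [← q_aeval]
  unfold ga
  rw [q_eq]
  intro k hk
  rw [coeff_arc _ _ _ (by omega)]
  rfl

theorem ga_inj (z w : Pt K (Fin a × Fin (N + 1))) (h : ∀ i, ga z i = ga w i) : z = w := by
  funext p
  obtain ⟨i, k⟩ := p
  have h1 := (q_eq _ _).1 (h i) k (by omega)
  rw [coeff_arc _ _ _ k.2, coeff_arc _ _ _ k.2] at h1
  exact h1

theorem aeval_ga_Tm (φ : MvPolynomial (Fin a) K →ₐ[K] MvPolynomial (Fin b) K)
    (z : Pt K (Fin b × Fin (N + 1))) (g : MvPolynomial (Fin a) K) :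
    aeval (ga (Tm φ N z)) g = aeval (ga z) (φ g) := by
  have h : ga (Tm φ N z) = fun i => aeval (ga z) (φ (X i)) := by
    funext i
    exact ga_Tm φ z i
  rw [h]
  exact aeval_cmp φ (ga z) g

/-- the jets, in the quotient ring -/
theorem mem_Jet (f : MvPolynomial (Fin a) K) (x : Fin a → K) (z : Pt K (Fin a × Fin (N + 1))) :
    z ∈ Jet f x N ↔ (∀ i, z (i, 0) = algebraMap K (AlgebraicClosure K) (x i)) ∧
      aeval (ga z) f = q K N (PowerSeries.X ^ N) := by
  rw [← q_aeval, q_eq]
  unfold Jet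
  simp only [Set.mem_ofPred_eq, PowerSeries.coeff_X_pow]

theorem X_dvd (z : Pt K (Fin a × Fin (N + 1))) (i : Fin a) (h : z (i, 0) = 1) :
    (PowerSeries.X : PowerSeries (AlgebraicClosure K)) ∣ 1 - arc z i := by
  rw [PowerSeries.X_dvd_iff, map_sub, map_one, ← PowerSeries.coeff_zero_eq_constantCoeff_apply,
    coeff_arc _ _ _ (Nat.succ_pos N)]
  change 1 - z (i, 0) = 0
  rw [h, sub_self]

theorem ga_nil (z : Pt K (Fin a × Fin (N + 1))) (i : Fin a) (h : z (i, 0) = 1) :
    (1 - ga z i) ^ (N + 1) = 0 := by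
  have h1 : (1 - ga z i) ^ (N + 1) = q K N ((1 - arc z i) ^ (N + 1)) := by
    rw [map_pow, map_sub, map_one]
    rfl
  rw [h1]
  exact q_dvd _ (pow_dvd_pow_of_dvd (X_dvd z i h) _)

theorem ga_XN (z : Pt K (Fin a × Fin (N + 1))) (i : Fin a) (h : z (i, 0) = 1) :
    ga z i * q K N (PowerSeries.X ^ N) = q K N (PowerSeries.X ^ N) := by
  have h1 : q K N (PowerSeries.X ^ N) - ga z i * q K N (PowerSeries.X ^ N) =
      q K N (PowerSeries.X ^ N * (1 - arc z i)) := by
    rw [map_mul, map_sub, map_one]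
    change _ = _ * (1 - ga z i)
    ring
  have h2 : q K N (PowerSeries.X ^ N * (1 - arc z i)) = 0 := by
    apply q_dvd
    rw [pow_succ]
    exact mul_dvd_mul_left _ (X_dvd z i h)
  rw [h2, sub_eq_zero] at h1
  exact h1.symm

end Quot

/-! ### The two substitutions -/

section Sub

variable {K : Type} [Field K] {m : ℕ} (N : ℕ) (w : Fin m → ℕ)

/-- the inverse of the last variable modulo `(1 - x_last) ^ (N + 1)` -/
noncomputable def P (K : Type) [Field K] (m N : ℕ) : MvPolynomial (Fin (m + 1)) K :=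
  ∑ j ∈ Finset.range (N + 1), (1 - X (Fin.last m)) ^ j

/-- `x_i ↦ x_i P ^ (w i)` -/
noncomputable def phi : MvPolynomial (Fin (m + 1)) K →ₐ[K] MvPolynomial (Fin (m + 1)) K :=
  aeval (Fin.snoc (α := fun _ => MvPolynomial (Fin (m + 1)) K)
    (fun i => X (Fin.castSucc i) * P K m N ^ w i) (X (Fin.last m)))

/-- `x_i ↦ x_i x_last ^ (w i)` -/
noncomputable def theta : MvPolynomial (Fin (m + 1)) K →ₐ[K] MvPolynomial (Fin (m + 1)) K :=
  aeval (Fin.snoc (α := fun _ => MvPolynomial (Fin (m + 1)) K)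
    (fun i => X (Fin.castSucc i) * X (Fin.last m) ^ w i) (X (Fin.last m)))

theorem phi_c (i : Fin m) : phi (K := K) N w (X (Fin.castSucc i)) =
    X (Fin.castSucc i) * P K m N ^ w i := by
  unfold phi
  rw [aeval_X, Fin.snoc_castSucc]

theorem phi_l : phi (K := K) N w (X (Fin.last m)) = X (Fin.last m) := by
  unfold phi
  rw [aeval_X, Fin.snoc_last]

theorem theta_c (i : Fin m) : theta (K := K) w (X (Fin.castSucc i)) =
    X (Fin.castSucc i) * X (Fin.last m) ^ w i := by
  unfold theta
  rw [aeval_X, Fin.snoc_castSucc]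

theorem theta_l : theta (K := K) w (X (Fin.last m)) = X (Fin.last m) := by
  unfold theta
  rw [aeval_X, Fin.snoc_last]

theorem theta_G (d : ℕ) (G : MvPolynomial (Fin (m + 1)) K) (hG : WH w d G) :
    theta w G = X (Fin.last m) ^ d * rename Fin.castSucc (dh G) := by
  have h1 : theta w G = ∑ e ∈ G.support, C (coeff e G) *
      (X (Fin.last m) ^ d * ∏ i, X (Fin.castSucc i) ^ e (Fin.castSucc i)) := by
    unfold theta
    rw [aeval_def, eval₂_eq']
    refine Finset.sum_congr rfl fun e he => ?_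
    have h2 := hG e he
    rw [Fin.prod_univ_castSucc, Fin.snoc_last]
    simp only [Fin.snoc_castSucc]
    rw [algebraMap_eq]
    congr 1
    simp only [mul_pow, Finset.prod_mul_distrib, ← pow_mul]
    rw [Finset.prod_pow_eq_pow_sum, mul_assoc, ← pow_add, add_comm (∑ i, w i * e (Fin.castSucc i)),
      h2, mul_comm]
  have h3 : rename Fin.castSucc (dh G) = ∑ e ∈ G.support, C (coeff e G) *
      ∏ i, (X (Fin.castSucc i) : MvPolynomial (Fin (m + 1)) K) ^ e (Fin.castSucc i) := by
    unfold dh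
    rw [aeval_def, eval₂_eq', map_sum]
    refine Finset.sum_congr rfl fun e _ => ?_
    rw [Fin.prod_univ_castSucc, Fin.snoc_last, one_pow, mul_one, map_mul, map_prod]
    simp only [Fin.snoc_castSucc, map_pow, rename_X]
    rw [algebraMap_eq, rename_C]
  rw [h1, h3, Finset.mul_sum]
  refine Finset.sum_congr rfl fun e _ => ?_
  ring

end Sub

/-! ### The two sets of jets -/

section Main

variable {K : Type} [Field K] {m N : ℕ}

theorem P_inv (z : Pt K (Fin (m + 1) × Fin (N + 1))) (h : z (Fin.last m, 0) = 1) :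
    aeval (ga z) (P K m N) * ga z (Fin.last m) = 1 := by
  have h1 : aeval (ga z) (P K m N) =
      ∑ j ∈ Finset.range (N + 1), (1 - ga z (Fin.last m)) ^ j := by
    unfold P
    simp only [map_sum, map_pow, map_sub, map_one, aeval_X]
  have h2 := geom_sum_mul_neg (1 - ga z (Fin.last m)) (N + 1)
  rw [ga_nil z _ h, sub_sub_cancel, sub_zero] at h2
  rw [h1, h2]

theorem P_XN (z : Pt K (Fin (m + 1) × Fin (N + 1))) (h : z (Fin.last m, 0) = 1) :
    aeval (ga z) (P K m N) * q K N (PowerSeries.X ^ N) = q K N (PowerSeries.X ^ N) := by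
  have h1 := ga_XN z _ h
  calc aeval (ga z) (P K m N) * q K N (PowerSeries.X ^ N)
      = (aeval (ga z) (P K m N) * ga z (Fin.last m)) * q K N (PowerSeries.X ^ N) := by
        rw [mul_assoc, h1]
    _ = _ := by rw [P_inv z h, one_mul]

theorem pow_mul_eq {A : Type} [CommRing A] (u t : A) (h : u * t = t) (d : ℕ) :
    u ^ d * t = t := by
  induction d with
  | zero => rw [pow_zero, one_mul]
  | succ d ih => rw [pow_succ, mul_assoc, h, ih]

theorem pow_XN (u : QQ K N) (h : u * q K N (PowerSeries.X ^ N) = q K N (PowerSeries.X ^ N))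
    (d : ℕ) : u ^ d * q K N (PowerSeries.X ^ N) = q K N (PowerSeries.X ^ N) :=
  pow_mul_eq u _ h d

/-- the restriction to the first `m` variables -/
def rs (z : Pt K (Fin (m + 1) × Fin (N + 1))) : Pt K (Fin m × Fin (N + 1)) :=
  fun p => z (Fin.castSucc p.1, p.2)

/-- the extension by the constant `1` -/
noncomputable def ex (z : Pt K (Fin m × Fin (N + 1))) : Pt K (Fin (m + 1) × Fin (N + 1)) :=
  fun p => Fin.snoc (α := fun _ => AlgebraicClosure K) (fun i => z (i, p.2))
    (if p.2 = 0 then 1 else 0) p.1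

theorem ga_rs (z : Pt K (Fin (m + 1) × Fin (N + 1))) (i : Fin m) :
    ga (rs z) i = ga z (Fin.castSucc i) := rfl

/-- the jets whose first `m` coordinates are a jet of `g` -/
def S2 (g : MvPolynomial (Fin m) K) (x : Fin m → K) (N : ℕ) :
    Set (Pt K (Fin (m + 1) × Fin (N + 1))) :=
  {z | z (Fin.last m, 0) = 1 ∧ rs z ∈ Jet g x N}

theorem constr_S2 (g : MvPolynomial (Fin m) K) (x : Fin m → K) : Constr (S2 g x N) :=
  Constr.and (Constr.eq (IsPF.coord _) IsPF.one)
    ((constr_Jet g x N).preimage rs fun _ => IsPF.coord _)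

theorem aeval_snoc (x : Fin m → K) (z : Pt K (Fin (m + 1) × Fin (N + 1))) :
    (∀ i, z (i, 0) = algebraMap K (AlgebraicClosure K)
      (Fin.snoc (α := fun _ => K) x 1 i)) ↔
    z (Fin.last m, 0) = 1 ∧ ∀ i, rs z (i, 0) = algebraMap K (AlgebraicClosure K) (x i) := by
  constructor
  · intro h
    constructor
    · rw [h, Fin.snoc_last, map_one]
    · intro i
      change z (Fin.castSucc i, 0) = _
      rw [h, Fin.snoc_castSucc]
  · rintro ⟨h1, h2⟩ i
    refine Fin.lastCases ?_ (fun i => ?_) i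
    · rw [h1, Fin.snoc_last, map_one]
    · rw [Fin.snoc_castSucc, ← h2]
      rfl

theorem key (w : Fin m → ℕ) (d : ℕ) (G : MvPolynomial (Fin (m + 1)) K) (hG : WH w d G)
    (z : Pt K (Fin (m + 1) × Fin (N + 1))) :
    aeval (ga z) (theta w G) = ga z (Fin.last m) ^ d * aeval (ga (rs z)) (dh G) := by
  rw [theta_G w d G hG, map_mul, map_pow, aeval_X, aeval_rename]
  rfl

theorem Tm_zero_l (φ : MvPolynomial (Fin (m + 1)) K →ₐ[K] MvPolynomial (Fin (m + 1)) K)
    (h : φ (X (Fin.last m)) = X (Fin.last m)) (z : Pt K (Fin (m + 1) × Fin (N + 1))) :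
    Tm φ N z (Fin.last m, 0) = z (Fin.last m, 0) := by
  have h1 : Tm φ N z (Fin.last m, 0) = aeval (fun i => z (i, 0)) (φ (X (Fin.last m))) :=
    coeff_zero_aeval z _
  rw [h1, h, aeval_X]

theorem chi1 {R : Type} [CommRing R] (M : Meas K R) (w : Fin m → ℕ) (d : ℕ)
    (G : MvPolynomial (Fin (m + 1)) K) (hG : WH w d G) (x : Fin m → K) :
    M.χ _ (Jet G (Fin.snoc (α := fun _ => K) x 1) N) = M.χ _ (S2 (dh G) x N) := by
  have inv1 : ∀ z : Pt K (Fin (m + 1) × Fin (N + 1)), z (Fin.last m, 0) = 1 →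
      Tm (theta w) N (Tm (phi N w) N z) = z := by
    intro z hz
    apply ga_inj
    intro i
    rw [ga_Tm]
    refine Fin.lastCases ?_ (fun i => ?_) i
    · rw [theta_l, aeval_X, ga_Tm, phi_l, aeval_X]
    · rw [theta_c, map_mul, map_pow, aeval_X, aeval_X, ga_Tm, ga_Tm, phi_l, phi_c, map_mul,
        map_pow, aeval_X, aeval_X, mul_assoc, ← mul_pow, P_inv z hz, one_pow, mul_one]
  have inv2 : ∀ z : Pt K (Fin (m + 1) × Fin (N + 1)), z (Fin.last m, 0) = 1 →
      Tm (phi N w) N (Tm (theta w) N z) = z := by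
    intro z hz
    have hP : aeval (ga (Tm (theta w) N z)) (P K m N) = aeval (ga z) (P K m N) := by
      rw [aeval_ga_Tm]
      have : theta (K := K) w (P K m N) = P K m N := by
        unfold P
        simp only [map_sum, map_pow, map_sub, map_one, theta_l]
      rw [this]
    apply ga_inj
    intro i
    rw [ga_Tm]
    refine Fin.lastCases ?_ (fun i => ?_) i
    · rw [phi_l, aeval_X, ga_Tm, theta_l, aeval_X]
    · rw [phi_c, map_mul, map_pow, hP, aeval_X, ga_Tm, theta_c, map_mul, map_pow, aeval_X, aeval_X,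
        mul_assoc, ← mul_pow, mul_comm (ga z (Fin.last m)), P_inv z hz, one_pow, mul_one]
  refine M.iso _ _ (constr_Jet _ _ N) (constr_S2 _ _) (Tm (phi N w) N) (Tm (theta w) N)
    (regularOn_poly (fun p => isPF_Tm _ p) _) (regularOn_poly (fun p => isPF_Tm _ p) _)
    ?_ ?_ ?_ ?_
  · intro z hz
    rw [mem_Jet, aeval_snoc] at hz
    obtain ⟨⟨h1, h2⟩, h3⟩ := hz
    have hl : Tm (phi N w) N z (Fin.last m, 0) = 1 := by
      rw [Tm_zero_l _ (phi_l N w), h1]
    refine ⟨hl, ?_⟩
    rw [mem_Jet]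
    constructor
    · intro i
      have h4 : rs (Tm (phi N w) N z) (i, 0) =
          aeval (fun i => z (i, 0)) (phi N w (X (Fin.castSucc i))) := coeff_zero_aeval z _
      have h5 : aeval (fun i => z (i, (0 : Fin (N + 1)))) (P K m N) = 1 := by
        unfold P
        simp only [map_sum, map_pow, map_sub, map_one, aeval_X]
        rw [h1, sub_self, zero_geom_sum, if_neg (Nat.succ_ne_zero N)]
      rw [h4, phi_c, map_mul, map_pow, h5, one_pow, mul_one, aeval_X]
      exact h2 i
    · have h4 := key w d G hG (Tm (phi N w) N z)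
      rw [← aeval_ga_Tm, inv1 z h1, h3] at h4
      have h5 := P_XN z h1
      have h6 : ga (Tm (phi N w) N z) (Fin.last m) = ga z (Fin.last m) := by
        rw [ga_Tm, phi_l, aeval_X]
      rw [h6] at h4
      calc aeval (ga (rs (Tm (phi N w) N z))) (dh G)
          = (aeval (ga z) (P K m N) * ga z (Fin.last m)) ^ d *
              aeval (ga (rs (Tm (phi N w) N z))) (dh G) := by
            rw [P_inv z h1, one_pow, one_mul]
        _ = aeval (ga z) (P K m N) ^ d * (ga z (Fin.last m) ^ d *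
              aeval (ga (rs (Tm (phi N w) N z))) (dh G)) := by
            rw [mul_pow, mul_assoc]
        _ = q K N (PowerSeries.X ^ N) := by
            rw [← h4, pow_XN _ h5]
  · rintro z ⟨h1, h2⟩
    rw [mem_Jet] at h2
    obtain ⟨h2, h3⟩ := h2
    rw [mem_Jet, aeval_snoc]
    have hl : Tm (theta w) N z (Fin.last m, 0) = 1 := by
      rw [Tm_zero_l _ (theta_l w), h1]
    refine ⟨⟨hl, ?_⟩, ?_⟩
    · intro i
      have h4 : rs (Tm (theta w) N z) (i, 0) =
          aeval (fun i => z (i, 0)) (theta w (X (Fin.castSucc i))) := coeff_zero_aeval z _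
      rw [h4, theta_c, map_mul, map_pow, aeval_X, aeval_X, h1, one_pow, mul_one]
      exact h2 i
    · rw [aeval_ga_Tm, key w d G hG z, h3]
      exact pow_XN _ (ga_XN z _ h1) d
  · intro z hz
    rw [mem_Jet, aeval_snoc] at hz
    exact inv1 z hz.1.1
  · rintro z ⟨h1, -⟩
    exact inv2 z h1

/-- the free coordinates -/
def F1 (m N : ℕ) : Finset (Fin (m + 1) × Fin (N + 1)) :=
  (Finset.univ : Finset (Fin N)).image fun j => (Fin.last m, j.succ)

theorem card_F1 (m N : ℕ) : (F1 m N).card = N := by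
  unfold F1
  rw [Finset.card_image_of_injective _ (fun i j h => Fin.succ_injective _ (Prod.ext_iff.1 h).2),
    Finset.card_univ, Fintype.card_fin]

theorem mem_F1 (p : Fin (m + 1) × Fin (N + 1)) :
    p ∈ F1 m N ↔ p.1 = Fin.last m ∧ p.2 ≠ 0 := by
  unfold F1
  simp only [Finset.mem_image, Finset.mem_univ, true_and]
  constructor
  · rintro ⟨j, rfl⟩
    exact ⟨rfl, Fin.succ_ne_zero j⟩
  · rintro ⟨h1, h2⟩
    obtain ⟨j, hj⟩ := Fin.exists_succ_eq.2 h2
    exact ⟨j, Prod.ext h1.symm hj⟩

theorem chi2 {R : Type} [CommRing R] (M : Meas K R) (g : MvPolynomial (Fin m) K)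
    (x : Fin m → K) :
    M.χ _ (S2 g x N) = M.χ _ (Jet g x N) * M.L ^ N := by
  have h1 := Pool.Agent.W417.MT.Free.free_one M (F1 m N) (fun _ => 0) (S2 g x N) (constr_S2 g x)
    (by
      rintro z w hzw ⟨h1, h2⟩
      have h3 : rs w = rs z := by
        funext p
        exact hzw _ (by
          rw [mem_F1]
          rintro ⟨h3, -⟩
          exact (Fin.castSucc_lt_last p.1).ne h3)
      refine ⟨?_, ?_⟩
      · rw [hzw _ (by rw [mem_F1]; exact fun h => h.2 rfl), h1]
      · rw [h3]
        exact h2)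
  rw [card_F1] at h1
  rw [h1]
  congr 1
  refine M.iso _ _ ((constr_S2 g x).inter (Constr.ballFinset _ fun p _ =>
    Constr.eq (IsPF.coord _) (IsPF.const _))) (constr_Jet g x N) rs ex
    (regularOn_poly (fun p => IsPF.coord _) _) (regularOn_poly (fun p => ?_) _) ?_ ?_ ?_ ?_
  · obtain ⟨i, k⟩ := p
    refine Fin.lastCases ?_ (fun i => ?_) i
    · unfold ex
      simp only [Fin.snoc_last]
      split_ifs
      · exact IsPF.one
      · exact IsPF.zero
    · unfold ex
      simp only [Fin.snoc_castSucc]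
      exact IsPF.coord _
  · rintro z ⟨⟨-, h⟩, -⟩
    exact h
  · intro z hz
    have h2 : rs (ex z) = z := by
      funext p
      unfold rs ex
      simp only [Fin.snoc_castSucc]
    refine ⟨⟨?_, ?_⟩, ?_⟩
    · unfold ex
      simp only [Fin.snoc_last, if_true]
    · rw [h2]
      exact hz
    · intro p hp
      rw [mem_F1] at hp
      obtain ⟨i, k⟩ := p
      obtain ⟨rfl, hk⟩ := hp
      unfold ex
      simp only [Fin.snoc_last, map_zero]
      exact if_neg hk
  · rintro z ⟨⟨h2, -⟩, h3⟩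
    funext p
    obtain ⟨i, k⟩ := p
    refine Fin.lastCases ?_ (fun i => ?_) i
    · unfold ex
      simp only [Fin.snoc_last]
      by_cases hk : k = 0
      · rw [if_pos hk, hk, h2]
      · rw [if_neg hk, h3 (Fin.last m, k) ((mem_F1 _).2 ⟨rfl, hk⟩), map_zero]
    · unfold ex
      simp only [Fin.snoc_castSucc]
      rfl
  · intro z _
    funext p
    unfold rs ex
    simp only [Fin.snoc_castSucc]

end Main

end Pool.Agent.N101.CB.DZaux

namespace Pool.Agent.N101.CB

open MvPolynomial Pool.Agent.W428.MOT DZaux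

theorem dz : TaskDZ := by
  intro K _ _ m w d G hG x _
  obtain ⟨M, hM⟩ := Pool.Agent.W417.MT.K0.main K
  ext N
  unfold zeta
  rw [PowerSeries.coeff_mk, PowerSeries.coeff_mk]
  by_cases hN : N = 0
  · rw [if_pos hN, if_pos hN]
  · rw [if_neg hN, if_neg hN]
    have h1 := (chi1 (N := N) M w d G hG x).trans (chi2 M (dh G) x)
    rw [hM, hM] at h1
    have hL : M.L = LK K := hM _ _
    rw [hL] at h1
    rw [h1, map_mul, map_pow]
    have h2 : algebraMap (K0 K) (MK K) (LK K) = ((Lu K : (MK K)ˣ) : MK K) := rfl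
    rw [h2, ← Units.val_pow_eq_pow_val, mul_assoc, ← Units.val_mul]
    congr 2
    rw [← zpow_natCast, ← zpow_add]
    congr 1
    push_cast
    ring

end Pool.Agent.N101.CB
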