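import Pool.Agent.N101.CB.StmE
import Pool.Agent.N101.CB.Psi
import Pool.Agent.W417.MT.K0

/-!
# Project CUB: the zeta functions are invariant under the automorphism `t ↦ t + v`, `w ↦ w - u`

By helper286.
-/

set_option autoImplicit false

namespace Pool.Agent.N101.CB

open MvPolynomial Pool.Agent.W428.MOT
open Pool.Agent.W375.MG (JetG zetaG Good)
open Pool.Agent.Y229.MS (addyz Wyz CE shn fst')

namespace PG

section
variable {K : Type} [Field K] {m : ℕ}

/-- the origins which are mapped into `W` -/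
def pull (ψ : MvPolynomial (Fin m) K ≃ₐ[K] MvPolynomial (Fin m) K) (W : Set (Pt K (Fin m))) :
    Set (Pt K (Fin m)) := {w | (fun i => aeval w (ψ (X i))) ∈ W}

/-- isomorphic polynomials have the same zeta functions -/
theorem zeta_iso [CharZero K] (ψ : MvPolynomial (Fin m) K ≃ₐ[K] MvPolynomial (Fin m) K)
    (g : MvPolynomial (Fin m) K) {W : Set (Pt K (Fin m))} (hW : Constr W)
    {E : Set (AlgebraicClosure K)} (hE : CE E) :
    zetaG (ψ g) (pull ψ W) E = zetaG g W E := by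
  obtain ⟨M₀, hM₀⟩ := Pool.Agent.W417.MT.K0.main K
  ext N
  rw [zetaG, zetaG, PowerSeries.coeff_mk, PowerSeries.coeff_mk, ← hM₀, ← hM₀, pull,
    Pool.Agent.Z864.MS.three K _ M₀ ψ g W E hW hE N]

/-- extension to two more variables -/
noncomputable def extH (ψ : MvPolynomial (Fin m) K →ₐ[K] MvPolynomial (Fin m) K) :
    MvPolynomial (Fin (m + 2)) K →ₐ[K] MvPolynomial (Fin (m + 2)) K :=
  aeval (Fin.addCases (fun i => rename (Fin.castAdd 2) (ψ (X i))) fun j => X (Fin.natAdd m j))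

theorem extH_x (ψ : MvPolynomial (Fin m) K →ₐ[K] MvPolynomial (Fin m) K) (i : Fin m) :
    extH ψ (X (Fin.castAdd 2 i)) = rename (Fin.castAdd 2) (ψ (X i)) := by
  unfold extH
  rw [aeval_X, Fin.addCases_left]

theorem extH_y (ψ : MvPolynomial (Fin m) K →ₐ[K] MvPolynomial (Fin m) K) (j : Fin 2) :
    extH ψ (X (Fin.natAdd m j)) = X (Fin.natAdd m j) := by
  unfold extH
  rw [aeval_X, Fin.addCases_right]

theorem extH_rename (ψ : MvPolynomial (Fin m) K →ₐ[K] MvPolynomial (Fin m) K)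
    (p : MvPolynomial (Fin m) K) :
    extH ψ (rename (Fin.castAdd 2) p) = rename (Fin.castAdd 2) (ψ p) := by
  have h : (extH ψ).comp (rename (Fin.castAdd 2)) =
      (rename (Fin.castAdd 2) : MvPolynomial (Fin m) K →ₐ[K] _).comp ψ := by
    apply MvPolynomial.algHom_ext
    intro i
    rw [AlgHom.comp_apply, rename_X, extH_x, AlgHom.comp_apply]
  exact DFunLike.congr_fun h p

theorem extH_inv (ψ φ : MvPolynomial (Fin m) K →ₐ[K] MvPolynomial (Fin m) K)
    (h : ∀ p, ψ (φ p) = p) : (extH ψ).comp (extH φ) = AlgHom.id K _ := by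
  apply MvPolynomial.algHom_ext
  intro i
  rw [AlgHom.comp_apply, AlgHom.id_apply]
  refine Fin.addCases (fun i => ?_) (fun j => ?_) i
  · rw [extH_x, extH_rename, h, rename_X]
  · rw [extH_y, extH_y]

/-- extension of an automorphism to two more variables -/
noncomputable def extE (ψ : MvPolynomial (Fin m) K ≃ₐ[K] MvPolynomial (Fin m) K) :
    MvPolynomial (Fin (m + 2)) K ≃ₐ[K] MvPolynomial (Fin (m + 2)) K :=
  AlgEquiv.ofAlgHom (extH (ψ : MvPolynomial (Fin m) K →ₐ[K] MvPolynomial (Fin m) K))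
    (extH (ψ.symm : MvPolynomial (Fin m) K →ₐ[K] MvPolynomial (Fin m) K))
    (extH_inv _ _ fun p => ψ.apply_symm_apply p) (extH_inv _ _ fun p => ψ.symm_apply_apply p)

theorem extE_x (ψ : MvPolynomial (Fin m) K ≃ₐ[K] MvPolynomial (Fin m) K) (i : Fin m) :
    extE ψ (X (Fin.castAdd 2 i)) = rename (Fin.castAdd 2) (ψ (X i)) := extH_x _ i

theorem extE_y (ψ : MvPolynomial (Fin m) K ≃ₐ[K] MvPolynomial (Fin m) K) (j : Fin 2) :
    extE ψ (X (Fin.natAdd m j)) = X (Fin.natAdd m j) := extH_y _ j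

theorem extE_addyz (ψ : MvPolynomial (Fin m) K ≃ₐ[K] MvPolynomial (Fin m) K)
    (h : MvPolynomial (Fin m) K) : extE ψ (addyz h) = addyz (ψ h) := by
  unfold addyz
  rw [map_add, map_mul, extE_y, extE_y]
  congr 1
  exact extH_rename _ h

theorem aeval_extE (ψ : MvPolynomial (Fin m) K ≃ₐ[K] MvPolynomial (Fin m) K)
    (w : Pt K (Fin (m + 2))) (i : Fin m) :
    aeval w (extE ψ (X (Fin.castAdd 2 i))) = aeval (fun i => w (Fin.castAdd 2 i)) (ψ (X i)) := by
  rw [extE_x, aeval_ren]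

theorem pull_Wyz (ψ : MvPolynomial (Fin m) K ≃ₐ[K] MvPolynomial (Fin m) K)
    (W : Set (Pt K (Fin m))) : pull (extE ψ) (Wyz W) = Wyz (pull ψ W) := by
  ext w
  show (fun i => aeval w (extE ψ (X (Fin.castAdd 2 i)))) ∈ W ↔
    (fun i => aeval (fun i => w (Fin.castAdd 2 i)) (ψ (X i))) ∈ W
  simp only [aeval_extE]

theorem pull_Wo (ψ : MvPolynomial (Fin m) K ≃ₐ[K] MvPolynomial (Fin m) K)
    (W : Set (Pt K (Fin m))) : pull (extE ψ) (Wo W) = Wo (pull ψ W) := by
  ext w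
  show ((fun i => aeval w (extE ψ (X (Fin.castAdd 2 i)))) ∈ W ∧
      aeval w (extE ψ (X (Fin.natAdd m 0))) = 0 ∧ aeval w (extE ψ (X (Fin.natAdd m 1))) = 0) ↔
    ((fun i => aeval (fun i => w (Fin.castAdd 2 i)) (ψ (X i))) ∈ W ∧
      w (Fin.natAdd m 0) = 0 ∧ w (Fin.natAdd m 1) = 0)
  simp only [aeval_extE, extE_y, aeval_X]

variable {n : ℕ}

theorem pull_psi_Wyz (u v : MvPolynomial (Fin n) K) (W : Set (Pt K (Fin n))) :
    pull (psiE u v) (Wyz W) = Wyz W := by
  ext w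
  have e1 : ∀ i : Fin n, aeval w (psiE u v (X (Fin.castAdd 2 i))) = w (Fin.castAdd 2 i) := by
    intro i
    rw [psiE_apply, psiH_x, aeval_X]
  show (fun i => aeval w (psiE u v (X (Fin.castAdd 2 i)))) ∈ W ↔
    (fun i => w (Fin.castAdd 2 i)) ∈ W
  simp only [e1]

theorem pull_psi_Wo (u v : MvPolynomial (Fin n) K) (W : Set (Pt K (Fin n))) :
    pull (psiE u v) (Wo W) = Ws u v W := by
  ext w
  have e1 : ∀ i : Fin n, aeval w (psiE u v (X (Fin.castAdd 2 i))) = w (Fin.castAdd 2 i) := by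
    intro i
    rw [psiE_apply, psiH_x, aeval_X]
  show ((fun i => aeval w (psiE u v (X (Fin.castAdd 2 i)))) ∈ W ∧
    aeval w (psiE u v (X (Fin.natAdd n 0))) = 0 ∧
    aeval w (psiE u v (X (Fin.natAdd n 1))) = 0) ↔
    ((fun i => w (Fin.castAdd 2 i)) ∈ W ∧
      w (Fin.natAdd n 0) = - aeval (fun i => w (Fin.castAdd 2 i)) v ∧
      w (Fin.natAdd n 1) = aeval (fun i => w (Fin.castAdd 2 i)) u)
  simp only [e1]
  rw [psiE_apply, psiE_apply, psiH_t, psiH_w, map_add, map_sub, aeval_X, aeval_X, aeval_ren,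
    aeval_ren, sub_eq_zero, add_eq_zero_iff_eq_neg]

end

end PG

open PG in
theorem psig : TaskPSIG := by
  intro K _ _ n f u v W hW E hE
  refine ⟨?_, ?_, ?_, ?_⟩
  · have h := zeta_iso (psiE u v) (addyz f) (constrP_Wyz hW) hE
    rwa [psiE_addyz, pull_psi_Wyz] at h
  · have h := zeta_iso (extE (psiE u v)) (addyz (addyz f)) (constrP_Wyz (constrP_Wyz hW)) hE
    rwa [extE_addyz, psiE_addyz, pull_Wyz, pull_psi_Wyz] at h
  · have h := zeta_iso (psiE u v) (addyz f) (constrP_Wo hW) hE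
    rwa [psiE_addyz, pull_psi_Wo] at h
  · have h := zeta_iso (extE (psiE u v)) (addyz (addyz f)) (constrP_Wo (constrP_Wo hW)) hE
    rwa [extE_addyz, psiE_addyz, pull_Wo, pull_psi_Wo] at h

end Pool.Agent.N101.CB
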