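import Pool.Agent.N101.CB.Stm

/-!
# Project CUB: the reduction principle to squarefree cubic polynomials
-/

set_option autoImplicit false

namespace Pool.Agent.N101.CB

open MvPolynomial
open Pool.Agent.Y229.MS (addyz)

namespace RED

/-- the weight of an exponent -/
def wt {n : ℕ} (m : Fin n →₀ ℕ) : ℕ := ((∑ i, m i) - 2) + ∑ i, (m i - 1)

/-- the degree in the variables of `T` -/
def S {n : ℕ} (T : Finset (Fin n)) (m : Fin n →₀ ℕ) : ℕ := ∑ i, if i ∈ T then m i else 0

/-- the degree in the other variables -/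
def S' {n : ℕ} (T : Finset (Fin n)) (m : Fin n →₀ ℕ) : ℕ := ∑ i, if i ∈ T then 0 else m i

/-- the condition on the exponents -/
def Ok {n : ℕ} (T : Finset (Fin n)) (m : Fin n →₀ ℕ) : Prop :=
  S T m ≤ 1 ∧ (S T m = 1 → (∀ i, m i ≤ 1) ∧ S' T m ≤ 2)

/-- an exponent in the old variables -/
noncomputable def E {n : ℕ} (m : Fin n →₀ ℕ) : Fin (n + 2) →₀ ℕ := m.mapDomain (Fin.castAdd 2)

/-- the new class of variables -/
def ex {n : ℕ} (T : Finset (Fin n)) : Finset (Fin (n + 2)) :=
  T.map (Fin.castAddEmb 2) ∪ {Fin.natAdd n 0}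

/-- an exponent in the new variables -/
noncomputable def G {n : ℕ} (m : Fin n →₀ ℕ) (p q : ℕ) : Fin (n + 2) →₀ ℕ :=
  E m + Finsupp.single (Fin.natAdd n 0) p + Finsupp.single (Fin.natAdd n 1) q

theorem ne01 (n : ℕ) : (Fin.natAdd n (0 : Fin 2)) ≠ Fin.natAdd n (1 : Fin 2) := by
  intro h
  have := congrArg Fin.val h
  simp at this

theorem neC {n : ℕ} (i : Fin n) (j : Fin 2) : Fin.natAdd n j ≠ Fin.castAdd 2 i := by
  intro h
  have := congrArg Fin.val h
  simp at this
  have := i.isLt
  omega

theorem mem_c {n : ℕ} (T : Finset (Fin n)) (i : Fin n) : Fin.castAdd 2 i ∈ ex T ↔ i ∈ T := by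
  unfold ex
  rw [Finset.mem_union, Finset.mem_singleton, Finset.mem_map]
  constructor
  · rintro (⟨j, hj, h⟩ | h)
    · have : j = i := Fin.castAdd_injective n 2 h
      rwa [← this]
    · exact absurd h.symm (neC i 0)
  · intro h
    exact Or.inl ⟨i, h, rfl⟩

theorem mem_0 {n : ℕ} (T : Finset (Fin n)) : Fin.natAdd n (0 : Fin 2) ∈ ex T := by
  unfold ex
  rw [Finset.mem_union, Finset.mem_singleton]
  exact Or.inr rfl

theorem mem_1 {n : ℕ} (T : Finset (Fin n)) : Fin.natAdd n (1 : Fin 2) ∉ ex T := by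
  unfold ex
  rw [Finset.mem_union, Finset.mem_singleton, Finset.mem_map]
  rintro (⟨j, hj, h⟩ | h)
  · exact absurd h.symm (neC j 1)
  · exact absurd h.symm (ne01 n)

theorem E_c {n : ℕ} (m : Fin n →₀ ℕ) (i : Fin n) : E m (Fin.castAdd 2 i) = m i :=
  Finsupp.mapDomain_apply (Fin.castAdd_injective n 2) _ _

theorem E_n {n : ℕ} (m : Fin n →₀ ℕ) (j : Fin 2) : E m (Fin.natAdd n j) = 0 := by
  refine Finsupp.mapDomain_of_notMem_range _ _ ?_
  rintro ⟨i, hi⟩
  exact neC i j hi.symm

theorem G_c {n : ℕ} (m : Fin n →₀ ℕ) (p q : ℕ) (i : Fin n) : G m p q (Fin.castAdd 2 i) = m i := by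
  unfold G
  rw [Finsupp.add_apply, Finsupp.add_apply, E_c, Finsupp.single_apply, Finsupp.single_apply,
    if_neg (neC i 0), if_neg (neC i 1)]
  rfl

theorem G_0 {n : ℕ} (m : Fin n →₀ ℕ) (p q : ℕ) : G m p q (Fin.natAdd n (0 : Fin 2)) = p := by
  unfold G
  rw [Finsupp.add_apply, Finsupp.add_apply, E_n, Finsupp.single_apply, Finsupp.single_apply,
    if_pos rfl, if_neg (ne01 n).symm]
  omega

theorem G_1 {n : ℕ} (m : Fin n →₀ ℕ) (p q : ℕ) : G m p q (Fin.natAdd n (1 : Fin 2)) = q := by
  unfold G
  rw [Finsupp.add_apply, Finsupp.add_apply, E_n, Finsupp.single_apply, Finsupp.single_apply,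
    if_neg (ne01 n), if_pos rfl]
  omega

theorem sum2 {n : ℕ} (f : Fin (n + 2) → ℕ) :
    ∑ i, f i = (∑ i : Fin n, f (Fin.castAdd 2 i)) + f (Fin.natAdd n 0) + f (Fin.natAdd n 1) := by
  rw [Fin.sum_univ_add, Fin.sum_univ_two, add_assoc]

theorem S_G {n : ℕ} (T : Finset (Fin n)) (m : Fin n →₀ ℕ) (p q : ℕ) :
    S (ex T) (G m p q) = S T m + p := by
  unfold S
  rw [sum2]
  simp only [G_c, G_0, G_1, mem_c, mem_0, mem_1, if_true, if_false]
  omega

theorem S'_G {n : ℕ} (T : Finset (Fin n)) (m : Fin n →₀ ℕ) (p q : ℕ) :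
    S' (ex T) (G m p q) = S' T m + q := by
  unfold S'
  rw [sum2]
  simp only [G_c, G_0, G_1, mem_c, mem_0, mem_1, if_true, if_false]
  omega

theorem wt_G {n : ℕ} (m : Fin n →₀ ℕ) (p q : ℕ) :
    wt (G m p q) = ((∑ i, m i) + p + q - 2) + (∑ i, (m i - 1) + (p - 1) + (q - 1)) := by
  unfold wt
  rw [sum2, sum2]
  simp only [G_c, G_0, G_1]

theorem le_G {n : ℕ} (m : Fin n →₀ ℕ) (p q : ℕ) (hm : ∀ i, m i ≤ 1) (hp : p ≤ 1) (hq : q ≤ 1) :
    ∀ i, G m p q i ≤ 1 := by
  intro i
  refine Fin.addCases (fun j => ?_) (fun j => ?_) i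
  · rw [G_c]; exact hm j
  · fin_cases j
    · exact (G_0 m p q).le.trans hp
    · exact (G_1 m p q).le.trans hq

theorem E_eq {n : ℕ} (m : Fin n →₀ ℕ) : E m = G m 0 0 := by
  unfold G
  rw [Finsupp.single_zero, Finsupp.single_zero, add_zero, add_zero]

theorem E_inj {n : ℕ} : Function.Injective (E : (Fin n →₀ ℕ) → (Fin (n + 2) →₀ ℕ)) :=
  Finsupp.mapDomain_injective (Fin.castAdd_injective n 2)

theorem wt_E {n : ℕ} (m : Fin n →₀ ℕ) : wt (E m) = wt m := by
  rw [E_eq, wt_G]; rfl

theorem S_E {n : ℕ} (T : Finset (Fin n)) (m : Fin n →₀ ℕ) : S (ex T) (E m) = S T m := by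
  rw [E_eq, S_G, add_zero]

theorem Ok_E {n : ℕ} {T : Finset (Fin n)} {m : Fin n →₀ ℕ} (h : Ok T m) : Ok (ex T) (E m) := by
  refine ⟨by rw [S_E]; exact h.1, fun hs => ?_⟩
  rw [S_E] at hs
  obtain ⟨h1, h2⟩ := h.2 hs
  rw [E_eq]
  exact ⟨le_G m 0 0 h1 (by omega) (by omega), by rw [S'_G]; exact h2⟩

/-- the total weight -/
def W {n : ℕ} (T : Finset (Fin n)) (A : Finset (Fin n →₀ ℕ)) : ℕ :=
  ∑ m ∈ A.filter (fun m => S T m = 0), wt m

theorem W_mono {n : ℕ} (T : Finset (Fin n)) {A B : Finset (Fin n →₀ ℕ)} (h : A ⊆ B) :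
    W T A ≤ W T B :=
  Finset.sum_le_sum_of_subset (Finset.filter_subset_filter _ h)

theorem W_union {n : ℕ} (T : Finset (Fin n)) (A B : Finset (Fin n →₀ ℕ)) :
    W T (A ∪ B) ≤ W T A + W T B := by
  classical
  unfold W
  rw [Finset.filter_union]
  have := Finset.sum_union_inter (s₁ := A.filter (fun m => S T m = 0))
    (s₂ := B.filter (fun m => S T m = 0)) (f := fun m => wt m)
  omega

theorem W_image {n : ℕ} (T : Finset (Fin n)) (A : Finset (Fin n →₀ ℕ)) :
    W (ex T) (A.image E) = W T A := by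
  classical
  unfold W
  rw [Finset.filter_image, Finset.sum_image (fun a _ b _ h => E_inj h)]
  simp only [S_E, wt_E]

theorem W_single_pos {n : ℕ} (T : Finset (Fin n)) (m : Fin n →₀ ℕ) : W T {m} ≤ wt m := by
  classical
  unfold W
  rw [Finset.filter_singleton]
  split_ifs
  · simp
  · simp

theorem W_single_zero {n : ℕ} (T : Finset (Fin n)) (m : Fin n →₀ ℕ) (h : S T m ≠ 0) :
    W T {m} = 0 := by
  classical
  unfold W
  rw [Finset.filter_singleton, if_neg h]
  simp

theorem W_erase {n : ℕ} (T : Finset (Fin n)) (A : Finset (Fin n →₀ ℕ)) (m : Fin n →₀ ℕ)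
    (hm : m ∈ A) (h : S T m = 0) : W T (A.erase m) + wt m = W T A := by
  classical
  unfold W
  rw [Finset.filter_erase]
  exact Finset.sum_erase_add _ _ (Finset.mem_filter.2 ⟨hm, h⟩)

section
variable {K : Type} [Field K] {n : ℕ}

theorem supp_addyz (g : MvPolynomial (Fin n) K) :
    (addyz g).support ⊆ g.support.image E ∪ {G 0 1 1} := by
  classical
  unfold addyz
  refine (support_add).trans (Finset.union_subset_union ?_ ?_)
  · rw [support_rename_of_injective (Fin.castAdd_injective n 2)]
    exact subset_rfl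
  · have : (X (Fin.natAdd n 0) * X (Fin.natAdd n 1) : MvPolynomial (Fin (n + 2)) K) =
        monomial (G 0 1 1) 1 := by
      unfold G E
      rw [Finsupp.mapDomain_zero, zero_add, X, X, monomial_mul, one_mul]
    rw [this]
    exact support_monomial_subset

theorem supp_stp (f : MvPolynomial (Fin n) K) (m a : Fin n →₀ ℕ) (ham : a ≤ m) :
    (stp f (monomial a 1) (monomial (m - a) (coeff m f))).support ⊆
      (f.support.erase m).image E ∪ ({G 0 1 1} ∪ ({G a 1 0} ∪ {G (m - a) 0 1})) := by
  classical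
  have key : stp f (monomial a 1) (monomial (m - a) (coeff m f)) =
      rename (Fin.castAdd 2) (f - monomial m (coeff m f)) +
        (monomial (G 0 1 1) 1 + (monomial (G a 1 0) (-1) +
          monomial (G (m - a) 0 1) (coeff m f))) := by
    have h1 : (monomial (G (0 : Fin n →₀ ℕ) 1 1) 1 : MvPolynomial (Fin (n + 2)) K) =
        X (Fin.natAdd n 0) * X (Fin.natAdd n 1) := by
      unfold G E
      rw [Finsupp.mapDomain_zero, zero_add, X, X, monomial_mul, one_mul]
    have h2 : (monomial (G a 1 0) (-1) : MvPolynomial (Fin (n + 2)) K) =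
        - (X (Fin.natAdd n 0) * rename (Fin.castAdd 2) (monomial a 1)) := by
      unfold G E
      rw [Finsupp.single_zero, add_zero, rename_monomial, X, monomial_mul, one_mul,
        add_comm (Finsupp.single (Fin.natAdd n 0) 1), map_neg]
    have h3 : (monomial (G (m - a) 0 1) (coeff m f) : MvPolynomial (Fin (n + 2)) K) =
        rename (Fin.castAdd 2) (monomial (m - a) (coeff m f)) * X (Fin.natAdd n 1) := by
      unfold G E
      rw [Finsupp.single_zero, add_zero, rename_monomial, X, monomial_mul, mul_one]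
    have h4 : rename (Fin.castAdd 2) (monomial m (coeff m f)) =
        rename (Fin.castAdd 2) (monomial (m - a) (coeff m f)) *
          rename (Fin.castAdd 2) (monomial a (1 : K)) := by
      rw [← map_mul, monomial_mul, mul_one, tsub_add_cancel_of_le ham]
    unfold stp
    rw [h1, h2, h3, map_sub, h4]
    ring
  rw [key]
  refine (support_add).trans (Finset.union_subset_union ?_ ((support_add).trans
    (Finset.union_subset_union support_monomial_subset ((support_add).trans
      (Finset.union_subset_union support_monomial_subset support_monomial_subset)))))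
  rw [support_rename_of_injective (Fin.castAdd_injective n 2)]
  refine Finset.image_subset_image ?_
  intro d hd
  rw [Finset.mem_erase]
  rw [mem_support_iff, coeff_sub, coeff_monomial] at hd
  by_cases h : m = d
  · subst h
    rw [if_pos rfl, sub_self] at hd
    exact absurd rfl hd
  · rw [if_neg h, sub_zero] at hd
    exact ⟨fun h' => h h'.symm, mem_support_iff.2 hd⟩

theorem S_zero (T : Finset (Fin n)) : S T 0 = 0 := by
  unfold S; simp

theorem S'_zero (T : Finset (Fin n)) : S' T 0 = 0 := by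
  unfold S'; simp

theorem S_le (T : Finset (Fin n)) {a m : Fin n →₀ ℕ} (h : a ≤ m) : S T a ≤ S T m := by
  unfold S
  refine Finset.sum_le_sum fun i _ => ?_
  split_ifs
  · exact h i
  · exact le_rfl

theorem S'_le (T : Finset (Fin n)) (m : Fin n →₀ ℕ) : S' T m ≤ ∑ i, m i := by
  unfold S'
  refine Finset.sum_le_sum fun i _ => ?_
  split_ifs
  · exact Nat.zero_le _
  · exact le_rfl

theorem Ok_11 (T : Finset (Fin n)) : Ok (ex T) (G 0 1 1) := by
  refine ⟨by rw [S_G, S_zero], fun _ => ⟨le_G 0 1 1 (fun i => Nat.zero_le _) le_rfl le_rfl, ?_⟩⟩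
  rw [S'_G, S'_zero]
  omega

theorem Ok_10 (T : Finset (Fin n)) {a : Fin n →₀ ℕ} (ha : ∀ i, a i ≤ 1) (ha2 : ∑ i, a i ≤ 2)
    (hS : S T a = 0) : Ok (ex T) (G a 1 0) := by
  refine ⟨by rw [S_G, hS], fun _ => ⟨le_G a 1 0 ha le_rfl (Nat.zero_le _), ?_⟩⟩
  rw [S'_G]
  exact (S'_le T a).trans ha2

theorem Ok_01 (T : Finset (Fin n)) {b : Fin n →₀ ℕ} (hS : S T b = 0) : Ok (ex T) (G b 0 1) := by
  refine ⟨by rw [S_G, hS]; omega, fun h => ?_⟩
  rw [S_G, hS] at h
  omega

/-- the choice of the divisor -/
theorem choice (m : Fin n →₀ ℕ) (h : wt m ≠ 0) : ∃ a : Fin n →₀ ℕ, a ≤ m ∧ a ≠ 0 ∧ m - a ≠ 0 ∧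
    (∀ i, a i ≤ 1) ∧ ∑ i, a i ≤ 2 ∧ wt (G (m - a) 0 1) < wt m := by
  classical
  by_cases h1 : ∃ i, 2 ≤ m i
  · obtain ⟨i, hi⟩ := h1
    have hle : Finsupp.single i 1 ≤ m := by
      rw [Finsupp.single_le_iff]; omega
    have hsum : ∑ j, (Finsupp.single i 1 : Fin n →₀ ℕ) j = 1 := by
      simp [Finsupp.single_apply]
    have e1 : ∑ j, (m - Finsupp.single i 1 : Fin n →₀ ℕ) j +
        ∑ j, (Finsupp.single i 1 : Fin n →₀ ℕ) j = ∑ j, m j := by
      rw [← Finset.sum_add_distrib]
      refine Finset.sum_congr rfl fun j _ => ?_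
      have := hle j
      rw [Finsupp.tsub_apply]; omega
    rw [hsum] at e1
    have e2 : ∑ j, ((m - Finsupp.single i 1 : Fin n →₀ ℕ) j - 1) < ∑ j, (m j - 1) := by
      refine Finset.sum_lt_sum (fun j _ => ?_) ⟨i, Finset.mem_univ _, ?_⟩
      · rw [Finsupp.tsub_apply]; omega
      · rw [Finsupp.tsub_apply, Finsupp.single_eq_same]; omega
    refine ⟨Finsupp.single i 1, hle, ?_, ?_, ?_, ?_, ?_⟩
    · intro h2
      have := DFunLike.congr_fun h2 i
      rw [Finsupp.single_eq_same] at this
      simp at this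
    · intro h2
      have := DFunLike.congr_fun h2 i
      rw [Finsupp.tsub_apply, Finsupp.single_eq_same] at this
      simp at this
      omega
    · intro j
      rw [Finsupp.single_apply]
      split_ifs <;> omega
    · omega
    · rw [wt_G]
      unfold wt
      omega
  · push Not at h1
    have h1' : ∀ i, m i ≤ 1 := fun i => by have := h1 i; omega
    have h2 : ∑ i, (m i - 1) = 0 := by
      refine Finset.sum_eq_zero fun i _ => ?_
      have := h1' i
      omega
    have h3 : 3 ≤ ∑ i, m i := by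
      unfold wt at h
      omega
    obtain ⟨i, hi⟩ : ∃ i, m i = 1 := by
      by_contra hne
      push Not at hne
      have : ∑ i, m i = 0 := Finset.sum_eq_zero fun i _ => by
        have := h1' i; have := hne i; omega
      omega
    obtain ⟨j, hji, hj⟩ : ∃ j, j ≠ i ∧ m j = 1 := by
      by_contra hne
      push Not at hne
      have : ∑ k, m k = m i := Finset.sum_eq_single i (fun k _ hk => by
        have := h1' k; have := hne k hk; omega) (fun h => absurd (Finset.mem_univ _) h)
      omega
    have hav : ∀ k, (Finsupp.single i 1 + Finsupp.single j 1 : Fin n →₀ ℕ) k ≤ m k := by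
      intro k
      rw [Finsupp.add_apply, Finsupp.single_apply, Finsupp.single_apply]
      by_cases hk : i = k
      · subst hk
        rw [if_pos rfl, if_neg hji, hi]
        omega
      · rw [if_neg hk]
        split_ifs with hk2
        · subst hk2; omega
        · omega
    have hsum : ∑ k, (Finsupp.single i 1 + Finsupp.single j 1 : Fin n →₀ ℕ) k = 2 := by
      simp only [Finsupp.add_apply]
      rw [Finset.sum_add_distrib]
      simp [Finsupp.single_apply]
    have e1 : ∑ k, (m - (Finsupp.single i 1 + Finsupp.single j 1) : Fin n →₀ ℕ) k +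
        ∑ k, (Finsupp.single i 1 + Finsupp.single j 1 : Fin n →₀ ℕ) k = ∑ k, m k := by
      rw [← Finset.sum_add_distrib]
      refine Finset.sum_congr rfl fun k _ => ?_
      have := hav k
      rw [Finsupp.tsub_apply]; omega
    rw [hsum] at e1
    have e2 : ∑ k, ((m - (Finsupp.single i 1 + Finsupp.single j 1) : Fin n →₀ ℕ) k - 1) = 0 := by
      refine Finset.sum_eq_zero fun k _ => ?_
      have := h1' k
      rw [Finsupp.tsub_apply]
      omega
    refine ⟨Finsupp.single i 1 + Finsupp.single j 1, hav, ?_, ?_, ?_, hsum.le, ?_⟩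
    · intro h4
      rw [h4] at hsum
      simp at hsum
    · intro h4
      rw [h4] at e1
      simp at e1
      omega
    · intro k
      exact (hav k).trans (h1' k)
    · rw [wt_G]
      unfold wt
      omega

end

theorem main (K : Type) [Field K] (P : ∀ n : ℕ, MvPolynomial (Fin n) K → Prop)
    (hC : ∀ (n : ℕ) (f : MvPolynomial (Fin n) K), Cub f → P n f)
    (hS : ∀ (n : ℕ) (f u v : MvPolynomial (Fin n) K), constantCoeff u = 0 → constantCoeff v = 0 →
      P (n + 2) (stp f u v) → P (n + 2 + 2) (addyz (stp f u v)) → P n f) :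
    ∀ (N n : ℕ) (f : MvPolynomial (Fin n) K) (T : Finset (Fin n)),
      (∀ m ∈ f.support, Ok T m) → W T f.support ≤ N → P n f := by
  classical
  intro N
  induction N using Nat.strong_induction_on with
  | _ N ih =>
    intro n f T hT hW
    by_cases h0 : ∃ m ∈ f.support, S T m = 0 ∧ wt m ≠ 0
    · obtain ⟨m, hm, hSm, hwm⟩ := h0
      obtain ⟨a, ham, ha0, hma, ha1, ha2, hwt⟩ := choice m hwm
      have hSa : S T a = 0 := by
        have := S_le T ham
        omega
      have hSb : S T (m - a) = 0 := by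
        have := S_le T (show m - a ≤ m from tsub_le_self)
        omega
      have hsub := supp_stp f m a ham
      have hok : ∀ d ∈ (stp f (monomial a 1) (monomial (m - a) (coeff m f))).support,
          Ok (ex T) d := by
        intro d hd
        have hd' := hsub hd
        rw [Finset.mem_union, Finset.mem_union, Finset.mem_union, Finset.mem_singleton,
          Finset.mem_singleton, Finset.mem_singleton] at hd'
        rcases hd' with h | h | h | h
        · obtain ⟨d', hd', rfl⟩ := Finset.mem_image.1 h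
          exact Ok_E (hT d' (Finset.mem_of_mem_erase hd'))
        · rw [h]; exact Ok_11 T
        · rw [h]; exact Ok_10 T ha1 ha2 hSa
        · rw [h]; exact Ok_01 T hSb
      have hW1 : W (ex T) (stp f (monomial a 1) (monomial (m - a) (coeff m f))).support < N := by
        have h1 := W_mono (ex T) hsub
        have h2 := W_union (ex T) ((f.support.erase m).image E)
          ({G 0 1 1} ∪ ({G a 1 0} ∪ {G (m - a) 0 1}))
        have h3 := W_union (ex T) ({G 0 1 1}) ({G a 1 0} ∪ {G (m - a) 0 1})
        have h4 := W_union (ex T) ({G a 1 0}) ({G (m - a) 0 1})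
        have h5 := W_single_zero (ex T) (G (0 : Fin n →₀ ℕ) 1 1) (by rw [S_G]; omega)
        have h6 := W_single_zero (ex T) (G a 1 0) (by rw [S_G]; omega)
        have h7 := W_single_pos (ex T) (G (m - a) 0 1)
        rw [W_image] at h2
        have h8 := W_erase T f.support m hm hSm
        omega
      refine hS n f (monomial a 1) (monomial (m - a) (coeff m f)) ?_ ?_ ?_ ?_
      · rw [constantCoeff_monomial, if_neg ha0]
      · rw [constantCoeff_monomial, if_neg hma]
      · exact ih _ hW1 _ _ (ex T) hok le_rfl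
      · have hsub2 := supp_addyz (stp f (monomial a 1) (monomial (m - a) (coeff m f)))
        refine ih _ hW1 _ _ (ex (ex T)) ?_ ?_
        · intro d hd
          have hd' := hsub2 hd
          rw [Finset.mem_union, Finset.mem_singleton] at hd'
          rcases hd' with h | h
          · obtain ⟨d', hd', rfl⟩ := Finset.mem_image.1 h
            exact Ok_E (hok d' hd')
          · rw [h]; exact Ok_11 (ex T)
        · have h1 := W_mono (ex (ex T)) hsub2
          have h2 := W_union (ex (ex T))
            ((stp f (monomial a 1) (monomial (m - a) (coeff m f))).support.image E) ({G 0 1 1})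
          have h5 := W_single_zero (ex (ex T)) (G (0 : Fin (n + 2) →₀ ℕ) 1 1)
            (by rw [S_G]; omega)
          rw [W_image] at h2
          omega
    · refine hC n f ⟨T, fun m hm => ?_⟩
      have hok := hT m hm
      have e1 : ∑ i ∈ T, m i = S T m := by
        unfold S; rw [Finset.sum_ite_mem, Finset.univ_inter]
      have e2 : ∑ i ∈ Tᶜ, m i = S' T m := by
        unfold S'
        have : ∀ i, (if i ∈ T then 0 else m i) = if i ∈ Tᶜ then m i else 0 := by
          intro i
          by_cases hi : i ∈ T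
          · simp [hi]
          · simp [hi]
        simp only [this]
        rw [Finset.sum_ite_mem, Finset.univ_inter]
      rw [e1, e2]
      rcases Nat.eq_zero_or_pos (S T m) with hs | hs
      · have hw : wt m = 0 := by
          by_contra hne
          exact h0 ⟨m, hm, hs, hne⟩
        unfold wt at hw
        have h1 : ∑ i, (m i - 1) = 0 := by omega
        have h2 : ∑ i, m i ≤ 2 := by omega
        refine ⟨fun i => ?_, by omega, (S'_le T m).trans h2⟩
        have := (Finset.sum_eq_zero_iff.1 h1) i (Finset.mem_univ _)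
        omega
      · have hs1 : S T m = 1 := by have := hok.1; omega
        obtain ⟨h1, h2⟩ := hok.2 hs1
        exact ⟨h1, hok.1, h2⟩

end RED

/-- the reduction principle -/
theorem red : TaskRED := by
  intro K _ P hC hS n f
  refine RED.main K P hC hS _ n f ∅ (fun m _ => ?_) le_rfl
  have : RED.S (∅ : Finset (Fin n)) m = 0 := by unfold RED.S; simp
  exact ⟨by omega, fun h => by omega⟩

end Pool.Agent.N101.CB
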