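import Pool.Agent.N101.CB.StepL
import Pool.Agent.N101.CB.PsiG
import Pool.Agent.N101.CB.Red
import Pool.Agent.N101.CB.BG
import Pool.Agent.N101.CB.BL
import Pool.Agent.N101.CB.Chain
import Pool.Agent.Y366.MS.OneA
import Pool.Agent.Y971.MS.One
import Pool.Agent.Y812.MS.Two

/-!
# Project CUB: motivic zeta functions with arbitrary leading coefficients
-/

set_option autoImplicit false

namespace Pool.Agent.N101.CB

open MvPolynomial Pool.Agent.W428.MOT
open Pool.Agent.W375.MG (JetG zetaG Good ratRing_mono)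
open Pool.Agent.Y229.MS (addyz Wyz CE shn fst' zeta_of_fst)
open Pool.Agent.H628R4.TP (IsBFunction IsLocalBFunction)

namespace EM

section
variable {K : Type} [Field K] {n : ℕ}

theorem stp_zero (f : MvPolynomial (Fin n) K) : stp f 0 0 = addyz f := by
  unfold stp addyz
  simp

theorem map_stp {k : Type} [Field k] (g : k →+* K) (f u v : MvPolynomial (Fin n) k) :
    map g (stp f u v) = stp (map g f) (map g u) (map g v) := by
  unfold stp
  simp only [map_add, map_mul, map_sub, map_X, map_rename]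

theorem map_addyz {k : Type} [Field k] (g : k →+* K) (f : MvPolynomial (Fin n) k) :
    map g (addyz f) = addyz (map g f) := by
  unfold addyz
  simp only [map_add, map_mul, map_X, map_rename]

theorem map_deg {k : Type} [Field k] (g : k →+* K) (f : MvPolynomial (Fin n) k)
    (h : f.totalDegree ≠ 0) : (map g f).totalDegree ≠ 0 := by
  rw [totalDegree, support_map_of_injective _ g.injective]
  exact h

theorem addyz_deg (f : MvPolynomial (Fin n) K) : (addyz f).totalDegree ≠ 0 := by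
  rw [← stp_zero]
  exact stp_deg f 0 0

theorem wyz_univ' : Wyz (Set.univ : Set (Pt K (Fin n))) = Set.univ := by
  ext w
  simp [Wyz]

/-- one step, global -/
theorem stepG [CharZero K] (f u v : MvPolynomial (Fin n) K) {E : Set (AlgebraicClosure K)}
    (hE : CE E) {S1 S2 : Set (ℤ × ℤ)} (hS1 : ∀ p ∈ S1, 0 < p.2) (hS2 : ∀ p ∈ S2, 0 < p.2)
    (h1 : fst' K * zetaG (stp f u v) Set.univ E ∈ ratRing K S1)
    (h2 : fst' K * zetaG (addyz (stp f u v)) Set.univ E ∈ ratRing K S2) :
    fst' K * zetaG f Set.univ E ∈ ratRing K (shn 1 S1 ∪ shn 1 (shn 1 S2)) := by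
  obtain ⟨e1, e2, -, -⟩ := psig K f u v Set.univ Constr.univ E hE
  refine Pool.Agent.Y229.MS.step (Pool.Agent.Y971.MS.one Pool.Agent.Y366.MS.onea)
    Pool.Agent.Y812.MS.two f Constr.univ hE hS1 hS2 ?_ ?_
  · rw [← e1, wyz_univ']
    exact h1
  · rw [← e2, wyz_univ', wyz_univ']
    exact h2

/-- a point of `K ^ n` over the algebraic closure -/
noncomputable def bar (x : Fin n → K) : Pt K (Fin n) := fun i => algebraMap K (AlgebraicClosure K) (x i)

/-- the point above `x` -/
noncomputable def up1 (u v : MvPolynomial (Fin n) K) (x : Fin n → K) : Fin (n + 2) → K :=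
  Fin.append x ![- aeval x v, aeval x u]

/-- the point above `x` -/
def up0 (x : Fin n → K) : Fin (n + 2) → K := Fin.append x ![0, 0]

theorem aeval_bar (x : Fin n → K) (p : MvPolynomial (Fin n) K) :
    aeval (bar x) p = algebraMap K (AlgebraicClosure K) (aeval x p) := by
  unfold bar
  rw [← aeval_algebraMap_apply]
  rfl

theorem Ws_bar (u v : MvPolynomial (Fin n) K) (x : Fin n → K) :
    Ws u v {bar x} = {bar (up1 u v x)} := by
  ext w
  simp only [Ws, Set.mem_ofPred_eq, Set.mem_singleton_iff]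
  constructor
  · rintro ⟨h1, h2, h3⟩
    funext i
    refine Fin.addCases (fun i => ?_) (fun i => ?_) i
    · have := congrFun h1 i
      rw [this]
      unfold bar up1
      rw [Fin.append_left]
    · rw [h1, aeval_bar] at h2 h3
      fin_cases i
      · change w (Fin.natAdd n 0) = bar (up1 u v x) (Fin.natAdd n 0)
        rw [h2]
        unfold bar up1
        rw [Fin.append_right]
        simp
      · change w (Fin.natAdd n 1) = bar (up1 u v x) (Fin.natAdd n 1)
        rw [h3]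
        unfold bar up1
        rw [Fin.append_right]
        simp
  · rintro rfl
    have h1 : (fun i => bar (up1 u v x) (Fin.castAdd 2 i)) = bar x := by
      funext i
      unfold bar up1
      rw [Fin.append_left]
    refine ⟨h1, ?_, ?_⟩
    · rw [h1, aeval_bar]
      unfold bar up1
      rw [Fin.append_right]
      simp
    · rw [h1, aeval_bar]
      unfold bar up1
      rw [Fin.append_right]
      simp

theorem Wo_bar (x : Fin n → K) : Wo {bar x} = {bar (up0 x)} := by
  ext w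
  simp only [Wo, Set.mem_ofPred_eq, Set.mem_singleton_iff]
  constructor
  · rintro ⟨h1, h2, h3⟩
    funext i
    refine Fin.addCases (fun i => ?_) (fun i => ?_) i
    · have := congrFun h1 i
      rw [this]
      unfold bar up0
      rw [Fin.append_left]
    · fin_cases i
      · change w (Fin.natAdd n 0) = bar (up0 x) (Fin.natAdd n 0)
        rw [h2]
        unfold bar up0
        rw [Fin.append_right]
        simp
      · change w (Fin.natAdd n 1) = bar (up0 x) (Fin.natAdd n 1)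
        rw [h3]
        unfold bar up0
        rw [Fin.append_right]
        simp
  · rintro rfl
    refine ⟨?_, ?_, ?_⟩
    · funext i
      unfold bar up0
      rw [Fin.append_left]
    · unfold bar up0
      rw [Fin.append_right]
      simp
    · unfold bar up0
      rw [Fin.append_right]
      simp

theorem up1_zero (f u v : MvPolynomial (Fin n) K) (x : Fin n → K) (h : aeval x f = 0) :
    aeval (up1 u v x) (stp f u v) = 0 := by
  unfold up1
  rw [stp_eval, h]
  simp

theorem up0_zero (f : MvPolynomial (Fin n) K) (x : Fin n → K) (h : aeval x f = 0) :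
    aeval (up0 x) (addyz f) = 0 := by
  unfold up0
  rw [← stp_zero, stp_eval, h]
  simp

theorem constr_bar (x : Fin n → K) : Constr ({bar x} : Set (Pt K (Fin n))) := by
  have h : ({bar x} : Set (Pt K (Fin n))) = {z | ∀ i ∈ (Finset.univ : Finset (Fin n)),
      z i = algebraMap K (AlgebraicClosure K) (x i)} := by
    ext z
    simp only [Set.mem_singleton_iff, Set.mem_ofPred_eq, Finset.mem_univ, true_implies]
    exact ⟨fun h i => by rw [h]; rfl, fun h => funext h⟩
  rw [h]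
  exact Constr.ballFinset _ fun i _ => Constr.eq (IsPF.coord i) (IsPF.const _)

/-- one step, at a point -/
theorem stepP [CharZero K] (f u v : MvPolynomial (Fin n) K) (x : Fin n → K) (hx : aeval x f = 0)
    {E : Set (AlgebraicClosure K)} (hE : CE E) {S1 S2 : Set (ℤ × ℤ)}
    (hS1 : ∀ p ∈ S1, 0 < p.2) (hS2 : ∀ p ∈ S2, 0 < p.2)
    (h1 : fst' K * zetaG (stp f u v) {bar (up1 u v x)} E ∈ ratRing K S1)
    (h2 : fst' K * zetaG (addyz (stp f u v)) {bar (up0 (up1 u v x))} E ∈ ratRing K S2) :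
    fst' K * zetaG f {bar x} E ∈ ratRing K (shn 1 S1 ∪ shn 1 (shn 1 S2)) := by
  obtain ⟨-, -, e1, e2⟩ := psig K f u v {bar x} (constr_bar x) E hE
  refine stepL K f {bar x} (constr_bar x) ?_ E hE S1 S2 hS1 hS2 ?_ ?_
  · intro z hz
    rw [Set.mem_singleton_iff.1 hz, aeval_bar, hx, map_zero]
  · rw [← e1, Ws_bar]
    exact h1
  · rw [← e2, Ws_bar, Wo_bar]
    exact h2

/-- the zeta function at a point -/
theorem zeta_eq [CharZero K] (f : MvPolynomial (Fin n) K) (x : Fin n → K) (hx : aeval x f = 0) :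
    zeta f x = zetaG f {bar x} {1} := by
  obtain ⟨M, hM⟩ := Pool.Agent.W417.MT.K0.main K
  ext N
  rw [zeta, zetaG, PowerSeries.coeff_mk, PowerSeries.coeff_mk]
  rcases Nat.eq_zero_or_pos N with rfl | hN
  · rw [if_pos rfl]
    have h1 : JetG f {bar x} {1} 0 = ∅ := by
      ext z
      simp only [JetG, Set.mem_ofPred_eq, Set.mem_singleton_iff, Set.mem_empty_iff_false,
        iff_false]
      rintro ⟨h2, -, h3⟩
      rw [Pool.Agent.Z864.MS.coeff_zero_aeval, h2, aeval_bar, hx, map_zero] at h3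
      exact zero_ne_one h3
    have h2 : cls (Fin n × Fin (0 + 1)) (∅ : Set (Pt K (Fin n × Fin (0 + 1)))) = 0 := by
      have h3 := M.add (∅ : Set (Pt K (Fin n × Fin (0 + 1)))) ∅ Constr.empty Constr.empty
        (Set.disjoint_empty _)
      rw [Set.union_empty, hM] at h3
      exact left_eq_add.1 h3
    rw [h1, h2, map_zero, zero_mul]
  · rw [if_neg hN.ne']
    have h3 : Jet f x N = JetG f {bar x} {1} N := by
      ext z
      simp only [Jet, JetG, Set.mem_ofPred_eq, Set.mem_singleton_iff, funext_iff]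
      refine and_congr_right fun _ => ?_
      constructor
      · intro h
        refine ⟨fun j hj => ?_, ?_⟩
        · rw [h j hj.le, if_neg (by omega)]
        · rw [h N le_rfl, if_pos rfl]
      · rintro ⟨h1, h2⟩ j hj
        by_cases h : j = N
        · rw [h, h2, if_pos rfl]
        · rw [h1 j (by omega), if_neg h]
    rw [h3]

/-- the pairs of a step -/
def pairs (S1 S2 : Finset (ℤ × ℤ)) : Finset (ℤ × ℤ) :=
  S1.image (fun q => (q.1 + q.2, q.2)) ∪ S2.image (fun q => (q.1 + 2 * q.2, q.2))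

theorem pairs_coe (S1 S2 : Finset (ℤ × ℤ)) :
    shn 1 (S1 : Set (ℤ × ℤ)) ∪ shn 1 (shn 1 (S2 : Set (ℤ × ℤ))) ⊆ (pairs S1 S2 : Set (ℤ × ℤ)) := by
  classical
  rintro p (⟨q, hq, rfl⟩ | ⟨_, ⟨q, hq, rfl⟩, rfl⟩)
  · refine Finset.mem_coe.2 (Finset.mem_union_left _ (Finset.mem_image.2 ⟨q, hq, ?_⟩))
    push_cast
    rw [one_mul]
  · refine Finset.mem_coe.2 (Finset.mem_union_right _ (Finset.mem_image.2 ⟨q, hq, ?_⟩))
    push_cast
    ext
    · simp only
      ring
    · rfl

theorem pairs_of {S1 S2 : Finset (ℤ × ℤ)} {P : ℚ → Prop} {P1 P2 : ℚ → Prop}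
    (h1 : ∀ p ∈ S1, 0 < p.2 ∧ P1 ((p.1 : ℚ) / p.2)) (h2 : ∀ p ∈ S2, 0 < p.2 ∧ P2 ((p.1 : ℚ) / p.2))
    (e1 : ∀ r, P1 r → P (r + 1)) (e2 : ∀ r, P2 r → P (r + 2)) :
    ∀ p ∈ pairs S1 S2, 0 < p.2 ∧ P ((p.1 : ℚ) / p.2) := by
  classical
  intro p hp
  rcases Finset.mem_union.1 hp with hp | hp
  · obtain ⟨q, hq, rfl⟩ := Finset.mem_image.1 hp
    obtain ⟨h3, h4⟩ := h1 q hq
    refine ⟨h3, ?_⟩
    have h5 : (q.2 : ℚ) ≠ 0 := by exact_mod_cast h3.ne'
    have h6 := e1 _ h4
    have h7 : (q.1 : ℚ) / q.2 + 1 = ((q.1 + q.2 : ℤ) : ℚ) / q.2 := by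
      push_cast
      field_simp
    rwa [h7] at h6
  · obtain ⟨q, hq, rfl⟩ := Finset.mem_image.1 hp
    obtain ⟨h3, h4⟩ := h2 q hq
    refine ⟨h3, ?_⟩
    have h5 : (q.2 : ℚ) ≠ 0 := by exact_mod_cast h3.ne'
    have h6 := e2 _ h4
    have h7 : (q.1 : ℚ) / q.2 + 2 = ((q.1 + 2 * q.2 : ℤ) : ℚ) / q.2 := by
      push_cast
      field_simp
    rwa [h7] at h6

end

/-! ### The conditions on the pairs -/

/-- `r` is a root of every `c` such that `(s + 1) c(s)` satisfies a functional equation of `f` -/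
def RR {n : ℕ} (f : MvPolynomial (Fin n) ℂ) (r : ℚ) : Prop :=
  ∀ c : Polynomial ℂ, IsBFunction f ((Polynomial.X + 1) * c) → c.eval (r : ℂ) = 0

/-- every `b` which satisfies a functional equation of `f` has a root in `r + ℤ` -/
def WR {n : ℕ} (f : MvPolynomial (Fin n) ℂ) (r : ℚ) : Prop :=
  ∀ b : Polynomial ℂ, IsBFunction f b → ∃ k : ℤ, b.eval ((r : ℂ) + k) = 0

/-- the same for the local functional equations -/
def LWR {n : ℕ} (f : MvPolynomial (Fin n) ℂ) (r : ℚ) : Prop :=
  ∀ b : Polynomial ℂ, IsLocalBFunction f b → ∃ k : ℤ, b.eval ((r : ℂ) + k) = 0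

theorem fac {b : Polynomial ℂ} (hb : b.eval (-1) = 0) :
    ∃ c : Polynomial ℂ, b = (Polynomial.X + 1) * c := by
  obtain ⟨c, hc⟩ := Polynomial.dvd_iff_isRoot.2 (show b.IsRoot (-1) from hb)
  refine ⟨c, ?_⟩
  rw [hc, Polynomial.C_neg, Polynomial.C_1, sub_neg_eq_add]

theorem RR_stp {n : ℕ} {f : MvPolynomial (Fin n) ℂ} (hf : f.totalDegree ≠ 0)
    (u v : MvPolynomial (Fin n) ℂ) {r : ℚ} (h : RR (stp f u v) r) : RR f (r + 1) := by
  intro c hc
  have h1 := h _ ((bg f u v hf _ hc).2 c rfl)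
  rw [Polynomial.eval_comp, Polynomial.eval_add, Polynomial.eval_X, Polynomial.eval_one] at h1
  push_cast
  exact h1

theorem RR_addyz {n : ℕ} {f : MvPolynomial (Fin n) ℂ} (hf : f.totalDegree ≠ 0) {r : ℚ}
    (h : RR (addyz f) r) : RR f (r + 1) := by
  rw [← stp_zero] at h
  exact RR_stp hf 0 0 h

theorem WR_stp {n : ℕ} {f : MvPolynomial (Fin n) ℂ} (hf : f.totalDegree ≠ 0)
    (u v : MvPolynomial (Fin n) ℂ) {r : ℚ} (h : WR (stp f u v) r) : WR f (r + 1) := by
  intro b hb
  obtain ⟨h1, h2⟩ := bg f u v hf b hb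
  obtain ⟨c, hc⟩ := fac h1
  obtain ⟨k, hk⟩ := h _ (h2 c hc)
  rw [Polynomial.eval_mul, Polynomial.eval_comp, Polynomial.eval_add, Polynomial.eval_X,
    Polynomial.eval_one] at hk
  rcases mul_eq_zero.1 hk with h3 | h3
  · refine ⟨k - 1, ?_⟩
    rw [hc, Polynomial.eval_mul, Polynomial.eval_add, Polynomial.eval_X, Polynomial.eval_one]
    have h4 : (((r + 1 : ℚ)) : ℂ) + ((k - 1 : ℤ) : ℂ) + 1 = 0 := by
      push_cast
      linear_combination h3
    rw [h4, zero_mul]
  · refine ⟨k, ?_⟩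
    have h4 : (((r + 1 : ℚ)) : ℂ) + (k : ℂ) = (r : ℂ) + k + 1 := by
      push_cast
      ring
    rw [hc, Polynomial.eval_mul, h4, h3, mul_zero]

theorem WR_addyz {n : ℕ} {f : MvPolynomial (Fin n) ℂ} (hf : f.totalDegree ≠ 0) {r : ℚ}
    (h : WR (addyz f) r) : WR f (r + 1) := by
  rw [← stp_zero] at h
  exact WR_stp hf 0 0 h

theorem LWR_stp {n : ℕ} {f : MvPolynomial (Fin n) ℂ} (hf : f.totalDegree ≠ 0)
    (hf0 : constantCoeff f = 0) (u v : MvPolynomial (Fin n) ℂ) (hu : constantCoeff u = 0)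
    (hv : constantCoeff v = 0) {r : ℚ} (h : LWR (stp f u v) r) : LWR f (r + 1) := by
  have hfz : f ≠ 0 := by
    rintro rfl
    exact hf totalDegree_zero
  intro b hb
  obtain ⟨h1, h2⟩ := bl f u v hfz hf0 hu hv b hb
  obtain ⟨c, hc⟩ := fac h1
  obtain ⟨k, hk⟩ := h _ (h2 c hc)
  rw [Polynomial.eval_mul, Polynomial.eval_comp, Polynomial.eval_add, Polynomial.eval_X,
    Polynomial.eval_one] at hk
  rcases mul_eq_zero.1 hk with h3 | h3
  · refine ⟨k - 1, ?_⟩
    rw [hc, Polynomial.eval_mul, Polynomial.eval_add, Polynomial.eval_X, Polynomial.eval_one]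
    have h4 : (((r + 1 : ℚ)) : ℂ) + ((k - 1 : ℤ) : ℂ) + 1 = 0 := by
      push_cast
      linear_combination h3
    rw [h4, zero_mul]
  · refine ⟨k, ?_⟩
    have h4 : (((r + 1 : ℚ)) : ℂ) + (k : ℂ) = (r : ℂ) + k + 1 := by
      push_cast
      ring
    rw [hc, Polynomial.eval_mul, h4, h3, mul_zero]

theorem LWR_addyz {n : ℕ} {f : MvPolynomial (Fin n) ℂ} (hf : f.totalDegree ≠ 0)
    (hf0 : constantCoeff f = 0) {r : ℚ} (h : LWR (addyz f) r) : LWR f (r + 1) := by
  rw [← stp_zero] at h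
  exact LWR_stp hf hf0 0 0 (map_zero _) (map_zero _) h

theorem ce_one {K : Type} [Field K] : CE ({1} : Set (AlgebraicClosure K)) :=
  Pool.Agent.Y229.MS.ce_good Pool.Agent.W375.MG.good_one

/-! ### The refined strong form at a point -/

section
variable {k K : Type} [Field k] [Algebra k ℂ] [Field K] [Algebra k K]

/-- the refined strong form -/
def RefMC (K : Type) [Field K] [Algebra k K] {n : ℕ} (f : MvPolynomial (Fin n) k) : Prop :=
  ∀ x : Fin n → K, aeval x (map (algebraMap k K) f) = 0 →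
    ∃ S : Finset (ℤ × ℤ), (∀ p ∈ S, 0 < p.2 ∧
        RR (map (algebraMap k ℂ) f) ((p.1 : ℚ) / p.2)) ∧
      fst' K * zeta (map (algebraMap k K) f) x ∈ ratRing K S

theorem refMC_step {n : ℕ} (f u v : MvPolynomial (Fin n) k) (hf : f.totalDegree ≠ 0)
    (h1 : RefMC K (stp f u v)) (h2 : RefMC K (addyz (stp f u v))) : RefMC K f := by
  have hK : CharZero K := by
    have hkc : CharZero k := RingHom.charZero (algebraMap k ℂ)
    exact charZero_of_injective_algebraMap (algebraMap k K).injective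
  intro x hx
  set g := algebraMap k K
  have hx1 : aeval (up1 (map g u) (map g v) x) (map g (stp f u v)) = 0 := by
    rw [map_stp]
    exact up1_zero _ _ _ x hx
  have hx2 : aeval (up0 (up1 (map g u) (map g v) x)) (map g (addyz (stp f u v))) = 0 := by
    rw [map_addyz]
    exact up0_zero _ _ hx1
  obtain ⟨S1, hS1, hz1⟩ := h1 _ hx1
  obtain ⟨S2, hS2, hz2⟩ := h2 _ hx2
  have hfC : (map (algebraMap k ℂ) f).totalDegree ≠ 0 := map_deg _ f hf
  refine ⟨pairs S1 S2, pairs_of (P1 := RR (map (algebraMap k ℂ) (stp f u v)))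
    (P2 := RR (map (algebraMap k ℂ) (addyz (stp f u v)))) hS1 hS2 (fun r hr => ?_)
    (fun r hr => ?_), ?_⟩
  · rw [map_stp] at hr
    exact RR_stp hfC _ _ hr
  · rw [map_addyz, map_stp] at hr
    have h3 := RR_stp hfC _ _ (RR_addyz (stp_deg _ _ _) hr)
    rwa [add_assoc, one_add_one_eq_two] at h3
  · rw [zeta_eq _ _ hx1] at hz1
    rw [zeta_eq _ _ hx2, map_addyz] at hz2
    rw [map_stp] at hz1 hz2
    rw [zeta_eq _ _ hx]
    exact ratRing_mono (pairs_coe S1 S2) (stepP _ _ _ x hx ce_one (fun p hp => (hS1 p hp).1)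
      (fun p hp => (hS2 p hp).1) hz1 hz2)

/-- **Reduction for the refined strong form.** -/
theorem refMC_red (h : ∀ (n : ℕ) (f : MvPolynomial (Fin n) k), Cub f → f.totalDegree ≠ 0 →
    RefMC K f) (n : ℕ) (f : MvPolynomial (Fin n) k) (hf : f.totalDegree ≠ 0) : RefMC K f :=
  red k (fun _ f => f.totalDegree ≠ 0 → RefMC K f) (fun n f hc => h n f hc)
    (fun n f u v _ _ h1 h2 hf => refMC_step f u v hf (h1 (stp_deg _ _ _)) (h2 (addyz_deg _)))
    n f hf

/-! ### The weak form, global -/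

/-- the weak form for the zeta function of the jets with `f = t ^ d` -/
def WeakMC {n : ℕ} (f : MvPolynomial (Fin n) k) : Prop :=
  ∃ S : Finset (ℤ × ℤ), (∀ p ∈ S, 0 < p.2 ∧
      WR (map (algebraMap k ℂ) f) ((p.1 : ℚ) / p.2)) ∧
    zetaG f Set.univ {1} ∈ ratRing k S

theorem weakMC_step {n : ℕ} (f u v : MvPolynomial (Fin n) k) (hf : f.totalDegree ≠ 0)
    (h1 : WeakMC (stp f u v)) (h2 : WeakMC (addyz (stp f u v))) : WeakMC f := by
  have hK : CharZero k := RingHom.charZero (algebraMap k ℂ)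
  obtain ⟨S1, hS1, hz1⟩ := h1
  obtain ⟨S2, hS2, hz2⟩ := h2
  have hfC : (map (algebraMap k ℂ) f).totalDegree ≠ 0 := map_deg _ f hf
  have hm : ∀ S : Set (ℤ × ℤ), fst' k ∈ ratRing k S := fun S =>
    (ratRing k S).sub_mem (ratRing k S).one_mem ((ratRing k S).mul_mem
      (Pool.Agent.W63.MTFin.C_mem _ _) (Pool.Agent.W63.MTFin.X_mem _))
  refine ⟨insert (-1, 1) (pairs S1 S2), fun p hp => ?_, ?_⟩
  · rcases Finset.mem_insert.1 hp with rfl | hp
    · refine ⟨one_pos, fun b hb => ⟨0, ?_⟩⟩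
      have h3 := (bg _ 0 0 hfC b hb).1
      have h4 : ((((-1 : ℤ) : ℚ) / ((1 : ℤ) : ℚ) : ℚ) : ℂ) + ((0 : ℤ) : ℂ) = -1 := by
        push_cast
        ring
      simp only [h4]
      exact h3
    · refine pairs_of (P1 := WR (map (algebraMap k ℂ) (stp f u v)))
        (P2 := WR (map (algebraMap k ℂ) (addyz (stp f u v)))) hS1 hS2 (fun r hr => ?_)
        (fun r hr => ?_) p hp
      · rw [map_stp] at hr
        exact WR_stp hfC _ _ hr
      · rw [map_addyz, map_stp] at hr
        have h3 := WR_stp hfC _ _ (WR_addyz (stp_deg _ _ _) hr)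
        rwa [add_assoc, one_add_one_eq_two] at h3
  · have h3 := stepG f u v ce_one (fun p hp => (hS1 p hp).1) (fun p hp => (hS2 p hp).1)
      ((ratRing k _).mul_mem (hm _) hz1) ((ratRing k _).mul_mem (hm _) hz2)
    refine ratRing_mono ?_ (zeta_of_fst f Set.univ {1} _ h3)
    rw [Finset.coe_insert]
    exact Set.insert_subset_insert (pairs_coe S1 S2)

/-- **Reduction for the weak form.** -/
theorem weakMC_red (h : ∀ (n : ℕ) (f : MvPolynomial (Fin n) k), Cub f → f.totalDegree ≠ 0 →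
    WeakMC f) (n : ℕ) (f : MvPolynomial (Fin n) k) (hf : f.totalDegree ≠ 0) : WeakMC f :=
  red k (fun _ f => f.totalDegree ≠ 0 → WeakMC f) (fun n f hc => h n f hc)
    (fun n f u v _ _ h1 h2 hf => weakMC_step f u v hf (h1 (stp_deg _ _ _)) (h2 (addyz_deg _)))
    n f hf

end

/-! ### The weak form at the origin -/

theorem bar_zero {n : ℕ} : bar (0 : Fin n → ℂ) = 0 := by
  funext i
  exact map_zero _

theorem up0_zero' {n : ℕ} : up0 (0 : Fin n → ℂ) = 0 := by
  funext i
  refine Fin.addCases (fun i => ?_) (fun i => ?_) i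
  · unfold up0
    rw [Fin.append_left]
    rfl
  · unfold up0
    rw [Fin.append_right]
    fin_cases i <;> rfl

theorem aeval_z {n : ℕ} (p : MvPolynomial (Fin n) ℂ) (h : constantCoeff p = 0) :
    aeval (0 : Fin n → ℂ) p = 0 := by
  have h1 := aeval_zero (R := ℂ) (S₁ := ℂ) p
  rw [h, map_zero] at h1
  exact h1

theorem up1_zero' {n : ℕ} (u v : MvPolynomial (Fin n) ℂ) (hu : constantCoeff u = 0)
    (hv : constantCoeff v = 0) : up1 u v (0 : Fin n → ℂ) = 0 := by
  funext i
  refine Fin.addCases (fun i => ?_) (fun i => ?_) i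
  · unfold up1
    rw [Fin.append_left]
    rfl
  · unfold up1
    rw [Fin.append_right, aeval_z u hu, aeval_z v hv, neg_zero]
    fin_cases i <;> rfl

/-- the weak form for the local zeta function of the jets with `ord f = N` -/
def LWeakMC {n : ℕ} (f : MvPolynomial (Fin n) ℂ) : Prop :=
  ∃ S : Finset (ℤ × ℤ), (∀ p ∈ S, 0 < p.2 ∧ LWR f ((p.1 : ℚ) / p.2)) ∧
    zt f {0} ∈ ratRing ℂ S

theorem ce_Un' {K : Type} [Field K] : CE (Un K) :=
  Pool.Agent.Y229.MS.ce_good Pool.Agent.W375.MG.good_units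

theorem lweakMC_step {n : ℕ} (f u v : MvPolynomial (Fin n) ℂ) (hf : f.totalDegree ≠ 0)
    (hf0 : constantCoeff f = 0) (hu : constantCoeff u = 0) (hv : constantCoeff v = 0)
    (h1 : LWeakMC (stp f u v)) (h2 : LWeakMC (addyz (stp f u v))) : LWeakMC f := by
  obtain ⟨S1, hS1, hz1⟩ := h1
  obtain ⟨S2, hS2, hz2⟩ := h2
  have hm : ∀ S : Set (ℤ × ℤ), fst' ℂ ∈ ratRing ℂ S := fun S =>
    (ratRing ℂ S).sub_mem (ratRing ℂ S).one_mem ((ratRing ℂ S).mul_mem
      (Pool.Agent.W63.MTFin.C_mem _ _) (Pool.Agent.W63.MTFin.X_mem _))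
  have hfz : f ≠ 0 := by
    rintro rfl
    exact hf totalDegree_zero
  refine ⟨insert (-1, 1) (pairs S1 S2), fun p hp => ?_, ?_⟩
  · rcases Finset.mem_insert.1 hp with rfl | hp
    · refine ⟨one_pos, fun b hb => ⟨0, ?_⟩⟩
      have h3 := (bl f 0 0 hfz hf0 (map_zero _) (map_zero _) b hb).1
      have h4 : ((((-1 : ℤ) : ℚ) / ((1 : ℤ) : ℚ) : ℚ) : ℂ) + ((0 : ℤ) : ℂ) = -1 := by
        push_cast
        ring
      simp only [h4]
      exact h3
    · refine pairs_of (P1 := LWR (stp f u v)) (P2 := LWR (addyz (stp f u v))) hS1 hS2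
        (fun r hr => LWR_stp hf hf0 _ _ hu hv hr) (fun r hr => ?_) p hp
      have h3 := LWR_stp hf hf0 _ _ hu hv (LWR_addyz (stp_deg _ _ _)
        (stp_const f u v hf0 hu hv) hr)
      rwa [add_assoc, one_add_one_eq_two] at h3
  · have e : ∀ {m : ℕ} (g : MvPolynomial (Fin m) ℂ), zt g {0} = zetaG g {0} (Un ℂ) :=
      fun g => rfl
    rw [e] at hz1 hz2 ⊢
    have h3 := stepP f u v 0 (aeval_z f hf0) (E := Un ℂ) ce_Un' (S1 := S1) (S2 := S2)
      (fun p hp => (hS1 p hp).1) (fun p hp => (hS2 p hp).1) (by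
        rw [up1_zero' u v hu hv, bar_zero]
        exact (ratRing ℂ _).mul_mem (hm _) hz1) (by
        rw [up1_zero' u v hu hv, up0_zero', bar_zero]
        exact (ratRing ℂ _).mul_mem (hm _) hz2)
    rw [bar_zero] at h3
    refine ratRing_mono ?_ (zeta_of_fst f {0} (Un ℂ) _ h3)
    rw [Finset.coe_insert]
    exact Set.insert_subset_insert (pairs_coe S1 S2)

/-- **Reduction for the local weak form.** -/
theorem lweakMC_red (h : ∀ (n : ℕ) (f : MvPolynomial (Fin n) ℂ), Cub f → f.totalDegree ≠ 0 →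
    constantCoeff f = 0 → LWeakMC f) (n : ℕ) (f : MvPolynomial (Fin n) ℂ)
    (hf : f.totalDegree ≠ 0) (hf0 : constantCoeff f = 0) : LWeakMC f :=
  red ℂ (fun _ f => f.totalDegree ≠ 0 → constantCoeff f = 0 → LWeakMC f)
    (fun n f hc => h n f hc)
    (fun n f u v hu hv h1 h2 hf hf0 => lweakMC_step f u v hf hf0 hu hv
      (h1 (stp_deg _ _ _) (stp_const f u v hf0 hu hv))
      (h2 (addyz_deg _) (by
        rw [← stp_zero]
        exact stp_const _ 0 0 (stp_const f u v hf0 hu hv) (map_zero _) (map_zero _))))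
    n f hf hf0

end EM

end Pool.Agent.N101.CB
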