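import Pool.Agent.N101.CB.StmQ
import Pool.Agent.Y366.MS.OneA
import Pool.Agent.W230.ME.Free
import Pool.Agent.W366.MESub
import Pool.Agent.W375.MT.EJsc

/-!
# Project CUB, leaf EHY1 (helper568)

The equivariant class of the jets of `f + y z` with `y(0) = z(0) = 0`.
-/

set_option autoImplicit false

namespace Pool.Agent.N101.CB

namespace EHY1aux

open MvPolynomial
open Pool.Agent.W428.MOT hiding bb
open Pool.Agent.Y229.MS (addyz)
open Pool.Agent.Y366.MS

variable {k : Type} [Field k] {n N : ℕ}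

/-! ### the torus action -/

section dact

variable {ρ : Fin (n + 2) × Fin (N + 1) → ℤ}

theorem Fc_dact (h : ∀ a j, ρ (Fin.castAdd 2 a, j) = ((j : ℕ) : ℤ)) (f : MvPolynomial (Fin n) k)
    (l : AlgebraicClosure k) (w : Pt k (Fin (n + 2) × Fin (N + 1))) (j : ℕ) :
    Fc f (dact ρ l w) j = l ^ j * Fc f w j := by
  have h1 : (fun a => arc (dact ρ l w) (Fin.castAdd 2 a)) =
      fun a => PowerSeries.rescale l (arc w (Fin.castAdd 2 a)) := by
    funext a
    ext j
    rw [PowerSeries.coeff_rescale]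
    simp only [arc, PowerSeries.coeff_mk, dact]
    split_ifs with hj
    · rw [h, zpow_natCast]
    · rw [mul_zero]
  unfold Fc
  rw [h1, aeval_rescale, PowerSeries.coeff_rescale]

theorem Yc_dact (h : ∀ j, ρ (Fin.natAdd n 0, j) = ((j : ℕ) : ℤ)) (l : AlgebraicClosure k)
    (w : Pt k (Fin (n + 2) × Fin (N + 1))) (j : ℕ) : Yc (dact ρ l w) j = l ^ j * Yc w j := by
  unfold Yc
  simp only [arc, PowerSeries.coeff_mk, dact]
  split_ifs with hj
  · rw [h, zpow_natCast]
  · rw [mul_zero]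

theorem Zc_dact {c : ℤ} (l : AlgebraicClosure k) (w : Pt k (Fin (n + 2) × Fin (N + 1))) (j : ℕ)
    (h : ∀ hj : j < N + 1, ρ (Fin.natAdd n 1, ⟨j, hj⟩) = c) :
    Zc (dact ρ l w) j = l ^ c * Zc w j := by
  unfold Zc
  simp only [arc, PowerSeries.coeff_mk, dact]
  split_ifs with hj
  · rw [h hj]
  · rw [mul_zero]

end dact

theorem Fc_zero (f : MvPolynomial (Fin n) k) (w : Pt k (Fin (n + 2) × Fin (N + 1))) :
    Fc f w 0 = aeval (cbase (jbs (hh1 n) N) w) f := by
  unfold Fc
  rw [Pool.Agent.W375.MT.coeff_zero_aeval]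
  have h1 : (fun a => PowerSeries.constantCoeff (arc w (Fin.castAdd 2 a))) =
      cbase (jbs (hh1 n) N) w := by
    funext a
    rw [Pool.Agent.W375.MT.constantCoeff_arc]
    rfl
  rw [h1]

theorem mk_valid (f : MvPolynomial (Fin n) k) {S : Set (Pt k (Fin (n + 2) × Fin (N + 1)))}
    {ρ : Fin (n + 2) × Fin (N + 1) → ℤ} (hN : 0 < N)
    (hρ : ∀ a j, ρ (Fin.castAdd 2 a, j) = ((j : ℕ) : ℤ)) (hc : Constr S)
    (hs : ∀ l : AlgebraicClosure k, l ^ N = 1 → ∀ z ∈ S, dact ρ l z ∈ S)
    (h0 : ∀ w ∈ S, Fc f w 0 = 0) : Valid f S ρ N (jbs (hh1 n) N) where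
  constr := hc
  pos := hN
  stable := hs
  base := fun z hz => by rw [← Fc_zero]; exact h0 z hz
  inv := fun i j h => by
    unfold jbs at h
    rw [Option.some.injEq] at h
    rw [← h]
    have h1 := hρ i 0
    simpa [hh1] using h1

/-! ### the weights -/

/-- the weights after the change of the coordinates `z_t, …, z_q` -/
def rt (n N i q t : ℕ) (p : Fin (n + 2) × Fin (N + 1)) : ℤ :=
  if p.1 = Fin.natAdd n 1 ∧ t ≤ (p.2 : ℕ) ∧ (p.2 : ℕ) ≤ q then ((p.2 : ℕ) : ℤ) + i
  else ((p.2 : ℕ) : ℤ)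

theorem rt_x (i q t : ℕ) (a : Fin n) (j : Fin (N + 1)) :
    rt n N i q t (Fin.castAdd 2 a, j) = ((j : ℕ) : ℤ) := by
  unfold rt
  rw [if_neg]
  rintro ⟨h, -⟩
  exact castAdd_ne a 1 h

theorem rt_y (i q t : ℕ) (j : Fin (N + 1)) :
    rt n N i q t (Fin.natAdd n 0, j) = ((j : ℕ) : ℤ) := by
  unfold rt
  rw [if_neg]
  rintro ⟨h, -⟩
  exact natAdd01 h

theorem rt_lt (i q t m : ℕ) (hm : m < t) (hj : m < N + 1) :
    rt n N i q t (Fin.natAdd n 1, ⟨m, hj⟩) = (m : ℤ) := by
  unfold rt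
  rw [if_neg]
  rintro ⟨-, h, -⟩
  simp only at h
  omega

theorem rt_ge (i q t m : ℕ) (hm : t ≤ m) (hq : m ≤ q) (hj : m < N + 1) :
    rt n N i q t (Fin.natAdd n 1, ⟨m, hj⟩) = (m : ℤ) + i := by
  unfold rt
  rw [if_pos ⟨rfl, hm, hq⟩]

theorem rt_top (i q : ℕ) : rt n N i q (q + 1) = jw (n + 2) N := by
  funext p
  unfold rt jw
  rw [if_neg]
  rintro ⟨-, h1, h2⟩
  omega

theorem hh_dact (f : MvPolynomial (Fin n) k) (i q t l : ℕ) (hl : l < t) (s : AlgebraicClosure k)
    (w : Pt k (Fin (n + 2) × Fin (N + 1))) :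
    hh f i l (dact (rt n N i q t) s w) = s ^ (i + l) * hh f i l w := by
  unfold hh
  rw [Fc_dact (rt_x i q t), mul_add, Finset.mul_sum]
  congr 1
  refine Finset.sum_congr rfl fun m hm => ?_
  have hm' := Finset.mem_range.1 hm
  rw [Yc_dact (rt_y i q t), Zc_dact (c := (m : ℤ)) _ _ _
    (fun hj => rt_lt i q t m (by omega) hj), zpow_natCast]
  have h1 : s ^ (i + l) = s ^ (i + l - m) * s ^ m := by
    rw [← pow_add]
    congr 1
    omega
  rw [h1]
  ring

theorem bb_dact (f : MvPolynomial (Fin n) k) (i q t l : ℕ) (hl : l ≤ t) (s : AlgebraicClosure k)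
    (w : Pt k (Fin (n + 2) × Fin (N + 1))) :
    bb f i l (dact (rt n N i q t) s w) = s ^ (i + l) * bb f i l w := by
  unfold bb
  rw [Fc_dact (rt_x i q t), mul_add, Finset.mul_sum]
  congr 1
  refine Finset.sum_congr rfl fun m hm => ?_
  have hm' := Finset.mem_range.1 hm
  rw [Yc_dact (rt_y i q t), Zc_dact (c := (m : ℤ)) _ _ _
    (fun hj => rt_lt i q t m (by omega) hj), zpow_natCast]
  have h1 : s ^ (i + l) = s ^ (i + l - m) * s ^ m := by
    rw [← pow_add]
    congr 1
    omega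
  rw [h1]
  ring

/-! ### the intermediate sets -/

/-- the conditions which do not involve `z_1, …` -/
def BaseE (f : MvPolynomial (Fin n) k) (i : ℕ) : Set (Pt k (Fin (n + 2) × Fin (N + 1))) :=
  {w | (∀ j < i + 1, Fc f w j = 0) ∧ (∀ j < i, Yc w j = 0) ∧ Yc w i ≠ 0 ∧ Zc w 0 = 0}

/-- `1` if `l = q` -/
noncomputable def dl (k : Type) [Field k] (q l : ℕ) : AlgebraicClosure k := if l = q then 1 else 0

theorem isPF_dl (q l : ℕ) : IsPF (fun _ : Pt k (Fin (n + 2) × Fin (N + 1)) => dl k q l) := by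
  unfold dl
  split_ifs
  · exact IsPF.one
  · exact IsPF.zero

/-- the intermediate sets -/
noncomputable def StE (f : MvPolynomial (Fin n) k) (i q t : ℕ) :
    Set (Pt k (Fin (n + 2) × Fin (N + 1))) :=
  {w | w ∈ BaseE f i ∧ ∀ l < q + 1, 1 ≤ l →
    (if l < t then hh f i l w - dl k q l else Zc w l) = 0}

theorem constr_BaseE (f : MvPolynomial (Fin n) k) (i : ℕ) : Constr (BaseE (N := N) f i) := by
  unfold BaseE
  exact Constr.and (Constr.allLt _ fun j _ => Constr.eqz (isPF_Fc f j))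
    (Constr.and (Constr.allLt _ fun j _ => Constr.eqz (isPF_Yc j))
      (Constr.and (Constr.eqz (isPF_Yc i)).not (Constr.eqz (isPF_Zc 0))))

theorem constr_StE (f : MvPolynomial (Fin n) k) (i q t : ℕ) : Constr (StE (N := N) f i q t) := by
  unfold StE
  refine Constr.and (constr_BaseE f i) (Constr.allLt _ fun l _ => Constr.imp' fun _ => ?_)
  split_ifs with h
  · exact Constr.eqz ((isPF_hh f i l).sub (isPF_dl q l))
  · exact Constr.eqz (isPF_Zc l)

theorem valid_StE (f : MvPolynomial (Fin n) k) (i q t : ℕ) (hN : N = i + q) (hi : 1 ≤ i) :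
    Valid f (StE (N := N) f i q t) (rt n N i q t) N (jbs (hh1 n) N) := by
  refine mk_valid f (by omega) (rt_x i q t) (constr_StE f i q t) ?_ ?_
  · intro l hl w hw
    have hl0 : l ≠ 0 := Pool.Agent.W375.MT.ne_zero_of_pow (N := N) (by omega) hl
    obtain ⟨⟨h1, h2, h3, h4⟩, h5⟩ := hw
    refine ⟨⟨fun j hj => ?_, fun j hj => ?_, ?_, ?_⟩, ?_⟩
    · rw [Fc_dact (rt_x i q t), h1 j hj, mul_zero]
    · rw [Yc_dact (rt_y i q t), h2 j hj, mul_zero]
    · rw [Yc_dact (rt_y i q t)]
      exact mul_ne_zero (pow_ne_zero _ hl0) h3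
    · rw [Zc_dact (c := rt n N i q t (Fin.natAdd n 1, ⟨0, by omega⟩)) _ _ _ (fun _ => rfl), h4,
        mul_zero]
    · intro m hm hm1
      have h6 := h5 m hm hm1
      split_ifs with h7
      · rw [if_pos h7] at h6
        rw [hh_dact f i q t m h7]
        have h8 : hh f i m w = dl k q m := sub_eq_zero.1 h6
        rw [h8]
        unfold dl
        split_ifs with h9
        · rw [h9, ← hN, hl]
          ring
        · ring
      · rw [if_neg h7] at h6
        rw [Zc_dact (c := rt n N i q t (Fin.natAdd n 1, ⟨m, by omega⟩)) _ _ _ (fun _ => rfl), h6,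
          mul_zero]
  · intro w hw
    exact hw.1.1 0 (by omega)

theorem BaseE_upd (f : MvPolynomial (Fin n) k) (i : ℕ) (w : Pt k (Fin (n + 2) × Fin (N + 1)))
    (t : Fin (N + 1)) (ht : 1 ≤ (t : ℕ)) (c : AlgebraicClosure k) :
    Function.update w (Fin.natAdd n 1, t) c ∈ BaseE f i ↔ w ∈ BaseE f i := by
  unfold BaseE
  simp only [Set.mem_ofPred_eq, Fc_upd, Yc_upd]
  rw [Zc_upd _ _ _ _ (by omega)]

theorem StE_step {f : MvPolynomial (Fin n) k} {R : Type} [CommRing R] (M : EMeas f R)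
    (i q t : ℕ) (hN : N = i + q) (hi : 1 ≤ i) (ht1 : 1 ≤ t) (ht : t ≤ q) :
    M.χ _ (StE (N := N) f i q (t + 1)) (rt n N i q (t + 1)) N (jbs (hh1 n) N) =
      M.χ _ (StE (N := N) f i q t) (rt n N i q t) N (jbs (hh1 n) N) := by
  classical
  have htN : t < N + 1 := by omega
  refine Pool.Agent.W366.MESub.main M _ _ _ _ N _ (Fin.natAdd n 1, (⟨t, htN⟩ : Fin (N + 1)))
    (fun w => Yc w i) (fun w => bb f i t w - dl k q t) (valid_StE f i q (t + 1) hN hi)
    (valid_StE f i q t hN hi) ?_ ?_ (isPF_Yc i) ((isPF_bb f i t).sub (isPF_dl q t))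
    (fun z w => Yc_upd _ _ _ _) ?_ ?_ ?_ (fun z hz => hz.1.2.2.1) (fun z hz => hz.1.2.2.1) ?_
  · intro p hp
    have h1 : (p.1 = Fin.natAdd n 1 ∧ t ≤ (p.2 : ℕ) ∧ (p.2 : ℕ) ≤ q) ↔
        (p.1 = Fin.natAdd n 1 ∧ t + 1 ≤ (p.2 : ℕ) ∧ (p.2 : ℕ) ≤ q) := by
      constructor
      · rintro ⟨h1, h2, h3⟩
        refine ⟨h1, ?_, h3⟩
        by_contra hc
        exact hp (Prod.ext h1 (Fin.ext (by simp only; omega)))
      · rintro ⟨h1, h2, h3⟩
        exact ⟨h1, by omega, h3⟩
    unfold rt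
    simp only [h1]
  · intro j h
    unfold jbs at h
    rw [Option.some.injEq] at h
    exact castAdd_ne _ _ (Prod.ext_iff.1 h).1
  · intro z w
    rw [bb_upd z ⟨t, htN⟩ w f i t le_rfl]
  · intro l hl z
    rw [Yc_dact (rt_y i q (t + 1)), rt_ge i q t t le_rfl ht htN,
      rt_lt i q (t + 1) t (Nat.lt_succ_self t) htN, add_sub_cancel_left, zpow_natCast]
  · intro l hl z
    rw [bb_dact f i q (t + 1) t (by omega), rt_ge i q t t le_rfl ht htN]
    have h1 : l ^ ((t : ℤ) + i) = l ^ (i + t) := by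
      rw [← zpow_natCast]
      congr 1
      push_cast
      ring
    rw [h1]
    unfold dl
    split_ifs with h2
    · rw [h2, ← hN, hl]
      ring
    · ring
  · intro w _
    have hZ : w (Fin.natAdd n 1, (⟨t, htN⟩ : Fin (N + 1))) = Zc w t := (Zc_of_lt w t htN).symm
    rw [hZ]
    have hval : Yc w i * Zc w t + (bb f i t w - dl k q t) = hh f i t w - dl k q t := by
      rw [hh_eq]
      ring
    simp only [hval]
    unfold StE
    rw [Set.mem_ofPred_eq, Set.mem_ofPred_eq, BaseE_upd f i w ⟨t, htN⟩ ht1]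
    refine and_congr_right fun _ => forall₃_congr fun l _ _ => ?_
    rcases lt_trichotomy l t with h | h | h
    · rw [if_pos (by omega), if_pos h, hh_upd _ _ _ _ _ _ h]
    · subst h
      rw [if_pos (by omega), if_neg (lt_irrefl _)]
      have h3 := Zc_upd_self w ⟨l, htN⟩ (hh f i l w - dl k q l)
      simp only at h3
      rw [h3]
    · rw [if_neg (by omega), if_neg (by omega), Zc_upd _ _ _ _ (by simp only; omega)]

theorem StE_all {f : MvPolynomial (Fin n) k} {R : Type} [CommRing R] (M : EMeas f R)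
    (i q : ℕ) (hN : N = i + q) (hi : 1 ≤ i) : ∀ t ≤ q,
    M.χ _ (StE (N := N) f i q (t + 1)) (rt n N i q (t + 1)) N (jbs (hh1 n) N) =
      M.χ _ (StE (N := N) f i q 1) (rt n N i q 1) N (jbs (hh1 n) N) := by
  intro t
  induction t with
  | zero => intro _; rfl
  | succ t ih =>
    intro ht
    rw [StE_step M i q (t + 1) hN hi (by omega) ht, ih (by omega)]

/-! ### products -/

/-- the `x`-part -/
def xp (w : Pt k (Fin (n + 2) × Fin (N + 1))) : Pt k (Fin n × Fin (N + 1)) :=
  fun p => w (Fin.castAdd 2 p.1, p.2)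

/-- the points with `x`-part in `C` and zero coordinates of `y`, `z` outside `F` -/
def Pr (C : Set (Pt k (Fin n × Fin (N + 1)))) (F : Finset (Fin (n + 2) × Fin (N + 1))) :
    Set (Pt k (Fin (n + 2) × Fin (N + 1))) :=
  {w | xp w ∈ C ∧ ∀ (b : Fin 2) (j : Fin (N + 1)), (Fin.natAdd n b, j) ∉ F →
    w (Fin.natAdd n b, j) = 0}

theorem xp_dact {ρ : Fin (n + 2) × Fin (N + 1) → ℤ}
    (hρ : ∀ a j, ρ (Fin.castAdd 2 a, j) = ((j : ℕ) : ℤ)) (l : AlgebraicClosure k)
    (w : Pt k (Fin (n + 2) × Fin (N + 1))) : xp (dact ρ l w) = dact (jw n N) l (xp w) := by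
  funext p
  simp only [xp, dact, hρ, jw]

theorem pr_valid {f : MvPolynomial (Fin n) k} {C : Set (Pt k (Fin n × Fin (N + 1)))}
    (hC : Valid f C (jw n N) N (jb n N)) (F : Finset (Fin (n + 2) × Fin (N + 1)))
    {ρ : Fin (n + 2) × Fin (N + 1) → ℤ}
    (hρ : ∀ a j, ρ (Fin.castAdd 2 a, j) = ((j : ℕ) : ℤ)) :
    Valid f (Pr C F) ρ N (jbs (hh1 n) N) where
  constr := Constr.and (hC.constr.preimage xp (fun _ => IsPF.coord _))
    (Constr.all fun b => Constr.all fun j => Constr.imp' fun _ => Constr.eqz (IsPF.coord _))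
  pos := hC.pos
  stable := fun l hl w hw => by
    refine ⟨?_, fun b j hb => ?_⟩
    · rw [xp_dact hρ]
      exact hC.stable l hl _ hw.1
    · simp only [dact]
      rw [hw.2 b j hb, mul_zero]
  base := fun w hw => hC.base (xp w) hw.1
  inv := fun i j h => by
    unfold jbs at h
    rw [Option.some.injEq] at h
    rw [← h]
    have h1 := hρ i 0
    simpa [hh1] using h1

theorem pr_iso {f : MvPolynomial (Fin n) k} {R : Type} [CommRing R] (M : EMeas f R)
    {C : Set (Pt k (Fin n × Fin (N + 1)))} (hC : Valid f C (jw n N) N (jb n N))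
    {ρ : Fin (n + 2) × Fin (N + 1) → ℤ}
    (hρ : ∀ a j, ρ (Fin.castAdd 2 a, j) = ((j : ℕ) : ℤ)) :
    M.χ _ (Pr C ∅) ρ N (jbs (hh1 n) N) = M.χ _ C (jw n N) N (jb n N) := by
  have hx : ∀ z : Pt k (Fin n × Fin (N + 1)),
      xp (fun p : Fin (n + 2) × Fin (N + 1) =>
        (Fin.addCases (fun a => z (a, p.2)) (fun _ => 0) p.1 : AlgebraicClosure k)) = z := by
    intro z
    funext p
    simp only [xp, Fin.addCases_left]
  refine M.iso _ _ ρ (jw n N) N N _ _ (pr_valid hC ∅ hρ) hC xp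
    (fun z p => Fin.addCases (fun a => z (a, p.2)) (fun _ => 0) p.1)
    (regularOn_poly (fun p => IsPF.coord _) _) (regularOn_poly (fun p => ?_) _) ?_ ?_ ?_ ?_ ?_ ?_
  · obtain ⟨a, j⟩ := p
    refine Fin.addCases (fun a => ?_) (fun b => ?_) a
    · simp only [Fin.addCases_left]
      exact IsPF.coord _
    · simp only [Fin.addCases_right]
      exact IsPF.zero
  · intro w hw
    exact hw.1
  · intro z hz
    refine ⟨?_, ?_⟩
    · rw [hx]
      exact hz
    · intro b j _
      simp only [Fin.addCases_right]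
  · intro w hw
    funext p
    obtain ⟨a, j⟩ := p
    refine Fin.addCases (fun a => ?_) (fun b => ?_) a
    · simp only [Fin.addCases_left, xp]
    · simp only [Fin.addCases_right]
      exact (hw.2 b j (Finset.notMem_empty _)).symm
  · intro z _
    exact hx z
  · intro w _
    rfl
  · intro l _ w _
    exact xp_dact hρ _ w

theorem pr_chi {f : MvPolynomial (Fin n) k} {R : Type} [CommRing R] (M : EMeas f R)
    {C : Set (Pt k (Fin n × Fin (N + 1)))} (hC : Valid f C (jw n N) N (jb n N))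
    (F0 F1 : Finset (Fin (n + 2) × Fin (N + 1))) (hd : Disjoint F0 F1)
    (hF : ∀ (a : Fin n) (j : Fin (N + 1)), (Fin.castAdd 2 a, j) ∉ F0 ∪ F1)
    {ρ : Fin (n + 2) × Fin (N + 1) → ℤ}
    (hρ : ∀ a j, ρ (Fin.castAdd 2 a, j) = ((j : ℕ) : ℤ)) :
    M.χ _ (Pr C (F0 ∪ F1) ∩ {w | ∀ p ∈ F0, w p ≠ 0}) ρ N (jbs (hh1 n) N) =
      M.χ _ C (jw n N) N (jb n N) * (M.L - 1) ^ F0.card * M.L ^ F1.card := by
  classical
  rw [Pool.Agent.W230.ME.Free.main M (Pr C (F0 ∪ F1)) ρ N (jbs (hh1 n) N) F0 F1 (fun _ => 0) hd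
    (pr_valid hC _ hρ) ?_ ?_]
  · have e : Pr C (F0 ∪ F1) ∩ {z | ∀ i ∈ F0 ∪ F1, z i = algebraMap k _ 0} = Pr C ∅ := by
      ext w
      constructor
      · rintro ⟨⟨h1, h2⟩, h3⟩
        refine ⟨h1, fun b j _ => ?_⟩
        by_cases hb : (Fin.natAdd n b, j) ∈ F0 ∪ F1
        · rw [h3 _ hb, map_zero]
        · exact h2 b j hb
      · rintro ⟨h1, h2⟩
        refine ⟨⟨h1, fun b j _ => h2 b j (Finset.notMem_empty _)⟩, ?_⟩
        rintro ⟨a, j⟩ hp
        rw [map_zero]
        revert hp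
        refine Fin.addCases (fun a => ?_) (fun b => ?_) a
        · intro hp
          exact absurd hp (hF a j)
        · intro _
          exact h2 b j (Finset.notMem_empty _)
    rw [e, pr_iso M hC]
    intro a j
    rw [if_neg (hF a j)]
    exact hρ a j
  · intro i j h
    unfold jbs at h
    rw [Option.some.injEq] at h
    rw [← h]
    have h1 := hF i 0
    rw [Finset.mem_union, not_or] at h1
    exact h1
  · intro z w hzw hz
    have h1 : xp w = xp z := by
      funext p
      have h2 := hF p.1 p.2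
      rw [Finset.mem_union, not_or] at h2
      exact hzw _ h2.1 h2.2
    refine ⟨by rw [h1]; exact hz.1, fun b j hb => ?_⟩
    have hb' := hb
    rw [Finset.mem_union, not_or] at hb'
    rw [hzw _ hb'.1 hb'.2]
    exact hz.2 b j hb

/-! ### the strata -/

/-- the jets -/
def JS (f : MvPolynomial (Fin n) k) : Set (Pt k (Fin (n + 2) × Fin (N + 1))) :=
  {w | (∀ j ≤ N, PowerSeries.coeff j (aeval (arc w) (addyz f)) = if j = N then 1 else 0) ∧
    Yc w 0 = 0 ∧ Zc w 0 = 0}

theorem JetS_eq (f : MvPolynomial (Fin n) k) :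
    JetS (addyz f) (hh1 n) (sg1 0 0) N = JS (N := N) f := by
  ext w
  have hY : Yc w 0 = w (Fin.natAdd n 0, 0) := Yc_of_lt w 0 (by omega)
  have hZ : Zc w 0 = w (Fin.natAdd n 1, 0) := Zc_of_lt w 0 (by omega)
  constructor
  · rintro ⟨h1, h2⟩
    refine ⟨h1, ?_, ?_⟩
    · rw [hY, h2 (Fin.natAdd n 0)]
      unfold sg1
      rw [Fin.addCases_right]
      simp
    · rw [hZ, h2 (Fin.natAdd n 1)]
      unfold sg1
      rw [Fin.addCases_right]
      simp
  · rintro ⟨h1, h2, h3⟩
    refine ⟨h1, fun i => ?_⟩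
    refine Fin.addCases (fun a => ?_) (fun b => ?_) i
    · unfold sg1
      rw [Fin.addCases_left, aeval_X]
      rfl
    · unfold sg1
      rw [Fin.addCases_right]
      fin_cases b
      · simpa [← hY] using h2
      · simpa [← hZ] using h3

theorem constr_JS (f : MvPolynomial (Fin n) k) : Constr (JS (N := N) f) := by
  unfold JS
  refine Constr.and (Constr.allLe N fun j _ => ?_)
    (Constr.and (Constr.eqz (isPF_Yc 0)) (Constr.eqz (isPF_Zc 0)))
  refine Constr.eq (IsPA.aeval (fun i z => arc z i) (fun i => isPA_arc i) (addyz f) j) ?_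
  split_ifs
  · exact IsPF.one
  · exact IsPF.zero

theorem Yc_jw (l : AlgebraicClosure k) (w : Pt k (Fin (n + 2) × Fin (N + 1))) (j : ℕ) :
    Yc (dact (jw (n + 2) N) l w) j = l ^ j * Yc w j := Yc_dact (fun _ => rfl) l w j

theorem Zc_jw (l : AlgebraicClosure k) (w : Pt k (Fin (n + 2) × Fin (N + 1))) (j : ℕ) :
    Zc (dact (jw (n + 2) N) l w) j = l ^ j * Zc w j := by
  rw [Zc_dact (c := (j : ℤ)) l w j (fun _ => rfl), zpow_natCast]

theorem stable_JS (f : MvPolynomial (Fin n) k) (l : AlgebraicClosure k) (hl : l ^ N = 1)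
    (w : Pt k (Fin (n + 2) × Fin (N + 1))) (hw : w ∈ JS (N := N) f) :
    dact (jw (n + 2) N) l w ∈ JS (N := N) f := by
  obtain ⟨h1, h2, h3⟩ := hw
  refine ⟨fun j hj => ?_, by rw [Yc_jw, h2, mul_zero], by rw [Zc_jw, h3, mul_zero]⟩
  have e1 : arc (dact (jw (n + 2) N) l w) = fun i => PowerSeries.rescale l (arc w i) :=
    funext fun i => arc_dact l w i
  rw [e1, aeval_rescale, PowerSeries.coeff_rescale, h1 j hj]
  split_ifs with h
  · rw [h, hl, one_mul]
  · rw [mul_zero]

theorem Fc_JS (f : MvPolynomial (Fin n) k) (hN : 1 ≤ N)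
    (w : Pt k (Fin (n + 2) × Fin (N + 1))) (hw : w ∈ JS (N := N) f) : Fc f w 0 = 0 := by
  obtain ⟨h1, h2, h3⟩ := hw
  have h4 := h1 0 (by omega)
  have h5 := coeff_big f 0 0 w (fun j hj => absurd hj (Nat.not_lt_zero j))
  rw [Nat.add_zero] at h5
  rw [h5, if_neg (by omega)] at h4
  rw [hh_eq, h3, mul_zero, zero_add] at h4
  unfold bb at h4
  simpa using h4

/-- the jets with `ord y ≥ i` -/
def Sge (f : MvPolynomial (Fin n) k) (i : ℕ) : Set (Pt k (Fin (n + 2) × Fin (N + 1))) :=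
  {w | w ∈ JS (N := N) f ∧ ∀ j < i, Yc w j = 0}

/-- the jets with `ord y = i` -/
def Seq (f : MvPolynomial (Fin n) k) (i : ℕ) : Set (Pt k (Fin (n + 2) × Fin (N + 1))) :=
  {w | w ∈ JS (N := N) f ∧ (∀ j < i, Yc w j = 0) ∧ Yc w i ≠ 0}

theorem valid_Sge (f : MvPolynomial (Fin n) k) (hN : 1 ≤ N) (i : ℕ) :
    Valid f (Sge (N := N) f i) (jw (n + 2) N) N (jbs (hh1 n) N) := by
  refine mk_valid f (by omega) (fun _ _ => rfl) ?_ ?_ (fun w hw => Fc_JS f hN w hw.1)
  · unfold Sge
    exact Constr.and (constr_JS f) (Constr.allLt _ fun j _ => Constr.eqz (isPF_Yc j))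
  · intro l hl w hw
    refine ⟨stable_JS f l hl w hw.1, fun j hj => ?_⟩
    rw [Yc_jw, hw.2 j hj, mul_zero]

theorem valid_Seq (f : MvPolynomial (Fin n) k) (hN : 1 ≤ N) (i : ℕ) :
    Valid f (Seq (N := N) f i) (jw (n + 2) N) N (jbs (hh1 n) N) := by
  refine mk_valid f (by omega) (fun _ _ => rfl) ?_ ?_ (fun w hw => Fc_JS f hN w hw.1)
  · unfold Seq
    exact Constr.and (constr_JS f) (Constr.and (Constr.allLt _ fun j _ => Constr.eqz (isPF_Yc j))
      (Constr.eqz (isPF_Yc i)).not)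
  · intro l hl w hw
    have hl0 : l ≠ 0 := Pool.Agent.W375.MT.ne_zero_of_pow hN hl
    refine ⟨stable_JS f l hl w hw.1, fun j hj => ?_, ?_⟩
    · rw [Yc_jw, hw.2.1 j hj, mul_zero]
    · rw [Yc_jw]
      exact mul_ne_zero (pow_ne_zero _ hl0) hw.2.2

theorem Sge_succ (f : MvPolynomial (Fin n) k) (i : ℕ) :
    Sge (N := N) f i = Seq (N := N) f i ∪ Sge (N := N) f (i + 1) := by
  ext w
  constructor
  · rintro ⟨h1, h2⟩
    by_cases h : Yc w i = 0
    · right
      refine ⟨h1, fun j hj => ?_⟩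
      rcases Nat.lt_succ_iff_lt_or_eq.1 hj with h3 | h3
      · exact h2 j h3
      · rw [h3]
        exact h
    · left
      exact ⟨h1, h2, h⟩
  · rintro (⟨h1, h2, -⟩ | ⟨h1, h2⟩)
    · exact ⟨h1, h2⟩
    · exact ⟨h1, fun j hj => h2 j (by omega)⟩

theorem Sge_disj (f : MvPolynomial (Fin n) k) (i : ℕ) :
    Disjoint (Seq (N := N) f i) (Sge (N := N) f (i + 1)) := by
  rw [Set.disjoint_left]
  rintro w ⟨-, -, h1⟩ ⟨-, h2⟩
  exact h1 (h2 i (Nat.lt_succ_self i))

theorem Sge_sum {f : MvPolynomial (Fin n) k} {R : Type} [CommRing R] (M : EMeas f R)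
    (hN : 1 ≤ N) : ∀ m, M.χ _ (Sge (N := N) f 1) (jw (n + 2) N) N (jbs (hh1 n) N) =
      ∑ i ∈ Finset.Ico 1 (m + 1), M.χ _ (Seq (N := N) f i) (jw (n + 2) N) N (jbs (hh1 n) N) +
        M.χ _ (Sge (N := N) f (m + 1)) (jw (n + 2) N) N (jbs (hh1 n) N) := by
  intro m
  induction m with
  | zero => simp
  | succ m ih =>
    rw [ih, Finset.sum_Ico_succ_top (by omega : 1 ≤ m + 1), add_assoc, Sge_succ f (m + 1),
      M.add _ _ _ _ _ (valid_Seq f hN (m + 1)) (valid_Sge f hN (m + 1 + 1))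
        (Sge_disj f (m + 1))]

theorem Seq_top (f : MvPolynomial (Fin n) k) (i q : ℕ) (hN : N = i + q) (hi : 1 ≤ i)
    (hq : 1 ≤ q) : Seq (N := N) f i = StE f i q (q + 1) := by
  ext w
  constructor
  · rintro ⟨⟨h1, h2, h3⟩, h4, h5⟩
    refine ⟨⟨?_, h4, h5, h3⟩, ?_⟩
    · intro j hj
      rcases Nat.lt_succ_iff_lt_or_eq.1 hj with h6 | h6
      · rw [← coeff_small f i j w h4 h6, h1 j (by omega), if_neg (by omega)]
      · have h7 := coeff_big f i 0 w h4
        rw [Nat.add_zero, h1 i (by omega), if_neg (by omega), hh_eq, h3, mul_zero, zero_add] at h7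
        unfold bb at h7
        rw [h6]
        simpa using h7.symm
    · intro l hl hl1
      rw [if_pos hl, ← coeff_big f i l w h4, h1 (i + l) (by omega)]
      unfold dl
      by_cases h6 : l = q
      · rw [if_pos (by omega), if_pos h6, sub_self]
      · rw [if_neg (by omega), if_neg h6, sub_self]
  · rintro ⟨⟨h1, h2, h3, h4⟩, h5⟩
    refine ⟨⟨?_, h2 0 (by omega), h4⟩, h2, h3⟩
    intro j hj
    by_cases hji : j < i
    · rw [coeff_small f i j w h2 hji, h1 j (by omega), if_neg (by omega)]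
    · obtain ⟨l, rfl⟩ := Nat.exists_eq_add_of_le (not_lt.1 hji)
      rw [coeff_big f i l w h2]
      rcases Nat.eq_zero_or_pos l with rfl | hl
      · rw [hh_eq, h4, mul_zero, zero_add]
        unfold bb
        rw [Finset.range_zero, Finset.sum_empty, add_zero, Nat.add_zero, h1 i (by omega),
          if_neg (by omega)]
      · have h6 := h5 l (by omega) hl
        rw [if_pos (by omega)] at h6
        rw [sub_eq_zero.1 h6]
        unfold dl
        by_cases h7 : l = q
        · rw [if_pos h7, if_pos (by omega)]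
        · rw [if_neg h7, if_neg (by omega)]

theorem card_F1' (i q : ℕ) : (F1 n N i q).card = (N - i) + (N - q) := by
  rw [F1, Finset.card_union_of_disjoint, Finset.card_image_of_injective,
    Finset.card_image_of_injective, card_gt, card_gt]
  · intro a b h
    exact (Prod.ext_iff.1 h).2
  · intro a b h
    exact (Prod.ext_iff.1 h).2
  · rw [Finset.disjoint_left]
    intro p hp hp'
    obtain ⟨a, _, rfl⟩ := Finset.mem_image.1 hp
    obtain ⟨b, _, h⟩ := Finset.mem_image.1 hp'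
    exact natAdd01 (Prod.ext_iff.1 h).1.symm

theorem valid_Tl (f : MvPolynomial (Fin n) k) (i : ℕ) (hi : 1 ≤ i) (hN : 1 ≤ N) :
    Valid f (TlE f i N) (jw n N) N (jb n N) where
  constr := Constr.allLt _ fun j _ => Constr.eqz
      (IsPA.aeval (fun i z => arc z i) (fun i => isPA_arc i) f j)
  pos := hN
  stable := fun l hl z hz j hj => by
    have h1 : arc (dact (jw n N) l z) = fun i => PowerSeries.rescale l (arc z i) :=
      funext fun i => arc_dact l z i
    rw [h1, aeval_rescale, PowerSeries.coeff_rescale, hz j hj, mul_zero]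
  base := fun z hz => by
    have h1 := hz 0 (by omega)
    rw [Pool.Agent.W375.MT.coeff_zero_aeval] at h1
    rw [← h1]
    congr 2
  inv := fun i j h => by
    rw [jb, Option.some.injEq] at h
    rw [← h]
    rfl

theorem chi_Seq {f : MvPolynomial (Fin n) k} {R : Type} [CommRing R] (M : EMeas f R)
    (i : ℕ) (hi : 1 ≤ i) (hiN : i < N) :
    M.χ _ (Seq (N := N) f i) (jw (n + 2) N) N (jbs (hh1 n) N) =
      (M.L - 1) * M.L ^ N * M.χ _ (TlE f (i + 1) N) (jw n N) N (jb n N) := by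
  classical
  obtain ⟨q, hN⟩ := Nat.exists_eq_add_of_le hiN.le
  have hi1 : i < N + 1 := by omega
  rw [Seq_top f i q hN hi (by omega), ← rt_top i q, StE_all M i q hN hi q le_rfl]
  set F0 : Finset (Fin (n + 2) × Fin (N + 1)) := {(Fin.natAdd n 0, ⟨i, hi1⟩)} with hF0
  have e1 : StE (N := N) f i q 1 = Pr (TlE f (i + 1) N) (F0 ∪ F1 n N i q) ∩
      {w | ∀ p ∈ F0, w p ≠ 0} := by
    ext w
    constructor
    · rintro ⟨⟨h1, h2, h3, h4⟩, h5⟩
      refine ⟨⟨h1, ?_⟩, ?_⟩
      · intro b j hb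
        rw [Finset.mem_union, not_or, hF0, Finset.mem_singleton, mem_F1] at hb
        obtain ⟨hb1, hb2⟩ := hb
        rcases (by omega : b = 0 ∨ b = 1) with rfl | rfl
        · have h6 : (j : ℕ) < i := by
            rcases lt_trichotomy (j : ℕ) i with h | h | h
            · exact h
            · exact (hb1 (by rw [show j = ⟨i, hi1⟩ from Fin.ext h])).elim
            · exact absurd (Or.inl ⟨rfl, h⟩) hb2
          have h7 := h2 j h6
          rwa [Yc_of_lt w j j.2] at h7
        · have h6 : (j : ℕ) ≤ q := by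
            by_contra h
            exact hb2 (Or.inr ⟨rfl, not_le.1 h⟩)
          have h7 : Zc w j = 0 := by
            rcases Nat.eq_zero_or_pos (j : ℕ) with h | h
            · rw [h]
              exact h4
            · have h8 := h5 j (by omega) h
              rwa [if_neg (by omega)] at h8
          rwa [Zc_of_lt w j j.2] at h7
      · intro p hp
        rw [hF0, Finset.mem_singleton] at hp
        rw [hp, ← Yc_of_lt w i hi1]
        exact h3
    · rintro ⟨⟨h1, h2⟩, h3⟩
      have hy : ∀ j < i, Yc w j = 0 := by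
        intro j hj
        rw [Yc_of_lt w j (by omega)]
        refine h2 0 _ ?_
        rw [Finset.mem_union, not_or, hF0, Finset.mem_singleton, mem_F1]
        refine ⟨fun h => ?_, ?_⟩
        · have h4 := congrArg Fin.val (Prod.ext_iff.1 h).2
          simp only at h4
          omega
        · rintro (⟨-, h⟩ | ⟨h, -⟩)
          · simp only at h
            omega
          · exact natAdd01 h
      have hz : ∀ j < q + 1, Zc w j = 0 := by
        intro j hj
        rw [Zc_of_lt w j (by omega)]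
        refine h2 1 _ ?_
        rw [Finset.mem_union, not_or, hF0, Finset.mem_singleton, mem_F1]
        refine ⟨fun h => ?_, ?_⟩
        · exact natAdd01 (Prod.ext_iff.1 h).1.symm
        · rintro (⟨h, -⟩ | ⟨-, h⟩)
          · exact natAdd01 h.symm
          · simp only at h
            omega
      refine ⟨⟨h1, hy, ?_, hz 0 (by omega)⟩, ?_⟩
      · rw [Yc_of_lt w i hi1]
        exact h3 _ (by rw [hF0, Finset.mem_singleton])
      · intro l hl hl1
        rw [if_neg (by omega)]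
        exact hz l hl
  have hd : Disjoint F0 (F1 n N i q) := by
    rw [Finset.disjoint_left]
    intro p hp hp'
    rw [hF0, Finset.mem_singleton] at hp
    rw [mem_F1, hp] at hp'
    rcases hp' with ⟨-, h'⟩ | ⟨h', -⟩
    · simp only at h'
      omega
    · exact natAdd01 h'
  have hF : ∀ (a : Fin n) (j : Fin (N + 1)), (Fin.castAdd 2 a, j) ∉ F0 ∪ F1 n N i q := by
    intro a j h
    rw [Finset.mem_union, hF0, Finset.mem_singleton, mem_F1] at h
    rcases h with h | ⟨h, -⟩ | ⟨h, -⟩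
    · exact castAdd_ne _ _ (Prod.ext_iff.1 h).1
    · exact castAdd_ne _ _ h
    · exact castAdd_ne _ _ h
  rw [e1, pr_chi M (valid_Tl f (i + 1) (by omega) (by omega)) F0 (F1 n N i q) hd hF
    (rt_x i q 1), card_F1', hF0, Finset.card_singleton, pow_one]
  have h9 : N - i + (N - q) = N := by omega
  rw [h9]
  ring

theorem chi_last {f : MvPolynomial (Fin n) k} {R : Type} [CommRing R] (M : EMeas f R)
    (hN : 1 ≤ N) :
    M.χ _ (Sge (N := N) f N) (jw (n + 2) N) N (jbs (hh1 n) N) =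
      M.L ^ (N + 1) * M.χ _ (JetE f N) (jw n N) N (jb n N) := by
  classical
  have e1 : Sge (N := N) f N = Pr (JetE f N) (∅ ∪ F1 n N (N - 1) 0) ∩
      {w | ∀ p ∈ (∅ : Finset (Fin (n + 2) × Fin (N + 1))), w p ≠ 0} := by
    ext w
    constructor
    · rintro ⟨⟨h1, h2, h3⟩, h4⟩
      refine ⟨⟨?_, ?_⟩, fun p hp => absurd hp (Finset.notMem_empty p)⟩
      · intro j hj
        change Fc f w j = _
        rw [← h1 j hj]
        rcases Nat.lt_or_eq_of_le hj with h5 | h5
        · rw [coeff_small f N j w h4 h5]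
        · have h6 := coeff_big f N 0 w h4
          rw [Nat.add_zero] at h6
          rw [h5, h6, hh_eq, h3, mul_zero, zero_add]
          unfold bb
          rw [Finset.range_zero, Finset.sum_empty, add_zero, Nat.add_zero]
      · intro b j hb
        rw [Finset.empty_union, mem_F1] at hb
        rcases (by omega : b = 0 ∨ b = 1) with rfl | rfl
        · have h6 : (j : ℕ) < N := by
            by_contra h
            exact hb (Or.inl ⟨rfl, by simp only; omega⟩)
          have h7 := h4 j h6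
          rwa [Yc_of_lt w j j.2] at h7
        · have h6 : (j : ℕ) = 0 := by
            by_contra h
            exact hb (Or.inr ⟨rfl, by simp only; omega⟩)
          have h7 : Zc w j = 0 := by
            rw [h6]
            exact h3
          rwa [Zc_of_lt w j j.2] at h7
    · rintro ⟨⟨h1, h2⟩, -⟩
      have hy : ∀ j < N, Yc w j = 0 := by
        intro j hj
        rw [Yc_of_lt w j (by omega)]
        refine h2 0 _ ?_
        rw [Finset.empty_union, mem_F1]
        rintro (⟨-, h⟩ | ⟨h, -⟩)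
        · simp only at h
          omega
        · exact natAdd01 h
      have hz : Zc w 0 = 0 := by
        rw [Zc_of_lt w 0 (by omega)]
        refine h2 1 _ ?_
        rw [Finset.empty_union, mem_F1]
        rintro (⟨h, -⟩ | ⟨-, h⟩)
        · exact natAdd01 h.symm
        · simp only at h
          omega
      refine ⟨⟨?_, hy 0 (by omega), hz⟩, hy⟩
      intro j hj
      have h3 : Fc f w j = if j = N then 1 else 0 := h1 j hj
      rw [← h3]
      rcases Nat.lt_or_eq_of_le hj with h5 | h5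
      · rw [coeff_small f N j w hy h5]
      · have h6 := coeff_big f N 0 w hy
        rw [Nat.add_zero] at h6
        rw [h5, h6, hh_eq, hz, mul_zero, zero_add]
        unfold bb
        rw [Finset.range_zero, Finset.sum_empty, add_zero, Nat.add_zero]
  have hF : ∀ (a : Fin n) (j : Fin (N + 1)),
      (Fin.castAdd 2 a, j) ∉ (∅ : Finset (Fin (n + 2) × Fin (N + 1))) ∪ F1 n N (N - 1) 0 := by
    intro a j h
    rw [Finset.empty_union, mem_F1] at h
    rcases h with ⟨h, -⟩ | ⟨h, -⟩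
    · exact castAdd_ne _ _ h
    · exact castAdd_ne _ _ h
  rw [e1, pr_chi M (jetValid f N hN) ∅ (F1 n N (N - 1) 0) (Finset.disjoint_empty_left _) hF
    (fun _ _ => rfl), card_F1', Finset.card_empty, pow_zero, mul_one]
  have h9 : N - (N - 1) + (N - 0) = N + 1 := by omega
  rw [h9]
  exact mul_comm _ _

end EHY1aux

open EHY1aux in
/-- (EHY1) -/
theorem ehy1 : Pool.Agent.N101.CB.TaskEHY1 := by
  intro k _ _ n f R _ M N hN
  rw [JetS_eq]
  have h0 : JS (N := N) f = Sge (N := N) f 1 := by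
    ext w
    constructor
    · intro hw
      refine ⟨hw, fun j hj => ?_⟩
      obtain rfl : j = 0 := by omega
      exact hw.2.1
    · intro hw
      exact hw.1
  obtain ⟨m, rfl⟩ : ∃ m, N = m + 1 := ⟨N - 1, by omega⟩
  rw [h0, Sge_sum M hN m, chi_last M hN]
  congr 1
  have h1 : ∀ i ∈ Finset.Ico 1 (m + 1),
      M.χ _ (Seq (N := m + 1) f i) (Pool.Agent.W428.MOT.jw (n + 2) (m + 1)) (m + 1)
        (jbs (hh1 n) (m + 1)) =
      (M.L - 1) * M.L ^ (m + 1) * M.χ _ (TlE f (i + 1) (m + 1))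
        (Pool.Agent.W428.MOT.jw n (m + 1)) (m + 1) (Pool.Agent.W428.MOT.jb n (m + 1)) := by
    intro i hi
    rw [Finset.mem_Ico] at hi
    exact chi_Seq M i hi.1 hi.2
  rw [Finset.sum_congr rfl h1, ← Finset.mul_sum]
  congr 1
  have h2 : Finset.Icc 2 (m + 1) = Finset.Ico (1 + 1) (m + 1 + 1) := by
    ext a
    rw [Finset.mem_Icc, Finset.mem_Ico]
    omega
  rw [h2]
  exact Finset.sum_Ico_add' (fun j => M.χ _ (TlE f j (m + 1))
    (Pool.Agent.W428.MOT.jw n (m + 1)) (m + 1) (Pool.Agent.W428.MOT.jb n (m + 1))) 1 (m + 1) 1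

end Pool.Agent.N101.CB
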