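import Pool.Agent.N101.CB.Stm
import Pool.Agent.W428.MOT.EStm

/-!
# Project CUB: statements of the parts for the equivariant zeta functions
-/

set_option autoImplicit false

namespace Pool.Agent.N101.CB

open MvPolynomial Pool.Agent.W428.MOT
open Pool.Agent.Y229.MS (addyz)

section
variable {k : Type} [Field k] {n m : ℕ}

/-- The section `x ↦ (σ_i(x))_i` of the projection of `k̄ ^ m` onto the coordinates `h j`, `j = 1, …, n`,
with `F(σ(x)) = f(x)`. -/
structure IsSec (f : MvPolynomial (Fin n) k) (F : MvPolynomial (Fin m) k) (h : Fin n → Fin m)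
    (σ : Fin m → MvPolynomial (Fin n) k) : Prop where
  sec : ∀ j, σ (h j) = X j
  eq : aeval σ F = f

/-- the jets `X_{N,1}` of `F` with origin on the section -/
def JetS (F : MvPolynomial (Fin m) k) (h : Fin n → Fin m) (σ : Fin m → MvPolynomial (Fin n) k)
    (N : ℕ) : Set (Pt k (Fin m × Fin (N + 1))) :=
  {z | z ∈ JetE F N ∧ ∀ i, z (i, 0) = aeval (fun j => z (h j, 0)) (σ i)}

/-- the base point `(z (h j, 0))_j` -/
def jbs (h : Fin n → Fin m) (N : ℕ) (j : Fin n) : Option (Fin m × Fin (N + 1)) := some (h j, 0)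

/-- the `N`-jets with `f = 0 mod t ^ j` -/
def TlE (f : MvPolynomial (Fin n) k) (j N : ℕ) : Set (Pt k (Fin n × Fin (N + 1))) :=
  {z | ∀ l < j, PowerSeries.coeff l (aeval (arc z) f) = 0}

/-- the section `(x, -v(x), u(x))` -/
noncomputable def sg1 (u v : MvPolynomial (Fin n) k) : Fin (n + 2) → MvPolynomial (Fin n) k :=
  Fin.addCases X ![-v, u]

/-- the section `(x, -v(x), u(x), 0, 0)` -/
noncomputable def sg2 (u v : MvPolynomial (Fin n) k) : Fin (n + 2 + 2) → MvPolynomial (Fin n) k :=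
  Fin.addCases (sg1 u v) ![0, 0]

/-- the coordinates `x` -/
def hh1 (n : ℕ) (j : Fin n) : Fin (n + 2) := Fin.castAdd 2 j

/-- the coordinates `x` -/
def hh2 (n : ℕ) (j : Fin n) : Fin (n + 2 + 2) := Fin.castAdd 2 (Fin.castAdd 2 j)

end

/-- (EPB) the pull-back by a section -/
def TaskEPB : Prop :=
  ∀ (k : Type) [Field k] [CharZero k] {n m : ℕ} (f : MvPolynomial (Fin n) k)
    (F : MvPolynomial (Fin m) k) (h : Fin n → Fin m) (σ : Fin m → MvPolynomial (Fin n) k),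
    IsSec f F h σ → ∃ φ : K0Mu F →+* K0Mu f, φ (LMu F) = LMu f ∧
      ∀ (N : ℕ) (hN : 0 < N), ∃ hV : Valid f (JetS F h σ N) (jw m N) N (jbs h N),
        φ (K0Mu.mk (diagVar (jetValid F N hN))) = K0Mu.mk (diagVar hV)

/-- (EPSI) the automorphism `t ↦ t + v`, `w ↦ w - u` -/
def TaskEPSI : Prop :=
  ∀ (k : Type) [Field k] [CharZero k] {n : ℕ} (f : MvPolynomial (Fin n) k) (R : Type) [CommRing R]
    (M : EMeas f R) (u v : MvPolynomial (Fin n) k) (N : ℕ), 1 ≤ N →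
    M.χ _ (JetS (stp f u v) (hh1 n) (sg1 u v) N) (jw (n + 2) N) N (jbs (hh1 n) N) =
      M.χ _ (JetS (addyz f) (hh1 n) (sg1 0 0) N) (jw (n + 2) N) N (jbs (hh1 n) N) ∧
    M.χ _ (JetS (addyz (stp f u v)) (hh2 n) (sg2 u v) N) (jw (n + 2 + 2) N) N (jbs (hh2 n) N) =
      M.χ _ (JetS (addyz (addyz f)) (hh2 n) (sg2 0 0) N) (jw (n + 2 + 2) N) N (jbs (hh2 n) N)

/-- (EHY1) the jets of `f + y z` with `y(0) = z(0) = 0` -/
def TaskEHY1 : Prop :=
  ∀ (k : Type) [Field k] [CharZero k] {n : ℕ} (f : MvPolynomial (Fin n) k) (R : Type) [CommRing R]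
    (M : EMeas f R) (N : ℕ), 1 ≤ N →
    M.χ _ (JetS (addyz f) (hh1 n) (sg1 0 0) N) (jw (n + 2) N) N (jbs (hh1 n) N) =
      (M.L - 1) * M.L ^ N * ∑ j ∈ Finset.Icc 2 N, M.χ _ (TlE f j N) (jw n N) N (jb n N) +
        M.L ^ (N + 1) * M.χ _ (JetE f N) (jw n N) N (jb n N)

/-- (EHY2) the jets of `f + y z + y' z'` with `y(0) = z(0) = y'(0) = z'(0) = 0` -/
def TaskEHY2 : Prop :=
  ∀ (k : Type) [Field k] [CharZero k] {n : ℕ} (f : MvPolynomial (Fin n) k) (R : Type) [CommRing R]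
    (M : EMeas f R) (N : ℕ), 1 ≤ N →
    M.χ _ (JetS (addyz (addyz f)) (hh2 n) (sg2 0 0) N) (jw (n + 2 + 2) N) N (jbs (hh2 n) N) =
      (M.L ^ 2 - 1) * ∑ j ∈ Finset.Icc 2 N, M.L ^ (3 * N + 1 - j) *
        M.χ _ (TlE f j N) (jw n N) N (jb n N) +
        M.L ^ (2 * N + 2) * M.χ _ (JetE f N) (jw n N) N (jb n N)

/-- (ETT) the class of the jets with `f = 0 mod t ^ j` does not depend on the level -/
def TaskETT : Prop :=
  ∀ (k : Type) [Field k] [CharZero k] {n : ℕ} (f : MvPolynomial (Fin n) k) (R : Type) [CommRing R]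
    (M : EMeas f R) (j N : ℕ), 1 ≤ j → j ≤ N →
    M.χ _ (TlE f j (N + 1)) (jw n (N + 1)) (N + 1) (jb n (N + 1)) =
      M.χ _ (TlE f j N) (jw n N) N (jb n N) * M.L ^ n

end Pool.Agent.N101.CB
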