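import Mathlib
import Pool.Agent.N101.CB.StmQ
import Pool.Agent.W230.ME.Free

/-!
# (EHY2) the equivariant class of the jets of `f + y z + y' z'`
-/

set_option autoImplicit false

namespace Pool.Agent.N101.CB.EHY2aux

open MvPolynomial Pool.Agent.W428.MOT
open Pool.Agent.Y229.MS (addyz)

section
variable {k : Type} [Field k] {n N : ℕ}

/-! ### Free coordinates -/

/-- the `x`-part -/
def xp (z : Pt k (Fin (n + 2 + 2) × Fin (N + 1))) : Pt k (Fin n × Fin (N + 1)) :=
  fun p => z (hh2 n p.1, p.2)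

theorem hh2_val (j : Fin n) : (hh2 n j).val = j.val := rfl

theorem arc_xp (z : Pt k (Fin (n + 2 + 2) × Fin (N + 1))) (j : Fin n) :
    arc (xp z) j = arc z (hh2 n j) := rfl

/-- jets with `x`-part in `W` and zeros below the bounds `b` -/
def SB (W : Set (Pt k (Fin n × Fin (N + 1)))) (b : Fin (n + 2 + 2) → ℕ) :
    Set (Pt k (Fin (n + 2 + 2) × Fin (N + 1))) :=
  {z | xp z ∈ W ∧ ∀ p : Fin (n + 2 + 2) × Fin (N + 1), n ≤ p.1.val → p.2.val < b p.1 → z p = 0}

theorem constr_SB {W : Set (Pt k (Fin n × Fin (N + 1)))} (hW : Constr W)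
    (b : Fin (n + 2 + 2) → ℕ) : Constr (SB W b) := by
  have h1 : Constr {z : Pt k (Fin (n + 2 + 2) × Fin (N + 1)) | xp z ∈ W} :=
    hW.preimage xp fun p => IsPF.coord (hh2 n p.1, p.2)
  have h2 : Constr {z : Pt k (Fin (n + 2 + 2) × Fin (N + 1)) |
      ∀ p : Fin (n + 2 + 2) × Fin (N + 1), n ≤ p.1.val → p.2.val < b p.1 → z p = 0} := by
    refine Constr.all fun p => ?_
    refine Constr.imp' fun _ => ?_
    refine Constr.imp' fun _ => ?_
    exact Constr.eqz (IsPF.coord p)
  exact Constr.and h1 h2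

theorem xp_dact (ρ : Fin (n + 2 + 2) × Fin (N + 1) → ℤ) (hρ : ∀ j l, ρ (hh2 n j, l) = ((l : ℕ) : ℤ))
    (l : AlgebraicClosure k) (z : Pt k (Fin (n + 2 + 2) × Fin (N + 1))) :
    xp (dact ρ l z) = dact (jw n N) l (xp z) := by
  funext p
  have h1 : ρ (hh2 n p.1, p.2) = jw n N p := hρ p.1 p.2
  show l ^ ρ (hh2 n p.1, p.2) * z (hh2 n p.1, p.2) = l ^ jw n N p * z (hh2 n p.1, p.2)
  rw [h1]

theorem cbase_xp (z : Pt k (Fin (n + 2 + 2) × Fin (N + 1))) :
    cbase (jbs (hh2 n) N) z = cbase (jb n N) (xp z) := by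
  funext i
  rfl

theorem valid_SB {f : MvPolynomial (Fin n) k} {W : Set (Pt k (Fin n × Fin (N + 1)))} {d : ℕ}
    (hW : Valid f W (jw n N) d (jb n N)) (b : Fin (n + 2 + 2) → ℕ)
    (ρ : Fin (n + 2 + 2) × Fin (N + 1) → ℤ) (hρ : ∀ j l, ρ (hh2 n j, l) = ((l : ℕ) : ℤ)) :
    Valid f (SB W b) ρ d (jbs (hh2 n) N) := by
  refine ⟨constr_SB hW.constr b, hW.pos, ?_, ?_, ?_⟩
  · intro l hl z hz
    refine ⟨?_, fun p h1 h2 => ?_⟩
    · rw [xp_dact ρ hρ]
      exact hW.stable l hl _ hz.1
    · show l ^ ρ p * z p = 0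
      rw [hz.2 p h1 h2, mul_zero]
  · intro z hz
    rw [cbase_xp]
    exact hW.base _ hz.1
  · intro i j h
    have h1 : j = (hh2 n i, 0) := by
      simp only [jbs, Option.some.injEq] at h
      exact h.symm
    rw [h1, hρ]
    rfl

theorem valid_ne {f : MvPolynomial (Fin n) k} {ι : Type} {S : Set (Pt k ι)} {d : ℕ}
    {ρ : ι → ℤ} {β : Fin n → Option ι} (hS : Valid f S ρ d β) (F0 : Finset ι) :
    Valid f (S ∩ {z | ∀ p ∈ F0, z p ≠ 0}) ρ d β where
  constr := hS.constr.inter (Constr.ballFinset F0 fun p _ => (Constr.eqz (IsPF.coord p)).compl)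
  pos := hS.pos
  stable := fun l hl z hz => by
    refine ⟨hS.stable l hl z hz.1, fun p hp => ?_⟩
    have hl0 : l ≠ 0 := by
      rintro rfl
      rw [zero_pow hS.pos.ne'] at hl
      exact zero_ne_one hl
    exact mul_ne_zero (zpow_ne_zero _ hl0) (hz.2 p hp)
  base := fun z hz => hS.base z hz.1
  inv := hS.inv

/-- the free coordinates -/
def FS (n N : ℕ) (b : Fin (n + 2 + 2) → ℕ) : Finset (Fin (n + 2 + 2) × Fin (N + 1)) :=
  Finset.univ.filter fun p => n ≤ p.1.val ∧ b p.1 ≤ p.2.val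

theorem iso_SB {f : MvPolynomial (Fin n) k} {R : Type} [CommRing R] (M : EMeas f R)
    {W : Set (Pt k (Fin n × Fin (N + 1)))} {d : ℕ}
    (hW : Valid f W (jw n N) d (jb n N))
    (ρ : Fin (n + 2 + 2) × Fin (N + 1) → ℤ) (hρ : ∀ j l, ρ (hh2 n j, l) = ((l : ℕ) : ℤ)) :
    M.χ _ (SB W fun _ => N + 1) ρ d (jbs (hh2 n) N) = M.χ _ W (jw n N) d (jb n N) := by
  refine M.iso (SB W fun _ => N + 1) W ρ (jw n N) d d _ _ (valid_SB hW _ ρ hρ) hW
    xp (fun w p => if h : p.1.val < n then w (⟨p.1.val, h⟩, p.2) else 0)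
    (regularOn_poly (fun _ => IsPF.coord _) _) (regularOn_poly (fun p => ?_) _) ?_ ?_ ?_ ?_ ?_ ?_
  · by_cases h : p.1.val < n
    · simp only [h, dif_pos]
      exact IsPF.coord _
    · simp only [h, dif_neg, not_false_eq_true]
      exact IsPF.zero
  · exact fun z hz => hz.1
  · intro w hw
    refine ⟨?_, fun p h1 _ => ?_⟩
    · have : xp (fun p : Fin (n + 2 + 2) × Fin (N + 1) =>
          if h : p.1.val < n then w (⟨p.1.val, h⟩, p.2) else 0) = w := by
        funext p
        exact dif_pos p.1.isLt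
      rw [this]
      exact hw
    · simp only [not_lt.2 h1, dif_neg, not_false_eq_true]
  · intro z hz
    funext p
    by_cases h : p.1.val < n
    · simp only [h, dif_pos, xp]
      congr 1
    · simp only [h, dif_neg, not_false_eq_true]
      exact (hz.2 p (not_lt.1 h) p.2.isLt).symm
  · intro w _
    funext p
    exact dif_pos p.1.isLt
  · intro z _
    exact (cbase_xp z).symm
  · intro l _ z _
    exact xp_dact ρ hρ _ z

theorem free {f : MvPolynomial (Fin n) k} {R : Type} [CommRing R] (M : EMeas f R)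
    {W : Set (Pt k (Fin n × Fin (N + 1)))} {d : ℕ}
    (hW : Valid f W (jw n N) d (jb n N)) (b : Fin (n + 2 + 2) → ℕ)
    (F0 : Finset (Fin (n + 2 + 2) × Fin (N + 1))) (h0 : F0 ⊆ FS n N b) :
    M.χ _ (SB W b ∩ {z | ∀ p ∈ F0, z p ≠ 0}) (jw (n + 2 + 2) N) d (jbs (hh2 n) N) =
      M.χ _ W (jw n N) d (jb n N) * (M.L - 1) ^ F0.card *
        M.L ^ ((FS n N b).card - F0.card) := by
  have hx : ∀ j l, (hh2 n j, l) ∉ FS n N b := by
    intro j l h
    have h1 := (Finset.mem_filter.1 h).2.1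
    have h2 : (hh2 n j).val < n := j.isLt
    simp only at h1
    omega
  have key := Pool.Agent.W230.ME.Free.main M (SB W b) (jw (n + 2 + 2) N) d (jbs (hh2 n) N) F0
    (FS n N b \ F0) (fun _ => 0) Finset.disjoint_sdiff
    (valid_SB hW b _ fun _ _ => rfl) (fun i j hij => by
      have h1 : j = (hh2 n i, 0) := by
        simp only [jbs, Option.some.injEq] at hij
        exact hij.symm
      rw [h1]
      exact ⟨fun h => hx _ _ (h0 h), fun h => hx _ _ (Finset.mem_sdiff.1 h).1⟩)
    (fun z w hzw hz => by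
      have h1 : ∀ p, p ∉ FS n N b → w p = z p := fun p hp =>
        hzw p (fun h => hp (h0 h)) (fun h => hp (Finset.mem_sdiff.1 h).1)
      refine ⟨?_, fun p h2 h3 => ?_⟩
      · have h4 : xp w = xp z := funext fun p => h1 _ (hx _ _)
        rw [h4]
        exact hz.1
      · rw [h1 p, hz.2 p h2 h3]
        intro h
        have := (Finset.mem_filter.1 h).2.2
        omega)
  rw [Finset.union_sdiff_of_subset h0] at key
  have e1 : SB W b ∩ {z : Pt k (Fin (n + 2 + 2) × Fin (N + 1)) | ∀ i ∈ FS n N b,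
      z i = algebraMap k _ 0} = SB W fun _ => N + 1 := by
    ext z
    simp only [map_zero]
    constructor
    · rintro ⟨⟨h1, h2⟩, h3⟩
      refine ⟨h1, fun p h4 _ => ?_⟩
      by_cases h5 : p.2.val < b p.1
      · exact h2 p h4 h5
      · exact h3 p (Finset.mem_filter.2 ⟨Finset.mem_univ _, h4, not_lt.1 h5⟩)
    · rintro ⟨h1, h2⟩
      refine ⟨⟨h1, fun p h4 _ => h2 p h4 p.2.isLt⟩, fun p hp => ?_⟩
      exact h2 p (Finset.mem_filter.1 hp).2.1 p.2.isLt
  rw [e1, iso_SB M hW _ (fun j l => by rw [if_neg (hx j l)]; rfl), Finset.card_sdiff_of_subset h0] at key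
  exact key

theorem card_FS (b : Fin (n + 2 + 2) → ℕ) (_hb : ∀ c, b c ≤ N + 1) :
    (FS n N b).card = ∑ c : Fin (n + 2 + 2), if n ≤ c.val then N + 1 - b c else 0 := by
  have h1 : FS n N b = (Finset.univ : Finset (Fin (n + 2 + 2))).biUnion fun c =>
      if n ≤ c.val then ({c} : Finset _) ×ˢ
        ((Finset.univ : Finset (Fin (N + 1))).filter fun l => b c ≤ l.val) else ∅ := by
    ext ⟨c, l⟩
    simp only [FS, Finset.mem_filter, Finset.mem_univ, true_and, Finset.mem_biUnion]
    constructor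
    · rintro ⟨h1, h2⟩
      refine ⟨c, ?_⟩
      rw [if_pos h1]
      simp [h2]
    · rintro ⟨c', h⟩
      split_ifs at h with h3
      · simp only [Finset.mem_product, Finset.mem_singleton, Finset.mem_filter, Finset.mem_univ,
          true_and] at h
        obtain ⟨rfl, h4⟩ := h
        exact ⟨h3, h4⟩
      · simp at h
  rw [h1, Finset.card_biUnion]
  · refine Finset.sum_congr rfl fun c _ => ?_
    split_ifs with h3
    · rw [Finset.card_product, Finset.card_singleton, one_mul]
      have h4 : ((Finset.univ : Finset (Fin (N + 1))).filter fun l => b c ≤ l.val).card =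
          (Finset.Ico (b c) (N + 1)).card := by
        rw [← Finset.card_image_of_injective _ Fin.val_injective]
        congr 1
        ext l
        simp only [Finset.mem_image, Finset.mem_filter, Finset.mem_univ, true_and, Finset.mem_Ico]
        constructor
        · rintro ⟨a, h5, rfl⟩
          exact ⟨h5, a.isLt⟩
        · rintro ⟨h5, h6⟩
          exact ⟨⟨l, h6⟩, h5, rfl⟩
      rw [h4, Nat.card_Ico]
    · rfl
  · intro c _ c' _ hcc
    rw [Function.onFun, Finset.disjoint_left]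
    rintro ⟨a, l⟩ h2 h3
    split_ifs at h2 with h4
    · split_ifs at h3 with h5
      · simp only [Finset.mem_product, Finset.mem_singleton] at h2 h3
        exact hcc (h2.1.symm.trans h3.1)
      · simp at h3
    · simp at h2

/-! ### Power series -/

theorem ord_mul {A : Type} [CommRing A] (P Q : PowerSeries A) (i : ℕ)
    (hP : ∀ l < i, PowerSeries.coeff l P = 0) (hQ : PowerSeries.coeff 0 Q = 0) :
    ∀ j ≤ i, PowerSeries.coeff j (P * Q) = 0 := by
  intro j hj
  rw [PowerSeries.coeff_mul]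
  refine Finset.sum_eq_zero fun x hx => ?_
  have h := Finset.HasAntidiagonal.mem_antidiagonal.1 hx
  rcases lt_or_ge x.1 i with h1 | h1
  · rw [hP _ h1, zero_mul]
  · have h2 : x.2 = 0 := by omega
    rw [h2, hQ, mul_zero]

theorem coeff_congr {A : Type} [CommRing A] (P Q V : PowerSeries A) (m : ℕ)
    (h : ∀ l ≤ m, PowerSeries.coeff l P = PowerSeries.coeff l Q) :
    ∀ l ≤ m, PowerSeries.coeff l (P * V) = PowerSeries.coeff l (Q * V) := by
  intro l hl
  rw [PowerSeries.coeff_mul, PowerSeries.coeff_mul]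
  refine Finset.sum_congr rfl fun x hx => ?_
  have h1 := Finset.HasAntidiagonal.mem_antidiagonal.1 hx
  rw [h _ (by omega)]

/-- the shifted series -/
noncomputable def sh {A : Type} [CommRing A] (i : ℕ) (P : PowerSeries A) : PowerSeries A :=
  PowerSeries.mk fun a => PowerSeries.coeff (a + i) P

theorem sh_mul {A : Type} [CommRing A] (P : PowerSeries A) (i : ℕ)
    (h : ∀ l < i, PowerSeries.coeff l P = 0) : P = PowerSeries.X ^ i * sh i P := by
  ext l
  rw [PowerSeries.coeff_X_pow_mul']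
  split_ifs with h1
  · rw [sh, PowerSeries.coeff_mk, Nat.sub_add_cancel h1]
  · exact h l (not_le.1 h1)

theorem solveA {A : Type} [Field A] (P Q H : PowerSeries A) (i N : ℕ) (hi : i ≤ N)
    (hP : ∀ l < i, PowerSeries.coeff l P = 0) (h0 : PowerSeries.coeff i P ≠ 0)
    (h : ∀ j ≤ N, PowerSeries.coeff j (P * Q) = PowerSeries.coeff j H) :
    ∀ l ≤ N - i, PowerSeries.coeff l Q = PowerSeries.coeff l (sh i H * (sh i P)⁻¹) := by
  have hU : PowerSeries.constantCoeff (sh i P) ≠ 0 := by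
    rw [← PowerSeries.coeff_zero_eq_constantCoeff_apply, sh, PowerSeries.coeff_mk, zero_add]
    exact h0
  have h1 : ∀ l ≤ N - i, PowerSeries.coeff l (sh i P * Q) = PowerSeries.coeff l (sh i H) := by
    intro l hl
    have h2 := h (l + i) (by omega)
    have e : P * Q = PowerSeries.X ^ i * (sh i P * Q) := by
      conv_lhs => rw [sh_mul P i hP]
      ring
    rw [e, PowerSeries.coeff_X_pow_mul', if_pos (by omega), Nat.add_sub_cancel] at h2
    rw [h2, sh, PowerSeries.coeff_mk]
  intro l hl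
  have h2 := coeff_congr _ _ (sh i P)⁻¹ _ h1 l hl
  rw [← h2, mul_comm (sh i P) Q, mul_assoc, PowerSeries.mul_inv_cancel _ hU, mul_one]

theorem solveB {A : Type} [Field A] (P Q H : PowerSeries A) (i N : ℕ)
    (hP : ∀ l < i, PowerSeries.coeff l P = 0) (h0 : PowerSeries.coeff i P ≠ 0)
    (hH : ∀ l < i, PowerSeries.coeff l H = 0)
    (h : ∀ l ≤ N - i, PowerSeries.coeff l Q = PowerSeries.coeff l (sh i H * (sh i P)⁻¹)) :
    ∀ j ≤ N, PowerSeries.coeff j (P * Q) = PowerSeries.coeff j H := by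
  have hU : PowerSeries.constantCoeff (sh i P) ≠ 0 := by
    rw [← PowerSeries.coeff_zero_eq_constantCoeff_apply, sh, PowerSeries.coeff_mk, zero_add]
    exact h0
  intro j hj
  have e : P * Q = PowerSeries.X ^ i * (Q * sh i P) := by
    conv_lhs => rw [sh_mul P i hP]
    ring
  rw [e, PowerSeries.coeff_X_pow_mul']
  split_ifs with h1
  · rw [coeff_congr _ _ (sh i P) _ h (j - i) (by omega), mul_assoc,
      PowerSeries.inv_mul_cancel _ hU, mul_one, sh, PowerSeries.coeff_mk, Nat.sub_add_cancel h1]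
  · exact (hH j (not_le.1 h1)).symm

/-! ### Regularity -/

theorem rf_sum {ι α : Type} {S : Set (Pt k ι)} (s : Finset α) (F : α → Pt k ι → AlgebraicClosure k)
    (h : ∀ a ∈ s, IsRF S (F a)) : IsRF S (fun z => ∑ a ∈ s, F a z) := by
  classical
  induction s using Finset.induction_on with
  | empty =>
    simp only [Finset.sum_empty]
    exact IsPF.zero.isRF S
  | insert a s ha ih =>
    simp only [Finset.sum_insert ha]
    exact (h a (Finset.mem_insert_self _ _)).add (ih fun b hb => h b (Finset.mem_insert_of_mem hb))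

theorem rf_inv {ι : Type} {S : Set (Pt k ι)} (U : Pt k ι → PowerSeries (AlgebraicClosure k))
    (hU : IsPA U) (h0 : ∀ z ∈ S, PowerSeries.coeff 0 (U z) ≠ 0) (j : ℕ) :
    IsRF S (fun z => PowerSeries.coeff j (U z)⁻¹) := by
  induction j using Nat.strong_induction_on with
  | _ j ih =>
    have hc : IsRF S (fun z => (1 : AlgebraicClosure k) / PowerSeries.coeff 0 (U z)) :=
      (IsPF.one.isRF S).div ((hU 0).isRF S) h0
    rcases Nat.eq_zero_or_pos j with hj | hj
    · refine hc.congr fun z _ => ?_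
      rw [PowerSeries.coeff_inv, if_pos hj, one_div, PowerSeries.coeff_zero_eq_constantCoeff_apply]
    · have hs : IsRF S (fun z => ∑ x ∈ Finset.HasAntidiagonal.antidiagonal j,
          if x.2 < j then PowerSeries.coeff x.1 (U z) * PowerSeries.coeff x.2 (U z)⁻¹ else 0) := by
        refine rf_sum _ _ fun x _ => ?_
        split_ifs with h
        · exact ((hU x.1).isRF S).mul (ih x.2 h)
        · exact IsPF.zero.isRF S
      have hm := (IsPF.zero.isRF S).sub (hc.mul hs)
      refine hm.congr fun z _ => ?_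
      rw [PowerSeries.coeff_inv, if_neg hj.ne', one_div,
        PowerSeries.coeff_zero_eq_constantCoeff_apply]
      ring

theorem pa_sh {ι : Type} (i : ℕ) {P : Pt k ι → PowerSeries (AlgebraicClosure k)} (hP : IsPA P) :
    IsPA (fun z => sh i (P z)) := by
  intro j
  simp only [sh, PowerSeries.coeff_mk]
  exact hP (j + i)

/-! ### Jets -/

theorem coeff_arc {m : ℕ} (z : Pt k (Fin m × Fin (N + 1))) (c : Fin m) (l : Fin (N + 1)) :
    PowerSeries.coeff l.val (arc z c) = z (c, l) := by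
  rw [arc, PowerSeries.coeff_mk, dif_pos l.isLt]

theorem arc_congr {m : ℕ} (w w' : Pt k (Fin m × Fin (N + 1))) (c : Fin m)
    (h : ∀ l, w' (c, l) = w (c, l)) : arc w' c = arc w c := by
  ext j
  simp only [arc, PowerSeries.coeff_mk]
  split_ifs with h1
  · exact h _
  · rfl

theorem coeff_zero_aeval (w : Pt k (Fin n × Fin (N + 1))) (g : MvPolynomial (Fin n) k) :
    PowerSeries.coeff 0 (aeval (arc w) g) = aeval (cbase (jb n N) w) g := by
  induction g using MvPolynomial.induction_on with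
  | C a =>
    rw [algHom_C, algHom_C, PowerSeries.algebraMap_apply, PowerSeries.coeff_zero_C]
  | add p q hp hq => rw [map_add, map_add, map_add, hp, hq]
  | mul_X p i hp =>
    have e1 : aeval (arc w) (p * X i) = aeval (arc w) p * arc w i := by
      rw [map_mul, aeval_X]
    have e2 : aeval (cbase (jb n N) w) (p * X i) = aeval (cbase (jb n N) w) p *
          cbase (jb n N) w i := by
      rw [map_mul, aeval_X]
    rw [e1, e2, ← hp]
    simp only [PowerSeries.coeff_zero_eq_constantCoeff_apply, map_mul]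
    congr 1

theorem valid_TlE (f : MvPolynomial (Fin n) k) (j N : ℕ) (hj : 1 ≤ j) (hN : 0 < N) :
    Valid f (TlE f j N) (jw n N) N (jb n N) := by
  refine ⟨?_, hN, ?_, ?_, ?_⟩
  · exact Constr.allLt j fun l _ =>
      Constr.eqz (IsPA.aeval (fun i z => arc z i) (fun i => isPA_arc i) f l)
  · intro l _ z hz a ha
    have h1 : arc (dact (jw n N) l z) = fun i => PowerSeries.rescale l (arc z i) :=
      funext fun i => arc_dact l z i
    rw [h1, aeval_rescale, PowerSeries.coeff_rescale, hz a ha, mul_zero]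
  · intro z hz
    rw [← coeff_zero_aeval]
    exact hz 0 (by omega)
  · intro i j h
    simp only [jb, Option.some.injEq] at h
    rw [← h]
    rfl

theorem valid_union {f : MvPolynomial (Fin n) k} {ι : Type} {S T : Set (Pt k ι)} {d : ℕ}
    {ρ : ι → ℤ} {β : Fin n → Option ι} (hS : Valid f S ρ d β) (hT : Valid f T ρ d β) :
    Valid f (S ∪ T) ρ d β := by
  refine ⟨hS.constr.union hT.constr, hS.pos, ?_, ?_, hS.inv⟩
  · rintro l hl z (hz | hz)
    · exact Or.inl (hS.stable l hl z hz)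
    · exact Or.inr (hT.stable l hl z hz)
  · rintro z (hz | hz)
    · exact hS.base z hz
    · exact hT.base z hz

/-! ### Cells -/

/-- the right side of the equation for `arc z Y * arc z Z` -/
noncomputable def HH (f : MvPolynomial (Fin n) k) (Y' Z' : Fin (n + 2 + 2))
    (z : Pt k (Fin (n + 2 + 2) × Fin (N + 1))) : PowerSeries (AlgebraicClosure k) :=
  PowerSeries.X ^ N - aeval (arc (xp z)) f - arc z Y' * arc z Z'

/-- the jets with `ord Y = i`, `ord Y' ≥ i'` -/
def Cell (F : MvPolynomial (Fin (n + 2 + 2)) k) (N : ℕ) (Y Z Y' Z' : Fin (n + 2 + 2)) (i i' : ℕ) :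
    Set (Pt k (Fin (n + 2 + 2) × Fin (N + 1))) :=
  {z | z ∈ JetE F N ∧ z (Z, 0) = 0 ∧ z (Z', 0) = 0 ∧ (∀ l : Fin (N + 1), l.val < i → z (Y, l) = 0) ∧
    (∀ l : Fin (N + 1), l.val = i → z (Y, l) ≠ 0) ∧
    (∀ l : Fin (N + 1), l.val < i' → z (Y', l) = 0)}

/-- the form of the polynomial -/
structure Frm (f : MvPolynomial (Fin n) k) (F : MvPolynomial (Fin (n + 2 + 2)) k)
    (Y Z Y' Z' : Fin (n + 2 + 2)) : Prop where
  hF : ∀ z : Pt k (Fin (n + 2 + 2) × Fin (N + 1)), aeval (arc z) F =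
    aeval (arc (xp z)) f + arc z Y * arc z Z + arc z Y' * arc z Z'
  y : n ≤ Y.val
  z : n ≤ Z.val
  y' : n ≤ Y'.val
  z' : n ≤ Z'.val
  yz : Y ≠ Z
  yy' : Y ≠ Y'
  yz' : Y ≠ Z'
  zy' : Z ≠ Y'
  zz' : Z ≠ Z'
  y'z' : Y' ≠ Z'
  all : ∀ c : Fin (n + 2 + 2), n ≤ c.val → c = Y ∨ c = Z ∨ c = Y' ∨ c = Z'

variable {f : MvPolynomial (Fin n) k} {F : MvPolynomial (Fin (n + 2 + 2)) k}
  {Y Z Y' Z' : Fin (n + 2 + 2)}

theorem jet_iff (h : Frm (N := N) f F Y Z Y' Z') (z : Pt k (Fin (n + 2 + 2) × Fin (N + 1))) :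
    z ∈ JetE F N ↔ ∀ j ≤ N, PowerSeries.coeff j (arc z Y * arc z Z) =
      PowerSeries.coeff j (HH f Y' Z' z) := by
  have key : ∀ j, (PowerSeries.coeff j (aeval (arc z) F) = if j = N then 1 else 0) ↔
      PowerSeries.coeff j (arc z Y * arc z Z) = PowerSeries.coeff j (HH f Y' Z' z) := by
    intro j
    rw [h.hF, HH, map_add, map_add, map_sub, map_sub, PowerSeries.coeff_X_pow]
    constructor
    · intro h1
      linear_combination h1
    · intro h1
      linear_combination h1
  exact forall_congr' fun j => forall_congr' fun _ => key j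

/-- the bounds -/
def bd (Y Z Y' : Fin (n + 2 + 2)) (i m i' : ℕ) (c : Fin (n + 2 + 2)) : ℕ :=
  if c = Y then i else if c = Z then m + 1 else if c = Y' then i' else 1

theorem base_cell (h : Frm (N := N) f F Y Z Y' Z') (hN : 0 < N)
    (z : Pt k (Fin (n + 2 + 2) × Fin (N + 1))) (hz : z ∈ JetE F N) (h1 : z (Z, 0) = 0)
    (h2 : z (Z', 0) = 0) : aeval (cbase (jbs (hh2 n) N) z) f = 0 := by
  rw [cbase_xp, ← coeff_zero_aeval]
  have h3 := (jet_iff h z).1 hz 0 (Nat.zero_le _)
  have e1 : PowerSeries.coeff 0 (arc z Z) = 0 := by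
    have := coeff_arc z Z 0
    rw [h1] at this
    exact this
  have e2 : PowerSeries.coeff 0 (arc z Z') = 0 := by
    have := coeff_arc z Z' 0
    rw [h2] at this
    exact this
  rw [HH, map_sub, map_sub, PowerSeries.coeff_X_pow, if_neg (by omega)] at h3
  rw [ord_mul _ _ 0 (fun l hl => absurd hl (Nat.not_lt_zero l)) e1 0 le_rfl,
    ord_mul _ _ 0 (fun l hl => absurd hl (Nat.not_lt_zero l)) e2 0 le_rfl] at h3
  linear_combination h3

theorem zero_stable {ι : Type} (ρ : ι → ℤ) (l : AlgebraicClosure k) (z : Pt k ι) (p : ι)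
    (h : z p = 0) : dact ρ l z p = 0 := by
  show l ^ ρ p * z p = 0
  rw [h, mul_zero]

theorem ne_stable {ι : Type} (ρ : ι → ℤ) (l : AlgebraicClosure k) (hl : l ≠ 0) (z : Pt k ι) (p : ι)
    (h : z p ≠ 0) : dact ρ l z p ≠ 0 :=
  mul_ne_zero (zpow_ne_zero _ hl) h

theorem valid_cell (h : Frm (N := N) f F Y Z Y' Z') (hN : 0 < N) (i i' : ℕ) :
    Valid f (Cell F N Y Z Y' Z' i i') (jw (n + 2 + 2) N) N (jbs (hh2 n) N) := by
  refine ⟨?_, hN, ?_, ?_, ?_⟩
  · refine Constr.and (jetValid F N hN).constr (Constr.and (Constr.eqz (IsPF.coord _))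
      (Constr.and (Constr.eqz (IsPF.coord _)) (Constr.and ?_ (Constr.and ?_ ?_))))
    · exact Constr.all fun l => Constr.imp' fun _ => Constr.eqz (IsPF.coord _)
    · exact Constr.all fun l => Constr.imp' fun _ => (Constr.eqz (IsPF.coord _)).compl
    · exact Constr.all fun l => Constr.imp' fun _ => Constr.eqz (IsPF.coord _)
  · rintro l hl z ⟨h1, h2, h3, h4, h5, h6⟩
    have hl0 : l ≠ 0 := by
      rintro rfl
      rw [zero_pow hN.ne'] at hl
      exact zero_ne_one hl
    exact ⟨(jetValid F N hN).stable l hl z h1, zero_stable _ _ _ _ h2, zero_stable _ _ _ _ h3,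
      fun a ha => zero_stable _ _ _ _ (h4 a ha), fun a ha => ne_stable _ _ hl0 _ _ (h5 a ha),
      fun a ha => zero_stable _ _ _ _ (h6 a ha)⟩
  · rintro z ⟨h1, h2, h3, -⟩
    exact base_cell h hN z h1 h2 h3
  · intro a b hab
    have h1 : b = (hh2 n a, 0) := by
      simp only [jbs, Option.some.injEq] at hab
      exact hab.symm
    rw [h1]
    rfl

/-- the solution for the determined coordinates -/
noncomputable def psi (f : MvPolynomial (Fin n) k) (Y Z Y' Z' : Fin (n + 2 + 2)) (i m : ℕ)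
    (w : Pt k (Fin (n + 2 + 2) × Fin (N + 1))) : Pt k (Fin (n + 2 + 2) × Fin (N + 1)) :=
  fun p => if p.1 = Z ∧ p.2.val ≤ m then
    PowerSeries.coeff p.2.val (sh i (HH f Y' Z' w) * (sh i (arc w Y))⁻¹) else w p

/-- forget the determined coordinates -/
noncomputable def phi (Z : Fin (n + 2 + 2)) (m : ℕ) (w : Pt k (Fin (n + 2 + 2) × Fin (N + 1))) :
    Pt k (Fin (n + 2 + 2) × Fin (N + 1)) := fun p => if p.1 = Z ∧ p.2.val ≤ m then 0 else w p

theorem off_Z (h : Frm (N := N) f F Y Z Y' Z') (w w' : Pt k (Fin (n + 2 + 2) × Fin (N + 1)))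
    (hw : ∀ c, c ≠ Z → ∀ l, w' (c, l) = w (c, l)) :
    (∀ c, c ≠ Z → arc w' c = arc w c) ∧ xp w' = xp w ∧ HH f Y' Z' w' = HH f Y' Z' w := by
  have h1 : ∀ c, c ≠ Z → arc w' c = arc w c := fun c hc => arc_congr w w' c (hw c hc)
  have h2 : xp w' = xp w := by
    funext p
    refine hw _ ?_ _
    intro h3
    have h4 := h.z
    rw [← h3] at h4
    have h5 : (hh2 n p.1).val < n := p.1.isLt
    omega
  refine ⟨h1, h2, ?_⟩
  rw [HH, HH, h2, h1 _ h.zy'.symm, h1 _ h.zz'.symm]

theorem card_bd (h : Frm (N := N) f F Y Z Y' Z') (i i' : ℕ) (hi : i < N) (h1 : 1 ≤ i)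
    (hi' : i' ≤ i + 1) :
    (FS n N (bd Y Z Y' i (N - i) i')).card - 1 = 3 * N + 1 - i' := by
  rw [card_FS _ (fun c => by unfold bd; split_ifs <;> omega), ← Finset.sum_filter]
  have e : (Finset.univ : Finset (Fin (n + 2 + 2))).filter (fun c => n ≤ c.val) = {Y, Z, Y', Z'} := by
    ext c
    simp only [Finset.mem_filter, Finset.mem_univ, true_and, Finset.mem_insert,
      Finset.mem_singleton]
    constructor
    · exact h.all c
    · rintro (rfl | rfl | rfl | rfl)
      · exact h.y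
      · exact h.z
      · exact h.y'
      · exact h.z'
  rw [e, Finset.sum_insert (by simp [h.yz, h.yy', h.yz']), Finset.sum_insert (by simp [h.zy', h.zz']),
    Finset.sum_insert (by simp [h.y'z']), Finset.sum_singleton]
  have b1 : bd Y Z Y' i (N - i) i' Y = i := by simp [bd]
  have b2 : bd Y Z Y' i (N - i) i' Z = N - i + 1 := by simp [bd, h.yz.symm]
  have b3 : bd Y Z Y' i (N - i) i' Y' = i' := by simp [bd, h.yy'.symm, h.zy'.symm]
  have b4 : bd Y Z Y' i (N - i) i' Z' = 1 := by simp [bd, h.yz'.symm, h.zz'.symm, h.y'z'.symm]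
  rw [b1, b2, b3, b4]
  omega

theorem cell {R : Type} [CommRing R] (M : EMeas f R) (h : Frm (N := N) f F Y Z Y' Z') (i i' : ℕ)
    (hi : i < N) (h1 : 1 ≤ i) (hii : i ≤ i') (hi' : i' ≤ i + 1) :
    M.χ _ (Cell F N Y Z Y' Z' i i') (jw (n + 2 + 2) N) N (jbs (hh2 n) N) =
      M.χ _ (TlE f (i + 1) N) (jw n N) N (jb n N) * (M.L - 1) * M.L ^ (3 * N + 1 - i') := by
  have hN : 0 < N := by omega
  have hT := valid_TlE f (i + 1) N (by omega) hN
  obtain ⟨b, hb⟩ : ∃ b, b = bd Y Z Y' i (N - i) i' := ⟨_, rfl⟩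
  have b1 : b Y = i := by simp [hb, bd]
  have b2 : b Z = N - i + 1 := by simp [hb, bd, h.yz.symm]
  have b3 : b Y' = i' := by simp [hb, bd, h.yy'.symm, h.zy'.symm]
  have b4 : b Z' = 1 := by simp [hb, bd, h.yz'.symm, h.zz'.symm, h.y'z'.symm]
  have hF0 : ({(Y, (⟨i, by omega⟩ : Fin (N + 1)))} : Finset _) ⊆ FS n N b := by
    rw [Finset.singleton_subset_iff, FS, Finset.mem_filter]
    refine ⟨Finset.mem_univ _, h.y, ?_⟩
    simp only [b1, le_refl]
  have hfree := free M hT b _ hF0
  have hcard : (FS n N b).card - 1 = 3 * N + 1 - i' := by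
    rw [hb]
    exact card_bd h i i' hi h1 hi'
  rw [Finset.card_singleton, pow_one, hcard] at hfree
  rw [← hfree]
  have hVT := valid_ne (valid_SB hT b (jw (n + 2 + 2) N) fun _ _ => rfl)
    ({(Y, (⟨i, by omega⟩ : Fin (N + 1)))} : Finset _)
  -- facts on the points of the cell
  have hcY : ∀ z : Pt k (Fin (n + 2 + 2) × Fin (N + 1)),
      (∀ l : Fin (N + 1), l.val < i → z (Y, l) = 0) → ∀ l < i, PowerSeries.coeff l (arc z Y) = 0 := by
    intro z hz l hl
    have := coeff_arc z Y ⟨l, by omega⟩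
    rw [this]
    exact hz _ hl
  have hcYi : ∀ z : Pt k (Fin (n + 2 + 2) × Fin (N + 1)),
      PowerSeries.coeff i (arc z Y) = z (Y, ⟨i, by omega⟩) := fun z => coeff_arc z Y ⟨i, by omega⟩
  have hcZ : ∀ (z : Pt k (Fin (n + 2 + 2) × Fin (N + 1))) (c : Fin (n + 2 + 2)), z (c, 0) = 0 →
      PowerSeries.coeff 0 (arc z c) = 0 := by
    intro z c hz
    have := coeff_arc z c 0
    rw [hz] at this
    exact this
  have hcY' : ∀ z : Pt k (Fin (n + 2 + 2) × Fin (N + 1)),
      (∀ l : Fin (N + 1), l.val < i' → z (Y', l) = 0) →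
      ∀ l < i, PowerSeries.coeff l (arc z Y') = 0 := by
    intro z hz l hl
    have := coeff_arc z Y' ⟨l, by omega⟩
    rw [this]
    exact hz _ (lt_of_lt_of_le hl hii)
  have hTmem : ∀ w : Pt k (Fin (n + 2 + 2) × Fin (N + 1)),
      w ∈ SB (TlE f (i + 1) N) b ∩ {z | ∀ p ∈ ({(Y, (⟨i, by omega⟩ : Fin (N + 1)))} : Finset _),
        z p ≠ 0} ↔
      xp w ∈ TlE f (i + 1) N ∧ (∀ l : Fin (N + 1), l.val < i → w (Y, l) = 0) ∧
        (∀ l : Fin (N + 1), l.val ≤ N - i → w (Z, l) = 0) ∧
        (∀ l : Fin (N + 1), l.val < i' → w (Y', l) = 0) ∧ w (Z', 0) = 0 ∧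
        w (Y, ⟨i, by omega⟩) ≠ 0 := by
    intro w
    constructor
    · rintro ⟨⟨a1, a2⟩, a3⟩
      refine ⟨a1, fun l hl => a2 (Y, l) h.y (by simpa only [b1] using hl),
        fun l hl => a2 (Z, l) h.z (by simp only [b2]; omega),
        fun l hl => a2 (Y', l) h.y' (by simpa only [b3] using hl),
        a2 (Z', 0) h.z' (by simp only [b4]; exact one_pos), a3 _ (Finset.mem_singleton_self _)⟩
    · rintro ⟨a1, a2, a3, a4, a5, a6⟩
      refine ⟨⟨a1, ?_⟩, ?_⟩
      · rintro ⟨c, l⟩ hc hl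
        simp only at hc hl
        rcases h.all c hc with rfl | rfl | rfl | rfl
        · exact a2 l (by rwa [b1] at hl)
        · exact a3 l (by rw [b2] at hl; omega)
        · exact a4 l (by rwa [b3] at hl)
        · rw [b4] at hl
          have : l = 0 := Fin.ext (by simpa using hl)
          rw [this]
          exact a5
      · intro p hp
        rw [Finset.mem_singleton.1 hp]
        exact a6
  refine M.iso _ _ _ _ N N _ _ (valid_cell h hN i i') hVT (phi Z (N - i)) (psi f Y Z Y' Z' i (N - i))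
    ?_ ?_ ?_ ?_ ?_ ?_ ?_ ?_
  · -- `phi` is regular
    refine regularOn_poly (fun p => ?_) _
    by_cases hp : p.1 = Z ∧ p.2.val ≤ N - i
    · simp only [phi, hp, and_self, if_true]
      exact IsPF.zero
    · simp only [phi, hp, if_false]
      exact IsPF.coord _
  · -- `psi` is regular
    intro p
    by_cases hp : p.1 = Z ∧ p.2.val ≤ N - i
    · have e1 : ∀ w : Pt k (Fin (n + 2 + 2) × Fin (N + 1)), psi f Y Z Y' Z' i (N - i) w p =
          ∑ x ∈ Finset.HasAntidiagonal.antidiagonal p.2.val,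
            PowerSeries.coeff x.1 (sh i (HH f Y' Z' w)) *
              PowerSeries.coeff x.2 (sh i (arc w Y))⁻¹ := by
        intro w
        simp only [psi, hp, and_self, if_true]
        rw [PowerSeries.coeff_mul]
      have hHH : IsPA (fun w : Pt k (Fin (n + 2 + 2) × Fin (N + 1)) => sh i (HH f Y' Z' w)) := by
        refine pa_sh i ?_
        have q1 : IsPA (fun w : Pt k (Fin (n + 2 + 2) × Fin (N + 1)) => aeval (arc (xp w)) f) :=
          IsPA.aeval (fun j w => arc w (hh2 n j)) (fun j => isPA_arc _) f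
        have q2 := (isPA_arc (K := k) (N := N) Y').mul (isPA_arc (K := k) (N := N) Z')
        intro j
        simp only [HH, map_sub]
        refine ((?_ : IsPF _).sub (q1 j)).sub (q2 j)
        exact (IsPA.X.pow N) j
      have hR : IsRF (SB (TlE f (i + 1) N) b ∩
          {z | ∀ p ∈ ({(Y, (⟨i, by omega⟩ : Fin (N + 1)))} : Finset _), z p ≠ 0})
          (fun w => ∑ x ∈ Finset.HasAntidiagonal.antidiagonal p.2.val,
            PowerSeries.coeff x.1 (sh i (HH f Y' Z' w)) *
              PowerSeries.coeff x.2 (sh i (arc w Y))⁻¹) := by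
        refine rf_sum _ _ fun x _ => ((hHH x.1).isRF _).mul (rf_inv _ (pa_sh i (isPA_arc Y)) ?_ x.2)
        intro w hw
        rw [sh, PowerSeries.coeff_mk, zero_add, hcYi]
        exact ((hTmem w).1 hw).2.2.2.2.2
      exact hR.congr fun w _ => e1 w
    · have e1 : ∀ w : Pt k (Fin (n + 2 + 2) × Fin (N + 1)), psi f Y Z Y' Z' i (N - i) w p = w p := by
        intro w
        simp only [psi, hp, if_false]
      exact ((IsPF.coord p).isRF _).congr fun w _ => e1 w
  · -- `phi` maps into the product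
    rintro z ⟨a1, a2, a3, a4, a5, a6⟩
    obtain ⟨o1, o2, o3⟩ := off_Z h z (phi Z (N - i) z) fun c hc l => by
      simp only [phi, hc, false_and, if_false]
    have hval : ∀ c, c ≠ Z → ∀ l, phi Z (N - i) z (c, l) = z (c, l) := fun c hc l => by
      simp only [phi, hc, false_and, if_false]
    rw [hTmem]
    refine ⟨?_, fun l hl => ?_, fun l hl => ?_, fun l hl => ?_, ?_, ?_⟩
    · rw [o2]
      intro j hj
      have e := (jet_iff h z).1 a1 j (by omega)
      rw [HH, map_sub, map_sub, PowerSeries.coeff_X_pow, if_neg (by omega),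
        ord_mul _ _ i (hcY z a4) (hcZ z Z a2) j (by omega),
        ord_mul _ _ i (hcY' z a6) (hcZ z Z' a3) j (by omega)] at e
      linear_combination e
    · rw [hval _ h.yz]
      exact a4 l hl
    · simp only [phi, hl, and_self, if_true]
    · rw [hval _ h.zy'.symm]
      exact a6 l hl
    · rw [hval _ h.zz'.symm]
      exact a3
    · rw [hval _ h.yz]
      exact a5 _ rfl
  · -- `psi` maps into the cell
    intro w hw
    obtain ⟨a1, a2, a3, a4, a5, a6⟩ := (hTmem w).1 hw
    have hval : ∀ c, c ≠ Z → ∀ l, psi f Y Z Y' Z' i (N - i) w (c, l) = w (c, l) := fun c hc l => by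
      simp only [psi, hc, false_and, if_false]
    obtain ⟨o1, o2, o3⟩ := off_Z h w (psi f Y Z Y' Z' i (N - i) w) hval
    have hHl : ∀ l ≤ i, PowerSeries.coeff l (HH f Y' Z' w) = 0 := by
      intro l hl
      rw [HH, map_sub, map_sub, PowerSeries.coeff_X_pow, if_neg (by omega), a1 l (by omega),
        ord_mul _ _ i (hcY' w a4) (hcZ w Z' a5) l hl]
      ring
    have hZ0 : psi f Y Z Y' Z' i (N - i) w (Z, 0) = 0 := by
      have e0 : PowerSeries.constantCoeff (sh i (HH f Y' Z' w)) = 0 := by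
        rw [← PowerSeries.coeff_zero_eq_constantCoeff_apply, sh, PowerSeries.coeff_mk, zero_add]
        exact hHl i le_rfl
      simp only [psi, Fin.val_zero, Nat.zero_le, and_self, if_true]
      rw [PowerSeries.coeff_zero_eq_constantCoeff_apply, map_mul, e0, zero_mul]
    refine ⟨?_, hZ0, ?_, fun l hl => ?_, fun l hl => ?_, fun l hl => ?_⟩
    · rw [jet_iff h, o3, o1 _ h.yz]
      refine solveB _ _ _ i N (hcY w a2) (by rw [hcYi]; exact a6) (fun l hl => hHl l hl.le) ?_
      intro l hl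
      have e := coeff_arc (psi f Y Z Y' Z' i (N - i) w) Z ⟨l, by omega⟩
      rw [e]
      simp only [psi, hl, and_self, if_true]
    · rw [hval _ h.zz'.symm]
      exact a5
    · rw [hval _ h.yz]
      exact a2 l hl
    · rw [hval _ h.yz]
      have : l = ⟨i, by omega⟩ := Fin.ext hl
      rw [this]
      exact a6
    · rw [hval _ h.zy'.symm]
      exact a4 l hl
  · -- left inverse
    rintro z ⟨a1, a2, a3, a4, a5, a6⟩
    obtain ⟨o1, o2, o3⟩ := off_Z h z (phi Z (N - i) z) fun c hc l => by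
      simp only [phi, hc, false_and, if_false]
    funext p
    by_cases hp : p.1 = Z ∧ p.2.val ≤ N - i
    · have e1 : psi f Y Z Y' Z' i (N - i) (phi Z (N - i) z) p =
          PowerSeries.coeff p.2.val (sh i (HH f Y' Z' z) * (sh i (arc z Y))⁻¹) := by
        simp only [psi, hp, and_self, if_true]
        rw [o3, o1 _ h.yz]
      rw [e1, ← solveA (arc z Y) (arc z Z) (HH f Y' Z' z) i N hi.le (hcY z a4)
        (by rw [hcYi]; exact a5 _ rfl) ((jet_iff h z).1 a1) p.2.val hp.2, coeff_arc, ← hp.1]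
    · simp only [psi, phi, hp, if_false]
  · -- right inverse
    intro w hw
    obtain ⟨a1, a2, a3, a4, a5, a6⟩ := (hTmem w).1 hw
    funext p
    by_cases hp : p.1 = Z ∧ p.2.val ≤ N - i
    · simp only [phi, hp, and_self, if_true]
      have e2 : p = (Z, p.2) := Prod.ext hp.1 rfl
      rw [e2]
      exact (a3 _ hp.2).symm
    · simp only [psi, phi, hp, if_false]
  · -- base
    intro z _
    obtain ⟨o1, o2, o3⟩ := off_Z h z (phi Z (N - i) z) fun c hc l => by
      simp only [phi, hc, false_and, if_false]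
    rw [cbase_xp, cbase_xp, o2]
  · -- equivariance
    intro l _ z _
    funext p
    by_cases hp : p.1 = Z ∧ p.2.val ≤ N - i
    · simp only [phi, dact, hp, and_self, if_true, mul_zero]
    · simp only [phi, dact, hp, if_false]

/-! ### The two pairs of new coordinates -/

/-- the coordinate `y` -/
def cy (n : ℕ) : Fin (n + 2 + 2) := Fin.castAdd 2 (Fin.natAdd n 0)

/-- the coordinate `z` -/
def cz (n : ℕ) : Fin (n + 2 + 2) := Fin.castAdd 2 (Fin.natAdd n 1)

/-- the coordinate `y'` -/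
def cy' (n : ℕ) : Fin (n + 2 + 2) := Fin.natAdd (n + 2) 0

/-- the coordinate `z'` -/
def cz' (n : ℕ) : Fin (n + 2 + 2) := Fin.natAdd (n + 2) 1

theorem v1 (n : ℕ) : (cy n).val = n := rfl

theorem v2 (n : ℕ) : (cz n).val = n + 1 := rfl

theorem v3 (n : ℕ) : (cy' n).val = n + 2 := rfl

theorem v4 (n : ℕ) : (cz' n).val = n + 3 := rfl

theorem aeval_yz (f : MvPolynomial (Fin n) k) (z : Pt k (Fin (n + 2 + 2) × Fin (N + 1))) :
    aeval (arc z) (addyz (addyz f)) =
      aeval (arc (xp z)) f + arc z (cy n) * arc z (cz n) + arc z (cy' n) * arc z (cz' n) := by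
  rw [addyz, addyz]
  simp only [map_add, map_mul, rename_X, aeval_X, aeval_rename]
  rfl

theorem frm1 (f : MvPolynomial (Fin n) k) :
    Frm (N := N) f (addyz (addyz f)) (cy n) (cz n) (cy' n) (cz' n) where
  hF := aeval_yz f
  y := by rw [v1]
  z := by rw [v2]; omega
  y' := by rw [v3]; omega
  z' := by rw [v4]; omega
  yz := fun h => by have := congrArg Fin.val h; rw [v1, v2] at this; omega
  yy' := fun h => by have := congrArg Fin.val h; rw [v1, v3] at this; omega
  yz' := fun h => by have := congrArg Fin.val h; rw [v1, v4] at this; omega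
  zy' := fun h => by have := congrArg Fin.val h; rw [v2, v3] at this; omega
  zz' := fun h => by have := congrArg Fin.val h; rw [v2, v4] at this; omega
  y'z' := fun h => by have := congrArg Fin.val h; rw [v3, v4] at this; omega
  all := fun c hc => by
    have h1 := c.isLt
    have h2 : c.val = n ∨ c.val = n + 1 ∨ c.val = n + 2 ∨ c.val = n + 3 := by omega
    rcases h2 with h2 | h2 | h2 | h2
    · exact Or.inl (Fin.ext h2)
    · exact Or.inr (Or.inl (Fin.ext h2))
    · exact Or.inr (Or.inr (Or.inl (Fin.ext h2)))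
    · exact Or.inr (Or.inr (Or.inr (Fin.ext h2)))

theorem frm2 (f : MvPolynomial (Fin n) k) :
    Frm (N := N) f (addyz (addyz f)) (cy' n) (cz' n) (cy n) (cz n) where
  hF := fun z => by
    rw [aeval_yz]
    ring
  y := (frm1 (N := N) f).y'
  z := (frm1 (N := N) f).z'
  y' := (frm1 (N := N) f).y
  z' := (frm1 (N := N) f).z
  yz := (frm1 (N := N) f).y'z'
  yy' := (frm1 (N := N) f).yy'.symm
  yz' := (frm1 (N := N) f).zy'.symm
  zy' := (frm1 (N := N) f).yz'.symm
  zz' := (frm1 (N := N) f).zz'.symm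
  y'z' := (frm1 (N := N) f).yz
  all := fun c hc => by
    rcases (frm1 (N := N) f).all c hc with h | h | h | h
    · exact Or.inr (Or.inr (Or.inl h))
    · exact Or.inr (Or.inr (Or.inr h))
    · exact Or.inl h
    · exact Or.inr (Or.inl h)

/-- the jets with `min (ord y) (ord y') ≥ i` -/
def DD (F : MvPolynomial (Fin (n + 2 + 2)) k) (N : ℕ) (Y Z Y' Z' : Fin (n + 2 + 2)) (i : ℕ) :
    Set (Pt k (Fin (n + 2 + 2) × Fin (N + 1))) :=
  {z | z ∈ JetE F N ∧ z (Z, 0) = 0 ∧ z (Z', 0) = 0 ∧ (∀ l : Fin (N + 1), l.val < i → z (Y, l) = 0) ∧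
    (∀ l : Fin (N + 1), l.val < i → z (Y', l) = 0)}

theorem valid_DD (h : Frm (N := N) f F Y Z Y' Z') (hN : 0 < N) (i : ℕ) :
    Valid f (DD F N Y Z Y' Z' i) (jw (n + 2 + 2) N) N (jbs (hh2 n) N) := by
  refine ⟨?_, hN, ?_, ?_, ?_⟩
  · refine Constr.and (jetValid F N hN).constr (Constr.and (Constr.eqz (IsPF.coord _))
      (Constr.and (Constr.eqz (IsPF.coord _)) (Constr.and ?_ ?_)))
    · exact Constr.all fun l => Constr.imp' fun _ => Constr.eqz (IsPF.coord _)
    · exact Constr.all fun l => Constr.imp' fun _ => Constr.eqz (IsPF.coord _)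
  · rintro l hl z ⟨h1, h2, h3, h4, h5⟩
    exact ⟨(jetValid F N hN).stable l hl z h1, zero_stable _ _ _ _ h2, zero_stable _ _ _ _ h3,
      fun a ha => zero_stable _ _ _ _ (h4 a ha), fun a ha => zero_stable _ _ _ _ (h5 a ha)⟩
  · rintro z ⟨h1, h2, h3, -⟩
    exact base_cell h hN z h1 h2 h3
  · intro a b hab
    have h1 : b = (hh2 n a, 0) := by
      simp only [jbs, Option.some.injEq] at hab
      exact hab.symm
    rw [h1]
    rfl

theorem step {R : Type} [CommRing R] (M : EMeas f R) (h : Frm (N := N) f F Y Z Y' Z')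
    (h' : Frm (N := N) f F Y' Z' Y Z) (i : ℕ) (hi : i < N) (h1 : 1 ≤ i) :
    M.χ _ (DD F N Y Z Y' Z' i) (jw (n + 2 + 2) N) N (jbs (hh2 n) N) =
      M.χ _ (DD F N Y Z Y' Z' (i + 1)) (jw (n + 2 + 2) N) N (jbs (hh2 n) N) +
        (M.L ^ 2 - 1) * (M.L ^ (3 * N + 1 - (i + 1)) *
          M.χ _ (TlE f (i + 1) N) (jw n N) N (jb n N)) := by
  have hN : 0 < N := by omega
  have e : DD F N Y Z Y' Z' i = (DD F N Y Z Y' Z' (i + 1) ∪ Cell F N Y' Z' Y Z i (i + 1)) ∪
      Cell F N Y Z Y' Z' i i := by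
    ext z
    constructor
    · rintro ⟨a1, a2, a3, a4, a5⟩
      by_cases c1 : z (Y, ⟨i, by omega⟩) = 0
      · have c2 : ∀ l : Fin (N + 1), l.val < i + 1 → z (Y, l) = 0 := by
          intro l hl
          rcases Nat.lt_or_ge l.val i with h3 | h3
          · exact a4 l h3
          · have : l = ⟨i, by omega⟩ := Fin.ext (by simp only; omega)
            rw [this]
            exact c1
        by_cases c3 : z (Y', ⟨i, by omega⟩) = 0
        · refine Or.inl (Or.inl ⟨a1, a2, a3, c2, fun l hl => ?_⟩)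
          rcases Nat.lt_or_ge l.val i with h3 | h3
          · exact a5 l h3
          · have : l = ⟨i, by omega⟩ := Fin.ext (by simp only; omega)
            rw [this]
            exact c3
        · refine Or.inl (Or.inr ⟨a1, a3, a2, a5, fun l hl => ?_, c2⟩)
          have : l = ⟨i, by omega⟩ := Fin.ext hl
          rw [this]
          exact c3
      · refine Or.inr ⟨a1, a2, a3, a4, fun l hl => ?_, a5⟩
        have : l = ⟨i, by omega⟩ := Fin.ext hl
        rw [this]
        exact c1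
    · rintro ((⟨a1, a2, a3, a4, a5⟩ | ⟨a1, a2, a3, a4, a5, a6⟩) | ⟨a1, a2, a3, a4, a5, a6⟩)
      · exact ⟨a1, a2, a3, fun l hl => a4 l (by omega), fun l hl => a5 l (by omega)⟩
      · exact ⟨a1, a3, a2, fun l hl => a6 l (by omega), a4⟩
      · exact ⟨a1, a2, a3, a4, a6⟩
  have d1 : Disjoint (DD F N Y Z Y' Z' (i + 1)) (Cell F N Y' Z' Y Z i (i + 1)) := by
    rw [Set.disjoint_left]
    rintro z ⟨-, -, -, -, a5⟩ ⟨-, -, -, -, b5, -⟩
    exact b5 ⟨i, by omega⟩ rfl (a5 ⟨i, by omega⟩ (Nat.lt_succ_self i))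
  have d2 : Disjoint (DD F N Y Z Y' Z' (i + 1) ∪ Cell F N Y' Z' Y Z i (i + 1))
      (Cell F N Y Z Y' Z' i i) := by
    rw [Set.disjoint_left]
    rintro z (⟨-, -, -, a4, -⟩ | ⟨-, -, -, -, -, a6⟩) ⟨-, -, -, -, b5, -⟩
    · exact b5 ⟨i, by omega⟩ rfl (a4 ⟨i, by omega⟩ (Nat.lt_succ_self i))
    · exact b5 ⟨i, by omega⟩ rfl (a6 ⟨i, by omega⟩ (Nat.lt_succ_self i))
  have w1 := valid_DD h hN (i + 1)
  have w2 := valid_cell h' hN i (i + 1)
  have w3 := valid_cell h hN i i
  have w12 : Valid f (DD F N Y Z Y' Z' (i + 1) ∪ Cell F N Y' Z' Y Z i (i + 1))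
      (jw (n + 2 + 2) N) N (jbs (hh2 n) N) := by
    refine ⟨w1.constr.union w2.constr, hN, ?_, ?_, w1.inv⟩
    · rintro l hl z (hz | hz)
      · exact Or.inl (w1.stable l hl z hz)
      · exact Or.inr (w2.stable l hl z hz)
    · rintro z (hz | hz)
      · exact w1.base z hz
      · exact w2.base z hz
  rw [e, M.add _ _ _ _ _ w12 w3 d2, M.add _ _ _ _ _ w1 w2 d1,
    cell M h' i (i + 1) hi h1 (Nat.le_succ i) le_rfl, cell M h i i hi h1 le_rfl (Nat.le_succ i)]
  have e1 : 3 * N + 1 - i = (3 * N + 1 - (i + 1)) + 1 := by omega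
  rw [e1, pow_succ]
  ring

theorem last {R : Type} [CommRing R] (M : EMeas f R) (h : Frm (N := N) f F Y Z Y' Z')
    (hN : 1 ≤ N) :
    M.χ _ (DD F N Y Z Y' Z' N) (jw (n + 2 + 2) N) N (jbs (hh2 n) N) =
      M.L ^ (2 * N + 2) * M.χ _ (JetE f N) (jw n N) N (jb n N) := by
  obtain ⟨b, hb⟩ : ∃ b : Fin (n + 2 + 2) → ℕ, b = fun c => if c = Y ∨ c = Y' then N else 1 :=
    ⟨_, rfl⟩
  have b1 : b Y = N := by simp [hb]
  have b2 : b Z = 1 := by simp [hb, h.yz.symm, h.zy']
  have b3 : b Y' = N := by simp [hb]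
  have b4 : b Z' = 1 := by simp [hb, h.yz'.symm, h.y'z'.symm]
  have e : DD F N Y Z Y' Z' N = SB (JetE f N) b := by
    have key : ∀ z : Pt k (Fin (n + 2 + 2) × Fin (N + 1)), z (Z, 0) = 0 → z (Z', 0) = 0 →
        (∀ l : Fin (N + 1), l.val < N → z (Y, l) = 0) →
        (∀ l : Fin (N + 1), l.val < N → z (Y', l) = 0) →
        (z ∈ JetE F N ↔ xp z ∈ JetE f N) := by
      intro z a2 a3 a4 a5
      have c0 : ∀ c : Fin (n + 2 + 2), z (c, 0) = 0 → PowerSeries.coeff 0 (arc z c) = 0 := by
        intro c hz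
        have := coeff_arc z c 0
        rw [hz] at this
        exact this
      have cN : ∀ c : Fin (n + 2 + 2), (∀ l : Fin (N + 1), l.val < N → z (c, l) = 0) →
          ∀ l < N, PowerSeries.coeff l (arc z c) = 0 := by
        intro c hz l hl
        have := coeff_arc z c ⟨l, by omega⟩
        rw [this]
        exact hz _ hl
      refine forall_congr' fun j => forall_congr' fun hj => ?_
      rw [h.hF, map_add, map_add, ord_mul _ _ N (cN Y a4) (c0 Z a2) j hj,
        ord_mul _ _ N (cN Y' a5) (c0 Z' a3) j hj, add_zero, add_zero]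
    ext z
    constructor
    · rintro ⟨a1, a2, a3, a4, a5⟩
      refine ⟨(key z a2 a3 a4 a5).1 a1, ?_⟩
      rintro ⟨c, l⟩ hc hl
      simp only at hc hl
      rcases h.all c hc with rfl | rfl | rfl | rfl
      · exact a4 l (by rwa [b1] at hl)
      · rw [b2] at hl
        have : l = 0 := Fin.ext (by simpa using hl)
        rw [this]
        exact a2
      · exact a5 l (by rwa [b3] at hl)
      · rw [b4] at hl
        have : l = 0 := Fin.ext (by simpa using hl)
        rw [this]
        exact a3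
    · rintro ⟨a1, a2⟩
      have q2 : z (Z, 0) = 0 := a2 (Z, 0) h.z (by simp only [b2]; exact one_pos)
      have q3 : z (Z', 0) = 0 := a2 (Z', 0) h.z' (by simp only [b4]; exact one_pos)
      have q4 : ∀ l : Fin (N + 1), l.val < N → z (Y, l) = 0 :=
        fun l hl => a2 (Y, l) h.y (by simpa only [b1] using hl)
      have q5 : ∀ l : Fin (N + 1), l.val < N → z (Y', l) = 0 :=
        fun l hl => a2 (Y', l) h.y' (by simpa only [b3] using hl)
      exact ⟨(key z q2 q3 q4 q5).2 a1, q2, q3, q4, q5⟩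
  have hfree := free M (jetValid f N hN) b ∅ (Finset.empty_subset _)
  have e1 : SB (JetE f N) b ∩ {z : Pt k (Fin (n + 2 + 2) × Fin (N + 1)) |
      ∀ p ∈ (∅ : Finset (Fin (n + 2 + 2) × Fin (N + 1))), z p ≠ 0} = SB (JetE f N) b := by
    refine Set.inter_eq_left.2 fun z _ p hp => absurd hp (Finset.notMem_empty p)
  have hcard : (FS n N b).card = 2 * N + 2 := by
    rw [card_FS _ (fun c => by rw [hb]; simp only; split_ifs <;> omega), ← Finset.sum_filter]
    have e : (Finset.univ : Finset (Fin (n + 2 + 2))).filter (fun c => n ≤ c.val) =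
        {Y, Z, Y', Z'} := by
      ext c
      simp only [Finset.mem_filter, Finset.mem_univ, true_and, Finset.mem_insert,
        Finset.mem_singleton]
      constructor
      · exact h.all c
      · rintro (rfl | rfl | rfl | rfl)
        · exact h.y
        · exact h.z
        · exact h.y'
        · exact h.z'
    rw [e, Finset.sum_insert (by simp [h.yz, h.yy', h.yz']),
      Finset.sum_insert (by simp [h.zy', h.zz']),
      Finset.sum_insert (by simp [h.y'z']), Finset.sum_singleton, b1, b2, b3, b4]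
    omega
  rw [e1, Finset.card_empty, pow_zero, mul_one, Nat.sub_zero, hcard] at hfree
  rw [e, hfree, mul_comm]

theorem total {R : Type} [CommRing R] (M : EMeas f R) (h : Frm (N := N) f F Y Z Y' Z')
    (h' : Frm (N := N) f F Y' Z' Y Z) (hN : 1 ≤ N) (a : ℕ) (ha : a < N) :
    M.χ _ (DD F N Y Z Y' Z' (N - a)) (jw (n + 2 + 2) N) N (jbs (hh2 n) N) =
      (M.L ^ 2 - 1) * ∑ j ∈ Finset.Icc (N - a + 1) N, M.L ^ (3 * N + 1 - j) *
        M.χ _ (TlE f j N) (jw n N) N (jb n N) +
        M.L ^ (2 * N + 2) * M.χ _ (JetE f N) (jw n N) N (jb n N) := by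
  induction a with
  | zero =>
    rw [Nat.sub_zero, last M h hN, Finset.Icc_eq_empty (by omega), Finset.sum_empty, mul_zero,
      zero_add]
  | succ a ih =>
    have e1 : N - (a + 1) + 1 = N - a := by omega
    rw [step M h h' (N - (a + 1)) (by omega) (by omega), e1, ih (by omega)]
    have e2 : Finset.Icc (N - a) N = insert (N - a) (Finset.Icc (N - a + 1) N) := by
      ext j
      simp only [Finset.mem_insert, Finset.mem_Icc]
      omega
    rw [e2, Finset.sum_insert (by simp)]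
    ring

theorem jetS_eq (f : MvPolynomial (Fin n) k) :
    JetS (addyz (addyz f)) (hh2 n) (sg2 0 0) N =
      DD (addyz (addyz f)) N (cy n) (cz n) (cy' n) (cz' n) 1 := by
  have s1 : sg2 (0 : MvPolynomial (Fin n) k) 0 (cy n) = 0 := by
    simp [sg2, sg1, cy]
  have s2 : sg2 (0 : MvPolynomial (Fin n) k) 0 (cz n) = 0 := by
    simp [sg2, sg1, cz]
  have s3 : sg2 (0 : MvPolynomial (Fin n) k) 0 (cy' n) = 0 := by
    simp [sg2, cy']
  have s4 : sg2 (0 : MvPolynomial (Fin n) k) 0 (cz' n) = 0 := by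
    simp [sg2, cz']
  have s0 : ∀ j, sg2 (0 : MvPolynomial (Fin n) k) 0 (hh2 n j) = X j := by
    intro j
    simp [sg2, sg1, hh2]
  have l0 : ∀ l : Fin (N + 1), l.val < 1 → l = 0 := fun l hl => Fin.ext (by simpa using hl)
  ext z
  constructor
  · rintro ⟨a1, a2⟩
    have q : ∀ c, sg2 (0 : MvPolynomial (Fin n) k) 0 c = 0 → z (c, 0) = 0 := by
      intro c hc
      rw [a2 c, hc, map_zero]
    exact ⟨a1, q _ s2, q _ s4, fun l hl => by rw [l0 l hl]; exact q _ s1,
      fun l hl => by rw [l0 l hl]; exact q _ s3⟩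
  · rintro ⟨a1, a2, a3, a4, a5⟩
    refine ⟨a1, fun c => ?_⟩
    rcases Nat.lt_or_ge c.val n with h1 | h1
    · have h2 : c = hh2 n ⟨c.val, h1⟩ := Fin.ext rfl
      rw [h2, s0, aeval_X]
    · rcases (frm1 (N := N) f).all c h1 with rfl | rfl | rfl | rfl
      · rw [s1, map_zero]
        exact a4 0 one_pos
      · rw [s2, map_zero]
        exact a2
      · rw [s3, map_zero]
        exact a5 0 one_pos
      · rw [s4, map_zero]
        exact a3

end

end Pool.Agent.N101.CB.EHY2aux

namespace Pool.Agent.N101.CB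

open MvPolynomial Pool.Agent.W428.MOT EHY2aux
open Pool.Agent.Y229.MS (addyz)

/-- **(EHY2)** the equivariant class of the jets of `f + y z + y' z'` -/
theorem ehy2 : TaskEHY2 := by
  intro k _ _ n f R _ M N hN
  have h := total M (frm1 (N := N) f) (frm2 f) hN (N - 1) (by omega)
  have e : N - (N - 1) = 1 := by omega
  rw [e] at h
  rw [jetS_eq]
  exact h

end Pool.Agent.N101.CB
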