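import Pool.Agent.N101.CB.StmQ
import Pool.Agent.W358.ME.EK0

/-!
# EPB: the pull-back homomorphism of equivariant Grothendieck rings along a section (helper49)
-/

set_option autoImplicit false

namespace Pool.Agent.N101.CB

open MvPolynomial Pool.Agent.W428.MOT
open Pool.Agent.W358.ME.EK0 (mk_eq_of_rel mk_iso mk_affine)

namespace EPBaux

section

variable {k : Type} [Field k] {n m : ℕ} {f : MvPolynomial (Fin n) k}
  {F : MvPolynomial (Fin m) k} {h : Fin n → Fin m} {σ : Fin m → MvPolynomial (Fin n) k}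

/-- the section -/
noncomputable def sig (σ : Fin m → MvPolynomial (Fin n) k) (x : Pt k (Fin n)) : Pt k (Fin m) :=
  fun i => aeval x (σ i)

/-- the projection -/
def hr (h : Fin n → Fin m) (y : Pt k (Fin m)) : Pt k (Fin n) := fun j => y (h j)

theorem hr_sig (hs : IsSec f F h σ) (x : Pt k (Fin n)) : hr h (sig σ x) = x := by
  funext j
  change aeval x (σ (h j)) = x j
  rw [hs.sec, aeval_X]

theorem F_sig (hs : IsSec f F h σ) (x : Pt k (Fin n)) : aeval (sig σ x) F = aeval x f := by
  rw [← hs.eq]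
  have h1 := DFunLike.congr_fun (comp_aeval (R := k) σ (aeval x : MvPolynomial (Fin n) k →ₐ[k] _)) F
  exact h1.symm

theorem reg_mono {ι κ : Type} {S T : Set (Pt k ι)} {g : Pt k ι → Pt k κ} (hg : RegularOn T g)
    (hST : S ⊆ T) : RegularOn S g := fun i => by
  obtain ⟨P, Q, h⟩ := hg i
  exact ⟨P, Q, fun z hz => h z (hST hz)⟩

theorem isRF_aeval {ι : Type} {S : Set (Pt k ι)} {g : Fin n → Pt k ι → AlgebraicClosure k}
    (hg : ∀ j, IsRF S (g j)) (p : MvPolynomial (Fin n) k) :
    IsRF S (fun z => aeval (fun j => g j z) p) := by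
  induction p using MvPolynomial.induction_on with
  | C a =>
    simp only [algHom_C]
    exact (IsPF.const a).isRF S
  | add p q hp hq =>
    simp only [map_add]
    exact hp.add hq
  | mul_X p i hp =>
    simp only [map_mul, aeval_X]
    exact hp.mul (hg i)

theorem constr_rf {ι : Type} {S : Set (Pt k ι)} (hS : Constr S)
    {g : Pt k ι → AlgebraicClosure k} (hg : IsRF S g) : Constr {z | z ∈ S ∧ g z = 0} := by
  obtain ⟨P, Q, h⟩ := hg
  have e : {z | z ∈ S ∧ g z = 0} = S ∩ {z | aeval z P = 0} := by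
    ext z
    constructor
    · rintro ⟨h1, h2⟩
      obtain ⟨h3, h4⟩ := h z h1
      rw [h4, div_eq_zero_iff] at h2
      exact ⟨h1, h2.resolve_right h3⟩
    · rintro ⟨h1, h2⟩
      obtain ⟨h3, h4⟩ := h z h1
      have h5 : aeval z P = 0 := h2
      exact ⟨h1, by rw [h4, h5, zero_div]⟩
  rw [e]
  exact hS.inter (Constr.zero P)

theorem constr_cond (h : Fin n → Fin m) (σ : Fin m → MvPolynomial (Fin n) k) (V : MuVar F) :
    Constr {z | z ∈ V.S ∧ V.π z = sig σ (hr h (V.π z))} := by
  have e : {z | z ∈ V.S ∧ V.π z = sig σ (hr h (V.π z))} =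
      {z | z ∈ V.S ∧ ∀ i, z ∈ V.S ∧ V.π z i - sig σ (hr h (V.π z)) i = 0} := by
    ext z
    constructor
    · rintro ⟨h1, h2⟩
      exact ⟨h1, fun i => ⟨h1, sub_eq_zero.2 (congrFun h2 i)⟩⟩
    · rintro ⟨h1, h2⟩
      exact ⟨h1, funext fun i => sub_eq_zero.1 (h2 i).2⟩
  rw [e]
  refine Constr.and V.constr (Constr.all fun i => constr_rf V.constr ?_)
  exact IsRF.sub (S := V.S) (F := fun z => V.π z i) (V.regular_π i)
    (isRF_aeval (g := fun j z => V.π z (h j)) (fun j => V.regular_π (h j)) (σ i))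

theorem cond_congr {y y' : Pt k (Fin m)} (e : y = y') (hy : y' = sig σ (hr h y')) :
    y = sig σ (hr h y) := by
  rw [e]
  exact hy

/-- the pull-back of `V` -/
noncomputable def rs (hs : IsSec f F h σ) (V : MuVar F) : MuVar f where
  N := V.N
  S := {z | z ∈ V.S ∧ V.π z = sig σ (hr h (V.π z))}
  constr := constr_cond h σ V
  π := fun z => hr h (V.π z)
  regular_π := fun j => by
    obtain ⟨P, Q, hPQ⟩ := V.regular_π (h j)
    exact ⟨P, Q, fun z hz => hPQ z hz.1⟩
  π_mem := fun z hz => by
    rw [← F_sig hs, ← hz.2]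
    exact V.π_mem z hz.1
  d := V.d
  d_pos := V.d_pos
  act := V.act
  regular_act := reg_mono V.regular_act fun w hw => ⟨hw.1, hw.2.1⟩
  act_mem := fun ζ hζ z hz => ⟨V.act_mem ζ hζ z hz.1, by
    rw [V.π_act ζ hζ z hz.1]
    exact hz.2⟩
  act_one := fun z hz => V.act_one z hz.1
  act_mul := fun ζ ζ' h1 h2 z hz => V.act_mul ζ ζ' h1 h2 z hz.1
  π_act := fun ζ hζ z hz => by rw [V.π_act ζ hζ z hz.1]

theorem rs_mem (hs : IsSec f F h σ) (V : MuVar F) (z : Pt k (Fin V.N)) :
    z ∈ (rs hs V).S ↔ z ∈ V.S ∧ V.π z = sig σ (hr h (V.π z)) := Iff.rfl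

theorem rs_iso (hs : IsSec f F h σ) (V W : MuVar F) (φ : Pt k (Fin V.N) → Pt k (Fin W.N))
    (ψ : Pt k (Fin W.N) → Pt k (Fin V.N)) (H : IsMuIso V W φ ψ) :
    K0Mu.mk (rs hs V) = K0Mu.mk (rs hs W) := by
  refine mk_iso (rs hs V) (rs hs W) φ ψ ?_
  exact
    { regular := reg_mono H.regular fun z hz => hz.1
      regular' := reg_mono H.regular' fun z hz => hz.1
      mapsTo := fun z hz => ⟨H.mapsTo hz.1, by
        rw [H.overBase z hz.1]
        exact hz.2⟩
      mapsTo' := fun w hw => ⟨H.mapsTo' hw.1, by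
        have h1 := H.overBase (ψ w) (H.mapsTo' hw.1)
        rw [H.right_inv w hw.1] at h1
        rw [← h1]
        exact hw.2⟩
      left_inv := fun z hz => H.left_inv z hz.1
      right_inv := fun w hw => H.right_inv w hw.1
      overBase := fun z hz => congrArg (hr h) (H.overBase z hz.1)
      equivariant := fun l hl z hz => H.equivariant l hl z hz.1 }

theorem rs_scissors (hs : IsSec f F h σ) (V : MuVar F) (T : Set (Pt k (Fin V.N)))
    (hT : Constr T) (hTS : T ⊆ V.S)
    (hst : ∀ ζ : AlgebraicClosure k, ζ ^ V.d = 1 → ∀ z ∈ T, V.act ζ z ∈ T)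
    (hT' : Constr (V.S \ T))
    (hst' : ∀ ζ : AlgebraicClosure k, ζ ^ V.d = 1 → ∀ z ∈ V.S \ T, V.act ζ z ∈ V.S \ T) :
    K0Mu.mk (rs hs V) = K0Mu.mk (rs hs (V.restrict T hT hTS hst)) +
      K0Mu.mk (rs hs (V.restrict (V.S \ T) hT' Set.sdiff_subset hst')) := by
  have hdiff : (rs hs V).S \ (rs hs (V.restrict T hT hTS hst)).S =
      (rs hs (V.restrict (V.S \ T) hT' Set.sdiff_subset hst')).S := by
    ext z
    constructor
    · rintro ⟨h1, h2⟩
      exact ⟨⟨h1.1, fun h3 => h2 ⟨h3, h1.2⟩⟩, h1.2⟩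
    · rintro ⟨⟨h1, h2⟩, h3⟩
      exact ⟨⟨h1, h3⟩, fun h4 => h2 h4.1⟩
  have h1 := mk_eq_of_rel (RelMu.scissors (rs hs V) (rs hs (V.restrict T hT hTS hst)).S
    (rs hs (V.restrict T hT hTS hst)).constr (fun z hz => ⟨hTS hz.1, hz.2⟩)
    (rs hs (V.restrict T hT hTS hst)).act_mem
    (by rw [hdiff]; exact (rs hs (V.restrict (V.S \ T) hT' Set.sdiff_subset hst')).constr)
    (by rw [hdiff]; exact (rs hs (V.restrict (V.S \ T) hT' Set.sdiff_subset hst')).act_mem))
  rw [map_add] at h1
  refine h1.trans (congrArg₂ (· + ·) rfl ?_)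
  refine mk_iso _ (rs hs (V.restrict (V.S \ T) hT' Set.sdiff_subset hst')) (fun z => z)
    (fun z => z) ?_
  exact
    { regular := regularOn_poly (fun i => IsPF.coord i) _
      regular' := regularOn_poly (fun i => IsPF.coord i) _
      mapsTo := fun z hz => (Set.ext_iff.1 hdiff z).1 hz
      mapsTo' := fun z hz => (Set.ext_iff.1 hdiff z).2 hz
      left_inv := fun _ _ => rfl
      right_inv := fun _ _ => rfl
      overBase := fun _ _ => rfl
      equivariant := fun _ _ _ _ => rfl }

theorem rs_prod (hs : IsSec f F h σ) (V W P : MuVar F) (p : Pt k (Fin P.N) → Pt k (Fin V.N))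
    (q : Pt k (Fin P.N) → Pt k (Fin W.N)) (j : Pt k (Fin V.N ⊕ Fin W.N) → Pt k (Fin P.N))
    (H : IsFibreProd V W P p q j) :
    K0Mu.mk (rs hs P) = K0Mu.mk (rs hs V) * K0Mu.mk (rs hs W) := by
  have key : ∀ v ∈ (rs hs V).S, ∀ w ∈ (rs hs W).S, hr h (V.π v) = hr h (W.π w) →
      V.π v = W.π w := by
    intro v hv w hw h1
    rw [hv.2, hw.2, h1]
  have h1 := mk_eq_of_rel (RelMu.prod (rs hs V) (rs hs W) (rs hs P) p q j
    { regular_p := reg_mono H.regular_p fun z hz => hz.1
      regular_q := reg_mono H.regular_q fun z hz => hz.1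
      regular_j := reg_mono H.regular_j fun w hw => ⟨hw.1.1, hw.2.1.1, key _ hw.1 _ hw.2.1 hw.2.2⟩
      mapsTo := fun z hz => by
        obtain ⟨h1, h2, h3, h4⟩ := H.mapsTo z hz.1
        refine ⟨⟨h1, ?_⟩, ⟨h2, ?_⟩, congrArg (hr h) h3, congrArg (hr h) h4⟩
        · rw [h4]
          exact hz.2
        · rw [← h3, h4]
          exact hz.2
      mapsTo' := fun v hv w hw hvw => by
        have h5 := key v hv w hw hvw
        obtain ⟨h1, h2, h3⟩ := H.mapsTo' v hv.1 w hw.1 h5
        refine ⟨⟨h1, ?_⟩, h2, h3⟩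
        have h4 := (H.mapsTo _ h1).2.2.2
        exact cond_congr (h4.symm.trans (congrArg V.π h2)) hv.2
      inj := fun z hz => H.inj z hz.1
      equivariant_p := fun l hl z hz => H.equivariant_p l hl z hz.1
      equivariant_q := fun l hl z hz => H.equivariant_q l hl z hz.1 })
  rw [map_mul] at h1
  exact h1

theorem sig_pf (σ : Fin m → MvPolynomial (Fin n) k) (i : Fin m) :
    IsPF (fun x : Pt k (Fin n) => sig σ x i) := IsPF.poly (σ i)

theorem rs_one (hs : IsSec f F h σ) : K0Mu.mk (rs hs (MuVar.base F)) = 1 := by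
  have h1 : K0Mu.mk (rs hs (MuVar.base F)) = K0Mu.mk (MuVar.base f) := by
    refine mk_iso (rs hs (MuVar.base F)) (MuVar.base f) (fun z => hr h z) (fun x => sig σ x) ?_
    exact
      { regular := regularOn_poly (fun i => IsPF.coord (h i)) _
        regular' := regularOn_poly (fun i => sig_pf σ i) _
        mapsTo := fun z hz => by
          have h2 : z = sig σ (hr h z) := hz.2
          change aeval (hr h z) f = 0
          rw [← F_sig hs, ← h2]
          exact hz.1
        mapsTo' := fun x hx => by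
          have h2 : aeval x f = 0 := hx
          refine ⟨?_, ?_⟩
          · exact (F_sig hs x).trans h2
          · exact congrArg (sig σ) (hr_sig hs x).symm
        left_inv := fun z hz => by
          have h2 : z = sig σ (hr h z) := hz.2
          exact h2.symm
        right_inv := fun x _ => hr_sig hs x
        overBase := fun _ _ => rfl
        equivariant := fun _ _ _ _ => rfl }
  have h2 := mk_eq_of_rel (RelMu.one (f := f))
  rw [map_one] at h2
  exact h1.trans h2

theorem rs_aff (hs : IsSec f F h σ) (r : ℕ) :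
    K0Mu.mk (rs hs (MuVar.aff F r)) = K0Mu.mk (MuVar.aff f r) := by
  let φ : Pt k (Fin (m + r)) → Pt k (Fin (n + r)) := fun z =>
    Fin.addCases (fun j => z (Fin.castAdd r (h j))) (fun j => z (Fin.natAdd m j))
  let ψ : Pt k (Fin (n + r)) → Pt k (Fin (m + r)) := fun x =>
    Fin.addCases (fun i => sig σ (fun j => x (Fin.castAdd r j)) i) (fun j => x (Fin.natAdd n j))
  have hφ1 : ∀ z, (fun j => φ z (Fin.castAdd r j)) = hr h (fun i => z (Fin.castAdd r i)) := by
    intro z
    funext j
    simp only [φ, Fin.addCases_left]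
    rfl
  have hφ2 : ∀ z j, φ z (Fin.natAdd n j) = z (Fin.natAdd m j) := by
    intro z j
    simp only [φ, Fin.addCases_right]
  have hψ1 : ∀ x, (fun i => ψ x (Fin.castAdd r i)) = sig σ (fun j => x (Fin.castAdd r j)) := by
    intro x
    funext i
    simp only [ψ, Fin.addCases_left]
  have hψ2 : ∀ x j, ψ x (Fin.natAdd m j) = x (Fin.natAdd n j) := by
    intro x j
    simp only [ψ, Fin.addCases_right]
  have mm : ∀ z : Pt k (Fin (m + r)), aeval (fun i => z (Fin.castAdd r i)) F = 0 →
      (fun i => z (Fin.castAdd r i)) = sig σ (hr h (fun i => z (Fin.castAdd r i))) →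
      aeval (fun j => φ z (Fin.castAdd r j)) f = 0 := by
    intro z h1 h2
    rw [hφ1, ← F_sig hs, ← h2]
    exact h1
  have mm' : ∀ x : Pt k (Fin (n + r)), aeval (fun i => x (Fin.castAdd r i)) f = 0 →
      aeval (fun i => ψ x (Fin.castAdd r i)) F = 0 ∧
      (fun i => ψ x (Fin.castAdd r i)) = sig σ (hr h (fun i => ψ x (Fin.castAdd r i))) := by
    intro x h2
    refine ⟨?_, ?_⟩
    · rw [hψ1, F_sig hs, h2]
    · rw [hψ1, hr_sig hs]
  have li : ∀ z : Pt k (Fin (m + r)),
      (fun i => z (Fin.castAdd r i)) = sig σ (hr h (fun i => z (Fin.castAdd r i))) →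
      ψ (φ z) = z := by
    intro z h2
    funext i
    refine Fin.addCases (fun j => ?_) (fun j => ?_) i
    · have h3 := congrFun (hψ1 (φ z)) j
      rw [hφ1, ← h2] at h3
      exact h3
    · rw [hψ2, hφ2]
  have ri : ∀ x : Pt k (Fin (n + r)), φ (ψ x) = x := by
    intro x
    funext i
    refine Fin.addCases (fun j => ?_) (fun j => ?_) i
    · have h3 := congrFun (hφ1 (ψ x)) j
      rw [hψ1, hr_sig hs] at h3
      exact h3
    · rw [hφ2, hψ2]
  refine mk_iso (rs hs (MuVar.aff F r)) (MuVar.aff f r) φ ψ ?_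
  exact
    { regular := by
        refine regularOn_poly (fun i => ?_) _
        refine Fin.addCases (fun j => ?_) (fun j => ?_) i
        · simp only [φ, Fin.addCases_left]
          exact IsPF.coord _
        · simp only [φ, Fin.addCases_right]
          exact IsPF.coord _
      regular' := by
        refine regularOn_poly (fun i => ?_) _
        refine Fin.addCases (fun j => ?_) (fun j => ?_) i
        · simp only [ψ, Fin.addCases_left]
          exact (sig_pf σ j).comp (fun (x : Pt k (Fin (n + r))) j => x (Fin.castAdd r j))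
            fun i => IsPF.coord _
        · simp only [ψ, Fin.addCases_right]
          exact IsPF.coord _
      mapsTo := fun z hz => by
        have h1 : aeval (fun i => z (Fin.castAdd r i)) F = 0 := hz.1
        have h2 : (fun i => z (Fin.castAdd r i)) = sig σ (hr h (fun i => z (Fin.castAdd r i))) :=
          hz.2
        exact mm z h1 h2
      mapsTo' := fun x hx => by
        have h2 : aeval (fun i => x (Fin.castAdd r i)) f = 0 := hx
        exact mm' x h2
      left_inv := fun z hz => by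
        have h2 : (fun i => z (Fin.castAdd r i)) = sig σ (hr h (fun i => z (Fin.castAdd r i))) :=
          hz.2
        exact li z h2
      right_inv := fun x _ => ri x
      overBase := fun z _ => hφ1 z
      equivariant := fun _ _ _ _ => rfl }

theorem rs_affine (hs : IsSec f F h σ) (V P : MuVar F) (r : ℕ)
    (p : Pt k (Fin P.N) → Pt k (Fin V.N)) (q : Pt k (Fin P.N) → Pt k (Fin r))
    (j : Pt k (Fin V.N ⊕ Fin r) → Pt k (Fin P.N)) (H : IsAffineLift V P r p q j) :
    K0Mu.mk (rs hs P) = K0Mu.mk (rs hs V) * K0Mu.mk (MuVar.aff f r) := by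
  refine mk_affine (rs hs V) (rs hs P) r p q j ?_
  exact
    { regular_p := reg_mono H.regular_p fun z hz => hz.1
      regular_q := reg_mono H.regular_q fun z hz => hz.1
      regular_j := reg_mono H.regular_j fun w hw => hw.1
      mapsTo := fun z hz => by
        obtain ⟨h1, h2⟩ := H.mapsTo z hz.1
        refine ⟨⟨h1, ?_⟩, congrArg (hr h) h2⟩
        rw [h2]
        exact hz.2
      mapsTo' := fun v hv w => by
        obtain ⟨h1, h2, h3⟩ := H.mapsTo' v hv.1 w
        refine ⟨⟨h1, ?_⟩, h2, h3⟩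
        have h4 := (H.mapsTo _ h1).2
        exact cond_congr (h4.symm.trans (congrArg V.π h2)) hv.2
      inj := fun z hz => H.inj z hz.1
      equivariant_p := fun l hl z hz => H.equivariant_p l hl z hz.1
      affine := fun l hl v hv => by
        obtain ⟨A, b, h1⟩ := H.affine l hl v hv.1
        exact ⟨A, b, fun z hz hzv => h1 z hz.1 hzv⟩ }

/-- the homomorphism on the polynomial ring -/
noncomputable def pre (hs : IsSec f F h σ) : MvPolynomial (MuVar F) ℤ →+* K0Mu f :=
  eval₂Hom (Int.castRingHom (K0Mu f)) fun V => K0Mu.mk (rs hs V)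

theorem pre_X (hs : IsSec f F h σ) (V : MuVar F) : pre hs (X V) = K0Mu.mk (rs hs V) :=
  eval₂Hom_X' _ _ _

theorem pre_rel (hs : IsSec f F h σ) {x : MvPolynomial (MuVar F) ℤ} (hx : RelMu F x) :
    pre hs x = 0 := by
  cases hx with
  | iso V W φ ψ H => rw [map_sub, pre_X, pre_X, rs_iso hs V W φ ψ H, sub_self]
  | scissors V T hT hTS hst hT' hst' =>
    rw [map_sub, map_add, pre_X, pre_X, pre_X, rs_scissors hs V T hT hTS hst hT' hst', sub_self]
  | prod V W P p q j H =>
    rw [map_sub, map_mul, pre_X, pre_X, pre_X, rs_prod hs V W P p q j H, sub_self]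
  | one => rw [map_sub, map_one, pre_X, rs_one, sub_self]
  | affine V P r p q j H =>
    rw [map_sub, map_mul, pre_X, pre_X, pre_X, rs_affine hs V P r p q j H, rs_aff, sub_self]

/-- the pull-back -/
noncomputable def pb (hs : IsSec f F h σ) : K0Mu F →+* K0Mu f :=
  Ideal.Quotient.lift (Ideal.span {x | RelMu F x}) (pre hs) fun a ha => by
    have h1 : Ideal.span {x | RelMu F x} ≤ RingHom.ker (pre hs) :=
      Ideal.span_le.2 fun x hx => pre_rel hs hx
    exact h1 ha

theorem pb_mk (hs : IsSec f F h σ) (V : MuVar F) : pb hs (K0Mu.mk V) = K0Mu.mk (rs hs V) :=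
  (Ideal.Quotient.lift_mk _ _ _).trans (pre_X hs V)

theorem validS (hs : IsSec f F h σ) (N : ℕ) (hN : 0 < N) :
    Valid f (JetS F h σ N) (jw m N) N (jbs h N) where
  constr := by
    refine Constr.and (jetValid F N hN).constr (Constr.all fun i => Constr.eq (IsPF.coord _) ?_)
    exact (IsPF.poly (σ i)).comp (fun (z : Pt k (Fin m × Fin (N + 1))) j => z (h j, 0))
      fun j => IsPF.coord _
  pos := hN
  stable := fun l hl z hz => by
    refine ⟨(jetValid F N hN).stable l hl z hz.1, fun i => ?_⟩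
    have h1 : ∀ i : Fin m, dact (jw m N) l z (i, 0) = z (i, 0) := by
      intro i
      simp [dact, jw]
    rw [h1]
    simp only [h1]
    exact hz.2 i
  base := fun z hz => by
    have h1 := (jetValid F N hN).base z hz.1
    have h2 : cbase (fun i : Fin m => some (i, (0 : Fin (N + 1)))) z =
        sig σ (cbase (jbs h N) z) := by
      funext i
      exact hz.2 i
    rw [h2, F_sig hs] at h1
    exact h1
  inv := fun i j hij => by
    unfold jbs at hij
    rw [Option.some.injEq] at hij
    rw [← hij]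
    rfl

theorem mk_jet (hs : IsSec f F h σ) (N : ℕ) (hN : 0 < N) :
    K0Mu.mk (rs hs (diagVar (jetValid F N hN))) = K0Mu.mk (diagVar (validS hs N hN)) := by
  refine mk_iso (rs hs (diagVar (jetValid F N hN))) (diagVar (validS hs N hN)) (fun z => z)
    (fun z => z) ?_
  exact
    { regular := regularOn_poly (fun i => IsPF.coord i) _
      regular' := regularOn_poly (fun i => IsPF.coord i) _
      mapsTo := fun z hz => ⟨hz.1, fun i => congrFun hz.2 i⟩
      mapsTo' := fun z hz => ⟨hz.1, funext fun i => hz.2 i⟩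
      left_inv := fun _ _ => rfl
      right_inv := fun _ _ => rfl
      overBase := fun _ _ => rfl
      equivariant := fun _ _ _ _ => rfl }

end

end EPBaux

open EPBaux in
theorem epb : TaskEPB := by
  intro k _ _ n m f F h σ hs
  refine ⟨pb hs, ?_, fun N hN => ⟨validS hs N hN, ?_⟩⟩
  · unfold LMu
    rw [pb_mk, rs_aff]
  · exact (pb_mk hs _).trans (mk_jet hs N hN)

end Pool.Agent.N101.CB
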