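import Pool.Agent.N101.CB.StmQ
import Pool.Agent.W578.ME.Etw

/-!
# Project CUB: the class of the jets with `f = 0 mod t ^ j` does not depend on the level (helper434)
-/

set_option autoImplicit false

namespace Pool.Agent.N101.CB.ETTaux

open MvPolynomial Pool.Agent.W428.MOT Pool.Agent.N101.CB

section change

variable {k : Type} [Field k] {n : ℕ} {f : MvPolynomial (Fin n) k} {ι : Type}
  {S : Set (Pt k ι)} {ρ : ι → ℤ} {d d₁ d₂ : ℕ} {β : Fin n → Option ι}

/-- the points of `S` whose coordinates in `A` are nonzero and whose coordinates in `B` vanish -/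
def St (S : Set (Pt k ι)) (A B : Finset ι) : Set (Pt k ι) :=
  {z | z ∈ S ∧ (∀ p ∈ A, z p ≠ 0) ∧ ∀ p ∈ B, z p = 0}

/-- the weights are changed to `0` on `B` -/
def wt [DecidableEq ι] (ρ : ι → ℤ) (B : Finset ι) (p : ι) : ℤ := if p ∈ B then 0 else ρ p

theorem dact_wt [DecidableEq ι] {A B : Finset ι} {z : Pt k ι} (hz : z ∈ St S A B)
    (l : AlgebraicClosure k) : dact (wt ρ B) l z = dact ρ l z := by
  funext p
  unfold dact wt
  split_ifs with h
  · rw [hz.2.2 p h, mul_zero, mul_zero]
  · rfl

theorem dact_mem {A B : Finset ι} {z : Pt k ι} {l : AlgebraicClosure k} (hl : l ≠ 0)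
    (hz : z ∈ St S A B) (h : dact ρ l z ∈ S) : dact ρ l z ∈ St S A B := by
  refine ⟨h, fun p hp => mul_ne_zero (zpow_ne_zero _ hl) (hz.2.1 p hp), fun p hp => ?_⟩
  show l ^ ρ p * z p = 0
  rw [hz.2.2 p hp, mul_zero]

theorem ne_zero_of_pow {l : AlgebraicClosure k} {M : ℕ} (hM : 0 < M) (h : l ^ M = 1) : l ≠ 0 := by
  rintro rfl
  rw [zero_pow hM.ne'] at h
  exact zero_ne_one h

theorem valid_St (h : Valid f S ρ d β) (A B : Finset ι) : Valid f (St S A B) ρ d β where
  constr := h.constr.and ((Constr.ballFinset A fun p _ => Constr.ne (IsPF.coord p) IsPF.zero).and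
    (Constr.ballFinset B fun p _ => Constr.eqz (IsPF.coord p)))
  pos := h.pos
  stable := fun l hl z hz => dact_mem (ne_zero_of_pow h.pos hl) hz (h.stable l hl z hz.1)
  base := fun z hz => h.base z hz.1
  inv := h.inv

theorem valid_wt [DecidableEq ι] (h : Valid f S ρ d β) (A B : Finset ι) :
    Valid f (St S A B) (wt ρ B) d β where
  constr := (valid_St h A B).constr
  pos := h.pos
  stable := fun l hl z hz => by
    rw [dact_wt hz]
    exact (valid_St h A B).stable l hl z hz
  base := (valid_St h A B).base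
  inv := fun i j hij => by
    unfold wt
    split_ifs
    · rfl
    · exact h.inv i j hij

variable {R : Type} [CommRing R] (M : EMeas f R) [Fintype ι] [DecidableEq ι]

theorem chi_wt (h : Valid f S ρ d β) (A B : Finset ι) :
    M.χ ι (St S A B) ρ d β = M.χ ι (St S A B) (wt ρ B) d β :=
  M.iso _ _ _ _ _ _ _ _ (valid_St h A B) (valid_wt h A B) (fun z => z) (fun z => z)
    (regularOn_poly (fun i => IsPF.coord i) _) (regularOn_poly (fun i => IsPF.coord i) _)
    (fun _ hz => hz) (fun _ hz => hz) (fun _ _ => rfl) (fun _ _ => rfl) (fun _ _ => rfl)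
    (fun _ _ _ hz => (dact_wt hz _).symm)

theorem chi_full (h1 : Valid f S ρ d₁ β) (h2 : Valid f S ρ d₂ β)
    (hst : ∀ s : AlgebraicClosure k, s ≠ 0 → ∀ z ∈ S, dact ρ s z ∈ S) (A B : Finset ι)
    (hAB : ∀ p, p ∈ A ∨ p ∈ B) : M.χ ι (St S A B) ρ d₁ β = M.χ ι (St S A B) ρ d₂ β := by
  rw [chi_wt M h1, chi_wt M h2]
  refine Pool.Agent.W578.ME.etw M (St S A B) (wt ρ B) (wt ρ B) d₁ d₂ β (valid_wt h1 A B)
    (valid_wt h2 A B) ?_ ?_
  · intro z hz p hp
    rcases hAB p with h | h
    · exact hz.2.1 p h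
    · exfalso
      apply hp
      simp [wt, h]
  · intro s hs z hz
    have e : dact (fun i => (d₂ : ℤ) * wt ρ B i - d₁ * wt ρ B i) s z =
        dact (wt ρ B) (s ^ ((d₂ : ℤ) - d₁)) z := by
      funext p
      unfold dact
      rw [← zpow_mul]
      congr 2
      ring
    rw [e, dact_wt hz]
    exact dact_mem (zpow_ne_zero _ hs) hz (hst _ (zpow_ne_zero _ hs) z hz.1)

theorem chi_ind (h1 : Valid f S ρ d₁ β) (h2 : Valid f S ρ d₂ β)
    (hst : ∀ s : AlgebraicClosure k, s ≠ 0 → ∀ z ∈ S, dact ρ s z ∈ S) :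
    ∀ (m : ℕ) (A B : Finset ι), (Finset.univ \ (A ∪ B)).card = m →
      M.χ ι (St S A B) ρ d₁ β = M.χ ι (St S A B) ρ d₂ β := by
  intro m
  induction m with
  | zero =>
    intro A B hm
    apply chi_full M h1 h2 hst
    intro p
    rw [Finset.card_eq_zero] at hm
    by_contra hcon
    push Not at hcon
    have : p ∈ Finset.univ \ (A ∪ B) := by
      rw [Finset.mem_sdiff, Finset.mem_union]
      exact ⟨Finset.mem_univ p, fun h => h.elim hcon.1 hcon.2⟩
    rw [hm] at this
    exact absurd this (Finset.notMem_empty p)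
  | succ m ih =>
    intro A B hm
    obtain ⟨p, hp⟩ : (Finset.univ \ (A ∪ B)).Nonempty := by
      rw [← Finset.card_pos]
      omega
    have e : St S A B = St S (insert p A) B ∪ St S A (insert p B) := by
      ext z
      constructor
      · rintro ⟨g1, g2, g3⟩
        by_cases hz : z p = 0
        · right
          refine ⟨g1, g2, fun q hq => ?_⟩
          rcases Finset.mem_insert.1 hq with h | h
          · rw [h]; exact hz
          · exact g3 q h
        · left
          refine ⟨g1, fun q hq => ?_, g3⟩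
          rcases Finset.mem_insert.1 hq with h | h
          · rw [h]; exact hz
          · exact g2 q h
      · rintro (⟨g1, g2, g3⟩ | ⟨g1, g2, g3⟩)
        · exact ⟨g1, fun q hq => g2 q (Finset.mem_insert_of_mem hq), g3⟩
        · exact ⟨g1, g2, fun q hq => g3 q (Finset.mem_insert_of_mem hq)⟩
    have hd : Disjoint (St S (insert p A) B) (St S A (insert p B)) := by
      rw [Set.disjoint_left]
      rintro z ⟨-, g2, -⟩ ⟨-, -, g3⟩
      exact g2 p (Finset.mem_insert_self p A) (g3 p (Finset.mem_insert_self p B))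
    have c1 : (Finset.univ \ (insert p A ∪ B)).card = m := by
      have e1 : Finset.univ \ (insert p A ∪ B) = (Finset.univ \ (A ∪ B)).erase p := by
        ext q
        simp only [Finset.mem_sdiff, Finset.mem_union, Finset.mem_insert, Finset.mem_erase,
          Finset.mem_univ, true_and]
        tauto
      rw [e1, Finset.card_erase_of_mem hp, hm]
      rfl
    have c2 : (Finset.univ \ (A ∪ insert p B)).card = m := by
      have e1 : Finset.univ \ (A ∪ insert p B) = (Finset.univ \ (A ∪ B)).erase p := by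
        ext q
        simp only [Finset.mem_sdiff, Finset.mem_union, Finset.mem_insert, Finset.mem_erase,
          Finset.mem_univ, true_and]
        tauto
      rw [e1, Finset.card_erase_of_mem hp, hm]
      rfl
    rw [e, M.add _ _ ρ d₁ β (valid_St h1 _ _) (valid_St h1 _ _) hd,
      M.add _ _ ρ d₂ β (valid_St h2 _ _) (valid_St h2 _ _) hd, ih _ _ c1, ih _ _ c2]

/-- change of the group -/
theorem chi_change (h1 : Valid f S ρ d₁ β) (h2 : Valid f S ρ d₂ β)
    (hst : ∀ s : AlgebraicClosure k, s ≠ 0 → ∀ z ∈ S, dact ρ s z ∈ S) :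
    M.χ ι S ρ d₁ β = M.χ ι S ρ d₂ β := by
  have h := chi_ind M h1 h2 hst _ ∅ ∅ rfl
  have e : St S ∅ ∅ = S := by
    ext z
    simp [St]
  rwa [e] at h

end change

section jets

variable {k : Type} [Field k] {n : ℕ}

theorem tl_dact {f : MvPolynomial (Fin n) k} {j N : ℕ} {z : Pt k (Fin n × Fin (N + 1))}
    (hz : z ∈ TlE f j N) (l : AlgebraicClosure k) : dact (jw n N) l z ∈ TlE f j N := by
  intro i hi
  have h1 : arc (dact (jw n N) l z) = fun i => PowerSeries.rescale l (arc z i) :=
    funext fun i => arc_dact l z i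
  rw [h1, aeval_rescale, PowerSeries.coeff_rescale, hz i hi, mul_zero]

theorem coeff0 {N : ℕ} (z : Pt k (Fin n × Fin (N + 1))) (g : MvPolynomial (Fin n) k) :
    PowerSeries.coeff 0 (aeval (arc z) g) = aeval (cbase (jb n N) z) g := by
  induction g using MvPolynomial.induction_on with
  | C a =>
    rw [algHom_C, algHom_C, PowerSeries.algebraMap_apply, PowerSeries.coeff_zero_C]
  | add p q hp hq => rw [map_add, map_add, map_add, hp, hq]
  | mul_X p i hp =>
    have e1 : aeval (arc z) (p * X i) = aeval (arc z) p * arc z i := by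
      rw [map_mul, aeval_X]
    have e2 : aeval (cbase (jb n N) z) (p * X i) =
        aeval (cbase (jb n N) z) p * cbase (jb n N) z i := by
      rw [map_mul, aeval_X]
    rw [e1, e2, ← hp]
    simp only [PowerSeries.coeff_zero_eq_constantCoeff_apply, map_mul]
    congr 1

theorem tl_valid (f : MvPolynomial (Fin n) k) {j N d : ℕ} (hj : 1 ≤ j) (hd : 0 < d) :
    Valid f (TlE f j N) (jw n N) d (jb n N) where
  constr := Constr.allLt j fun i _ =>
    Constr.eqz (IsPA.aeval (fun i z => arc z i) (fun i => isPA_arc i) f i)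
  pos := hd
  stable := fun l _ z hz => tl_dact hz l
  base := fun z hz => by
    rw [← coeff0]
    exact hz 0 hj
  inv := fun i j h => by
    rw [jb, Option.some.injEq] at h
    rw [← h]
    rfl

theorem coeff_congr {N : ℕ} {γ γ' : Fin n → PowerSeries (AlgebraicClosure k)}
    (h : ∀ i, ∀ l ≤ N, PowerSeries.coeff l (γ i) = PowerSeries.coeff l (γ' i))
    (g : MvPolynomial (Fin n) k) : ∀ l ≤ N,
      PowerSeries.coeff l (aeval γ g) = PowerSeries.coeff l (aeval γ' g) := by
  induction g using MvPolynomial.induction_on with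
  | C a =>
    intro l _
    rw [algHom_C, algHom_C]
  | add p q hp hq =>
    intro l hl
    rw [map_add, map_add, map_add, map_add, hp l hl, hq l hl]
  | mul_X p i hp =>
    intro l hl
    have e1 : ∀ δ : Fin n → PowerSeries (AlgebraicClosure k),
        aeval δ (p * X i) = aeval δ p * δ i := fun δ => by rw [map_mul, aeval_X]
    rw [e1, e1, PowerSeries.coeff_mul, PowerSeries.coeff_mul]
    refine Finset.sum_congr rfl fun q hq => ?_
    have h1 := Finset.HasAntidiagonal.mem_antidiagonal.1 hq
    rw [hp q.1 (by omega), h i q.2 (by omega)]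

/-- the coordinates of the jet of lower level, and the free ones -/
def ph {N : ℕ} (z : Pt k (Fin n × Fin (N + 1 + 1))) : Pt k ((Fin n × Fin (N + 1)) ⊕ Fin n) :=
  Sum.elim (fun p => z (p.1, p.2.castSucc)) (fun i => z (i, Fin.last (N + 1)))

/-- the inverse map -/
def ps {N : ℕ} (w : Pt k ((Fin n × Fin (N + 1)) ⊕ Fin n)) : Pt k (Fin n × Fin (N + 1 + 1)) :=
  fun p => if h : (p.2 : ℕ) < N + 1 then w (Sum.inl (p.1, ⟨p.2, h⟩)) else w (Sum.inr p.1)

theorem ps_ph {N : ℕ} (z : Pt k (Fin n × Fin (N + 1 + 1))) : ps (ph z) = z := by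
  funext p
  unfold ps
  split_ifs with h
  · rfl
  · show z (p.1, Fin.last (N + 1)) = z p
    congr 1
    have h1 := p.2.2
    exact Prod.ext rfl (Fin.ext (by simp only [Fin.val_last]; omega))

theorem ph_ps {N : ℕ} (w : Pt k ((Fin n × Fin (N + 1)) ⊕ Fin n)) : ph (ps w) = w := by
  funext p
  rcases p with p | i
  · show ps w (p.1, p.2.castSucc) = w (Sum.inl p)
    unfold ps
    have h : ((p.2.castSucc : Fin (N + 1 + 1)) : ℕ) < N + 1 := p.2.2
    rw [dif_pos h]
    rfl
  · show ps w (i, Fin.last (N + 1)) = w (Sum.inr i)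
    unfold ps
    rw [dif_neg (by simp)]

theorem mem_ph {f : MvPolynomial (Fin n) k} {j N : ℕ} (hj : j ≤ N)
    (z : Pt k (Fin n × Fin (N + 1 + 1))) :
    z ∈ TlE f j (N + 1) ↔ (fun i => ph z (Sum.inl i)) ∈ TlE f j N := by
  have h1 : ∀ i, ∀ l ≤ N, PowerSeries.coeff l (arc z i) =
      PowerSeries.coeff l (arc (fun i => ph z (Sum.inl i)) i) := by
    intro i l hl
    simp only [arc, PowerSeries.coeff_mk]
    rw [dif_pos (by omega), dif_pos (by omega)]
    rfl
  have h2 := coeff_congr h1 f
  constructor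
  · intro h l hl
    rw [← h2 l (by omega)]
    exact h l hl
  · intro h l hl
    rw [h2 l (by omega)]
    exact h l hl

theorem lift_valid (f : MvPolynomial (Fin n) k) {j N : ℕ} (hj : 1 ≤ j) :
    Valid f {z : Pt k ((Fin n × Fin (N + 1)) ⊕ Fin n) | (fun i => z (Sum.inl i)) ∈ TlE f j N}
      (Sum.elim (jw n N) fun _ => ((N + 1 : ℕ) : ℤ)) (N + 1)
      (fun i => (jb n N i).map Sum.inl) where
  constr := (tl_valid f hj Nat.one_pos).constr.preimage
    (fun (z : Pt k ((Fin n × Fin (N + 1)) ⊕ Fin n)) i => z (Sum.inl i)) fun _ => IsPF.coord _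
  pos := Nat.succ_pos N
  stable := fun l _ z hz => by
    have h1 : dact (jw n N) l (fun i => z (Sum.inl i)) ∈ TlE f j N := tl_dact hz l
    have h2 : (fun i => dact (Sum.elim (jw n N) fun _ => ((N + 1 : ℕ) : ℤ)) l z (Sum.inl i)) =
        dact (jw n N) l (fun i => z (Sum.inl i)) := by
      funext i
      rfl
    show (fun i => dact (Sum.elim (jw n N) fun _ => ((N + 1 : ℕ) : ℤ)) l z (Sum.inl i)) ∈ TlE f j N
    rw [h2]
    exact h1
  base := fun z hz => by
    have h1 := (tl_valid f (N := N) hj Nat.one_pos).base _ hz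
    have h2 : cbase (fun i => (jb n N i).map Sum.inl) z =
        cbase (jb n N) (fun i => z (Sum.inl i)) := by
      funext i
      rfl
    rw [h2]
    exact h1
  inv := fun i j h => by
    rw [jb, Option.map_some, Option.some.injEq] at h
    rw [← h]
    rfl

end jets

end Pool.Agent.N101.CB.ETTaux

namespace Pool.Agent.N101.CB

open MvPolynomial Pool.Agent.W428.MOT ETTaux

theorem ett : TaskETT := by
  intro k _ _ n f R _ M j N hj hjN
  have h1 : M.χ _ (TlE f j (N + 1)) (jw n (N + 1)) (N + 1) (jb n (N + 1)) =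
      M.χ _ {z : Pt k ((Fin n × Fin (N + 1)) ⊕ Fin n) | (fun i => z (Sum.inl i)) ∈ TlE f j N}
      (Sum.elim (jw n N) fun _ => ((N + 1 : ℕ) : ℤ)) (N + 1)
      (fun i => (jb n N i).map Sum.inl) := by
    refine M.iso _ _ _ _ _ _ _ _ (tl_valid f hj (Nat.succ_pos N)) (lift_valid f hj) ph ps
      (regularOn_poly (fun p => ?_) _) (regularOn_poly (fun p => ?_) _) ?_ ?_
      (fun z _ => ps_ph z) (fun w _ => ph_ps w) ?_ ?_
    · rcases p with p | i
      · exact IsPF.coord _
      · exact IsPF.coord _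
    · by_cases h : (p.2 : ℕ) < N + 1
      · have e : (fun z : Pt k ((Fin n × Fin (N + 1)) ⊕ Fin n) => ps z p) =
            fun z => z (Sum.inl (p.1, ⟨p.2, h⟩)) := by
          funext z
          unfold ps
          rw [dif_pos h]
        rw [e]
        exact IsPF.coord _
      · have e : (fun z : Pt k ((Fin n × Fin (N + 1)) ⊕ Fin n) => ps z p) =
            fun z => z (Sum.inr p.1) := by
          funext z
          unfold ps
          rw [dif_neg h]
        rw [e]
        exact IsPF.coord _
    · exact fun z hz => (mem_ph hjN z).1 hz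
    · intro w hw
      rw [mem_ph hjN, ph_ps]
      exact hw
    · intro z _
      rfl
    · intro l _ z _
      funext p
      rcases p with p | i
      · rfl
      · rfl
  have h2 := M.aff (κ := Fin n) (TlE f j N) (jw n N) (fun _ => ((N + 1 : ℕ) : ℤ)) (N + 1) (jb n N)
    (tl_valid f hj (Nat.succ_pos N))
  rw [Fintype.card_fin] at h2
  have hN : 0 < N := by omega
  rw [h1, h2, chi_change (d₂ := N) M (tl_valid f hj (Nat.succ_pos N)) (tl_valid f hj hN)
    (fun s _ z hz => tl_dact hz s)]

end Pool.Agent.N101.CB
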