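import Pool.Agent.N101.CB.Main

/-!
# Project CUB: the exact formulas for the zeta functions of the cubic
-/

set_option autoImplicit false

namespace Pool.Agent.N101.CB

open MvPolynomial Pool.Agent.W428.MOT
open Pool.Agent.W63.MTFin (mapMeas L_mul C_mem)
open Pool.Agent.Y229.MS (rescale_X' rescale_C')

/-- The motivic zeta function `Z^mot_f = 𝕃 ^ (-n) ∑_N [X_N] 𝕃 ^ (-n N) T ^ N` of a polynomial `f` in
`n` variables: `X_N` is the variety of the `N`-jets `ψ` with `ψ(0) ∈ W` and `ord f(ψ) = N`. -/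
noncomputable def Zmot {n : ℕ} (f : MvPolynomial (Fin n) ℂ) (W : Set (Pt ℂ (Fin n))) :
    PowerSeries (MK ℂ) :=
  PowerSeries.C (((Lu ℂ) ^ (-(n : ℤ)) : (MK ℂ)ˣ) : MK ℂ) * zt f W

/-- `𝕃 ^ (-k)`, as a constant -/
noncomputable def cYk (k : ℕ) : PowerSeries (MK ℂ) :=
  PowerSeries.C (((Lu ℂ) ^ (-(k : ℤ)) : (MK ℂ)ˣ) : MK ℂ)

theorem cYk_zero : cYk 0 = 1 := by
  unfold cYk
  simp

theorem cYk_one : cYk 1 = cY ℂ := by
  unfold cYk cY
  rw [Nat.cast_one, zpow_neg_one]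

theorem cYk_add (a b : ℕ) : cYk (a + b) = cYk a * cYk b := by
  unfold cYk
  rw [← map_mul, ← Units.val_mul, ← zpow_add]
  congr 3
  push_cast
  ring

theorem pow_cYk (n : ℕ) : cL ℂ ^ n * cYk n = 1 := by
  unfold cYk cL
  rw [← map_pow, ← map_mul, ← Units.val_pow_eq_pow_val, ← Units.val_mul, ← zpow_natCast,
    ← zpow_add, add_neg_cancel, zpow_zero, Units.val_one, map_one]

/-- the substitution `T ↦ 𝕃 ^ (-k) T` -/
noncomputable def rsk (k : ℕ) : PowerSeries (MK ℂ) →+* PowerSeries (MK ℂ) :=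
  PowerSeries.rescale (((Lu ℂ) ^ (-(k : ℤ)) : (MK ℂ)ˣ) : MK ℂ)

theorem rsk_X (k : ℕ) : rsk k PowerSeries.X = cYk k * PowerSeries.X := rescale_X' _

theorem rsk_C (k : ℕ) (a : MK ℂ) : rsk k (PowerSeries.C a) = PowerSeries.C a := rescale_C' _ _

theorem rsk_rsk (a b : ℕ) (Z : PowerSeries (MK ℂ)) : rsk a (rsk b Z) = rsk (a + b) Z := by
  unfold rsk
  rw [PowerSeries.rescale_rescale, ← Units.val_mul, ← zpow_add]
  congr 3
  push_cast
  ring

theorem rsk_one (Z : PowerSeries (MK ℂ)) :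
    rsk 1 Z = PowerSeries.rescale (((Lu ℂ)⁻¹ : (MK ℂ)ˣ) : MK ℂ) Z := by
  unfold rsk
  rw [Nat.cast_one, zpow_neg_one]

theorem rsk_zero (Z : PowerSeries (MK ℂ)) : rsk 0 Z = Z := by
  unfold rsk
  rw [Nat.cast_zero, neg_zero, zpow_zero, Units.val_one, PowerSeries.rescale_one]
  rfl

/-- `(1 - 𝕃⁻¹ T) Z^mot_f - (1 - 𝕃⁻¹)` -/
noncomputable def Dg {n : ℕ} (f : MvPolynomial (Fin n) ℂ) : PowerSeries (MK ℂ) :=
  (1 - cYk 1 * PowerSeries.X) * Zmot f Set.univ - (1 - cYk 1)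

/-- `(1 - 𝕃⁻¹ T) Z^mot_{f, 0} - 𝕃 ^ (-n) (1 - 𝕃⁻¹) T` -/
noncomputable def Dl {n : ℕ} (f : MvPolynomial (Fin n) ℂ) : PowerSeries (MK ℂ) :=
  (1 - cYk 1 * PowerSeries.X) * Zmot f {0} - cYk n * (1 - cYk 1) * PowerSeries.X

/-- **The formula of a step.** -/
theorem Dg_step {n : ℕ} (f u v : MvPolynomial (Fin n) ℂ) :
    (1 - cYk 1 * PowerSeries.X) * Dg (stp f u v) =
      cYk 1 * (1 - PowerSeries.X) * rsk 1 (Dg f) := by
  have hF := Fz_mul (K := ℂ)
  have hL := cL_cY (K := ℂ)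
  have hZ := zt_glob f u v
  rw [clM_univ, map_pow, ← rsk_one] at hZ
  change zt (stp f u v) Set.univ = cL ℂ ^ n * _ + _ at hZ
  have hn := pow_cYk n
  unfold Dg Zmot
  rw [map_sub, map_mul, map_sub, map_sub, map_mul, map_mul, map_one, rsk_X]
  change (1 - cYk 1 * PowerSeries.X) * ((1 - cYk 1 * PowerSeries.X) *
    (cYk (n + 2) * zt (stp f u v) Set.univ) - (1 - cYk 1)) = _
  have e1 : rsk 1 (cYk 1) = cYk 1 := rsk_C _ _
  have e2 : rsk 1 (PowerSeries.C (((Lu ℂ) ^ (-(n : ℤ)) : (MK ℂ)ˣ) : MK ℂ)) = cYk n := rsk_C _ _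
  rw [e1, e2, hZ, cYk_add, show cYk 2 = cYk 1 * cYk 1 from cYk_add 1 1]
  rw [← cYk_one] at hF hL
  set y := cYk 1
  set l := cL ℂ
  set G := Fz ℂ 1 1
  set Z := rsk 1 (zt f Set.univ)
  set p := l ^ n
  set q := cYk n
  set X : PowerSeries (MK ℂ) := PowerSeries.X
  have a1 : (1 - y * X) * (l - 1 + G) = l - 1 := by linear_combination hF
  have a2 : (1 - y * X) * (1 - G) = 1 - X := by linear_combination (-1 : PowerSeries (MK ℂ)) * hF - X * hL
  have a3 : (1 - y * X) * (l + G) = l * (1 - y * y * X) := by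
    linear_combination hF + y * X * hL
  calc (1 - y * X) * ((1 - y * X) * (q * (y * y) * (p * (l - 1 + G) ^ 2 +
        (1 - G) * (l + G) * Z)) - (1 - y))
      = q * (y * y) * (p * ((1 - y * X) * (l - 1 + G)) ^ 2 +
        ((1 - y * X) * (1 - G)) * ((1 - y * X) * (l + G)) * Z) - (1 - y * X) * (1 - y) := by ring
    _ = q * (y * y) * (p * (l - 1) ^ 2 + (1 - X) * (l * (1 - y * y * X)) * Z) -
        (1 - y * X) * (1 - y) := by rw [a1, a2, a3]
    _ = y * (1 - X) * ((1 - y * (y * X)) * (q * Z) - (1 - y)) := by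
        linear_combination (y * y * (l - 1) ^ 2) * hn +
          (q * y * (1 - X) * (1 - y * y * X) * Z + (y * l - 2 * y + 1)) * hL

/-- **The local formula of a step.** -/
theorem Dl_step {n : ℕ} (f u v : MvPolynomial (Fin n) ℂ) (hf : constantCoeff f = 0)
    (hu : constantCoeff u = 0) (hv : constantCoeff v = 0) :
    (1 - cYk 1 * PowerSeries.X) * Dl (stp f u v) =
      cYk 1 * (1 - PowerSeries.X) * rsk 1 (Dl f) := by
  have hF := Fz_mul (K := ℂ)
  have hL := cL_cY (K := ℂ)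
  have hZ := zt_loc f u v hf hu hv
  rw [clM_zero, map_one, one_mul, ← rsk_one] at hZ
  unfold Dl Zmot
  rw [map_sub, map_mul, map_sub, map_mul, map_mul, map_mul, map_mul, map_sub, map_one, rsk_X]
  change (1 - cYk 1 * PowerSeries.X) * ((1 - cYk 1 * PowerSeries.X) *
    (cYk (n + 2) * zt (stp f u v) {0}) - cYk (n + 2) * (1 - cYk 1) * PowerSeries.X) = _
  have e1 : rsk 1 (cYk 1) = cYk 1 := rsk_C _ _
  have e3 : rsk 1 (cYk n) = cYk n := rsk_C _ _
  have e2 : rsk 1 (PowerSeries.C (((Lu ℂ) ^ (-(n : ℤ)) : (MK ℂ)ˣ) : MK ℂ)) = cYk n := rsk_C _ _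
  rw [e1, e2, e3, hZ, cYk_add, show cYk 2 = cYk 1 * cYk 1 from cYk_add 1 1]
  rw [← cYk_one] at hF hL
  set y := cYk 1
  set l := cL ℂ
  set G := Fz ℂ 1 1
  set Z := rsk 1 (zt f {0})
  set q := cYk n
  set X : PowerSeries (MK ℂ) := PowerSeries.X
  have a2 : (1 - y * X) * (1 - G) = 1 - X := by linear_combination (-1 : PowerSeries (MK ℂ)) * hF - X * hL
  have a3 : (1 - y * X) * (l + G) = l * (1 - y * y * X) := by
    linear_combination hF + y * X * hL
  calc (1 - y * X) * ((1 - y * X) * (q * (y * y) * (G ^ 2 +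
        (1 - G) * (l + G) * Z)) - q * (y * y) * (1 - y) * X)
      = q * (y * y) * (((1 - y * X) * G) ^ 2 +
        ((1 - y * X) * (1 - G)) * ((1 - y * X) * (l + G)) * Z) -
        (1 - y * X) * (q * (y * y) * (1 - y) * X) := by ring
    _ = q * (y * y) * (((l - 1) * (y * X)) ^ 2 + (1 - X) * (l * (1 - y * y * X)) * Z) -
        (1 - y * X) * (q * (y * y) * (1 - y) * X) := by rw [hF, a2, a3]
    _ = y * (1 - X) * ((1 - y * (y * X)) * (q * Z) - q * (1 - y) * (y * X)) := by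
        linear_combination
          (q * y * (1 - X) * (1 - y * y * X) * Z + q * y * y * X * X * (y * l - 2 * y + 1)) * hL

theorem unit_cancel {a : MK ℂ} {A B : PowerSeries (MK ℂ)}
    (h : (1 - PowerSeries.C a * PowerSeries.X) * A = (1 - PowerSeries.C a * PowerSeries.X) * B) :
    A = B := by
  have hu : IsUnit (1 - PowerSeries.C a * PowerSeries.X : PowerSeries (MK ℂ)) := by
    rw [PowerSeries.isUnit_iff_constantCoeff]
    simp
  exact hu.mul_left_cancel h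

/-- composition of the formulas -/
theorem comp_form {A B C' : PowerSeries (MK ℂ)} (κ : ℕ)
    (h1 : (1 - cYk 1 * PowerSeries.X) * B = cYk 1 * (1 - PowerSeries.X) * rsk 1 A)
    (h2 : (1 - cYk κ * PowerSeries.X) * C' = cYk κ * (1 - PowerSeries.X) * rsk κ B) :
    (1 - cYk (κ + 1) * PowerSeries.X) * C' =
      cYk (κ + 1) * (1 - PowerSeries.X) * rsk (κ + 1) A := by
  have h3 := congrArg (rsk κ) h1
  have e1 : rsk κ (cYk 1) = cYk 1 := rsk_C _ _
  rw [map_mul, map_mul, map_mul, map_sub, map_sub, map_mul, map_one, rsk_X, e1, rsk_rsk] at h3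
  apply unit_cancel (a := (((Lu ℂ) ^ (-(κ : ℤ)) : (MK ℂ)ˣ) : MK ℂ))
  change (1 - cYk κ * PowerSeries.X) * _ = (1 - cYk κ * PowerSeries.X) * _
  rw [cYk_add]
  linear_combination (1 - cYk κ * cYk 1 * PowerSeries.X) * h2 +
    (cYk κ * (1 - PowerSeries.X)) * h3

/-- The exact formulas for the zeta functions of the cubic. -/
structure Rf {n m : ℕ} (f : MvPolynomial (Fin n) ℂ) (F : MvPolynomial (Fin m) ℂ) (κ : ℕ) :
    Prop where
  glob : (1 - cYk κ * PowerSeries.X) * Dg F = cYk κ * (1 - PowerSeries.X) * rsk κ (Dg f)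
  loc : constantCoeff f = 0 →
    (1 - cYk κ * PowerSeries.X) * Dl F = cYk κ * (1 - PowerSeries.X) * rsk κ (Dl f)

theorem Rf.refl {n : ℕ} (f : MvPolynomial (Fin n) ℂ) : Rf f f 0 where
  glob := by rw [cYk_zero, rsk_zero, one_mul, one_mul]
  loc _ := by rw [cYk_zero, rsk_zero, one_mul, one_mul]

theorem Rf.step {n m : ℕ} (f u v : MvPolynomial (Fin n) ℂ) (F : MvPolynomial (Fin m) ℂ) (κ : ℕ)
    (hu : constantCoeff u = 0) (hv : constantCoeff v = 0) (h : Rf (stp f u v) F κ) :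
    Rf f F (κ + 1) where
  glob := comp_form κ (Dg_step f u v) h.glob
  loc hf := comp_form κ (Dl_step f u v hf hu hv) (h.loc (stp_const f u v hf hu hv))

end Pool.Agent.N101.CB
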