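import Pool.Agent.Y229.RE.Stab

set_option autoImplicit false

/-! Functional equations of polynomials: the reduced form. -/

namespace Pool.Agent.N101.CB.BGl

open MvPolynomial
open Pool.Agent.H628R4.TP
open Pool.Agent.Y229.RE (mul_mem pd_mem)

variable {n : ℕ}

/-- the partial derivative as a linear map -/
noncomputable def pl (i : Fin n) : Module.End ℂ (MvPolynomial (Fin n) ℂ) :=
  ((pderiv i : Derivation ℂ
      (MvPolynomial (Fin n) ℂ) (MvPolynomial (Fin n) ℂ)) :
        MvPolynomial (Fin n) ℂ →ₗ[ℂ] MvPolynomial (Fin n) ℂ)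

lemma pl_apply (i : Fin n) (u : MvPolynomial (Fin n) ℂ) : pl i u = pderiv i u := rfl

lemma pl_mem (i : Fin n) : pl i ∈ weylS (Fin n) := pd_mem i

/-- The sequences generated by the sequences `B i`: the elements of `∑_i weylS (Fin n) [s] B i`. -/
inductive WW {ι : Type} (B : ι → ℕ → MvPolynomial (Fin n) ℂ) :
    (ℕ → MvPolynomial (Fin n) ℂ) → Prop
  | base (i : ι) : WW B (B i)
  | zero : WW B (fun _ => 0)
  | add {F G : ℕ → MvPolynomial (Fin n) ℂ} : WW B F → WW B G → WW B (fun s => F s + G s)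
  | op {F : ℕ → MvPolynomial (Fin n) ℂ} (Q : Module.End ℂ (MvPolynomial (Fin n) ℂ)) :
      Q ∈ weylS (Fin n) → WW B F → WW B (fun s => Q (F s))
  | smulS {F : ℕ → MvPolynomial (Fin n) ℂ} : WW B F → WW B (fun s => (s : ℂ) • F s)

variable {ι : Type} {B : ι → ℕ → MvPolynomial (Fin n) ℂ} {F G : ℕ → MvPolynomial (Fin n) ℂ}

lemma WW.smulC (hF : WW B F) (c : ℂ) : WW B (fun s => c • F s) := by
  have h1 := WW.op (algebraMap ℂ _ c) (Subalgebra.algebraMap_mem _ c) hF
  simpa using h1

lemma WW.mulL (hF : WW B F) (u : MvPolynomial (Fin n) ℂ) : WW B (fun s => u * F s) :=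
  WW.op _ (mul_mem u) hF

lemma WW.neg (hF : WW B F) : WW B (fun s => - F s) := by
  have h1 := hF.smulC (-1)
  simpa using h1

lemma WW.sub (hF : WW B F) (hG : WW B G) : WW B (fun s => F s - G s) := by
  simpa only [sub_eq_add_neg] using hF.add hG.neg

lemma WW.sum {κ : Type} (S : Finset κ) (H : κ → ℕ → MvPolynomial (Fin n) ℂ)
    (h : ∀ i ∈ S, WW B (H i)) : WW B (fun s => ∑ i ∈ S, H i s) := by
  classical
  induction S using Finset.induction_on with
  | empty => simpa using WW.zero
  | insert a S ha ih =>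
    have h1 := (h a (Finset.mem_insert_self a S)).add
      (ih fun i hi => h i (Finset.mem_insert_of_mem hi))
    convert h1 using 2 with s
    rw [Finset.sum_insert ha]

/-- the list form -/
lemma WW.toList (hF : WW B F) : ∃ L : List (ι × ℕ × weylS (Fin n)), ∀ s : ℕ,
    F s = (L.map fun x => ((s : ℂ) ^ x.2.1) •
      (x.2.2 : Module.End ℂ (MvPolynomial (Fin n) ℂ)) (B x.1 s)).sum := by
  induction hF with
  | base i => exact ⟨[(i, 0, 1)], fun s => by simp⟩
  | zero => exact ⟨[], fun s => by simp⟩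
  | add _ _ h1 h2 =>
    obtain ⟨L, hL⟩ := h1
    obtain ⟨L', hL'⟩ := h2
    exact ⟨L ++ L', fun s => by
      beta_reduce
      rw [hL, hL', List.map_append, List.sum_append]⟩
  | op Q hQ _ h1 =>
    obtain ⟨L, hL⟩ := h1
    refine ⟨L.map fun x => (x.1, x.2.1, ⟨Q, hQ⟩ * x.2.2), fun s => ?_⟩
    beta_reduce
    rw [hL, map_list_sum, List.map_map, List.map_map]
    congr 1
    refine List.map_congr_left fun x _ => ?_
    simp only [Function.comp_apply, map_smul]
    rfl
  | smulS _ h1 =>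
    obtain ⟨L, hL⟩ := h1
    refine ⟨L.map fun x => (x.1, x.2.1 + 1, x.2.2), fun s => ?_⟩
    beta_reduce
    rw [hL, List.smul_sum, List.map_map, List.map_map]
    congr 1
    refine List.map_congr_left fun x _ => ?_
    simp only [Function.comp_apply, smul_smul, pow_succ]
    rw [mul_comm]

/-- the base of `D[s] f ^ (s + 1)` -/
noncomputable def B1 (f : MvPolynomial (Fin n) ℂ) : Unit → ℕ → MvPolynomial (Fin n) ℂ :=
  fun _ s => f ^ (s + 1)

/-- the base of `D[s] (f, ∂_1 f, …, ∂_n f) f ^ s` -/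
noncomputable def B2 (f : MvPolynomial (Fin n) ℂ) :
    Option (Fin n) → ℕ → MvPolynomial (Fin n) ℂ
  | none, s => f ^ (s + 1)
  | some i, s => pderiv i f * f ^ s

lemma formal_iff {f : MvPolynomial (Fin n) ℂ} {b : Polynomial ℂ} :
    IsBFunction f b ↔ WW (B1 f) (fun s => b.eval (s : ℂ) • f ^ s) := by
  constructor
  · rintro ⟨P, hP⟩
    have h1 : WW (B1 f) (fun s => ∑ m ∈ P.support, ((s : ℂ) ^ m) •
        (P m : Module.End ℂ (MvPolynomial (Fin n) ℂ)) (f ^ (s + 1))) := by
      refine WW.sum _ _ fun m _ => ?_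
      have h2 : ∀ m' : ℕ, WW (B1 f) (fun s => ((s : ℂ) ^ m') •
          (P m : Module.End ℂ (MvPolynomial (Fin n) ℂ)) (f ^ (s + 1))) := by
        intro m'
        induction m' with
        | zero => simpa [B1] using WW.op _ (P m).2 (WW.base (B := B1 f) ())
        | succ m' ih =>
          convert ih.smulS using 2 with s
          rw [smul_smul, pow_succ, mul_comm]
      exact h2 m
    convert h1 using 2 with s
    rw [MvPolynomial.smul_eq_C_mul]
    exact hP s
  · intro h
    obtain ⟨L, hL⟩ := h.toList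
    suffices H : ∃ P : ℕ →₀ weylS (Fin n), ∀ s : ℕ, (L.map fun x => ((s : ℂ) ^ x.2.1) •
        (x.2.2 : Module.End ℂ (MvPolynomial (Fin n) ℂ)) (B1 f x.1 s)).sum =
        P.sum fun m Q => ((s : ℂ) ^ m) •
          (Q : Module.End ℂ (MvPolynomial (Fin n) ℂ)) (f ^ (s + 1)) by
      obtain ⟨P, hP⟩ := H
      exact ⟨P, fun s => by rw [← MvPolynomial.smul_eq_C_mul, hL, hP]⟩
    clear hL
    induction L with
    | nil => exact ⟨0, fun s => by simp⟩
    | cons x L ih =>
      obtain ⟨P, hP⟩ := ih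
      refine ⟨Finsupp.single x.2.1 x.2.2 + P, fun s => ?_⟩
      rw [List.map_cons, List.sum_cons, hP, Finsupp.sum_add_index' (by simp) (by
        intro m Q Q'
        simp), Finsupp.sum_single_index (by simp)]
      rfl

/-! ### The value at `s = -1` -/

/-- sequences with `f ^ D F(s) = f ^ s p(s)` -/
def CC (f : MvPolynomial (Fin n) ℂ) (F : ℕ → MvPolynomial (Fin n) ℂ) : Prop :=
  ∃ (D : ℕ) (p : Polynomial (MvPolynomial (Fin n) ℂ)), ∀ s : ℕ,
    f ^ D * F s = f ^ s * p.eval (s : MvPolynomial (Fin n) ℂ)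

variable {f : MvPolynomial (Fin n) ℂ}

lemma CC.add (hF : CC f F) (hG : CC f G) : CC f (fun s => F s + G s) := by
  obtain ⟨D, p, hp⟩ := hF
  obtain ⟨E, q, hq⟩ := hG
  refine ⟨D + E, Polynomial.C (f ^ E) * p + Polynomial.C (f ^ D) * q, fun s => ?_⟩
  rw [Polynomial.eval_add, Polynomial.eval_mul, Polynomial.eval_mul, Polynomial.eval_C,
    Polynomial.eval_C, pow_add]
  linear_combination f ^ E * hp s + f ^ D * hq s

lemma CC.mulL (hF : CC f F) (u : MvPolynomial (Fin n) ℂ) : CC f (fun s => u * F s) := by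
  obtain ⟨D, p, hp⟩ := hF
  refine ⟨D, Polynomial.C u * p, fun s => ?_⟩
  rw [Polynomial.eval_mul, Polynomial.eval_C]
  linear_combination u * hp s

lemma CC.smulS (hF : CC f F) : CC f (fun s => (s : ℂ) • F s) := by
  obtain ⟨D, p, hp⟩ := hF
  refine ⟨D, Polynomial.X * p, fun s => ?_⟩
  beta_reduce
  rw [Polynomial.eval_mul, Polynomial.eval_X, Nat.cast_smul_eq_nsmul, nsmul_eq_mul]
  linear_combination (s : MvPolynomial (Fin n) ℂ) * hp s

/-- the derivative of the coefficients -/
noncomputable def dc (i : Fin n) (p : Polynomial (MvPolynomial (Fin n) ℂ)) :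
    Polynomial (MvPolynomial (Fin n) ℂ) :=
  p.sum fun m u => Polynomial.monomial m (pderiv i u)

lemma dc_eval (i : Fin n) (p : Polynomial (MvPolynomial (Fin n) ℂ)) (s : ℕ) :
    (dc i p).eval (s : MvPolynomial (Fin n) ℂ) =
      pderiv i (p.eval (s : MvPolynomial (Fin n) ℂ)) := by
  unfold dc
  rw [Polynomial.eval_eq_sum (p := p), Polynomial.sum_def, Polynomial.sum_def, map_sum,
    Polynomial.eval_finsetSum]
  refine Finset.sum_congr rfl fun m _ => ?_
  rw [Polynomial.eval_monomial, Derivation.leibniz, Derivation.leibniz_pow,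
    Derivation.map_natCast, smul_zero, smul_zero, smul_zero, zero_add, smul_eq_mul, mul_comm]

lemma CC.pd (hF : CC f F) (i : Fin n) : CC f (fun s => pderiv i (F s)) := by
  obtain ⟨D, p, hp⟩ := hF
  refine ⟨D + 1, Polynomial.C f * dc i p + Polynomial.C (pderiv i f) * (Polynomial.X -
    Polynomial.C (D : MvPolynomial (Fin n) ℂ)) * p, fun s => ?_⟩
  have h1 := congrArg (pderiv i) (hp s)
  rw [Derivation.leibniz, Derivation.leibniz, Derivation.leibniz_pow, Derivation.leibniz_pow,
    ← dc_eval] at h1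
  simp only [smul_eq_mul, nsmul_eq_mul] at h1
  rw [Polynomial.eval_add, Polynomial.eval_mul, Polynomial.eval_mul, Polynomial.eval_mul,
    Polynomial.eval_C, Polynomial.eval_C, Polynomial.eval_sub, Polynomial.eval_X,
    Polynomial.eval_C]
  have h2 : ∀ (m : ℕ) (w : MvPolynomial (Fin n) ℂ), f * ((m : MvPolynomial (Fin n) ℂ) *
      (f ^ (m - 1) * w)) = (m : MvPolynomial (Fin n) ℂ) * (f ^ m * w) := by
    intro m w
    cases m with
    | zero => simp
    | succ m => rw [Nat.add_sub_cancel, pow_succ]; ring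
  have h3 := h2 D (pderiv i f)
  have h4 := h2 s (pderiv i f)
  have h5 := hp s
  linear_combination f * h1 - F s * h3 + (Polynomial.eval (s : MvPolynomial (Fin n) ℂ) p) * h4 -
    (D : MvPolynomial (Fin n) ℂ) * (pderiv i f) * h5

lemma CC.op (Q : Module.End ℂ (MvPolynomial (Fin n) ℂ)) (hQ : Q ∈ weylS (Fin n)) :
    ∀ {F : ℕ → MvPolynomial (Fin n) ℂ}, CC f F → CC f (fun s => Q (F s)) := by
  unfold weylS at hQ
  induction hQ using Algebra.adjoin_induction with
  | mem P hP =>
    intro F hF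
    rcases hP with ⟨u, rfl⟩ | ⟨i, rfl⟩
    · exact hF.mulL (X u)
    · exact hF.pd i
  | algebraMap c =>
    intro F hF
    have h1 := hF.mulL (MvPolynomial.C c)
    convert h1 using 2 with s
    rw [Module.algebraMap_end_apply, MvPolynomial.smul_eq_C_mul]
  | add P Q _ _ hP hQ =>
    intro F hF
    exact (hP hF).add (hQ hF)
  | mul P Q _ _ hP hQ =>
    intro F hF
    exact hP (hQ hF)

lemma CC.pow (f : MvPolynomial (Fin n) ℂ) : CC f (fun s => f ^ s) :=
  ⟨0, 1, fun s => by simp⟩

lemma CC.of_WW (hF : WW (B1 f) F) : CC f F := by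
  induction hF with
  | base i => exact ⟨0, Polynomial.C f, fun s => by
      rw [Polynomial.eval_C, pow_zero, one_mul]
      exact pow_succ f s⟩
  | zero => exact ⟨0, 0, fun s => by simp⟩
  | add _ _ h1 h2 => exact h1.add h2
  | op Q hQ _ h1 => exact CC.op Q hQ h1
  | smulS _ h1 => exact h1.smulS

/-- separating the value at `-1` -/
lemma split (hF : WW (B1 f) F) : ∃ Q ∈ weylS (Fin n), ∃ F' : ℕ → MvPolynomial (Fin n) ℂ,
    WW (B1 f) F' ∧ ∀ s, F s = Q (f ^ (s + 1)) + ((s : ℂ) + 1) • F' s := by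
  induction hF with
  | base i => exact ⟨1, Subalgebra.one_mem _, _, WW.zero, fun s => by
      rw [smul_zero, add_zero]; rfl⟩
  | zero => exact ⟨0, Subalgebra.zero_mem _, _, WW.zero, fun s => by simp⟩
  | add _ _ h1 h2 =>
    obtain ⟨Q, hQ, F', hF', h3⟩ := h1
    obtain ⟨P, hP, G', hG', h4⟩ := h2
    refine ⟨Q + P, Subalgebra.add_mem _ hQ hP, _, hF'.add hG', fun s => ?_⟩
    beta_reduce
    rw [h3, h4, LinearMap.add_apply, smul_add]
    abel
  | op P hP _ h1 =>
    obtain ⟨Q, hQ, F', hF', h3⟩ := h1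
    refine ⟨P * Q, Subalgebra.mul_mem _ hP hQ, _, hF'.op P hP, fun s => ?_⟩
    beta_reduce
    rw [h3, map_add, map_smul, Module.End.mul_apply]
  | smulS _ h1 =>
    obtain ⟨Q, hQ, F', hF', h3⟩ := h1
    refine ⟨-Q, Subalgebra.neg_mem _ hQ, _, ((WW.base (B := B1 f) ()).op Q hQ).add hF'.smulS,
      fun s => ?_⟩
    beta_reduce
    rw [h3, LinearMap.neg_apply, show B1 f () s = f ^ (s + 1) from rfl]
    module

/-- the left ideal of the derivatives -/
def LI (Q : Module.End ℂ (MvPolynomial (Fin n) ℂ)) : Prop :=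
  ∃ P : Fin n → weylS (Fin n), Q = ∑ i, (P i : Module.End ℂ (MvPolynomial (Fin n) ℂ)) * pl i

lemma LI.add {Q P : Module.End ℂ (MvPolynomial (Fin n) ℂ)} (hQ : LI Q) (hP : LI P) :
    LI (Q + P) := by
  obtain ⟨A, rfl⟩ := hQ
  obtain ⟨A', rfl⟩ := hP
  refine ⟨A + A', ?_⟩
  rw [← Finset.sum_add_distrib]
  refine Finset.sum_congr rfl fun i _ => ?_
  rw [Pi.add_apply, Subalgebra.coe_add, add_mul]

lemma LI.zero : LI (0 : Module.End ℂ (MvPolynomial (Fin n) ℂ)) :=
  ⟨0, by simp⟩

lemma LI.mulL {Q P : Module.End ℂ (MvPolynomial (Fin n) ℂ)} (hQ : LI Q) (hP : P ∈ weylS (Fin n)) :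
    LI (P * Q) := by
  obtain ⟨A, rfl⟩ := hQ
  refine ⟨fun i => ⟨P, hP⟩ * A i, ?_⟩
  rw [Finset.mul_sum]
  refine Finset.sum_congr rfl fun i _ => ?_
  rw [Subalgebra.coe_mul, mul_assoc]

lemma LI.all (Q : Module.End ℂ (MvPolynomial (Fin n) ℂ)) (hQ : Q ∈ weylS (Fin n)) :
    ∀ u : MvPolynomial (Fin n) ℂ, ∃ Q', LI Q' ∧
      Q * LinearMap.mulLeft ℂ u = LinearMap.mulLeft ℂ (Q u) + Q' := by
  classical
  unfold weylS at hQ
  induction hQ using Algebra.adjoin_induction with
  | mem P hP =>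
    intro u
    rcases hP with ⟨w, rfl⟩ | ⟨i, rfl⟩
    · refine ⟨0, LI.zero, ?_⟩
      rw [add_zero]
      refine LinearMap.ext fun h => ?_
      simp only [Module.End.mul_apply, LinearMap.mulLeft_apply]
      ring
    · refine ⟨LinearMap.mulLeft ℂ u * pl i, LI.mulL ⟨Pi.single i 1, ?_⟩ (mul_mem u), ?_⟩
      · rw [Finset.sum_eq_single i]
        · rw [Pi.single_eq_same, Subalgebra.coe_one, one_mul]
        · intro j _ hj
          rw [Pi.single_eq_of_ne hj, Subalgebra.coe_zero, zero_mul]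
        · intro h
          exact absurd (Finset.mem_univ i) h
      · refine LinearMap.ext fun h => ?_
        show pderiv i (u * h) = pderiv i u * h + u * pderiv i h
        rw [Derivation.leibniz, smul_eq_mul, smul_eq_mul]
        ring
  | algebraMap c =>
    intro u
    refine ⟨0, LI.zero, ?_⟩
    rw [add_zero]
    refine LinearMap.ext fun h => ?_
    simp only [Module.End.mul_apply, LinearMap.mulLeft_apply, Module.algebraMap_end_apply,
      smul_mul_assoc]
  | add P Q _ _ hP hQ =>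
    intro u
    obtain ⟨P', h1, h2⟩ := hP u
    obtain ⟨Q', h3, h4⟩ := hQ u
    refine ⟨P' + Q', h1.add h3, ?_⟩
    have e : LinearMap.mulLeft ℂ ((P + Q) u) = LinearMap.mulLeft ℂ (P u) +
        LinearMap.mulLeft ℂ (Q u) := by
      refine LinearMap.ext fun h => ?_
      simp [add_mul]
    rw [add_mul, h2, h4, e]
    abel
  | mul P Q hPm _ hP hQ =>
    intro u
    obtain ⟨Q', h3, h4⟩ := hQ u
    obtain ⟨P', h1, h2⟩ := hP (Q u)
    refine ⟨P' + P * Q', h1.add (h3.mulL hPm), ?_⟩
    rw [mul_assoc, h4, mul_add, h2, Module.End.mul_apply]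
    abel

lemma LI.of_one {Q : Module.End ℂ (MvPolynomial (Fin n) ℂ)} (hQ : Q ∈ weylS (Fin n)) (h : Q 1 = 0) :
    LI Q := by
  obtain ⟨Q', h1, h2⟩ := LI.all Q hQ 1
  have e1 : LinearMap.mulLeft ℂ (1 : MvPolynomial (Fin n) ℂ) = 1 := by
    refine LinearMap.ext fun h => ?_
    simp
  have e0 : LinearMap.mulLeft ℂ (0 : MvPolynomial (Fin n) ℂ) = 0 := by
    refine LinearMap.ext fun h => ?_
    simp
  rw [e1, h, e0, mul_one, zero_add] at h2
  rwa [h2]

lemma WW.of_B1 (hF : WW (B1 f) F) : WW (B2 f) F := by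
  induction hF with
  | base i => exact WW.base (B := B2 f) none
  | zero => exact WW.zero
  | add _ _ h1 h2 => exact h1.add h2
  | op Q hQ _ h1 => exact h1.op Q hQ
  | smulS _ h1 => exact h1.smulS

lemma poly_ext {p q : Polynomial (MvPolynomial (Fin n) ℂ)}
    (h : ∀ s : ℕ, p.eval (s : MvPolynomial (Fin n) ℂ) = q.eval (s : MvPolynomial (Fin n) ℂ)) :
    p = q := by
  have hinj : Function.Injective (fun s : ℕ => (s : MvPolynomial (Fin n) ℂ)) := by
    intro a b hab
    have h1 := congrArg (MvPolynomial.constantCoeff (σ := Fin n) (R := ℂ)) hab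
    simp only [map_natCast] at h1
    exact_mod_cast h1
  have hdom : IsDomain (MvPolynomial (Fin n) ℂ) := NoZeroDivisors.to_isDomain _
  refine Polynomial.eq_of_infinite_eval_eq p q (Set.Infinite.mono ?_
    (Set.infinite_range_of_injective hinj))
  rintro _ ⟨s, rfl⟩
  exact h s

/-- the polynomial `b` with coefficients in the power series -/
lemma eval_map (b : Polynomial ℂ) (s : ℂ) (u : MvPolynomial (Fin n) ℂ) :
    b.eval s • u = (b.map (MvPolynomial.C (σ := Fin n))).eval (MvPolynomial.C s) * u := by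
  rw [Polynomial.eval_map, Polynomial.eval₂_hom, MvPolynomial.smul_eq_C_mul]

/-- **The reduced functional equation.** -/
theorem reduced (hf : f.totalDegree ≠ 0) {b : Polynomial ℂ}
    (hb : WW (B1 f) (fun s => b.eval (s : ℂ) • f ^ s)) : b.eval (-1) = 0 ∧
      ∀ c : Polynomial ℂ, b = (Polynomial.X + 1) * c →
        WW (B2 f) (fun s => c.eval (s : ℂ) • f ^ s) := by
  have hf0 : f ≠ 0 := by
    rintro rfl
    exact hf MvPolynomial.totalDegree_zero
  obtain ⟨Q, hQ, F', hF', h1⟩ := split hb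
  obtain ⟨D, p, hp⟩ := CC.op (f := f) Q hQ (CC.pow f)
  obtain ⟨E, q, hq⟩ := CC.of_WW hF'
  -- the polynomial identity
  have h2 : Polynomial.C (f ^ (D + E)) * b.map (MvPolynomial.C (σ := Fin n)) =
      Polynomial.C (f ^ (E + 1)) * p.comp (Polynomial.X + 1) +
        (Polynomial.X + 1) * (Polynomial.C (f ^ D) * q) := by
    refine poly_ext fun s => ?_
    have h3 := h1 s
    have h4 := hp (s + 1)
    have h5 := hq s
    have hcs : (s : MvPolynomial (Fin n) ℂ) = MvPolynomial.C (s : ℂ) := by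
      rw [map_natCast]
    rw [eval_map, ← hcs] at h3
    simp only [Polynomial.eval_mul, Polynomial.eval_C, Polynomial.eval_add, Polynomial.eval_comp,
      Polynomial.eval_X, Polynomial.eval_one]
    have hc2 : ((s : ℂ) + 1) • F' s = ((s : MvPolynomial (Fin n) ℂ) + 1) * F' s := by
      rw [MvPolynomial.smul_eq_C_mul, map_add, map_one, ← hcs]
    rw [hc2] at h3
    push_cast at h4
    refine mul_left_cancel₀ (pow_ne_zero s hf0) ?_
    have h6 : f ^ (s + 1) = f ^ s * f := pow_succ f s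
    rw [pow_add, pow_succ f E]
    rw [h6] at h3 h4
    linear_combination f ^ D * f ^ E * h3 + f ^ E * h4 +
      ((s : MvPolynomial (Fin n) ℂ) + 1) * f ^ D * h5
  have h3 := congrArg (Polynomial.eval (-1)) h2
  have h4 := hp 0
  simp only [Polynomial.eval_mul, Polynomial.eval_C, Polynomial.eval_add, Polynomial.eval_comp,
    Polynomial.eval_X, Polynomial.eval_one, neg_add_cancel, zero_mul, add_zero] at h3
  rw [Nat.cast_zero, pow_zero, one_mul] at h4
  rw [← h4] at h3
  have h5 : (b.map (MvPolynomial.C (σ := Fin n))).eval (-1) = f * Q 1 := by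
    refine mul_left_cancel₀ (pow_ne_zero (D + E) hf0) ?_
    rw [h3, pow_add, pow_succ]
    ring_nf
  have h8 : (b.map (MvPolynomial.C (σ := Fin n))).eval (-1) =
      MvPolynomial.C (b.eval (-1)) := by
    rw [show (-1 : MvPolynomial (Fin n) ℂ) = MvPolynomial.C (-1 : ℂ) by
      rw [map_neg, map_one], Polynomial.eval_map, Polynomial.eval₂_hom]
  rw [h8] at h5
  have h7 : Q 1 = 0 := by
    by_contra hne
    have h9 := congrArg MvPolynomial.totalDegree h5
    rw [MvPolynomial.totalDegree_mul_of_isDomain hf0 hne, MvPolynomial.totalDegree_C] at h9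
    omega
  have h6 : b.eval (-1) = 0 := by
    rw [h7, mul_zero] at h5
    exact (map_eq_zero_iff _ (MvPolynomial.C_injective (Fin n) ℂ)).1 h5
  refine ⟨h6, fun c hc => ?_⟩
  obtain ⟨P, hP⟩ := LI.of_one hQ h7
  have h11 : WW (B2 f) (fun s => ∑ i, (P i : Module.End ℂ (MvPolynomial (Fin n) ℂ))
      (B2 f (some i) s) + F' s) :=
    (WW.sum _ _ fun i _ => (WW.base (B := B2 f) (some i)).op _ (P i).2).add (WW.of_B1 hF')
  convert h11 using 2 with s
  have h9 := h1 s
  have hs : ((s : ℂ) + 1) ≠ 0 := by exact_mod_cast Nat.succ_ne_zero s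
  have h10 : Q (f ^ (s + 1)) = ((s : ℂ) + 1) • ∑ i,
      (P i : Module.End ℂ (MvPolynomial (Fin n) ℂ)) (B2 f (some i) s) := by
    rw [hP, LinearMap.sum_apply, Finset.smul_sum]
    refine Finset.sum_congr rfl fun i _ => ?_
    rw [Module.End.mul_apply, ← map_smul]
    congr 1
    show pderiv i (f ^ (s + 1)) = ((s : ℂ) + 1) • (pderiv i f * f ^ s)
    rw [Derivation.leibniz_pow, Nat.add_sub_cancel, smul_eq_mul, mul_comm,
      ← Nat.cast_smul_eq_nsmul ℂ]
    push_cast
    rfl
  rw [h10, ← smul_add, hc, Polynomial.eval_mul, Polynomial.eval_add, Polynomial.eval_X,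
    Polynomial.eval_one, mul_smul] at h9
  exact smul_right_injective _ hs h9

/-- from the reduced functional equation to the functional equation -/
theorem unreduced {c : Polynomial ℂ} (h : WW (B2 f) (fun s => c.eval (s : ℂ) • f ^ s)) :
    WW (B1 f) (fun s => ((Polynomial.X + 1) * c).eval (s : ℂ) • f ^ s) := by
  have h1 : ∀ {F : ℕ → MvPolynomial (Fin n) ℂ}, WW (B2 f) F →
      WW (B1 f) (fun s => ((s : ℂ) + 1) • F s) := by
    intro F hF
    induction hF with
    | base i =>
      cases i with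
      | none =>
        have h2 := (WW.base (B := B1 f) ()).smulS.add (WW.base (B := B1 f) ())
        convert h2 using 2 with s
        rw [add_smul, one_smul]
        rfl
      | some i =>
        have h2 := (WW.base (B := B1 f) ()).op _ (pl_mem i)
        convert h2 using 2 with s
        show ((s : ℂ) + 1) • (pderiv i f * f ^ s) = pderiv i (f ^ (s + 1))
        rw [Derivation.leibniz_pow, Nat.add_sub_cancel, smul_eq_mul, mul_comm (f ^ s),
          ← Nat.cast_smul_eq_nsmul ℂ]
        push_cast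
        rfl
    | zero => simpa using WW.zero
    | add _ _ h1 h2 => simpa only [smul_add] using h1.add h2
    | op Q hQ _ h1 => simpa only [map_smul] using h1.op Q hQ
    | smulS _ h1 =>
      convert h1.smulS using 2 with s
      rw [smul_smul, smul_smul, mul_comm]
  convert h1 h using 2 with s
  rw [Polynomial.eval_mul, Polynomial.eval_add, Polynomial.eval_X, Polynomial.eval_one, mul_smul]

end Pool.Agent.N101.CB.BGl
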