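import Pool.Agent.N101.CB.StmI

/-!
# Project CUB, part IB1: the functional equation of the ideal `(f_j, w)`
-/

set_option autoImplicit false

namespace Pool.Agent.N101.CB

open MvPolynomial

namespace IB1

open Pool.Agent.W574.SM

/-! ### Operators which are polynomials in `s` -/

section
variable {σ ι : Type} [Fintype ι]

/-- a family of operators given by an element of `D[s]` -/
def Adm (Φ : (ι → ℕ) → MvPolynomial σ ℂ → MvPolynomial σ ℂ) : Prop :=
  ∃ P : (ι →₀ ℕ) →₀ weyl σ, ∀ s g, applyAt P s g = Φ s g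

theorem Adm.zero : Adm (fun (_ : ι → ℕ) (_ : MvPolynomial σ ℂ) => 0) :=
  ⟨0, fun s g => by simp [applyAt]⟩

theorem applyAt_add (P Q : (ι →₀ ℕ) →₀ weyl σ) (s : ι → ℕ) (g : MvPolynomial σ ℂ) :
    applyAt (P + Q) s g = applyAt P s g + applyAt Q s g := by
  unfold applyAt
  rw [Finsupp.sum_add_index']
  · intro β
    simp
  · intro β Q₁ Q₂
    rw [← smul_add]
    rfl

theorem Adm.add {Φ Ψ : (ι → ℕ) → MvPolynomial σ ℂ → MvPolynomial σ ℂ} (h : Adm Φ) (h' : Adm Ψ) :
    Adm (fun s g => Φ s g + Ψ s g) := by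
  obtain ⟨P, hP⟩ := h
  obtain ⟨Q, hQ⟩ := h'
  exact ⟨P + Q, fun s g => by rw [applyAt_add, hP, hQ]⟩

theorem Adm.sum {α : Type} (T : Finset α) (Φ : α → (ι → ℕ) → MvPolynomial σ ℂ → MvPolynomial σ ℂ)
    (h : ∀ a ∈ T, Adm (Φ a)) : Adm (fun s g => ∑ a ∈ T, Φ a s g) := by
  classical
  induction T using Finset.induction_on with
  | empty => simpa using Adm.zero
  | insert a T ha ih =>
    have h1 := (h a (Finset.mem_insert_self a T)).add
      (ih fun b hb => h b (Finset.mem_insert_of_mem hb))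
    obtain ⟨P, hP⟩ := h1
    refine ⟨P, fun s g => ?_⟩
    rw [hP]
    beta_reduce
    rw [Finset.sum_insert ha]

theorem Adm.poly (p : MvPolynomial ι ℂ) (Q : weyl σ) :
    Adm (fun s g => (eval (fun j => ((s j : ℕ) : ℂ)) p) •
      (Q : Module.End ℂ (MvPolynomial σ ℂ)) g) := by
  induction p using MvPolynomial.induction_on' with
  | monomial u a =>
    refine ⟨Finsupp.single u (a • Q), fun s g => ?_⟩
    unfold applyAt
    beta_reduce
    rw [Finsupp.sum_single_index (by simp), eval_monomial, Finsupp.prod_fintype _ _ (by simp)]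
    change _ • (a • (Q : Module.End ℂ (MvPolynomial σ ℂ)) g) = _
    rw [smul_smul, mul_comm]
  | add p q hp hq =>
    obtain ⟨P, hP⟩ := hp.add hq
    refine ⟨P, fun s g => ?_⟩
    rw [hP]
    beta_reduce
    rw [map_add, add_smul]

end

/-! ### Extension of operators -/

section
variable {n : ℕ}

theorem pderiv_last_rename (g : MvPolynomial (Fin n) ℂ) :
    pderiv (Fin.last n) (rename Fin.castSucc g) = 0 := by
  classical
  apply pderiv_eq_zero_of_notMem_vars
  intro h
  obtain ⟨i, _, hi⟩ := Finset.mem_image.1 (vars_rename Fin.castSucc g h)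
  exact absurd hi (Fin.castSucc_ne_last i)

/-- operators in `x` extend to `(x, w)` -/
theorem ext_op (Q : Module.End ℂ (MvPolynomial (Fin n) ℂ)) (hQ : Q ∈ weyl (Fin n)) :
    ∃ Q' ∈ weyl (Fin (n + 1)), ∀ (g : MvPolynomial (Fin n) ℂ) (m : ℕ),
      Q' (rename Fin.castSucc g * X (Fin.last n) ^ m) =
        rename Fin.castSucc (Q g) * X (Fin.last n) ^ m := by
  unfold weyl at hQ
  induction hQ using Algebra.adjoin_induction with
  | mem x hx =>
    rcases hx with ⟨i, rfl⟩ | ⟨i, rfl⟩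
    · refine ⟨LinearMap.mulLeft ℂ (X i.castSucc), Algebra.subset_adjoin (Or.inl ⟨_, rfl⟩), ?_⟩
      intro g m
      simp only [LinearMap.mulLeft_apply, map_mul, rename_X]
      ring
    · refine ⟨(pderiv i.castSucc : Derivation ℂ (MvPolynomial (Fin (n + 1)) ℂ)
        (MvPolynomial (Fin (n + 1)) ℂ)), Algebra.subset_adjoin (Or.inr ⟨_, rfl⟩), ?_⟩
      intro g m
      change pderiv i.castSucc (rename Fin.castSucc g * X (Fin.last n) ^ m) =
        rename Fin.castSucc (pderiv i g) * X (Fin.last n) ^ m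
      rw [pderiv_mul, pderiv_pow, pderiv_X_of_ne (Fin.castSucc_ne_last i).symm,
        pderiv_rename (Fin.castSucc_injective n)]
      ring
  | algebraMap c =>
    refine ⟨algebraMap ℂ _ c, Subalgebra.algebraMap_mem _ _, ?_⟩
    intro g m
    simp only [Module.algebraMap_end_apply, map_smul, smul_mul_assoc]
  | add x y _ _ hx hy =>
    obtain ⟨x', hx1, hx2⟩ := hx
    obtain ⟨y', hy1, hy2⟩ := hy
    refine ⟨x' + y', Subalgebra.add_mem _ hx1 hy1, ?_⟩
    intro g m
    simp only [LinearMap.add_apply, map_add, add_mul, hx2, hy2]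
  | mul x y _ _ hx hy =>
    obtain ⟨x', hx1, hx2⟩ := hx
    obtain ⟨y', hy1, hy2⟩ := hy
    refine ⟨x' * y', Subalgebra.mul_mem _ hx1 hy1, ?_⟩
    intro g m
    simp only [Module.End.mul_apply, hx2, hy2]

theorem ext_P {r : ℕ} (P : (Fin r →₀ ℕ) →₀ weyl (Fin n)) :
    ∃ P' : (Fin (r + 1) →₀ ℕ) →₀ weyl (Fin (n + 1)), ∀ (s : Fin (r + 1) → ℕ)
      (g : MvPolynomial (Fin n) ℂ) (m : ℕ),
      applyAt P' s (rename Fin.castSucc g * X (Fin.last n) ^ m) =
        rename Fin.castSucc (applyAt P (fun j => s j.castSucc) g) * X (Fin.last n) ^ m := by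
  have h1 : ∀ Q : weyl (Fin n), ∃ Q' : weyl (Fin (n + 1)), ∀ (g : MvPolynomial (Fin n) ℂ) (m : ℕ),
      (Q' : Module.End ℂ _) (rename Fin.castSucc g * X (Fin.last n) ^ m) =
        rename Fin.castSucc ((Q : Module.End ℂ _) g) * X (Fin.last n) ^ m := by
    intro Q
    obtain ⟨Q', h1, h2⟩ := ext_op Q.1 Q.2
    exact ⟨⟨Q', h1⟩, h2⟩
  choose E hE using h1
  obtain ⟨P', hP'⟩ := Adm.sum (ι := Fin (r + 1)) P.support (fun β s g =>
    (eval (fun j => ((s j : ℕ) : ℂ)) (∏ j : Fin r, (X j.castSucc : MvPolynomial _ ℂ) ^ β j)) •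
      (E (P β) : Module.End ℂ (MvPolynomial (Fin (n + 1)) ℂ)) g)
    (fun β _ => Adm.poly _ _)
  refine ⟨P', fun s g m => ?_⟩
  rw [hP']
  unfold applyAt Finsupp.sum
  rw [map_sum, Finset.sum_mul]
  refine Finset.sum_congr rfl fun β _ => ?_
  rw [hE, map_smul, smul_mul_assoc]
  simp only [map_prod, map_pow, eval_X]

end

end IB1

open IB1 Pool.Agent.W574.SM in
theorem ib1 : TaskIB1 := by
  classical
  intro n r f b hfe
  obtain ⟨S, P, hS, hP⟩ := hfe
  -- the polynomial `h`
  obtain ⟨h, hh⟩ : ∃ h : MvPolynomial (Fin (r + 1)) ℂ, ∀ s : Fin (r + 1) → ℕ,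
      b.eval (((∑ j : Fin r, s j.castSucc : ℕ) : ℂ) + ((s (Fin.last r) : ℂ) + 1)) =
        b.eval ((∑ j : Fin r, s j.castSucc : ℕ) : ℂ) +
          ((s (Fin.last r) : ℂ) + 1) * eval (fun j => ((s j : ℕ) : ℂ)) h := by
    obtain ⟨h, hh⟩ := Polynomial.sub_dvd_eval_sub
      ((∑ j : Fin r, (X j.castSucc : MvPolynomial (Fin (r + 1)) ℂ)) + (X (Fin.last r) + 1))
      (∑ j : Fin r, (X j.castSucc : MvPolynomial (Fin (r + 1)) ℂ)) (b.map C)
    refine ⟨h, fun s => ?_⟩
    have h1 : ∀ q : MvPolynomial (Fin (r + 1)) ℂ, eval (fun j => ((s j : ℕ) : ℂ))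
        ((b.map C).eval q) = b.eval (eval (fun j => ((s j : ℕ) : ℂ)) q) := by
      intro q
      rw [Polynomial.eval_map, Polynomial.hom_eval₂]
      have h2 : (eval (fun j => ((s j : ℕ) : ℂ))).comp (C : ℂ →+* MvPolynomial (Fin (r + 1)) ℂ) =
          RingHom.id ℂ := by
        ext x
        simp
      rw [h2]
      rfl
    have h3 := congrArg (eval (fun j => ((s j : ℕ) : ℂ))) hh
    rw [map_sub, h1, h1, map_mul, add_sub_cancel_left] at h3
    simp only [map_add, map_sum, eval_X, map_one] at h3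
    push_cast
    linear_combination h3
  -- the operators
  have hext := fun c => ext_P (P c)
  choose P₁ hP₁ using hext
  obtain ⟨P₂, hP₂⟩ := Adm.poly (σ := Fin (n + 1)) h
    ⟨((pderiv (Fin.last n) : Derivation ℂ (MvPolynomial (Fin (n + 1)) ℂ)
      (MvPolynomial (Fin (n + 1)) ℂ)) : MvPolynomial (Fin (n + 1)) ℂ →ₗ[ℂ] _),
      Algebra.subset_adjoin (Or.inr ⟨_, rfl⟩)⟩
  have hinj : Function.Injective (fun c : Fin r → ℤ => (Fin.snoc c 0 : Fin (r + 1) → ℤ)) := by
    intro c c' hcc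
    funext j
    have := congrFun hcc j.castSucc
    simpa using this
  set c₀ : Fin (r + 1) → ℤ := Fin.snoc (fun _ => 0) 1 with hc₀
  have hc₀' : c₀ ∉ S.image (fun c : Fin r → ℤ => (Fin.snoc c 0 : Fin (r + 1) → ℤ)) := by
    intro hmem
    obtain ⟨c, _, hc⟩ := Finset.mem_image.1 hmem
    have := congrFun hc (Fin.last r)
    simp [hc₀] at this
  refine ⟨insert c₀ (S.image (fun c : Fin r → ℤ => (Fin.snoc c 0 : Fin (r + 1) → ℤ))),
    fun c => if c = c₀ then P₂ else P₁ (fun j => c j.castSucc), ?_, ?_⟩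
  · intro c hc
    rcases Finset.mem_insert.1 hc with rfl | hc
    · rw [Fin.sum_univ_castSucc]
      simp [hc₀]
    · obtain ⟨c', hc', rfl⟩ := Finset.mem_image.1 hc
      rw [Fin.sum_univ_castSucc]
      simp only [Fin.snoc_castSucc, Fin.snoc_last, add_zero]
      exact hS c' hc'
  · intro s
    rw [Finset.sum_insert hc₀', Finset.sum_image fun c _ c' _ h => hinj h]
    simp only [if_true]
    set m : ℕ := s (Fin.last r) with hm
    set g : MvPolynomial (Fin n) ℂ := ∏ j : Fin r, f j ^ s j.castSucc with hg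
    have hw : ((Fin.last n : Fin (n + 1)) : Fin (n + 1)) = Fin.last n := rfl
    have e1 : (∏ j, exI f j ^ s j) = rename Fin.castSucc g * X (Fin.last n) ^ m := by
      rw [Fin.prod_univ_castSucc, hg, map_prod]
      simp only [exI, Fin.snoc_castSucc, Fin.snoc_last, map_pow]
      rfl
    have e2 : C ((∏ j, (if c₀ j < 0 then (s j).choose (-c₀ j).toNat else 1) : ℕ) : ℂ) *
        ∏ j, exI f j ^ ((s j : ℤ) + c₀ j).toNat =
        rename Fin.castSucc g * X (Fin.last n) ^ (m + 1) := by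
      rw [Fin.prod_univ_castSucc, Fin.prod_univ_castSucc, hg, map_prod]
      simp only [hc₀, exI, Fin.snoc_castSucc, Fin.snoc_last, map_pow, lt_irrefl, if_false,
        Finset.prod_const_one, add_zero, Int.toNat_natCast]
      have e3 : ¬ ((1 : ℤ) < 0) := by norm_num
      have e4 : ((s (Fin.last r) : ℤ) + 1).toNat = m + 1 := by omega
      rw [if_neg e3, e4]
      simp
    have e3 : ∀ c : Fin r → ℤ, C ((∏ j, (if (Fin.snoc c 0 : Fin (r + 1) → ℤ) j < 0 then
        (s j).choose (-(Fin.snoc c 0 : Fin (r + 1) → ℤ) j).toNat else 1) : ℕ) : ℂ) *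
        ∏ j, exI f j ^ ((s j : ℤ) + (Fin.snoc c 0 : Fin (r + 1) → ℤ) j).toNat =
        rename Fin.castSucc (C ((∏ j : Fin r, (if c j < 0 then (s j.castSucc).choose (-c j).toNat
          else 1) : ℕ) : ℂ) * ∏ j : Fin r, f j ^ ((s j.castSucc : ℤ) + c j).toNat) *
            X (Fin.last n) ^ m := by
      intro c
      rw [Fin.prod_univ_castSucc, Fin.prod_univ_castSucc, map_mul, map_prod, rename_C]
      simp only [exI, Fin.snoc_castSucc, Fin.snoc_last, map_pow, lt_irrefl, if_false, mul_one,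
        add_zero, Int.toNat_natCast]
      rw [mul_assoc]
    rw [e1, e2, hP₂]
    have e4 : ∀ c ∈ S, applyAt (if (Fin.snoc c 0 : Fin (r + 1) → ℤ) = c₀ then P₂ else
        P₁ (fun j => (Fin.snoc c 0 : Fin (r + 1) → ℤ) j.castSucc)) s
        (C ((∏ j, (if (Fin.snoc c 0 : Fin (r + 1) → ℤ) j < 0 then
        (s j).choose (-(Fin.snoc c 0 : Fin (r + 1) → ℤ) j).toNat else 1) : ℕ) : ℂ) *
        ∏ j, exI f j ^ ((s j : ℤ) + (Fin.snoc c 0 : Fin (r + 1) → ℤ) j).toNat) =
        rename Fin.castSucc (applyAt (P c) (fun j => s j.castSucc)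
          (C ((∏ j : Fin r, (if c j < 0 then (s j.castSucc).choose (-c j).toNat
          else 1) : ℕ) : ℂ) * ∏ j : Fin r, f j ^ ((s j.castSucc : ℤ) + c j).toNat)) *
            X (Fin.last n) ^ m := by
      intro c hc
      have h1 : (Fin.snoc c 0 : Fin (r + 1) → ℤ) ≠ c₀ := fun h =>
        hc₀' (Finset.mem_image.2 ⟨c, hc, h⟩)
      have h2 : (fun j : Fin r => (Fin.snoc c 0 : Fin (r + 1) → ℤ) j.castSucc) = c := by
        funext j
        simp
      rw [if_neg h1, h2, e3, hP₁]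
    rw [Finset.sum_congr rfl e4, ← Finset.sum_mul, ← map_sum, ← hP (fun j => s j.castSucc)]
    have e5 : pderiv (Fin.last n) (rename Fin.castSucc g * X (Fin.last n) ^ (m + 1)) =
        C ((m : ℂ) + 1) * (rename Fin.castSucc g * X (Fin.last n) ^ m) := by
      rw [pderiv_mul, pderiv_last_rename, pderiv_pow, pderiv_X_self]
      simp only [zero_mul, zero_add, Nat.add_sub_cancel, mul_one, map_add, map_natCast, map_one]
      push_cast
      ring
    change C ((b.comp (Polynomial.X + 1)).eval ((∑ j, s j : ℕ) : ℂ)) *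
      (rename Fin.castSucc g * X (Fin.last n) ^ m) =
      (eval (fun j => ((s j : ℕ) : ℂ)) h) •
        (pderiv (Fin.last n) (rename Fin.castSucc g * X (Fin.last n) ^ (m + 1))) +
      rename Fin.castSucc (C (b.eval ((∑ j : Fin r, s j.castSucc : ℕ) : ℂ)) * g) *
        X (Fin.last n) ^ m
    have e6 : (b.comp (Polynomial.X + 1)).eval ((∑ j, s j : ℕ) : ℂ) =
        b.eval ((∑ j : Fin r, s j.castSucc : ℕ) : ℂ) +
          ((m : ℂ) + 1) * eval (fun j => ((s j : ℕ) : ℂ)) h := by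
      rw [Polynomial.eval_comp, ← hh s, Fin.sum_univ_castSucc]
      congr 1
      simp only [Polynomial.eval_add, Polynomial.eval_X, Polynomial.eval_one]
      push_cast
      ring
    rw [e6, e5, map_mul, rename_C, smul_eq_C_mul, map_add, map_mul]
    ring

end Pool.Agent.N101.CB
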