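import Pool.Agent.N101.CB.StmI
import Pool.Agent.W366.SI.I1
import Pool.Agent.W578.SI.Scale
import Pool.Agent.R852.PP.FE
import Pool.Agent.W574.RO.Equiv

/-!
# Project CUB, part IB2 (helper123): change of generators and of variables

By Mustata's theorem the functional equation of an ideal `(f_j)` is the one of the polynomial
`∑ y_j f_j`, and functional equations of polynomials are invariant under automorphisms.
-/

set_option autoImplicit false
set_option linter.unusedSectionVars false

namespace Pool.Agent.N101.CB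

open MvPolynomial
open Pool.Agent.H628R4.TP (weylS IsBFunction)
open Pool.Agent.W578.SI (cj cj_def cj_mem b_transfer rename_mem)
open Pool.Agent.W574.SM (IsFunctionalEq)
open Pool.Agent.W574.HS (univ)

section auto

variable {A B : Type}

theorem ib_ml_mem (g : MvPolynomial A ℂ) : LinearMap.mulLeft ℂ g ∈ weylS A := by
  induction g using MvPolynomial.induction_on with
  | C c =>
    have h : LinearMap.mulLeft ℂ (C c : MvPolynomial A ℂ) = algebraMap ℂ _ c := by
      refine LinearMap.ext fun g => ?_
      rw [LinearMap.mulLeft_apply, Module.algebraMap_end_apply, C_mul']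
    rw [h]
    exact Subalgebra.algebraMap_mem _ c
  | add p q hp hq =>
    have h : LinearMap.mulLeft ℂ (p + q) = LinearMap.mulLeft ℂ p + LinearMap.mulLeft ℂ q := by
      refine LinearMap.ext fun g => ?_
      rw [LinearMap.add_apply, LinearMap.mulLeft_apply, LinearMap.mulLeft_apply,
        LinearMap.mulLeft_apply, add_mul]
    rw [h]
    exact add_mem hp hq
  | mul_X p i hp =>
    have h : LinearMap.mulLeft ℂ (p * X i) = LinearMap.mulLeft ℂ p * LinearMap.mulLeft ℂ (X i) := by
      refine LinearMap.ext fun g => ?_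
      rw [Module.End.mul_apply, LinearMap.mulLeft_apply, LinearMap.mulLeft_apply,
        LinearMap.mulLeft_apply, mul_assoc]
    rw [h]
    exact mul_mem hp (Algebra.subset_adjoin (Or.inl ⟨i, rfl⟩))

/-- conjugation by an isomorphism of polynomial rings preserves the Weyl algebras -/
theorem ib_cj_mem [Fintype B] (φ : MvPolynomial A ℂ ≃ₐ[ℂ] MvPolynomial B ℂ) :
    ∀ Q ∈ weylS A, cj φ Q ∈ weylS B := by
  refine cj_mem φ (fun i => ib_ml_mem _) fun i => ?_
  have h1 : cj φ ((pderiv i : Derivation ℂ (MvPolynomial A ℂ)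
      (MvPolynomial A ℂ)) : MvPolynomial A ℂ →ₗ[ℂ] MvPolynomial A ℂ) =
      ∑ j, LinearMap.mulLeft ℂ (φ (pderiv i (φ.symm (X j)))) *
        ((pderiv j : Derivation ℂ (MvPolynomial B ℂ)
      (MvPolynomial B ℂ)) : MvPolynomial B ℂ →ₗ[ℂ] MvPolynomial B ℂ) := by
    refine LinearMap.ext fun g => ?_
    rw [cj_def, LinearMap.sum_apply]
    show φ (pderiv i (φ.symm g)) = ∑ j, φ (pderiv i (φ.symm (X j))) * pderiv j g
    induction g using MvPolynomial.induction_on with
    | C c =>
      rw [show φ.symm (C c : MvPolynomial B ℂ) = C c from φ.symm.commutes c, pderiv_C,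
        map_zero]
      exact (Finset.sum_eq_zero fun j _ => by rw [pderiv_C, mul_zero]).symm
    | add p q hp hq =>
      rw [map_add, map_add, map_add, hp, hq, ← Finset.sum_add_distrib]
      refine Finset.sum_congr rfl fun j _ => ?_
      rw [map_add, mul_add]
    | mul_X p j0 hp =>
      classical
      rw [map_mul, Derivation.leibniz, smul_eq_mul, smul_eq_mul, map_add, map_mul, map_mul, hp,
        AlgEquiv.apply_symm_apply, AlgEquiv.apply_symm_apply]
      have h2 : ∀ j, φ (pderiv i (φ.symm (X j))) * pderiv j (p * X j0) =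
          (if j = j0 then p * φ (pderiv i (φ.symm (X j0))) else 0) +
            X j0 * (φ (pderiv i (φ.symm (X j))) * pderiv j p) := by
        intro j
        rw [Derivation.leibniz, smul_eq_mul, smul_eq_mul]
        by_cases h3 : j = j0
        · subst h3
          rw [pderiv_X_self, if_pos rfl]
          ring
        · rw [pderiv_X_of_ne (Ne.symm h3), if_neg h3]
          ring
      rw [Finset.sum_congr rfl fun j _ => h2 j, Finset.sum_add_distrib, Finset.sum_ite_eq' _ j0,
        if_pos (Finset.mem_univ _), Finset.mul_sum]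
  rw [h1]
  exact Subalgebra.sum_mem _ fun j _ =>
    Subalgebra.mul_mem _ (ib_ml_mem _) (Algebra.subset_adjoin (Or.inr ⟨j, rfl⟩))

/-- the functional equation of the image of a polynomial by an isomorphism -/
theorem ib_image [Fintype B] (φ : MvPolynomial A ℂ ≃ₐ[ℂ] MvPolynomial B ℂ)
    (f : MvPolynomial A ℂ) (b : Polynomial ℂ) (h : IsBFunction f b) : IsBFunction (φ f) b := by
  have h1 := b_transfer φ (ib_cj_mem φ) 1 one_ne_zero f b h
  rwa [C_1, one_mul] at h1

/-- the map `X a ↦ X a + p` -/
noncomputable def ibSub [DecidableEq A] (a : A) (p : MvPolynomial A ℂ) :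
    MvPolynomial A ℂ →ₐ[ℂ] MvPolynomial A ℂ :=
  aeval (Function.update X a (X a + p))

theorem ibSub_self [DecidableEq A] (a : A) (p : MvPolynomial A ℂ) :
    ibSub a p (X a) = X a + p := by
  rw [ibSub, aeval_X, Function.update_self]

theorem ibSub_ne [DecidableEq A] (a : A) (p : MvPolynomial A ℂ) {i : A} (hi : i ≠ a) :
    ibSub a p (X i) = X i := by
  rw [ibSub, aeval_X, Function.update_of_ne hi]

theorem ibSub_rename [DecidableEq A] (a : A) (p : MvPolynomial A ℂ) {S : Type} (e : S → A)
    (he : ∀ s, e s ≠ a) (q : MvPolynomial S ℂ) : ibSub a p (rename e q) = rename e q := by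
  induction q using MvPolynomial.induction_on with
  | C c =>
    rw [rename_C]
    exact (ibSub a p).commutes c
  | add p q hp hq => rw [map_add, map_add, hp, hq]
  | mul_X q i hq => rw [map_mul, map_mul, hq, rename_X, ibSub_ne a p (he i)]

/-- the automorphism `X a ↦ X a + p`, if `p` does not involve `X a` -/
noncomputable def ibShear [DecidableEq A] (a : A) (p : MvPolynomial A ℂ)
    (h1 : ibSub a p p = p) (h2 : ibSub a (-p) p = p) :
    MvPolynomial A ℂ ≃ₐ[ℂ] MvPolynomial A ℂ :=
  AlgEquiv.ofAlgHom (ibSub a p) (ibSub a (-p))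
    (by
      apply MvPolynomial.algHom_ext
      intro i
      rw [AlgHom.comp_apply, AlgHom.id_apply]
      by_cases hi : i = a
      · subst hi
        rw [ibSub_self, map_add, map_neg, ibSub_self, h1]
        ring
      · rw [ibSub_ne _ _ hi, ibSub_ne _ _ hi])
    (by
      apply MvPolynomial.algHom_ext
      intro i
      rw [AlgHom.comp_apply, AlgHom.id_apply]
      by_cases hi : i = a
      · subst hi
        rw [ibSub_self, map_add, ibSub_self, h2]
        ring
      · rw [ibSub_ne _ _ hi, ibSub_ne _ _ hi])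

theorem ibShear_apply [DecidableEq A] (a : A) (p : MvPolynomial A ℂ)
    (h1 : ibSub a p p = p) (h2 : ibSub a (-p) p = p) (q : MvPolynomial A ℂ) :
    ibShear a p h1 h2 q = ibSub a p q := rfl

end auto

section

variable {n r : ℕ} (f : Fin r → MvPolynomial (Fin n) ℂ) (j₀ : Fin r)
  (u v : MvPolynomial (Fin n) ℂ)

theorem ib_univ (b : Polynomial ℂ) (h : IsBFunction (univ (exI f)) b) :
    IsBFunction (univ (stI f j₀ u v)) b := by
  classical
  let ex : Fin n → Fin (r + 1) ⊕ Fin (n + 1) := fun i => Sum.inr (Fin.castSucc i)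
  -- the automorphism `w ↦ w - u`
  have hw : ∀ s, ex s ≠ Sum.inr (Fin.last n) := by
    intro s h
    exact Fin.castSucc_ne_last s (Sum.inr_injective h)
  have hy : ∀ s, ex s ≠ Sum.inl (Fin.last r) := by
    intro s h
    exact Sum.inr_ne_inl h
  let U : MvPolynomial (Fin (r + 1) ⊕ Fin (n + 1)) ℂ := rename ex u
  let V : MvPolynomial (Fin (r + 1) ⊕ Fin (n + 1)) ℂ := rename ex v
  let θ := ibShear (Sum.inr (Fin.last n)) (-U)
    (by rw [map_neg, ibSub_rename _ _ ex hw]) (by rw [map_neg, ibSub_rename _ _ ex hw])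
  have hV : ∀ p, ibSub (Sum.inl (Fin.last r)) p (V * X (Sum.inl (Fin.castSucc j₀))) =
      V * X (Sum.inl (Fin.castSucc j₀)) := by
    intro p
    rw [map_mul, ibSub_rename _ _ ex hy, ibSub_ne]
    intro h
    exact Fin.castSucc_ne_last j₀ (Sum.inl_injective h)
  let η := ibShear (Sum.inl (Fin.last r)) (V * X (Sum.inl (Fin.castSucc j₀))) (hV _) (hV _)
  have key : η (θ (univ (exI f))) = univ (stI f j₀ u v) := by
    have e1 : univ (exI f) = (∑ j : Fin r, X (Sum.inl (Fin.castSucc j)) * rename ex (f j)) +
        X (Sum.inl (Fin.last r)) * X (Sum.inr (Fin.last n)) := by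
      rw [univ, Fin.sum_univ_castSucc]
      simp only [exI, Fin.snoc_castSucc, Fin.snoc_last, rename_rename, rename_X]
      rfl
    have e2 : θ (univ (exI f)) =
        (∑ j : Fin r, X (Sum.inl (Fin.castSucc j)) * rename ex (f j)) +
        X (Sum.inl (Fin.last r)) * (X (Sum.inr (Fin.last n)) - U) := by
      rw [e1]
      show ibSub _ (-U) _ = _
      rw [map_add, map_mul, map_sum, ibSub_self, ibSub_ne _ _ Sum.inl_ne_inr, ← sub_eq_add_neg]
      congr 1
      refine Finset.sum_congr rfl fun j _ => ?_
      rw [map_mul, ibSub_ne _ _ Sum.inl_ne_inr, ibSub_rename _ _ ex hw]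
    have e3 : η (θ (univ (exI f))) =
        (∑ j : Fin r, X (Sum.inl (Fin.castSucc j)) * rename ex (f j)) +
        (X (Sum.inl (Fin.last r)) + V * X (Sum.inl (Fin.castSucc j₀))) *
          (X (Sum.inr (Fin.last n)) - U) := by
      rw [e2]
      show ibSub _ _ _ = _
      rw [map_add, map_mul, map_sum, ibSub_self, map_sub, ibSub_ne _ _ Sum.inr_ne_inl,
        ibSub_rename _ _ ex hy]
      congr 1
      refine Finset.sum_congr rfl fun j _ => ?_
      rw [map_mul, ibSub_rename _ _ ex hy, ibSub_ne]
      intro h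
      exact Fin.castSucc_ne_last j (Sum.inl_injective h)
    have e4 : univ (stI f j₀ u v) =
        (∑ j : Fin r, X (Sum.inl (Fin.castSucc j)) * (rename ex (f j) +
          if j = j₀ then V * (X (Sum.inr (Fin.last n)) - U) else 0)) +
        X (Sum.inl (Fin.last r)) * (X (Sum.inr (Fin.last n)) - U) := by
      rw [univ, Fin.sum_univ_castSucc]
      simp only [stI, Fin.snoc_castSucc, Fin.snoc_last, map_add, map_sub, rename_rename, rename_X]
      congr 1
      refine Finset.sum_congr rfl fun j _ => ?_
      congr 2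
      split_ifs with hj
      · rw [map_mul, map_sub, rename_rename, rename_rename, rename_X]
        rfl
      · rw [map_zero]
    rw [e3, e4]
    simp only [mul_add, Finset.sum_add_distrib, mul_ite, mul_zero, Finset.sum_ite_eq',
      Finset.mem_univ, if_true]
    ring
  rw [← key]
  exact ib_image η _ _ (ib_image θ _ _ h)

theorem ib_snoc_ne : ∃ j, stI f j₀ u v j ≠ 0 := by
  refine ⟨Fin.last r, ?_⟩
  rw [stI, Fin.snoc_last]
  intro h
  have h1 := congrArg (pderiv (Fin.last n)) h
  rw [map_sub, pderiv_X_self, map_zero] at h1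
  have h2 : pderiv (Fin.last n) (rename Fin.castSucc u) = 0 := by
    apply pderiv_eq_zero_of_notMem_vars
    intro hm
    have h3 := vars_rename Fin.castSucc u hm
    rw [Finset.mem_image] at h3
    obtain ⟨i, -, hi⟩ := h3
    exact Fin.castSucc_ne_last i hi
  rw [h2, sub_zero] at h1
  exact one_ne_zero h1

/-- the converse part of Mustata's theorem -/
theorem ib_conv {ι σ : Type} [Fintype ι] [DecidableEq ι] [DecidableEq σ]
    (g : ι → MvPolynomial σ ℂ) (hg : ∃ j, g j ≠ 0) (b : Polynomial ℂ)
    (h : IsBFunction (univ g) ((Polynomial.X + 1) * b)) : IsFunctionalEq g b := by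
  let a : Unit → ℕ := fun _ => 1
  let e : ι ≃ (Σ _ : Unit, ι) := (Equiv.uniqueSigma (fun _ : Unit => ι)).symm
  have h1 : renameEquiv ℂ (e.sumCongr (Equiv.refl σ)) (univ g) =
      Pool.Agent.R852.PP.form a 1 (fun _ : Unit => g) := by
    rw [Pool.Agent.R852.PP.form, Pool.Agent.TH192.DT.powProd, Fintype.prod_unique, map_one,
      one_mul, univ, map_sum]
    show _ = Pool.Agent.TH192.DT.blockForm (fun _ : Unit => g) _ ^ 1
    rw [pow_one, Pool.Agent.TH192.DT.blockForm]
    refine Finset.sum_congr rfl fun j _ => ?_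
    rw [map_mul, renameEquiv_apply, renameEquiv_apply, rename_X, rename_rename]
    rfl
  have h2 : IsBFunction (Pool.Agent.R852.PP.form a 1 (fun _ : Unit => g))
      ((Polynomial.X + 1) * b) := by
    have h3 := b_transfer (renameEquiv ℂ (e.sumCongr (Equiv.refl σ)))
      (rename_mem (e.sumCongr (Equiv.refl σ))) 1 one_ne_zero _ _ h
    rwa [C_1, one_mul, h1] at h3
  obtain ⟨b', hb', h4⟩ := Pool.Agent.R852.PP.functionalEq_strong a 1 (fun _ : Unit => g)
    one_ne_zero (fun _ => hg) () one_ne_zero _ h2
  have h5 : Pool.Agent.R852.PP.phiA a = Polynomial.X + 1 := by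
    simp [Pool.Agent.R852.PP.phiA, a]
  rw [h5] at hb'
  have h6 : b = b' := by
    have h7 : (Polynomial.X + 1 : Polynomial ℂ) ≠ 0 := by
      rw [← Polynomial.C_1]
      exact Polynomial.X_add_C_ne_zero 1
    exact mul_left_cancel₀ h7 hb'
  subst h6
  let k : ι ≃ Pool.Agent.TH192.DT.Ch (fun _ : Unit => ι) a :=
    { toFun := fun j _ => j
      invFun := fun J => J ⟨(), 0⟩
      left_inv := fun j => rfl
      right_inv := fun J => by
        funext q
        obtain ⟨t, i⟩ := q
        have hi : i = 0 := Subsingleton.elim _ _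
        subst hi
        rfl }
  refine Pool.Agent.W574.RO.functionalEq_equiv (Equiv.refl σ) k g _ (fun j => ?_) b h4
  rw [Pool.Agent.R852.PP.gen, one_mul, Pool.Agent.TH192.DT.prodFam]
  have h8 : rename (Equiv.refl σ) (g j) = g j := by
    have : ((Equiv.refl σ) : σ → σ) = id := rfl
    rw [this, rename_id_apply]
  rw [h8]
  simp [k, a]

end

theorem ib2 : TaskIB2 := by
  intro n r f j₀ u v b h
  exact ib_conv _ (ib_snoc_ne f j₀ u v) b (ib_univ f j₀ u v _
    (Pool.Agent.W366.SI.taskI1' (exI f) b h))

end Pool.Agent.N101.CB
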