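import Pool.Agent.N101.CB.StmI
import Pool.Agent.N101.CB.Red

/-!
# Project CUB: the reduction principle for ideals to squarefree quadrics (helper835)
-/

set_option autoImplicit false

namespace Pool.Agent.N101.CB

open MvPolynomial

namespace REDI

open RED (wt)

/-- an exponent in the old variables -/
noncomputable def E {n : ℕ} (m : Fin n →₀ ℕ) : Fin (n + 1) →₀ ℕ := m.mapDomain Fin.castSucc

/-- an exponent in the new variables -/
noncomputable def G {n : ℕ} (m : Fin n →₀ ℕ) (q : ℕ) : Fin (n + 1) →₀ ℕ :=
  E m + Finsupp.single (Fin.last n) q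

theorem E_c {n : ℕ} (m : Fin n →₀ ℕ) (i : Fin n) : E m i.castSucc = m i :=
  Finsupp.mapDomain_apply (Fin.castSucc_injective n) _ _

theorem E_n {n : ℕ} (m : Fin n →₀ ℕ) : E m (Fin.last n) = 0 := by
  refine Finsupp.mapDomain_of_notMem_range _ _ ?_
  rintro ⟨i, hi⟩
  exact absurd hi (Fin.castSucc_lt_last i).ne

theorem G_c {n : ℕ} (m : Fin n →₀ ℕ) (q : ℕ) (i : Fin n) : G m q i.castSucc = m i := by
  unfold G
  rw [Finsupp.add_apply, E_c, Finsupp.single_apply, if_neg (Fin.castSucc_lt_last i).ne', add_zero]

theorem G_n {n : ℕ} (m : Fin n →₀ ℕ) (q : ℕ) : G m q (Fin.last n) = q := by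
  unfold G
  rw [Finsupp.add_apply, E_n, Finsupp.single_eq_same, zero_add]

theorem wt_G {n : ℕ} (m : Fin n →₀ ℕ) (q : ℕ) :
    wt (G m q) = ((∑ i, m i) + q - 2) + (∑ i, (m i - 1) + (q - 1)) := by
  unfold wt
  rw [Fin.sum_univ_castSucc, Fin.sum_univ_castSucc]
  simp only [G_c, G_n]

theorem E_eq {n : ℕ} (m : Fin n →₀ ℕ) : E m = G m 0 := by
  unfold G
  rw [Finsupp.single_zero, add_zero]

theorem wt_E {n : ℕ} (m : Fin n →₀ ℕ) : wt (E m) = wt m := by
  rw [E_eq, wt_G]
  rfl

theorem E_inj {n : ℕ} : Function.Injective (E : (Fin n →₀ ℕ) → (Fin (n + 1) →₀ ℕ)) :=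
  Finsupp.mapDomain_injective (Fin.castSucc_injective n)

/-- the total weight of a set of exponents -/
def W {n : ℕ} (A : Finset (Fin n →₀ ℕ)) : ℕ := ∑ m ∈ A, wt m

theorem W_mono {n : ℕ} {A B : Finset (Fin n →₀ ℕ)} (h : A ⊆ B) : W A ≤ W B :=
  Finset.sum_le_sum_of_subset h

open Classical in
theorem W_union {n : ℕ} (A B : Finset (Fin n →₀ ℕ)) : W (A ∪ B) ≤ W A + W B := by
  unfold W
  have := Finset.sum_union_inter (s₁ := A) (s₂ := B) (f := fun m => wt m)
  omega

open Classical in
theorem W_image {n : ℕ} (A : Finset (Fin n →₀ ℕ)) : W (A.image E) = W A := by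
  unfold W
  rw [Finset.sum_image (fun a _ b _ h => E_inj h)]
  simp only [wt_E]

section
variable {K : Type} [Field K] {n r : ℕ}

open Classical in
theorem supp_rename (f : MvPolynomial (Fin n) K) :
    (rename Fin.castSucc f).support = f.support.image E := by
  rw [support_rename_of_injective (Fin.castSucc_injective n)]
  rfl

open Classical in
theorem supp_j0 (f : MvPolynomial (Fin n) K) (m a : Fin n →₀ ℕ) (ham : a ≤ m) :
    (rename Fin.castSucc f + rename Fin.castSucc (monomial (m - a) (coeff m f)) *
      (X (Fin.last n) - rename Fin.castSucc (monomial a 1))).support ⊆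
      (f.support.erase m).image E ∪ {G (m - a) 1} := by
  have key : rename Fin.castSucc f + rename Fin.castSucc (monomial (m - a) (coeff m f)) *
      (X (Fin.last n) - rename Fin.castSucc (monomial a 1)) =
      rename Fin.castSucc (f - monomial m (coeff m f)) + monomial (G (m - a) 1) (coeff m f) := by
    have h3 : (monomial (G (m - a) 1) (coeff m f) : MvPolynomial (Fin (n + 1)) K) =
        rename Fin.castSucc (monomial (m - a) (coeff m f)) * X (Fin.last n) := by
      unfold G E
      rw [rename_monomial, X, monomial_mul, mul_one]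
    have h4 : rename Fin.castSucc (monomial m (coeff m f)) =
        rename Fin.castSucc (monomial (m - a) (coeff m f)) *
          rename Fin.castSucc (monomial a (1 : K)) := by
      rw [← map_mul, monomial_mul, mul_one, tsub_add_cancel_of_le ham]
    rw [h3, map_sub, h4]
    ring
  rw [key]
  refine (support_add).trans (Finset.union_subset_union ?_ support_monomial_subset)
  rw [supp_rename]
  refine Finset.image_subset_image ?_
  intro d hd
  rw [Finset.mem_erase]
  rw [mem_support_iff, coeff_sub, coeff_monomial] at hd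
  by_cases h : m = d
  · subst h
    rw [if_pos rfl, sub_self] at hd
    exact absurd rfl hd
  · rw [if_neg h, sub_zero] at hd
    exact ⟨fun h' => h h'.symm, mem_support_iff.2 hd⟩

open Classical in
theorem supp_last (a : Fin n →₀ ℕ) :
    (X (Fin.last n) - rename Fin.castSucc (monomial a (1 : K))).support ⊆
      {G 0 1} ∪ {E a} := by
  have key : (X (Fin.last n) - rename Fin.castSucc (monomial a (1 : K)) :
      MvPolynomial (Fin (n + 1)) K) = monomial (G 0 1) 1 + monomial (E a) (-1) := by
    unfold G E
    rw [Finsupp.mapDomain_zero, zero_add, rename_monomial, X, map_neg, sub_eq_add_neg]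
  rw [key]
  exact (support_add).trans
    (Finset.union_subset_union support_monomial_subset support_monomial_subset)

/-- the total weight -/
noncomputable def Wt (f : Fin r → MvPolynomial (Fin n) K) : ℕ := ∑ j, W (f j).support

theorem quad_of_zero (f : Fin r → MvPolynomial (Fin n) K)
    (h : ∀ j, ∀ m ∈ (f j).support, wt m = 0) : Quad f := by
  intro j m hm
  have hw := h j m hm
  unfold wt at hw
  have h1 : ∑ i, (m i - 1) = 0 := by omega
  refine ⟨fun i => ?_, by omega⟩
  have := (Finset.sum_eq_zero_iff.1 h1) i (Finset.mem_univ _)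
  omega

open Classical in
theorem wt_lt (f : Fin r → MvPolynomial (Fin n) K) (j₀ : Fin r) (m a : Fin n →₀ ℕ)
    (hm : m ∈ (f j₀).support) (ham : a ≤ m) (ha1 : ∀ i, a i ≤ 1) (ha2 : ∑ i, a i ≤ 2)
    (hwt : wt (G (m - a) 1) < wt m) :
    Wt (stI f j₀ (monomial a 1) (monomial (m - a) (coeff m (f j₀)))) < Wt f := by
  unfold Wt stI
  rw [Fin.sum_univ_castSucc]
  simp only [Fin.snoc_castSucc, Fin.snoc_last]
  have hlast : W (X (Fin.last n) - rename Fin.castSucc (monomial a (1 : K))).support = 0 := by
    have h1 := W_mono (supp_last (K := K) a)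
    have h2 := W_union ({G (0 : Fin n →₀ ℕ) 1}) ({E a})
    have h3 : W ({G (0 : Fin n →₀ ℕ) 1}) = 0 := by
      unfold W
      rw [Finset.sum_singleton, wt_G]
      simp
    have h4 : W ({E a}) = 0 := by
      unfold W
      rw [Finset.sum_singleton, wt_E]
      unfold wt
      have h5 : ∑ i, (a i - 1) = 0 := by
        refine Finset.sum_eq_zero fun i _ => ?_
        have := ha1 i
        omega
      omega
    omega
  rw [hlast, add_zero]
  refine Finset.sum_lt_sum (fun j _ => ?_) ⟨j₀, Finset.mem_univ _, ?_⟩
  · by_cases hj : j = j₀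
    · subst hj
      rw [if_pos rfl]
      have h1 := W_mono (supp_j0 (f j) m a ham)
      have h2 := W_union (((f j).support.erase m).image E) ({G (m - a) 1})
      have h3 : W ({G (m - a) 1}) = wt (G (m - a) 1) := Finset.sum_singleton _ _
      rw [W_image] at h2
      have h4 : W ((f j).support.erase m) + wt m = W (f j).support :=
        Finset.sum_erase_add _ _ hm
      omega
    · rw [if_neg hj, add_zero, supp_rename, W_image]
  · rw [if_pos rfl]
    have h1 := W_mono (supp_j0 (f j₀) m a ham)
    have h2 := W_union (((f j₀).support.erase m).image E) ({G (m - a) 1})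
    have h3 : W ({G (m - a) 1}) = wt (G (m - a) 1) := Finset.sum_singleton _ _
    rw [W_image] at h2
    have h4 : W ((f j₀).support.erase m) + wt m = W (f j₀).support :=
      Finset.sum_erase_add _ _ hm
    omega

end

end REDI

open REDI in
/-- the reduction principle for ideals -/
theorem redI : TaskREDI := by
  intro K _ P hQ hS
  have main : ∀ (N n r : ℕ) (f : Fin r → MvPolynomial (Fin n) K), Wt f = N → P n r f := by
    intro N
    induction N using Nat.strong_induction_on with
    | _ N ih =>
      intro n r f hN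
      by_cases h0 : ∃ j, ∃ m ∈ (f j).support, RED.wt m ≠ 0
      · obtain ⟨j₀, m, hm, hwm⟩ := h0
        obtain ⟨a, ham, ha0, hma, ha1, ha2, hwt⟩ := RED.choice m hwm
        have hwt' : RED.wt (G (m - a) 1) < RED.wt m := by
          rw [RED.wt_G] at hwt
          rw [REDI.wt_G]
          omega
        refine hS n r f j₀ (monomial a 1) (monomial (m - a) (coeff m (f j₀))) ?_ ?_ ?_
        · rw [constantCoeff_monomial, if_neg ha0]
        · rw [constantCoeff_monomial, if_neg hma]
        · exact ih _ (hN ▸ wt_lt f j₀ m a hm ham ha1 ha2 hwt') _ _ _ rfl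
      · push Not at h0
        exact hQ n r f (quad_of_zero f h0)
  intro n r f
  exact main _ n r f rfl

end Pool.Agent.N101.CB
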