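import Pool.Agent.N101.CB.StmI
import Pool.Agent.Z864.MS.Three
import Pool.Agent.Y812.MS.Two
import Pool.Agent.W417.MT.K0
import Pool.Agent.W63.MTFin

/-!
# Project CUB, part ZI (helper49): the motivic zeta function of the ideal
-/

set_option autoImplicit false

namespace Pool.Agent.N101.CB.ZIaux

open MvPolynomial Pool.Agent.W428.MOT Pool.Agent.W375.MT Pool.Agent.N101.CB
open Pool.Agent.Z864.MS (Tm isPF_Tm coeff_Tm Tm_Tm)
open Pool.Agent.Y812.MS (Fl card_Fl rsl exl)
open Pool.Agent.W63.MTFin (mapMeas geo_mul L_mul)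

variable {K : Type} [Field K] {n r : ℕ}

theorem constr_TlI (f : Fin r → MvPolynomial (Fin n) K) {W : Set (Pt K (Fin n))}
    (hW : Constr W) (i N : ℕ) : Constr (TlI f W i N) := by
  unfold TlI
  refine Constr.and (hW.preimage _ fun i => IsPF.coord _)
    (Constr.all fun l => Constr.allLt _ fun j _ => ?_)
  exact Constr.eqz (IsPA.aeval (fun i z => arc z i) (fun i => isPA_arc i) (f l) j)

theorem constr_JetI (f : Fin r → MvPolynomial (Fin n) K) {W : Set (Pt K (Fin n))}
    (hW : Constr W) (N : ℕ) : Constr (JetI f W N) := by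
  unfold JetI
  refine Constr.and (hW.preimage _ fun i => IsPF.coord _)
    (Constr.and (Constr.all fun l => Constr.allLt _ fun j _ => ?_) (Constr.ex fun l => ?_))
  · exact Constr.eqz (IsPA.aeval (fun i z => arc z i) (fun i => isPA_arc i) (f l) j)
  · exact Constr.ne (IsPA.aeval (fun i z => arc z i) (fun i => isPA_arc i) (f l) N) IsPF.zero

/-! ### one more coefficient -/

theorem tlI_free (f : Fin r → MvPolynomial (Fin n) K) (W : Set (Pt K (Fin n))) (i N : ℕ)
    (hi : i ≤ N + 1) (z w : Pt K (Fin n × Fin (N + 1 + 1))) (h : ∀ p, p ∉ Fl n N → w p = z p)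
    (hz : z ∈ TlI f W i (N + 1)) : w ∈ TlI f W i (N + 1) := by
  obtain ⟨h1, h2⟩ := hz
  have h4 : ∀ l, ∀ j ≤ N, PowerSeries.coeff j (aeval (arc w) (f l)) =
      PowerSeries.coeff j (aeval (arc z) (f l)) := by
    intro l
    refine coeff_aeval_congr (f l) N (arc w) (arc z) ?_
    intro i k hk
    rw [coeff_arc _ _ _ (by omega), coeff_arc _ _ _ (by omega)]
    exact h _ (by simp only [Fl, Finset.mem_filter, Finset.mem_univ, true_and]; omega)
  refine ⟨?_, fun l j hj => ?_⟩
  · have : (fun i => w (i, 0)) = fun i => z (i, 0) := by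
      funext i
      exact h (i, 0) (by simp [Fl])
    rw [this]
    exact h1
  · rw [h4 l j (by omega)]
    exact h2 l j hj

theorem tlI_eq {R : Type} [CommRing R] (M : Meas K R) (f : Fin r → MvPolynomial (Fin n) K)
    {W : Set (Pt K (Fin n))} (hW : Constr W) (i N : ℕ) (hi : i ≤ N + 1) :
    M.χ _ (TlI f W i (N + 1) ∩ {z | ∀ p ∈ Fl n N, z p = 0}) = M.χ _ (TlI f W i N) := by
  refine M.iso _ _ ((constr_TlI f hW i (N + 1)).inter (Constr.ballFinset _ fun p _ =>
    Constr.eqz (IsPF.coord _))) (constr_TlI f hW i N) rsl exl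
    (regularOn_poly (fun p => IsPF.coord _) _) (regularOn_poly (fun p => ?_) _) ?_ ?_ ?_ ?_
  · unfold exl
    by_cases h : (p.2 : ℕ) < N + 1
    · simp only [dif_pos h]
      exact IsPF.coord _
    · simp only [dif_neg h]
      exact IsPF.zero
  · rintro z ⟨⟨h1, h2⟩, h3⟩
    have h4 : ∀ l, ∀ j ≤ N, PowerSeries.coeff j (aeval (arc (rsl z)) (f l)) =
        PowerSeries.coeff j (aeval (arc z) (f l)) := by
      intro l
      refine coeff_aeval_congr (f l) N (arc (rsl z)) (arc z) ?_
      intro i k hk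
      rw [coeff_arc _ _ _ (by omega), coeff_arc _ _ _ (by omega)]
      rfl
    refine ⟨h1, fun l j hj => ?_⟩
    rw [h4 l j (by omega)]
    exact h2 l j hj
  · rintro z ⟨h1, h2⟩
    have h4 : ∀ l, ∀ j ≤ N, PowerSeries.coeff j (aeval (arc (exl z)) (f l)) =
        PowerSeries.coeff j (aeval (arc z) (f l)) := by
      intro l
      refine coeff_aeval_congr (f l) N (arc (exl z)) (arc z) ?_
      intro i k hk
      rw [coeff_arc _ _ _ (by omega), coeff_arc _ _ _ (by omega)]
      simp only [exl]
      rw [dif_pos (by omega)]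
    refine ⟨⟨h1, fun l j hj => ?_⟩, ?_⟩
    · rw [h4 l j (by omega)]
      exact h2 l j hj
    · intro p hp
      simp only [Fl, Finset.mem_filter, Finset.mem_univ, true_and] at hp
      simp only [exl]
      rw [dif_neg (by omega)]
  · rintro z ⟨-, h3⟩
    funext p
    simp only [exl, rsl]
    split_ifs with h
    · rfl
    · exact (h3 p (by
        have := p.2.2
        simp only [Fl, Finset.mem_filter, Finset.mem_univ, true_and]; omega)).symm
  · rintro z -
    funext p
    simp only [exl, rsl]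
    rw [dif_pos p.2.2]

theorem twoI {R : Type} [CommRing R] (M : Meas K R) (f : Fin r → MvPolynomial (Fin n) K)
    {W : Set (Pt K (Fin n))} (hW : Constr W) (i N : ℕ) (hi : i ≤ N + 1) :
    M.χ _ (TlI f W i (N + 1)) = M.χ _ (TlI f W i N) * M.L ^ n := by
  classical
  have e1 := Pool.Agent.W417.MT.Free.main M (TlI f W i (N + 1)) ∅ (Fl n N) (fun _ => 0)
    (Finset.disjoint_empty_left _) (constr_TlI f hW i (N + 1))
    (fun z w h hz => tlI_free f W i N hi z w (fun p hp => h p (by simp) hp) hz)
  simp only [Finset.notMem_empty, false_implies, implies_true, Set.ofPred_true, Set.inter_univ,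
    Finset.empty_union, map_zero, Finset.card_empty, pow_zero, mul_one] at e1
  rw [card_Fl, tlI_eq M f hW i N hi] at e1
  exact e1

/-! ### the relation of the zeta function and the tails -/

section
variable {R : Type} [CommRing R]

noncomputable def zsI (M : Meas K R) (Y : R) (f : Fin r → MvPolynomial (Fin n) K)
    (W : Set (Pt K (Fin n))) : PowerSeries R :=
  PowerSeries.mk fun N => M.χ _ (JetI f W N) * Y ^ (n * N)

noncomputable def phiI (M : Meas K R) (Y : R) (f : Fin r → MvPolynomial (Fin n) K)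
    (W : Set (Pt K (Fin n))) : PowerSeries R :=
  PowerSeries.mk fun i => M.χ _ (TlI f W i i) * Y ^ (n * i)

theorem tlI_zero (M : Meas K R) (f : Fin r → MvPolynomial (Fin n) K) {W : Set (Pt K (Fin n))}
    (hW : Constr W) : M.χ _ (TlI f W 0 0) = M.χ _ W := by
  refine M.iso _ _ (constr_TlI f hW 0 0) hW (fun z i => z (i, 0)) (fun w p => w p.1)
    (regularOn_poly (fun p => IsPF.coord _) _) (regularOn_poly (fun p => IsPF.coord _) _)
    (fun z hz => hz.1) (fun w hw => ⟨hw, fun l j hj => absurd hj (Nat.not_lt_zero j)⟩) ?_ ?_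
  · intro z _
    funext p
    obtain ⟨i, k⟩ := p
    change z (i, 0) = z (i, k)
    have hk : k = 0 := Fin.ext (by have := k.2; simp only [Fin.val_zero]; omega)
    rw [hk]
  · intro w _
    rfl

theorem phiI_succ (M : Meas K R) (Y : R) (hL : M.L * Y = 1)
    (f : Fin r → MvPolynomial (Fin n) K) {W : Set (Pt K (Fin n))} (hW : Constr W) (N : ℕ) :
    M.χ _ (TlI f W (N + 1) (N + 1)) * Y ^ (n * (N + 1)) =
      M.χ _ (TlI f W (N + 1) N) * Y ^ (n * N) := by
  rw [twoI M f hW (N + 1) N le_rfl]
  have h3 : M.L ^ n * Y ^ n = 1 := by rw [← mul_pow, hL, one_pow]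
  rw [show n * (N + 1) = n + n * N by ring, pow_add]
  linear_combination (M.χ _ (TlI f W (N + 1) N) * Y ^ (n * N)) * h3

theorem jetI_eq (M : Meas K R) (f : Fin r → MvPolynomial (Fin n) K) {W : Set (Pt K (Fin n))}
    (hW : Constr W) (N : ℕ) :
    M.χ _ (TlI f W N N) = M.χ _ (JetI f W N) + M.χ _ (TlI f W (N + 1) N) := by
  rw [← M.add _ _ (constr_JetI f hW N) (constr_TlI f hW (N + 1) N)]
  · congr 1
    ext z
    constructor
    · rintro ⟨h1, h2⟩
      by_cases h : ∃ l, PowerSeries.coeff N (aeval (arc z) (f l)) ≠ 0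
      · exact Or.inl ⟨h1, h2, h⟩
      · right
        refine ⟨h1, fun l j hj => ?_⟩
        rcases Nat.lt_succ_iff_lt_or_eq.1 hj with h3 | h3
        · exact h2 l j h3
        · rw [h3]
          by_contra h4
          exact h ⟨l, h4⟩
    · rintro (⟨h1, h2, -⟩ | ⟨h1, h2⟩)
      · exact ⟨h1, h2⟩
      · exact ⟨h1, fun l j hj => h2 l j (by omega)⟩
  · rw [Set.disjoint_left]
    rintro z ⟨-, -, l, hl⟩ ⟨-, h2⟩
    exact hl (h2 l N (by omega))

theorem relI (M : Meas K R) (Y : R) (hL : M.L * Y = 1)
    (f : Fin r → MvPolynomial (Fin n) K) {W : Set (Pt K (Fin n))} (hW : Constr W) :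
    PowerSeries.X * zsI M Y f W =
      PowerSeries.C (M.χ _ W) - (1 - PowerSeries.X) * phiI M Y f W := by
  rw [sub_mul, one_mul]
  ext N
  rcases N with _ | N
  · rw [PowerSeries.coeff_zero_X_mul, map_sub, map_sub, PowerSeries.coeff_zero_X_mul, phiI,
      PowerSeries.coeff_mk, tlI_zero M f hW, PowerSeries.coeff_zero_C]
    simp
  · rw [PowerSeries.coeff_succ_X_mul, map_sub, map_sub, PowerSeries.coeff_succ_X_mul, phiI, zsI,
      PowerSeries.coeff_mk, PowerSeries.coeff_mk, PowerSeries.coeff_mk, phiI_succ M Y hL f hW,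
      jetI_eq M f hW N, PowerSeries.coeff_C, if_neg (Nat.succ_ne_zero N)]
    ring

/-! ### the change of variables -/

/-- `w ↦ w + u` -/
noncomputable def sf (u : MvPolynomial (Fin n) K) :
    MvPolynomial (Fin (n + 1)) K →ₐ[K] MvPolynomial (Fin (n + 1)) K :=
  aeval (Fin.snoc (fun i => X (Fin.castSucc i)) (X (Fin.last n) + rename Fin.castSucc u) :
    Fin (n + 1) → MvPolynomial (Fin (n + 1)) K)

theorem sf_last (u : MvPolynomial (Fin n) K) :
    sf u (X (Fin.last n)) = X (Fin.last n) + rename Fin.castSucc u := by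
  rw [sf, aeval_X, Fin.snoc_last]

theorem sf_cast (u : MvPolynomial (Fin n) K) (i : Fin n) :
    sf u (X (Fin.castSucc i)) = X (Fin.castSucc i) := by
  rw [sf, aeval_X, Fin.snoc_castSucc]

theorem sf_rename (u p : MvPolynomial (Fin n) K) :
    sf u (rename Fin.castSucc p) = rename Fin.castSucc p := by
  have h : (sf u).comp (rename Fin.castSucc : MvPolynomial (Fin n) K →ₐ[K] _) =
      rename Fin.castSucc := by
    apply MvPolynomial.algHom_ext
    intro i
    rw [AlgHom.comp_apply, rename_X, sf_cast]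
  exact DFunLike.congr_fun h p

theorem sf_sf (u : MvPolynomial (Fin n) K) (g : MvPolynomial (Fin (n + 1)) K) :
    sf u (sf (-u) g) = g := by
  have h : (sf u).comp (sf (-u)) = AlgHom.id K _ := by
    apply MvPolynomial.algHom_ext
    intro i
    rw [AlgHom.comp_apply]
    refine Fin.lastCases ?_ (fun i => ?_) i
    · rw [sf_last, map_add, sf_last, sf_rename, map_neg]
      simp
    · rw [sf_cast, sf_cast]
      rfl
  exact DFunLike.congr_fun h g

theorem sf_sf' (u : MvPolynomial (Fin n) K) (g : MvPolynomial (Fin (n + 1)) K) :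
    sf (-u) (sf u g) = g := by
  have := sf_sf (-u) g
  rwa [neg_neg] at this

theorem origin_Tm (u : MvPolynomial (Fin n) K) {N : ℕ} (z : Pt K (Fin (n + 1) × Fin (N + 1)))
    (i : Fin n) : Tm (sf u) N z (Fin.castSucc i, 0) = z (Fin.castSucc i, 0) := by
  change PowerSeries.coeff 0 (aeval (arc z) (sf u (X (Fin.castSucc i)))) = _
  rw [sf_cast, aeval_X, coeff_arc _ _ _ (Nat.succ_pos N)]
  rfl

theorem dvd_iff {i : ℕ} {P : PowerSeries (AlgebraicClosure K)} :
    (∀ j < i, PowerSeries.coeff j P = 0) ↔ PowerSeries.X ^ i ∣ P :=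
  PowerSeries.X_pow_dvd_iff.symm

theorem change (M : Meas K R) (f : Fin r → MvPolynomial (Fin n) K) (j₀ : Fin r)
    (u v : MvPolynomial (Fin n) K) {W : Set (Pt K (Fin n))} (hW : Constr W) (i N : ℕ)
    (hi : i ≤ N + 1) :
    M.χ _ (TlI (stI f j₀ u v) (Wx W) i N) = M.χ _ (TlI (exI f) (Wx W) i N) := by
  have hWx : Constr (Wx W) := hW.preimage (fun z i => z (Fin.castSucc i)) fun _ => IsPF.coord _
  refine M.iso _ _ (constr_TlI _ hWx i N) (constr_TlI _ hWx i N) (Tm (sf (-u)) N) (Tm (sf u) N)
    (regularOn_poly (fun p => isPF_Tm _ p) _) (regularOn_poly (fun p => isPF_Tm _ p) _)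
    ?_ ?_ (fun z _ => Tm_Tm _ _ (sf_sf' u) z) (fun z _ => Tm_Tm _ _ (sf_sf u) z)
  · rintro z ⟨g1, g2⟩
    refine ⟨?_, fun l => ?_⟩
    · change (fun i => Tm (sf (-u)) N z (Fin.castSucc i, 0)) ∈ W
      simp only [origin_Tm]
      exact g1
    · have hl : PowerSeries.X ^ i ∣ aeval (arc z) (X (Fin.last n) - rename Fin.castSucc u) := by
        rw [← dvd_iff]
        have := g2 (Fin.last r)
        rw [stI, Fin.snoc_last] at this
        exact this
      have key : PowerSeries.X ^ i ∣ aeval (arc z) (sf (-u) (exI f l)) := by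
        refine Fin.lastCases ?_ (fun j => ?_) l
        · rw [exI, Fin.snoc_last, sf_last, map_neg, ← sub_eq_add_neg]
          exact hl
        · rw [exI, Fin.snoc_castSucc, sf_rename]
          have h1 := dvd_iff.1 (g2 (Fin.castSucc j))
          rw [stI, Fin.snoc_castSucc, map_add] at h1
          refine (dvd_add_left ?_).1 h1
          split_ifs
          · rw [map_mul]
            exact Dvd.dvd.mul_left hl _
          · rw [map_zero]
            exact dvd_zero _
      intro j hj
      rw [coeff_Tm _ _ _ _ (by omega)]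
      exact dvd_iff.2 key j hj
  · rintro z ⟨g1, g2⟩
    refine ⟨?_, fun l => ?_⟩
    · change (fun i => Tm (sf u) N z (Fin.castSucc i, 0)) ∈ W
      simp only [origin_Tm]
      exact g1
    · have hl : PowerSeries.X ^ i ∣ aeval (arc z) (X (Fin.last n) : MvPolynomial _ K) := by
        rw [← dvd_iff]
        have := g2 (Fin.last r)
        rw [exI, Fin.snoc_last] at this
        exact this
      have key : PowerSeries.X ^ i ∣ aeval (arc z) (sf u (stI f j₀ u v l)) := by
        refine Fin.lastCases ?_ (fun j => ?_) l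
        · rw [stI, Fin.snoc_last, map_sub, sf_last, sf_rename, add_sub_cancel_right]
          exact hl
        · rw [stI, Fin.snoc_castSucc, map_add, map_add, sf_rename]
          have h1 := dvd_iff.1 (g2 (Fin.castSucc j))
          rw [exI, Fin.snoc_castSucc] at h1
          refine dvd_add h1 ?_
          split_ifs
          · rw [map_mul, map_sub, sf_last, sf_rename, sf_rename, add_sub_cancel_right, map_mul]
            exact Dvd.dvd.mul_left hl _
          · rw [map_zero, map_zero]
            exact dvd_zero _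
      intro j hj
      rw [coeff_Tm _ _ _ _ (by omega)]
      exact dvd_iff.2 key j hj

/-! ### the variable `w` -/

/-- forget `w` -/
def fw {N : ℕ} (z : Pt K (Fin (n + 1) × Fin (N + 1))) : Pt K (Fin n × Fin (N + 1)) :=
  fun p => z (Fin.castSucc p.1, p.2)

/-- `w = 0` -/
noncomputable def bw {N : ℕ} (z : Pt K (Fin n × Fin (N + 1))) :
    Pt K (Fin (n + 1) × Fin (N + 1)) :=
  fun p => Fin.lastCases (motive := fun _ => AlgebraicClosure K) 0 (fun i => z (i, p.2)) p.1

theorem bw_last {N : ℕ} (z : Pt K (Fin n × Fin (N + 1))) (k : Fin (N + 1)) :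
    bw z (Fin.last n, k) = 0 := by
  simp [bw]

theorem bw_cast {N : ℕ} (z : Pt K (Fin n × Fin (N + 1))) (i : Fin n) (k : Fin (N + 1)) :
    bw z (Fin.castSucc i, k) = z (i, k) := by
  simp [bw]

theorem fw_bw {N : ℕ} (z : Pt K (Fin n × Fin (N + 1))) : fw (bw z) = z := by
  funext p
  obtain ⟨i, k⟩ := p
  exact bw_cast z i k

theorem aeval_fw {N : ℕ} (z : Pt K (Fin (n + 1) × Fin (N + 1))) (p : MvPolynomial (Fin n) K) :
    aeval (arc z) (rename Fin.castSucc p) = aeval (arc (fw z)) p := by
  rw [aeval_rename]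
  rfl

theorem drop (M : Meas K R) (f : Fin r → MvPolynomial (Fin n) K) {W : Set (Pt K (Fin n))}
    (hW : Constr W) (N : ℕ) :
    M.χ _ (TlI (exI f) (Wx W) N N) = M.χ _ (TlI f W N N) * M.L := by
  classical
  have hWx : Constr (Wx W) := hW.preimage (fun z i => z (Fin.castSucc i)) fun _ => IsPF.coord _
  have e1 := Pool.Agent.W417.MT.Free.main M (TlI (exI f) (Wx W) N N) ∅
    {((Fin.last n, Fin.last N) : Fin (n + 1) × Fin (N + 1))} (fun _ => 0)
    (Finset.disjoint_empty_left _) (constr_TlI _ hWx N N) (by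
      rintro z w h ⟨h1, h2⟩
      have h' : ∀ p, p ≠ ((Fin.last n, Fin.last N) : Fin (n + 1) × Fin (N + 1)) → w p = z p :=
        fun p hp => h p (by simp) (by simpa using hp)
      have hfw : fw w = fw z := by
        funext p
        refine h' _ fun h3 => ?_
        have := congrArg Prod.fst h3
        exact (Fin.castSucc_ne_last p.1) this
      refine ⟨?_, fun l => ?_⟩
      · change (fun i => fw w (i, 0)) ∈ W
        rw [hfw]
        exact h1
      · refine Fin.lastCases ?_ (fun j => ?_) l
        · intro k hk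
          have h3 := h2 (Fin.last r) k hk
          rw [exI, Fin.snoc_last, aeval_X, coeff_arc _ _ _ (by omega)] at h3 ⊢
          rw [h' _ (fun h4 => ?_)]
          · exact h3
          · have h5 := congrArg (fun p => (p.2 : ℕ)) h4
            simp only [Fin.val_last] at h5
            omega
        · have h3 := h2 (Fin.castSucc j)
          rw [exI, Fin.snoc_castSucc, aeval_fw] at h3 ⊢
          rw [hfw]
          exact h3)
  simp only [Finset.notMem_empty, false_implies, implies_true, Set.ofPred_true, Set.inter_univ,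
    Finset.empty_union, map_zero, Finset.card_empty, pow_zero, mul_one,
    Finset.card_singleton, pow_one] at e1
  rw [e1]
  congr 1
  refine M.iso _ _ ((constr_TlI _ hWx N N).inter (Constr.ballFinset _ fun p _ =>
    Constr.eqz (IsPF.coord _))) (constr_TlI f hW N N) fw bw
    (regularOn_poly (fun p => IsPF.coord _) _) (regularOn_poly (fun p => ?_) _) ?_ ?_ ?_
    (fun z _ => fw_bw z)
  · obtain ⟨a, k⟩ := p
    refine Fin.lastCases ?_ (fun i => ?_) a
    · simp only [bw_last]
      exact IsPF.zero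
    · simp only [bw_cast]
      exact IsPF.coord _
  · rintro z ⟨⟨h1, h2⟩, -⟩
    refine ⟨h1, fun l j hj => ?_⟩
    have h3 := h2 (Fin.castSucc l) j hj
    rw [exI, Fin.snoc_castSucc, aeval_fw] at h3
    exact h3
  · rintro z ⟨h1, h2⟩
    refine ⟨⟨?_, fun l => ?_⟩, ?_⟩
    · change (fun i => fw (bw z) (i, 0)) ∈ W
      rw [fw_bw]
      exact h1
    · refine Fin.lastCases ?_ (fun j => ?_) l
      · intro k hk
        rw [exI, Fin.snoc_last, aeval_X, coeff_arc _ _ _ (by omega), bw_last]
      · rw [exI, Fin.snoc_castSucc, aeval_fw, fw_bw]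
        exact h2 j
    · intro p hp
      rw [Finset.mem_singleton] at hp
      rw [hp]
      exact bw_last z _
  · rintro z ⟨⟨h1, h2⟩, h3⟩
    funext p
    obtain ⟨a, k⟩ := p
    refine Fin.lastCases ?_ (fun i => ?_) a
    · rw [bw_last]
      by_cases hk : (k : ℕ) < N
      · have h4 := h2 (Fin.last r) k hk
        rw [exI, Fin.snoc_last, aeval_X, coeff_arc _ _ _ (by omega)] at h4
        exact h4.symm
      · have hk' : k = Fin.last N := Fin.ext (by have := k.2; simp only [Fin.val_last]; omega)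
        rw [hk']
        exact (h3 _ (Finset.mem_singleton_self _)).symm
    · rw [bw_cast]
      rfl

theorem phi_new (M : Meas K R) (Y : R) (f : Fin r → MvPolynomial (Fin n) K) (j₀ : Fin r)
    (u v : MvPolynomial (Fin n) K) {W : Set (Pt K (Fin n))} (hW : Constr W) :
    phiI M Y (stI f j₀ u v) (Wx W) =
      PowerSeries.C M.L * PowerSeries.rescale Y (phiI M Y f W) := by
  ext i
  rw [PowerSeries.coeff_C_mul, PowerSeries.coeff_rescale, phiI, phiI, PowerSeries.coeff_mk,
    PowerSeries.coeff_mk, change M f j₀ u v hW i i (by omega), drop M f hW i,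
    show (n + 1) * i = n * i + i by ring, pow_add]
  ring

theorem rescale_X' (L : R) : PowerSeries.rescale L (PowerSeries.X : PowerSeries R) =
    PowerSeries.C L * PowerSeries.X := by
  ext n
  rw [PowerSeries.coeff_rescale, PowerSeries.coeff_C_mul, PowerSeries.coeff_X]
  split_ifs with h
  · rw [h, pow_one]
  · rw [mul_zero, mul_zero]

theorem rescale_C' (L a : R) : PowerSeries.rescale L (PowerSeries.C a : PowerSeries R) =
    PowerSeries.C a := by
  ext n
  rw [PowerSeries.coeff_rescale, PowerSeries.coeff_C]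
  split_ifs with h
  · rw [h, pow_zero, one_mul]
  · rw [mul_zero]

theorem chi_Wx (M : Meas K R) (f : Fin r → MvPolynomial (Fin n) K)
    {W : Set (Pt K (Fin n))} (hW : Constr W) : M.χ _ (Wx W) = M.χ _ W * M.L := by
  have hWx : Constr (Wx W) := hW.preimage (fun z i => z (Fin.castSucc i)) fun _ => IsPF.coord _
  rw [← tlI_zero M (exI f) hWx, drop M f hW 0, tlI_zero M f hW]

theorem X_cancel {A B : PowerSeries R} (h : PowerSeries.X * A = PowerSeries.X * B) : A = B := by
  ext N
  have := congrArg (PowerSeries.coeff (N + 1)) h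
  rwa [PowerSeries.coeff_succ_X_mul, PowerSeries.coeff_succ_X_mul] at this

/-- the relation of the zeta functions -/
theorem main_rel (M : Meas K R) (Y : R) (hL : M.L * Y = 1)
    (f : Fin r → MvPolynomial (Fin n) K) (j₀ : Fin r) (u v : MvPolynomial (Fin n) K)
    {W : Set (Pt K (Fin n))} (hW : Constr W) :
    (1 - PowerSeries.C Y * PowerSeries.X) * zsI M Y (stI f j₀ u v) (Wx W) =
      PowerSeries.C (M.χ _ W) * (PowerSeries.C M.L - 1) +
        (1 - PowerSeries.X) * PowerSeries.rescale Y (zsI M Y f W) := by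
  have hWx : Constr (Wx W) := hW.preimage (fun z i => z (Fin.castSucc i)) fun _ => IsPF.coord _
  have h1 := relI M Y hL (stI f j₀ u v) hWx
  have h2 := congrArg (PowerSeries.rescale Y) (relI M Y hL f hW)
  rw [map_mul, map_sub, map_mul, map_sub, map_one, rescale_X', rescale_C'] at h2
  rw [phi_new M Y f j₀ u v hW, chi_Wx M f hW, map_mul] at h1
  have hC : PowerSeries.C M.L * PowerSeries.C Y = (1 : PowerSeries R) := by
    rw [← map_mul, hL, map_one]
  apply X_cancel
  set x : PowerSeries R := PowerSeries.X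
  set y : PowerSeries R := PowerSeries.C Y
  set l : PowerSeries R := PowerSeries.C M.L
  set c : PowerSeries R := PowerSeries.C (M.χ _ W)
  set P := PowerSeries.rescale Y (phiI M Y f W)
  set Z := PowerSeries.rescale Y (zsI M Y f W)
  linear_combination (1 - y * x) * h1 - (1 - x) * l * h2 - x * (c - (1 - x) * Z) * hC

end

end Pool.Agent.N101.CB.ZIaux

namespace Pool.Agent.N101.CB

open MvPolynomial Pool.Agent.W428.MOT ZIaux
open Pool.Agent.W63.MTFin (mapMeas geo_mul L_mul)

/-- **(ZI)** the zeta function of the ideal -/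
theorem zi : TaskZI := by
  intro K _ _ n r f j₀ u v W hW
  obtain ⟨M₀, hM₀⟩ := Pool.Agent.W417.MT.K0.main K
  set M := mapMeas M₀ (algebraMap (K0 K) (MK K)) with hM
  set Y : MK K := (((Lu K)⁻¹ : (MK K)ˣ) : MK K) with hY
  have hL : M.L * Y = 1 := L_mul hM₀
  have hML : M.L = ((Lu K : (MK K)ˣ) : MK K) := by
    have h2 : ((Lu K : (MK K)ˣ) : MK K) * Y = 1 := Units.mul_inv _
    calc M.L = M.L * (((Lu K : (MK K)ˣ) : MK K) * Y) := by rw [h2, mul_one]
      _ = (M.L * Y) * ((Lu K : (MK K)ˣ) : MK K) := by ring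
      _ = _ := by rw [hL, one_mul]
  have hz : ∀ {a b : ℕ} (g : Fin b → MvPolynomial (Fin a) K) (V : Set (Pt K (Fin a))),
      ztI g V = zsI M Y g V := by
    intro a b g V
    ext N
    rw [ztI, zsI, PowerSeries.coeff_mk, PowerSeries.coeff_mk, zpow_neg, zpow_natCast, ← inv_pow,
      Units.val_pow_eq_pow_val, clM, ← hM₀]
    rfl
  have hc : clM W = M.χ _ W := by
    rw [clM, ← hM₀]
    rfl
  have h1 := main_rel M Y hL f j₀ u v hW
  have h2 := geo_mul (K := K) (-1) 1 one_pos
  rw [show (1 : ℤ).toNat = 1 from rfl, zpow_neg_one, pow_one, ← hY] at h2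
  have hF : Fz K 1 1 = (PowerSeries.C M.L - 1) * (PowerSeries.C Y * PowerSeries.X) *
      geo K (-1) 1 := by
    rw [Fz, hML, map_sub, map_one, pow_one]
    simp only [Nat.cast_one, zpow_neg_one]
    rfl
  have hC : PowerSeries.C M.L * PowerSeries.C Y = (1 : PowerSeries (MK K)) := by
    rw [← map_mul, hL, map_one]
  rw [hz, hz, hc, hF, cL, ← hML]
  set x : PowerSeries (MK K) := PowerSeries.X
  set y : PowerSeries (MK K) := PowerSeries.C Y
  set l : PowerSeries (MK K) := PowerSeries.C M.L
  set c : PowerSeries (MK K) := PowerSeries.C (M.χ _ W)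
  set g := geo K (-1) 1
  set Z := PowerSeries.rescale Y (zsI M Y f W)
  set Z' := zsI M Y (stI f j₀ u v) (Wx W)
  linear_combination g * h1 + (-Z' + c * (l - 1) + Z) * h2 + (x * g * Z) * hC

end Pool.Agent.N101.CB
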