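import Pool.Agent.N101.CB.Top
import Pool.Agent.N101.CB.RedI
import Pool.Agent.N101.CB.Zi
import Pool.Agent.N101.CB.IB1
import Pool.Agent.N101.CB.IB2
import Pool.Agent.W417.MT.Free

/-!
# Project CUB: ideals
-/

set_option autoImplicit false

namespace Pool.Agent.N101.CB

open MvPolynomial Pool.Agent.W428.MOT
open Pool.Agent.W63.MTFin (mapMeas L_mul C_mem)
open Pool.Agent.W574.SM (IsFunctionalEq)

namespace IM

/-- **Chains for ideals.** -/
theorem chainI {K : Type} [Field K]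
    (R : ∀ {n r m t : ℕ}, (Fin r → MvPolynomial (Fin n) K) → (Fin t → MvPolynomial (Fin m) K) →
      ℕ → Prop)
    (h0 : ∀ {n r : ℕ} (f : Fin r → MvPolynomial (Fin n) K), R f f 0)
    (h1 : ∀ {n r m t : ℕ} (f : Fin r → MvPolynomial (Fin n) K) (j₀ : Fin r)
      (u v : MvPolynomial (Fin n) K) (F : Fin t → MvPolynomial (Fin m) K) (κ : ℕ),
      constantCoeff u = 0 → constantCoeff v = 0 → R (stI f j₀ u v) F κ → R f F (κ + 1))
    {n r : ℕ} (f : Fin r → MvPolynomial (Fin n) K) :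
    ∃ (κ m t : ℕ) (F : Fin t → MvPolynomial (Fin m) K), m = n + κ ∧ t = r + κ ∧ Quad F ∧
      R f F κ := by
  refine redI K (fun n r f => ∃ (κ m t : ℕ) (F : Fin t → MvPolynomial (Fin m) K),
    m = n + κ ∧ t = r + κ ∧ Quad F ∧ R f F κ) ?_ ?_ n r f
  · intro n r f hf
    exact ⟨0, n, r, f, rfl, rfl, hf, h0 f⟩
  · rintro n r f j₀ u v hu hv ⟨κ, m, t, F, hm, ht, hF, hR⟩
    exact ⟨κ + 1, m, t, F, by omega, by omega, hF, h1 f j₀ u v F κ hu hv hR⟩

section
variable {K : Type} [Field K] {n r : ℕ}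

theorem stI_ne (f : Fin r → MvPolynomial (Fin n) K) (j₀ : Fin r) (u v : MvPolynomial (Fin n) K) :
    ∃ j, stI f j₀ u v j ≠ 0 := by
  refine ⟨Fin.last r, ?_⟩
  unfold stI
  rw [Fin.snoc_last]
  intro h
  have h1 := congrArg (aeval (Fin.snoc (α := fun _ => K) (fun _ : Fin n => (0 : K))
    (aeval (fun _ : Fin n => (0 : K)) u + 1))) h
  rw [map_sub, aeval_X, Fin.snoc_last, aeval_rename, map_zero] at h1
  have h2 : (Fin.snoc (α := fun _ => K) (fun _ : Fin n => (0 : K))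
    (aeval (fun _ : Fin n => (0 : K)) u + 1)) ∘ Fin.castSucc = fun _ : Fin n => (0 : K) := by
    funext i
    simp [Function.comp]
  rw [h2] at h1
  simp at h1

/-- the retraction `w ↦ u` -/
noncomputable def ret (u : MvPolynomial (Fin n) K) :
    MvPolynomial (Fin (n + 1)) K →ₐ[K] MvPolynomial (Fin n) K :=
  aeval (Fin.snoc (α := fun _ => MvPolynomial (Fin n) K) X u)

theorem ret_rename (u p : MvPolynomial (Fin n) K) : ret u (rename Fin.castSucc p) = p := by
  unfold ret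
  rw [aeval_rename]
  have h2 : (Fin.snoc (α := fun _ => MvPolynomial (Fin n) K) X u) ∘ Fin.castSucc = X := by
    funext i
    simp [Function.comp]
  rw [h2, aeval_X_left]
  rfl

theorem ret_w (u : MvPolynomial (Fin n) K) : ret u (X (Fin.last n)) = u := by
  unfold ret
  rw [aeval_X, Fin.snoc_last]

theorem stI_proper (f : Fin r → MvPolynomial (Fin n) K) (j₀ : Fin r)
    (u v : MvPolynomial (Fin n) K) (h : Ideal.span (Set.range f) ≠ ⊤) :
    Ideal.span (Set.range (stI f j₀ u v)) ≠ ⊤ := by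
  intro h1
  apply h
  rw [Ideal.eq_top_iff_one]
  have h2 : (1 : MvPolynomial (Fin (n + 1)) K) ∈ Ideal.span (Set.range (stI f j₀ u v)) := by
    rw [h1]
    exact Submodule.mem_top
  have h3 : Ideal.span (Set.range (stI f j₀ u v)) ≤
      (Ideal.span (Set.range f)).comap (ret u) := by
    rw [Ideal.span_le]
    rintro _ ⟨j, rfl⟩
    rw [SetLike.mem_coe, Ideal.mem_comap]
    refine Fin.lastCases ?_ (fun j => ?_) j
    · unfold stI
      rw [Fin.snoc_last, map_sub, ret_w, ret_rename, sub_self]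
      exact Submodule.zero_mem _
    · unfold stI
      rw [Fin.snoc_castSucc, map_add, ret_rename]
      refine Ideal.add_mem _ (Ideal.subset_span ⟨j, rfl⟩) ?_
      split_ifs
      · rw [map_mul, map_sub, ret_w, ret_rename, ret_rename, sub_self, mul_zero]
        exact Submodule.zero_mem _
      · rw [map_zero]
        exact Submodule.zero_mem _
  have h4 := h3 h2
  rw [Ideal.mem_comap, map_one] at h4
  exact h4

end

/-- The formula `(s + κ) (R'(s) - 1) = s (R(s + κ) - 1)`. -/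
def TI (κ : ℕ) (R R' : RatFunc ℂ) : Prop :=
  (RatFunc.X + (κ : RatFunc ℂ)) * (R' - 1) = RatFunc.X * (shR (κ : ℂ) R - 1)

theorem shR_X (a : ℂ) : shR a RatFunc.X = RatFunc.X + algebraMap ℂ (RatFunc ℂ) a := by
  rw [← RatFunc.algebraMap_X, shR_poly, Polynomial.X_comp, map_add,
    IsScalarTower.algebraMap_apply ℂ (Polynomial ℂ) (RatFunc ℂ)]
  rfl

theorem shR_zero (R : RatFunc ℂ) : shR 0 R = R := by
  obtain ⟨p, q, hq, rfl⟩ := IsFractionRing.div_surjective (A := Polynomial ℂ) R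
  rw [map_div₀, shR_poly, shR_poly]
  simp

theorem shR_add (a b : ℂ) (R : RatFunc ℂ) : shR a (shR b R) = shR (a + b) R := by
  obtain ⟨p, q, hq, rfl⟩ := IsFractionRing.div_surjective (A := Polynomial ℂ) R
  rw [map_div₀, map_div₀, map_div₀, shR_poly, shR_poly, shR_poly, shR_poly, shR_poly, shR_poly,
    Polynomial.comp_assoc, Polynomial.comp_assoc]
  simp [add_assoc]

theorem lin_ne (a : ℂ) : (RatFunc.X + algebraMap ℂ (RatFunc ℂ) a : RatFunc ℂ) ≠ 0 := by
  have h : (Polynomial.X + Polynomial.C a : Polynomial ℂ).eval (1 - a) ≠ 0 := by simp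
  have h1 := ne0 h
  rwa [map_add, RatFunc.algebraMap_X] at h1

theorem TI.refl (R : RatFunc ℂ) : TI 0 R R := by
  unfold TI
  rw [Nat.cast_zero, Nat.cast_zero, shR_zero]
  ring

theorem TI.one (R : RatFunc ℂ) : TI 1 R (topStepI 1 R) := by
  unfold TI topStepI
  rw [ft00, map_add, RatFunc.algebraMap_X]
  simp only [map_one, Nat.cast_one]
  have h := lin_ne 1
  rw [map_one] at h
  field_simp
  ring

theorem TI.comp {R S T : RatFunc ℂ} (κ : ℕ) (h1 : TI 1 R S) (h2 : TI κ S T) :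
    TI (κ + 1) R T := by
  unfold TI at *
  have h3 := congrArg (shR (κ : ℂ)) h1
  rw [map_mul, map_mul, map_sub, map_sub, map_add, map_one, Nat.cast_one, Nat.cast_one, map_one,
    shR_X, shR_add, map_natCast] at h3
  have h4 := lin_ne (κ : ℂ)
  rw [map_natCast] at h4
  apply mul_left_cancel₀ h4
  push_cast
  linear_combination (RatFunc.X + (κ : RatFunc ℂ) + 1) * h2 + RatFunc.X * h3

theorem ne_of_pole {χ : MK ℂ →+* ℂ} {Z : PowerSeries (MK ℂ)} {R : RatFunc ℂ}
    (h : IsTop χ Z R) {s : ℂ} (hs : ¬ Reg R s) : ∃ q : ℚ, q < 0 ∧ s = (q : ℂ) := by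
  by_contra hcon
  apply hs
  refine h.reg fun p hp => hcon ⟨-(((p.2 : ℚ) + 1) / ((p.1 : ℚ) + 1)), ?_, ?_⟩
  · have h1 : (0 : ℚ) < ((p.2 : ℚ) + 1) / ((p.1 : ℚ) + 1) := by positivity
    linarith
  · have h1 : ((p.1 : ℂ) + 1) ≠ 0 := by exact_mod_cast Nat.succ_ne_zero p.1
    push_cast
    field_simp
    linear_combination hp

theorem topStepI_reg {R : RatFunc ℂ} {s : ℂ} (h0 : s ≠ 0) (h1 : s ≠ 1)
    (h : Reg (topStepI 1 R) (s - 1)) : Reg R s := by
  apply reg_of_shR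
  have a1 : (Polynomial.X + 1 : Polynomial ℂ).eval (s - 1) ≠ 0 := by simpa using h0
  have a2 : (Polynomial.X : Polynomial ℂ).eval (s - 1) ≠ 0 := by
    rw [Polynomial.eval_X]
    exact sub_ne_zero.2 h1
  have b1 := ne0 a1
  have b2 := ne0 a2
  have e : shR 1 R = (topStepI 1 R -
      (algebraMap (Polynomial ℂ) (RatFunc ℂ) (Polynomial.X + 1))⁻¹) *
      (algebraMap (Polynomial ℂ) (RatFunc ℂ) (Polynomial.X + 1) *
        (algebraMap (Polynomial ℂ) (RatFunc ℂ) Polynomial.X)⁻¹) := by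
    unfold topStepI
    rw [ft00]
    have c1 : algebraMap (Polynomial ℂ) (RatFunc ℂ) (Polynomial.X + 1) =
        algebraMap (Polynomial ℂ) (RatFunc ℂ) Polynomial.X + 1 := by rw [map_add, map_one]
    simp only [map_one]
    rw [c1] at b1 ⊢
    generalize algebraMap (Polynomial ℂ) (RatFunc ℂ) Polynomial.X = x at *
    field_simp
    ring
  rw [e]
  exact (h.sub (Reg.inv a1)).mul ((Reg.poly _ _).mul (Reg.inv a2))

theorem clM_full (K : Type) [Field K] [CharZero K] : ∃ M : Meas K (MK K),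
    (∀ (ι : Type) [Fintype ι] (S : Set (Pt K ι)), M.χ ι S = clM S) ∧
      M.L = ((Lu K : (MK K)ˣ) : MK K) := by
  obtain ⟨M₀, hM₀⟩ := Pool.Agent.W417.MT.K0.main K
  refine ⟨mapMeas M₀ (algebraMap (K0 K) (MK K)), fun ι _ S => ?_, ?_⟩
  · change algebraMap (K0 K) (MK K) (M₀.χ ι S) = _
    rw [hM₀]
    rfl
  · have h1 := L_mul hM₀
    have h2 : ((Lu K : (MK K)ˣ) : MK K) * (((Lu K)⁻¹ : (MK K)ˣ) : MK K) = 1 := Units.mul_inv _
    calc (mapMeas M₀ (algebraMap (K0 K) (MK K))).L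
        = (mapMeas M₀ (algebraMap (K0 K) (MK K))).L *
          (((Lu K : (MK K)ˣ) : MK K) * (((Lu K)⁻¹ : (MK K)ˣ) : MK K)) := by rw [h2, mul_one]
      _ = ((mapMeas M₀ (algebraMap (K0 K) (MK K))).L * (((Lu K)⁻¹ : (MK K)ˣ) : MK K)) *
          ((Lu K : (MK K)ˣ) : MK K) := by ring
      _ = _ := by rw [h1, one_mul]

/-- the class of the affine space -/
theorem clM_univ (K : Type) [Field K] [CharZero K] (n : ℕ) :
    clM (Set.univ : Set (Pt K (Fin n))) = ((Lu K : (MK K)ˣ) : MK K) ^ n := by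
  classical
  obtain ⟨M, hM, hL⟩ := clM_full K
  have h := Pool.Agent.W417.MT.Free.free_one (M := M) (Finset.univ : Finset (Fin n))
    (fun _ => (0 : K)) Set.univ Constr.univ (fun _ _ _ _ => Set.mem_univ _)
  have h1 : (Set.univ : Set (Pt K (Fin n))) ∩
      {z | ∀ i ∈ (Finset.univ : Finset (Fin n)), z i = algebraMap K (AlgebraicClosure K) 0} =
      {0} := by
    ext z
    simp only [Set.univ_inter, Set.mem_ofPred_eq, Finset.mem_univ, true_implies, map_zero,
      Set.mem_singleton_iff]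
    exact ⟨fun h => funext h, fun h i => by rw [h]; rfl⟩
  have hc : Constr ({0} : Set (Pt K (Fin n))) := by
    have h3 : ({0} : Set (Pt K (Fin n))) = {z | ∀ i ∈ (Finset.univ : Finset (Fin n)),
        z i = algebraMap K (AlgebraicClosure K) 0} := by
      rw [← h1, Set.univ_inter]
    rw [h3]
    exact Pool.Agent.W417.MT.Free.constr_eqs Finset.univ fun _ => (0 : K)
  have h2 : M.χ (Fin n) ({0} : Set (Pt K (Fin n))) = 1 := by
    rw [← M.point (ι := Fin 0)]
    refine M.iso _ _ hc Constr.univ (fun _ i => i.elim0) (fun _ _ => 0)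
      (regularOn_poly (fun i => i.elim0) _) (regularOn_poly (fun _ => IsPF.zero) _) ?_ ?_ ?_ ?_
    · intro z _
      exact Set.mem_univ _
    · intro z _
      exact Set.mem_singleton_iff.2 rfl
    · intro z hz
      rw [Set.mem_singleton_iff.1 hz]
      rfl
    · intro w _
      funext i
      exact i.elim0
  rw [h1, h2, one_mul, hM, Finset.card_univ, Fintype.card_fin, hL] at h
  exact h

theorem Wx_univ {K : Type} [Field K] {n : ℕ} :
    Wx (Set.univ : Set (Pt K (Fin n))) = Set.univ := by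
  ext w
  simp [Wx]

/-- All the relations between the ideal of the `f_j` and the ideal of the quadrics `F_j`. -/
structure RlI {n r m t : ℕ} (f : Fin r → MvPolynomial (Fin n) ℂ)
    (F : Fin t → MvPolynomial (Fin m) ℂ) (κ : ℕ) : Prop where
  ne : (∃ j, f j ≠ 0) → ∃ j, F j ≠ 0
  proper : Ideal.span (Set.range f) ≠ ⊤ → Ideal.span (Set.range F) ≠ ⊤
  b : ∀ b : Polynomial ℂ, IsFunctionalEq f b →
    IsFunctionalEq F (b.comp (Polynomial.X + Polynomial.C (κ : ℂ)))
  top : ∀ χ : MK ℂ →+* ℂ, χ ((Lu ℂ : (MK ℂ)ˣ) : MK ℂ) = 1 → ∀ R : RatFunc ℂ,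
    IsTop χ (ztI f Set.univ) R → ∃ R' : RatFunc ℂ, IsTop χ (ztI F Set.univ) R' ∧ TI κ R R' ∧
      ∀ s : ℂ, ¬ Reg R s → ¬ Reg R' (s - κ)

theorem RlI.refl {n r : ℕ} (f : Fin r → MvPolynomial (Fin n) ℂ) : RlI f f 0 where
  ne h := h
  proper h := h
  b b hb := by
    rw [Nat.cast_zero, map_zero, add_zero, Polynomial.comp_X]
    exact hb
  top χ _ R hR := ⟨R, hR, TI.refl R, fun s h => by simpa using h⟩

theorem RlI.step {n r m t : ℕ} (f : Fin r → MvPolynomial (Fin n) ℂ) (j₀ : Fin r)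
    (u v : MvPolynomial (Fin n) ℂ) (F : Fin t → MvPolynomial (Fin m) ℂ) (κ : ℕ)
    (h : RlI (stI f j₀ u v) F κ) : RlI f F (κ + 1) where
  ne _ := h.ne (stI_ne f j₀ u v)
  proper h0 := h.proper (stI_proper f j₀ u v h0)
  b b hb := by
    have h1 := h.b _ (ib2 f j₀ u v _ (ib1 f b hb))
    rw [Polynomial.comp_assoc, Polynomial.add_comp, Polynomial.X_comp, Polynomial.one_comp] at h1
    have e : (Polynomial.X + Polynomial.C ((κ + 1 : ℕ) : ℂ) : Polynomial ℂ) =
        Polynomial.X + Polynomial.C (κ : ℂ) + 1 := by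
      push_cast
      rw [map_add, map_one, add_assoc]
    rw [e]
    exact h1
  top χ hχ R hR := by
    have h1 : IsTop χ (ztI (stI f j₀ u v) Set.univ) (topStepI 1 R) := by
      have h0 := isTop_ideal hχ hR (clM (Set.univ : Set (Pt ℂ (Fin n))))
      have hw : χ (clM (Set.univ : Set (Pt ℂ (Fin n)))) = 1 := by
        rw [clM_univ, map_pow, hχ, one_pow]
      rw [hw, ← zi ℂ f j₀ u v Set.univ Constr.univ, Wx_univ] at h0
      exact h0
    obtain ⟨R', h2, hT, h3⟩ := h.top χ hχ _ h1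
    refine ⟨R', h2, TI.comp κ (TI.one R) hT, fun s hR' => ?_⟩
    obtain ⟨q, hq, hs⟩ := ne_of_pole hR hR'
    have h4 : s ≠ 0 := by
      rw [hs, Rat.cast_ne_zero]
      exact hq.ne
    have h5 : s ≠ 1 := by
      intro h6
      have h7 : q = 1 := by
        rw [hs] at h6
        exact_mod_cast h6
      rw [h7] at hq
      norm_num at hq
    have h6 := h3 (s - 1) fun h7 => hR' (topStepI_reg h4 h5 h7)
    push_cast
    rwa [sub_sub, add_comm] at h6

/-- **The quadrics of an ideal.** -/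
theorem exists_quadrics {n r : ℕ} (f : Fin r → MvPolynomial (Fin n) ℂ) :
    ∃ (κ m t : ℕ) (F : Fin t → MvPolynomial (Fin m) ℂ), m = n + κ ∧ t = r + κ ∧ Quad F ∧
      RlI f F κ :=
  chainI (fun f F κ => RlI f F κ) (fun f => RlI.refl f)
    (fun f j₀ u v F κ _ _ h => RlI.step f j₀ u v F κ h) f

/-- a function regular at `a` is a polynomial if its product with `s - a` is -/
theorem poly_of {S : RatFunc ℂ} {a : ℂ} {q : Polynomial ℂ}
    (h : algebraMap (Polynomial ℂ) (RatFunc ℂ) (Polynomial.X - Polynomial.C a) * S =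
      algebraMap (Polynomial ℂ) (RatFunc ℂ) q) (hr : Reg S a) :
    ∃ p : Polynomial ℂ, S = algebraMap (Polynomial ℂ) (RatFunc ℂ) p := by
  obtain ⟨p', q', h1, h2⟩ := hr
  have hco : IsCoprime (Polynomial.X - Polynomial.C a) q' := by
    rw [(Polynomial.irreducible_X_sub_C a).coprime_iff_not_dvd, Polynomial.dvd_iff_isRoot]
    exact h1
  obtain ⟨x, y, hxy⟩ := hco
  refine ⟨x * q + y * p', ?_⟩
  have h3 := congrArg (algebraMap (Polynomial ℂ) (RatFunc ℂ)) hxy
  rw [map_add, map_mul, map_mul, map_one] at h3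
  rw [map_add, map_mul, map_mul, ← h, ← h2]
  linear_combination (-S) * h3

section
variable {χ : MK ℂ →+* ℂ} {n r m t κ : ℕ} {f : Fin r → MvPolynomial (Fin n) ℂ}
  {F : Fin t → MvPolynomial (Fin m) ℂ}

/-- Q1 for ideals -/
def IQ1 (χ : MK ℂ →+* ℂ) {n r : ℕ} (f : Fin r → MvPolynomial (Fin n) ℂ) : Prop :=
  ∀ R : RatFunc ℂ, IsTop χ (ztI f Set.univ) R → ∀ s : ℂ, ¬ Reg R s →
    ∀ b : Polynomial ℂ, IsFunctionalEq f b → b.eval s = 0

/-- Q2 for ideals -/
def IQ2 (χ : MK ℂ →+* ℂ) {n r : ℕ} (f : Fin r → MvPolynomial (Fin n) ℂ) : Prop :=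
  ∀ R : RatFunc ℂ, IsTop χ (ztI f Set.univ) R → ∀ b : Polynomial ℂ, IsFunctionalEq f b →
    ∃ p : Polynomial ℂ, algebraMap (Polynomial ℂ) (RatFunc ℂ) b * R =
      algebraMap (Polynomial ℂ) (RatFunc ℂ) p

theorem iq1_of (hχ : χ ((Lu ℂ : (MK ℂ)ˣ) : MK ℂ) = 1) (h : RlI f F κ) (hF : IQ1 χ F) :
    IQ1 χ f := by
  intro R hR s hs b hb
  obtain ⟨R', h5, -, h6⟩ := h.top χ hχ R hR
  have h7 := hF R' h5 _ (h6 s hs) _ (h.b b hb)
  rw [Polynomial.eval_comp, Polynomial.eval_add, Polynomial.eval_X, Polynomial.eval_C,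
    sub_add_cancel] at h7
  exact h7

theorem iq2_of (hχ : χ ((Lu ℂ : (MK ℂ)ˣ) : MK ℂ) = 1) (h : RlI f F κ) (hF : IQ2 χ F) :
    IQ2 χ f := by
  intro R hR b hb
  obtain ⟨R', h5, hT, -⟩ := h.top χ hχ R hR
  obtain ⟨p, hp⟩ := hF R' h5 _ (h.b b hb)
  unfold TI at hT
  have hsh : ∀ q : Polynomial ℂ, shR (-(κ : ℂ)) (algebraMap (Polynomial ℂ) (RatFunc ℂ) q) =
      algebraMap (Polynomial ℂ) (RatFunc ℂ) (q.comp (Polynomial.X - Polynomial.C (κ : ℂ))) := by
    intro q
    rw [shR_poly, map_neg, ← sub_eq_add_neg]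
  have hb' : (b.comp (Polynomial.X + Polynomial.C (κ : ℂ))).comp
      (Polynomial.X - Polynomial.C (κ : ℂ)) = b := by
    rw [Polynomial.comp_assoc]
    simp
  have h8 : algebraMap (Polynomial ℂ) (RatFunc ℂ) b * shR (-(κ : ℂ)) R' =
      algebraMap (Polynomial ℂ) (RatFunc ℂ) (p.comp (Polynomial.X - Polynomial.C (κ : ℂ))) := by
    have h9 := congrArg (shR (-(κ : ℂ))) hp
    rw [map_mul, hsh, hsh, hb'] at h9
    exact h9
  have h10 : RatFunc.X * (shR (-(κ : ℂ)) R' - 1) = (RatFunc.X - (κ : RatFunc ℂ)) * (R - 1) := by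
    have h9 := congrArg (shR (-(κ : ℂ))) hT
    rw [map_mul, map_mul, map_sub, map_sub, map_add, map_one, shR_X, shR_shR, map_natCast,
      map_neg, map_natCast, neg_add_cancel_right] at h9
    rw [h9, sub_eq_add_neg RatFunc.X]
  refine poly_of (a := (κ : ℂ)) (q := Polynomial.X * (p.comp (Polynomial.X -
    Polynomial.C (κ : ℂ)) - b) + (Polynomial.X - Polynomial.C (κ : ℂ)) * b) ?_ ?_
  · rw [map_add, map_mul, map_mul, map_sub, map_sub, RatFunc.algebraMap_X, ← h8,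
      show (Polynomial.C (κ : ℂ)) = ((κ : ℕ) : Polynomial ℂ) from map_natCast _ _, map_natCast]
    linear_combination (-(algebraMap (Polynomial ℂ) (RatFunc ℂ) b)) * h10
  · refine (Reg.poly _ _).mul (hR.reg fun q => ?_)
    have : ((q.1 : ℂ) + 1) * (κ : ℂ) + ((q.2 : ℂ) + 1) = (((q.1 + 1) * κ + q.2 + 1 : ℕ) : ℂ) := by
      push_cast
      ring
    rw [this]
    exact_mod_cast Nat.succ_ne_zero ((q.1 + 1) * κ + q.2)

end

end IM

end Pool.Agent.N101.CB
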