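import Pool.Agent.N101.CB.StmL
import Pool.Agent.N101.CB.IB1

/-!
# Project CUB, part LIB1: the local functional equation of the ideal `(f_j, w)` (helper11)
-/

set_option autoImplicit false

namespace Pool.Agent.N101.CB

open MvPolynomial

namespace LIB1aux

open Pool.Agent.W574.SM

theorem mulLeft_mem {σ : Type} (p : MvPolynomial σ ℂ) :
    LinearMap.mulLeft ℂ p ∈ weyl σ := by
  induction p using MvPolynomial.induction_on with
  | C a =>
    have h1 : LinearMap.mulLeft ℂ (C a : MvPolynomial σ ℂ) = algebraMap ℂ _ a := by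
      refine LinearMap.ext fun x => ?_
      rw [LinearMap.mulLeft_apply, Module.algebraMap_end_apply, C_mul']
    rw [h1]
    exact Subalgebra.algebraMap_mem _ _
  | add p q hp hq =>
    have h1 : LinearMap.mulLeft ℂ (p + q) = LinearMap.mulLeft ℂ p + LinearMap.mulLeft ℂ q := by
      refine LinearMap.ext fun x => ?_
      simp only [LinearMap.mulLeft_apply, LinearMap.add_apply, add_mul]
    rw [h1]
    exact Subalgebra.add_mem _ hp hq
  | mul_X p i hp =>
    have h1 : LinearMap.mulLeft ℂ (p * X i) = LinearMap.mulLeft ℂ p * LinearMap.mulLeft ℂ (X i) := by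
      refine LinearMap.ext fun x => ?_
      simp only [LinearMap.mulLeft_apply, Module.End.mul_apply, mul_assoc]
    rw [h1]
    exact Subalgebra.mul_mem _ hp (Algebra.subset_adjoin (Or.inl ⟨i, rfl⟩))

end LIB1aux

open IB1 LIB1aux Pool.Agent.W574.SM in
theorem lib1 : TaskLIB1 := by
  classical
  intro n r f b hfe
  obtain ⟨H, hH0, S, P, hS, hP⟩ := hfe
  refine ⟨rename Fin.castSucc H, by rwa [constantCoeff_rename], ?_⟩
  -- the polynomial `h`
  obtain ⟨h, hh⟩ : ∃ h : MvPolynomial (Fin (r + 1)) ℂ, ∀ s : Fin (r + 1) → ℕ,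
      b.eval (((∑ j : Fin r, s j.castSucc : ℕ) : ℂ) + ((s (Fin.last r) : ℂ) + 1)) =
        b.eval ((∑ j : Fin r, s j.castSucc : ℕ) : ℂ) +
          ((s (Fin.last r) : ℂ) + 1) * eval (fun j => ((s j : ℕ) : ℂ)) h := by
    obtain ⟨h, hh⟩ := Polynomial.sub_dvd_eval_sub
      ((∑ j : Fin r, (X j.castSucc : MvPolynomial (Fin (r + 1)) ℂ)) + (X (Fin.last r) + 1))
      (∑ j : Fin r, (X j.castSucc : MvPolynomial (Fin (r + 1)) ℂ)) (b.map C)
    refine ⟨h, fun s => ?_⟩
    have h1 : ∀ q : MvPolynomial (Fin (r + 1)) ℂ, eval (fun j => ((s j : ℕ) : ℂ))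
        ((b.map C).eval q) = b.eval (eval (fun j => ((s j : ℕ) : ℂ)) q) := by
      intro q
      rw [Polynomial.eval_map, Polynomial.hom_eval₂]
      have h2 : (eval (fun j => ((s j : ℕ) : ℂ))).comp (C : ℂ →+* MvPolynomial (Fin (r + 1)) ℂ) =
          RingHom.id ℂ := by
        ext x
        simp
      rw [h2]
      rfl
    have h3 := congrArg (eval (fun j => ((s j : ℕ) : ℂ))) hh
    rw [map_sub, h1, h1, map_mul, add_sub_cancel_left] at h3
    simp only [map_add, map_sum, eval_X, map_one] at h3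
    push_cast
    linear_combination h3
  -- the operators
  have hext := fun c => ext_P (P c)
  choose P₁ hP₁ using hext
  obtain ⟨P₂, hP₂⟩ := Adm.poly (σ := Fin (n + 1)) h
    ⟨LinearMap.mulLeft ℂ (rename Fin.castSucc H) *
      ((pderiv (Fin.last n) : Derivation ℂ (MvPolynomial (Fin (n + 1)) ℂ)
      (MvPolynomial (Fin (n + 1)) ℂ)) : MvPolynomial (Fin (n + 1)) ℂ →ₗ[ℂ] _),
      Subalgebra.mul_mem _ (mulLeft_mem _) (Algebra.subset_adjoin (Or.inr ⟨_, rfl⟩))⟩
  have hinj : Function.Injective (fun c : Fin r → ℤ => (Fin.snoc c 0 : Fin (r + 1) → ℤ)) := by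
    intro c c' hcc
    funext j
    have := congrFun hcc j.castSucc
    simpa using this
  set c₀ : Fin (r + 1) → ℤ := Fin.snoc (fun _ => 0) 1 with hc₀
  have hc₀' : c₀ ∉ S.image (fun c : Fin r → ℤ => (Fin.snoc c 0 : Fin (r + 1) → ℤ)) := by
    intro hmem
    obtain ⟨c, _, hc⟩ := Finset.mem_image.1 hmem
    have := congrFun hc (Fin.last r)
    simp [hc₀] at this
  refine ⟨insert c₀ (S.image (fun c : Fin r → ℤ => (Fin.snoc c 0 : Fin (r + 1) → ℤ))),
    fun c => if c = c₀ then P₂ else P₁ (fun j => c j.castSucc), ?_, ?_⟩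
  · intro c hc
    rcases Finset.mem_insert.1 hc with rfl | hc
    · rw [Fin.sum_univ_castSucc]
      simp [hc₀]
    · obtain ⟨c', hc', rfl⟩ := Finset.mem_image.1 hc
      rw [Fin.sum_univ_castSucc]
      simp only [Fin.snoc_castSucc, Fin.snoc_last, add_zero]
      exact hS c' hc'
  · intro s
    rw [Finset.sum_insert hc₀', Finset.sum_image fun c _ c' _ h => hinj h]
    simp only [if_true]
    set m : ℕ := s (Fin.last r) with hm
    set g : MvPolynomial (Fin n) ℂ := ∏ j : Fin r, f j ^ s j.castSucc with hg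
    have hw : ((Fin.last n : Fin (n + 1)) : Fin (n + 1)) = Fin.last n := rfl
    have e1 : (∏ j, exI f j ^ s j) = rename Fin.castSucc g * X (Fin.last n) ^ m := by
      rw [Fin.prod_univ_castSucc, hg, map_prod]
      simp only [exI, Fin.snoc_castSucc, Fin.snoc_last, map_pow]
      rfl
    have e2 : C ((∏ j, (if c₀ j < 0 then (s j).choose (-c₀ j).toNat else 1) : ℕ) : ℂ) *
        ∏ j, exI f j ^ ((s j : ℤ) + c₀ j).toNat =
        rename Fin.castSucc g * X (Fin.last n) ^ (m + 1) := by
      rw [Fin.prod_univ_castSucc, Fin.prod_univ_castSucc, hg, map_prod]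
      simp only [hc₀, exI, Fin.snoc_castSucc, Fin.snoc_last, map_pow, lt_irrefl, if_false,
        Finset.prod_const_one, add_zero, Int.toNat_natCast]
      have e3 : ¬ ((1 : ℤ) < 0) := by norm_num
      have e4 : ((s (Fin.last r) : ℤ) + 1).toNat = m + 1 := by omega
      rw [if_neg e3, e4]
      simp
    have e3 : ∀ c : Fin r → ℤ, C ((∏ j, (if (Fin.snoc c 0 : Fin (r + 1) → ℤ) j < 0 then
        (s j).choose (-(Fin.snoc c 0 : Fin (r + 1) → ℤ) j).toNat else 1) : ℕ) : ℂ) *
        ∏ j, exI f j ^ ((s j : ℤ) + (Fin.snoc c 0 : Fin (r + 1) → ℤ) j).toNat =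
        rename Fin.castSucc (C ((∏ j : Fin r, (if c j < 0 then (s j.castSucc).choose (-c j).toNat
          else 1) : ℕ) : ℂ) * ∏ j : Fin r, f j ^ ((s j.castSucc : ℤ) + c j).toNat) *
            X (Fin.last n) ^ m := by
      intro c
      rw [Fin.prod_univ_castSucc, Fin.prod_univ_castSucc, map_mul, map_prod, rename_C]
      simp only [exI, Fin.snoc_castSucc, Fin.snoc_last, map_pow, lt_irrefl, if_false, mul_one,
        add_zero, Int.toNat_natCast]
      rw [mul_assoc]
    rw [e1, e2, hP₂]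
    have e4 : ∀ c ∈ S, applyAt (if (Fin.snoc c 0 : Fin (r + 1) → ℤ) = c₀ then P₂ else
        P₁ (fun j => (Fin.snoc c 0 : Fin (r + 1) → ℤ) j.castSucc)) s
        (C ((∏ j, (if (Fin.snoc c 0 : Fin (r + 1) → ℤ) j < 0 then
        (s j).choose (-(Fin.snoc c 0 : Fin (r + 1) → ℤ) j).toNat else 1) : ℕ) : ℂ) *
        ∏ j, exI f j ^ ((s j : ℤ) + (Fin.snoc c 0 : Fin (r + 1) → ℤ) j).toNat) =
        rename Fin.castSucc (applyAt (P c) (fun j => s j.castSucc)
          (C ((∏ j : Fin r, (if c j < 0 then (s j.castSucc).choose (-c j).toNat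
          else 1) : ℕ) : ℂ) * ∏ j : Fin r, f j ^ ((s j.castSucc : ℤ) + c j).toNat)) *
            X (Fin.last n) ^ m := by
      intro c hc
      have h1 : (Fin.snoc c 0 : Fin (r + 1) → ℤ) ≠ c₀ := fun h =>
        hc₀' (Finset.mem_image.2 ⟨c, hc, h⟩)
      have h2 : (fun j : Fin r => (Fin.snoc c 0 : Fin (r + 1) → ℤ) j.castSucc) = c := by
        funext j
        simp
      rw [if_neg h1, h2, e3, hP₁]
    rw [Finset.sum_congr rfl e4, ← Finset.sum_mul, ← map_sum, ← hP (fun j => s j.castSucc)]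
    have e5 : pderiv (Fin.last n) (rename Fin.castSucc g * X (Fin.last n) ^ (m + 1)) =
        C ((m : ℂ) + 1) * (rename Fin.castSucc g * X (Fin.last n) ^ m) := by
      rw [pderiv_mul, pderiv_last_rename, pderiv_pow, pderiv_X_self]
      simp only [zero_mul, zero_add, Nat.add_sub_cancel, mul_one, map_add, map_natCast, map_one]
      push_cast
      ring
    change rename Fin.castSucc H * (C ((b.comp (Polynomial.X + 1)).eval ((∑ j, s j : ℕ) : ℂ)) *
      (rename Fin.castSucc g * X (Fin.last n) ^ m)) =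
      (eval (fun j => ((s j : ℕ) : ℂ)) h) • (rename Fin.castSucc H *
        (pderiv (Fin.last n) (rename Fin.castSucc g * X (Fin.last n) ^ (m + 1)))) +
      rename Fin.castSucc (H * (C (b.eval ((∑ j : Fin r, s j.castSucc : ℕ) : ℂ)) * g)) *
        X (Fin.last n) ^ m
    have e6 : (b.comp (Polynomial.X + 1)).eval ((∑ j, s j : ℕ) : ℂ) =
        b.eval ((∑ j : Fin r, s j.castSucc : ℕ) : ℂ) +
          ((m : ℂ) + 1) * eval (fun j => ((s j : ℕ) : ℂ)) h := by
      rw [Polynomial.eval_comp, ← hh s, Fin.sum_univ_castSucc]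
      congr 1
      simp only [Polynomial.eval_add, Polynomial.eval_X, Polynomial.eval_one]
      push_cast
      ring
    rw [e6, e5, map_mul, map_mul, rename_C, smul_eq_C_mul, map_add, map_mul]
    ring

end Pool.Agent.N101.CB
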