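import Pool.Agent.N101.CB.StmL
import Pool.Agent.N101.CB.IB2

/-!
# Project CUB, part LIB2 (helper713): the local functional equation, change of generators and of
variables

The local version of `N101/CB/IB2.lean`: all functional equations have a factor `H(x)` on the left.
-/

set_option autoImplicit false
set_option linter.unusedSectionVars false

namespace Pool.Agent.N101.CB.LIB2aux

open MvPolynomial Pool.Agent.N101.CB
open Pool.Agent.H628R4.TP (weylS IsBFunction)
open Pool.Agent.W578.SI (cj cj_def cj_apply rename_mem)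
open Pool.Agent.W574.SM
open Pool.Agent.W574.HS
open Pool.Agent.W366.SI
open Pool.Agent.W574.LM (IsLocEq)

/-- the functional equation of a polynomial with a factor -/
def FE {σ : Type} (H F : MvPolynomial σ ℂ) (b : Polynomial ℂ) : Prop :=
  ∃ P : ℕ →₀ weylS σ, ∀ s : ℕ, H * (C (b.eval (s : ℂ)) * F ^ s) = P.sum fun m Q =>
      ((s : ℂ) ^ m) • (Q : Module.End ℂ (MvPolynomial σ ℂ)) (F ^ (s + 1))

theorem fe_univ {σ ι : Type} [Fintype ι] [DecidableEq ι] [DecidableEq σ]
    (H : MvPolynomial σ ℂ) (f : ι → MvPolynomial σ ℂ) (b : Polynomial ℂ)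
    (hb : IsLocEq H f b) : FE (rename Sum.inr H) (univ f) ((Polynomial.X + 1) * b) := by
  classical
  obtain ⟨S, P, hS, hP⟩ := hb
  set cf : (ι → ℤ) → ℂ := fun c => ∏ j, (((-c j).toNat.factorial : ℕ) : ℂ) with hcf
  have hcf0 : ∀ c, cf c ≠ 0 := by
    intro c
    rw [hcf]
    refine Finset.prod_ne_zero_iff.2 fun j _ => ?_
    exact_mod_cast Nat.factorial_ne_zero _
  have hfall : ∀ (c : ι → ℤ) (α : ι →₀ ℕ), (fall c α : ℂ) = cf c *
      ((∏ j, (if c j < 0 then (α j).choose (-c j).toNat else 1) : ℕ) : ℂ) := by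
    intro c α
    have : fall c α = (∏ j, (-c j).toNat.factorial) *
        ∏ j, (if c j < 0 then (α j).choose (-c j).toNat else 1) := by
      rw [fall, ← Finset.prod_mul_distrib]
      refine Finset.prod_congr rfl fun j _ => ?_
      split_ifs with h
      · rw [Nat.descFactorial_eq_factorial_mul_choose]
      · have h0 : (-c j).toNat = 0 := by omega
        rw [h0]; simp
    rw [this, hcf]
    push_cast
    rfl
  have hlift : Lift (fun (H : (ι →₀ ℕ) → MvPolynomial σ ℂ) α => ∑ c ∈ S, ∑ β ∈ (P c).support,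
      evN α (monomial β 1) • (P c β : Module.End ℂ (MvPolynomial σ ℂ))
        ((cf c)⁻¹ • (fall c α : ℂ) • H (sh α c))) :=
    lift_sum S _ fun c _ => lift_sum _ _ fun β _ =>
      lift_poly _ _ (lift_weyl _ (P c β).2 _ (lift_smul (lift_sh c lift_id) _))
  obtain ⟨Q, mQ, hQ⟩ := hlift
  refine ⟨Finsupp.single 0 ⟨Q, mQ⟩, fun s => ?_⟩
  rw [Finsupp.sum_single_index (by simp), pow_zero, one_smul]
  apply hat_inj
  rw [hQ]
  funext α
  rw [hat_r, hat_C_mul, hat_univ_pow]
  have hsum : ∀ c ∈ S, fall c α ≠ 0 → ((∑ j, sh α c j = s + 1) ↔ (∑ j, α j = s)) := by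
    intro c hc h0
    have hpos : ∀ j, 0 ≤ (α j : ℤ) + c j := by
      intro j
      by_contra hj
      refine h0 (Finset.prod_eq_zero (Finset.mem_univ j) ?_)
      rw [Nat.descFactorial_eq_zero_iff_lt]
      omega
    have h1 : ((∑ j, sh α c j : ℕ) : ℤ) = (∑ j, α j : ℕ) + 1 := by
      rw [← hS c hc]
      push_cast
      rw [← Finset.sum_add_distrib]
      refine Finset.sum_congr rfl fun j _ => ?_
      rw [sh_apply, Int.toNat_of_nonneg (hpos j)]
    constructor
    · intro h
      rw [h] at h1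
      have : ((s : ℕ) : ℤ) = ((∑ j, α j : ℕ) : ℤ) := by
        rw [Nat.cast_add, Nat.cast_one] at h1
        exact add_right_cancel h1
      exact_mod_cast this.symm
    · intro h
      rw [h] at h1
      exact_mod_cast h1
  by_cases hα : ∑ j, α j = s
  · rw [if_pos hα]
    have hk := hP (fun j => α j)
    simp only [hα] at hk
    have hterm : ∀ c ∈ S, (∑ β ∈ (P c).support,
        evN α (monomial β 1) • (P c β : Module.End ℂ (MvPolynomial σ ℂ))
          ((cf c)⁻¹ • (fall c α : ℂ) • hat (univ f ^ (s + 1)) (sh α c))) =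
        ((s + 1).factorial : ℂ) • applyAt (P c) (fun j => α j)
          (C ((∏ j, (if c j < 0 then (α j).choose (-c j).toNat else 1) : ℕ) : ℂ) *
            ∏ j, f j ^ ((α j : ℤ) + c j).toNat) := by
      intro c hc
      rw [applyAt, Finsupp.sum, Finset.smul_sum]
      refine Finset.sum_congr rfl fun β _ => ?_
      have h1 : evN α (monomial β 1) = ∏ j, (α j : ℂ) ^ β j := by
        rw [evN, eval_monomial, one_mul, Finsupp.prod_fintype]
        intro i
        rw [pow_zero]
      have hin : (cf c)⁻¹ • (fall c α : ℂ) • hat (univ f ^ (s + 1)) (sh α c) =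
          ((s + 1).factorial : ℂ) •
            (C ((∏ j, (if c j < 0 then (α j).choose (-c j).toNat else 1) : ℕ) : ℂ) *
              ∏ j, f j ^ ((α j : ℤ) + c j).toNat) := by
        rw [hat_univ_pow]
        by_cases h0 : fall c α = 0
        · have h2 := hfall c α
          rw [h0, Nat.cast_zero] at h2
          have h3 := (mul_eq_zero.1 h2.symm).resolve_left (hcf0 c)
          rw [h0, h3]
          simp
        · rw [if_pos ((hsum c hc h0).2 hα), hfall, C_mul', smul_smul, smul_smul, smul_smul]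
          have h4 : (∏ j, f j ^ (sh α c) j) = ∏ j, f j ^ ((α j : ℤ) + c j).toNat := rfl
          rw [h4]
          congr 1
          rw [mul_comm ((s + 1).factorial : ℂ), mul_assoc, mul_assoc, inv_mul_cancel_left₀ (hcf0 c)]
      rw [hin, map_smul, h1, smul_comm]
    have hterm2 := Finset.sum_congr (rfl : S = S) hterm
    rw [← Finset.smul_sum, ← hk, C_mul'] at hterm2
    refine Eq.trans ?_ hterm2.symm
    rw [smul_smul, mul_smul_comm, mul_smul_comm, smul_smul]
    congr 1
    rw [Polynomial.eval_mul, Nat.factorial_succ]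
    simp only [Polynomial.eval_add, Polynomial.eval_X, Polynomial.eval_one]
    push_cast
    ring
  · rw [if_neg hα, smul_zero, mul_zero]
    refine Eq.symm ?_
    refine Finset.sum_eq_zero fun c hc => Finset.sum_eq_zero fun β _ => ?_
    by_cases h0 : fall c α = 0
    · rw [h0]; simp
    · rw [hat_univ_pow, if_neg fun h => hα ((hsum c hc h0).1 h)]
      simp


theorem fe_image {A B : Type} (φ : MvPolynomial A ℂ ≃ₐ[ℂ] MvPolynomial B ℂ)
    (hφ : ∀ Q ∈ weylS A, cj φ Q ∈ weylS B) (H F : MvPolynomial A ℂ)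
    (b : Polynomial ℂ) (h : FE H F b) : FE (φ H) (φ F) b := by
  obtain ⟨P, hP⟩ := h
  let g : weylS A → weylS B := fun Q => ⟨cj φ Q, hφ Q Q.2⟩
  have hg0 : g 0 = 0 := by
    apply Subtype.ext
    show cj φ ((0 : weylS A) : Module.End ℂ (MvPolynomial A ℂ)) = 0
    rw [ZeroMemClass.coe_zero, map_zero]
  refine ⟨P.mapRange g hg0, fun s => ?_⟩
  rw [Finsupp.sum_mapRange_index (by intro m; simp)]
  have h1 := congrArg φ (hP s)
  rw [map_mul, map_mul, map_pow, Finsupp.sum, map_sum] at h1
  have hC : φ (C (b.eval (s : ℂ))) = C (b.eval (s : ℂ)) := φ.commutes _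
  rw [hC] at h1
  rw [h1, Finsupp.sum]
  refine Finset.sum_congr rfl fun m _ => ?_
  have h3 : ((g (P m) : weylS B) : Module.End ℂ (MvPolynomial B ℂ)) =
      cj φ (P m : Module.End ℂ (MvPolynomial A ℂ)) := rfl
  rw [h3, map_smul, ← map_pow, cj_apply]

theorem fe_shear {A : Type} [Fintype A] (φ : MvPolynomial A ℂ ≃ₐ[ℂ] MvPolynomial A ℂ)
    (H F : MvPolynomial A ℂ) (b : Polynomial ℂ) (h : FE H F b) : FE (φ H) (φ F) b :=
  fe_image φ (ib_cj_mem φ) H F b h

section
variable {n r : ℕ} (f : Fin r → MvPolynomial (Fin n) ℂ) (j₀ : Fin r)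
  (u v : MvPolynomial (Fin n) ℂ)

/-- the substitution `w ↦ w - u` -/
noncomputable def sb : MvPolynomial (Fin (n + 1)) ℂ →ₐ[ℂ] MvPolynomial (Fin (n + 1)) ℂ :=
  ibSub (Fin.last n) (-(rename Fin.castSucc u))

theorem cc_sb (hu : constantCoeff u = 0) (H : MvPolynomial (Fin (n + 1)) ℂ) :
    constantCoeff (sb u H) = constantCoeff H := by
  induction H using MvPolynomial.induction_on with
  | C c =>
    rw [show sb u (C c) = C c from (sb u).commutes c]
  | add p q hp hq => rw [map_add, map_add, map_add, hp, hq]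
  | mul_X p i hp =>
    rw [map_mul, map_mul, map_mul, hp]
    congr 1
    by_cases hi : i = Fin.last n
    · subst hi
      rw [sb, ibSub_self, map_add, map_neg, constantCoeff_rename, hu, neg_zero, add_zero]
    · rw [sb, ibSub_ne _ _ hi]

theorem theta_rename (H : MvPolynomial (Fin (n + 1)) ℂ) :
    ibSub (Sum.inr (Fin.last n) : Fin (r + 1) ⊕ Fin (n + 1))
      (-(rename (fun i => Sum.inr (Fin.castSucc i)) u)) (rename Sum.inr H) =
      rename Sum.inr (sb u H) := by
  have h : (ibSub (Sum.inr (Fin.last n) : Fin (r + 1) ⊕ Fin (n + 1))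
      (-(rename (fun i => Sum.inr (Fin.castSucc i)) u))).comp (rename Sum.inr) =
      (rename Sum.inr).comp (sb u) := by
    apply MvPolynomial.algHom_ext
    intro i
    rw [AlgHom.comp_apply, AlgHom.comp_apply, rename_X]
    by_cases hi : i = Fin.last n
    · subst hi
      rw [sb, ibSub_self, ibSub_self, map_add, map_neg, rename_X, rename_rename]
      rfl
    · rw [sb, ibSub_ne _ _ hi, ibSub_ne _ _ (fun h => hi (Sum.inr_injective h)), rename_X]
  exact congrArg (fun F => F H) h

theorem fe_st (H : MvPolynomial (Fin (n + 1)) ℂ) (b : Polynomial ℂ)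
    (h : FE (rename Sum.inr H) (univ (exI f)) b) :
    FE (rename Sum.inr (sb u H)) (univ (stI f j₀ u v)) b := by
  classical
  let ex : Fin n → Fin (r + 1) ⊕ Fin (n + 1) := fun i => Sum.inr (Fin.castSucc i)
  -- the automorphism `w ↦ w - u`
  have hw : ∀ s, ex s ≠ Sum.inr (Fin.last n) := by
    intro s h
    exact Fin.castSucc_ne_last s (Sum.inr_injective h)
  have hy : ∀ s, ex s ≠ Sum.inl (Fin.last r) := by
    intro s h
    exact Sum.inr_ne_inl h
  let U : MvPolynomial (Fin (r + 1) ⊕ Fin (n + 1)) ℂ := rename ex u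
  let V : MvPolynomial (Fin (r + 1) ⊕ Fin (n + 1)) ℂ := rename ex v
  let θ := ibShear (Sum.inr (Fin.last n)) (-U)
    (by rw [map_neg, ibSub_rename _ _ ex hw]) (by rw [map_neg, ibSub_rename _ _ ex hw])
  have hV : ∀ p, ibSub (Sum.inl (Fin.last r)) p (V * X (Sum.inl (Fin.castSucc j₀))) =
      V * X (Sum.inl (Fin.castSucc j₀)) := by
    intro p
    rw [map_mul, ibSub_rename _ _ ex hy, ibSub_ne]
    intro h
    exact Fin.castSucc_ne_last j₀ (Sum.inl_injective h)
  let η := ibShear (Sum.inl (Fin.last r)) (V * X (Sum.inl (Fin.castSucc j₀))) (hV _) (hV _)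
  have key : η (θ (univ (exI f))) = univ (stI f j₀ u v) := by
    have e1 : univ (exI f) = (∑ j : Fin r, X (Sum.inl (Fin.castSucc j)) * rename ex (f j)) +
        X (Sum.inl (Fin.last r)) * X (Sum.inr (Fin.last n)) := by
      rw [univ, Fin.sum_univ_castSucc]
      simp only [exI, Fin.snoc_castSucc, Fin.snoc_last, rename_rename, rename_X]
      rfl
    have e2 : θ (univ (exI f)) =
        (∑ j : Fin r, X (Sum.inl (Fin.castSucc j)) * rename ex (f j)) +
        X (Sum.inl (Fin.last r)) * (X (Sum.inr (Fin.last n)) - U) := by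
      rw [e1]
      show ibSub _ (-U) _ = _
      rw [map_add, map_mul, map_sum, ibSub_self, ibSub_ne _ _ Sum.inl_ne_inr, ← sub_eq_add_neg]
      congr 1
      refine Finset.sum_congr rfl fun j _ => ?_
      rw [map_mul, ibSub_ne _ _ Sum.inl_ne_inr, ibSub_rename _ _ ex hw]
    have e3 : η (θ (univ (exI f))) =
        (∑ j : Fin r, X (Sum.inl (Fin.castSucc j)) * rename ex (f j)) +
        (X (Sum.inl (Fin.last r)) + V * X (Sum.inl (Fin.castSucc j₀))) *
          (X (Sum.inr (Fin.last n)) - U) := by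
      rw [e2]
      show ibSub _ _ _ = _
      rw [map_add, map_mul, map_sum, ibSub_self, map_sub, ibSub_ne _ _ Sum.inr_ne_inl,
        ibSub_rename _ _ ex hy]
      congr 1
      refine Finset.sum_congr rfl fun j _ => ?_
      rw [map_mul, ibSub_rename _ _ ex hy, ibSub_ne]
      intro h
      exact Fin.castSucc_ne_last j (Sum.inl_injective h)
    have e4 : univ (stI f j₀ u v) =
        (∑ j : Fin r, X (Sum.inl (Fin.castSucc j)) * (rename ex (f j) +
          if j = j₀ then V * (X (Sum.inr (Fin.last n)) - U) else 0)) +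
        X (Sum.inl (Fin.last r)) * (X (Sum.inr (Fin.last n)) - U) := by
      rw [univ, Fin.sum_univ_castSucc]
      simp only [stI, Fin.snoc_castSucc, Fin.snoc_last, map_add, map_sub, rename_rename, rename_X]
      congr 1
      refine Finset.sum_congr rfl fun j _ => ?_
      congr 2
      split_ifs with hj
      · rw [map_mul, map_sub, rename_rename, rename_rename, rename_X]
        rfl
      · rw [map_zero]
    rw [e3, e4]
    simp only [mul_add, Finset.sum_add_distrib, mul_ite, mul_zero, Finset.sum_ite_eq',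
      Finset.mem_univ, if_true]
    ring
  have kH1 : θ (rename Sum.inr H) = rename Sum.inr (sb u H) := theta_rename u H
  have kH2 : η (rename Sum.inr (sb u H)) = rename Sum.inr (sb u H) := by
    show ibSub _ _ _ = _
    exact ibSub_rename _ _ Sum.inr (fun s h => Sum.inr_ne_inl h) _
  have h1 := fe_shear η _ _ b (fe_shear θ _ _ b h)
  rwa [key, kH1, kH2] at h1

end

section

variable {σ ι : Type} [Fintype ι] [DecidableEq ι]

open Pool.Agent.W574.RO in
theorem locEq_iff (H : MvPolynomial σ ℂ) (f : ι → MvPolynomial σ ℂ) (b : Polynomial ℂ) :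
    IsLocEq H f b ↔ (fun s => H * mulb b (G0 f) s) ∈ V f 1 := by
  constructor
  · rintro ⟨S, P, h1, h2⟩
    exact mem_of_std f 1 _ ⟨S, P, h1, h2⟩
  · intro h
    obtain ⟨S, P, h1, h2⟩ := std_of_mem f 1 _ h
    exact ⟨S, P, h1, h2⟩

open Pool.Agent.W574.RO in
/-- renaming the generators -/
theorem locEq_reidx {ι' : Type} [Fintype ι'] [DecidableEq ι'] (k : ι ≃ ι')
    (H : MvPolynomial σ ℂ) (f : ι → MvPolynomial σ ℂ)
    (f' : ι' → MvPolynomial σ ℂ) (h : ∀ j, f' (k j) = f j) (b : Polynomial ℂ)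
    (hb : IsLocEq H f' b) : IsLocEq H f b := by
  rw [locEq_iff] at hb ⊢
  have h1 := TR_V (Equiv.refl σ) k f f' (fun j => by rw [h]; simp) 1 _ hb
  have h2 : TR (Equiv.refl σ) k (fun s => H * mulb b (G0 f') s) =
      (fun s => H * mulb b (G0 f) s) := by
    funext s
    have hs : ∑ j, s (k.symm j) = ∑ j, s j := k.symm.sum_comp s
    have hp : ∏ j, f' j ^ s (k.symm j) = ∏ j, f j ^ s j := by
      rw [← k.prod_comp]
      refine Finset.prod_congr rfl fun j _ => ?_
      rw [Equiv.symm_apply_apply, h]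
    have hr : ∀ P : MvPolynomial σ ℂ, rename (Equiv.refl σ).symm P = P := by
      intro P
      have : ((Equiv.refl σ).symm : σ → σ) = id := rfl
      rw [this, rename_id_apply]
    change rename (Equiv.refl σ).symm
      (H * (C (b.eval ((∑ j, s (k.symm j) : ℕ) : ℂ)) * ∏ j, f' j ^ s (k.symm j))) =
        H * (C (b.eval ((∑ j, s j : ℕ) : ℂ)) * ∏ j, f j ^ s j)
    rw [hr, hs, hp]
  rw [h2] at h1
  exact h1

/-- the converse part of Mustata's theorem, local version -/
theorem conv [DecidableEq σ] (g : ι → MvPolynomial σ ℂ) (hg : ∃ j, g j ≠ 0)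
    (H : MvPolynomial σ ℂ) (hH : H ≠ 0) (b : Polynomial ℂ)
    (h : FE (rename Sum.inr H) (univ g) ((Polynomial.X + 1) * b)) : IsLocEq H g b := by
  let a : Unit → ℕ := fun _ => 1
  let e : ι ≃ (Σ _ : Unit, ι) := (Equiv.uniqueSigma (fun _ : Unit => ι)).symm
  have h1 : renameEquiv ℂ (e.sumCongr (Equiv.refl σ)) (univ g) =
      Pool.Agent.R852.PP.form a 1 (fun _ : Unit => g) := by
    rw [Pool.Agent.R852.PP.form, Pool.Agent.TH192.DT.powProd, Fintype.prod_unique, map_one,
      one_mul, univ, map_sum]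
    show _ = Pool.Agent.TH192.DT.blockForm (fun _ : Unit => g) _ ^ 1
    rw [pow_one, Pool.Agent.TH192.DT.blockForm]
    refine Finset.sum_congr rfl fun j _ => ?_
    rw [map_mul, renameEquiv_apply, renameEquiv_apply, rename_X, rename_rename]
    rfl
  have h1' : renameEquiv ℂ (e.sumCongr (Equiv.refl σ)) (rename Sum.inr H) =
      rename Sum.inr H := by
    rw [renameEquiv_apply, rename_rename]
    rfl
  have h2 := fe_image (renameEquiv ℂ (e.sumCongr (Equiv.refl σ)))
      (rename_mem (e.sumCongr (Equiv.refl σ))) _ _ _ h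
  rw [h1, h1'] at h2
  have h0 : hat (rename Sum.inr H : MvPolynomial ((Σ _ : Unit, ι) ⊕ σ) ℂ) 0 = H := by
    have h3 := hat_r (ι := Σ _ : Unit, ι) H 1 0
    rwa [mul_one, hat_one, if_pos rfl, mul_one] at h3
  obtain ⟨P, hP⟩ := h2
  obtain ⟨b', hb', h4⟩ := Pool.Agent.R852.PP.locEq_strong a 1 (fun _ : Unit => g)
    one_ne_zero (fun _ => hg) () one_ne_zero _ _ (by rw [h0]; exact hH) P hP
  rw [h0] at h4
  have h5 : Pool.Agent.R852.PP.phiA a = Polynomial.X + 1 := by
    simp [Pool.Agent.R852.PP.phiA, a]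
  rw [h5] at hb'
  have h6 : b = b' := by
    have h7 : (Polynomial.X + 1 : Polynomial ℂ) ≠ 0 := by
      rw [← Polynomial.C_1]
      exact Polynomial.X_add_C_ne_zero 1
    exact mul_left_cancel₀ h7 hb'
  subst h6
  let k : ι ≃ Pool.Agent.TH192.DT.Ch (fun _ : Unit => ι) a :=
    { toFun := fun j _ => j
      invFun := fun J => J ⟨(), 0⟩
      left_inv := fun j => rfl
      right_inv := fun J => by
        funext q
        obtain ⟨t, i⟩ := q
        have hi : i = 0 := Subsingleton.elim _ _
        subst hi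
        rfl }
  refine locEq_reidx k H g _ (fun j => ?_) b h4
  rw [Pool.Agent.R852.PP.gen, one_mul, Pool.Agent.TH192.DT.prodFam]
  simp [k, a]

end

end Pool.Agent.N101.CB.LIB2aux

namespace Pool.Agent.N101.CB

open MvPolynomial

theorem lib2 : TaskLIB2 := by
  intro n r f j₀ u v b hu hv h
  obtain ⟨H, hH, h⟩ := h
  refine ⟨LIB2aux.sb u H, ?_, ?_⟩
  · rw [LIB2aux.cc_sb u hu]
    exact hH
  · refine LIB2aux.conv _ (ib_snoc_ne f j₀ u v) _ ?_ b
      (LIB2aux.fe_st f j₀ u v H _ (LIB2aux.fe_univ H (exI f) b h))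
    intro h0
    apply hH
    rw [← LIB2aux.cc_sb u hu, h0, map_zero]

end Pool.Agent.N101.CB
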