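import Pool.Agent.N101.CB.StmL
import Pool.Agent.N101.CB.Zi

/-!
# Project CUB, part LZI (helper427): the local zeta function of the ideal
-/

set_option autoImplicit false

namespace Pool.Agent.N101.CB.LZIaux

open MvPolynomial Pool.Agent.W428.MOT Pool.Agent.W375.MT Pool.Agent.N101.CB
open Pool.Agent.N101.CB.ZIaux
open Pool.Agent.W63.MTFin (mapMeas geo_mul L_mul)

variable {K : Type} [Field K] {n r : ℕ}

theorem constr_origin (m : ℕ) : Constr ({0} : Set (Pt K (Fin m))) := by
  have h : ({0} : Set (Pt K (Fin m))) = {z | ∀ i, z i = 0} := by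
    ext z
    simp only [Set.mem_singleton_iff, Set.mem_ofPred_eq]
    exact funext_iff
  rw [h]
  exact Constr.all fun i => Constr.eqz (IsPF.coord i)

theorem constr_Wx {W : Set (Pt K (Fin n))} (hW : Constr W) : Constr (Wx W) :=
  hW.preimage (fun z i => z (Fin.castSucc i)) fun _ => IsPF.coord _

theorem aeval_origin {m : ℕ} {z : Fin m → AlgebraicClosure K} (hz : z = 0)
    (p : MvPolynomial (Fin m) K) (hp : constantCoeff p = 0) : aeval z p = 0 := by
  rw [hz, MvPolynomial.aeval_zero, hp, map_zero]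

theorem constantCoeff_stI (f : Fin r → MvPolynomial (Fin n) K) (j₀ : Fin r)
    (u v : MvPolynomial (Fin n) K) (hf : ∀ j, constantCoeff (f j) = 0)
    (hu : constantCoeff u = 0) (hv : constantCoeff v = 0) (l : Fin (r + 1)) :
    constantCoeff (stI f j₀ u v l) = 0 := by
  refine Fin.lastCases ?_ (fun j => ?_) l
  · rw [stI, Fin.snoc_last, map_sub, constantCoeff_X, constantCoeff_rename, hu, sub_zero]
  · rw [stI, Fin.snoc_castSucc, map_add, constantCoeff_rename, hf, zero_add]
    split_ifs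
    · rw [map_mul, constantCoeff_rename, hv, zero_mul]
    · rw [map_zero]

theorem jet_zero_empty {m s : ℕ} (g : Fin s → MvPolynomial (Fin m) K)
    (hg : ∀ l, constantCoeff (g l) = 0) : JetI g {0} 0 = ∅ := by
  ext z
  simp only [Set.mem_empty_iff_false, iff_false]
  rintro ⟨h1, -, l, hl⟩
  apply hl
  rw [Pool.Agent.Z864.MS.coeff_zero_aeval]
  exact aeval_origin (Set.mem_singleton_iff.1 h1) _ (hg l)

theorem last_coeff (f : Fin r → MvPolynomial (Fin n) K) (j₀ : Fin r)
    (u v : MvPolynomial (Fin n) K) (hu : constantCoeff u = 0) {N : ℕ}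
    (z : Pt K (Fin (n + 1) × Fin (N + 1)))
    (hz : (fun i : Fin n => z (Fin.castSucc i, 0)) = 0) :
    PowerSeries.coeff 0 (aeval (arc z) (stI f j₀ u v (Fin.last r))) = z (Fin.last n, 0) := by
  rw [Pool.Agent.Z864.MS.coeff_zero_aeval, stI, Fin.snoc_last, map_sub, aeval_X, aeval_rename]
  have : aeval ((fun i => z (i, 0)) ∘ Fin.castSucc) u = 0 := aeval_origin hz u hu
  rw [this, sub_zero]

theorem cast_coeff (f : Fin r → MvPolynomial (Fin n) K) (j₀ : Fin r)
    (u v : MvPolynomial (Fin n) K) (hf : ∀ j, constantCoeff (f j) = 0)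
    (hv : constantCoeff v = 0) {N : ℕ}
    (z : Pt K (Fin (n + 1) × Fin (N + 1)))
    (hz : (fun i : Fin n => z (Fin.castSucc i, 0)) = 0) (j : Fin r) :
    PowerSeries.coeff 0 (aeval (arc z) (stI f j₀ u v (Fin.castSucc j))) = 0 := by
  have h1 : aeval ((fun i => z (i, 0)) ∘ Fin.castSucc) (f j) = 0 := aeval_origin hz _ (hf j)
  have h2 : aeval ((fun i => z (i, 0)) ∘ Fin.castSucc) v = 0 := aeval_origin hz _ hv
  rw [Pool.Agent.Z864.MS.coeff_zero_aeval, stI, Fin.snoc_castSucc, map_add, aeval_rename, h1,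
    zero_add]
  split_ifs
  · rw [map_mul, aeval_rename, h2, zero_mul]
  · rw [map_zero]

theorem origin_iff {N : ℕ} (z : Pt K (Fin (n + 1) × Fin (N + 1))) :
    (fun i => z (i, 0)) = 0 ↔
      (fun i : Fin n => z (Fin.castSucc i, 0)) = 0 ∧ z (Fin.last n, 0) = 0 := by
  constructor
  · intro h
    exact ⟨funext fun i => congrFun h (Fin.castSucc i), congrFun h (Fin.last n)⟩
  · rintro ⟨h1, h2⟩
    funext i
    refine Fin.lastCases ?_ (fun i => ?_) i
    · exact h2
    · exact congrFun h1 i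

theorem jet_succ (f : Fin r → MvPolynomial (Fin n) K) (j₀ : Fin r)
    (u v : MvPolynomial (Fin n) K) (hu : constantCoeff u = 0) (N : ℕ) :
    JetI (stI f j₀ u v) (Wx {0}) (N + 1) = JetI (stI f j₀ u v) {0} (N + 1) := by
  ext z
  constructor
  · rintro ⟨h1, h2, h3⟩
    have h1' : (fun i : Fin n => z (Fin.castSucc i, 0)) = 0 := h1
    have h4 := h2 (Fin.last r) 0 (Nat.succ_pos N)
    rw [last_coeff f j₀ u v hu z h1'] at h4
    exact ⟨(origin_iff z).2 ⟨h1', h4⟩, h2, h3⟩
  · rintro ⟨h1, h2, h3⟩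
    exact ⟨((origin_iff z).1 h1).1, h2, h3⟩

/-- the point `(0, w)` -/
noncomputable def bk (n N : ℕ) (a : Pt K (Fin 1)) : Pt K (Fin (n + 1) × Fin (N + 1)) :=
  fun p => Fin.lastCases (motive := fun _ => AlgebraicClosure K) (a 0) (fun _ => 0) p.1

theorem bk_last (n N : ℕ) (a : Pt K (Fin 1)) (k : Fin (N + 1)) :
    bk n N a (Fin.last n, k) = a 0 := by
  simp [bk]

theorem bk_cast (n N : ℕ) (a : Pt K (Fin 1)) (i : Fin n) (k : Fin (N + 1)) :
    bk n N a (Fin.castSucc i, k) = 0 := by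
  simp [bk]

section
variable {R : Type} [CommRing R]

theorem chi_empty (M : Meas K R) {ι : Type} [Fintype ι] : M.χ ι ∅ = 0 := by
  have h := M.add (ι := ι) ∅ ∅ Constr.empty Constr.empty (Set.disjoint_empty _)
  rw [Set.empty_union] at h
  linear_combination -h

theorem chi_jet_zero (M : Meas K R) (f : Fin r → MvPolynomial (Fin n) K) (j₀ : Fin r)
    (u v : MvPolynomial (Fin n) K) (hf : ∀ j, constantCoeff (f j) = 0)
    (hu : constantCoeff u = 0) (hv : constantCoeff v = 0) :
    M.χ _ (JetI (stI f j₀ u v) (Wx {0}) 0) = M.L - 1 := by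
  rw [← Pool.Agent.W417.MT.Free.chi_gm M]
  refine M.iso _ _ (constr_JetI _ (constr_Wx (constr_origin n)) 0)
    (Constr.ne (IsPF.coord 0) IsPF.zero)
    (fun z _ => z (Fin.last n, 0)) (bk n 0)
    (regularOn_poly (fun p => IsPF.coord _) _) (regularOn_poly (fun p => ?_) _) ?_ ?_ ?_ ?_
  · obtain ⟨a, k⟩ := p
    refine Fin.lastCases ?_ (fun i => ?_) a
    · simp only [bk_last]
      exact IsPF.coord _
    · simp only [bk_cast]
      exact IsPF.zero
  · rintro z ⟨h1, -, l, hl⟩
    have h1' : (fun i : Fin n => z (Fin.castSucc i, 0)) = 0 := h1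
    change z (Fin.last n, 0) ≠ 0
    revert hl
    refine Fin.lastCases ?_ (fun j => ?_) l
    · intro hl
      rwa [last_coeff f j₀ u v hu z h1'] at hl
    · intro hl
      exact absurd (cast_coeff f j₀ u v hf hv z h1' j) hl
  · rintro a ha
    have h1' : (fun i : Fin n => bk n 0 a (Fin.castSucc i, 0)) = 0 :=
      funext fun i => bk_cast n 0 a i 0
    refine ⟨h1', fun l j hj => absurd hj (Nat.not_lt_zero j), Fin.last r, ?_⟩
    rw [last_coeff f j₀ u v hu _ h1', bk_last]
    exact ha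
  · rintro z ⟨h1, -, -⟩
    have h1' : (fun i : Fin n => z (Fin.castSucc i, 0)) = 0 := h1
    funext p
    obtain ⟨a, k⟩ := p
    have hk : k = 0 := Fin.ext (by have := k.2; simp only [Fin.val_zero]; omega)
    rw [hk]
    refine Fin.lastCases ?_ (fun i => ?_) a
    · exact bk_last n 0 _ 0
    · rw [bk_cast]
      exact (congrFun h1' i).symm
  · rintro a -
    funext i
    rw [Subsingleton.elim i 0]
    exact bk_last n 0 a 0

theorem zs_loc (M : Meas K R) (Y : R) (f : Fin r → MvPolynomial (Fin n) K) (j₀ : Fin r)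
    (u v : MvPolynomial (Fin n) K) (hf : ∀ j, constantCoeff (f j) = 0)
    (hu : constantCoeff u = 0) (hv : constantCoeff v = 0) :
    zsI M Y (stI f j₀ u v) (Wx {0}) =
      (PowerSeries.C M.L - 1) + zsI M Y (stI f j₀ u v) {0} := by
  ext N
  rcases N with _ | N
  · rw [map_add, map_sub, PowerSeries.coeff_zero_C, zsI, zsI, PowerSeries.coeff_mk,
      PowerSeries.coeff_mk, chi_jet_zero M f j₀ u v hf hu hv,
      jet_zero_empty _ (constantCoeff_stI f j₀ u v hf hu hv), chi_empty]
    simp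
  · rw [map_add, map_sub, PowerSeries.coeff_C, if_neg (Nat.succ_ne_zero N), zsI, zsI,
      PowerSeries.coeff_mk, PowerSeries.coeff_mk, jet_succ f j₀ u v hu, PowerSeries.coeff_one,
      if_neg (Nat.succ_ne_zero N)]
    ring

theorem chi_origin (M : Meas K R) (m : ℕ) : M.χ _ ({0} : Set (Pt K (Fin m))) = 1 := by
  rw [← M.point (ι := Fin 0)]
  refine M.iso _ _ (constr_origin m) Constr.univ (fun _ j => j.elim0) (fun _ _ => 0)
    (regularOn_poly (fun j => j.elim0) _) (regularOn_poly (fun j => IsPF.zero) _)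
    (fun _ _ => Set.mem_univ _) (fun _ _ => rfl) ?_ ?_
  · intro z hz
    exact (Set.mem_singleton_iff.1 hz).symm
  · intro w _
    funext j
    exact j.elim0

end

end Pool.Agent.N101.CB.LZIaux

namespace Pool.Agent.N101.CB

open MvPolynomial Pool.Agent.W428.MOT ZIaux LZIaux
open Pool.Agent.W63.MTFin (mapMeas geo_mul L_mul)

/-- **(LZI)** the local zeta function of the ideal -/
theorem lzi : TaskLZI := by
  intro K _ _ n r f j₀ u v hf hu hv
  have h0 := zi K f j₀ u v {0} (constr_origin n)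
  obtain ⟨M₀, hM₀⟩ := Pool.Agent.W417.MT.K0.main K
  set M := mapMeas M₀ (algebraMap (K0 K) (MK K)) with hM
  set Y : MK K := (((Lu K)⁻¹ : (MK K)ˣ) : MK K) with hY
  have hL : M.L * Y = 1 := L_mul hM₀
  have hML : M.L = ((Lu K : (MK K)ˣ) : MK K) := by
    have h2 : ((Lu K : (MK K)ˣ) : MK K) * Y = 1 := Units.mul_inv _
    calc M.L = M.L * (((Lu K : (MK K)ˣ) : MK K) * Y) := by rw [h2, mul_one]
      _ = (M.L * Y) * ((Lu K : (MK K)ˣ) : MK K) := by ring
      _ = _ := by rw [hL, one_mul]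
  have hz : ∀ {a b : ℕ} (g : Fin b → MvPolynomial (Fin a) K) (V : Set (Pt K (Fin a))),
      ztI g V = zsI M Y g V := by
    intro a b g V
    ext N
    rw [ztI, zsI, PowerSeries.coeff_mk, PowerSeries.coeff_mk, zpow_neg, zpow_natCast, ← inv_pow,
      Units.val_pow_eq_pow_val, clM, ← hM₀]
    rfl
  have hc : clM ({0} : Set (Pt K (Fin n))) = 1 := by
    have : clM ({0} : Set (Pt K (Fin n))) = M.χ _ ({0} : Set (Pt K (Fin n))) := by
      rw [clM, ← hM₀]
      rfl
    rw [this, chi_origin M n]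
  have h1 := zs_loc M Y f j₀ u v hf hu hv
  rw [← hz, ← hz, hML] at h1
  rw [h1, hc, map_one, one_mul] at h0
  have h2 : cL K = PowerSeries.C ((Lu K : (MK K)ˣ) : MK K) := rfl
  rw [h2] at h0
  linear_combination h0

end Pool.Agent.N101.CB
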