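import Pool.Agent.N101.CB.IMain
import Pool.Agent.N101.CB.Form
import Pool.Agent.N101.CB.LIB1
import Pool.Agent.N101.CB.LIB2
import Pool.Agent.N101.CB.Lzi

/-!
# Project CUB: ideals, local theorems
-/

set_option autoImplicit false

namespace Pool.Agent.N101.CB

open MvPolynomial Pool.Agent.W428.MOT
open Pool.Agent.W63.MTFin (geo_mul geo_mem X_mem C_mem)

namespace IM

theorem stI_const {K : Type} [Field K] {n r : ℕ} (f : Fin r → MvPolynomial (Fin n) K)
    (j₀ : Fin r) (u v : MvPolynomial (Fin n) K) (h : ∀ j, constantCoeff (f j) = 0)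
    (hu : constantCoeff u = 0) (hv : constantCoeff v = 0) :
    ∀ j, constantCoeff (stI f j₀ u v j) = 0 := by
  intro j
  refine Fin.lastCases ?_ (fun j => ?_) j
  · unfold stI
    rw [Fin.snoc_last, map_sub, constantCoeff_X, constantCoeff_rename, hu, sub_zero]
  · unfold stI
    rw [Fin.snoc_castSucc, map_add, constantCoeff_rename, h, zero_add]
    split_ifs
    · rw [map_mul, constantCoeff_rename, hv, zero_mul]
    · rw [map_zero]

/-- **The formula of a step.** -/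
theorem LI_step {n r : ℕ} (f : Fin r → MvPolynomial (Fin n) ℂ) (j₀ : Fin r)
    (u v : MvPolynomial (Fin n) ℂ) (h : ∀ j, constantCoeff (f j) = 0)
    (hu : constantCoeff u = 0) (hv : constantCoeff v = 0) :
    (1 - cYk 1 * PowerSeries.X) * (ztI (stI f j₀ u v) {0} - 1) =
      (1 - PowerSeries.X) * (rsk 1 (ztI f {0}) - 1) := by
  have hF := Fz_mul (K := ℂ)
  have hL := cL_cY (K := ℂ)
  rw [lzi ℂ f j₀ u v h hu hv, ← rsk_one]
  rw [← cYk_one] at hF hL
  set y := cYk 1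
  set l := cL ℂ
  set G := Fz ℂ 1 1
  set Z := rsk 1 (ztI f {0})
  set X : PowerSeries (MK ℂ) := PowerSeries.X
  linear_combination (1 - Z) * hF + X * (1 - Z) * hL

/-- composition of the formulas -/
theorem LI_comp {A B C' : PowerSeries (MK ℂ)} (κ : ℕ)
    (h1 : (1 - cYk 1 * PowerSeries.X) * (B - 1) = (1 - PowerSeries.X) * (rsk 1 A - 1))
    (h2 : (1 - cYk κ * PowerSeries.X) * (C' - 1) = (1 - PowerSeries.X) * (rsk κ B - 1)) :
    (1 - cYk (κ + 1) * PowerSeries.X) * (C' - 1) =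
      (1 - PowerSeries.X) * (rsk (κ + 1) A - 1) := by
  have h3 := congrArg (rsk κ) h1
  have e1 : rsk κ (cYk 1) = cYk 1 := rsk_C _ _
  rw [map_mul, map_mul, map_sub, map_sub, map_sub, map_sub, map_mul, map_one, rsk_X, e1,
    rsk_rsk] at h3
  apply unit_cancel (a := (((Lu ℂ) ^ (-(κ : ℤ)) : (MK ℂ)ˣ) : MK ℂ))
  change (1 - cYk κ * PowerSeries.X) * _ = (1 - cYk κ * PowerSeries.X) * _
  rw [cYk_add]
  linear_combination (1 - cYk κ * cYk 1 * PowerSeries.X) * h2 + (1 - PowerSeries.X) * h3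

/-- **Descent.** -/
theorem LI_descend {n r : ℕ} (f : Fin r → MvPolynomial (Fin n) ℂ) (j₀ : Fin r)
    (u v : MvPolynomial (Fin n) ℂ) (h : ∀ j, constantCoeff (f j) = 0)
    (hu : constantCoeff u = 0) (hv : constantCoeff v = 0) {s₀ : ℚ} (h1 : s₀ ≠ 1)
    (hZ : ztI (stI f j₀ u v) {0} ∈ rg ℂ (s₀ - 1)) : ztI f {0} ∈ rg ℂ s₀ := by
  have hs := LI_step f j₀ u v h hu hv
  have e4 := congrArg (PowerSeries.rescale ((Lu ℂ : (MK ℂ)ˣ) : MK ℂ)) hs
  rw [rsk_one, map_mul, map_mul, map_sub, map_sub, map_sub, map_sub, map_mul, map_one,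
    Pool.Agent.Y229.MS.rescale_X', rescale_inv, cYk_one, cY,
    Pool.Agent.Y229.MS.rescale_C'] at e4
  have g1 : (1 - cL ℂ * PowerSeries.X) * geo ℂ 1 1 = 1 := by
    have := geo_mul (K := ℂ) 1 1 one_pos
    rwa [show (1 : ℤ).toNat = 1 from rfl, zpow_one, pow_one] at this
  have hL := cL_cY (K := ℂ)
  have e5 : ztI f {0} = 1 + geo ℂ 1 1 * ((1 - PowerSeries.X) *
      (PowerSeries.rescale ((Lu ℂ : (MK ℂ)ˣ) : MK ℂ) (ztI (stI f j₀ u v) {0}) - 1)) := by
    change (1 - cY ℂ * (cL ℂ * PowerSeries.X)) *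
      (PowerSeries.rescale ((Lu ℂ : (MK ℂ)ˣ) : MK ℂ) (ztI (stI f j₀ u v) {0}) - 1) =
      (1 - cL ℂ * PowerSeries.X) * (ztI f {0} - 1) at e4
    set R := PowerSeries.rescale ((Lu ℂ : (MK ℂ)ˣ) : MK ℂ) (ztI (stI f j₀ u v) {0})
    set Z := ztI f {0}
    set G := geo ℂ 1 1
    set X : PowerSeries (MK ℂ) := PowerSeries.X
    linear_combination (-(Z - 1)) * g1 - G * e4 - G * X * (R - 1) * hL
  rw [e5]
  refine (rg ℂ s₀).add_mem (rg ℂ s₀).one_mem ((rg ℂ s₀).mul_mem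
    (geo_mem (p := ((1 : ℤ), (1 : ℤ))) ⟨one_pos, ?_⟩)
    ((rg ℂ s₀).mul_mem ((rg ℂ s₀).sub_mem (rg ℂ s₀).one_mem (X_mem _))
      ((rg ℂ s₀).sub_mem (rescale_rg hZ) (rg ℂ s₀).one_mem)))
  intro h2
  apply h1
  rw [← h2]
  norm_num

theorem comp_succ' (b : Polynomial ℂ) (κ : ℕ) :
    (b.comp (Polynomial.X + 1)).comp (Polynomial.X + Polynomial.C (κ : ℂ)) =
      b.comp (Polynomial.X + Polynomial.C ((κ + 1 : ℕ) : ℂ)) := by
  rw [Polynomial.comp_assoc, Polynomial.add_comp, Polynomial.X_comp, Polynomial.one_comp]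
  push_cast
  rw [map_add, map_one, add_assoc]

/-- All the local relations between the ideal of the `f_j` and the ideal of the quadrics `F_j`. -/
structure RlL {n r m t : ℕ} (f : Fin r → MvPolynomial (Fin n) ℂ)
    (F : Fin t → MvPolynomial (Fin m) ℂ) (κ : ℕ) : Prop where
  ne : (∃ j, f j ≠ 0) → ∃ j, F j ≠ 0
  const : (∀ j, constantCoeff (f j) = 0) → ∀ j, constantCoeff (F j) = 0
  b : ∀ b : Polynomial ℂ, LocFE f b → LocFE F (b.comp (Polynomial.X + Polynomial.C (κ : ℂ)))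
  form : (∀ j, constantCoeff (f j) = 0) → (1 - cYk κ * PowerSeries.X) * (ztI F {0} - 1) =
      (1 - PowerSeries.X) * (rsk κ (ztI f {0}) - 1)
  pole : (∀ j, constantCoeff (f j) = 0) → ∀ s₀ : ℚ, s₀ < 0 → IsPole (ztI f {0}) s₀ →
    IsPole (ztI F {0}) (s₀ - κ)

theorem RlL.refl {n r : ℕ} (f : Fin r → MvPolynomial (Fin n) ℂ) : RlL f f 0 where
  ne h := h
  const h := h
  b b hb := by
    rw [Nat.cast_zero, map_zero, add_zero, Polynomial.comp_X]
    exact hb
  form _ := by rw [cYk_zero, rsk_zero, one_mul]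
  pole _ s₀ _ h := by simpa using h

theorem RlL.step {n r m t : ℕ} (f : Fin r → MvPolynomial (Fin n) ℂ) (j₀ : Fin r)
    (u v : MvPolynomial (Fin n) ℂ) (F : Fin t → MvPolynomial (Fin m) ℂ) (κ : ℕ)
    (hu : constantCoeff u = 0) (hv : constantCoeff v = 0)
    (h : RlL (stI f j₀ u v) F κ) : RlL f F (κ + 1) where
  ne _ := h.ne (stI_ne f j₀ u v)
  const h0 := h.const (stI_const f j₀ u v h0 hu hv)
  b b hb := by
    have h1 := h.b _ (lib2 f j₀ u v _ hu hv (lib1 f b hb))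
    rw [comp_succ'] at h1
    exact h1
  form h0 := LI_comp κ (LI_step f j₀ u v h0 hu hv) (h.form (stI_const f j₀ u v h0 hu hv))
  pole h0 s₀ hs hp := by
    have h3 : IsPole (ztI (stI f j₀ u v) {0}) (s₀ - 1) := by
      intro hg
      apply hp
      exact LI_descend f j₀ u v h0 hu hv (by intro h; rw [h] at hs; norm_num at hs) hg
    have h4 := h.pole (stI_const f j₀ u v h0 hu hv) (s₀ - 1) (by linarith) h3
    push_cast
    rwa [sub_sub, add_comm] at h4

/-- **The quadrics of an ideal, local relations.** -/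
theorem exists_quadrics_loc {n r : ℕ} (f : Fin r → MvPolynomial (Fin n) ℂ) :
    ∃ (κ m t : ℕ) (F : Fin t → MvPolynomial (Fin m) ℂ), m = n + κ ∧ t = r + κ ∧ Quad F ∧
      RlL f F κ :=
  chainI (fun f F κ => RlL f F κ) (fun f => RlL.refl f)
    (fun f j₀ u v F κ hu hv h => RlL.step f j₀ u v F κ hu hv h) f

end IM

end Pool.Agent.N101.CB
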