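import Pool.Agent.N101.CB.StmI
import Pool.Agent.Y229.MS.Step
import Pool.Agent.Y366.MS.OneA
import Pool.Agent.Y971.MS.One
import Pool.Agent.Y812.MS.Two

/-!
# (ID) The motivic zeta function of `f + y z` in terms of that of `f`
-/

set_option autoImplicit false

namespace Pool.Agent.N101.CB

open MvPolynomial Pool.Agent.W428.MOT
open Pool.Agent.W375.MG (JetG Good good_units)
open Pool.Agent.Y229.MS (addyz Wyz CE Tl zs phiS psum psum_mul rel2 phi_succ ce_good ce_zero
  TaskONE TaskTWO rescale_X' rescale_C')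
open Pool.Agent.W63.MTFin (mapMeas geo_mul L_mul)

section
variable {K : Type} [Field K] {n : ℕ} {R : Type} [CommRing R]

/-- the jets with `ord f ≥ N` -/
theorem idd_tl (M : Meas K R) (f : MvPolynomial (Fin n) K) {W : Set (Pt K (Fin n))}
    (hW : Constr W) (N : ℕ) :
    M.χ _ (Tl f W N N) = M.χ _ (JetG f W (Un K) N) + M.χ _ (JetG f W {0} N) := by
  have h1 : Disjoint (JetG f W (Un K) N) (JetG f W {0} N) := by
    rw [Set.disjoint_left]
    rintro z ⟨-, -, h2⟩ ⟨-, -, h3⟩
    exact h2 h3
  have h2 : Tl f W N N = JetG f W (Un K) N ∪ JetG f W {0} N := by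
    ext z
    constructor
    · rintro ⟨h3, h4⟩
      by_cases h5 : PowerSeries.coeff N (aeval (arc z) f) = 0
      · exact Or.inr ⟨h3, h4, h5⟩
      · exact Or.inl ⟨h3, h4, h5⟩
    · rintro (⟨h3, h4, -⟩ | ⟨h3, h4, -⟩)
      · exact ⟨h3, h4⟩
      · exact ⟨h3, h4⟩
  rw [h2]
  exact M.add _ _ (Pool.Agent.Y971.MS.constr_jet f hW (ce_good good_units) N)
    (Pool.Agent.Y971.MS.constr_jet f hW ce_zero N) h1

/-- the jets of level zero -/
theorem idd_zero (M : Meas K R) (f : MvPolynomial (Fin n) K) {W : Set (Pt K (Fin n))}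
    (hW : Constr W) : M.χ _ (Tl f W 0 0) = M.χ (Fin n) W := by
  refine M.iso _ _ (Pool.Agent.Y812.MS.constr_Tl f hW 0 0) hW (fun z i => z (i, 0))
    (fun w p => w p.1) (regularOn_poly (fun i => IsPF.coord _) _)
    (regularOn_poly (fun p => IsPF.coord _) _) ?_ ?_ ?_ ?_
  · rintro z ⟨h, -⟩
    exact h
  · intro w hw
    exact ⟨hw, fun j hj => absurd hj (Nat.not_lt_zero j)⟩
  · intro z _
    funext p
    obtain ⟨i, j, hj⟩ := p
    have hj0 : j = 0 := by omega
    subst hj0
    rfl
  · intro w _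
    rfl

/-- the zeta function and the tails -/
theorem idd_X (h2 : TaskTWO) (M : Meas K R) (Y : R) (hL : M.L * Y = 1)
    (f : MvPolynomial (Fin n) K) {W : Set (Pt K (Fin n))} (hW : Constr W) :
    PowerSeries.X * zs M Y f W (Un K) =
      PowerSeries.C (M.χ (Fin n) W) - (1 - PowerSeries.X) * phiS M Y f W := by
  rw [sub_mul, one_mul]
  ext N
  rcases N with _ | N
  · rw [PowerSeries.coeff_zero_X_mul, map_sub, map_sub, PowerSeries.coeff_zero_X_mul,
      PowerSeries.coeff_zero_C, phiS, PowerSeries.coeff_mk, mul_zero, pow_zero, mul_one,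
      idd_zero M f hW]
    ring
  · rw [PowerSeries.coeff_succ_X_mul, map_sub, map_sub, PowerSeries.coeff_succ_X_mul,
      PowerSeries.coeff_C, if_neg (Nat.succ_ne_zero N), phiS, zs, PowerSeries.coeff_mk,
      PowerSeries.coeff_mk, PowerSeries.coeff_mk, phi_succ h2 M Y hL f W hW N, idd_tl M f hW N]
    ring

theorem idd_cancel {A B : PowerSeries R} (h : PowerSeries.X * A = PowerSeries.X * B) :
    A = B := by
  ext N
  have h1 := congrArg (PowerSeries.coeff (N + 1)) h
  rwa [PowerSeries.coeff_succ_X_mul, PowerSeries.coeff_succ_X_mul] at h1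

theorem idd_alg (L Y w : R) (hLY : L * Y = 1) (φ φ' Z Z' ps g : PowerSeries R)
    (hZ : PowerSeries.X * Z = PowerSeries.C w - (1 - PowerSeries.X) * φ)
    (hZ' : PowerSeries.X * Z' = PowerSeries.C (L * L * w) - (1 - PowerSeries.X) * φ')
    (hr : PowerSeries.rescale L φ' = PowerSeries.C L * PowerSeries.C L * φ +
      PowerSeries.C (L * (L - 1)) * (PowerSeries.X * ps))
    (hps : ps * (1 - PowerSeries.X) = φ)
    (hg : (1 - PowerSeries.C Y * PowerSeries.X) * g = 1) :
    Z' = PowerSeries.C w * (PowerSeries.C L - 1 +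
        (PowerSeries.C L - 1) * (PowerSeries.C Y * PowerSeries.X) * g) ^ 2 +
      (1 - (PowerSeries.C L - 1) * (PowerSeries.C Y * PowerSeries.X) * g) *
        (PowerSeries.C L + (PowerSeries.C L - 1) * (PowerSeries.C Y * PowerSeries.X) * g) *
        PowerSeries.rescale Y Z := by
  have hC : PowerSeries.C L * PowerSeries.C Y = (1 : PowerSeries R) := by
    rw [← map_mul, hLY, map_one]
  -- the tails
  have h1 : PowerSeries.rescale L φ' * (1 - PowerSeries.X) =
      PowerSeries.C L * (PowerSeries.C L - PowerSeries.X) * φ := by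
    rw [hr, map_mul PowerSeries.C L (L - 1), map_sub PowerSeries.C L 1, map_one]
    linear_combination (PowerSeries.C L * (PowerSeries.C L - 1) * PowerSeries.X) * hps
  have h2 := congrArg (PowerSeries.rescale Y) h1
  rw [map_mul, map_mul, map_mul, map_sub, map_sub, map_one, rescale_C', rescale_X',
    PowerSeries.rescale_rescale, hLY, PowerSeries.rescale_one, RingHom.id_apply] at h2
  have h3 := congrArg (PowerSeries.rescale Y) hZ
  rw [map_mul, map_sub, map_mul, map_sub, map_one, rescale_C', rescale_X'] at h3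
  rw [map_mul PowerSeries.C, map_mul PowerSeries.C] at hZ'
  generalize PowerSeries.rescale Y φ = P at h2 h3
  generalize PowerSeries.rescale Y Z = ZY at h3 ⊢
  generalize PowerSeries.C L = a at *
  generalize PowerSeries.C Y = y at *
  generalize PowerSeries.C w = w' at *
  have k1 : y * PowerSeries.X * g = g - 1 := by linear_combination -hg
  have k2 : PowerSeries.X * g = a * (g - 1) := by
    linear_combination (-(PowerSeries.X * g)) * hC + a * k1
  have hF : (a - 1) * (y * PowerSeries.X) * g = (a - 1) * (g - 1) := by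
    linear_combination (a - 1) * k1
  have c1 : g * (a - y * PowerSeries.X) = a * g - g + 1 := by linear_combination -k1
  have c2 : (1 - PowerSeries.X) * g = g + a - a * g := by linear_combination -k2
  have hP : P = g * (w' - y * PowerSeries.X * ZY) := by
    linear_combination (-P) * hg + g * h3
  have hφ : φ' = g * (a * (a - y * PowerSeries.X) * P) := by
    linear_combination (-φ') * hg + g * h2
  have h4 : (1 - PowerSeries.X) * φ' = (g + a - a * g) * a * (a * g - g + 1) *
      (w' - y * PowerSeries.X * ZY) := by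
    rw [hφ, hP, ← c1, ← c2]
    ring
  apply idd_cancel
  rw [hZ', h4, hF]
  linear_combination (-(w' * g * (a - 1) ^ 2)) * k2 +
    (PowerSeries.X * (a + g - a * g) * (a * g - g + 1) * ZY) * hC

end

theorem idd : TaskID := by
  intro K _ _ n f W hW
  have t1 : TaskONE := Pool.Agent.Y971.MS.one Pool.Agent.Y366.MS.onea
  have t2 : TaskTWO := Pool.Agent.Y812.MS.two
  obtain ⟨M₀, hM₀⟩ := Pool.Agent.W417.MT.K0.main K
  set M := mapMeas M₀ (algebraMap (K0 K) (MK K)) with hM
  set Y : MK K := (((Lu K)⁻¹ : (MK K)ˣ) : MK K) with hY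
  have hL : M.L * Y = 1 := L_mul hM₀
  have hML : M.L = ((Lu K : (MK K)ˣ) : MK K) := by
    have h2 : ((Lu K : (MK K)ˣ) : MK K) * Y = 1 := Units.mul_inv _
    calc M.L = M.L * (((Lu K : (MK K)ˣ) : MK K) * Y) := by rw [h2, mul_one]
      _ = (M.L * Y) * ((Lu K : (MK K)ˣ) : MK K) := by ring
      _ = _ := by rw [hL, one_mul]
  have hcl : ∀ {ι : Type} [Fintype ι] (V : Set (Pt K ι)), clM V = M.χ ι V := by
    intro ι _ V
    change algebraMap (K0 K) (MK K) (cls ι V) = algebraMap (K0 K) (MK K) (M₀.χ ι V)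
    rw [hM₀]
  have hz : ∀ {a : ℕ} (g : MvPolynomial (Fin a) K) (V : Set (Pt K (Fin a))),
      zt g V = zs M Y g V (Un K) := by
    intro a g V
    ext N
    rw [zt, zs, PowerSeries.coeff_mk, PowerSeries.coeff_mk, zpow_neg, zpow_natCast, ← inv_pow,
      Units.val_pow_eq_pow_val, hcl]
  have hWyz := Pool.Agent.Y971.MS.constr_Wyz hW
  have hZ := idd_X t2 M Y hL f hW
  have hZ' := idd_X t2 M Y hL (addyz f) hWyz
  have hr := rel2 t1 t2 M Y hL f hW
  have hps := psum_mul (phiS M Y f W)
  have hw : M.χ (Fin (n + 2)) (Wyz W) = M.L * M.L * M.χ (Fin n) W := by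
    have h1 := congrArg (PowerSeries.coeff 0) hr
    rw [PowerSeries.coeff_rescale, map_add, mul_assoc, PowerSeries.coeff_C_mul,
      PowerSeries.coeff_C_mul, PowerSeries.coeff_C_mul, PowerSeries.coeff_zero_X_mul, mul_zero,
      add_zero, pow_zero, one_mul, phiS, phiS, PowerSeries.coeff_mk, PowerSeries.coeff_mk,
      mul_zero, mul_zero, pow_zero, mul_one, mul_one, idd_zero M f hW,
      idd_zero M (addyz f) hWyz] at h1
    rw [h1, mul_assoc]
  rw [hw] at hZ'
  have hg := geo_mul (K := K) (-1) 1 one_pos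
  rw [show (1 : ℤ).toNat = 1 from rfl, zpow_neg_one, pow_one, ← hY] at hg
  have key := idd_alg M.L Y (M.χ (Fin n) W) hL _ _ _ _ _ _ hZ hZ' hr hps hg
  rw [hz, hz, hcl, key]
  have hFz : Fz K 1 1 = (PowerSeries.C M.L - 1) * (PowerSeries.C Y * PowerSeries.X) *
      geo K (-1) 1 := by
    unfold Fz
    rw [hML, map_sub, map_one, Nat.cast_one, zpow_neg_one, pow_one]
  rw [hFz, cL, ← hML]

end Pool.Agent.N101.CB
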