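import Pool.Agent.N101.CB.Stm
import Pool.Agent.Y366.MS.OneA
import Pool.Agent.Y812.MS.Two
import Pool.Agent.Z864.MS.Three

/-!
# Project CUB, part LOC (helper344): classes of jets of `f + y z` with `y(0) = z(0) = 0`
-/

set_option autoImplicit false
set_option linter.unusedVariables false

namespace Pool.Agent.N101.CB

open MvPolynomial Pool.Agent.W428.MOT
open Pool.Agent.W375.MG (JetG Good)
open Pool.Agent.Y229.MS (addyz Wyz CE Tl Yi)
open Pool.Agent.Y366.MS (aeval_addyz natAdd01 castAdd_ne arc_congr)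
open Pool.Agent.Z864.MS (coeff_zero_aeval constr_JetE)

section

variable {K : Type} [Field K] {n : ℕ}

/-- the class of `Tl f W 0 N` -/
theorem chi_Tl {R : Type} [CommRing R] (M : Meas K R) (f : MvPolynomial (Fin n) K)
    {W : Set (Pt K (Fin n))} (hW : Constr W) (N : ℕ) :
    M.χ _ (Tl f W 0 N) = M.χ (Fin n) W * M.L ^ (n * N) := by
  induction N with
  | zero =>
    rw [mul_zero, pow_zero, mul_one]
    refine M.iso _ _ (Pool.Agent.Y366.MS.constr_Tl f hW 0) hW (fun z i => z (i, 0))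
      (fun w p => w p.1) (regularOn_poly (fun i => IsPF.coord _) _)
      (regularOn_poly (fun p => IsPF.coord _) _) ?_ ?_ ?_ ?_
    · rintro z ⟨h, -⟩
      exact h
    · intro w hw
      exact ⟨hw, fun j hj => absurd hj (Nat.not_lt_zero j)⟩
    · rintro z -
      funext p
      obtain ⟨i, j⟩ := p
      have : j = 0 := Fin.ext (by have := j.2; simp only [Fin.val_zero]; omega)
      rw [this]
    · rintro w -
      rfl
  | succ N ih =>
    rw [Pool.Agent.Y812.MS.two K R M f W hW 0 N (Nat.zero_le _), ih, Nat.mul_succ, pow_add,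
      mul_assoc]

/-- the swap of `y` and `z` -/
def sw (n : ℕ) : Equiv.Perm (Fin (n + 2)) := Equiv.swap (Fin.natAdd n 0) (Fin.natAdd n 1)

theorem sw_cast (a : Fin n) : sw n (Fin.castAdd 2 a) = Fin.castAdd 2 a :=
  Equiv.swap_apply_of_ne_of_ne (castAdd_ne a 0) (castAdd_ne a 1)

theorem sw_0 : sw n (Fin.natAdd n 0) = Fin.natAdd n 1 := Equiv.swap_apply_left _ _

theorem sw_1 : sw n (Fin.natAdd n 1) = Fin.natAdd n 0 := Equiv.swap_apply_right _ _

theorem sw_sw (i : Fin (n + 2)) : sw n (sw n i) = i := Equiv.swap_apply_self _ _ _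

/-- the swap on jets -/
def Sw {N : ℕ} (w : Pt K (Fin (n + 2) × Fin (N + 1))) : Pt K (Fin (n + 2) × Fin (N + 1)) :=
  fun p => w (sw n p.1, p.2)

theorem Sw_Sw {N : ℕ} (w : Pt K (Fin (n + 2) × Fin (N + 1))) : Sw (Sw w) = w := by
  funext p
  simp only [Sw, sw_sw]

theorem arc_Sw {N : ℕ} (w : Pt K (Fin (n + 2) × Fin (N + 1))) (i : Fin (n + 2)) :
    arc (Sw w) i = arc w (sw n i) := rfl

theorem aeval_Sw {N : ℕ} (f : MvPolynomial (Fin n) K) (w : Pt K (Fin (n + 2) × Fin (N + 1))) :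
    aeval (arc (Sw w)) (addyz f) = aeval (arc w) (addyz f) := by
  rw [aeval_addyz, aeval_addyz]
  simp only [arc_Sw, sw_cast, sw_0, sw_1]
  rw [mul_comm (arc w (Fin.natAdd n 1))]

theorem Sw_mem {N : ℕ} (f : MvPolynomial (Fin n) K) (W : Set (Pt K (Fin n)))
    (E : Set (AlgebraicClosure K)) (w : Pt K (Fin (n + 2) × Fin (N + 1)))
    (h : w ∈ JetG (addyz f) (Wyz W) E N) : Sw w ∈ JetG (addyz f) (Wyz W) E N := by
  obtain ⟨h1, h2, h3⟩ := h
  refine ⟨?_, ?_, ?_⟩
  · have h4 : (fun i => w (Fin.castAdd 2 i, 0)) ∈ W := h1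
    show (fun i => Sw w (Fin.castAdd 2 i, 0)) ∈ W
    have : (fun i => Sw w (Fin.castAdd 2 i, 0)) = fun i => w (Fin.castAdd 2 i, 0) := by
      funext i
      simp only [Sw, sw_cast]
    rw [this]
    exact h4
  · rw [aeval_Sw]
    exact h2
  · rw [aeval_Sw]
    exact h3

/-- the jets with `z_0 ≠ 0` -/
def Zi (n N : ℕ) : Set (Pt K (Fin (n + 2) × Fin (N + 1))) := {w | w (Fin.natAdd n 1, 0) ≠ 0}

theorem mem_Yi0 {N : ℕ} (w : Pt K (Fin (n + 2) × Fin (N + 1))) :
    w ∈ Yi n 0 N ↔ w (Fin.natAdd n 0, 0) ≠ 0 := by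
  constructor
  · rintro ⟨-, h⟩
    exact h 0 rfl
  · intro h
    refine ⟨fun j hj => absurd hj (Nat.not_lt_zero _), fun j hj => ?_⟩
    have : j = 0 := Fin.ext hj
    rw [this]
    exact h

theorem constr_Wyz {W : Set (Pt K (Fin n))} (hW : Constr W) : Constr (Wyz W) :=
  hW.preimage _ fun i => IsPF.coord _

theorem constr_Wo {W : Set (Pt K (Fin n))} (hW : Constr W) : Constr (Wo W) :=
  Constr.and (hW.preimage _ fun i => IsPF.coord _)
    (Constr.and (Constr.eqz (IsPF.coord _)) (Constr.eqz (IsPF.coord _)))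

theorem constr_Yi0 (N : ℕ) : Constr (Yi (K := K) n 0 N) := by
  have : Yi (K := K) n 0 N = {w | w (Fin.natAdd n 0, 0) ≠ 0} := by
    ext w
    exact mem_Yi0 w
  rw [this]
  exact (Constr.eqz (IsPF.coord _)).not

theorem constr_Zi (N : ℕ) : Constr (Zi (K := K) n N) := (Constr.eqz (IsPF.coord _)).not

theorem chi_swap {R : Type} [CommRing R] (M : Meas K R) (f : MvPolynomial (Fin n) K)
    {W : Set (Pt K (Fin n))} (hW : Constr W) {E : Set (AlgebraicClosure K)} (hE : CE E) (N : ℕ) :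
    M.χ _ (JetG (addyz f) (Wyz W) E N ∩ Zi n N) =
      M.χ _ (JetG (addyz f) (Wyz W) E N ∩ Yi n 0 N) := by
  have hc := constr_JetE (addyz f) (constr_Wyz hW) hE N
  refine M.iso _ _ (hc.inter (constr_Zi N)) (hc.inter (constr_Yi0 N)) Sw Sw
    (regularOn_poly (fun p => IsPF.coord _) _) (regularOn_poly (fun p => IsPF.coord _) _)
    ?_ ?_ (fun z _ => Sw_Sw z) (fun z _ => Sw_Sw z)
  · rintro w ⟨h1, h2⟩
    refine ⟨Sw_mem f W E w h1, (mem_Yi0 _).2 ?_⟩
    show w (sw n (Fin.natAdd n 0), 0) ≠ 0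
    rw [sw_0]
    exact h2
  · rintro w ⟨h1, h2⟩
    refine ⟨Sw_mem f W E w h1, ?_⟩
    show w (sw n (Fin.natAdd n 1), 0) ≠ 0
    rw [sw_1]
    exact (mem_Yi0 _).1 h2

/-- the origins -/
theorem yz_zero (f : MvPolynomial (Fin n) K) {W : Set (Pt K (Fin n))}
    {E : Set (AlgebraicClosure K)} (h0 : ∀ z ∈ W, aeval z f = 0) {N : ℕ} (hN : 1 ≤ N)
    (w : Pt K (Fin (n + 2) × Fin (N + 1))) (hw : w ∈ JetG (addyz f) (Wyz W) E N) :
    w (Fin.natAdd n 0, 0) * w (Fin.natAdd n 1, 0) = 0 := by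
  obtain ⟨h1, h2, -⟩ := hw
  have h3 := h2 0 hN
  rw [coeff_zero_aeval] at h3
  have h4 : (fun i => w (Fin.castAdd 2 i, 0)) ∈ W := h1
  have h5 : aeval (fun i => w (i, (0 : Fin (N + 1)))) (addyz f) =
      aeval (fun i => w (Fin.castAdd 2 i, (0 : Fin (N + 1)))) f +
        w (Fin.natAdd n 0, 0) * w (Fin.natAdd n 1, 0) := by
    rw [addyz, map_add, map_mul, aeval_X, aeval_X, aeval_rename]
    rfl
  rw [h5, h0 _ h4, zero_add] at h3
  exact h3

end

/-- **Classes of jets of `f + y z` with `y(0) = z(0) = 0`.** -/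
theorem loc : Pool.Agent.N101.CB.TaskLOC := by
  intro K _ R _ M n f W E hW hE h0 N hN
  have hc := constr_JetE (addyz f) (constr_Wyz hW) hE N
  have hco := constr_JetE (addyz f) (constr_Wo hW) hE N
  have hY := Pool.Agent.Y366.MS.onea K R M f W E hW hE 0 N (Nat.zero_le _)
  rw [chi_Tl M f hW N] at hY
  have hset : JetG (addyz f) (Wyz W) E N = JetG (addyz f) (Wo W) E N ∪
      ((JetG (addyz f) (Wyz W) E N ∩ Yi n 0 N) ∪ (JetG (addyz f) (Wyz W) E N ∩ Zi n N)) := by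
    ext w
    constructor
    · intro hw
      by_cases hy : w (Fin.natAdd n 0, 0) = 0
      · by_cases hz : w (Fin.natAdd n 1, 0) = 0
        · left
          exact ⟨⟨hw.1, hy, hz⟩, hw.2⟩
        · right
          right
          exact ⟨hw, hz⟩
      · right
        left
        exact ⟨hw, (mem_Yi0 w).2 hy⟩
    · rintro (hw | hw | hw)
      · exact ⟨hw.1.1, hw.2⟩
      · exact hw.1
      · exact hw.1
  have hd1 : Disjoint (JetG (addyz f) (Wyz W) E N ∩ Yi n 0 N)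
      (JetG (addyz f) (Wyz W) E N ∩ Zi n N) := by
    rw [Set.disjoint_left]
    rintro w ⟨h1, h2⟩ ⟨-, h3⟩
    have h4 := yz_zero f h0 hN w h1
    rcases mul_eq_zero.1 h4 with h | h
    · exact (mem_Yi0 w).1 h2 h
    · exact h3 h
  have hd2 : Disjoint (JetG (addyz f) (Wo W) E N)
      ((JetG (addyz f) (Wyz W) E N ∩ Yi n 0 N) ∪ (JetG (addyz f) (Wyz W) E N ∩ Zi n N)) := by
    rw [Set.disjoint_left]
    rintro w ⟨⟨h1, h2, h3⟩, -⟩ (h | h)
    · exact (mem_Yi0 w).1 h.2 h2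
    · exact h.2 h3
  rw [hset, M.add _ _ hco ((hc.inter (constr_Yi0 N)).union (hc.inter (constr_Zi N))) hd2,
    M.add _ _ (hc.inter (constr_Yi0 N)) (hc.inter (constr_Zi N)) hd1, chi_swap M f hW hE N, hY]
  ring

end Pool.Agent.N101.CB
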