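import Pool.Agent.N101.CB.StmI
import Pool.Agent.N101.CB.Loc
import Pool.Agent.W63.MTFin
import Pool.Agent.W417.MT.K0

/-!
# Project CUB, part IDL (helper559): the local zeta function of `f + y z`
-/

set_option autoImplicit false

namespace Pool.Agent.N101.CB

open MvPolynomial Pool.Agent.W428.MOT
open Pool.Agent.W375.MG (JetG Good)
open Pool.Agent.Y229.MS (addyz Wyz CE Tl Yi)
open Pool.Agent.W63.MTFin (mapMeas geo_mul L_mul)

namespace Idl

/-- the geometric series -/
theorem geo_coeff {K : Type} [Field K] (N : ℕ) :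
    PowerSeries.coeff N (geo K (-1) 1) = (((Lu K)⁻¹ : (MK K)ˣ) : MK K) ^ N := by
  set Y : MK K := (((Lu K)⁻¹ : (MK K)ˣ) : MK K) with hY
  have h1 := geo_mul (K := K) (-1) 1 one_pos
  rw [show (1 : ℤ).toNat = 1 from rfl, zpow_neg_one, pow_one, ← hY] at h1
  have h2 : (1 - PowerSeries.C Y * PowerSeries.X) * PowerSeries.mk (fun N => Y ^ N) = 1 := by
    ext m
    rw [sub_mul, one_mul, map_sub, PowerSeries.coeff_mk, mul_assoc, PowerSeries.coeff_C_mul]
    cases m with
    | zero => simp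
    | succ m =>
      rw [PowerSeries.coeff_succ_X_mul, PowerSeries.coeff_mk, PowerSeries.coeff_one,
        if_neg (Nat.succ_ne_zero m), pow_succ]
      ring
  have h3 : geo K (-1) 1 = PowerSeries.mk (fun N => Y ^ N) := by
    calc geo K (-1) 1 = geo K (-1) 1 * ((1 - PowerSeries.C Y * PowerSeries.X) *
          PowerSeries.mk (fun N => Y ^ N)) := by rw [h2, mul_one]
      _ = ((1 - PowerSeries.C Y * PowerSeries.X) * geo K (-1) 1) *
          PowerSeries.mk (fun N => Y ^ N) := by ring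
      _ = _ := by rw [h1, one_mul]
  rw [h3, PowerSeries.coeff_mk]

theorem Fz_zero {K : Type} [Field K] : PowerSeries.coeff 0 (Fz K 1 1) = 0 := by
  unfold Fz
  simp

theorem Fz_succ {K : Type} [Field K] (N : ℕ) : PowerSeries.coeff (N + 1) (Fz K 1 1) =
    (((Lu K : (MK K)ˣ) : MK K) - 1) * (((Lu K)⁻¹ : (MK K)ˣ) : MK K) ^ (N + 1) := by
  have e : Fz K 1 1 = PowerSeries.C ((((Lu K : (MK K)ˣ) : MK K) - 1) *
      (((Lu K)⁻¹ : (MK K)ˣ) : MK K)) * (PowerSeries.X * geo K (-1) 1) := by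
    unfold Fz
    have e1 : (((Lu K) ^ (-((1 : ℕ) : ℤ)) : (MK K)ˣ) : MK K) = (((Lu K)⁻¹ : (MK K)ˣ) : MK K) := by
      rw [Nat.cast_one, zpow_neg_one]
    rw [e1, Nat.cast_one, map_mul]
    ring
  rw [e, PowerSeries.coeff_C_mul, PowerSeries.coeff_succ_X_mul, geo_coeff, pow_succ]
  ring

/-- the value at the origin -/
theorem org {K : Type} [Field K] {n : ℕ} (f : MvPolynomial (Fin n) K) {W : Set (Pt K (Fin n))}
    (h0 : ∀ z ∈ W, aeval z f = 0) {N : ℕ} (w : Pt K (Fin (n + 2) × Fin (N + 1)))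
    (hw : (fun i => w (Fin.castAdd 2 i, 0)) ∈ W) :
    PowerSeries.coeff 0 (aeval (arc w) (addyz f)) =
      w (Fin.natAdd n 0, 0) * w (Fin.natAdd n 1, 0) := by
  rw [Pool.Agent.Z864.MS.coeff_zero_aeval]
  have h5 : aeval (fun i => w (i, (0 : Fin (N + 1)))) (addyz f) =
      aeval (fun i => w (Fin.castAdd 2 i, (0 : Fin (N + 1)))) f +
        w (Fin.natAdd n 0, 0) * w (Fin.natAdd n 1, 0) := by
    rw [addyz, map_add, map_mul, aeval_X, aeval_X, aeval_rename]
    rfl
  rw [h5, h0 _ hw, zero_add]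

end Idl

open Idl in
/-- **The local zeta function of `f + y z`.** -/
theorem idl_of (h : TaskID) (h' : TaskLOC) : TaskIDL := by
  intro K _ _ n f W hW h0
  obtain ⟨M₀, hM₀⟩ := Pool.Agent.W417.MT.K0.main K
  set M := mapMeas M₀ (algebraMap (K0 K) (MK K)) with hM
  set Y : MK K := (((Lu K)⁻¹ : (MK K)ˣ) : MK K) with hY
  set L : MK K := ((Lu K : (MK K)ˣ) : MK K) with hLdef
  have hLY : L * Y = 1 := Units.mul_inv _
  have hML : M.L = L := by
    have hL : M.L * Y = 1 := L_mul hM₀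
    calc M.L = M.L * (L * Y) := by rw [hLY, mul_one]
      _ = (M.L * Y) * L := by ring
      _ = _ := by rw [hL, one_mul]
  have hcl : ∀ {ι : Type} [Fintype ι] (S : Set (Pt K ι)), clM S = M.χ ι S := by
    intro ι _ S
    change algebraMap (K0 K) (MK K) (cls ι S) = algebraMap (K0 K) (MK K) (M₀.χ ι S)
    rw [hM₀]
  have hUn : CE (Un K) := Pool.Agent.Y229.MS.ce_good Pool.Agent.W375.MG.good_units
  have hE : M.χ (Fin 1) {a | a 0 ∈ Un K} = L - 1 := by
    have := Pool.Agent.W417.MT.Free.chi_gm M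
    rw [hML] at this
    exact this
  have hco : ∀ {a : ℕ} (g : MvPolynomial (Fin a) K) (V : Set (Pt K (Fin a))) (N : ℕ),
      PowerSeries.coeff N (zt g V) = M.χ _ (JetG g V (Un K) N) * Y ^ (a * N) := by
    intro a g V N
    rw [zt, PowerSeries.coeff_mk, hcl, zpow_neg, zpow_natCast, ← inv_pow,
      Units.val_pow_eq_pow_val]
  have key : zt (addyz f) (Wo W) = zt (addyz f) (Wyz W) -
      PowerSeries.C (clM W) * ((cL K - 1) ^ 2 + 2 * (cL K - 1) * Fz K 1 1) := by
    have e0 : cL K - 1 = PowerSeries.C (L - 1) := by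
      rw [map_sub, map_one]
      rfl
    have e1 : PowerSeries.C (clM W) * ((cL K - 1) ^ 2 + 2 * (cL K - 1) * Fz K 1 1) =
        PowerSeries.C (clM W * (L - 1) ^ 2) +
          PowerSeries.C (2 * clM W * (L - 1)) * Fz K 1 1 := by
      rw [e0]
      simp only [map_mul, map_pow, map_ofNat]
      ring
    rw [e1]
    ext N
    rw [map_sub, map_add, PowerSeries.coeff_C_mul, PowerSeries.coeff_C, hco, hco]
    cases N with
    | zero =>
      have z0 : Y ^ ((n + 2) * 0) = 1 := by rw [mul_zero, pow_zero]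
      rw [if_pos rfl, Fz_zero, z0, mul_one, mul_one, hcl]
      have z1 : JetG (addyz f) (Wo W) (Un K) 0 = ∅ := by
        rw [Set.eq_empty_iff_forall_notMem]
        rintro w ⟨h1, -, h3⟩
        apply h3
        rw [org f h0 w h1.1]
        have h4 : w (Fin.natAdd n 0, 0) = 0 := h1.2.1
        rw [h4, zero_mul]
      have z2 : JetG (addyz f) (Wyz W) (Un K) 0 =
          JetG (addyz f) (Wyz W) (Un K) 0 ∩ Yi n 0 0 := by
        refine (Set.inter_eq_left.2 ?_).symm
        rintro w ⟨h1, -, h3⟩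
        rw [mem_Yi0]
        intro hy
        apply h3
        rw [org f h0 w h1, hy, zero_mul]
      have z3 := Pool.Agent.Y366.MS.onea K (MK K) M f W (Un K) hW hUn 0 0 le_rfl
      rw [← z2, chi_Tl M f hW 0, hE, hML, mul_zero, pow_zero, mul_one, mul_one] at z3
      have z4 : M.χ _ (∅ : Set (Pt K (Fin (n + 2) × Fin (0 + 1)))) = 0 := by
        have := M.add (∅ : Set (Pt K (Fin (n + 2) × Fin (0 + 1)))) ∅ Constr.empty Constr.empty
          (Set.disjoint_empty _)
        rw [Set.union_empty] at this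
        exact left_eq_add.1 this
      rw [z1, z3, z4]
      ring
    | succ N =>
      rw [if_neg (Nat.succ_ne_zero N), zero_add, Fz_succ]
      have z1 := h' K (MK K) M f W (Un K) hW hUn h0 (N + 1) (Nat.le_add_left _ _)
      rw [z1, hE, hML, hcl]
      have e2 : L ^ (n * (N + 1)) * L ^ (N + 1) * Y ^ ((n + 2) * (N + 1)) = Y ^ (N + 1) := by
        rw [← pow_add]
        have e3 : (n + 2) * (N + 1) = (n * (N + 1) + (N + 1)) + (N + 1) := by ring
        rw [e3, pow_add Y, ← mul_assoc, ← mul_pow, hLY, one_pow, one_mul]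
      linear_combination (-(2 * (L - 1) * M.χ (Fin n) W * (L - 1))) * e2
  rw [key, h K f W hW]
  ring

end Pool.Agent.N101.CB
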