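import Pool.Agent.N101.CB.StmI
import Pool.Agent.Y229.MS.Step

/-!
# Project CUB: descent of the poles of motivic zeta functions
-/

set_option autoImplicit false

namespace Pool.Agent.N101.CB

open Pool.Agent.W428.MOT
open Pool.Agent.W375.MG (ratRing_mono)
open Pool.Agent.W63.MTFin (geo_mul geo_mem X_mem C_mem)
open Pool.Agent.Y229.MS (shn rescale_mem rescale_X' rescale_C')

variable {K : Type} [Field K]

/-- `𝕃⁻¹`, as a constant -/
noncomputable def cY (K : Type) [Field K] : PowerSeries (MK K) :=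
  PowerSeries.C (((Lu K)⁻¹ : (MK K)ˣ) : MK K)

theorem cL_cY : cL K * cY K = 1 := by
  unfold cL cY
  rw [← map_mul, Units.mul_inv, map_one]

theorem Fz_mul : (1 - cY K * PowerSeries.X) * Fz K 1 1 = (cL K - 1) * (cY K * PowerSeries.X) := by
  have h1 := geo_mul (K := K) (-1) 1 one_pos
  rw [show (1 : ℤ).toNat = 1 from rfl, zpow_neg_one, pow_one] at h1
  unfold Fz cL cY
  rw [show (-((1 : ℕ) : ℤ)) = -1 from rfl, zpow_neg_one, pow_one, map_sub, map_one]
  calc _ = (PowerSeries.C ((Lu K : (MK K)ˣ) : MK K) - 1) *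
      (PowerSeries.C (((Lu K)⁻¹ : (MK K)ˣ) : MK K) * PowerSeries.X) *
      ((1 - PowerSeries.C (((Lu K)⁻¹ : (MK K)ˣ) : MK K) * PowerSeries.X) * geo K (-1) 1) := by
        push_cast
        ring
    _ = _ := by rw [h1, mul_one]

theorem rescale_inv (Z : PowerSeries (MK K)) :
    PowerSeries.rescale ((Lu K : (MK K)ˣ) : MK K)
      (PowerSeries.rescale (((Lu K)⁻¹ : (MK K)ˣ) : MK K) Z) = Z := by
  rw [PowerSeries.rescale_rescale, Units.inv_mul, PowerSeries.rescale_one]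
  rfl

/-- **Solving for the zeta function of `f`.** -/
theorem solve {Zf Zg A A' : PowerSeries (MK K)}
    (h : Zg = A + (1 - Fz K 1 1) * (cL K + Fz K 1 1) *
      PowerSeries.rescale (((Lu K)⁻¹ : (MK K)ˣ) : MK K) Zf)
    (hA : (1 - cY K * PowerSeries.X) ^ 2 * A = A') :
    Zf = cY K * ((geo K 1 1 * geo K (-1) 1) * ((1 - PowerSeries.X) ^ 2 *
      PowerSeries.rescale ((Lu K : (MK K)ˣ) : MK K) Zg -
      PowerSeries.rescale ((Lu K : (MK K)ˣ) : MK K) A')) := by
  have hF := Fz_mul (K := K)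
  have hL := cL_cY (K := K)
  set R := PowerSeries.rescale ((Lu K : (MK K)ˣ) : MK K) with hR
  set Z' := PowerSeries.rescale (((Lu K)⁻¹ : (MK K)ˣ) : MK K) Zf with hZ'
  set G := Fz K 1 1 with hG
  set l := cL K with hl
  set y := cY K with hy
  have e1 : (1 - y * PowerSeries.X) ^ 2 * Zg = A' + (1 - PowerSeries.X) *
      (l * (1 - y * y * PowerSeries.X)) * Z' := by
    have e2 : (1 - y * PowerSeries.X) * (1 - G) = 1 - PowerSeries.X := by
      linear_combination (-1 : PowerSeries (MK K)) * hF - PowerSeries.X * hL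
    have e3 : (1 - y * PowerSeries.X) * (l + G) = l * (1 - y * y * PowerSeries.X) := by
      linear_combination hF + y * PowerSeries.X * hL
    rw [h]
    calc _ = (1 - y * PowerSeries.X) ^ 2 * A + ((1 - y * PowerSeries.X) * (1 - G)) *
        ((1 - y * PowerSeries.X) * (l + G)) * Z' := by ring
      _ = _ := by rw [hA, e2, e3]
  have r1 : R (y * PowerSeries.X) = PowerSeries.X := by
    rw [map_mul, hR, hy, cY, rescale_C', rescale_X', ← cY, ← hy]
    change y * (l * PowerSeries.X) = _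
    linear_combination PowerSeries.X * hL
  have r2 : R PowerSeries.X = l * PowerSeries.X := by rw [hR, rescale_X']; rfl
  have r3 : R l = l := by rw [hR, hl, cL, rescale_C']
  have r4 : R y = y := by rw [hR, hy, cY, rescale_C']
  have r5 : R Z' = Zf := rescale_inv Zf
  have e4 := congrArg R e1
  rw [map_mul, map_pow, map_sub, map_one, r1, map_add, map_mul, map_mul, map_mul, map_sub,
    map_sub, map_one, r2, r3, r5, mul_assoc y y, map_mul, r4, r1] at e4
  have g1 : (1 - l * PowerSeries.X) * geo K 1 1 = 1 := by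
    have := geo_mul (K := K) 1 1 one_pos
    rwa [show (1 : ℤ).toNat = 1 from rfl, zpow_one, pow_one] at this
  have g2 : (1 - y * PowerSeries.X) * geo K (-1) 1 = 1 := by
    have := geo_mul (K := K) (-1) 1 one_pos
    rwa [show (1 : ℤ).toNat = 1 from rfl, zpow_neg_one, pow_one] at this
  have e5 : (1 - PowerSeries.X) ^ 2 * R Zg - R A' =
      (1 - l * PowerSeries.X) * (l * (1 - y * PowerSeries.X)) * Zf := by
    rw [e4]
    ring
  rw [e5]
  calc Zf = (l * y) * ((1 - l * PowerSeries.X) * geo K 1 1) *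
      ((1 - y * PowerSeries.X) * geo K (-1) 1) * Zf := by rw [hL, g1, g2]; ring
    _ = _ := by ring

/-- the series without the pole `s₀` -/
noncomputable def rg (K : Type) [Field K] (s₀ : ℚ) : Subalgebra (MK K) (PowerSeries (MK K)) :=
  ratRing K {p | 0 < p.2 ∧ (p.1 : ℚ) / p.2 ≠ s₀}

theorem rescale_rg {s₀ : ℚ} {Z : PowerSeries (MK K)} (hZ : Z ∈ rg K (s₀ - 1)) :
    PowerSeries.rescale ((Lu K : (MK K)ˣ) : MK K) Z ∈ rg K s₀ := by
  refine ratRing_mono ?_ (rescale_mem (fun p hp => hp.1) hZ)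
  rintro p ⟨q, ⟨hq1, hq2⟩, rfl⟩
  refine ⟨hq1, fun h => hq2 ?_⟩
  have hq : (q.2 : ℚ) ≠ 0 := by exact_mod_cast hq1.ne'
  rw [← h]
  push_cast
  field_simp
  ring

/-- **Descent.** -/
theorem rg_descend {Zf Zg A A' : PowerSeries (MK K)}
    (h : Zg = A + (1 - Fz K 1 1) * (cL K + Fz K 1 1) *
      PowerSeries.rescale (((Lu K)⁻¹ : (MK K)ˣ) : MK K) Zf)
    (hA : (1 - cY K * PowerSeries.X) ^ 2 * A = A') {s₀ : ℚ} (h0 : s₀ < 0) (h1 : s₀ ≠ -1)
    (hA' : PowerSeries.rescale ((Lu K : (MK K)ˣ) : MK K) A' ∈ rg K s₀)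
    (hZ : Zg ∈ rg K (s₀ - 1)) : Zf ∈ rg K s₀ := by
  rw [solve h hA]
  refine (rg K s₀).mul_mem (C_mem _ _) ((rg K s₀).mul_mem ((rg K s₀).mul_mem
    (geo_mem (p := ((1 : ℤ), (1 : ℤ))) ⟨one_pos, ?_⟩)
    (geo_mem (p := ((-1 : ℤ), (1 : ℤ))) ⟨one_pos, ?_⟩))
    ((rg K s₀).sub_mem ((rg K s₀).mul_mem ((rg K s₀).pow_mem ((rg K s₀).sub_mem
      (rg K s₀).one_mem (X_mem _)) 2) (rescale_rg hZ)) hA'))
  · intro h2
    rw [← h2] at h0
    norm_num at h0
  · intro h2
    apply h1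
    rw [← h2]
    norm_num

/-- the constant terms of the global formula -/
theorem const_glob (c : MK K) (s₀ : ℚ) : ∃ A' : PowerSeries (MK K),
    (1 - cY K * PowerSeries.X) ^ 2 * (PowerSeries.C c * (cL K - 1 + Fz K 1 1) ^ 2) = A' ∧
      PowerSeries.rescale ((Lu K : (MK K)ˣ) : MK K) A' ∈ rg K s₀ := by
  refine ⟨PowerSeries.C (c * (((Lu K : (MK K)ˣ) : MK K) - 1) ^ 2), ?_, ?_⟩
  · have hF := Fz_mul (K := K)
    have e : (1 - cY K * PowerSeries.X) * (cL K - 1 + Fz K 1 1) = cL K - 1 := by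
      linear_combination hF
    calc _ = PowerSeries.C c * ((1 - cY K * PowerSeries.X) * (cL K - 1 + Fz K 1 1)) ^ 2 := by ring
      _ = _ := by
        rw [e, map_mul, map_pow, map_sub, map_one]
        rfl
  · rw [rescale_C']
    exact C_mem _ _

/-- the constant terms of the local formula -/
theorem const_loc (c : MK K) (s₀ : ℚ) : ∃ A' : PowerSeries (MK K),
    (1 - cY K * PowerSeries.X) ^ 2 * (PowerSeries.C c * Fz K 1 1 ^ 2) = A' ∧
      PowerSeries.rescale ((Lu K : (MK K)ˣ) : MK K) A' ∈ rg K s₀ := by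
  refine ⟨PowerSeries.C c * ((cL K - 1) * (cY K * PowerSeries.X)) ^ 2, ?_, ?_⟩
  · rw [← Fz_mul (K := K)]
    ring
  · rw [map_mul, map_pow, map_mul, map_sub, map_one, map_mul, rescale_X', rescale_C', cL, cY,
      rescale_C', rescale_C']
    refine (rg K s₀).mul_mem (C_mem _ _) ((rg K s₀).pow_mem ((rg K s₀).mul_mem
      ((rg K s₀).sub_mem (C_mem _ _) (rg K s₀).one_mem) ((rg K s₀).mul_mem (C_mem _ _)
        ((rg K s₀).mul_mem (C_mem _ _) (X_mem _)))) 2)

end Pool.Agent.N101.CB
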