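import Pool.Agent.N101.CB.StmI
import Pool.Agent.Y229.MS.Step

/-!
# Project CUB: topological zeta functions
-/

set_option autoImplicit false

namespace Pool.Agent.N101.CB

open MvPolynomial Pool.Agent.W428.MOT
open Pool.Agent.W63.MTFin (geo_mul)
open Pool.Agent.Y229.MS (rescale_X' rescale_C')

/-- `1 / (N s + ν)`, `N = p.1 + 1`, `ν = p.2 + 1` -/
noncomputable def ft (p : ℕ × ℕ) : RatFunc ℂ :=
  (((p.1 : RatFunc ℂ) + 1) * RatFunc.X + ((p.2 : RatFunc ℂ) + 1))⁻¹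

/-- Let `Z` be a motivic zeta function. `IsTop χ Z R`: there is a polynomial `Q` over `𝓜` such that
`Z = Q(F_{N, ν})`, `F_{N, ν} = (𝕃 - 1) 𝕃 ^ (-ν) T ^ N / (1 - 𝕃 ^ (-ν) T ^ N)`, `N, ν ≥ 1`, and
`R = (χ Q)(1 / (N s + ν))`. -/
def IsTop (χ : MK ℂ →+* ℂ) (Z : PowerSeries (MK ℂ)) (R : RatFunc ℂ) : Prop :=
  ∃ Q : MvPolynomial (ℕ × ℕ) (MK ℂ), Z = aeval (fun p => Fz ℂ (p.1 + 1) (p.2 + 1)) Q ∧
    R = eval₂ ((algebraMap ℂ (RatFunc ℂ)).comp χ) ft Q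

/-- `R` is regular at `s₀` -/
def Reg (R : RatFunc ℂ) (s₀ : ℂ) : Prop :=
  ∃ p q : Polynomial ℂ, q.eval s₀ ≠ 0 ∧
    algebraMap (Polynomial ℂ) (RatFunc ℂ) q * R = algebraMap (Polynomial ℂ) (RatFunc ℂ) p

theorem Reg.add {R S : RatFunc ℂ} {s : ℂ} (hR : Reg R s) (hS : Reg S s) : Reg (R + S) s := by
  obtain ⟨p, q, h1, h2⟩ := hR
  obtain ⟨p', q', h3, h4⟩ := hS
  refine ⟨q' * p + q * p', q * q', ?_, ?_⟩
  · rw [Polynomial.eval_mul]
    exact mul_ne_zero h1 h3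
  · rw [map_mul, map_add, map_mul, map_mul, ← h2, ← h4]
    ring

theorem Reg.mul {R S : RatFunc ℂ} {s : ℂ} (hR : Reg R s) (hS : Reg S s) : Reg (R * S) s := by
  obtain ⟨p, q, h1, h2⟩ := hR
  obtain ⟨p', q', h3, h4⟩ := hS
  refine ⟨p * p', q * q', ?_, ?_⟩
  · rw [Polynomial.eval_mul]
    exact mul_ne_zero h1 h3
  · rw [map_mul, map_mul, ← h2, ← h4]
    ring

theorem Reg.poly (p : Polynomial ℂ) (s : ℂ) : Reg (algebraMap (Polynomial ℂ) (RatFunc ℂ) p) s :=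
  ⟨p, 1, by simp, by simp⟩

theorem Reg.inv {p : Polynomial ℂ} {s : ℂ} (h : p.eval s ≠ 0) :
    Reg (algebraMap (Polynomial ℂ) (RatFunc ℂ) p)⁻¹ s := by
  refine ⟨1, p, h, ?_⟩
  have hp : algebraMap (Polynomial ℂ) (RatFunc ℂ) p ≠ 0 := by
    intro h0
    have h1 : p = 0 := (RatFunc.algebraMap_injective ℂ) (by rw [h0, map_zero])
    rw [h1, Polynomial.eval_zero] at h
    exact h rfl
  rw [mul_inv_cancel₀ hp, map_one]

theorem Reg.sub {R S : RatFunc ℂ} {s : ℂ} (hR : Reg R s) (hS : Reg S s) : Reg (R - S) s := by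
  have h := (Reg.poly (-1) s).mul hS
  rw [map_neg, map_one] at h
  have h1 := hR.add h
  rwa [neg_one_mul, ← sub_eq_add_neg] at h1

/-- the polynomial `N s + ν` -/
noncomputable def lp (p : ℕ × ℕ) : Polynomial ℂ :=
  ((p.1 : Polynomial ℂ) + 1) * Polynomial.X + ((p.2 : Polynomial ℂ) + 1)

theorem ft_lp (p : ℕ × ℕ) : ft p = (algebraMap (Polynomial ℂ) (RatFunc ℂ) (lp p))⁻¹ := by
  unfold ft lp
  rw [map_add, map_mul, map_add, map_add, map_natCast, map_natCast, map_one, RatFunc.algebraMap_X]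

theorem lp_eval (p : ℕ × ℕ) (s : ℂ) : (lp p).eval s = ((p.1 : ℂ) + 1) * s + ((p.2 : ℂ) + 1) := by
  unfold lp
  simp

/-- **The poles are negative.** -/
theorem IsTop.reg {χ : MK ℂ →+* ℂ} {Z : PowerSeries (MK ℂ)} {R : RatFunc ℂ} (h : IsTop χ Z R)
    {s : ℂ} (hs : ∀ p : ℕ × ℕ, ((p.1 : ℂ) + 1) * s + ((p.2 : ℂ) + 1) ≠ 0) : Reg R s := by
  obtain ⟨Q, -, rfl⟩ := h
  induction Q using MvPolynomial.induction_on with
  | C a =>
    rw [eval₂_C]
    have := Reg.poly (Polynomial.C (χ a)) s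
    simpa using this
  | add p q hp hq =>
    rw [eval₂_add]
    exact hp.add hq
  | mul_X p i hp =>
    rw [eval₂_mul, eval₂_X, ft_lp]
    exact hp.mul (Reg.inv (by rw [lp_eval]; exact hs i))

/-- the substitution `s ↦ s + a` -/
noncomputable def shR (a : ℂ) : RatFunc ℂ →+* RatFunc ℂ :=
  RatFunc.liftRingHom ((algebraMap (Polynomial ℂ) (RatFunc ℂ)).comp
    (Polynomial.compRingHom (Polynomial.X + Polynomial.C a))) (by
    intro p hp
    rw [Submonoid.mem_comap, mem_nonZeroDivisors_iff_ne_zero]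
    rw [mem_nonZeroDivisors_iff_ne_zero] at hp
    intro h
    apply hp
    rw [RingHom.comp_apply, Polynomial.coe_compRingHom_apply] at h
    have h0 : p.comp (Polynomial.X + Polynomial.C a) = 0 :=
      (RatFunc.algebraMap_injective ℂ) (by rw [h, map_zero])
    have h1 := congrArg (fun q : Polynomial ℂ => q.comp (Polynomial.X - Polynomial.C a)) h0
    simpa [Polynomial.comp_assoc] using h1)

theorem shR_poly (a : ℂ) (p : Polynomial ℂ) : shR a (algebraMap (Polynomial ℂ) (RatFunc ℂ) p) =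
    algebraMap (Polynomial ℂ) (RatFunc ℂ) (p.comp (Polynomial.X + Polynomial.C a)) := by
  unfold shR
  rw [RatFunc.liftRingHom_algebraMap, RingHom.comp_apply, Polynomial.coe_compRingHom_apply]

theorem Reg.shR {R : RatFunc ℂ} {s : ℂ} (a : ℂ) (h : Reg R s) : Reg (shR a R) (s - a) := by
  obtain ⟨p, q, h1, h2⟩ := h
  refine ⟨p.comp (Polynomial.X + Polynomial.C a), q.comp (Polynomial.X + Polynomial.C a), ?_, ?_⟩
  · rw [Polynomial.eval_comp]
    simpa using h1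
  · rw [← shR_poly, ← shR_poly, ← map_mul, h2]

theorem shR_shR (a : ℂ) (R : RatFunc ℂ) : CB.shR (-a) (CB.shR a R) = R := by
  obtain ⟨p, q, hq, rfl⟩ := IsFractionRing.div_surjective (A := Polynomial ℂ) R
  rw [map_div₀, map_div₀, shR_poly, shR_poly, shR_poly, shR_poly, Polynomial.comp_assoc,
    Polynomial.comp_assoc]
  simp

theorem reg_of_shR {R : RatFunc ℂ} {s : ℂ} (h : Reg (shR 1 R) (s - 1)) : Reg R s := by
  have h1 := h.shR (-1)
  rw [shR_shR] at h1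
  simpa using h1

/-- the formula for the topological zeta function -/
noncomputable def topStep (w : ℂ) (R : RatFunc ℂ) : RatFunc ℂ :=
  algebraMap (Polynomial ℂ) (RatFunc ℂ) (Polynomial.C w) * ft (0, 0) ^ 2 +
    (1 - ft (0, 0)) * (1 + ft (0, 0)) * shR 1 R

theorem ft00 : ft (0, 0) =
    (algebraMap (Polynomial ℂ) (RatFunc ℂ) (Polynomial.X + 1))⁻¹ := by
  rw [ft_lp]
  unfold lp
  simp

theorem ne0 {p : Polynomial ℂ} {s : ℂ} (h : p.eval s ≠ 0) :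
    algebraMap (Polynomial ℂ) (RatFunc ℂ) p ≠ 0 := by
  intro h0
  have h1 : p = 0 := (RatFunc.algebraMap_injective ℂ) (by rw [h0, map_zero])
  rw [h1, Polynomial.eval_zero] at h
  exact h rfl

/-- **Descent of the poles of topological zeta functions.** -/
theorem topStep_reg {w : ℂ} {R : RatFunc ℂ} {s : ℂ} (h0 : s ≠ 0) (h1 : s ≠ 1) (h2 : s ≠ -1)
    (h : Reg (topStep w R) (s - 1)) : Reg R s := by
  apply reg_of_shR
  have a1 : (Polynomial.X + 1 : Polynomial ℂ).eval (s - 1) ≠ 0 := by simpa using h0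
  have a2 : (Polynomial.X : Polynomial ℂ).eval (s - 1) ≠ 0 := by
    rw [Polynomial.eval_X]
    exact sub_ne_zero.2 h1
  have a3 : (Polynomial.X + 2 : Polynomial ℂ).eval (s - 1) ≠ 0 := by
    rw [Polynomial.eval_add, Polynomial.eval_X, Polynomial.eval_ofNat]
    intro h3
    apply h2
    linear_combination h3
  have b1 := ne0 a1
  have b2 := ne0 a2
  have b3 := ne0 a3
  have e : shR 1 R = (topStep w R - algebraMap (Polynomial ℂ) (RatFunc ℂ) (Polynomial.C w) *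
      ((algebraMap (Polynomial ℂ) (RatFunc ℂ) (Polynomial.X + 1))⁻¹ *
        (algebraMap (Polynomial ℂ) (RatFunc ℂ) (Polynomial.X + 1))⁻¹)) *
      (algebraMap (Polynomial ℂ) (RatFunc ℂ) ((Polynomial.X + 1) ^ 2) *
        ((algebraMap (Polynomial ℂ) (RatFunc ℂ) Polynomial.X)⁻¹ *
        (algebraMap (Polynomial ℂ) (RatFunc ℂ) (Polynomial.X + 2))⁻¹)) := by
    unfold topStep
    rw [ft00]
    have c1 : algebraMap (Polynomial ℂ) (RatFunc ℂ) (Polynomial.X + 1) =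
        algebraMap (Polynomial ℂ) (RatFunc ℂ) Polynomial.X + 1 := by rw [map_add, map_one]
    have c2 : algebraMap (Polynomial ℂ) (RatFunc ℂ) (Polynomial.X + 2) =
        algebraMap (Polynomial ℂ) (RatFunc ℂ) Polynomial.X + 2 := by rw [map_add, map_ofNat]
    rw [map_pow]
    rw [c1] at b1 ⊢
    rw [c2] at b3 ⊢
    generalize algebraMap (Polynomial ℂ) (RatFunc ℂ) Polynomial.X = x at *
    field_simp
    ring
  rw [e]
  exact (h.sub ((Reg.poly _ _).mul ((Reg.inv a1).mul (Reg.inv a1)))).mul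
    ((Reg.poly _ _).mul ((Reg.inv a2).mul (Reg.inv a3)))

/-- the formula for ideals -/
noncomputable def topStepI (w : ℂ) (R : RatFunc ℂ) : RatFunc ℂ :=
  algebraMap (Polynomial ℂ) (RatFunc ℂ) (Polynomial.C w) * ft (0, 0) + (1 - ft (0, 0)) * shR 1 R

theorem shR_ft (p : ℕ × ℕ) : shR 1 (ft p) = ft (p.1, p.2 + p.1 + 1) := by
  rw [ft_lp, ft_lp, map_inv₀, shR_poly]
  congr 2
  unfold lp
  simp only [Polynomial.add_comp, Polynomial.mul_comp, Polynomial.X_comp, Polynomial.one_comp,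
    Polynomial.natCast_comp]
  push_cast
  rw [map_one]
  ring

theorem shR_C (c : ℂ) : shR 1 (algebraMap ℂ (RatFunc ℂ) c) = algebraMap ℂ (RatFunc ℂ) c := by
  rw [IsScalarTower.algebraMap_apply ℂ (Polynomial ℂ) (RatFunc ℂ), shR_poly]
  simp

theorem shR_eval (χ : MK ℂ →+* ℂ) (Q : MvPolynomial (ℕ × ℕ) (MK ℂ)) :
    shR 1 (eval₂ ((algebraMap ℂ (RatFunc ℂ)).comp χ) ft Q) =
      eval₂ ((algebraMap ℂ (RatFunc ℂ)).comp χ) ft
        (rename (fun p => (p.1, p.2 + p.1 + 1)) Q) := by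
  rw [eval₂_rename]
  induction Q using MvPolynomial.induction_on with
  | C a =>
    rw [eval₂_C, eval₂_C, RingHom.comp_apply, shR_C]
  | add p q hp hq => rw [eval₂_add, eval₂_add, map_add, hp, hq]
  | mul_X p i hp =>
    rw [eval₂_mul, eval₂_mul, map_mul, hp, eval₂_X, eval₂_X, shR_ft]
    rfl

theorem rescale_geo' {K : Type} [Field K] (a b : ℤ) (hb : 0 < b) :
    PowerSeries.rescale (((Lu K)⁻¹ : (MK K)ˣ) : MK K) (geo K a b) = geo K (a - b) b := by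
  have h := Pool.Agent.Y229.MS.rescale_geo (K := K) (a - b) b hb
  rw [sub_add_cancel] at h
  rw [← h, PowerSeries.rescale_rescale, Units.mul_inv, PowerSeries.rescale_one]
  rfl

theorem rescale_Fz {K : Type} [Field K] (N ν : ℕ) (hN : 0 < N) :
    PowerSeries.rescale (((Lu K)⁻¹ : (MK K)ˣ) : MK K) (Fz K N ν) = Fz K N (ν + N) := by
  unfold Fz
  rw [map_mul, map_mul, map_mul, map_pow, rescale_C', rescale_C', rescale_X',
    rescale_geo' _ _ (by exact_mod_cast hN), mul_pow, ← map_pow,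
    show (-((ν + N : ℕ) : ℤ)) = -(ν : ℤ) - (N : ℤ) by push_cast; ring]
  have h : (((Lu K) ^ (-(ν : ℤ) - (N : ℤ)) : (MK K)ˣ) : MK K) =
      (((Lu K) ^ (-(ν : ℤ)) : (MK K)ˣ) : MK K) * (((Lu K)⁻¹ : (MK K)ˣ) : MK K) ^ N := by
    rw [zpow_sub, Units.val_mul, zpow_natCast, ← inv_pow, Units.val_pow_eq_pow_val]
  rw [h, map_mul]
  ring

theorem rescale_aeval {K : Type} [Field K] (Q : MvPolynomial (ℕ × ℕ) (MK K)) :
    PowerSeries.rescale (((Lu K)⁻¹ : (MK K)ˣ) : MK K)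
      (aeval (fun p : ℕ × ℕ => Fz K (p.1 + 1) (p.2 + 1)) Q) =
    aeval (fun p : ℕ × ℕ => Fz K (p.1 + 1) (p.2 + 1))
      (rename (fun p : ℕ × ℕ => (p.1, p.2 + p.1 + 1)) Q) := by
  rw [aeval_rename]
  induction Q using MvPolynomial.induction_on with
  | C a =>
    rw [aeval_C, aeval_C, PowerSeries.algebraMap_apply, Algebra.algebraMap_self, RingHom.id_apply,
      rescale_C']
  | add p q hp hq => rw [map_add, map_add, map_add, hp, hq]
  | mul_X p i hp =>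
    rw [map_mul, map_mul, map_mul, hp, aeval_X, aeval_X, rescale_Fz _ _ (Nat.succ_pos _)]
    congr 2
    show i.2 + 1 + (i.1 + 1) = i.2 + i.1 + 1 + 1
    ring

theorem aeval_C' {K : Type} [Field K] (g : ℕ × ℕ → PowerSeries (MK K)) (a : MK K) :
    aeval g (C a : MvPolynomial (ℕ × ℕ) (MK K)) = PowerSeries.C a := by
  rw [aeval_C, PowerSeries.algebraMap_apply, Algebra.algebraMap_self, RingHom.id_apply]

theorem isTop_add {χ : MK ℂ →+* ℂ} {Z Z' : PowerSeries (MK ℂ)} {R R' : RatFunc ℂ}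
    (h : IsTop χ Z R) (h' : IsTop χ Z' R') : IsTop χ (Z + Z') (R + R') := by
  obtain ⟨Q, rfl, rfl⟩ := h
  obtain ⟨Q', rfl, rfl⟩ := h'
  exact ⟨Q + Q', by rw [map_add], by rw [eval₂_add]⟩

theorem isTop_mul {χ : MK ℂ →+* ℂ} {Z Z' : PowerSeries (MK ℂ)} {R R' : RatFunc ℂ}
    (h : IsTop χ Z R) (h' : IsTop χ Z' R') : IsTop χ (Z * Z') (R * R') := by
  obtain ⟨Q, rfl, rfl⟩ := h
  obtain ⟨Q', rfl, rfl⟩ := h'
  exact ⟨Q * Q', by rw [map_mul], by rw [eval₂_mul]⟩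

theorem isTop_C (χ : MK ℂ →+* ℂ) (a : MK ℂ) : IsTop χ (PowerSeries.C a)
    (algebraMap (Polynomial ℂ) (RatFunc ℂ) (Polynomial.C (χ a))) := by
  refine ⟨C a, (aeval_C' _ a).symm, ?_⟩
  rw [eval₂_C, RingHom.comp_apply, IsScalarTower.algebraMap_apply ℂ (Polynomial ℂ) (RatFunc ℂ)]
  rfl

theorem isTop_one (χ : MK ℂ →+* ℂ) : IsTop χ 1 1 := by
  have h := isTop_C χ 1
  simpa using h

theorem isTop_neg {χ : MK ℂ →+* ℂ} {Z : PowerSeries (MK ℂ)} {R : RatFunc ℂ}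
    (h : IsTop χ Z R) : IsTop χ (-Z) (-R) := by
  obtain ⟨Q, rfl, rfl⟩ := h
  exact ⟨-Q, by rw [map_neg], by rw [← coe_eval₂Hom, map_neg]⟩

theorem isTop_F (χ : MK ℂ →+* ℂ) : IsTop χ (Fz ℂ 1 1) (ft (0, 0)) :=
  ⟨X (0, 0), by rw [aeval_X], by rw [eval₂_X]⟩

theorem isTop_cL {χ : MK ℂ →+* ℂ} (hχ : χ ((Lu ℂ : (MK ℂ)ˣ) : MK ℂ) = 1) :
    IsTop χ (cL ℂ) 1 := by
  have h := isTop_C χ ((Lu ℂ : (MK ℂ)ˣ) : MK ℂ)
  rw [hχ] at h
  simpa [cL] using h

theorem isTop_rescale {χ : MK ℂ →+* ℂ} {Z : PowerSeries (MK ℂ)} {R : RatFunc ℂ}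
    (h : IsTop χ Z R) :
    IsTop χ (PowerSeries.rescale (((Lu ℂ)⁻¹ : (MK ℂ)ˣ) : MK ℂ) Z) (shR 1 R) := by
  obtain ⟨Q, rfl, rfl⟩ := h
  exact ⟨_, rescale_aeval Q, shR_eval χ Q⟩

/-- the global formula -/
theorem isTop_glob {χ : MK ℂ →+* ℂ} (hχ : χ ((Lu ℂ : (MK ℂ)ˣ) : MK ℂ) = 1)
    {Z : PowerSeries (MK ℂ)} {R : RatFunc ℂ} (h : IsTop χ Z R) (w : MK ℂ) :
    IsTop χ (PowerSeries.C w * (cL ℂ - 1 + Fz ℂ 1 1) ^ 2 +
        (1 - Fz ℂ 1 1) * (cL ℂ + Fz ℂ 1 1) *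
          PowerSeries.rescale (((Lu ℂ)⁻¹ : (MK ℂ)ˣ) : MK ℂ) Z) (topStep (χ w) R) := by
  have h1 := isTop_add (isTop_mul (isTop_C χ w) (isTop_mul
    (isTop_add (isTop_add (isTop_cL hχ) (isTop_neg (isTop_one χ))) (isTop_F χ))
    (isTop_add (isTop_add (isTop_cL hχ) (isTop_neg (isTop_one χ))) (isTop_F χ))))
    (isTop_mul (isTop_mul (isTop_add (isTop_one χ) (isTop_neg (isTop_F χ)))
      (isTop_add (isTop_cL hχ) (isTop_F χ))) (isTop_rescale h))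
  unfold topStep
  convert h1 using 1 <;> ring

/-- the local formula -/
theorem isTop_loc {χ : MK ℂ →+* ℂ} (hχ : χ ((Lu ℂ : (MK ℂ)ˣ) : MK ℂ) = 1)
    {Z : PowerSeries (MK ℂ)} {R : RatFunc ℂ} (h : IsTop χ Z R) (w : MK ℂ) :
    IsTop χ (PowerSeries.C w * Fz ℂ 1 1 ^ 2 +
        (1 - Fz ℂ 1 1) * (cL ℂ + Fz ℂ 1 1) *
          PowerSeries.rescale (((Lu ℂ)⁻¹ : (MK ℂ)ˣ) : MK ℂ) Z) (topStep (χ w) R) := by
  have h1 := isTop_add (isTop_mul (isTop_C χ w) (isTop_mul (isTop_F χ) (isTop_F χ)))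
    (isTop_mul (isTop_mul (isTop_add (isTop_one χ) (isTop_neg (isTop_F χ)))
      (isTop_add (isTop_cL hχ) (isTop_F χ))) (isTop_rescale h))
  unfold topStep
  convert h1 using 1 <;> ring

/-- the formula for ideals -/
theorem isTop_ideal {χ : MK ℂ →+* ℂ} (hχ : χ ((Lu ℂ : (MK ℂ)ˣ) : MK ℂ) = 1)
    {Z : PowerSeries (MK ℂ)} {R : RatFunc ℂ} (h : IsTop χ Z R) (w : MK ℂ) :
    IsTop χ (PowerSeries.C w * (cL ℂ - 1 + Fz ℂ 1 1) +
        (1 - Fz ℂ 1 1) * PowerSeries.rescale (((Lu ℂ)⁻¹ : (MK ℂ)ˣ) : MK ℂ) Z)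
      (topStepI (χ w) R) := by
  have h1 := isTop_add (isTop_mul (isTop_C χ w)
    (isTop_add (isTop_add (isTop_cL hχ) (isTop_neg (isTop_one χ))) (isTop_F χ)))
    (isTop_mul (isTop_add (isTop_one χ) (isTop_neg (isTop_F χ))) (isTop_rescale h))
  unfold topStepI
  convert h1 using 1 <;> ring

end Pool.Agent.N101.CB
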