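import Pool.Agent.N101.CB.Chain
import Pool.Agent.N101.CB.Mot
import Pool.Agent.N101.CB.Top
import Pool.Agent.N101.CB.Psi
import Pool.Agent.N101.CB.Idl
import Pool.Agent.N101.CB.Idd
import Pool.Agent.N101.CB.BG
import Pool.Agent.N101.CB.BL
import Pool.Agent.W417.MT.Free

/-!
# Project CUB: main theorems
-/

set_option autoImplicit false

namespace Pool.Agent.N101.CB

open MvPolynomial Pool.Agent.W428.MOT
open Pool.Agent.W375.MG (JetG Good)
open Pool.Agent.Y229.MS (addyz Wyz CE)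
open Pool.Agent.W63.MTFin (mapMeas L_mul C_mem)
open Pool.Agent.H628R4.TP (IsBFunction IsLocalBFunction)

theorem ce_Un {K : Type} [Field K] : CE (Un K) :=
  Pool.Agent.Y229.MS.ce_good Pool.Agent.W375.MG.good_units

theorem clM_meas (K : Type) [Field K] [CharZero K] : ∃ M : Meas K (MK K),
    ∀ (ι : Type) [Fintype ι] (S : Set (Pt K ι)), M.χ ι S = clM S := by
  obtain ⟨M₀, hM₀⟩ := Pool.Agent.W417.MT.K0.main K
  refine ⟨mapMeas M₀ (algebraMap (K0 K) (MK K)), fun ι _ S => ?_⟩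
  change algebraMap (K0 K) (MK K) (M₀.χ ι S) = _
  rw [hM₀]
  rfl

theorem zt_psi {K : Type} [Field K] [CharZero K] {n : ℕ} (f u v : MvPolynomial (Fin n) K)
    {W : Set (Pt K (Fin n))} (hW : Constr W) :
    zt (stp f u v) (Wyz W) = zt (addyz f) (Wyz W) := by
  obtain ⟨M, hM⟩ := clM_meas K
  ext N
  rw [zt, zt, PowerSeries.coeff_mk, PowerSeries.coeff_mk, ← hM, ← hM,
    (psi K _ M f u v W (Un K) hW ce_Un N).1]

theorem zt_psi' {K : Type} [Field K] [CharZero K] {n : ℕ} (f u v : MvPolynomial (Fin n) K)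
    {W : Set (Pt K (Fin n))} (hW : Constr W) (h : ∀ z ∈ W, aeval z u = 0 ∧ aeval z v = 0) :
    zt (stp f u v) (Wo W) = zt (addyz f) (Wo W) := by
  obtain ⟨M, hM⟩ := clM_meas K
  ext N
  rw [zt, zt, PowerSeries.coeff_mk, PowerSeries.coeff_mk, ← hM, ← hM,
    (psi K _ M f u v W (Un K) hW ce_Un N).2 h]

theorem wyz_univ {K : Type} [Field K] {n : ℕ} :
    Wyz (Set.univ : Set (Pt K (Fin n))) = Set.univ := by
  ext w
  simp [Wyz]

theorem wo_zero {K : Type} [Field K] {n : ℕ} :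
    Wo ({0} : Set (Pt K (Fin n))) = {0} := by
  ext w
  simp only [Wo, Set.mem_ofPred_eq, Set.mem_singleton_iff]
  constructor
  · rintro ⟨h1, h2, h3⟩
    funext i
    refine Fin.addCases (fun i => ?_) (fun i => ?_) i
    · exact congrFun h1 i
    · fin_cases i
      · exact h2
      · exact h3
  · rintro rfl
    exact ⟨rfl, rfl, rfl⟩

theorem constr_zero {K : Type} [Field K] {n : ℕ} : Constr ({0} : Set (Pt K (Fin n))) := by
  have h : ({0} : Set (Pt K (Fin n))) = ⋂ i : Fin n, {z | z i = 0} := by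
    ext z
    simp only [Set.mem_singleton_iff, Set.mem_iInter, Set.mem_ofPred_eq]
    exact ⟨fun h i => by rw [h]; rfl, fun h => funext h⟩
  rw [h]
  have h2 : ∀ s : Finset (Fin n), Constr (⋂ i ∈ s, {z : Pt K (Fin n) | z i = 0}) := by
    classical
    intro s
    induction s using Finset.induction_on with
    | empty => simpa using Constr.univ (K := K)
    | insert a s _ ih =>
      rw [Finset.set_biInter_insert]
      exact Constr.inter (Constr.eqz (IsPF.coord a)) ih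
  simpa using h2 Finset.univ

theorem zero_aeval {K : Type} [Field K] {n : ℕ} (f : MvPolynomial (Fin n) K)
    (h : constantCoeff f = 0) : ∀ z ∈ ({0} : Set (Pt K (Fin n))), aeval z f = 0 := by
  intro z hz
  rw [Set.mem_singleton_iff.1 hz]
  have h1 := aeval_zero (R := K) (S₁ := AlgebraicClosure K) f
  rw [h, map_zero] at h1
  exact h1

section
variable (K : Type) [Field K] [CharZero K]

theorem clM_full : ∃ M : Meas K (MK K),
    (∀ (ι : Type) [Fintype ι] (S : Set (Pt K ι)), M.χ ι S = clM S) ∧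
      M.L = ((Lu K : (MK K)ˣ) : MK K) := by
  obtain ⟨M₀, hM₀⟩ := Pool.Agent.W417.MT.K0.main K
  refine ⟨mapMeas M₀ (algebraMap (K0 K) (MK K)), fun ι _ S => ?_, ?_⟩
  · change algebraMap (K0 K) (MK K) (M₀.χ ι S) = _
    rw [hM₀]
    rfl
  · have h1 := L_mul hM₀
    have h2 : ((Lu K : (MK K)ˣ) : MK K) * (((Lu K)⁻¹ : (MK K)ˣ) : MK K) = 1 := Units.mul_inv _
    calc (mapMeas M₀ (algebraMap (K0 K) (MK K))).L
        = (mapMeas M₀ (algebraMap (K0 K) (MK K))).L *
          (((Lu K : (MK K)ˣ) : MK K) * (((Lu K)⁻¹ : (MK K)ˣ) : MK K)) := by rw [h2, mul_one]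
      _ = ((mapMeas M₀ (algebraMap (K0 K) (MK K))).L * (((Lu K)⁻¹ : (MK K)ˣ) : MK K)) *
          ((Lu K : (MK K)ˣ) : MK K) := by ring
      _ = _ := by rw [h1, one_mul]

/-- the class of a point -/
theorem clM_zero (n : ℕ) : clM ({0} : Set (Pt K (Fin n))) = 1 := by
  obtain ⟨M, hM, -⟩ := clM_full K
  rw [← hM, ← M.point (ι := Fin 0)]
  refine M.iso _ _ constr_zero Constr.univ (fun _ i => i.elim0) (fun _ _ => 0)
    (regularOn_poly (fun i => i.elim0) _) (regularOn_poly (fun _ => IsPF.zero) _) ?_ ?_ ?_ ?_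
  · intro z _
    exact Set.mem_univ _
  · intro z _
    exact Set.mem_singleton_iff.2 rfl
  · intro z hz
    rw [Set.mem_singleton_iff.1 hz]
    rfl
  · intro w _
    funext i
    exact i.elim0

/-- the class of the affine space -/
theorem clM_univ (n : ℕ) : clM (Set.univ : Set (Pt K (Fin n))) =
    ((Lu K : (MK K)ˣ) : MK K) ^ n := by
  classical
  obtain ⟨M, hM, hL⟩ := clM_full K
  have h := Pool.Agent.W417.MT.Free.free_one (M := M) (Finset.univ : Finset (Fin n))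
    (fun _ => (0 : K)) Set.univ Constr.univ (fun _ _ _ _ => Set.mem_univ _)
  have h1 : (Set.univ : Set (Pt K (Fin n))) ∩
      {z | ∀ i ∈ (Finset.univ : Finset (Fin n)), z i = algebraMap K (AlgebraicClosure K) 0} =
      {0} := by
    ext z
    simp only [Set.univ_inter, Set.mem_ofPred_eq, Finset.mem_univ, true_implies, map_zero,
      Set.mem_singleton_iff]
    exact ⟨fun h => funext h, fun h i => by rw [h]; rfl⟩
  rw [h1, hM, hM, clM_zero, one_mul, Finset.card_univ, Fintype.card_fin, hL] at h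
  exact h

end

section
variable {n : ℕ} (f u v : MvPolynomial (Fin n) ℂ)

/-- the zeta functions of a step -/
theorem zt_glob : zt (stp f u v) Set.univ =
    PowerSeries.C (clM (Set.univ : Set (Pt ℂ (Fin n)))) * (cL ℂ - 1 + Fz ℂ 1 1) ^ 2 +
      (1 - Fz ℂ 1 1) * (cL ℂ + Fz ℂ 1 1) *
        PowerSeries.rescale (((Lu ℂ)⁻¹ : (MK ℂ)ˣ) : MK ℂ) (zt f Set.univ) := by
  rw [← idd ℂ f Set.univ Constr.univ, ← zt_psi f u v Constr.univ, wyz_univ]

/-- the local zeta functions of a step -/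
theorem zt_loc (hf : constantCoeff f = 0) (hu : constantCoeff u = 0) (hv : constantCoeff v = 0) :
    zt (stp f u v) {0} =
    PowerSeries.C (clM ({0} : Set (Pt ℂ (Fin n)))) * Fz ℂ 1 1 ^ 2 +
      (1 - Fz ℂ 1 1) * (cL ℂ + Fz ℂ 1 1) *
        PowerSeries.rescale (((Lu ℂ)⁻¹ : (MK ℂ)ˣ) : MK ℂ) (zt f {0}) := by
  rw [← idl_of idd loc ℂ f {0} constr_zero (zero_aeval f hf), ← zt_psi' f u v constr_zero
    (fun z hz => ⟨zero_aeval u hu z hz, zero_aeval v hv z hz⟩), wo_zero]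

end

/-- `s₀` is a pole of the motivic zeta function `Z` -/
def IsPole (Z : PowerSeries (MK ℂ)) (s₀ : ℚ) : Prop :=
  Z ∉ ratRing ℂ {p | 0 < p.2 ∧ (p.1 : ℚ) / p.2 ≠ s₀}

/-- The formula `(s + κ) ((s + 1) R'(s) - 1) = s ((s + κ + 1) R(s + κ) - 1)`. -/
def TF (κ : ℕ) (R R' : RatFunc ℂ) : Prop :=
  (RatFunc.X + (κ : RatFunc ℂ)) * ((RatFunc.X + 1) * R' - 1) =
    RatFunc.X * ((RatFunc.X + (κ : RatFunc ℂ) + 1) * shR (κ : ℂ) R - 1)

theorem shR_X (a : ℂ) : shR a RatFunc.X = RatFunc.X + algebraMap ℂ (RatFunc ℂ) a := by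
  rw [← RatFunc.algebraMap_X, shR_poly, Polynomial.X_comp, map_add,
    IsScalarTower.algebraMap_apply ℂ (Polynomial ℂ) (RatFunc ℂ)]
  rfl

theorem shR_zero (R : RatFunc ℂ) : shR 0 R = R := by
  obtain ⟨p, q, hq, rfl⟩ := IsFractionRing.div_surjective (A := Polynomial ℂ) R
  rw [map_div₀, shR_poly, shR_poly]
  simp

theorem shR_add (a b : ℂ) (R : RatFunc ℂ) : shR a (shR b R) = shR (a + b) R := by
  obtain ⟨p, q, hq, rfl⟩ := IsFractionRing.div_surjective (A := Polynomial ℂ) R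
  rw [map_div₀, map_div₀, map_div₀, shR_poly, shR_poly, shR_poly, shR_poly, shR_poly, shR_poly,
    Polynomial.comp_assoc, Polynomial.comp_assoc]
  simp [add_assoc]

theorem lin_ne (a : ℂ) : (RatFunc.X + algebraMap ℂ (RatFunc ℂ) a : RatFunc ℂ) ≠ 0 := by
  have h : (Polynomial.X + Polynomial.C a : Polynomial ℂ).eval (1 - a) ≠ 0 := by simp
  have h1 := ne0 h
  rwa [map_add, RatFunc.algebraMap_X] at h1

theorem TF.refl (R : RatFunc ℂ) : TF 0 R R := by
  unfold TF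
  rw [Nat.cast_zero, Nat.cast_zero, shR_zero]
  ring

theorem TF.one (R : RatFunc ℂ) : TF 1 R (topStep 1 R) := by
  unfold TF topStep
  rw [ft00, map_add, RatFunc.algebraMap_X]
  simp only [map_one, Nat.cast_one]
  have h := lin_ne 1
  rw [map_one] at h
  field_simp
  ring

theorem TF.comp {R S T : RatFunc ℂ} (κ : ℕ) (h1 : TF 1 R S) (h2 : TF κ S T) :
    TF (κ + 1) R T := by
  unfold TF at *
  have h3 := congrArg (shR (κ : ℂ)) h1
  rw [map_mul, map_mul, map_sub, map_sub, map_mul, map_mul, map_add, map_add, map_add, map_add,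
    map_one, Nat.cast_one, Nat.cast_one, map_one, shR_X, shR_add, map_natCast] at h3
  have h4 := lin_ne (κ : ℂ)
  rw [map_natCast] at h4
  apply mul_left_cancel₀ h4
  push_cast
  linear_combination (RatFunc.X + (κ : RatFunc ℂ) + 1) * h2 + RatFunc.X * h3

/-- All the relations between `f` and its cubic `F`, in `n + 2 κ` variables. -/
structure Rl {n m : ℕ} (f : MvPolynomial (Fin n) ℂ) (F : MvPolynomial (Fin m) ℂ) (κ : ℕ) :
    Prop where
  deg : f.totalDegree ≠ 0 → F.totalDegree ≠ 0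
  const : constantCoeff f = 0 → constantCoeff F = 0
  pole : ∀ s₀ : ℚ, s₀ < 0 → s₀ ≠ -1 → IsPole (zt f Set.univ) s₀ → IsPole (zt F Set.univ) (s₀ - κ)
  lpole : constantCoeff f = 0 → ∀ s₀ : ℚ, s₀ < 0 → s₀ ≠ -1 → IsPole (zt f {0}) s₀ →
    IsPole (zt F {0}) (s₀ - κ)
  b : f.totalDegree ≠ 0 → ∀ b : Polynomial ℂ, IsBFunction f b → b.eval (-1) = 0 ∧
    ∀ c : Polynomial ℂ, b = (Polynomial.X + 1) * c →
      IsBFunction F ((Polynomial.X + 1) * c.comp (Polynomial.X + Polynomial.C (κ : ℂ)))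
  lb : f.totalDegree ≠ 0 → constantCoeff f = 0 → ∀ b : Polynomial ℂ, IsLocalBFunction f b →
    b.eval (-1) = 0 ∧ ∀ c : Polynomial ℂ, b = (Polynomial.X + 1) * c →
      IsLocalBFunction F ((Polynomial.X + 1) * c.comp (Polynomial.X + Polynomial.C (κ : ℂ)))
  top : ∀ χ : MK ℂ →+* ℂ, χ ((Lu ℂ : (MK ℂ)ˣ) : MK ℂ) = 1 → ∀ R : RatFunc ℂ,
    IsTop χ (zt f Set.univ) R → ∃ R' : RatFunc ℂ, IsTop χ (zt F Set.univ) R' ∧ TF κ R R' ∧
      ∀ s : ℂ, s ≠ -1 → ¬ Reg R s → ¬ Reg R' (s - κ)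
  ltop : constantCoeff f = 0 → ∀ χ : MK ℂ →+* ℂ, χ ((Lu ℂ : (MK ℂ)ˣ) : MK ℂ) = 1 →
    ∀ R : RatFunc ℂ, IsTop χ (zt f {0}) R → ∃ R' : RatFunc ℂ, IsTop χ (zt F {0}) R' ∧ TF κ R R' ∧
      ∀ s : ℂ, s ≠ -1 → ¬ Reg R s → ¬ Reg R' (s - κ)

theorem ne_of_pole {χ : MK ℂ →+* ℂ} {Z : PowerSeries (MK ℂ)} {R : RatFunc ℂ}
    (h : IsTop χ Z R) {s : ℂ} (hs : ¬ Reg R s) : ∃ q : ℚ, q < 0 ∧ s = (q : ℂ) := by
  by_contra hcon
  apply hs
  refine h.reg fun p hp => hcon ⟨-(((p.2 : ℚ) + 1) / ((p.1 : ℚ) + 1)), ?_, ?_⟩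
  · have h1 : (0 : ℚ) < ((p.2 : ℚ) + 1) / ((p.1 : ℚ) + 1) := by positivity
    linarith
  · have h1 : ((p.1 : ℂ) + 1) ≠ 0 := by exact_mod_cast Nat.succ_ne_zero p.1
    push_cast
    field_simp
    linear_combination hp

theorem top_aux {χ : MK ℂ →+* ℂ} {Z : PowerSeries (MK ℂ)} {R : RatFunc ℂ} (w : ℂ)
    (h : IsTop χ Z R) {s : ℂ} (h1 : s ≠ -1) (hs : ¬ Reg R s) :
    s - 1 ≠ -1 ∧ ¬ Reg (topStep w R) (s - 1) := by
  obtain ⟨q, hq, rfl⟩ := ne_of_pole h hs
  have h2 : (q : ℂ) ≠ 0 := by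
    rw [Rat.cast_ne_zero]
    exact hq.ne
  have h3 : (q : ℂ) ≠ 1 := by
    intro h4
    have h5 : q = 1 := by exact_mod_cast h4
    rw [h5] at hq
    norm_num at hq
  refine ⟨fun h4 => h2 (by linear_combination h4), fun h4 => hs (topStep_reg h2 h3 h1 h4)⟩

theorem Rl.refl {n : ℕ} (f : MvPolynomial (Fin n) ℂ) : Rl f f 0 where
  deg h := h
  const h := h
  pole s₀ _ _ h := by simpa using h
  lpole _ s₀ _ _ h := by simpa using h
  b hf b hb := by
    refine ⟨(bg f 0 0 hf b hb).1, fun c hc => ?_⟩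
    rw [Nat.cast_zero, map_zero, add_zero, Polynomial.comp_X, ← hc]
    exact hb
  lb hf h0 b hb := by
    have hf0 : f ≠ 0 := by
      rintro rfl
      exact hf totalDegree_zero
    refine ⟨(bl f 0 0 hf0 h0 (map_zero _) (map_zero _) b hb).1, fun c hc => ?_⟩
    rw [Nat.cast_zero, map_zero, add_zero, Polynomial.comp_X, ← hc]
    exact hb
  top χ _ R hR := ⟨R, hR, TF.refl R, fun s _ h => by simpa using h⟩
  ltop _ χ _ R hR := ⟨R, hR, TF.refl R, fun s _ h => by simpa using h⟩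

theorem comp_succ (c : Polynomial ℂ) (κ : ℕ) :
    (c.comp (Polynomial.X + 1)).comp (Polynomial.X + Polynomial.C (κ : ℂ)) =
      c.comp (Polynomial.X + Polynomial.C ((κ + 1 : ℕ) : ℂ)) := by
  rw [Polynomial.comp_assoc, Polynomial.add_comp, Polynomial.X_comp, Polynomial.one_comp]
  push_cast
  rw [map_add, map_one, add_assoc]

theorem Rl.step {n m : ℕ} (f u v : MvPolynomial (Fin n) ℂ) (F : MvPolynomial (Fin m) ℂ) (κ : ℕ)
    (hu : constantCoeff u = 0) (hv : constantCoeff v = 0) (h : Rl (stp f u v) F κ) :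
    Rl f F (κ + 1) where
  deg _ := h.deg (stp_deg f u v)
  const h0 := h.const (stp_const f u v h0 hu hv)
  pole s₀ h0 h1 h2 := by
    have h3 : IsPole (zt (stp f u v) Set.univ) (s₀ - 1) := by
      intro hg
      apply h2
      obtain ⟨A', hA, hA'⟩ := const_glob (K := ℂ) (clM (Set.univ : Set (Pt ℂ (Fin n)))) s₀
      exact rg_descend (zt_glob f u v) hA h0 h1 hA' hg
    have h4 := h.pole (s₀ - 1) (by linarith) (by intro h; apply h0.ne; linarith) h3
    push_cast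
    rwa [sub_sub, add_comm] at h4
  lpole hf s₀ h0 h1 h2 := by
    have h3 : IsPole (zt (stp f u v) {0}) (s₀ - 1) := by
      intro hg
      apply h2
      obtain ⟨A', hA, hA'⟩ := const_loc (K := ℂ) (clM ({0} : Set (Pt ℂ (Fin n)))) s₀
      exact rg_descend (zt_loc f u v hf hu hv) hA h0 h1 hA' hg
    have h4 := h.lpole (stp_const f u v hf hu hv) (s₀ - 1) (by linarith)
      (by intro h; apply h0.ne; linarith) h3
    push_cast
    rwa [sub_sub, add_comm] at h4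
  b hf b hb := by
    obtain ⟨h1, h2⟩ := bg f u v hf b hb
    refine ⟨h1, fun c hc => ?_⟩
    rw [← comp_succ]
    exact (h.b (stp_deg f u v) _ (h2 c hc)).2 _ rfl
  lb hf h0 b hb := by
    have hf0 : f ≠ 0 := by
      rintro rfl
      exact hf totalDegree_zero
    obtain ⟨h1, h2⟩ := bl f u v hf0 h0 hu hv b hb
    refine ⟨h1, fun c hc => ?_⟩
    rw [← comp_succ]
    exact (h.lb (stp_deg f u v) (stp_const f u v h0 hu hv) _ (h2 c hc)).2 _ rfl
  top χ hχ R hR := by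
    have h1 : IsTop χ (zt (stp f u v) Set.univ) (topStep 1 R) := by
      have h0 := isTop_glob hχ hR (clM (Set.univ : Set (Pt ℂ (Fin n))))
      have hw : χ (clM (Set.univ : Set (Pt ℂ (Fin n)))) = 1 := by
        rw [clM_univ, map_pow, hχ, one_pow]
      rw [hw, ← zt_glob f u v] at h0
      exact h0
    obtain ⟨R', h2, hT, h3⟩ := h.top χ hχ _ h1
    refine ⟨R', h2, TF.comp κ (TF.one R) hT, fun s hs hR' => ?_⟩
    obtain ⟨h4, h5⟩ := top_aux 1 hR hs hR'
    have h6 := h3 (s - 1) h4 h5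
    push_cast
    rwa [sub_sub, add_comm] at h6
  ltop hf χ hχ R hR := by
    have h1 : IsTop χ (zt (stp f u v) {0}) (topStep 1 R) := by
      have h0 := isTop_loc hχ hR (clM ({0} : Set (Pt ℂ (Fin n))))
      have hw : χ (clM ({0} : Set (Pt ℂ (Fin n)))) = 1 := by
        rw [clM_zero, map_one]
      rw [hw, ← zt_loc f u v hf hu hv] at h0
      exact h0
    obtain ⟨R', h2, hT, h3⟩ := h.ltop (stp_const f u v hf hu hv) χ hχ _ h1
    refine ⟨R', h2, TF.comp κ (TF.one R) hT, fun s hs hR' => ?_⟩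
    obtain ⟨h4, h5⟩ := top_aux 1 hR hs hR'
    have h6 := h3 (s - 1) h4 h5
    push_cast
    rwa [sub_sub, add_comm] at h6

/-- **The cubic of a polynomial.** -/
theorem exists_cubic {n : ℕ} (f : MvPolynomial (Fin n) ℂ) :
    ∃ (κ m : ℕ) (F : MvPolynomial (Fin m) ℂ), m = n + 2 * κ ∧ Cub F ∧ Rl f F κ :=
  chain (fun f F κ => Rl f F κ) (fun f => Rl.refl f)
    (fun f u v F κ hu hv h => Rl.step f u v F κ hu hv h) f

end Pool.Agent.N101.CB
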