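import Mathlib

/-!
# Project CUB: rational power series over a ring, and the elimination
-/

set_option autoImplicit false

namespace Pool.Agent.N101.CB.QG

open PowerSeries

section
variable {R R' : Type} [CommRing R] [CommRing R']

/-- The power series `1 / (1 - u ^ a T ^ b)`, for `b > 0`. -/
noncomputable def gR (u : Rˣ) (a b : ℤ) : PowerSeries R :=
  PowerSeries.invOfUnit (1 - PowerSeries.C ((u ^ a : Rˣ) : R) * PowerSeries.X ^ b.toNat) 1

/-- The subring of `R[[T]]` generated by `R`, by `T` and by the `1 / (1 - u ^ a T ^ b)`, `(a, b) ∈ S`. -/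
noncomputable def DR (u : Rˣ) (S : Set (ℤ × ℤ)) : Subalgebra R (PowerSeries R) :=
  Algebra.adjoin R ({PowerSeries.X} ∪ {g | ∃ p ∈ S, g = gR u p.1 p.2})

theorem DR_mono (u : Rˣ) {S S' : Set (ℤ × ℤ)} (h : S ⊆ S') : DR u S ≤ DR u S' := by
  refine Algebra.adjoin_mono (Set.union_subset_union le_rfl ?_)
  rintro g ⟨p, hp, rfl⟩
  exact ⟨p, h hp, rfl⟩

theorem X_mem (u : Rˣ) (S : Set (ℤ × ℤ)) : (PowerSeries.X : PowerSeries R) ∈ DR u S :=
  Algebra.subset_adjoin (Or.inl rfl)

theorem C_mem (u : Rˣ) (S : Set (ℤ × ℤ)) (a : R) : (PowerSeries.C a : PowerSeries R) ∈ DR u S := by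
  have h := (DR u S).algebraMap_mem a
  rwa [PowerSeries.algebraMap_apply, Algebra.algebraMap_self, RingHom.id_apply] at h

theorem gR_mem (u : Rˣ) {S : Set (ℤ × ℤ)} {p : ℤ × ℤ} (hp : p ∈ S) : gR u p.1 p.2 ∈ DR u S :=
  Algebra.subset_adjoin (Or.inr ⟨p, hp, rfl⟩)

theorem gR_mul (u : Rˣ) (a b : ℤ) (hb : 0 < b) :
    (1 - PowerSeries.C ((u ^ a : Rˣ) : R) * PowerSeries.X ^ b.toNat) * gR u a b = 1 := by
  refine PowerSeries.mul_invOfUnit _ 1 ?_
  have h : b.toNat ≠ 0 := by omega
  simp [h]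

theorem gR_unique (u : Rˣ) (a b : ℤ) (hb : 0 < b) {z : PowerSeries R}
    (h : (1 - PowerSeries.C ((u ^ a : Rˣ) : R) * PowerSeries.X ^ b.toNat) * z = 1) :
    z = gR u a b := by
  have h1 := gR_mul u a b hb
  calc z = ((1 - PowerSeries.C ((u ^ a : Rˣ) : R) * PowerSeries.X ^ b.toNat) * gR u a b) * z := by
        rw [h1, one_mul]
    _ = ((1 - PowerSeries.C ((u ^ a : Rˣ) : R) * PowerSeries.X ^ b.toNat) * z) * gR u a b := by ring
    _ = gR u a b := by rw [h, one_mul]

theorem map_gR (φ : R →+* R') (u : Rˣ) (a b : ℤ) (hb : 0 < b) :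
    PowerSeries.map φ (gR u a b) = gR (Units.map (φ : R →* R') u) a b := by
  refine gR_unique _ a b hb ?_
  have h := congrArg (PowerSeries.map φ) (gR_mul u a b hb)
  rw [map_mul, map_sub, map_one, map_mul, map_pow, PowerSeries.map_X, PowerSeries.map_C] at h
  rw [← map_zpow, Units.coe_map]
  exact h

theorem map_mem (φ : R →+* R') (u : Rˣ) {S : Set (ℤ × ℤ)} (hS : ∀ p ∈ S, 0 < p.2)
    {z : PowerSeries R} (hz : z ∈ DR u S) :
    PowerSeries.map φ z ∈ DR (Units.map (φ : R →* R') u) S := by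
  unfold DR at hz
  refine Algebra.adjoin_induction (p := fun z _ =>
    PowerSeries.map φ z ∈ DR (Units.map (φ : R →* R') u) S) ?_ ?_ ?_ ?_ hz
  · rintro x (hx | ⟨p, hp, rfl⟩)
    · rw [Set.mem_singleton_iff] at hx
      rw [hx, PowerSeries.map_X]
      exact X_mem _ _
    · rw [map_gR φ u _ _ (hS p hp)]
      exact gR_mem _ hp
  · intro r
    rw [PowerSeries.algebraMap_apply, Algebra.algebraMap_self, RingHom.id_apply,
      PowerSeries.map_C]
    exact C_mem _ _ _
  · intro x y _ _ hx hy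
    rw [map_add]
    exact (DR _ _).add_mem hx hy
  · intro x y _ _ hx hy
    rw [map_mul]
    exact (DR _ _).mul_mem hx hy

theorem resc_X (a : R) : PowerSeries.rescale a PowerSeries.X = PowerSeries.C a * PowerSeries.X := by
  ext n
  rw [PowerSeries.coeff_rescale, PowerSeries.coeff_C_mul, PowerSeries.coeff_X]
  split_ifs with h
  · rw [h, pow_one]
  · rw [mul_zero, mul_zero]

theorem resc_C (a b : R) : PowerSeries.rescale a (PowerSeries.C b) = PowerSeries.C b := by
  ext n
  rw [PowerSeries.coeff_rescale, PowerSeries.coeff_C]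
  split_ifs with h
  · rw [h, pow_zero, one_mul]
  · rw [mul_zero]

theorem resc_gR (u : Rˣ) (a b : ℤ) (hb : 0 < b) :
    PowerSeries.rescale (u : R) (gR u a b) = gR u (a + b) b := by
  refine gR_unique _ _ b hb ?_
  have h := congrArg (PowerSeries.rescale (u : R)) (gR_mul u a b hb)
  rw [map_mul, map_sub, map_one, map_mul, map_pow, resc_X, resc_C] at h
  have e : PowerSeries.C ((u ^ (a + b) : Rˣ) : R) * (PowerSeries.X : PowerSeries R) ^ b.toNat =
      PowerSeries.C ((u ^ a : Rˣ) : R) *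
        (PowerSeries.C (u : R) * (PowerSeries.X : PowerSeries R)) ^ b.toNat := by
    rw [mul_pow, ← map_pow, ← mul_assoc, ← map_mul, ← Units.val_pow_eq_pow_val, ← Units.val_mul,
      zpow_add]
    congr 4
    rw [← zpow_natCast, Int.toNat_of_nonneg hb.le]
  rw [e]
  exact h

theorem resc_mem (u : Rˣ) {S : Set (ℤ × ℤ)} (hS : ∀ p ∈ S, 0 < p.2) {z : PowerSeries R}
    (hz : z ∈ DR u S) :
    PowerSeries.rescale (u : R) z ∈ DR u ((fun p : ℤ × ℤ => (p.1 + p.2, p.2)) '' S) := by
  unfold DR at hz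
  refine Algebra.adjoin_induction (p := fun z _ => PowerSeries.rescale (u : R) z ∈
    DR u ((fun p : ℤ × ℤ => (p.1 + p.2, p.2)) '' S)) ?_ ?_ ?_ ?_ hz
  · rintro x (hx | ⟨p, hp, rfl⟩)
    · rw [Set.mem_singleton_iff] at hx
      rw [hx, resc_X]
      exact (DR _ _).mul_mem (C_mem _ _ _) (X_mem _ _)
    · rw [resc_gR _ _ _ (hS p hp)]
      exact gR_mem u (p := (p.1 + p.2, p.2)) ⟨p, hp, rfl⟩
  · intro r
    rw [PowerSeries.algebraMap_apply, Algebra.algebraMap_self, RingHom.id_apply, resc_C]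
    exact C_mem _ _ _
  · intro x y _ _ hx hy
    rw [map_add]
    exact (DR _ _).add_mem hx hy
  · intro x y _ _ hx hy
    rw [map_mul]
    exact (DR _ _).mul_mem hx hy

/-! ### Elimination -/

theorem coeff_one_sub (a : R) (F : ℕ → R) (N : ℕ) :
    PowerSeries.coeff (N + 1) ((1 - PowerSeries.C a * PowerSeries.X) * PowerSeries.mk F) =
      F (N + 1) - a * F N := by
  rw [sub_mul, one_mul, map_sub, PowerSeries.coeff_mk, mul_assoc, PowerSeries.coeff_C_mul,
    PowerSeries.coeff_succ_X_mul, PowerSeries.coeff_mk]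

theorem coeff_one_sub_zero (a : R) (F : ℕ → R) :
    PowerSeries.coeff 0 ((1 - PowerSeries.C a * PowerSeries.X) * PowerSeries.mk F) = F 0 := by
  rw [sub_mul, one_mul, map_sub, PowerSeries.coeff_mk, mul_assoc, PowerSeries.coeff_C_mul,
    PowerSeries.coeff_zero_X_mul, mul_zero, sub_zero]

/-- the partial sums -/
noncomputable def SS (τ : ℕ → R) (N : ℕ) : R := ∑ j ∈ Finset.Icc 2 N, τ j

/-- the weighted partial sums -/
noncomputable def PP (l : R) (τ : ℕ → R) (N : ℕ) : R := ∑ j ∈ Finset.Icc 2 N, l ^ (N + 1 - j) * τ j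

theorem ss_ser (τ : ℕ → R) : (1 - PowerSeries.C (1 : R) * PowerSeries.X) * PowerSeries.mk (SS τ) =
    PowerSeries.mk fun N => if 2 ≤ N then τ N else 0 := by
  ext N
  cases N with
  | zero =>
    rw [coeff_one_sub_zero, PowerSeries.coeff_mk]
    simp [SS]
  | succ N =>
    rw [coeff_one_sub, PowerSeries.coeff_mk]
    unfold SS
    by_cases h : 2 ≤ N + 1
    · rw [if_pos h, Finset.sum_Icc_succ_top h]
      ring
    · rw [if_neg h, Finset.Icc_eq_empty (by omega), Finset.Icc_eq_empty (by omega)]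
      simp

theorem pp_ser (l : R) (τ : ℕ → R) :
    (1 - PowerSeries.C l * PowerSeries.X) * PowerSeries.mk (PP l τ) =
    PowerSeries.C l * PowerSeries.mk fun N => if 2 ≤ N then τ N else 0 := by
  ext N
  cases N with
  | zero =>
    rw [coeff_one_sub_zero, PowerSeries.coeff_C_mul, PowerSeries.coeff_mk]
    simp [PP]
  | succ N =>
    rw [coeff_one_sub, PowerSeries.coeff_C_mul, PowerSeries.coeff_mk]
    unfold PP
    by_cases h : 2 ≤ N + 1
    · rw [if_pos h, Finset.sum_Icc_succ_top h, Finset.mul_sum]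
      have e : ∑ j ∈ Finset.Icc 2 N, l ^ (N + 1 + 1 - j) * τ j =
          ∑ j ∈ Finset.Icc 2 N, l * (l ^ (N + 1 - j) * τ j) := by
        refine Finset.sum_congr rfl fun j hj => ?_
        have h1 := (Finset.mem_Icc.1 hj).2
        rw [show N + 1 + 1 - j = (N + 1 - j) + 1 by omega, pow_succ]
        ring
      rw [e, show N + 1 + 1 - (N + 1) = 1 by omega]
      ring
    · rw [if_neg h, Finset.Icc_eq_empty (by omega), Finset.Icc_eq_empty (by omega)]
      simp

/-- **Elimination.** -/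
theorem elim {l y : R} (hly : l * y = 1) (α τ β1 β2 : ℕ → R) (hα : α 0 = 0) (h10 : β1 0 = 0)
    (h20 : β2 0 = 0)
    (h1 : ∀ N, 1 ≤ N → β1 N = (l - 1) * y ^ N * ∑ j ∈ Finset.Icc 2 N, τ j + l * y ^ N * α N)
    (h2 : ∀ N, 1 ≤ N → β2 N = (l ^ 2 - 1) * ∑ j ∈ Finset.Icc 2 N, y ^ (N - 1 + j) * τ j +
      l ^ 2 * y ^ (2 * N) * α N) :
    PowerSeries.C l ^ 3 * ((1 - PowerSeries.C y * PowerSeries.X) * PowerSeries.mk α) =
      (PowerSeries.C l ^ 2 + PowerSeries.C l) * PowerSeries.rescale l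
        ((1 - PowerSeries.C y * PowerSeries.X) * PowerSeries.mk β1) -
      PowerSeries.rescale l (PowerSeries.rescale l
        ((1 - PowerSeries.C y * PowerSeries.X) * PowerSeries.mk β2)) := by
  have hpow : ∀ N : ℕ, l ^ N * y ^ N = 1 := fun N => by rw [← mul_pow, hly, one_pow]
  have e1 : PowerSeries.rescale l (PowerSeries.mk β1) =
      PowerSeries.C (l - 1) * PowerSeries.mk (SS τ) + PowerSeries.C l * PowerSeries.mk α := by
    ext N
    rw [PowerSeries.coeff_rescale, map_add, PowerSeries.coeff_C_mul, PowerSeries.coeff_C_mul,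
      PowerSeries.coeff_mk, PowerSeries.coeff_mk, PowerSeries.coeff_mk]
    rcases Nat.eq_zero_or_pos N with rfl | hN
    · simp [h10, hα, SS]
    · rw [h1 N hN, SS]
      linear_combination ((l - 1) * ∑ j ∈ Finset.Icc 2 N, τ j + l * α N) * hpow N
  have e2 : PowerSeries.rescale l (PowerSeries.rescale l (PowerSeries.mk β2)) =
      PowerSeries.C (l ^ 2 - 1) * PowerSeries.mk (PP l τ) +
        PowerSeries.C (l ^ 2) * PowerSeries.mk α := by
    ext N
    rw [PowerSeries.coeff_rescale, PowerSeries.coeff_rescale, map_add, PowerSeries.coeff_C_mul,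
      PowerSeries.coeff_C_mul,
      PowerSeries.coeff_mk, PowerSeries.coeff_mk, PowerSeries.coeff_mk]
    rcases Nat.eq_zero_or_pos N with rfl | hN
    · simp [h20, hα, PP]
    · rw [h2 N hN, PP]
      have e3 : l ^ N * (l ^ N * ∑ j ∈ Finset.Icc 2 N, y ^ (N - 1 + j) * τ j) =
          ∑ j ∈ Finset.Icc 2 N, l ^ (N + 1 - j) * τ j := by
        rw [Finset.mul_sum, Finset.mul_sum]
        refine Finset.sum_congr rfl fun j hj => ?_
        obtain ⟨h3, h4⟩ := Finset.mem_Icc.1 hj
        have h5 : l ^ N * l ^ N = l ^ (N - 1 + j) * l ^ (N + 1 - j) := by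
          rw [← pow_add, ← pow_add]
          congr 1
          omega
        have h6 := hpow (N - 1 + j)
        calc l ^ N * (l ^ N * (y ^ (N - 1 + j) * τ j))
            = (l ^ N * l ^ N) * y ^ (N - 1 + j) * τ j := by ring
          _ = (l ^ (N - 1 + j) * y ^ (N - 1 + j)) * (l ^ (N + 1 - j) * τ j) := by rw [h5]; ring
          _ = l ^ (N + 1 - j) * τ j := by rw [h6, one_mul]
      have h7 : y ^ (2 * N) = y ^ N * y ^ N := by rw [two_mul, pow_add]
      rw [h7]
      linear_combination (l ^ 2 - 1) * e3 +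
        (l ^ 2 * α N * (l ^ N * y ^ N + 1)) * hpow N
  have r1 : PowerSeries.rescale l (1 - PowerSeries.C y * PowerSeries.X) =
      1 - PowerSeries.C 1 * PowerSeries.X := by
    rw [map_sub, map_one, map_mul, resc_X, resc_C, ← mul_assoc, ← map_mul, mul_comm y, hly]
  have r2 : PowerSeries.rescale l (1 - PowerSeries.C 1 * PowerSeries.X) =
      1 - PowerSeries.C l * PowerSeries.X := by
    rw [map_sub, map_one, map_mul, resc_X, resc_C, map_one, one_mul]
  have hs := ss_ser τ
  have hp := pp_ser l τ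
  rw [map_mul, map_mul, map_mul, r1, r2, e1, e2]
  have hC : PowerSeries.C l * PowerSeries.C y = 1 := by rw [← map_mul, hly, map_one]
  rw [map_sub, map_sub, map_pow, map_one]
  rw [map_one] at hs
  set Z := PowerSeries.mk α
  set t := PowerSeries.mk fun N => if 2 ≤ N then τ N else 0
  set S := PowerSeries.mk (SS τ)
  set P := PowerSeries.mk (PP l τ)
  set c := PowerSeries.C l
  set d := PowerSeries.C y
  linear_combination (-(c ^ 2 + c) * (c - 1)) * hs + (c ^ 2 - 1) * hp -
    c ^ 2 * PowerSeries.X * Z * hC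

end

end Pool.Agent.N101.CB.QG
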