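import Pool.Agent.N101.CB.EMain
import Pool.Agent.N101.CB.QGen
import Pool.Agent.N101.CB.Epb
import Pool.Agent.N101.CB.Epsi
import Pool.Agent.N101.CB.Ehy1
import Pool.Agent.N101.CB.Ehy2
import Pool.Agent.N101.CB.Ett

/-!
# Project CUB: equivariant motivic zeta functions
-/

set_option autoImplicit false

namespace Pool.Agent.N101.CB

open MvPolynomial Pool.Agent.W428.MOT
open Pool.Agent.Y229.MS (addyz)
open Pool.Agent.H628R4.TP (IsBFunction)

namespace QM

open QG (DR)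

section
variable {k : Type} [Field k] {n m : ℕ}

theorem ratRingMu_eq (f : MvPolynomial (Fin n) k) (S : Set (ℤ × ℤ)) :
    ratRingMu f S = DR (LuMu f) S := rfl

theorem aeval_sg1_rename (u v p : MvPolynomial (Fin n) k) :
    aeval (sg1 u v) (rename (Fin.castAdd 2) p) = p := by
  rw [aeval_rename]
  have h : (sg1 u v) ∘ (Fin.castAdd 2 : Fin n → Fin (n + 2)) = X := by
    funext i
    simp [sg1, Function.comp]
  rw [h, aeval_X_left]
  rfl

theorem isSec1 (f u v : MvPolynomial (Fin n) k) : IsSec f (stp f u v) (hh1 n) (sg1 u v) where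
  sec j := by simp [hh1, sg1]
  eq := by
    unfold stp
    rw [map_add, map_mul, map_add, map_sub, aeval_sg1_rename, aeval_sg1_rename, aeval_sg1_rename,
      aeval_X, aeval_X]
    have h0 : sg1 u v (Fin.natAdd n 0) = -v := by simp [sg1]
    have h1 : sg1 u v (Fin.natAdd n 1) = u := by simp [sg1]
    rw [h0, h1]
    ring

theorem isSec2 (f u v : MvPolynomial (Fin n) k) :
    IsSec f (addyz (stp f u v)) (hh2 n) (sg2 u v) where
  sec j := by simp [hh2, sg2, sg1]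
  eq := by
    unfold addyz
    rw [map_add, map_mul, aeval_X, aeval_X, aeval_rename]
    have h : (sg2 u v) ∘ (Fin.castAdd 2 : Fin (n + 2) → Fin (n + 2 + 2)) = sg1 u v := by
      funext i
      simp [sg2, Function.comp]
    have h0 : sg2 u v (Fin.natAdd (n + 2) 0) = 0 := by simp [sg2]
    rw [h, h0, zero_mul, add_zero]
    exact (isSec1 f u v).eq

/-- the localised pull-back -/
theorem exists_loc [CharZero k] (f : MvPolynomial (Fin n) k) (F : MvPolynomial (Fin m) k)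
    (h : Fin n → Fin m) (σ : Fin m → MvPolynomial (Fin n) k) (hs : IsSec f F h σ) :
    ∃ Φ : MKMu F →+* MKMu f, Units.map (Φ : MKMu F →* MKMu f) (LuMu F) = LuMu f ∧
      ∀ (N : ℕ) (hN : 0 < N), ∃ hV : Valid f (JetS F h σ N) (jw m N) N (jbs h N),
        Φ (algebraMap (K0Mu F) (MKMu F) (K0Mu.mk (diagVar (jetValid F N hN)))) =
          algebraMap (K0Mu f) (MKMu f) (K0Mu.mk (diagVar hV)) := by
  obtain ⟨φ, h1, h2⟩ := epb k f F h σ hs
  have hu : IsUnit (((algebraMap (K0Mu f) (MKMu f)).comp φ) (LMu F)) := by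
    rw [RingHom.comp_apply, h1]
    exact IsLocalization.Away.algebraMap_isUnit (S := MKMu f) (LMu f)
  have hlift : ∀ x, IsLocalization.Away.lift (S := MKMu F) (LMu F) hu
      (algebraMap (K0Mu F) (MKMu F) x) = algebraMap (K0Mu f) (MKMu f) (φ x) := by
    intro x
    rw [IsLocalization.Away.lift_eq]
    rfl
  refine ⟨IsLocalization.Away.lift (LMu F) hu, ?_, fun N hN => ?_⟩
  · ext
    have e1 : ((LuMu F : (MKMu F)ˣ) : MKMu F) = algebraMap (K0Mu F) (MKMu F) (LMu F) :=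
      IsUnit.unit_spec _
    have e2 : ((LuMu f : (MKMu f)ˣ) : MKMu f) = algebraMap (K0Mu f) (MKMu f) (LMu f) :=
      IsUnit.unit_spec _
    rw [Units.coe_map, e1, e2]
    exact (hlift _).trans (congrArg _ h1)
  · obtain ⟨hV, h3⟩ := h2 N hN
    exact ⟨hV, by rw [hlift, h3]⟩

theorem map_zpow_unit {R R' : Type} [CommRing R] [CommRing R'] (Φ : R →+* R') {u : Rˣ} {u' : R'ˣ}
    (h : Units.map (Φ : R →* R') u = u') (a : ℤ) :
    Φ ((u ^ a : Rˣ) : R) = ((u' ^ a : R'ˣ) : R') := by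
  rw [← h, ← map_zpow, Units.coe_map]
  rfl

/-- the series of the jets with origin on the section -/
theorem map_zeta [CharZero k] (f : MvPolynomial (Fin n) k) (F : MvPolynomial (Fin m) k)
    (h : Fin n → Fin m) (σ : Fin m → MvPolynomial (Fin n) k) (hs : IsSec f F h σ)
    (M : EMeas f (K0Mu f)) (hM : ∀ (ι : Type) [Fintype ι] (S : Set (Pt k ι)) (ρ : ι → ℤ) (d : ℕ)
      (β : Fin n → Option ι) (h : Valid f S ρ d β), M.χ ι S ρ d β = K0Mu.mk (diagVar h))
    {S : Set (ℤ × ℤ)} (hS : ∀ p ∈ S, 0 < p.2)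
    (hz : (1 - PowerSeries.C (((LuMu F)⁻¹ : (MKMu F)ˣ) : MKMu F) * PowerSeries.X) * zetaMu F ∈
      ratRingMu F S) :
    (1 - PowerSeries.C (((LuMu f)⁻¹ : (MKMu f)ˣ) : MKMu f) * PowerSeries.X) *
      PowerSeries.mk (fun N => if N = 0 then 0 else
        algebraMap (K0Mu f) (MKMu f) (M.χ _ (JetS F h σ N) (jw m N) N (jbs h N)) *
          (((LuMu f) ^ (-((m * N : ℕ) : ℤ)) : (MKMu f)ˣ) : MKMu f)) ∈ ratRingMu f S := by
  obtain ⟨Φ, h1, h2⟩ := exists_loc f F h σ hs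
  rw [ratRingMu_eq] at hz ⊢
  have h3 := QG.map_mem Φ (LuMu F) hS hz
  rw [h1, map_mul, map_sub, map_one, map_mul, PowerSeries.map_X, PowerSeries.map_C] at h3
  have e1 : Φ (((LuMu F)⁻¹ : (MKMu F)ˣ) : MKMu F) = (((LuMu f)⁻¹ : (MKMu f)ˣ) : MKMu f) := by
    have := map_zpow_unit Φ h1 (-1)
    rwa [zpow_neg_one, zpow_neg_one] at this
  have e2 : PowerSeries.map Φ (zetaMu F) = PowerSeries.mk (fun N => if N = 0 then 0 else
        algebraMap (K0Mu f) (MKMu f) (M.χ _ (JetS F h σ N) (jw m N) N (jbs h N)) *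
          (((LuMu f) ^ (-((m * N : ℕ) : ℤ)) : (MKMu f)ˣ) : MKMu f)) := by
    ext N
    rw [PowerSeries.coeff_map, zetaMu, PowerSeries.coeff_mk, PowerSeries.coeff_mk]
    by_cases hN : N = 0
    · rw [dif_neg (by omega), if_pos hN, map_zero]
    · have hN' : 0 < N := Nat.pos_of_ne_zero hN
      obtain ⟨hV, h4⟩ := h2 N hN'
      rw [dif_pos hN', if_neg hN, map_mul, h4, map_zpow_unit Φ h1, hM _ _ _ _ _ hV]
  rw [e1, e2] at h3
  exact h3

/-- **One step.** -/
theorem stepE [CharZero k] (f u v : MvPolynomial (Fin n) k) {S1 S2 : Finset (ℤ × ℤ)}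
    (hS1 : ∀ p ∈ S1, 0 < p.2) (hS2 : ∀ p ∈ S2, 0 < p.2)
    (hz1 : (1 - PowerSeries.C (((LuMu (stp f u v))⁻¹ : (MKMu (stp f u v))ˣ) : MKMu (stp f u v)) *
      PowerSeries.X) * zetaMu (stp f u v) ∈ ratRingMu (stp f u v) S1)
    (hz2 : (1 - PowerSeries.C (((LuMu (addyz (stp f u v)))⁻¹ : (MKMu (addyz (stp f u v)))ˣ) :
      MKMu (addyz (stp f u v))) * PowerSeries.X) * zetaMu (addyz (stp f u v)) ∈
        ratRingMu (addyz (stp f u v)) S2) :
    (1 - PowerSeries.C (((LuMu f)⁻¹ : (MKMu f)ˣ) : MKMu f) * PowerSeries.X) * zetaMu f ∈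
      ratRingMu f (EM.pairs S1 S2) := by
  obtain ⟨M, hML, hM⟩ := Pool.Agent.W358.ME.EK0.main k f
  have m1 := map_zeta f _ _ _ (isSec1 f u v) M hM hS1 hz1
  have m2 := map_zeta f _ _ _ (isSec2 f u v) M hM hS2 hz2
  set U : (MKMu f)ˣ := LuMu f with hU
  set l : MKMu f := (U : MKMu f) with hl
  set y : MKMu f := ((U⁻¹ : (MKMu f)ˣ) : MKMu f) with hy
  set ι := algebraMap (K0Mu f) (MKMu f) with hι
  have hly : l * y = 1 := Units.mul_inv U
  have hιL : ι M.L = l := by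
    rw [hML]
    exact (IsUnit.unit_spec _).symm
  have hyp : ∀ N : ℕ, ((U ^ (-(N : ℤ)) : (MKMu f)ˣ) : MKMu f) = y ^ N := by
    intro N
    rw [hy, ← Units.val_pow_eq_pow_val, inv_pow, ← zpow_natCast, ← zpow_neg]
  set α : ℕ → MKMu f := fun N => if N = 0 then 0 else
    ι (M.χ _ (JetE f N) (jw n N) N (jb n N)) * y ^ (n * N) with hα
  set τ : ℕ → MKMu f := fun j => ι (M.χ _ (TlE f j j) (jw n j) j (jb n j)) * y ^ (n * j) with hτ
  have hzeta : zetaMu f = PowerSeries.mk α := by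
    ext N
    rw [zetaMu, PowerSeries.coeff_mk, PowerSeries.coeff_mk, hα]
    by_cases hN : N = 0
    · simp only [hN, lt_irrefl, dite_false, if_true]
    · have hN' : 0 < N := Nat.pos_of_ne_zero hN
      simp only [if_neg hN, dif_pos hN']
      have h5 := hM _ (JetE f N) (jw n N) N (jb n N) (jetValid f N hN')
      rw [h5]
      exact congrArg (fun t => ι (K0Mu.mk (diagVar (jetValid f N hN'))) * t) (hyp (n * N))
  have htl : ∀ j N : ℕ, 1 ≤ j → j ≤ N →
      ι (M.χ _ (TlE f j N) (jw n N) N (jb n N)) * y ^ (n * N) = τ j := by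
    intro j N hj hN
    induction N, hN using Nat.le_induction with
    | base => rfl
    | succ N hN ih =>
      rw [ett k f _ M j N hj hN, map_mul, map_pow, hιL, ← ih, Nat.mul_succ, pow_add]
      have h0 : l ^ n * y ^ n = 1 := by rw [← mul_pow, hly, one_pow]
      linear_combination (ι (M.χ _ (TlE f j N) (jw n N) N (jb n N)) * y ^ (n * N)) * h0
  have hpow : ∀ N : ℕ, l ^ N * y ^ N = 1 := fun N => by rw [← mul_pow, hly, one_pow]
  have hs1 : ∀ N, 1 ≤ N → ∑ j ∈ Finset.Icc 2 N,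
      ι (M.χ _ (TlE f j N) (jw n N) N (jb n N)) * y ^ (n * N) = ∑ j ∈ Finset.Icc 2 N, τ j := by
    intro N _
    refine Finset.sum_congr rfl fun j hj => ?_
    obtain ⟨h1, h2⟩ := Finset.mem_Icc.1 hj
    exact htl j N (by omega) h2
  set β1 : ℕ → MKMu f := fun N => if N = 0 then 0 else
    ι (M.χ _ (JetS (stp f u v) (hh1 n) (sg1 u v) N) (jw (n + 2) N) N (jbs (hh1 n) N)) *
      ((U ^ (-(((n + 2) * N : ℕ) : ℤ)) : (MKMu f)ˣ) : MKMu f) with hβ1
  set β2 : ℕ → MKMu f := fun N => if N = 0 then 0 else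
    ι (M.χ _ (JetS (addyz (stp f u v)) (hh2 n) (sg2 u v) N) (jw (n + 2 + 2) N) N
      (jbs (hh2 n) N)) *
      ((U ^ (-(((n + 2 + 2) * N : ℕ) : ℤ)) : (MKMu f)ˣ) : MKMu f) with hβ2
  have e1 : ∀ N, 1 ≤ N → β1 N = (l - 1) * y ^ N * ∑ j ∈ Finset.Icc 2 N, τ j +
      l * y ^ N * α N := by
    intro N hN
    have hN0 : N ≠ 0 := by omega
    rw [hβ1, hα]
    simp only [if_neg hN0]
    rw [(epsi k f _ M u v N hN).1, ehy1 k f _ M N hN, hyp, ← hs1 N hN]
    rw [map_add, map_mul, map_mul, map_mul, map_sub, map_one, map_pow, map_pow, hιL, map_sum,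
      ← Finset.sum_mul]
    have h1 : y ^ ((n + 2) * N) = y ^ (n * N) * y ^ N * y ^ N := by
      rw [← pow_add, ← pow_add]
      congr 1
      ring
    rw [h1, pow_succ]
    linear_combination ((l - 1) * y ^ N * y ^ (n * N) *
      (∑ j ∈ Finset.Icc 2 N, ι (M.χ _ (TlE f j N) (jw n N) N (jb n N))) +
      l * y ^ N * y ^ (n * N) * ι (M.χ _ (JetE f N) (jw n N) N (jb n N))) * hpow N
  have e2 : ∀ N, 1 ≤ N → β2 N = (l ^ 2 - 1) * ∑ j ∈ Finset.Icc 2 N, y ^ (N - 1 + j) * τ j +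
      l ^ 2 * y ^ (2 * N) * α N := by
    intro N hN
    have hN0 : N ≠ 0 := by omega
    rw [hβ2, hα]
    simp only [if_neg hN0]
    rw [(epsi k f _ M u v N hN).2, ehy2 k f _ M N hN, hyp]
    rw [map_add, map_mul, map_mul, map_sub, map_one, map_pow, map_pow, hιL, map_sum]
    have h1 : y ^ ((n + 2 + 2) * N) = y ^ (n * N) * y ^ (4 * N) := by
      rw [← pow_add]
      congr 1
      ring
    have h2 : ∑ j ∈ Finset.Icc 2 N, y ^ (N - 1 + j) * τ j = (∑ j ∈ Finset.Icc 2 N,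
        ι (M.L ^ (3 * N + 1 - j) * M.χ _ (TlE f j N) (jw n N) N (jb n N))) *
          (y ^ (n * N) * y ^ (4 * N)) := by
      rw [Finset.sum_mul]
      refine Finset.sum_congr rfl fun j hj => ?_
      obtain ⟨h3, h4⟩ := Finset.mem_Icc.1 hj
      rw [← htl j N (by omega) h4, map_mul, map_pow, hιL]
      have h5 : y ^ (4 * N) = y ^ (3 * N + 1 - j) * y ^ (N - 1 + j) := by
        rw [← pow_add]
        congr 1
        omega
      rw [h5]
      linear_combination (-(y ^ (N - 1 + j) * ι (M.χ _ (TlE f j N) (jw n N) N (jb n N)) *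
        y ^ (n * N))) * hpow (3 * N + 1 - j)
    have h6 : y ^ (4 * N) = y ^ (2 * N) * y ^ (2 * N) := by
      rw [← pow_add]
      congr 1
      ring
    have h7 : l ^ (2 * N + 2) = l ^ 2 * l ^ (2 * N) := by
      rw [← pow_add]
      congr 1
      ring
    rw [h2, h1, h7]
    linear_combination (l ^ 2 * l ^ (2 * N) * y ^ (n * N) *
      ι (M.χ _ (JetE f N) (jw n N) N (jb n N))) * h6 +
      (l ^ 2 * y ^ (2 * N) * y ^ (n * N) * ι (M.χ _ (JetE f N) (jw n N) N (jb n N))) *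
        hpow (2 * N)
  have h10 : β1 0 = 0 := if_pos rfl
  have h20 : β2 0 = 0 := if_pos rfl
  have hα0 : α 0 = 0 := if_pos rfl
  have key := QG.elim hly α τ β1 β2 hα0 h10 h20 e1 e2
  rw [ratRingMu_eq] at m1 m2 ⊢
  have n1 := QG.resc_mem U hS1 m1
  have n2 := QG.resc_mem U (fun p hp => by
    obtain ⟨q, hq, rfl⟩ := hp
    exact hS2 q hq) (QG.resc_mem U hS2 m2)
  have hsub1 : (fun p : ℤ × ℤ => (p.1 + p.2, p.2)) '' (S1 : Set (ℤ × ℤ)) ⊆
      (EM.pairs S1 S2 : Set (ℤ × ℤ)) := by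
    classical
    rintro _ ⟨q, hq, rfl⟩
    exact Finset.mem_coe.2 (Finset.mem_union_left _ (Finset.mem_image.2 ⟨q, hq, rfl⟩))
  have hsub2 : (fun p : ℤ × ℤ => (p.1 + p.2, p.2)) '' ((fun p : ℤ × ℤ => (p.1 + p.2, p.2)) ''
      (S2 : Set (ℤ × ℤ))) ⊆ (EM.pairs S1 S2 : Set (ℤ × ℤ)) := by
    classical
    rintro _ ⟨_, ⟨q, hq, rfl⟩, rfl⟩
    refine Finset.mem_coe.2 (Finset.mem_union_right _ (Finset.mem_image.2 ⟨q, hq, ?_⟩))
    ext
    · simp only
      ring
    · rfl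
  have n1' := QG.DR_mono U hsub1 n1
  have n2' := QG.DR_mono U hsub2 n2
  have n3 : PowerSeries.C l ^ 3 * ((1 - PowerSeries.C y * PowerSeries.X) * PowerSeries.mk α) ∈
      DR U (EM.pairs S1 S2 : Set (ℤ × ℤ)) := by
    rw [key]
    exact (DR U _).sub_mem ((DR U _).mul_mem ((DR U _).add_mem ((DR U _).pow_mem
      (QG.C_mem _ _ _) 2) (QG.C_mem _ _ _)) n1') n2'
  rw [hzeta]
  have n4 := (DR U _).mul_mem (QG.C_mem U (EM.pairs S1 S2 : Set (ℤ × ℤ)) (y ^ 3)) n3
  have e3 : PowerSeries.C (y ^ 3) * (PowerSeries.C l ^ 3 *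
      ((1 - PowerSeries.C y * PowerSeries.X) * PowerSeries.mk α)) =
      (1 - PowerSeries.C y * PowerSeries.X) * PowerSeries.mk α := by
    rw [← mul_assoc, ← map_pow PowerSeries.C l, ← map_mul, mul_comm (y ^ 3), hpow, map_one, one_mul]
  rwa [e3] at n4

end

/-! ### The refined strong form -/

section
variable {k : Type} [Field k] [Algebra k ℂ]

/-- the refined strong form, equivariant -/
def RefE {n : ℕ} (f : MvPolynomial (Fin n) k) : Prop :=
  ∃ S : Finset (ℤ × ℤ), (∀ p ∈ S, 0 < p.2 ∧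
      EM.RR (map (algebraMap k ℂ) f) ((p.1 : ℚ) / p.2)) ∧
    (1 - PowerSeries.C (((LuMu f)⁻¹ : (MKMu f)ˣ) : MKMu f) * PowerSeries.X) * zetaMu f ∈
      ratRingMu f S

theorem refE_step {n : ℕ} (f u v : MvPolynomial (Fin n) k) (hf : f.totalDegree ≠ 0)
    (h1 : RefE (stp f u v)) (h2 : RefE (addyz (stp f u v))) : RefE f := by
  have hK : CharZero k := RingHom.charZero (algebraMap k ℂ)
  obtain ⟨S1, hS1, hz1⟩ := h1
  obtain ⟨S2, hS2, hz2⟩ := h2
  have hfC : (map (algebraMap k ℂ) f).totalDegree ≠ 0 := EM.map_deg _ f hf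
  refine ⟨EM.pairs S1 S2, EM.pairs_of (P1 := EM.RR (map (algebraMap k ℂ) (stp f u v)))
    (P2 := EM.RR (map (algebraMap k ℂ) (addyz (stp f u v)))) hS1 hS2 (fun r hr => ?_)
    (fun r hr => ?_), stepE f u v (fun p hp => (hS1 p hp).1) (fun p hp => (hS2 p hp).1) hz1 hz2⟩
  · rw [EM.map_stp] at hr
    exact EM.RR_stp hfC _ _ hr
  · rw [EM.map_addyz, EM.map_stp] at hr
    have h3 := EM.RR_stp hfC _ _ (EM.RR_addyz (stp_deg _ _ _) hr)
    rwa [add_assoc, one_add_one_eq_two] at h3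

/-- **Reduction for the refined strong form, equivariant.** -/
theorem refE_red (h : ∀ (n : ℕ) (f : MvPolynomial (Fin n) k), Cub f → f.totalDegree ≠ 0 →
    RefE f) (n : ℕ) (f : MvPolynomial (Fin n) k) (hf : f.totalDegree ≠ 0) : RefE f :=
  red k (fun _ f => f.totalDegree ≠ 0 → RefE f) (fun n f hc => h n f hc)
    (fun n f u v _ _ h1 h2 hf => refE_step f u v hf (h1 (stp_deg _ _ _)) (h2 (EM.addyz_deg _)))
    n f hf

end

end QM

end Pool.Agent.N101.CB
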