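import Pool.Agent.N101.CB.StmE
import Pool.Agent.N101.CB.Loc
import Pool.Agent.Y971.MS.One

/-!
# Project CUB, part STEPL (helper277): the local elimination
-/

set_option autoImplicit false

namespace Pool.Agent.N101.CB

open MvPolynomial Pool.Agent.W428.MOT
open Pool.Agent.W375.MG (JetG zetaG Good ratRing_mono)
open Pool.Agent.W63.MTFin (mapMeas geo_mul geo_mem X_mem C_mem L_mul)
open Pool.Agent.Y229.MS (addyz Wyz CE shn shn_pos fst' Tl zs phiS psum psum_mul rel1 rel2
  phi_succ chi_pt ce_zero TaskONE TaskTWO rescale_C' rescale_X' rescale_mem elim)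

namespace SL

section
variable {R : Type} [CommRing R]

/-- the geometric series -/
lemma geo_one (Y : R) :
    (1 - PowerSeries.C Y * PowerSeries.X) * PowerSeries.mk (fun N => Y ^ N) = 1 := by
  ext m
  rw [sub_mul, one_mul, map_sub, PowerSeries.coeff_mk, mul_assoc, PowerSeries.coeff_C_mul]
  cases m with
  | zero => simp
  | succ m =>
    rw [PowerSeries.coeff_succ_X_mul, PowerSeries.coeff_mk, PowerSeries.coeff_one,
      if_neg (Nat.succ_ne_zero m), pow_succ]
    ring

/-- **The local elimination.** -/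
theorem elimL (L Y : R) (hLY : L * Y = 1) (c w w' k1 k2 a0 a1 : R)
    (Z0 Z1 Z1' Z2 Z2' Z3 φ φ1 φ1' G : PowerSeries R)
    (hG : (1 - PowerSeries.C Y * PowerSeries.X) * G = 1)
    (h0 : PowerSeries.rescale L Z1' * (1 - PowerSeries.X) =
      PowerSeries.C L * Z0 * (1 - PowerSeries.X) + PowerSeries.C c * φ)
    (h1 : PowerSeries.rescale L Z2' * (1 - PowerSeries.X) =
      PowerSeries.C L * Z1' * (1 - PowerSeries.X) + PowerSeries.C c * φ1')
    (h2 : PowerSeries.rescale L (PowerSeries.C c * φ1') * (1 - PowerSeries.X) =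
      (PowerSeries.C L * PowerSeries.C L - PowerSeries.C L * PowerSeries.X) *
        (PowerSeries.C c * φ))
    (h3 : PowerSeries.rescale L Z3 * (1 - PowerSeries.X) =
      PowerSeries.C L * Z1 * (1 - PowerSeries.X) + PowerSeries.C c * φ1)
    (hK1 : Z1' = Z1 + PowerSeries.C k1 + PowerSeries.C (2 * c * w) * G)
    (hK2 : Z3 = Z2 + PowerSeries.C k2 + PowerSeries.C (2 * c * w') * G)
    (hK3 : φ1' = φ1 + PowerSeries.C a0 + PowerSeries.C a1 * PowerSeries.X +
      PowerSeries.C (2 * w * (L - 1)) * (PowerSeries.X * G)) :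
    ∃ p0 p1 : R, (1 - PowerSeries.C Y * PowerSeries.X) * Z0 =
      PowerSeries.C (Y ^ 3) * ((PowerSeries.C L * PowerSeries.C L + PowerSeries.C L) *
        PowerSeries.rescale L ((1 - PowerSeries.C Y * PowerSeries.X) * Z1) -
        PowerSeries.rescale L (PowerSeries.rescale L
          ((1 - PowerSeries.C Y * PowerSeries.X) * Z2))) +
      (PowerSeries.C p0 + PowerSeries.C p1 * PowerSeries.X) := by
  have e := elim L Y hLY Z0 Z1' Z2' (PowerSeries.C c * φ) (PowerSeries.C c * φ1') h0 h1 h2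
  have hC : PowerSeries.C L * PowerSeries.C Y = (1 : PowerSeries R) := by
    rw [← map_mul, hLY, map_one]
  have rX := rescale_X' L
  have rL := rescale_C' L L
  have rY := rescale_C' L Y
  have rc := rescale_C' L c
  have rw1 := rescale_C' L w
  have rw2 := rescale_C' L w'
  have rk1 := rescale_C' L k1
  have rk2 := rescale_C' L k2
  have ra0 := rescale_C' L a0
  have ra1 := rescale_C' L a1
  have r2 : PowerSeries.rescale L (PowerSeries.C (2 : R)) = PowerSeries.C 2 := rescale_C' L 2
  have hG1 : (1 - PowerSeries.X) * PowerSeries.rescale L G = 1 := by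
    have := congrArg (PowerSeries.rescale L) hG
    rw [map_mul, map_sub, map_one, map_mul, rY, rX, ← mul_assoc, mul_comm (PowerSeries.C Y), hC,
      one_mul] at this
    exact this
  have A1 : PowerSeries.rescale L ((1 - PowerSeries.C Y * PowerSeries.X) * Z1') =
      PowerSeries.rescale L ((1 - PowerSeries.C Y * PowerSeries.X) * Z1) +
        (1 - PowerSeries.X) * PowerSeries.C k1 + PowerSeries.C (2 * c * w) := by
    rw [hK1]
    simp only [map_mul, map_add, map_sub, map_one, rX, rY, rc, rw1, rk1, r2]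
    linear_combination (PowerSeries.C 2 * PowerSeries.C c * PowerSeries.C w) * hG1 -
      PowerSeries.X * (PowerSeries.C k1 + PowerSeries.C 2 * PowerSeries.C c * PowerSeries.C w *
        PowerSeries.rescale L G) * hC
  have A2 : PowerSeries.rescale L ((1 - PowerSeries.C Y * PowerSeries.X) * Z2') -
      PowerSeries.rescale L ((1 - PowerSeries.C Y * PowerSeries.X) * Z3) =
      PowerSeries.C L * (1 - PowerSeries.X) * (Z1' - Z1) + PowerSeries.C c * (φ1' - φ1) := by
    simp only [map_mul, map_sub, map_one, rX, rY]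
    linear_combination h1 - h3 - PowerSeries.X * (PowerSeries.rescale L Z2' -
      PowerSeries.rescale L Z3) * hC
  have A3 : PowerSeries.rescale L (PowerSeries.rescale L
        ((1 - PowerSeries.C Y * PowerSeries.X) * Z2')) =
      PowerSeries.rescale L (PowerSeries.rescale L
        ((1 - PowerSeries.C Y * PowerSeries.X) * Z2)) +
      ((1 - PowerSeries.C L * PowerSeries.X) * PowerSeries.C k2 +
        PowerSeries.C (2 * c * w')) +
      (PowerSeries.C L * (1 - PowerSeries.C L * PowerSeries.X) * PowerSeries.C k1 +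
        PowerSeries.C c * PowerSeries.C a0 +
        PowerSeries.C c * PowerSeries.C a1 * PowerSeries.C L * PowerSeries.X +
        PowerSeries.C (2 * c * w * L)) := by
    have B := congrArg (PowerSeries.rescale L) A2
    have B1 : PowerSeries.rescale L (PowerSeries.C L * (1 - PowerSeries.X) * (Z1' - Z1) +
        PowerSeries.C c * (φ1' - φ1)) =
      PowerSeries.C L * (1 - PowerSeries.C L * PowerSeries.X) * PowerSeries.C k1 +
        PowerSeries.C c * PowerSeries.C a0 +
        PowerSeries.C c * PowerSeries.C a1 * PowerSeries.C L * PowerSeries.X +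
        PowerSeries.C (2 * c * w * L) := by
      rw [hK1, hK3]
      simp only [map_mul, map_add, map_sub, map_one, rX, rL, rc, rw1, rk1, r2, ra0, ra1]
      linear_combination (PowerSeries.C 2 * PowerSeries.C c * PowerSeries.C w *
        PowerSeries.C L) * hG1
    have B2 : PowerSeries.rescale L (PowerSeries.rescale L
        ((1 - PowerSeries.C Y * PowerSeries.X) * Z3)) =
        PowerSeries.rescale L (PowerSeries.rescale L
        ((1 - PowerSeries.C Y * PowerSeries.X) * Z2)) +
        ((1 - PowerSeries.C L * PowerSeries.X) * PowerSeries.C k2 +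
        PowerSeries.C (2 * c * w')) := by
      have C1 : (1 - PowerSeries.C Y * PowerSeries.X) * Z3 =
          (1 - PowerSeries.C Y * PowerSeries.X) * Z2 +
          (1 - PowerSeries.C Y * PowerSeries.X) * PowerSeries.C k2 +
          PowerSeries.C (2 * c * w') := by
        rw [hK2]
        linear_combination (PowerSeries.C (2 * c * w')) * hG
      rw [C1]
      simp only [map_mul, map_add, map_sub, map_one, rX, rL, rY, rc, rw2, rk2, r2]
      linear_combination (- (PowerSeries.C L * PowerSeries.X * PowerSeries.C k2)) * hC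
    rw [map_sub, B1, B2] at B
    linear_combination B
  rw [A1, A3] at e
  refine ⟨Y ^ 3 * ((L * L + L) * (k1 + 2 * c * w) - (k2 + 2 * c * w') - L * k1 - c * a0 -
    2 * c * w * L), Y ^ 3 * (-((L * L + L) * k1) + L * k2 + L * L * k1 - c * a1 * L), ?_⟩
  rw [e]
  simp only [map_mul, map_add, map_sub, map_neg, map_pow]
  ring

end

section
variable {K : Type} [Field K] {n : ℕ} {R : Type} [CommRing R]

theorem one' : TaskONE := Pool.Agent.Y971.MS.one Pool.Agent.Y366.MS.onea

/-- `f + y z` vanishes on the origins with `y = z = 0` -/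
theorem vanish (f : MvPolynomial (Fin n) K) {W : Set (Pt K (Fin n))}
    (h0 : ∀ z ∈ W, aeval z f = 0) : ∀ z ∈ Wo W, aeval z (addyz f) = 0 := by
  rintro z ⟨h1, h2, h3⟩
  have h5 : aeval z (addyz f) = aeval (fun i => z (Fin.castAdd 2 i)) f +
      z (Fin.natAdd n 0) * z (Fin.natAdd n 1) := by
    rw [addyz, map_add, map_mul, aeval_X, aeval_X, aeval_rename]
    rfl
  rw [h5, h0 _ h1, h2, zero_mul, add_zero]

theorem pow_aux {L Y : R} (hL : L * Y = 1) (N : ℕ) :
    L ^ (n * N) * L ^ N * Y ^ ((n + 2) * N) = Y ^ N := by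
  rw [← pow_add]
  have e3 : (n + 2) * N = (n * N + N) + N := by ring
  rw [e3, pow_add Y, ← mul_assoc, ← mul_pow, hL, one_pow, one_mul]

/-- the zeta functions of `f + y z` with free origin and with `y(0) = z(0) = 0` -/
theorem zs_loc (M : Meas K R) (Y : R) (hL : M.L * Y = 1) (f : MvPolynomial (Fin n) K)
    {W : Set (Pt K (Fin n))} (hW : Constr W) {E : Set (AlgebraicClosure K)} (hE : CE E)
    (h0 : ∀ z ∈ W, aeval z f = 0) :
    ∃ k : R, zs M Y (addyz f) (Wyz W) E = zs M Y (addyz f) (Wo W) E + PowerSeries.C k +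
      PowerSeries.C (2 * (M.χ (Fin 1) {a | a 0 ∈ E} * (M.L - 1)) * M.χ (Fin n) W) *
        PowerSeries.mk (fun N => Y ^ N) := by
  refine ⟨PowerSeries.coeff 0 (zs M Y (addyz f) (Wyz W) E) -
    PowerSeries.coeff 0 (zs M Y (addyz f) (Wo W) E) -
    2 * (M.χ (Fin 1) {a | a 0 ∈ E} * (M.L - 1)) * M.χ (Fin n) W, ?_⟩
  ext N
  rw [map_add, map_add, PowerSeries.coeff_C_mul, PowerSeries.coeff_C, PowerSeries.coeff_mk]
  cases N with
  | zero =>
    rw [if_pos rfl, pow_zero]
    ring
  | succ N =>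
    rw [if_neg (Nat.succ_ne_zero N), zs, zs, PowerSeries.coeff_mk, PowerSeries.coeff_mk,
      loc K R M f W E hW hE h0 (N + 1) (Nat.le_add_left _ _)]
    linear_combination (2 * (M.χ (Fin 1) {a | a 0 ∈ E} * M.χ (Fin n) W * (M.L - 1))) *
      pow_aux (n := n) hL (N + 1)

/-- the tails of `f + y z` with free origin and with `y(0) = z(0) = 0` -/
theorem phi_loc (M : Meas K R) (Y : R) (hL : M.L * Y = 1) (f : MvPolynomial (Fin n) K)
    {W : Set (Pt K (Fin n))} (hW : Constr W) (h0 : ∀ z ∈ W, aeval z f = 0) :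
    ∃ a0 a1 : R, phiS M Y (addyz f) (Wyz W) = phiS M Y (addyz f) (Wo W) + PowerSeries.C a0 +
      PowerSeries.C a1 * PowerSeries.X +
      PowerSeries.C (2 * M.χ (Fin n) W * (M.L - 1)) *
        (PowerSeries.X * PowerSeries.mk (fun N => Y ^ N)) := by
  refine ⟨PowerSeries.coeff 0 (phiS M Y (addyz f) (Wyz W)) -
    PowerSeries.coeff 0 (phiS M Y (addyz f) (Wo W)),
    PowerSeries.coeff 1 (phiS M Y (addyz f) (Wyz W)) -
    PowerSeries.coeff 1 (phiS M Y (addyz f) (Wo W)) - 2 * M.χ (Fin n) W * (M.L - 1), ?_⟩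
  ext N
  rw [map_add, map_add, map_add, PowerSeries.coeff_C_mul, PowerSeries.coeff_C_mul,
    PowerSeries.coeff_C]
  rcases N with _ | _ | N
  · rw [if_pos rfl, PowerSeries.coeff_zero_X_mul, PowerSeries.coeff_zero_X]
    ring
  · rw [if_neg (Nat.succ_ne_zero _), zero_add, PowerSeries.coeff_one_X]
    have : PowerSeries.coeff 1 (PowerSeries.X * PowerSeries.mk (fun N => Y ^ N)) = 1 := by
      rw [show (1 : ℕ) = 0 + 1 from rfl, PowerSeries.coeff_succ_X_mul, PowerSeries.coeff_mk,
        pow_zero]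
    rw [this]
    ring
  · rw [if_neg (Nat.succ_ne_zero _), PowerSeries.coeff_X, if_neg (by omega),
      PowerSeries.coeff_succ_X_mul, PowerSeries.coeff_mk, phiS, phiS, PowerSeries.coeff_mk,
      PowerSeries.coeff_mk,
      phi_succ Pool.Agent.Y812.MS.two M Y hL (addyz f) (Wyz W)
        (Pool.Agent.Y229.MS.constr_Wyz hW) (N + 1),
      phi_succ Pool.Agent.Y812.MS.two M Y hL (addyz f) (Wo W) (constr_Wo hW) (N + 1),
      loc K R M f W {0} hW ce_zero h0 (N + 1) (Nat.le_add_left _ _), chi_pt]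
    linear_combination (2 * (M.χ (Fin n) W * (M.L - 1))) * pow_aux (n := n) hL (N + 1)

end

end SL

open SL in
/-- **The local elimination.** -/
theorem stepL : Pool.Agent.N101.CB.TaskSTEPL := by
  intro K _ _ n f W hW h0 E hE S1 S2 hS1 hS2 hz1 hz2
  obtain ⟨M₀, hM₀⟩ := Pool.Agent.W417.MT.K0.main K
  set M := mapMeas M₀ (algebraMap (K0 K) (MK K)) with hM
  set Y : MK K := (((Lu K)⁻¹ : (MK K)ˣ) : MK K) with hY
  have hL : M.L * Y = 1 := L_mul hM₀
  have hML : M.L = ((Lu K : (MK K)ˣ) : MK K) := by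
    have h2 : ((Lu K : (MK K)ˣ) : MK K) * Y = 1 := Units.mul_inv _
    calc M.L = M.L * (((Lu K : (MK K)ˣ) : MK K) * Y) := by rw [h2, mul_one]
      _ = (M.L * Y) * ((Lu K : (MK K)ˣ) : MK K) := by ring
      _ = _ := by rw [hL, one_mul]
  have hz : ∀ {a : ℕ} (g : MvPolynomial (Fin a) K) (V : Set (Pt K (Fin a))),
      zetaG g V E = zs M Y g V E := by
    intro a g V
    ext N
    rw [zetaG, zs, PowerSeries.coeff_mk, PowerSeries.coeff_mk, zpow_neg, zpow_natCast, ← inv_pow,
      Units.val_pow_eq_pow_val, ← hM₀]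
    rfl
  have h2 := Pool.Agent.Y812.MS.two
  have hWo : Constr (Wo W) := constr_Wo hW
  have hWyz : Constr (Wyz W) := Pool.Agent.Y229.MS.constr_Wyz hW
  have h0' := vanish f h0
  have r0 := rel1 one' h2 M Y hL f hW hE
  have r1 := rel1 one' h2 M Y hL (addyz f) hWyz hE
  have r2 := rel2 one' h2 M Y hL f hW
  have r3 := rel1 one' h2 M Y hL (addyz f) hWo hE
  obtain ⟨k1, hK1⟩ := zs_loc M Y hL f hW hE h0
  obtain ⟨k2, hK2⟩ := zs_loc M Y hL (addyz f) hWo hE h0'
  obtain ⟨a0, a1, hK3⟩ := phi_loc M Y hL f hW h0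
  have hps := psum_mul (phiS M Y f W)
  have hps1 := psum_mul (phiS M Y (addyz f) (Wyz W))
  have hps2 := psum_mul (phiS M Y (addyz f) (Wo W))
  set e : MK K := M.χ (Fin 1) {a | a 0 ∈ E} * (M.L - 1) with he
  obtain ⟨p0, p1, key⟩ := elimL M.L Y hL e (M.χ (Fin n) W) (M.χ (Fin (n + 2)) (Wo W)) k1 k2 a0 a1
    (zs M Y f W E) (zs M Y (addyz f) (Wo W) E) (zs M Y (addyz f) (Wyz W) E)
    (zs M Y (addyz (addyz f)) (Wo (Wo W)) E) (zs M Y (addyz (addyz f)) (Wyz (Wyz W)) E)
    (zs M Y (addyz (addyz f)) (Wyz (Wo W)) E) (phiS M Y f W) (phiS M Y (addyz f) (Wo W))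
    (phiS M Y (addyz f) (Wyz W)) (PowerSeries.mk (fun N => Y ^ N)) (geo_one Y)
    (by
      rw [r0]
      linear_combination (PowerSeries.C e) * hps)
    (by
      rw [r1]
      linear_combination (PowerSeries.C e) * hps1)
    (by
      rw [map_mul, Pool.Agent.Y229.MS.rescale_C', r2]
      rw [map_mul PowerSeries.C M.L (M.L - 1), map_sub PowerSeries.C M.L 1, map_one]
      linear_combination (PowerSeries.C e * PowerSeries.C M.L * (PowerSeries.C M.L - 1) *
        PowerSeries.X) * hps)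
    (by
      rw [r3]
      linear_combination (PowerSeries.C e) * hps2)
    hK1 hK2 hK3
  rw [hz] at hz1 hz2 ⊢
  unfold fst' at hz1 hz2 ⊢
  rw [← hY] at hz1 hz2 ⊢
  rw [key, hML]
  have m1 : PowerSeries.rescale ((Lu K : (MK K)ˣ) : MK K)
      ((1 - PowerSeries.C Y * PowerSeries.X) * zs M Y (addyz f) (Wo W) E) ∈
      ratRing K (shn 1 S1 ∪ shn 1 (shn 1 S2)) :=
    ratRing_mono Set.subset_union_left (rescale_mem hS1 hz1)
  have m2 : PowerSeries.rescale ((Lu K : (MK K)ˣ) : MK K)
      (PowerSeries.rescale ((Lu K : (MK K)ˣ) : MK K)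
        ((1 - PowerSeries.C Y * PowerSeries.X) * zs M Y (addyz (addyz f)) (Wo (Wo W)) E)) ∈
      ratRing K (shn 1 S1 ∪ shn 1 (shn 1 S2)) :=
    ratRing_mono Set.subset_union_right (rescale_mem (shn_pos hS2) (rescale_mem hS2 hz2))
  exact (ratRing K _).add_mem
    ((ratRing K _).mul_mem (C_mem _ _) ((ratRing K _).sub_mem ((ratRing K _).mul_mem
      ((ratRing K _).add_mem ((ratRing K _).mul_mem (C_mem _ _) (C_mem _ _)) (C_mem _ _)) m1) m2))
    ((ratRing K _).add_mem (C_mem _ _) ((ratRing K _).mul_mem (C_mem _ _) (X_mem _)))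

end Pool.Agent.N101.CB
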