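import Pool.Agent.N101.CB.StmQ

/-!
# Project CUB: statements of the parts on dehomogenisation
-/

set_option autoImplicit false

namespace Pool.Agent.N101.CB

open MvPolynomial Pool.Agent.W428.MOT
open Pool.Agent.H628R4.TP (IsBFunction)

section
variable {k : Type} [Field k] {m : ℕ}

/-- `G` is quasi-homogeneous of degree `d`, with weight `1` of the last variable and weights `w i` of the
other ones. -/
def WH (w : Fin m → ℕ) (d : ℕ) (G : MvPolynomial (Fin (m + 1)) k) : Prop :=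
  ∀ e ∈ G.support, e (Fin.last m) + ∑ i, w i * e (Fin.castSucc i) = d

/-- `G` with the last variable equal to `1` -/
noncomputable def dh (G : MvPolynomial (Fin (m + 1)) k) : MvPolynomial (Fin m) k :=
  aeval (Fin.snoc (α := fun _ => MvPolynomial (Fin m) k) X 1) G

/-- The variables can be divided into two classes `t` (`T`) and `x` (the others) such that `F` is a form of
bidegree `(1, 2)`: `F = ∑_k t_k q_k(x)` with quadratic forms `q_k`. -/
def Bi (F : MvPolynomial (Fin m) k) : Prop :=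
  ∃ T : Finset (Fin m), ∀ e ∈ F.support, ∑ i ∈ T, e i = 1 ∧ ∑ i ∈ Tᶜ, e i = 2

/-- the section `x ↦ (x, 1)` -/
noncomputable def sgd (k : Type) [Field k] (m : ℕ) : Fin (m + 1) → MvPolynomial (Fin m) k :=
  Fin.snoc (α := fun _ => MvPolynomial (Fin m) k) X 1

end

/-- (DB) the functional equation of the dehomogenisation -/
def TaskDB : Prop :=
  ∀ {m : ℕ} (w : Fin m → ℕ) (d : ℕ) (G : MvPolynomial (Fin (m + 1)) ℂ), WH w d G →
    ∀ b : Polynomial ℂ, IsBFunction G b → IsBFunction (dh G) b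

/-- (DE) the equivariant classes of the jets with origin `(x, 1)` -/
def TaskDE : Prop :=
  ∀ (k : Type) [Field k] [CharZero k] {m : ℕ} (w : Fin m → ℕ) (d : ℕ)
    (G : MvPolynomial (Fin (m + 1)) k), WH w d G → ∀ (R : Type) [CommRing R]
    (M : EMeas (dh G) R) (N : ℕ), 1 ≤ N →
    M.χ _ (JetS G Fin.castSucc (sgd k m) N) (jw (m + 1) N) N (jbs Fin.castSucc N) =
      M.L ^ N * M.χ _ (JetE (dh G) N) (jw m N) N (jb m N)

/-- (DZ) the zeta function at `(x, 1)` -/
def TaskDZ : Prop :=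
  ∀ (K : Type) [Field K] [CharZero K] {m : ℕ} (w : Fin m → ℕ) (d : ℕ)
    (G : MvPolynomial (Fin (m + 1)) K), WH w d G → ∀ x : Fin m → K, aeval x (dh G) = 0 →
    zeta G (Fin.snoc (α := fun _ => K) x 1) = zeta (dh G) x

/-- (DC) the homogenisation of a cubic -/
def TaskDC : Prop :=
  ∀ {k : Type} [Field k] {n : ℕ} (f : MvPolynomial (Fin n) k), Cub f →
    ∃ (G : MvPolynomial (Fin (n + 1 + 1)) k) (w1 : Fin n → ℕ) (w2 : Fin (n + 1) → ℕ) (d1 d2 : ℕ),
      Bi G ∧ WH w2 d2 G ∧ WH w1 d1 (dh G) ∧ dh (dh G) = f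

end Pool.Agent.N101.CB
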