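import Pool.Agent.N101.CB.StmI
import Pool.Agent.Y229.MS.Step

/-!
# Project CUB: statements of the parts for arbitrary leading coefficients
-/

set_option autoImplicit false

namespace Pool.Agent.N101.CB

open MvPolynomial Pool.Agent.W428.MOT
open Pool.Agent.W375.MG (JetG zetaG Good)
open Pool.Agent.Y229.MS (addyz Wyz CE shn fst')

/-- the origins `(x, -v(x), u(x))`, `x ∈ W` -/
def Ws {K : Type} [Field K] {n : ℕ} (u v : MvPolynomial (Fin n) K) (W : Set (Pt K (Fin n))) :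
    Set (Pt K (Fin (n + 2))) :=
  {w | (fun i => w (Fin.castAdd 2 i)) ∈ W ∧
    w (Fin.natAdd n 0) = - aeval (fun i => w (Fin.castAdd 2 i)) v ∧
    w (Fin.natAdd n 1) = aeval (fun i => w (Fin.castAdd 2 i)) u}

/-- (STEPL) the local elimination -/
def TaskSTEPL : Prop :=
  ∀ (K : Type) [Field K] [CharZero K] {n : ℕ} (f : MvPolynomial (Fin n) K)
    (W : Set (Pt K (Fin n))), Constr W → (∀ z ∈ W, aeval z f = 0) →
    ∀ (E : Set (AlgebraicClosure K)), CE E → ∀ (S1 S2 : Set (ℤ × ℤ)), (∀ p ∈ S1, 0 < p.2) →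
      (∀ p ∈ S2, 0 < p.2) →
      fst' K * zetaG (addyz f) (Wo W) E ∈ ratRing K S1 →
      fst' K * zetaG (addyz (addyz f)) (Wo (Wo W)) E ∈ ratRing K S2 →
      fst' K * zetaG f W E ∈ ratRing K (shn 1 S1 ∪ shn 1 (shn 1 S2))

/-- (PSIG) the invariance of the zeta functions -/
def TaskPSIG : Prop :=
  ∀ (K : Type) [Field K] [CharZero K] {n : ℕ} (f u v : MvPolynomial (Fin n) K)
    (W : Set (Pt K (Fin n))), Constr W → ∀ (E : Set (AlgebraicClosure K)), CE E →
      zetaG (stp f u v) (Wyz W) E = zetaG (addyz f) (Wyz W) E ∧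
      zetaG (addyz (stp f u v)) (Wyz (Wyz W)) E = zetaG (addyz (addyz f)) (Wyz (Wyz W)) E ∧
      zetaG (stp f u v) (Ws u v W) E = zetaG (addyz f) (Wo W) E ∧
      zetaG (addyz (stp f u v)) (Wo (Ws u v W)) E = zetaG (addyz (addyz f)) (Wo (Wo W)) E

end Pool.Agent.N101.CB
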