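import Pool.Agent.N101.CB.Stm
import Pool.Agent.W574.SM.Defs

/-!
# Project CUB: statements of the parts about zeta functions and about ideals
-/

set_option autoImplicit false

namespace Pool.Agent.N101.CB

open MvPolynomial Pool.Agent.W428.MOT
open Pool.Agent.W375.MG (JetG Good)
open Pool.Agent.Y229.MS (addyz Wyz CE)
open Pool.Agent.W574.SM (IsFunctionalEq)

/-- the class of a constructible set in `𝓜_K` -/
noncomputable def clM {K : Type} [Field K] {ι : Type} [Fintype ι] (S : Set (Pt K ι)) : MK K :=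
  algebraMap (K0 K) (MK K) (cls ι S)

/-- the numbers different from zero -/
def Un (K : Type) [Field K] : Set (AlgebraicClosure K) := {a | a ≠ 0}

/-- `(𝕃 - 1) 𝕃 ^ (-ν) T ^ N / (1 - 𝕃 ^ (-ν) T ^ N)` -/
noncomputable def Fz (K : Type) [Field K] (N ν : ℕ) : PowerSeries (MK K) :=
  PowerSeries.C (((Lu K : (MK K)ˣ) : MK K) - 1) *
    (PowerSeries.C (((Lu K) ^ (-(ν : ℤ)) : (MK K)ˣ) : MK K) * PowerSeries.X ^ N) *
    geo K (-(ν : ℤ)) (N : ℤ)

/-- The motivic zeta function `∑_N [X_N] 𝕃 ^ (-n N) T ^ N` of a polynomial `f`: `X_N` is the variety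
of the `N`-jets `ψ` with `ψ(0) ∈ W` and `ord f(ψ) = N`. -/
noncomputable def zt {K : Type} [Field K] {n : ℕ} (f : MvPolynomial (Fin n) K)
    (W : Set (Pt K (Fin n))) : PowerSeries (MK K) :=
  PowerSeries.mk fun N => clM (JetG f W (Un K) N) * (((Lu K) ^ (-((n * N : ℕ) : ℤ)) : (MK K)ˣ) : MK K)

/-- `𝕃`, as a constant -/
noncomputable def cL (K : Type) [Field K] : PowerSeries (MK K) :=
  PowerSeries.C ((Lu K : (MK K)ˣ) : MK K)

/-- (ID) the zeta function of `f + y z` -/
def TaskID : Prop :=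
  ∀ (K : Type) [Field K] [CharZero K] {n : ℕ} (f : MvPolynomial (Fin n) K) (W : Set (Pt K (Fin n))),
    Constr W → zt (addyz f) (Wyz W) =
      PowerSeries.C (clM W) * (cL K - 1 + Fz K 1 1) ^ 2 +
        (1 - Fz K 1 1) * (cL K + Fz K 1 1) *
          PowerSeries.rescale (((Lu K)⁻¹ : (MK K)ˣ) : MK K) (zt f W)

/-- (IDL) the local zeta function of `f + y z` -/
def TaskIDL : Prop :=
  ∀ (K : Type) [Field K] [CharZero K] {n : ℕ} (f : MvPolynomial (Fin n) K) (W : Set (Pt K (Fin n))),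
    Constr W → (∀ z ∈ W, aeval z f = 0) → zt (addyz f) (Wo W) =
      PowerSeries.C (clM W) * Fz K 1 1 ^ 2 +
        (1 - Fz K 1 1) * (cL K + Fz K 1 1) *
          PowerSeries.rescale (((Lu K)⁻¹ : (MK K)ˣ) : MK K) (zt f W)

/-! ### Ideals -/

section
variable {K : Type} [Field K] {n r : ℕ}

/-- the generators `f_j + [j = j₀] v (w - u)` and `w - u`, in the variables `x, w` -/
noncomputable def stI (f : Fin r → MvPolynomial (Fin n) K) (j₀ : Fin r)
    (u v : MvPolynomial (Fin n) K) : Fin (r + 1) → MvPolynomial (Fin (n + 1)) K :=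
  Fin.snoc (fun j => rename Fin.castSucc (f j) + (if j = j₀ then
      rename Fin.castSucc v * (X (Fin.last n) - rename Fin.castSucc u) else 0))
    (X (Fin.last n) - rename Fin.castSucc u)

/-- the generators `f_j` and `w`, in the variables `x, w` -/
noncomputable def exI (f : Fin r → MvPolynomial (Fin n) K) :
    Fin (r + 1) → MvPolynomial (Fin (n + 1)) K :=
  Fin.snoc (fun j => rename Fin.castSucc (f j)) (X (Fin.last n))

/-- generators of degree at most two without squares -/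
def Quad (f : Fin r → MvPolynomial (Fin n) K) : Prop :=
  ∀ j, ∀ m ∈ (f j).support, (∀ i, m i ≤ 1) ∧ ∑ i, m i ≤ 2

/-- the `N`-jets with origin in `W` and order of the ideal `(f_l)` at least `i` -/
def TlI (f : Fin r → MvPolynomial (Fin n) K) (W : Set (Pt K (Fin n))) (i N : ℕ) :
    Set (Pt K (Fin n × Fin (N + 1))) :=
  {z | (fun i => z (i, 0)) ∈ W ∧ ∀ l, ∀ j < i, PowerSeries.coeff j (aeval (arc z) (f l)) = 0}

/-- the `N`-jets with origin in `W` along which the order of the ideal `(f_l)` is `N` -/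
def JetI (f : Fin r → MvPolynomial (Fin n) K) (W : Set (Pt K (Fin n))) (N : ℕ) :
    Set (Pt K (Fin n × Fin (N + 1))) :=
  {z | (fun i => z (i, 0)) ∈ W ∧ (∀ l, ∀ j < N, PowerSeries.coeff j (aeval (arc z) (f l)) = 0) ∧
    ∃ l, PowerSeries.coeff N (aeval (arc z) (f l)) ≠ 0}

/-- The motivic zeta function `∑_N [X_N] 𝕃 ^ (-n N) T ^ N` of the ideal generated by the `f_l`: `X_N`
is the variety of the `N`-jets with origin in `W` along which the order of the ideal is `N`. -/
noncomputable def ztI (f : Fin r → MvPolynomial (Fin n) K) (W : Set (Pt K (Fin n))) :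
    PowerSeries (MK K) :=
  PowerSeries.mk fun N => clM (JetI f W N) * (((Lu K) ^ (-((n * N : ℕ) : ℤ)) : (MK K)ˣ) : MK K)

/-- the origins in `W`, the variable `w` being arbitrary -/
def Wx (W : Set (Pt K (Fin n))) : Set (Pt K (Fin (n + 1))) :=
  {z | (fun i => z (Fin.castSucc i)) ∈ W}

end

/-- (REDI) the reduction principle for ideals -/
def TaskREDI : Prop :=
  ∀ (K : Type) [Field K] (P : ∀ n r : ℕ, (Fin r → MvPolynomial (Fin n) K) → Prop),
    (∀ (n r : ℕ) (f : Fin r → MvPolynomial (Fin n) K), Quad f → P n r f) →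
    (∀ (n r : ℕ) (f : Fin r → MvPolynomial (Fin n) K) (j₀ : Fin r) (u v : MvPolynomial (Fin n) K),
      constantCoeff u = 0 → constantCoeff v = 0 →
      P (n + 1) (r + 1) (stI f j₀ u v) → P n r f) →
    ∀ (n r : ℕ) (f : Fin r → MvPolynomial (Fin n) K), P n r f

/-- (ZI) the zeta function of the ideal -/
def TaskZI : Prop :=
  ∀ (K : Type) [Field K] [CharZero K] {n r : ℕ} (f : Fin r → MvPolynomial (Fin n) K) (j₀ : Fin r)
    (u v : MvPolynomial (Fin n) K) (W : Set (Pt K (Fin n))), Constr W →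
    ztI (stI f j₀ u v) (Wx W) =
      PowerSeries.C (clM W) * (cL K - 1 + Fz K 1 1) +
        (1 - Fz K 1 1) * PowerSeries.rescale (((Lu K)⁻¹ : (MK K)ˣ) : MK K) (ztI f W)

/-- (IB1) the functional equation of the ideal `(f_j, w)` -/
def TaskIB1 : Prop :=
  ∀ {n r : ℕ} (f : Fin r → MvPolynomial (Fin n) ℂ) (b : Polynomial ℂ), IsFunctionalEq f b →
    IsFunctionalEq (exI f) (b.comp (Polynomial.X + 1))

/-- (IB2) change of generators and of variables -/
def TaskIB2 : Prop :=
  ∀ {n r : ℕ} (f : Fin r → MvPolynomial (Fin n) ℂ) (j₀ : Fin r) (u v : MvPolynomial (Fin n) ℂ)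
    (b : Polynomial ℂ), IsFunctionalEq (exI f) b → IsFunctionalEq (stI f j₀ u v) b

end Pool.Agent.N101.CB
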