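import Pool.Agent.N101.CB.StmI
import Pool.Agent.W574.LM.Eng

/-!
# Project CUB: statements of the local parts for ideals
-/

set_option autoImplicit false

namespace Pool.Agent.N101.CB

open MvPolynomial Pool.Agent.W428.MOT
open Pool.Agent.W574.LM (IsLocEq)

/-- The functional equation of the `f_j` near the origin: with operators whose coefficients are
quotients of polynomials with denominator `H(x)`, `H(0) ≠ 0`. -/
def LocFE {n r : ℕ} (f : Fin r → MvPolynomial (Fin n) ℂ) (b : Polynomial ℂ) : Prop :=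
  ∃ H : MvPolynomial (Fin n) ℂ, constantCoeff H ≠ 0 ∧ IsLocEq H f b

/-- (LIB1) the local functional equation of the ideal `(f_j, w)` -/
def TaskLIB1 : Prop :=
  ∀ {n r : ℕ} (f : Fin r → MvPolynomial (Fin n) ℂ) (b : Polynomial ℂ), LocFE f b →
    LocFE (exI f) (b.comp (Polynomial.X + 1))

/-- (LIB2) change of generators and of variables -/
def TaskLIB2 : Prop :=
  ∀ {n r : ℕ} (f : Fin r → MvPolynomial (Fin n) ℂ) (j₀ : Fin r) (u v : MvPolynomial (Fin n) ℂ)
    (b : Polynomial ℂ), constantCoeff u = 0 → constantCoeff v = 0 → LocFE (exI f) b →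
    LocFE (stI f j₀ u v) b

/-- (LZI) the local zeta function of the ideal -/
def TaskLZI : Prop :=
  ∀ (K : Type) [Field K] [CharZero K] {n r : ℕ} (f : Fin r → MvPolynomial (Fin n) K) (j₀ : Fin r)
    (u v : MvPolynomial (Fin n) K), (∀ j, constantCoeff (f j) = 0) → constantCoeff u = 0 →
    constantCoeff v = 0 →
    ztI (stI f j₀ u v) {0} = Fz K 1 1 +
        (1 - Fz K 1 1) * PowerSeries.rescale (((Lu K)⁻¹ : (MK K)ˣ) : MK K) (ztI f {0})

end Pool.Agent.N101.CB
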