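import Pool.Agent.N101.CB.StmI

/-!
# Project CUB: statements of the parts for the twisted zeta functions
-/

set_option autoImplicit false

namespace Pool.Agent.N101.CB

open MvPolynomial Pool.Agent.W428.MOT
open Pool.Agent.Y229.MS (addyz)

/-- The pairs `(z, w)` (`w = w none ≠ 0`) with an `N`-jet `z` such that
`f(z) = w ^ e t ^ N mod t ^ (N + 1)`. -/
def JetT {K : Type} [Field K] {n : ℕ} (f : MvPolynomial (Fin n) K) (e N : ℕ) :
    Set (Pt K (Option (Fin n × Fin (N + 1)))) :=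
  {w | w none ≠ 0 ∧ (∀ j < N, PowerSeries.coeff j (aeval (arc fun p => w (some p)) f) = 0) ∧
    PowerSeries.coeff N (aeval (arc fun p => w (some p)) f) = w none ^ e}

/-- the motivic zeta function `∑_{N ≥ 1} [{(z, w) : f(z) = w ^ e t ^ N}] 𝕃 ^ (-n N) T ^ N` -/
noncomputable def zte {K : Type} [Field K] {n : ℕ} (f : MvPolynomial (Fin n) K) (e : ℕ) :
    PowerSeries (MK K) :=
  PowerSeries.mk fun N => if N = 0 then 0 else
    clM (JetT f e N) * (((Lu K) ^ (-((n * N : ℕ) : ℤ)) : (MK K)ˣ) : MK K)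

/-- (TW1) the twisted jets of `f + y z` -/
def TaskTW1 : Prop :=
  ∀ (K : Type) [Field K] (R : Type) [CommRing R] (M : Meas K R) {n : ℕ}
    (f : MvPolynomial (Fin n) K) (e N : ℕ),
    M.χ _ (JetT (addyz f) e N) + M.L ^ (N + 1) * M.χ _ (JetT f 1 N) =
      M.χ _ (JetT (addyz f) 1 N) + M.L ^ (N + 1) * M.χ _ (JetT f e N)

/-- (TW2) the invariance of the twisted jets -/
def TaskTW2 : Prop :=
  ∀ (K : Type) [Field K] (R : Type) [CommRing R] (M : Meas K R) {n : ℕ}
    (f u v : MvPolynomial (Fin n) K) (e N : ℕ),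
    M.χ _ (JetT (stp f u v) e N) = M.χ _ (JetT (addyz f) e N)

/-- (TW3) the untwisted zeta function -/
def TaskTW3 : Prop :=
  ∀ (K : Type) [Field K] [CharZero K] {n : ℕ} (f : MvPolynomial (Fin n) K),
    zt f Set.univ = PowerSeries.C (clM {z : Pt K (Fin n) | aeval z f ≠ 0}) + zte f 1

end Pool.Agent.N101.CB
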