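import Pool.Agent.N101.CB.Main

/-!
# Project CUB: the topological conjectures
-/

set_option autoImplicit false

namespace Pool.Agent.N101.CB

open MvPolynomial Pool.Agent.W428.MOT
open Pool.Agent.H628R4.TP (IsBFunction IsLocalBFunction)

theorem exists_factor' {b : Polynomial ℂ} (hb : b.eval (-1) = 0) :
    ∃ c : Polynomial ℂ, b = (Polynomial.X + 1) * c := by
  obtain ⟨c, hc⟩ := Polynomial.dvd_iff_isRoot.2 (show b.IsRoot (-1) from hb)
  refine ⟨c, ?_⟩
  rw [hc, Polynomial.C_neg, Polynomial.C_1, sub_neg_eq_add]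

theorem strong_aux {s : ℂ} (hs : ∃ q : ℚ, q < 0 ∧ s = (q : ℂ)) (κ : ℕ) (hκ : s ≠ -1)
    {b c : Polynomial ℂ} (hc : b = (Polynomial.X + 1) * c)
    (h : ((Polynomial.X + 1) * c.comp (Polynomial.X + Polynomial.C (κ : ℂ))).eval
      (s - κ) = 0) : b.eval s = 0 := by
  obtain ⟨q, hq, rfl⟩ := hs
  rw [hc, Polynomial.eval_mul]
  rw [Polynomial.eval_mul, Polynomial.eval_comp] at h
  rcases mul_eq_zero.1 h with h1 | h1
  · exfalso
    rw [Polynomial.eval_add, Polynomial.eval_X, Polynomial.eval_one] at h1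
    have h2 : q - κ + 1 = 0 := by exact_mod_cast h1
    rcases Nat.eq_zero_or_pos κ with h3 | h3
    · apply hκ
      rw [h3] at h2
      push_cast at h2
      have h5 : q = -1 := by linarith
      rw [h5]
      push_cast
      rfl
    · have h4 : (1 : ℚ) ≤ κ := by exact_mod_cast h3
      linarith
  · have h2 : (Polynomial.X + Polynomial.C (κ : ℂ)).eval ((q : ℂ) - κ) = (q : ℂ) := by
      rw [Polynomial.eval_add, Polynomial.eval_X, Polynomial.eval_C]
      ring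
    rw [h2] at h1
    rw [h1, mul_zero]

theorem weak_aux {s : ℂ} (κ : ℕ) {b c : Polynomial ℂ} (hc : b = (Polynomial.X + 1) * c)
    (h : ∃ k : ℤ, ((Polynomial.X + 1) * c.comp (Polynomial.X + Polynomial.C (κ : ℂ))).eval
      (s - κ + k) = 0) : ∃ k : ℤ, b.eval (s + k) = 0 := by
  obtain ⟨k, h⟩ := h
  rw [Polynomial.eval_mul, Polynomial.eval_comp] at h
  rcases mul_eq_zero.1 h with h1 | h1
  · rw [Polynomial.eval_add, Polynomial.eval_X, Polynomial.eval_one] at h1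
    refine ⟨k - κ, ?_⟩
    rw [hc, Polynomial.eval_mul, Polynomial.eval_add, Polynomial.eval_X, Polynomial.eval_one]
    have h2 : s + ((k - κ : ℤ) : ℂ) + 1 = 0 := by
      push_cast
      linear_combination h1
    rw [h2, zero_mul]
  · refine ⟨k, ?_⟩
    have h2 : (Polynomial.X + Polynomial.C (κ : ℂ)).eval (s - κ + k) = s + k := by
      rw [Polynomial.eval_add, Polynomial.eval_X, Polynomial.eval_C]
      ring
    rw [h2] at h1
    rw [hc, Polynomial.eval_mul, h1, mul_zero]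

section
variable (χ : MK ℂ →+* ℂ) {n m : ℕ}

/-- the strong conjecture for the global topological zeta function -/
def TS (f : MvPolynomial (Fin n) ℂ) : Prop :=
  ∀ R : RatFunc ℂ, IsTop χ (zt f Set.univ) R → ∀ s : ℂ, ¬ Reg R s →
    ∀ b : Polynomial ℂ, IsBFunction f b → b.eval s = 0

/-- the weak conjecture for the global topological zeta function -/
def TW (f : MvPolynomial (Fin n) ℂ) : Prop :=
  ∀ R : RatFunc ℂ, IsTop χ (zt f Set.univ) R → ∀ s : ℂ, ¬ Reg R s →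
    ∀ b : Polynomial ℂ, IsBFunction f b → ∃ k : ℤ, b.eval (s + k) = 0

/-- the strong conjecture for the local topological zeta function -/
def LTS (f : MvPolynomial (Fin n) ℂ) : Prop :=
  ∀ R : RatFunc ℂ, IsTop χ (zt f {0}) R → ∀ s : ℂ, ¬ Reg R s →
    ∀ b : Polynomial ℂ, IsLocalBFunction f b → b.eval s = 0

/-- the weak conjecture for the local topological zeta function -/
def LTW (f : MvPolynomial (Fin n) ℂ) : Prop :=
  ∀ R : RatFunc ℂ, IsTop χ (zt f {0}) R → ∀ s : ℂ, ¬ Reg R s →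
    ∀ b : Polynomial ℂ, IsLocalBFunction f b → ∃ k : ℤ, b.eval (s + k) = 0

variable {χ} {f : MvPolynomial (Fin n) ℂ} {F : MvPolynomial (Fin m) ℂ} {κ : ℕ}

theorem ts_of (hχ : χ ((Lu ℂ : (MK ℂ)ˣ) : MK ℂ) = 1) (hf : f.totalDegree ≠ 0) (h : Rl f F κ)
    (hF : TS χ F) : TS χ f := by
  intro R hR s hs b hb
  obtain ⟨h2, h3⟩ := h.b hf b hb
  by_cases h4 : s = -1
  · rw [h4]
    exact h2
  · obtain ⟨c, hc⟩ := exists_factor' h2
    obtain ⟨R', h5, -, h6⟩ := h.top χ hχ R hR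
    exact strong_aux (ne_of_pole hR hs) κ h4 hc (hF R' h5 _ (h6 s h4 hs) _ (h3 c hc))

theorem tw_of (hχ : χ ((Lu ℂ : (MK ℂ)ˣ) : MK ℂ) = 1) (hf : f.totalDegree ≠ 0) (h : Rl f F κ)
    (hF : TW χ F) : TW χ f := by
  intro R hR s hs b hb
  obtain ⟨h2, h3⟩ := h.b hf b hb
  by_cases h4 : s = -1
  · refine ⟨0, ?_⟩
    rw [h4, Int.cast_zero, add_zero]
    exact h2
  · obtain ⟨c, hc⟩ := exists_factor' h2
    obtain ⟨R', h5, -, h6⟩ := h.top χ hχ R hR
    exact weak_aux κ hc (hF R' h5 _ (h6 s h4 hs) _ (h3 c hc))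

theorem lts_of (hχ : χ ((Lu ℂ : (MK ℂ)ˣ) : MK ℂ) = 1) (hf : f.totalDegree ≠ 0)
    (hf0 : constantCoeff f = 0) (h : Rl f F κ) (hF : LTS χ F) : LTS χ f := by
  intro R hR s hs b hb
  obtain ⟨h2, h3⟩ := h.lb hf hf0 b hb
  by_cases h4 : s = -1
  · rw [h4]
    exact h2
  · obtain ⟨c, hc⟩ := exists_factor' h2
    obtain ⟨R', h5, -, h6⟩ := h.ltop hf0 χ hχ R hR
    exact strong_aux (ne_of_pole hR hs) κ h4 hc (hF R' h5 _ (h6 s h4 hs) _ (h3 c hc))

theorem ltw_of (hχ : χ ((Lu ℂ : (MK ℂ)ˣ) : MK ℂ) = 1) (hf : f.totalDegree ≠ 0)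
    (hf0 : constantCoeff f = 0) (h : Rl f F κ) (hF : LTW χ F) : LTW χ f := by
  intro R hR s hs b hb
  obtain ⟨h2, h3⟩ := h.lb hf hf0 b hb
  by_cases h4 : s = -1
  · refine ⟨0, ?_⟩
    rw [h4, Int.cast_zero, add_zero]
    exact h2
  · obtain ⟨c, hc⟩ := exists_factor' h2
    obtain ⟨R', h5, -, h6⟩ := h.ltop hf0 χ hχ R hR
    exact weak_aux κ hc (hF R' h5 _ (h6 s h4 hs) _ (h3 c hc))

end

end Pool.Agent.N101.CB
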