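import Pool.Agent.N101.CB.StmT
import Pool.Agent.Y971.MS.One

/-!
# (TW1) The twisted jets of `f + y z` (helper581)
-/

set_option autoImplicit false

namespace Pool.Agent.N101.CB

open MvPolynomial Pool.Agent.W428.MOT
open Pool.Agent.Y229.MS (addyz)

namespace TW1aux

open Pool.Agent.Y971.MS (aeval_addyz arc_zero)

section
variable {K : Type} [Field K] {n N : ℕ}

/-- the jet -/
def jt {m : ℕ} (w : Pt K (Option (Fin m × Fin (N + 1)))) : Pt K (Fin m × Fin (N + 1)) :=
  fun p => w (some p)

theorem isPA_jt {m : ℕ} (i : Fin m) :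
    IsPA (fun w : Pt K (Option (Fin m × Fin (N + 1))) => arc (jt w) i) := by
  intro j
  simp only [arc, PowerSeries.coeff_mk]
  split_ifs with h
  · exact IsPF.coord _
  · exact IsPF.zero

theorem isPF_co {m : ℕ} (f : MvPolynomial (Fin m) K) (j : ℕ) :
    IsPF (fun w : Pt K (Option (Fin m × Fin (N + 1))) =>
      PowerSeries.coeff j (aeval (arc (jt w)) f)) :=
  IsPA.aeval (fun i w => arc (jt w) i) (fun i => isPA_jt i) f j

theorem constr_JetT {m : ℕ} (f : MvPolynomial (Fin m) K) (e N : ℕ) : Constr (JetT f e N) := by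
  unfold JetT
  refine Constr.and (Constr.ne (IsPF.coord _) IsPF.zero)
    (Constr.and (Constr.allLt _ fun j _ => ?_) ?_)
  · exact Constr.eqz (isPF_co f j)
  · exact Constr.eq (isPF_co f N) ((IsPF.coord none).pow e)

/-- the part `ord y = i` -/
def Pi (n : ℕ) {N : ℕ} (i : Fin (N + 1)) : Set (Pt K (Option (Fin (n + 2) × Fin (N + 1)))) :=
  {w | (∀ j : Fin (N + 1), (j : ℕ) < (i : ℕ) → w (some (Fin.natAdd n 0, j)) = 0) ∧
    w (some (Fin.natAdd n 0, i)) ≠ 0}

/-- the part `y = 0` -/
def P0 (n N : ℕ) : Set (Pt K (Option (Fin (n + 2) × Fin (N + 1)))) :=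
  {w | ∀ j, w (some (Fin.natAdd n 0, j)) = 0}

theorem constr_Pi (i : Fin (N + 1)) : Constr (Pi (K := K) n i) := by
  unfold Pi
  exact (Constr.all fun j => Constr.imp' fun _ => Constr.eqz (IsPF.coord _)).and
    (Constr.eqz (IsPF.coord _)).not

theorem constr_P0 : Constr (P0 (K := K) n N) := Constr.all fun _ => Constr.eqz (IsPF.coord _)

/-- the index of the coordinate `z_(N - i)` -/
def q0 (n : ℕ) {N : ℕ} (i : Fin (N + 1)) : Option (Fin (n + 2) × Fin (N + 1)) :=
  some (Fin.natAdd n 1, ⟨N - i, by omega⟩)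

open Classical in
/-- change of the coordinate `z_(N - i)` -/
noncomputable def up (i : Fin (N + 1)) (δ : AlgebraicClosure K)
    (w : Pt K (Option (Fin (n + 2) × Fin (N + 1)))) : Pt K (Option (Fin (n + 2) × Fin (N + 1))) :=
  Function.update w (q0 n i) (w (q0 n i) + δ)

theorem up_ne (i : Fin (N + 1)) (δ : AlgebraicClosure K)
    (w : Pt K (Option (Fin (n + 2) × Fin (N + 1)))) (a) (h : a ≠ q0 n i) : up i δ w a = w a := by
  unfold up
  rw [Function.update_of_ne h]

theorem up_q0 (i : Fin (N + 1)) (δ : AlgebraicClosure K)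
    (w : Pt K (Option (Fin (n + 2) × Fin (N + 1)))) : up i δ w (q0 n i) = w (q0 n i) + δ := by
  unfold up
  rw [Function.update_self]

theorem none_ne (i : Fin (N + 1)) : none ≠ q0 n i := by
  unfold q0
  exact fun h => by cases h

theorem y_ne (i j : Fin (N + 1)) : some (Fin.natAdd n (0 : Fin 2), j) ≠ q0 n i := by
  unfold q0
  intro h
  have h1 := congrArg Fin.val (Prod.ext_iff.1 (Option.some.inj h)).1
  simp at h1

theorem x_ne (i j : Fin (N + 1)) (a : Fin n) : some (Fin.castAdd 2 a, j) ≠ q0 n i := by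
  unfold q0
  intro h
  have h1 := congrArg Fin.val (Prod.ext_iff.1 (Option.some.inj h)).1
  have := a.2
  simp at h1
  omega

theorem arc_congr {m : ℕ} (w w' : Pt K (Option (Fin m × Fin (N + 1)))) (a : Fin m)
    (h : ∀ j, w (some (a, j)) = w' (some (a, j))) : arc (jt w) a = arc (jt w') a := by
  ext j
  simp only [arc, jt, PowerSeries.coeff_mk, h]

theorem arc_up (i : Fin (N + 1)) (δ : AlgebraicClosure K)
    (w : Pt K (Option (Fin (n + 2) × Fin (N + 1)))) :
    arc (jt (up i δ w)) (Fin.natAdd n 1) = arc (jt w) (Fin.natAdd n 1) +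
      PowerSeries.C δ * PowerSeries.X ^ (N - (i : ℕ)) := by
  ext j
  rw [map_add, PowerSeries.coeff_C_mul, PowerSeries.coeff_X_pow]
  simp only [arc, jt, PowerSeries.coeff_mk]
  by_cases hj : j < N + 1
  · rw [dif_pos hj, dif_pos hj]
    by_cases hji : j = N - (i : ℕ)
    · subst hji
      rw [if_pos rfl, mul_one]
      exact up_q0 i δ w
    · rw [if_neg hji, mul_zero, add_zero]
      apply up_ne
      unfold q0
      intro h
      exact hji (congrArg Fin.val (Prod.ext_iff.1 (Option.some.inj h)).2)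
  · rw [dif_neg hj, dif_neg hj, if_neg (by omega), mul_zero, add_zero]

theorem coeff_up (f : MvPolynomial (Fin n) K) (i : Fin (N + 1)) (δ : AlgebraicClosure K)
    (w : Pt K (Option (Fin (n + 2) × Fin (N + 1)))) (hw : w ∈ Pi n i) (j : ℕ) (hj : j ≤ N) :
    PowerSeries.coeff j (aeval (arc (jt (up i δ w))) (addyz f)) =
      PowerSeries.coeff j (aeval (arc (jt w)) (addyz f)) +
        if j = N then δ * w (some (Fin.natAdd n 0, i)) else 0 := by
  have hi := i.2
  rw [aeval_addyz, aeval_addyz, arc_up,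
    arc_congr (up i δ w) w (Fin.natAdd n 0) fun j => up_ne i δ w _ (y_ne i j)]
  have h1 : (fun a => arc (jt (up i δ w)) (Fin.castAdd 2 a)) =
      fun a => arc (jt w) (Fin.castAdd 2 a) := by
    funext a
    exact arc_congr _ _ _ fun j => up_ne i δ w _ (x_ne i j a)
  rw [h1, mul_add, ← add_assoc, map_add _ _ (arc (jt w) (Fin.natAdd n 0) * _)]
  congr 1
  rw [← mul_assoc, PowerSeries.coeff_mul_X_pow', mul_comm, PowerSeries.coeff_C_mul]
  have h2 : ∀ (k : ℕ) (hk : k < N + 1), PowerSeries.coeff k (arc (jt w) (Fin.natAdd n 0)) =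
      w (some (Fin.natAdd n 0, ⟨k, hk⟩)) := by
    intro k hk
    simp only [arc, jt, PowerSeries.coeff_mk, dif_pos hk]
  by_cases hjN : j = N
  · subst hjN
    rw [if_pos (by omega), if_pos rfl, h2 _ (by omega)]
    have h4 : (⟨j - (j - (i : ℕ)), by omega⟩ : Fin (j + 1)) = i := by
      apply Fin.ext
      change j - (j - (i : ℕ)) = (i : ℕ)
      omega
    rw [h4]
  · rw [if_neg hjN]
    split_ifs with h3
    · rw [h2 _ (by omega), hw.1 _ (by simp only; omega), mul_zero]
    · rfl

theorem up_Pi (i : Fin (N + 1)) (δ : AlgebraicClosure K)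
    (w : Pt K (Option (Fin (n + 2) × Fin (N + 1)))) (hw : w ∈ Pi n i) : up i δ w ∈ Pi n i := by
  refine ⟨fun j hj => ?_, ?_⟩
  · rw [up_ne i δ w _ (y_ne i j)]
    exact hw.1 j hj
  · rw [up_ne i δ w _ (y_ne i i)]
    exact hw.2

/-- the change -/
noncomputable def dl (i : Fin (N + 1)) (e : ℕ) (w : Pt K (Option (Fin (n + 2) × Fin (N + 1)))) :
    AlgebraicClosure K := (w none - w none ^ e) / w (some (Fin.natAdd n 0, i))

theorem rf_dl (i : Fin (N + 1)) (e : ℕ) (S : Set (Pt K (Option (Fin (n + 2) × Fin (N + 1)))))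
    (hS : ∀ w ∈ S, w (some (Fin.natAdd n 0, i)) ≠ 0) : IsRF S (dl (n := n) i e) :=
  IsRF.div (((IsPF.coord none).sub ((IsPF.coord none).pow e)).isRF S)
    ((IsPF.coord _).isRF S) hS

theorem dl_up (i : Fin (N + 1)) (e : ℕ) (δ : AlgebraicClosure K)
    (w : Pt K (Option (Fin (n + 2) × Fin (N + 1)))) : dl i e (up i δ w) = dl i e w := by
  unfold dl
  rw [up_ne i δ w _ (none_ne i), up_ne i δ w _ (y_ne i i)]

theorem parta {R : Type} [CommRing R] (M : Meas K R) (f : MvPolynomial (Fin n) K) (e : ℕ)
    (i : Fin (N + 1)) : M.χ _ (JetT (addyz f) e N ∩ Pi n i) =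
      M.χ _ (JetT (addyz f) 1 N ∩ Pi n i) := by
  refine M.iso _ _ ((constr_JetT _ _ _).inter (constr_Pi i))
    ((constr_JetT _ _ _).inter (constr_Pi i)) (fun w => up i (dl i e w) w)
    (fun w => up i (-(dl i e w)) w) ?_ ?_ ?_ ?_ ?_ ?_
  · intro a
    have h1 := rf_dl (n := n) i e (JetT (addyz f) e N ∩ Pi n i) fun w hw => hw.2.2
    by_cases ha : a = q0 n i
    · subst ha
      refine (((IsPF.coord (q0 n i)).isRF _).add h1).congr fun z _ => up_q0 i _ z
    · exact ((IsPF.coord a).isRF _).congr fun z _ => up_ne i _ z a ha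
  · intro a
    have h1 := rf_dl (n := n) i e (JetT (addyz f) 1 N ∩ Pi n i) fun w hw => hw.2.2
    by_cases ha : a = q0 n i
    · subst ha
      refine (((IsPF.coord (q0 n i)).isRF _).sub h1).congr fun z _ => ?_
      change up i (-(dl i e z)) z (q0 n i) = _
      rw [up_q0, sub_eq_add_neg]
    · exact ((IsPF.coord a).isRF _).congr fun z _ => up_ne i _ z a ha
  · rintro w ⟨⟨h1, h2, h3⟩, h4⟩
    refine ⟨⟨?_, ?_, ?_⟩, up_Pi i _ w h4⟩
    · change up i (dl i e w) w none ≠ 0
      rw [up_ne i _ w _ (none_ne i)]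
      exact h1
    · intro j hj
      have h5 := coeff_up f i (dl i e w) w h4 j hj.le
      rw [if_neg hj.ne, add_zero] at h5
      exact h5.trans (h2 j hj)
    · have h5 := coeff_up f i (dl i e w) w h4 N le_rfl
      rw [if_pos rfl] at h5
      refine h5.trans ?_
      change _ = up i (dl i e w) w none ^ 1
      rw [up_ne i _ w _ (none_ne i), pow_one]
      have h6 : PowerSeries.coeff N (aeval (arc (jt w)) (addyz f)) = w none ^ e := h3
      rw [h6]
      unfold dl
      rw [div_mul_cancel₀ _ h4.2]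
      ring
  · rintro w ⟨⟨h1, h2, h3⟩, h4⟩
    refine ⟨⟨?_, ?_, ?_⟩, up_Pi i _ w h4⟩
    · change up i (-(dl i e w)) w none ≠ 0
      rw [up_ne i _ w _ (none_ne i)]
      exact h1
    · intro j hj
      have h5 := coeff_up f i (-(dl i e w)) w h4 j hj.le
      rw [if_neg hj.ne, add_zero] at h5
      exact h5.trans (h2 j hj)
    · have h5 := coeff_up f i (-(dl i e w)) w h4 N le_rfl
      rw [if_pos rfl] at h5
      refine h5.trans ?_
      change _ = up i (-(dl i e w)) w none ^ e
      rw [up_ne i _ w _ (none_ne i)]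
      have h6 : PowerSeries.coeff N (aeval (arc (jt w)) (addyz f)) = w none ^ 1 := h3
      rw [h6]
      unfold dl
      rw [neg_mul, div_mul_cancel₀ _ h4.2]
      ring
  · intro w _
    change up i (-(dl i e (up i (dl i e w) w))) (up i (dl i e w) w) = w
    rw [dl_up]
    funext a
    by_cases ha : a = q0 n i
    · subst ha
      rw [up_q0, up_q0]
      ring
    · rw [up_ne _ _ _ _ ha, up_ne _ _ _ _ ha]
  · intro w _
    change up i (dl i e (up i (-(dl i e w)) w)) (up i (-(dl i e w)) w) = w
    rw [dl_up]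
    funext a
    by_cases ha : a = q0 n i
    · subst ha
      rw [up_q0, up_q0]
      ring
    · rw [up_ne _ _ _ _ ha, up_ne _ _ _ _ ha]

/-! ### the part `y = 0` -/

/-- forget `y` and `z` -/
def fg (N : ℕ) (w : Pt K (Option (Fin (n + 2) × Fin (N + 1)))) :
    Pt K (Option (Fin n × Fin (N + 1))) :=
  fun p => p.elim (w none) fun q => w (some (Fin.castAdd 2 q.1, q.2))

/-- append zeros -/
noncomputable def ap (N : ℕ) (w : Pt K (Option (Fin n × Fin (N + 1)))) :
    Pt K (Option (Fin (n + 2) × Fin (N + 1))) :=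
  fun p => p.elim (w none) fun q => Fin.addCases (fun i => w (some (i, q.2))) (fun _ => 0) q.1

theorem ap_cast (N : ℕ) (z : Pt K (Option (Fin n × Fin (N + 1)))) (i : Fin n)
    (j : Fin (N + 1)) : ap N z (some (Fin.castAdd 2 i, j)) = z (some (i, j)) := by
  simp [ap]

theorem ap_nat (N : ℕ) (z : Pt K (Option (Fin n × Fin (N + 1)))) (i : Fin 2)
    (j : Fin (N + 1)) : ap N z (some (Fin.natAdd n i, j)) = 0 := by
  simp [ap]

theorem fg_ap (N : ℕ) (z : Pt K (Option (Fin n × Fin (N + 1)))) : fg N (ap N z) = z := by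
  funext p
  cases p with
  | none => rfl
  | some q => exact ap_cast N z q.1 q.2

theorem aeval_y0 (f : MvPolynomial (Fin n) K) (w : Pt K (Option (Fin (n + 2) × Fin (N + 1))))
    (h : w ∈ P0 n N) : aeval (arc (jt w)) (addyz f) = aeval (arc (jt (fg N w))) f := by
  rw [aeval_addyz, arc_zero (jt w) _ h, zero_mul, add_zero]
  rfl

theorem mem_y0 (f : MvPolynomial (Fin n) K) (e : ℕ)
    (w : Pt K (Option (Fin (n + 2) × Fin (N + 1)))) (h : w ∈ P0 n N) :
    w ∈ JetT (addyz f) e N ↔ fg N w ∈ JetT f e N := by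
  have h1 := aeval_y0 f w h
  unfold jt at h1
  unfold JetT
  simp only [Set.mem_ofPred_eq]
  rw [h1]
  rfl

theorem partb {R : Type} [CommRing R] (M : Meas K R) (f : MvPolynomial (Fin n) K) (e : ℕ) :
    M.χ _ (JetT (addyz f) e N ∩ P0 n N) = M.χ _ (JetT f e N) * M.L ^ (N + 1) := by
  classical
  obtain ⟨Y0, hY0⟩ : ∃ Y0 : Set (Pt K (Option (Fin (n + 2) × Fin (N + 1)))),
      Y0 = P0 n N := ⟨_, rfl⟩
  have cY0 : Constr Y0 := by
    rw [hY0]
    exact constr_P0
  have cJ := constr_JetT (addyz f) e N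
  obtain ⟨F1, hF1⟩ : ∃ F1 : Finset (Option (Fin (n + 2) × Fin (N + 1))),
      F1 = (Finset.univ : Finset (Fin (N + 1))).map
        ⟨fun j => some (Fin.natAdd n 1, j), fun a b h =>
          (Prod.ext_iff.1 (Option.some.inj h)).2⟩ := ⟨_, rfl⟩
  have hcard : F1.card = N + 1 := by
    rw [hF1, Finset.card_map, Finset.card_univ, Fintype.card_fin]
  have hmem : ∀ p, p ∈ F1 ↔ ∃ j : Fin (N + 1), some (Fin.natAdd n 1, j) = p := by
    intro p
    rw [hF1]
    simp only [Finset.mem_map, Finset.mem_univ, true_and]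
    exact Iff.rfl
  have hfree := Pool.Agent.W417.MT.Free.main M (JetT (addyz f) e N ∩ Y0) ∅ F1 (fun _ => 0)
    (Finset.disjoint_empty_left _) (cJ.inter cY0) (by
      intro z w hzw hz
      have hz0 : ∀ j, z (some (Fin.natAdd n 0, j)) = 0 := by
        have := hz.2
        rw [hY0] at this
        exact this
      have hne : ∀ (i : Fin (n + 2)) (j : Fin (N + 1)), i ≠ Fin.natAdd n 1 →
          w (some (i, j)) = z (some (i, j)) := by
        intro i j hi
        refine hzw (some (i, j)) (by simp) ?_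
        rw [hmem]
        rintro ⟨k, hk⟩
        exact hi (Prod.ext_iff.1 (Option.some.inj hk)).1.symm
      have hno : w none = z none := by
        refine hzw none (by simp) ?_
        rw [hmem]
        rintro ⟨k, hk⟩
        cases hk
      have hw0 : w ∈ P0 n N := by
        intro j
        rw [hne _ j (by simp [Fin.ext_iff]), hz0 j]
      have hfg : fg N w = fg N z := by
        funext p
        cases p with
        | none => exact hno
        | some p =>
          refine hne _ p.2 ?_
          intro h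
          have h1 := congrArg Fin.val h
          have := p.1.2
          simp at h1
          omega
      refine ⟨?_, by rw [hY0]; exact hw0⟩
      rw [mem_y0 f e w hw0, hfg]
      exact (mem_y0 f e z hz0).1 hz.1)
  simp only [Finset.notMem_empty, false_implies, implies_true, Set.ofPred_true, Set.inter_univ,
    Finset.empty_union, map_zero, Finset.card_empty, pow_zero, mul_one] at hfree
  rw [← hY0, hfree, hcard]
  congr 1
  refine M.iso _ _ ((cJ.inter cY0).inter (Constr.ballFinset _ fun p _ => Constr.eqz (IsPF.coord _)))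
    (constr_JetT f e N) (fg N) (ap N) (regularOn_poly (fun p => ?_) _)
    (regularOn_poly (fun p => ?_) _) ?_ ?_ ?_ ?_
  · cases p with
    | none => exact IsPF.coord _
    | some p => exact IsPF.coord _
  · cases p with
    | none => exact IsPF.coord _
    | some p =>
      obtain ⟨i, j⟩ := p
      refine Fin.addCases (fun i => ?_) (fun i => ?_) i
      · simp only [ap_cast]
        exact IsPF.coord _
      · simp only [ap_nat]
        exact IsPF.zero
  · rintro z ⟨⟨h1, h2⟩, h3⟩
    rw [hY0] at h2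
    exact (mem_y0 f e z h2).1 h1
  · intro z hz
    have h0 : ap N z ∈ P0 n N := fun j => ap_nat N z 0 j
    refine ⟨⟨?_, by rw [hY0]; exact h0⟩, ?_⟩
    · rw [mem_y0 f e _ h0, fg_ap]
      exact hz
    · intro p hp
      rw [hmem] at hp
      obtain ⟨j, rfl⟩ := hp
      exact ap_nat N z 1 j
  · rintro z ⟨⟨h1, h2⟩, h3⟩
    rw [hY0] at h2
    funext p
    cases p with
    | none => rfl
    | some p =>
      obtain ⟨i, j⟩ := p
      refine Fin.addCases (fun i => ?_) (fun i => ?_) i
      · rw [ap_cast]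
        rfl
      · rw [ap_nat]
        have h4 : i = 0 ∨ i = 1 := by
          rcases i with ⟨i, hi⟩
          have : i = 0 ∨ i = 1 := by omega
          rcases this with rfl | rfl
          · left; rfl
          · right; rfl
        rcases h4 with rfl | rfl
        · exact (h2 j).symm
        · exact (h3 (some (Fin.natAdd n 1, j)) (by rw [hmem]; exact ⟨j, rfl⟩)).symm
  · intro z _
    exact fg_ap N z

theorem total {R : Type} [CommRing R] (M : Meas K R) (f : MvPolynomial (Fin n) K) (e N : ℕ) :
    M.χ _ (JetT (addyz f) e N) = M.χ _ (JetT f e N) * M.L ^ (N + 1) +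
      ∑ i : Fin (N + 1), M.χ _ (JetT (addyz f) 1 N ∩ Pi n i) := by
  classical
  obtain ⟨P, hP⟩ : ∃ P : Option (Fin (N + 1)) →
      Set (Pt K (Option (Fin (n + 2) × Fin (N + 1)))),
      P = fun a => Option.elim a (P0 n N) fun i : Fin (N + 1) => Pi n i := ⟨_, rfl⟩
  have hcov := Pool.Agent.W749.MT.χ_cover M (JetT (addyz f) e N) P (constr_JetT _ _ _) (by
      intro a
      rw [hP]
      cases a with
      | none => exact constr_P0
      | some i => exact constr_Pi i)
    (by
      intro a b hab
      rw [Set.disjoint_left, hP]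
      cases a with
      | none =>
        cases b with
        | none => exact absurd rfl hab
        | some b =>
          intro z hz hz'
          exact hz'.2 (hz b)
      | some a =>
        cases b with
        | none =>
          intro z hz hz'
          exact hz.2 (hz' a)
        | some b =>
          intro z hz hz'
          rcases lt_trichotomy (a : ℕ) (b : ℕ) with h1 | h1 | h1
          · exact hz.2 (hz'.1 a h1)
          · exact hab (by rw [Fin.ext h1])
          · exact hz'.2 (hz.1 b h1))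
    (by
      intro z _
      rw [hP]
      by_cases h0 : ∀ j, z (some (Fin.natAdd n 0, j)) = 0
      · exact ⟨none, h0⟩
      · push Not at h0
        have hex : ∃ k : ℕ, ∃ hk : k < N + 1, z (some (Fin.natAdd n 0, ⟨k, hk⟩)) ≠ 0 := by
          obtain ⟨j, hj⟩ := h0
          exact ⟨j, j.2, hj⟩
        obtain ⟨hk, hne⟩ := Nat.find_spec hex
        refine ⟨some ⟨Nat.find hex, hk⟩, ?_, hne⟩
        intro j hj
        have := Nat.find_min hex hj
        push Not at this
        exact this j.2)
  rw [hcov, Fintype.sum_option, hP]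
  simp only [Option.elim]
  rw [partb M f e]
  congr 1
  exact Finset.sum_congr rfl fun i _ => parta M f e i

end

end TW1aux

/-- (TW1) the twisted jets of `f + y z` -/
theorem tw1 : TaskTW1 := by
  intro K _ R _ M n f e N
  rw [TW1aux.total M f e N, TW1aux.total M f 1 N]
  ring

end Pool.Agent.N101.CB
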