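import Pool.Agent.N101.CB.StmT
import Pool.Agent.N101.CB.Psi

/-!
# Project CUB: twisted jets and the automorphism `t ↦ t + v`, `w ↦ w - u`
-/

set_option autoImplicit false

namespace Pool.Agent.N101.CB.TW2aux

open MvPolynomial Pool.Agent.W428.MOT Pool.Agent.W375.MT
open Pool.Agent.Y229.MS (addyz)
open Pool.Agent.Z864.MS (Tm isPF_Tm coeff_Tm Tm_Tm)

variable {K : Type} [Field K] {a b N : ℕ}

/-- composition of jets with a polynomial map, the additional coordinate is not changed -/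
noncomputable def TmO (φ : MvPolynomial (Fin a) K →ₐ[K] MvPolynomial (Fin b) K) (N : ℕ)
    (w : Pt K (Option (Fin b × Fin (N + 1)))) : Pt K (Option (Fin a × Fin (N + 1))) :=
  fun o => o.elim (w none) (fun p => Tm φ N (fun q => w (some q)) p)

theorem TmO_none (φ : MvPolynomial (Fin a) K →ₐ[K] MvPolynomial (Fin b) K)
    (w : Pt K (Option (Fin b × Fin (N + 1)))) : TmO φ N w none = w none := rfl

theorem TmO_some (φ : MvPolynomial (Fin a) K →ₐ[K] MvPolynomial (Fin b) K)
    (w : Pt K (Option (Fin b × Fin (N + 1)))) :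
    (fun p => TmO φ N w (some p)) = Tm φ N (fun q => w (some q)) := rfl

theorem isPF_TmO (φ : MvPolynomial (Fin a) K →ₐ[K] MvPolynomial (Fin b) K)
    (o : Option (Fin a × Fin (N + 1))) : IsPF (fun w => TmO φ N w o) := by
  cases o with
  | none => exact IsPF.coord none
  | some p => exact (isPF_Tm φ p).comp (fun w q => w (some q)) (fun q => IsPF.coord (some q))

theorem constr_JetT (f : MvPolynomial (Fin a) K) (e N : ℕ) : Constr (JetT f e N) := by
  have h : ∀ j, IsPF (fun w : Pt K (Option (Fin a × Fin (N + 1))) =>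
      PowerSeries.coeff j (aeval (arc fun p => w (some p)) f)) := by
    intro j
    exact IsPF.comp (IsPA.aeval (fun i z => arc z i) (fun i => isPA_arc (N := N) i) f j)
      (fun w q => w (some q)) (fun q => IsPF.coord (some q))
  unfold JetT
  refine Constr.and (Constr.not (Constr.eqz (IsPF.coord none)))
    (Constr.and (Constr.allLt _ fun j _ => ?_) ?_)
  · exact Constr.eqz (h j)
  · exact Constr.eq (h N) ((IsPF.coord none).pow e)

theorem TmO_TmO (φ : MvPolynomial (Fin a) K →ₐ[K] MvPolynomial (Fin b) K)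
    (φ' : MvPolynomial (Fin b) K →ₐ[K] MvPolynomial (Fin a) K)
    (h : ∀ g, φ (φ' g) = g) (w : Pt K (Option (Fin b × Fin (N + 1)))) :
    TmO φ' N (TmO φ N w) = w := by
  funext o
  cases o with
  | none => rfl
  | some p => exact congrFun (Tm_Tm φ φ' h (fun q => w (some q))) p

theorem inv (R : Type) [CommRing R] (M : Meas K R)
    (ψ : MvPolynomial (Fin a) K ≃ₐ[K] MvPolynomial (Fin b) K) (f : MvPolynomial (Fin a) K)
    (e N : ℕ) : M.χ _ (JetT (ψ f) e N) = M.χ _ (JetT f e N) := by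
  have h1 : ∀ g, (ψ : MvPolynomial (Fin a) K →ₐ[K] MvPolynomial (Fin b) K)
      ((ψ.symm : MvPolynomial (Fin b) K →ₐ[K] MvPolynomial (Fin a) K) g) = g :=
    fun g => ψ.apply_symm_apply g
  have h2 : ∀ g, (ψ.symm : MvPolynomial (Fin b) K →ₐ[K] MvPolynomial (Fin a) K)
      ((ψ : MvPolynomial (Fin a) K →ₐ[K] MvPolynomial (Fin b) K) g) = g :=
    fun g => ψ.symm_apply_apply g
  refine M.iso _ _ (constr_JetT _ e N) (constr_JetT f e N)
    (TmO (ψ : MvPolynomial (Fin a) K →ₐ[K] MvPolynomial (Fin b) K) N)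
    (TmO (ψ.symm : MvPolynomial (Fin b) K →ₐ[K] MvPolynomial (Fin a) K) N)
    (regularOn_poly (fun p => isPF_TmO _ p) _) (regularOn_poly (fun p => isPF_TmO _ p) _)
    ?_ ?_ (fun z _ => TmO_TmO _ _ h1 z) (fun z _ => TmO_TmO _ _ h2 z)
  · rintro w ⟨g1, g2, g3⟩
    refine ⟨g1, fun j hj => ?_, ?_⟩
    · rw [TmO_some, coeff_Tm _ _ _ _ hj.le]
      exact g2 j hj
    · rw [TmO_some, coeff_Tm _ _ _ _ le_rfl]
      exact g3
  · rintro w ⟨g1, g2, g3⟩
    have e3 : (ψ.symm : MvPolynomial (Fin b) K →ₐ[K] MvPolynomial (Fin a) K) (ψ f) = f :=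
      ψ.symm_apply_apply f
    refine ⟨g1, fun j hj => ?_, ?_⟩
    · rw [TmO_some, coeff_Tm _ _ _ _ hj.le, e3]
      exact g2 j hj
    · rw [TmO_some, coeff_Tm _ _ _ _ le_rfl, e3]
      exact g3

end Pool.Agent.N101.CB.TW2aux

namespace Pool.Agent.N101.CB

theorem tw2 : TaskTW2 := by
  intro K _ R _ M n f u v e N
  have h := TW2aux.inv R M (psiE u v) (Pool.Agent.Y229.MS.addyz f) e N
  rwa [psiE_addyz] at h

end Pool.Agent.N101.CB
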