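import Pool.Agent.N101.CB.StmT
import Pool.Agent.Z864.MS.Three
import Pool.Agent.W417.MT.K0

/-!
# Project CUB: the untwisted motivic zeta function (TW3)
-/

set_option autoImplicit false

namespace Pool.Agent.N101.CB

open MvPolynomial Pool.Agent.W428.MOT
open Pool.Agent.W375.MG (JetG Good)

namespace TW3aux

variable {K : Type} [Field K] {n : ℕ}

theorem isPF_arc (f : MvPolynomial (Fin n) K) (N j : ℕ) :
    IsPF (fun z : Pt K (Fin n × Fin (N + 1)) => PowerSeries.coeff j (aeval (arc z) f)) :=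
  IsPA.aeval (fun i (z : Pt K (Fin n × Fin (N + 1))) => arc z i) (fun i => isPA_arc i) f j

theorem isPF_some (f : MvPolynomial (Fin n) K) (N j : ℕ) :
    IsPF (fun w : Pt K (Option (Fin n × Fin (N + 1))) =>
      PowerSeries.coeff j (aeval (arc fun p => w (some p)) f)) :=
  (isPF_arc f N j).comp (fun w p => w (some p)) fun p => IsPF.coord (some p)

theorem constr_JetT (f : MvPolynomial (Fin n) K) (e N : ℕ) : Constr (JetT f e N) :=
  Constr.and (Constr.eqz (IsPF.coord none)).not
    (Constr.and (Constr.allLt N fun j _ => Constr.eqz (isPF_some f N j))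
      (Constr.eq (isPF_some f N N) ((IsPF.coord none).pow e)))

theorem constr_JetU (f : MvPolynomial (Fin n) K) (N : ℕ) :
    Constr (JetG f (Set.univ : Set (Pt K (Fin n))) (Un K) N) :=
  Pool.Agent.W375.MG.constr_JetG f Constr.univ Pool.Agent.W375.MG.good_units N

theorem cls_T (f : MvPolynomial (Fin n) K) (N : ℕ) :
    cls (Fin n × Fin (N + 1)) (JetG f (Set.univ : Set (Pt K (Fin n))) (Un K) N) =
      cls (Option (Fin n × Fin (N + 1))) (JetT f 1 N) := by
  refine Pool.Agent.W417.MT.K0.cls_iso _ _ (constr_JetU f N) (constr_JetT f 1 N)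
    (fun z o => Option.elim o (PowerSeries.coeff N (aeval (arc z) f)) z)
    (fun w p => w (some p)) (regularOn_poly (fun o => ?_) _)
    (regularOn_poly (fun p => IsPF.coord (some p)) _) ?_ ?_ (fun z _ => rfl) ?_
  · rcases o with _ | p
    · exact isPF_arc f N N
    · exact IsPF.coord p
  · rintro z ⟨-, h1, h2⟩
    refine ⟨h2, h1, ?_⟩
    exact (pow_one _).symm
  · rintro w ⟨h1, h2, h3⟩
    refine ⟨Set.mem_univ _, h2, ?_⟩
    change PowerSeries.coeff N (aeval (arc fun p => w (some p)) f) ≠ 0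
    rw [h3, pow_one]
    exact h1
  · rintro w ⟨h1, h2, h3⟩
    funext o
    rcases o with _ | p
    · change PowerSeries.coeff N (aeval (arc fun p => w (some p)) f) = w none
      rw [h3, pow_one]
    · rfl

theorem cls_0 (f : MvPolynomial (Fin n) K) :
    cls (Fin n × Fin (0 + 1)) (JetG f (Set.univ : Set (Pt K (Fin n))) (Un K) 0) =
      cls (Fin n) {z : Pt K (Fin n) | aeval z f ≠ 0} := by
  refine Pool.Agent.W417.MT.K0.cls_iso _ _ (constr_JetU f 0) (Constr.eqz (IsPF.poly f)).not
    (fun z i => z (i, 0)) (fun w p => w p.1) (regularOn_poly (fun i => IsPF.coord (i, 0)) _)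
    (regularOn_poly (fun p : Fin n × Fin (0 + 1) => IsPF.coord p.1) _) ?_ ?_ (fun z _ => ?_)
    (fun _ _ => rfl)
  · rintro z ⟨-, -, h2⟩
    change aeval (fun i => z (i, 0)) f ≠ 0
    rw [← Pool.Agent.Z864.MS.coeff_zero_aeval]
    exact h2
  · intro w hw
    refine ⟨Set.mem_univ _, fun j hj => absurd hj (Nat.not_lt_zero j), ?_⟩
    change PowerSeries.coeff 0 (aeval (arc fun p : Fin n × Fin (0 + 1) => w p.1) f) ≠ 0
    rw [Pool.Agent.Z864.MS.coeff_zero_aeval]
    exact hw
  · funext p
    obtain ⟨i, k⟩ := p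
    have hk : k = 0 := by
      apply Fin.ext
      have := k.2
      change (k : ℕ) = 0
      omega
    rw [hk]

end TW3aux

open TW3aux in
theorem tw3 : TaskTW3 := by
  intro K _ _ n f
  ext N
  rw [map_add, zt, zte, PowerSeries.coeff_mk, PowerSeries.coeff_mk, PowerSeries.coeff_C]
  by_cases hN : N = 0
  · subst hN
    rw [if_pos rfl, if_pos rfl, add_zero, clM, clM, cls_0, mul_zero, Nat.cast_zero, neg_zero,
      zpow_zero, Units.val_one, mul_one]
  · rw [if_neg hN, if_neg hN, zero_add, clM, clM, cls_T]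

end Pool.Agent.N101.CB
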