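import Pool.Agent.N101.CB.TopFin
import Pool.Agent.N101.CB.Form
import Pool.Agent.N101.CB.Tw1
import Pool.Agent.N101.CB.Tw2
import Pool.Agent.N101.CB.Tw3
import Mathlib.NumberTheory.ArithmeticFunction.Moebius

/-!
# Project CUB: twisted topological zeta functions
-/

set_option autoImplicit false

namespace Pool.Agent.N101.CB

open MvPolynomial Pool.Agent.W428.MOT
open Pool.Agent.Y229.MS (addyz)
open Pool.Agent.H628R4.TP (IsBFunction IsLocalBFunction)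

/-- The motivic zeta function `∑_{d ∣ e} μ(e / d) ∑_{N ≥ 1} [{(z, w) : f(z) = w ^ d t ^ N}] 𝕃 ^ (-n N) T ^ N`. -/
noncomputable def Mte {n : ℕ} (f : MvPolynomial (Fin n) ℂ) (e : ℕ) : PowerSeries (MK ℂ) :=
  ∑ d ∈ e.divisors, PowerSeries.C ((ArithmeticFunction.moebius (e / d) : ℤ) : MK ℂ) * zte f d

namespace TW

theorem unit_id (n N : ℕ) : ((Lu ℂ : (MK ℂ)ˣ) : MK ℂ) ^ (N + 1) *
    (((Lu ℂ) ^ (-(((n + 2) * N : ℕ) : ℤ)) : (MK ℂ)ˣ) : MK ℂ) =
      ((Lu ℂ : (MK ℂ)ˣ) : MK ℂ) * ((((Lu ℂ)⁻¹ : (MK ℂ)ˣ) : MK ℂ) ^ N *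
        (((Lu ℂ) ^ (-((n * N : ℕ) : ℤ)) : (MK ℂ)ˣ) : MK ℂ)) := by
  rw [← Units.val_pow_eq_pow_val, ← Units.val_pow_eq_pow_val, ← Units.val_mul, ← Units.val_mul,
    ← Units.val_mul]
  congr 1
  rw [← zpow_natCast, inv_pow, ← zpow_natCast, ← zpow_neg, ← zpow_add, ← zpow_add, ← zpow_one_add]
  congr 1
  push_cast
  ring

/-- **The formula of a step.** -/
theorem diff_step {n : ℕ} (f u v : MvPolynomial (Fin n) ℂ) (e : ℕ) :
    zte (stp f u v) e - zte (stp f u v) 1 =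
      cL ℂ * PowerSeries.rescale (((Lu ℂ)⁻¹ : (MK ℂ)ˣ) : MK ℂ) (zte f e - zte f 1) := by
  obtain ⟨M, hM, hL⟩ := clM_full ℂ
  ext N
  rw [map_sub, cL, PowerSeries.coeff_C_mul, PowerSeries.coeff_rescale, map_sub]
  unfold zte
  rw [PowerSeries.coeff_mk, PowerSeries.coeff_mk, PowerSeries.coeff_mk, PowerSeries.coeff_mk]
  by_cases hN : N = 0
  · simp [hN]
  · rw [if_neg hN, if_neg hN, if_neg hN, if_neg hN]
    have h1 := tw1 ℂ _ M f e N
    rw [← tw2 ℂ _ M f u v e N, ← tw2 ℂ _ M f u v 1 N] at h1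
    simp only [hM, hL] at h1
    have h2 := unit_id n N
    set A := clM (JetT (stp f u v) e N)
    set B := clM (JetT (stp f u v) 1 N)
    set A' := clM (JetT f e N)
    set B' := clM (JetT f 1 N)
    linear_combination
      ((((Lu ℂ) ^ (-(((n + 2) * N : ℕ) : ℤ)) : (MK ℂ)ˣ) : MK ℂ)) * h1 + (A' - B') * h2

theorem sum_mu {e : ℕ} (he : 2 ≤ e) :
    ∑ d ∈ e.divisors, ((ArithmeticFunction.moebius (e / d) : ℤ) : MK ℂ) = 0 := by
  have h := ArithmeticFunction.coe_mul_zeta_apply (R := ℤ) (f := ArithmeticFunction.moebius)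
    (x := e)
  rw [ArithmeticFunction.moebius_mul_coe_zeta, ArithmeticFunction.one_apply_ne (by omega)] at h
  have h2 := Nat.sum_div_divisors e (fun d => (ArithmeticFunction.moebius d : ℤ))
  rw [← h] at h2
  exact_mod_cast congrArg (fun x : ℤ => (x : MK ℂ)) h2

theorem Mte_eq {n : ℕ} (f : MvPolynomial (Fin n) ℂ) {e : ℕ} (he : 2 ≤ e) :
    Mte f e = ∑ d ∈ e.divisors,
      PowerSeries.C ((ArithmeticFunction.moebius (e / d) : ℤ) : MK ℂ) * (zte f d - zte f 1) := by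
  have h : ∑ d ∈ e.divisors, PowerSeries.C ((ArithmeticFunction.moebius (e / d) : ℤ) : MK ℂ) *
      zte f 1 = 0 := by
    rw [← Finset.sum_mul, ← map_sum, sum_mu he, map_zero, zero_mul]
  simp only [mul_sub]
  rw [Finset.sum_sub_distrib, h, sub_zero, Mte]

/-- **The formula of a step for the twisted zeta functions.** -/
theorem Mte_step {n : ℕ} (f u v : MvPolynomial (Fin n) ℂ) {e : ℕ} (he : 2 ≤ e) :
    Mte (stp f u v) e =
      cL ℂ * PowerSeries.rescale (((Lu ℂ)⁻¹ : (MK ℂ)ˣ) : MK ℂ) (Mte f e) := by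
  rw [Mte_eq _ he, Mte_eq _ he, map_sum, Finset.mul_sum]
  refine Finset.sum_congr rfl fun d _ => ?_
  rw [diff_step, map_mul, Pool.Agent.Y229.MS.rescale_C']
  ring

theorem Mte_one {n : ℕ} (f : MvPolynomial (Fin n) ℂ) : Mte f 1 = zte f 1 := by
  rw [Mte, Nat.divisors_one, Finset.sum_singleton]
  simp

/-- All relations, with the twisted zeta functions. -/
structure RT {n m : ℕ} (f : MvPolynomial (Fin n) ℂ) (F : MvPolynomial (Fin m) ℂ) (κ : ℕ) :
    Prop where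
  rl : Rl f F κ
  mot : ∀ e, 2 ≤ e → Mte F e = cL ℂ ^ κ * rsk κ (Mte f e)
  tw : ∀ e, 2 ≤ e → ∀ χ : MK ℂ →+* ℂ, χ ((Lu ℂ : (MK ℂ)ˣ) : MK ℂ) = 1 → ∀ R : RatFunc ℂ,
    IsTop χ (Mte f e) R → IsTop χ (Mte F e) (shR (κ : ℂ) R)

theorem RT.refl {n : ℕ} (f : MvPolynomial (Fin n) ℂ) : RT f f 0 where
  rl := Rl.refl f
  mot e _ := by rw [rsk_zero, pow_zero, one_mul]
  tw e _ χ _ R h := by
    rw [Nat.cast_zero, shR_zero]
    exact h

theorem RT.step {n m : ℕ} (f u v : MvPolynomial (Fin n) ℂ) (F : MvPolynomial (Fin m) ℂ) (κ : ℕ)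
    (hu : constantCoeff u = 0) (hv : constantCoeff v = 0) (h : RT (stp f u v) F κ) :
    RT f F (κ + 1) where
  rl := Rl.step f u v F κ hu hv h.rl
  mot e he := by
    have e1 : rsk κ (cL ℂ) = cL ℂ := rsk_C _ _
    rw [h.mot e he, Mte_step f u v he, ← rsk_one, map_mul, e1, rsk_rsk, pow_succ]
    ring
  tw e he χ hχ R hR := by
    have h1 : IsTop χ (Mte (stp f u v) e) (shR 1 R) := by
      rw [Mte_step f u v he]
      have h2 := isTop_mul (isTop_cL hχ) (isTop_rescale hR)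
      rwa [one_mul] at h2
    have h2 := h.tw e he χ hχ _ h1
    rw [shR_add] at h2
    push_cast
    exact h2

/-- **The cubic of a polynomial.** -/
theorem exists_cubic_tw {n : ℕ} (f : MvPolynomial (Fin n) ℂ) :
    ∃ (κ m : ℕ) (F : MvPolynomial (Fin m) ℂ), m = n + 2 * κ ∧ Cub F ∧ RT f F κ :=
  chain (fun f F κ => RT f F κ) (fun f => RT.refl f)
    (fun f u v F κ hu hv h => RT.step f u v F κ hu hv h) f

section
variable (χ : MK ℂ →+* ℂ) {n m : ℕ}

/-- `R` is a twisted topological zeta function. -/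
def IsTw {n : ℕ} (f : MvPolynomial (Fin n) ℂ) (e : ℕ) (R : RatFunc ℂ) : Prop :=
  IsTop χ (Mte f e) ((Nat.totient e : RatFunc ℂ) * R)

/-- the strong conjecture for the twisted topological zeta function -/
def TwS (e : ℕ) (f : MvPolynomial (Fin n) ℂ) : Prop :=
  ∀ R : RatFunc ℂ, IsTw χ f e R → ∀ s : ℂ, ¬ Reg R s →
    ∀ b : Polynomial ℂ, IsBFunction f b → b.eval s = 0

/-- the weak conjecture for the twisted topological zeta function -/
def TwW (e : ℕ) (f : MvPolynomial (Fin n) ℂ) : Prop :=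
  ∀ R : RatFunc ℂ, IsTw χ f e R → ∀ s : ℂ, ¬ Reg R s →
    ∀ b : Polynomial ℂ, IsBFunction f b → ∃ k : ℤ, b.eval (s + k) = 0

variable {χ}

theorem reg_const {R : RatFunc ℂ} {s : ℂ} (c : ℂ)
    (h : Reg (algebraMap (Polynomial ℂ) (RatFunc ℂ) (Polynomial.C c) + R) s) : Reg R s := by
  have h1 := h.sub (Reg.poly (Polynomial.C c) s)
  rwa [add_sub_cancel_left] at h1

/-- the case `e = 1` -/
theorem isTw_one {n : ℕ} (f : MvPolynomial (Fin n) ℂ) {R : RatFunc ℂ} :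
    IsTw χ f 1 R ↔ IsTop χ (zt f Set.univ)
      (algebraMap (Polynomial ℂ) (RatFunc ℂ)
        (Polynomial.C (χ (clM {z : Pt ℂ (Fin n) | aeval z f ≠ 0}))) + R) := by
  unfold IsTw
  rw [Mte_one, Nat.totient_one, Nat.cast_one, one_mul, tw3 ℂ f]
  constructor
  · intro h
    exact isTop_add (isTop_C χ _) h
  · intro h
    have h1 := isTop_add (isTop_neg (isTop_C χ (clM {z : Pt ℂ (Fin n) | aeval z f ≠ 0}))) h
    rwa [neg_add_cancel_left, neg_add_cancel_left] at h1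

theorem twS_one (f : MvPolynomial (Fin n) ℂ) : TwS χ 1 f ↔ TS χ f := by
  constructor
  · intro h R hR s hs b hb
    refine h (-(algebraMap (Polynomial ℂ) (RatFunc ℂ)
        (Polynomial.C (χ (clM {z : Pt ℂ (Fin n) | aeval z f ≠ 0})))) + R) ?_ s ?_ b hb
    · rw [isTw_one, add_neg_cancel_left]
      exact hR
    · intro h1
      apply hs
      have h2 := h1.add (Reg.poly (Polynomial.C (χ (clM {z : Pt ℂ (Fin n) | aeval z f ≠ 0}))) s)
      rwa [neg_add_eq_sub, sub_add_cancel] at h2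
  · intro h R hR s hs b hb
    exact h _ ((isTw_one f).1 hR) s (fun h1 => hs (reg_const _ h1)) b hb

theorem twW_one (f : MvPolynomial (Fin n) ℂ) : TwW χ 1 f ↔ TW χ f := by
  constructor
  · intro h R hR s hs b hb
    refine h (-(algebraMap (Polynomial ℂ) (RatFunc ℂ)
        (Polynomial.C (χ (clM {z : Pt ℂ (Fin n) | aeval z f ≠ 0})))) + R) ?_ s ?_ b hb
    · rw [isTw_one, add_neg_cancel_left]
      exact hR
    · intro h1
      apply hs
      have h2 := h1.add (Reg.poly (Polynomial.C (χ (clM {z : Pt ℂ (Fin n) | aeval z f ≠ 0}))) s)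
      rwa [neg_add_eq_sub, sub_add_cancel] at h2
  · intro h R hR s hs b hb
    exact h _ ((isTw_one f).1 hR) s (fun h1 => hs (reg_const _ h1)) b hb

variable {f : MvPolynomial (Fin n) ℂ} {F : MvPolynomial (Fin m) ℂ} {κ : ℕ}

theorem isTw_shift (hχ : χ ((Lu ℂ : (MK ℂ)ˣ) : MK ℂ) = 1) (h : RT f F κ) {e : ℕ} (he : 2 ≤ e)
    {R : RatFunc ℂ} (hR : IsTw χ f e R) : IsTw χ F e (shR (κ : ℂ) R) := by
  have h1 := h.tw e he χ hχ _ hR
  rwa [map_mul, map_natCast] at h1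

theorem not_reg_shift {R : RatFunc ℂ} {s : ℂ} (κ : ℕ) (hs : ¬ Reg R s) :
    ¬ Reg (shR (κ : ℂ) R) (s - κ) := by
  intro h
  apply hs
  have h1 := h.shR (-(κ : ℂ))
  rw [shR_shR] at h1
  simpa using h1

theorem neg_of_tw {e : ℕ} (he : 1 ≤ e) {R : RatFunc ℂ} (hR : IsTw χ f e R) {s : ℂ}
    (hs : ¬ Reg R s) : ∃ q : ℚ, q < 0 ∧ s = (q : ℂ) := by
  refine ne_of_pole hR fun h => hs ?_
  have h0 : (Nat.totient e : ℂ) ≠ 0 := by
    have := Nat.totient_pos.2 (show 0 < e by omega)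
    exact_mod_cast this.ne'
  have h1 := (Reg.poly (Polynomial.C (Nat.totient e : ℂ)⁻¹) s).mul h
  have e1 : algebraMap (Polynomial ℂ) (RatFunc ℂ) (Polynomial.C (Nat.totient e : ℂ)⁻¹) *
      ((Nat.totient e : RatFunc ℂ) * R) = R := by
    rw [← mul_assoc, ← map_natCast (algebraMap (Polynomial ℂ) (RatFunc ℂ)), ← map_mul,
      ← Polynomial.C_eq_natCast, ← map_mul, inv_mul_cancel₀ h0, map_one, map_one, one_mul]
  rwa [e1] at h1

theorem twS_of (hχ : χ ((Lu ℂ : (MK ℂ)ˣ) : MK ℂ) = 1) (hf : f.totalDegree ≠ 0) (h : RT f F κ)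
    {e : ℕ} (he : 1 ≤ e) (hF : TwS χ e F) : TwS χ e f := by
  rcases Nat.eq_or_lt_of_le he with rfl | he'
  · rw [twS_one] at hF ⊢
    exact ts_of hχ hf h.rl hF
  · intro R hR s hs b hb
    obtain ⟨h2, h3⟩ := h.rl.b hf b hb
    by_cases h4 : s = -1
    · rw [h4]
      exact h2
    · obtain ⟨c, hc⟩ := exists_factor' h2
      exact strong_aux (neg_of_tw he hR hs) κ h4 hc
        (hF _ (isTw_shift hχ h he' hR) _ (not_reg_shift κ hs) _ (h3 c hc))

theorem twW_of (hχ : χ ((Lu ℂ : (MK ℂ)ˣ) : MK ℂ) = 1) (hf : f.totalDegree ≠ 0) (h : RT f F κ)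
    {e : ℕ} (he : 1 ≤ e) (hF : TwW χ e F) : TwW χ e f := by
  rcases Nat.eq_or_lt_of_le he with rfl | he'
  · rw [twW_one] at hF ⊢
    exact tw_of hχ hf h.rl hF
  · intro R hR s hs b hb
    obtain ⟨h2, h3⟩ := h.rl.b hf b hb
    obtain ⟨c, hc⟩ := exists_factor' h2
    exact weak_aux κ hc (hF _ (isTw_shift hχ h he' hR) _ (not_reg_shift κ hs) _ (h3 c hc))

end

end TW

end Pool.Agent.N101.CB
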