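import Pool.Agent.N101.CB.TwMain

set_option autoImplicit false

/-!
# Topological zeta functions without constant term are proper rational functions
-/

namespace Pool.Agent.N101.CB

open MvPolynomial Pool.Agent.W428.MOT

/-- zero, or of negative degree -/
def Prp (R : RatFunc ℂ) : Prop := R = 0 ∨ R.intDegree < 0

theorem Prp.add {R S : RatFunc ℂ} (hR : Prp R) (hS : Prp S) : Prp (R + S) := by
  rcases hR with rfl | hR
  · rwa [zero_add]
  · rcases hS with rfl | hS
    · rw [add_zero]
      exact Or.inr hR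
    · by_cases h : R + S = 0
      · exact Or.inl h
      · right
        by_cases hS0 : S = 0
        · rw [hS0, add_zero]
          exact hR
        · exact (RatFunc.intDegree_add_le hS0 h).trans_lt (max_lt hR hS)

theorem Prp.mul {R S : RatFunc ℂ} (hR : Prp R) (hS : Prp S) : Prp (R * S) := by
  rcases hR with rfl | hR
  · exact Or.inl (zero_mul _)
  · rcases hS with rfl | hS
    · exact Or.inl (mul_zero _)
    · by_cases hR0 : R = 0
      · exact Or.inl (by rw [hR0, zero_mul])
      · by_cases hS0 : S = 0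
        · exact Or.inl (by rw [hS0, mul_zero])
        · right
          rw [RatFunc.intDegree_mul hR0 hS0]
          omega

theorem Prp.smul {R : RatFunc ℂ} (hR : Prp R) (a : ℂ) : Prp (algebraMap ℂ (RatFunc ℂ) a * R) := by
  by_cases ha : a = 0
  · exact Or.inl (by rw [ha, map_zero, zero_mul])
  · rcases hR with rfl | hR
    · exact Or.inl (mul_zero _)
    · by_cases hR0 : R = 0
      · exact Or.inl (by rw [hR0, mul_zero])
      · right
        have h1 : algebraMap ℂ (RatFunc ℂ) a = RatFunc.C a := rfl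
        have h2 : RatFunc.C a ≠ 0 := by
          rw [Ne, map_eq_zero]
          exact ha
        rw [h1, RatFunc.intDegree_mul h2 hR0, RatFunc.intDegree_C, zero_add]
        exact hR

theorem prp_ft (p : ℕ × ℕ) : Prp (ft p) := by
  right
  have h1 : ((p.1 : RatFunc ℂ) + 1) * RatFunc.X + ((p.2 : RatFunc ℂ) + 1) =
      algebraMap (Polynomial ℂ) (RatFunc ℂ)
        (Polynomial.C ((p.1 : ℂ) + 1) * Polynomial.X + Polynomial.C ((p.2 : ℂ) + 1)) := by
    rw [map_add, map_mul, RatFunc.algebraMap_X, RatFunc.algebraMap_C, RatFunc.algebraMap_C]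
    simp
  have h2 : (Polynomial.C ((p.1 : ℂ) + 1) * Polynomial.X +
      Polynomial.C ((p.2 : ℂ) + 1)).natDegree = 1 :=
    Polynomial.natDegree_linear (by exact_mod_cast Nat.succ_ne_zero p.1)
  rw [ft, RatFunc.intDegree_inv, h1, RatFunc.intDegree_polynomial, h2]
  norm_num

theorem prp_monomial (m : (ℕ × ℕ) →₀ ℕ) (hm : m ≠ 0) : Prp (m.prod fun p k => ft p ^ k) := by
  obtain ⟨p, hp⟩ : ∃ p, p ∈ m.support := Finsupp.support_nonempty_iff.2 hm
  have key : ∀ s : Finset (ℕ × ℕ), s ⊆ m.support → s.Nonempty →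
      Prp (∏ p ∈ s, ft p ^ m p) := by
    have hpow : ∀ (q : ℕ × ℕ) (k : ℕ), k ≠ 0 → Prp (ft q ^ k) := by
      intro q k hk
      obtain ⟨k, rfl⟩ := Nat.exists_eq_succ_of_ne_zero hk
      induction k with
      | zero => rw [pow_one]; exact prp_ft q
      | succ k ih => rw [pow_succ]; exact (ih (Nat.succ_ne_zero k)).mul (prp_ft q)
    intro s hs hne
    induction hne using Finset.Nonempty.cons_induction with
    | singleton q =>
      rw [Finset.prod_singleton]
      exact hpow q _ (Finsupp.mem_support_iff.1 (hs (Finset.mem_singleton_self q)))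
    | cons q s hq hne ih =>
      rw [Finset.prod_cons]
      exact (hpow q _ (Finsupp.mem_support_iff.1 (hs (Finset.mem_cons_self q s)))).mul
        (ih fun x hx => hs (Finset.mem_cons_of_mem hx))
  exact key _ subset_rfl ⟨p, hp⟩

theorem prp_eval (g : MK ℂ →+* ℂ) (Q : MvPolynomial (ℕ × ℕ) (MK ℂ))
    (hQ : MvPolynomial.constantCoeff Q = 0) :
    Prp (eval₂ ((algebraMap ℂ (RatFunc ℂ)).comp g) ft Q) := by
  classical
  rw [MvPolynomial.eval₂_eq]
  have key : ∀ s : Finset ((ℕ × ℕ) →₀ ℕ), Prp (∑ d ∈ s,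
      ((algebraMap ℂ (RatFunc ℂ)).comp g) (coeff d Q) * ∏ i ∈ d.support, ft i ^ d i) := by
    intro s
    induction s using Finset.induction_on with
    | empty => exact Or.inl rfl
    | insert d s hd ih =>
      rw [Finset.sum_insert hd]
      refine Prp.add ?_ ih
      by_cases h0 : d = 0
      · left
        rw [h0]
        have : coeff 0 Q = 0 := hQ
        rw [this, map_zero, zero_mul]
      · exact (prp_monomial d h0).smul _
  exact key _

theorem constantCoeff_Fz (N ν : ℕ) :
    PowerSeries.constantCoeff (Fz ℂ (N + 1) ν) = 0 := by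
  rw [Fz]
  simp

theorem constantCoeff_aeval (Q : MvPolynomial (ℕ × ℕ) (MK ℂ)) :
    PowerSeries.constantCoeff (aeval (fun p => Fz ℂ (p.1 + 1) (p.2 + 1)) Q) =
      MvPolynomial.constantCoeff Q := by
  induction Q using MvPolynomial.induction_on with
  | C a => simp [MvPolynomial.algHom_C]
  | add p q hp hq => rw [map_add, map_add, hp, hq, map_add]
  | mul_X p i hp => rw [map_mul, map_mul, aeval_X, constantCoeff_Fz, mul_zero, map_mul,
      MvPolynomial.constantCoeff_X, mul_zero]

theorem constantCoeff_Mte {n : ℕ} (f : MvPolynomial (Fin n) ℂ) (e : ℕ) :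
    PowerSeries.constantCoeff (Mte f e) = 0 := by
  rw [Mte, map_sum]
  refine Finset.sum_eq_zero fun d _ => ?_
  rw [map_mul]
  have h1 : PowerSeries.constantCoeff (zte f d) = 0 := by
    rw [← PowerSeries.coeff_zero_eq_constantCoeff_apply, zte, PowerSeries.coeff_mk, if_pos rfl]
  rw [h1, mul_zero]

/-- twisted topological zeta functions are zero or of negative degree -/
theorem prp_tw {χ : MK ℂ →+* ℂ} {n : ℕ} {f : MvPolynomial (Fin n) ℂ} {e : ℕ} {R : RatFunc ℂ}
    (h : IsTop χ (Mte f e) R) : Prp R := by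
  obtain ⟨Q, h1, rfl⟩ := h
  refine prp_eval χ Q ?_
  rw [← constantCoeff_aeval, ← h1, constantCoeff_Mte]

/-- a polynomial which is zero or of negative degree is zero -/
theorem Prp.eq_zero {R : RatFunc ℂ} (h : Prp R) {p : Polynomial ℂ}
    (hp : R = algebraMap (Polynomial ℂ) (RatFunc ℂ) p) : R = 0 := by
  rcases h with h | h
  · exact h
  · exfalso
    rw [hp, RatFunc.intDegree_polynomial] at h
    omega

end Pool.Agent.N101.CB
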